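import Pool.Agent.LadderVeech.Limit

open Set Filter Topology
open scoped commutatorElement

namespace LadderVeech

lemma gl_ext {A B : GL (Fin 2) ℝ} (h00 : A 0 0 = B 0 0) (h01 : A 0 1 = B 0 1)
    (h10 : A 1 0 = B 1 0) (h11 : A 1 1 = B 1 1) : A = B := by
  apply Matrix.GeneralLinearGroup.ext
  intro i j
  fin_cases i <;> fin_cases j <;> simpa

lemma mul_entry (A B : GL (Fin 2) ℝ) (i j : Fin 2) :
    (A * B) i j = A i 0 * B 0 j + A i 1 * B 1 j := by
  simp [Matrix.mul_apply, Fin.sum_univ_two]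

lemma commute_entries {x y : GL (Fin 2) ℝ} : x * y = y * x ↔
    x 0 1 * y 1 0 = y 0 1 * x 1 0 ∧ x 0 1 * (y 0 0 - y 1 1) = y 0 1 * (x 0 0 - x 1 1) ∧
      x 1 0 * (y 0 0 - y 1 1) = y 1 0 * (x 0 0 - x 1 1) := by
  constructor
  · intro h
    have h00 : (x * y) 0 0 = (y * x) 0 0 := by rw [h]
    have h01 : (x * y) 0 1 = (y * x) 0 1 := by rw [h]
    have h10 : (x * y) 1 0 = (y * x) 1 0 := by rw [h]
    rw [mul_entry, mul_entry] at h00 h01 h10
    refine ⟨?_, ?_, ?_⟩ <;> linarith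
  · rintro ⟨h1, h2, h3⟩
    apply gl_ext <;> rw [mul_entry, mul_entry] <;> linarith

lemma scalar_of_commute {g a b : GL (Fin 2) ℝ} (h1 : g * a = a * g) (h2 : g * b = b * g)
    (h : a * b ≠ b * a) : g 0 1 = 0 ∧ g 1 0 = 0 ∧ g 0 0 = g 1 1 := by
  rw [commute_entries] at h1 h2
  rw [Ne, commute_entries] at h
  obtain ⟨a1, a2, a3⟩ := h1
  obtain ⟨b1, b2, b3⟩ := h2
  by_contra hne
  apply h
  by_cases hq : g 0 1 = 0
  · by_cases hr : g 1 0 = 0
    · have hs : g 0 0 - g 1 1 ≠ 0 := by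
        intro hs
        exact hne ⟨hq, hr, by linarith⟩
      rw [hq] at a2 b2
      rw [hr] at a3 b3
      have e1 : a 0 1 = 0 := by
        rcases mul_eq_zero.1 (a2.symm.trans (zero_mul _)) with h | h
        · exact h
        · exact absurd h hs
      have e2 : b 0 1 = 0 := by
        rcases mul_eq_zero.1 (b2.symm.trans (zero_mul _)) with h | h
        · exact h
        · exact absurd h hs
      have e3 : a 1 0 = 0 := by
        rcases mul_eq_zero.1 (a3.symm.trans (zero_mul _)) with h | h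
        · exact h
        · exact absurd h hs
      have e4 : b 1 0 = 0 := by
        rcases mul_eq_zero.1 (b3.symm.trans (zero_mul _)) with h | h
        · exact h
        · exact absurd h hs
      rw [e1, e2, e3, e4]
      simp
    · rw [hq] at a1 b1
      have e1 : a 0 1 = 0 := by
        rcases mul_eq_zero.1 (a1.symm.trans (zero_mul _)) with h | h
        · exact h
        · exact absurd h hr
      have e2 : b 0 1 = 0 := by
        rcases mul_eq_zero.1 (b1.symm.trans (zero_mul _)) with h | h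
        · exact h
        · exact absurd h hr
      rw [e1, e2]
      refine ⟨by simp, by simp, ?_⟩
      apply mul_left_cancel₀ hr
      calc g 1 0 * (a 1 0 * (b 0 0 - b 1 1)) = a 1 0 * (g 1 0 * (b 0 0 - b 1 1)) := by ring
        _ = a 1 0 * (b 1 0 * (g 0 0 - g 1 1)) := by rw [b3]
        _ = b 1 0 * (a 1 0 * (g 0 0 - g 1 1)) := by ring
        _ = b 1 0 * (g 1 0 * (a 0 0 - a 1 1)) := by rw [a3]
        _ = _ := by ring
  · refine ⟨?_, ?_, ?_⟩
    · apply mul_left_cancel₀ hq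
      calc g 0 1 * (a 0 1 * b 1 0) = a 0 1 * (g 0 1 * b 1 0) := by ring
        _ = a 0 1 * (b 0 1 * g 1 0) := by rw [b1]
        _ = b 0 1 * (a 0 1 * g 1 0) := by ring
        _ = b 0 1 * (g 0 1 * a 1 0) := by rw [a1]
        _ = _ := by ring
    · apply mul_left_cancel₀ hq
      calc g 0 1 * (a 0 1 * (b 0 0 - b 1 1)) = a 0 1 * (g 0 1 * (b 0 0 - b 1 1)) := by ring
        _ = a 0 1 * (b 0 1 * (g 0 0 - g 1 1)) := by rw [b2]
        _ = b 0 1 * (a 0 1 * (g 0 0 - g 1 1)) := by ring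
        _ = b 0 1 * (g 0 1 * (a 0 0 - a 1 1)) := by rw [a2]
        _ = _ := by ring
    · apply mul_left_cancel₀ hq
      apply mul_left_cancel₀ hq
      calc g 0 1 * (g 0 1 * (a 1 0 * (b 0 0 - b 1 1)))
            = (g 0 1 * a 1 0) * (g 0 1 * (b 0 0 - b 1 1)) := by ring
        _ = (a 0 1 * g 1 0) * (b 0 1 * (g 0 0 - g 1 1)) := by rw [a1, b2]
        _ = (b 0 1 * g 1 0) * (a 0 1 * (g 0 0 - g 1 1)) := by ring
        _ = (g 0 1 * b 1 0) * (g 0 1 * (a 0 0 - a 1 1)) := by rw [b1, a2]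
        _ = _ := by ring

/-- positive scalar matrices in a group bounded below are trivial -/
lemma scalar_eq_one {N : Subgroup (GL (Fin 2) ℝ)} (hc : ∃ c > 0, ∀ A ∈ N, c ≤ nrm A)
    {u : ℝˣ} (hu : 0 < (u : ℝ)) (h : Matrix.GeneralLinearGroup.scalar (Fin 2) u ∈ N) : u = 1 := by
  obtain ⟨c, hc0, hc⟩ := hc
  have key : ∀ v : ℝˣ, 0 < (v : ℝ) → (v : ℝ) < 1 →
      Matrix.GeneralLinearGroup.scalar (Fin 2) v ∈ N → False := by
    intro v hv0 hv1 hv
    obtain ⟨n, hn⟩ := exists_pow_lt_of_lt_one (by positivity : 0 < c / 2) hv1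
    have h1 := hc _ (N.pow_mem hv n)
    have h2 : nrm (Matrix.GeneralLinearGroup.scalar (Fin 2) v ^ n) = 2 * (v : ℝ) ^ n := by
      rw [← map_pow]
      unfold nrm
      have e : ∀ i j : Fin 2, (Matrix.GeneralLinearGroup.scalar (Fin 2) (v ^ n)) i j
          = if i = j then (v : ℝ) ^ n else 0 := by
        intro i j
        rw [Matrix.GeneralLinearGroup.coe_scalar]
        simp [Matrix.diagonal_apply]
      rw [e, e, e, e]
      simp
      rw [abs_of_pos hv0]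
      ring
    rw [h2] at h1
    linarith
  rcases lt_trichotomy (u : ℝ) 1 with h1 | h1 | h1
  · exact (key u hu h1 h).elim
  · exact Units.ext h1
  · have h2 : Matrix.GeneralLinearGroup.scalar (Fin 2) u⁻¹ ∈ N := by
      rw [map_inv]; exact N.inv_mem h
    refine (key u⁻¹ ?_ ?_ h2).elim
    · rw [Units.val_inv_eq_inv_val]; positivity
    · rw [Units.val_inv_eq_inv_val]; exact inv_lt_one_of_one_lt₀ h1

lemma scalars_discrete {G₁ N : Subgroup (GL (Fin 2) ℝ)}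
    (hn : ∀ A ∈ G₁, ∀ B ∈ N, A * B * A⁻¹ ∈ N) (hle : N ≤ G₁)
    (hT : ∃ T ∈ G₁, ∀ A ∈ G₁, ∃ k : ℤ, A * T ^ k ∈ N) (hc : ∃ c > 0, ∀ A ∈ N, c ≤ nrm A) :
    ∃ ε > 0, ∀ u : ℝˣ, 0 < (u : ℝ) → |Real.log u| < ε →
      Matrix.GeneralLinearGroup.scalar (Fin 2) u ∈ G₁ → u = 1 := by
  by_cases hex : ∃ v : ℝˣ, 0 < (v : ℝ) ∧ Matrix.GeneralLinearGroup.scalar (Fin 2) v ∈ G₁ ∧ v ≠ 1
  · obtain ⟨v, hv0, hv, hv1⟩ := hex
    obtain ⟨T, hT, hTk⟩ := hT
    obtain ⟨k₁, hk₁⟩ := hTk _ hv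
    have hk0 : k₁ ≠ 0 := by
      rintro rfl
      rw [zpow_zero, mul_one] at hk₁
      exact hv1 (scalar_eq_one hc hv0 hk₁)
    have hlog : Real.log v ≠ 0 := by
      intro h
      rcases Real.log_eq_zero.1 h with h | h | h
      · linarith
      · exact hv1 (Units.ext h)
      · linarith
    refine ⟨|Real.log v| / |(k₁ : ℝ)|, by positivity, fun u hu hlt hmem => ?_⟩
    obtain ⟨k, hk⟩ := hTk _ hmem
    -- scalar (u ^ k₁ * v ^ (-k)) ∈ N
    have hcong : ∀ (w : ℝˣ) (j : ℤ), Matrix.GeneralLinearGroup.scalar (Fin 2) w * T ^ j ∈ N →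
        ∀ m : ℤ, Matrix.GeneralLinearGroup.scalar (Fin 2) (w ^ m) * T ^ (j * m) ∈ N := by
      intro w j hw m
      have h1 : (Matrix.GeneralLinearGroup.scalar (Fin 2) w * T ^ j) ^ m ∈ N := N.zpow_mem hw m
      have hcomm : Commute (Matrix.GeneralLinearGroup.scalar (Fin 2) w) (T ^ j) :=
        Matrix.GeneralLinearGroup.scalar_commute w _
      rw [hcomm.mul_zpow, ← map_zpow, ← zpow_mul] at h1
      exact h1
    have h1 := hcong u k hk k₁
    have h2 := hcong v k₁ hk₁ (-k)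
    have h3 : Matrix.GeneralLinearGroup.scalar (Fin 2) (u ^ k₁ * v ^ (-k)) ∈ N := by
      have h4 := N.mul_mem h1 h2
      have hcomm : T ^ (k * k₁) * Matrix.GeneralLinearGroup.scalar (Fin 2) (v ^ (-k))
          = Matrix.GeneralLinearGroup.scalar (Fin 2) (v ^ (-k)) * T ^ (k * k₁) :=
        (Matrix.GeneralLinearGroup.scalar_commute _ _).symm
      have h5 : Matrix.GeneralLinearGroup.scalar (Fin 2) (u ^ k₁) * T ^ (k * k₁) *
          (Matrix.GeneralLinearGroup.scalar (Fin 2) (v ^ (-k)) * T ^ (k₁ * -k))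
          = Matrix.GeneralLinearGroup.scalar (Fin 2) (u ^ k₁ * v ^ (-k)) := by
        rw [map_mul]
        calc _ = Matrix.GeneralLinearGroup.scalar (Fin 2) (u ^ k₁) * (T ^ (k * k₁) *
          Matrix.GeneralLinearGroup.scalar (Fin 2) (v ^ (-k))) * T ^ (k₁ * -k) := by group
          _ = Matrix.GeneralLinearGroup.scalar (Fin 2) (u ^ k₁) *
            (Matrix.GeneralLinearGroup.scalar (Fin 2) (v ^ (-k)) * T ^ (k * k₁))
              * T ^ (k₁ * -k) := by rw [hcomm]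
          _ = Matrix.GeneralLinearGroup.scalar (Fin 2) (u ^ k₁) *
            Matrix.GeneralLinearGroup.scalar (Fin 2) (v ^ (-k)) *
              (T ^ (k * k₁) * T ^ (k₁ * -k)) := by group
          _ = _ := by
            rw [← zpow_add]
            have : k * k₁ + k₁ * -k = 0 := by ring
            rw [this, zpow_zero, mul_one]
      rwa [h5] at h4
    have h6 : u ^ k₁ * v ^ (-k) = 1 := by
      refine scalar_eq_one hc ?_ h3
      push_cast
      positivity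
    have h7 : (k₁ : ℝ) * Real.log u = k * Real.log v := by
      have h8 := congrArg (fun w : ℝˣ => Real.log (w : ℝ)) h6
      simp only [Units.val_mul, Units.val_one, Real.log_one] at h8
      have e1 : ((u ^ k₁ : ℝˣ) : ℝ) = (u : ℝ) ^ k₁ := by push_cast; rfl
      have e2 : ((v ^ (-k) : ℝˣ) : ℝ) = (v : ℝ) ^ (-k) := by push_cast; rfl
      rw [e1, e2, Real.log_mul (by positivity) (by positivity), Real.log_zpow, Real.log_zpow] at h8
      push_cast at h8
      linarith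
    have hk₁' : (k₁ : ℝ) ≠ 0 := by exact_mod_cast hk0
    by_cases hk' : k = 0
    · rw [hk'] at h7
      simp only [Int.cast_zero, zero_mul] at h7
      rcases mul_eq_zero.1 h7 with h | h
      · exact absurd h hk₁'
      · rcases Real.log_eq_zero.1 h with h | h | h
        · linarith
        · exact Units.ext h
        · linarith
    · exfalso
      have h8 : |(k₁ : ℝ)| * |Real.log u| = |(k : ℝ)| * |Real.log v| := by
        rw [← abs_mul, ← abs_mul, h7]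
      have h9 : (1 : ℝ) ≤ |(k : ℝ)| := by
        have : 1 ≤ |k| := Int.one_le_abs hk'
        exact_mod_cast this
      rw [lt_div_iff₀ (by positivity)] at hlt
      have h10 : |Real.log v| ≤ |(k : ℝ)| * |Real.log v| := by
        nlinarith [abs_nonneg (Real.log v)]
      linarith
  · refine ⟨1, one_pos, fun u hu _ hmem => ?_⟩
    by_contra hne
    exact hex ⟨u, hu, hmem, hne⟩

lemma commutator_mem {G₁ N : Subgroup (GL (Fin 2) ℝ)}
    (hn : ∀ A ∈ G₁, ∀ B ∈ N, A * B * A⁻¹ ∈ N) (hle : N ≤ G₁)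
    (hT : ∃ T ∈ G₁, ∀ A ∈ G₁, ∃ k : ℤ, A * T ^ k ∈ N) {A B : GL (Fin 2) ℝ} (hA : A ∈ G₁)
    (hB : B ∈ G₁) : ⁅A, B⁆ ∈ N := by
  obtain ⟨T, hT, hTk⟩ := hT
  obtain ⟨k, hk⟩ := hTk A hA
  obtain ⟨l, hl⟩ := hTk B hB
  -- A = a T^{-k}, B = b T^{-l}
  set a := A * T ^ k with ha
  set b := B * T ^ l with hb
  have eA : A = a * T ^ (-k) := by rw [ha]; group
  have eB : B = b * T ^ (-l) := by rw [hb]; group
  have h1 : A * b * A⁻¹ ∈ N := hn A hA b hl
  have h2 : (T ^ (-l)) * a * (T ^ (-l))⁻¹ ∈ N := hn _ (G₁.zpow_mem hT _) a hk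
  have h3 : ⁅A, B⁆ = (A * b * A⁻¹) * (a * ((T ^ (-l)) * a * (T ^ (-l))⁻¹)⁻¹) * b⁻¹ := by
    rw [commutatorElement_def]
    have h4 : A * T ^ (-l) * A⁻¹ * (T ^ (-l))⁻¹ = a * ((T ^ (-l)) * a * (T ^ (-l))⁻¹)⁻¹ := by
      rw [eA]
      group
    calc A * B * A⁻¹ * B⁻¹ = A * b * A⁻¹ * (A * T ^ (-l) * A⁻¹ * (T ^ (-l))⁻¹) * b⁻¹ := by
          conv_lhs => rw [eB]
          group
      _ = _ := by rw [h4]
  rw [h3]
  exact N.mul_mem (N.mul_mem h1 (N.mul_mem hk (N.inv_mem h2))) (N.inv_mem hl)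

theorem discrete_case {G G₁ N : Subgroup (GL (Fin 2) ℝ)} (hle : N ≤ G₁) (hle' : G₁ ≤ G)
    (hidx : ∀ A ∈ G, ∀ B ∈ G, A ∉ G₁ → B ∉ G₁ → A * B ∈ G₁)
    (hn : ∀ A ∈ G₁, ∀ B ∈ N, A * B * A⁻¹ ∈ N)
    (hT : ∃ T ∈ G₁, ∀ A ∈ G₁, ∃ k : ℤ, A * T ^ k ∈ N) (hc : ∃ c > 0, ∀ A ∈ N, c ≤ nrm A)
    (hdisc : ∃ U ∈ 𝓝 (1 : GL (Fin 2) ℝ), ∀ A ∈ N, A ∈ U → A = 1)
    {a b : GL (Fin 2) ℝ} (ha : a ∈ N) (hb : b ∈ N) (hab : a * b ≠ b * a) :
    ∃ U ∈ 𝓝 (1 : GL (Fin 2) ℝ), ∀ A ∈ G, A ∈ U → A = 1 := by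
  obtain ⟨U, hU, hUN⟩ := hdisc
  -- the set where commutators with `a`, `b` are in `U`
  have hcont : ∀ x : GL (Fin 2) ℝ, ∀ᶠ g in 𝓝 (1 : GL (Fin 2) ℝ), g * x * g⁻¹ * x⁻¹ ∈ U := by
    intro x
    have h1 : Continuous fun g : GL (Fin 2) ℝ => g * x * g⁻¹ * x⁻¹ := by fun_prop
    have h2 := h1.tendsto 1
    simp only [one_mul, inv_one, mul_one, mul_inv_cancel] at h2
    exact h2.eventually hU
  obtain ⟨ε, hε, hsc⟩ := scalars_discrete hn hle hT hc
  have hlog : ∀ᶠ g in 𝓝 (1 : GL (Fin 2) ℝ), 0 < g 0 0 ∧ |Real.log (g 0 0)| < ε := by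
    have h1 : Tendsto (fun g : GL (Fin 2) ℝ => g 0 0) (𝓝 1) (𝓝 1) := by
      have := (continuous_entry 0 0).tendsto 1
      simpa using this
    have h2 : Tendsto (fun x : ℝ => |Real.log x|) (𝓝 1) (𝓝 0) := by
      have := (Real.continuousAt_log (one_ne_zero)).abs
      simpa [ContinuousAt] using this
    refine (h1.eventually (lt_mem_nhds one_pos)).and ((h2.comp h1).eventually (gt_mem_nhds hε))
  have hG₁ : ∃ V ∈ 𝓝 (1 : GL (Fin 2) ℝ), ∀ A ∈ G₁, A ∈ V → A = 1 := by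
    refine ⟨_, (hcont a).and ((hcont b).and hlog), fun A hA hAV => ?_⟩
    obtain ⟨h1, h2, h3, h4⟩ := hAV
    have e1 := hUN _ (N.mul_mem (hn A hA a ha) (N.inv_mem ha)) h1
    have e2 := hUN _ (N.mul_mem (hn A hA b hb) (N.inv_mem hb)) h2
    have c1 : A * a = a * A := by
      rw [mul_inv_eq_one, mul_inv_eq_iff_eq_mul] at e1
      exact e1
    have c2 : A * b = b * A := by
      rw [mul_inv_eq_one, mul_inv_eq_iff_eq_mul] at e2
      exact e2
    obtain ⟨s1, s2, s3⟩ := scalar_of_commute c1 c2 hab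
    have hA0 : A 0 0 ≠ 0 := h3.ne'
    have hAs : A = Matrix.GeneralLinearGroup.scalar (Fin 2) (Units.mk0 (A 0 0) hA0) := by
      apply gl_ext <;> rw [Matrix.GeneralLinearGroup.coe_scalar] <;>
        simp [Matrix.diagonal_apply, s1, s2, s3]
    have := hsc (Units.mk0 (A 0 0) hA0) h3 h4 (hAs ▸ hA)
    rw [hAs, this, map_one]
  obtain ⟨V, hV, hVG⟩ := hG₁
  have hsq : ∀ᶠ g in 𝓝 (1 : GL (Fin 2) ℝ), g * g ∈ V := by
    have h1 : Continuous fun g : GL (Fin 2) ℝ => g * g := by fun_prop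
    have h2 := h1.tendsto 1
    simp only [one_mul] at h2
    exact h2.eventually hV
  have hdet : ∀ᶠ g in 𝓝 (1 : GL (Fin 2) ℝ), (g 0 0 + 1) * (g 1 1 + 1) - g 0 1 * g 1 0 ≠ 0 := by
    have h1 : Continuous fun g : GL (Fin 2) ℝ =>
        (g 0 0 + 1) * (g 1 1 + 1) - g 0 1 * g 1 0 :=
      (((continuous_entry 0 0).add continuous_const).mul
        ((continuous_entry 1 1).add continuous_const)).sub
          ((continuous_entry 0 1).mul (continuous_entry 1 0))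
    have h2 := h1.tendsto 1
    refine h2.eventually (isOpen_ne.mem_nhds ?_)
    simp
  refine ⟨_, (Filter.inter_mem hV (hsq.and hdet)), fun A hA hAV => ?_⟩
  obtain ⟨h1, h2, h3⟩ := hAV
  by_cases hA1 : A ∈ G₁
  · exact hVG A hA1 h1
  · have h4 := hVG _ (hidx A hA A hA hA1 hA1) h2
    -- A * A = 1
    have e00 : (A * A) 0 0 = 1 := by rw [h4]; simp
    have e01 : (A * A) 0 1 = 0 := by rw [h4]; simp
    have e10 : (A * A) 1 0 = 0 := by rw [h4]; simp
    have e11 : (A * A) 1 1 = 1 := by rw [h4]; simp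
    rw [mul_entry] at e00 e01 e10 e11
    -- (A + 1) (A - 1) = 0, multiply by the adjugate of A + 1
    set p := A 0 0
    set q := A 0 1
    set r := A 1 0
    set s := A 1 1
    apply gl_ext
    · apply mul_left_cancel₀ h3
      simp
      change ((p + 1) * (s + 1) - q * r) * p = (p + 1) * (s + 1) - q * r
      linear_combination (s + 1) * e00 - q * e10
    · apply mul_left_cancel₀ h3
      simp
      change ((p + 1) * (s + 1) - q * r) = 0 ∨ q = 0
      right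
      have : ((p + 1) * (s + 1) - q * r) * q = 0 := by
        linear_combination (s + 1) * e01 - q * e11
      rcases mul_eq_zero.1 this with h | h
      · exact absurd h h3
      · exact h
    · apply mul_left_cancel₀ h3
      simp
      change ((p + 1) * (s + 1) - q * r) = 0 ∨ r = 0
      right
      have : ((p + 1) * (s + 1) - q * r) * r = 0 := by
        linear_combination (p + 1) * e10 - r * e00
      rcases mul_eq_zero.1 this with h | h
      · exact absurd h h3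
      · exact h
    · apply mul_left_cancel₀ h3
      simp
      change ((p + 1) * (s + 1) - q * r) * s = (p + 1) * (s + 1) - q * r
      linear_combination (p + 1) * e11 - r * e01

theorem discrete_or_metabelian {G G₁ N : Subgroup (GL (Fin 2) ℝ)} (hle : N ≤ G₁) (hle' : G₁ ≤ G)
    (hidx : ∀ A ∈ G, ∀ B ∈ G, A ∉ G₁ → B ∉ G₁ → A * B ∈ G₁)
    (hn : ∀ A ∈ G₁, ∀ B ∈ N, A * B * A⁻¹ ∈ N)
    (hT : ∃ T ∈ G₁, ∀ A ∈ G₁, ∃ k : ℤ, A * T ^ k ∈ N) (hc : ∃ c > 0, ∀ A ∈ N, c ≤ nrm A)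
    (hdisc : ∃ U ∈ 𝓝 (1 : GL (Fin 2) ℝ), ∀ A ∈ N, A ∈ U → A = 1) :
    (∃ U ∈ 𝓝 (1 : GL (Fin 2) ℝ), ∀ A ∈ G, A ∈ U → A = 1) ∨
      (∀ a ∈ N, ∀ b ∈ N, a * b = b * a) := by
  by_cases h : ∀ a ∈ N, ∀ b ∈ N, a * b = b * a
  · exact Or.inr h
  · push Not at h
    obtain ⟨a, ha, b, hb, hab⟩ := h
    exact Or.inl (discrete_case hle hle' hidx hn hT hc hdisc ha hb hab)

end LadderVeech
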