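import Mathlib

open Set Filter Topology

namespace LadderVeech

/-- The real-linear action of a real `2 × 2` matrix on `ℂ = ℝ²`: `z ↦ A z`. -/
def act (A : GL (Fin 2) ℝ) (z : ℂ) : ℂ :=
  ⟨A 0 0 * z.re + A 0 1 * z.im, A 1 0 * z.re + A 1 1 * z.im⟩

/-- A translation structure on a surface `S` (Problem MP_7193b8_gt): a closed discrete set
`sing` (the set `Σ`), a maximal atlas on its complement with values in `ℝ² = ℂ` whose transition
maps are locally translations, and every point of `Σ` is a cone point of angle `2 π k`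
for some `k ≥ 2`: in a suitable topological coordinate `φ` centred at the point,
the flat charts on the punctured neighbourhood are `φ ^ k + c`. -/
structure TranslationStructure (S : Type*) [TopologicalSpace S] where
  /-- the set `Σ` of cone points -/
  sing : Set S
  isClosed_sing : IsClosed sing
  isDiscrete_sing : IsDiscrete sing
  /-- the flat charts -/
  atlas : Set (OpenPartialHomeomorph S ℂ)
  source_subset : ∀ e ∈ atlas, e.source ⊆ singᶜ
  covers : ∀ p ∉ sing, ∃ e ∈ atlas, p ∈ e.source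
  compatible : ∀ e ∈ atlas, ∀ e' ∈ atlas, ∀ p ∈ e.source ∩ e'.source,
    ∃ c : ℂ, ∀ᶠ q in 𝓝 p, e' q = e q + c
  maximal : ∀ e : OpenPartialHomeomorph S ℂ, e.source ⊆ singᶜ →
    (∀ e' ∈ atlas, ∀ p ∈ e.source ∩ e'.source, ∃ c : ℂ, ∀ᶠ q in 𝓝 p, e' q = e q + c) →
    e ∈ atlas
  cone : ∀ p ∈ sing, ∃ k : ℕ, 2 ≤ k ∧ ∃ φ : OpenPartialHomeomorph S ℂ,
    p ∈ φ.source ∧ φ p = 0 ∧ ∀ q ∈ φ.source, q ≠ p →
      q ∉ sing ∧ ∀ e ∈ atlas, q ∈ e.source → ∃ c : ℂ, ∀ᶠ q' in 𝓝 q, e q' = φ q' ^ k + c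

/-- The homeomorphism `f` preserves `Σ` and has the form `z ↦ A z + c` in all flat charts. -/
def IsAffine {S : Type*} [TopologicalSpace S] (ω : TranslationStructure S)
    (f : S ≃ₜ S) (A : GL (Fin 2) ℝ) : Prop :=
  f '' ω.sing = ω.sing ∧
    ∀ p ∉ ω.sing, ∀ e ∈ ω.atlas, p ∈ e.source → ∀ e' ∈ ω.atlas, f p ∈ e'.source →
      ∃ c : ℂ, ∀ᶠ q in 𝓝 p, e' (f q) = act A (e q) + c

lemma act_add (A : GL (Fin 2) ℝ) (z w : ℂ) : act A (z + w) = act A z + act A w := by
  apply Complex.ext <;> simp [act] <;> ring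

lemma act_neg (A : GL (Fin 2) ℝ) (z : ℂ) : act A (-z) = -act A z := by
  apply Complex.ext <;> simp [act] <;> ring

lemma act_sub (A : GL (Fin 2) ℝ) (z w : ℂ) : act A (z - w) = act A z - act A w := by
  apply Complex.ext <;> simp [act] <;> ring

lemma act_zero (A : GL (Fin 2) ℝ) : act A 0 = 0 := by
  apply Complex.ext <;> simp [act]

lemma act_real_mul (A : GL (Fin 2) ℝ) (t : ℝ) (z : ℂ) : act A ((t : ℂ) * z) = t * act A z := by
  apply Complex.ext <;> simp [act] <;> ring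

lemma act_one (z : ℂ) : act 1 z = z := by
  apply Complex.ext <;> simp [act]

lemma act_mul (A B : GL (Fin 2) ℝ) (z : ℂ) : act (A * B) z = act A (act B z) := by
  apply Complex.ext <;> simp [act, Matrix.mul_apply, Fin.sum_univ_two] <;> ring

lemma act_inv_act (A : GL (Fin 2) ℝ) (z : ℂ) : act A⁻¹ (act A z) = z := by
  rw [← act_mul, inv_mul_cancel, act_one]

lemma act_act_inv (A : GL (Fin 2) ℝ) (z : ℂ) : act A (act A⁻¹ z) = z := by
  rw [← act_mul, mul_inv_cancel, act_one]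

/-- a bound for the operator norm -/
def nrm (A : GL (Fin 2) ℝ) : ℝ := |A 0 0| + |A 0 1| + |A 1 0| + |A 1 1|

lemma nrm_nonneg (A : GL (Fin 2) ℝ) : 0 ≤ nrm A := by unfold nrm; positivity

lemma norm_act_le (A : GL (Fin 2) ℝ) (z : ℂ) : ‖act A z‖ ≤ nrm A * ‖z‖ := by
  have h1 := Complex.abs_re_le_norm z
  have h2 := Complex.abs_im_le_norm z
  have h3 : ‖act A z‖ ≤ |(act A z).re| + |(act A z).im| := Complex.norm_le_abs_re_add_abs_im _
  have h4 : |(act A z).re| ≤ |A 0 0| * ‖z‖ + |A 0 1| * ‖z‖ := by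
    simp only [act]
    refine (abs_add_le _ _).trans ?_
    rw [abs_mul, abs_mul]
    gcongr
  have h5 : |(act A z).im| ≤ |A 1 0| * ‖z‖ + |A 1 1| * ‖z‖ := by
    simp only [act]
    refine (abs_add_le _ _).trans ?_
    rw [abs_mul, abs_mul]
    gcongr
  unfold nrm
  linarith

variable {S : Type*} [TopologicalSpace S] {ω : TranslationStructure S}

lemma IsAffine.mem_iff {f : S ≃ₜ S} {A : GL (Fin 2) ℝ} (h : IsAffine ω f A) (p : S) :
    f p ∈ ω.sing ↔ p ∈ ω.sing := by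
  constructor
  · intro hp
    rw [← h.1] at hp
    obtain ⟨q, hq, hqp⟩ := hp
    rwa [← f.injective hqp]
  · intro hp
    rw [← h.1]
    exact mem_image_of_mem _ hp

lemma IsAffine.symm {f : S ≃ₜ S} {A : GL (Fin 2) ℝ} (h : IsAffine ω f A) :
    IsAffine ω f.symm A⁻¹ := by
  constructor
  · have h1 := h.1
    apply Subset.antisymm
    · rintro _ ⟨q, hq, rfl⟩
      rw [← h1] at hq
      obtain ⟨q', hq', rfl⟩ := hq
      simpa using hq'
    · intro q hq
      refine ⟨f q, ?_, by simp⟩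
      rw [← h1]
      exact mem_image_of_mem _ hq
  · intro p hp e he hpe e' he' hpe'
    have hfp : f.symm p ∉ ω.sing := by
      intro hh
      rw [← h.mem_iff] at hh
      simp at hh
      exact hp hh
    obtain ⟨c, hc⟩ := h.2 (f.symm p) hfp e' he' hpe' e he (by simpa using hpe)
    refine ⟨-act A⁻¹ c, ?_⟩
    have := f.symm.continuous.tendsto p |>.eventually hc
    filter_upwards [this] with q hq
    simp only [Homeomorph.apply_symm_apply] at hq
    rw [hq, act_add, act_inv_act]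
    ring

lemma isAffine_one : IsAffine ω (1 : S ≃ₜ S) 1 := by
  constructor
  · exact image_id _
  · intro p hp e he hpe e' he' hpe'
    obtain ⟨c, hc⟩ := ω.compatible e he e' he' p ⟨hpe, by simpa using hpe'⟩
    refine ⟨c, ?_⟩
    filter_upwards [hc] with q hq
    rw [act_one]
    simpa using hq

lemma IsAffine.mul {f g : S ≃ₜ S} {A B : GL (Fin 2) ℝ} (hf : IsAffine ω f A)
    (hg : IsAffine ω g B) : IsAffine ω (f * g) (A * B) := by
  constructor
  · have : ((f * g : S ≃ₜ S) : S → S) = f ∘ g := rfl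
    rw [this, image_comp, hg.1, hf.1]
  · intro p hp e he hpe e' he' hpe'
    have hgp : g p ∉ ω.sing := by rwa [hg.mem_iff]
    obtain ⟨e₁, he₁, hpe₁⟩ := ω.covers _ hgp
    obtain ⟨c, hc⟩ := hg.2 p hp e he hpe e₁ he₁ hpe₁
    obtain ⟨d, hd⟩ := hf.2 (g p) hgp e₁ he₁ hpe₁ e' he' hpe'
    refine ⟨act A c + d, ?_⟩
    filter_upwards [hc, (g.continuous.tendsto p).eventually hd] with q hq hq'
    change e' (f (g q)) = _
    rw [hq', hq, act_add, act_mul]
    ring

lemma IsAffine.inv {f : S ≃ₜ S} {A : GL (Fin 2) ℝ} (h : IsAffine ω f A) :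
    IsAffine ω f⁻¹ A⁻¹ := h.symm

lemma IsAffine.conj {f g : S ≃ₜ S} {A B : GL (Fin 2) ℝ} (h : IsAffine ω f A)
    (h' : IsAffine ω g B) : IsAffine ω (f * g * f⁻¹) (A * B * A⁻¹) := (h.mul h').mul h.inv

/-- The group of affine automorphisms, as pairs (homeomorphism, derivative). -/
def affGroup (ω : TranslationStructure S) : Subgroup ((S ≃ₜ S) × GL (Fin 2) ℝ) where
  carrier := {x | 0 < Matrix.det (x.2 : Matrix (Fin 2) (Fin 2) ℝ) ∧ IsAffine ω x.1 x.2}
  mul_mem' := by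
    rintro ⟨f, A⟩ ⟨g, B⟩ ⟨hA, hf⟩ ⟨hB, hg⟩
    refine ⟨?_, hf.mul hg⟩
    change 0 < Matrix.det ((A * B : GL (Fin 2) ℝ) : Matrix (Fin 2) (Fin 2) ℝ)
    rw [Units.val_mul, Matrix.det_mul]
    exact mul_pos hA hB
  one_mem' := by
    refine ⟨?_, isAffine_one⟩
    simp
  inv_mem' := by
    rintro ⟨f, A⟩ ⟨hA, hf⟩
    refine ⟨?_, hf.symm⟩
    change 0 < Matrix.det ((A⁻¹ : GL (Fin 2) ℝ) : Matrix (Fin 2) (Fin 2) ℝ)
    rw [Matrix.coe_units_inv, Matrix.det_nonsing_inv]
    simpa using hA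

/-- The Veech group: all derivatives of affine automorphisms (with positive determinant). -/
def veechGroup (ω : TranslationStructure S) : Subgroup (GL (Fin 2) ℝ) :=
  (affGroup ω).map (MonoidHom.snd _ _)

lemma mem_veechGroup {A : GL (Fin 2) ℝ} :
    A ∈ veechGroup ω ↔ 0 < Matrix.det (A : Matrix (Fin 2) (Fin 2) ℝ) ∧
      ∃ f : S ≃ₜ S, IsAffine ω f A := by
  unfold veechGroup
  rw [Subgroup.mem_map]
  constructor
  · rintro ⟨⟨f, B⟩, ⟨h1, h2⟩, rfl⟩
    exact ⟨h1, f, h2⟩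
  · rintro ⟨h1, f, h2⟩
    exact ⟨⟨f, A⟩, ⟨h1, h2⟩, rfl⟩

end LadderVeech
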