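import Pool.Agent.LadderVeech.FluxLimit

open Set Filter Topology

namespace LadderVeech

variable {ω : TranslationStructure Ladder}

/-- Zero flux affine maps are not contracting: their derivatives are bounded away from `0`. -/
theorem exists_nrm_lower_bound (ω : TranslationStructure Ladder) :
    ∃ c > 0, ∀ (f : Ladder ≃ₜ Ladder) (A : GL (Fin 2) ℝ), IsAffine ω f A → ZeroFlux ω f →
      c ≤ nrm A := by
  by_contra hcon
  push Not at hcon
  have hex : ∀ n : ℕ, ∃ (f : Ladder ≃ₜ Ladder) (A : GL (Fin 2) ℝ), IsAffine ω f A ∧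
      ZeroFlux ω f ∧ nrm A < 1 / ((n:ℝ) + 1) := by
    intro n
    obtain ⟨f, A, h1, h2, h3⟩ := hcon (1 / ((n:ℝ) + 1)) (by positivity)
    exact ⟨f, A, h1, h2, h3⟩
  choose f A haff h0 hsmall using hex
  set 𝒰 : Ultrafilter ℕ := Filter.hyperfilter ℕ with h𝒰
  have h𝒰le : (𝒰 : Filter ℕ) ≤ atTop := by
    rw [← Nat.cofinite_eq_atTop]
    exact Filter.hyperfilter_le_cofinite
  have hlim0 : Tendsto (fun n => nrm (A n)) 𝒰 (𝓝 0) := by
    have h1 : Tendsto (fun n => nrm (A n)) atTop (𝓝 0) := by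
      refine squeeze_zero (fun n => nrm_nonneg _) (fun n => (hsmall n).le) ?_
      exact tendsto_one_div_add_atTop_nhds_zero_nat
    exact h1.mono_left h𝒰le
  have hK : IsCompact K₀ := isCompact_slab _ _
  have h1 : ∀ i, ∃ x ∈ K₀, f i x ∈ K₀ := by
    intro i
    obtain ⟨_, ⟨x, hx, rfl⟩, hy⟩ := (h0 i).inter
    exact ⟨x, hx, hy⟩
  choose x hxK hfxK using h1
  obtain ⟨x₀, -, hx₀⟩ := exists_lim_of_compact (𝒰 := 𝒰) hK (Eventually.of_forall hxK)
  obtain ⟨y, -, hy⟩ := exists_lim_of_compact (𝒰 := 𝒰) hK (Eventually.of_forall hfxK)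
  obtain ⟨my⟩ := exists_model ω y
  -- segments are contracted
  have hcontr : ∀ {ρ δ : ℝ}, 0 < δ → ∀ᶠ i in (𝒰 : Filter ℕ), nrm (A i) * ρ < δ := by
    intro ρ δ hδ
    have := hlim0.mul_const ρ
    rw [zero_mul] at this
    exact this.eventually_lt_const hδ
  have key : ∀ (ρ' : ℝ), 0 < ρ' → ρ' < my.R → ∀ (r : ℝ), ∀ᶠ i in (𝒰 : Filter ℕ),
      ∀ p q : Ladder, ∀ v : ℂ, ‖v‖ ≤ r → Seg ω p v q → f i p ∈ my.disc (ρ' / 2) →
        f i q ∈ my.disc ρ' := by
    intro ρ' hρ' hρR r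
    filter_upwards [hcontr (ρ := r) (δ := ρ' / 4) (by positivity)] with i hi p q v hv hseg hp
    have h3 := hseg.map (haff i)
    have h4 : ‖act (A i) v‖ ≤ ρ' / 4 := by
      refine (norm_act_le' le_rfl hv).trans hi.le
    have h5 := (my.trap hp h3 (by linarith)).1
    exact my.disc_mono (by linarith) h5
  have hstep : ∀ p q : Ladder, ∀ v : ℂ, Seg ω p v q → Tendsto (fun i => f i p) 𝒰 (𝓝 y) →
      Tendsto (fun i => f i q) 𝒰 (𝓝 y) := by
    intro p q v hseg hp
    rw [tendsto_def]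
    intro O hO
    obtain ⟨ρ, hρ, hρR, hsub⟩ := my.disc_basis hO
    have e1 : ∀ᶠ i in (𝒰 : Filter ℕ), f i p ∈ my.disc (ρ / 2) :=
      hp (my.disc_mem_nhds (by positivity))
    filter_upwards [e1, key ρ hρ hρR ‖v‖] with i hi1 hi2
    exact hsub (hi2 p q v le_rfl hseg hi1)
  have hx₀y : Tendsto (fun i => f i x₀) 𝒰 (𝓝 y) := by
    obtain ⟨mx⟩ := exists_model ω x₀
    rw [tendsto_def]
    intro O hO
    obtain ⟨ρ, hρ, hρR, hsub⟩ := my.disc_basis hO
    have e1 : ∀ᶠ i in (𝒰 : Filter ℕ), x i ∈ mx.disc 1 := hx₀ (mx.disc_mem_nhds one_pos)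
    have e2 : ∀ᶠ i in (𝒰 : Filter ℕ), f i (x i) ∈ my.disc (ρ / 2) :=
      hy (my.disc_mem_nhds (by positivity))
    filter_upwards [e1, e2, key ρ hρ hρR 1] with i hi1 hi2 hi3
    obtain ⟨v, hv, hseg⟩ := mx.seg_of_mem' hi1
    exact hsub (hi3 _ _ _ (by rwa [norm_neg]) hseg.symm hi2)
  -- all points converge to `y`
  have hall : ∀ p : Ladder, Tendsto (fun i => f i p) 𝒰 (𝓝 y) := by
    have hopen : IsOpen {p : Ladder | Tendsto (fun i => f i p) 𝒰 (𝓝 y)} := by
      rw [isOpen_iff_mem_nhds]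
      intro p hp
      obtain ⟨mp⟩ := exists_model ω p
      filter_upwards [mp.disc_mem_nhds one_pos] with q hq
      obtain ⟨v, -, hseg⟩ := mp.seg_of_mem' hq
      exact hstep _ _ _ hseg hp
    have hclosed : IsClosed {p : Ladder | Tendsto (fun i => f i p) 𝒰 (𝓝 y)} := by
      rw [← closure_subset_iff_isClosed]
      intro p hp
      obtain ⟨mp⟩ := exists_model ω p
      obtain ⟨q, hq, hqy⟩ := mem_closure_iff_nhds.1 hp _ (mp.disc_mem_nhds one_pos)
      obtain ⟨v, -, hseg⟩ := mp.seg_of_mem' hq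
      exact hstep _ _ _ hseg.symm hqy
    have := IsClopen.eq_univ ⟨hclosed, hopen⟩ ⟨x₀, hx₀y⟩
    intro p
    have hp : p ∈ {p : Ladder | Tendsto (fun i => f i p) 𝒰 (𝓝 y)} := by
      rw [this]; trivial
    exact hp
  -- a small disc around `y` on which all circle valued maps are squares
  obtain ⟨N, hNo, -, hyN, -, hNs⟩ := exists_good_nhds my.mem (O := univ) univ_mem
  obtain ⟨ρ, hρ, hρR, hsub⟩ := my.disc_basis (hNo.mem_nhds hyN)
  -- uniformity on `K₀`
  have m : ∀ p, Model ω p := fun p => (exists_model ω p).some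
  obtain ⟨t, -, ht⟩ := hK.elim_nhds_subcover (fun p => (m p).disc 1)
    (fun p _ => (m p).disc_mem_nhds one_pos)
  have hev : ∀ᶠ i in (𝒰 : Filter ℕ), ∀ p ∈ t, f i p ∈ my.disc (ρ / 2) := by
    rw [Filter.eventually_all_finset]
    intro p _
    exact hall p (my.disc_mem_nhds (by positivity))
  obtain ⟨i, hi1, hi2⟩ := (hev.and (key ρ hρ hρR 1)).exists
  have himg : f i '' K₀ ⊆ N := by
    rintro _ ⟨q, hq, rfl⟩
    have := ht hq
    simp only [mem_iUnion] at this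
    obtain ⟨p, hp, hqp⟩ := this
    obtain ⟨v, hv, hseg⟩ := (m p).seg_of_mem' hqp
    exact hsub (hi2 _ _ _ hv hseg (hi1 p hp))
  -- contradiction with the handle
  have h2 : IsSq (pull (f i) hu) (f i '' K₀) := IsSq.mono (hNs (pull (f i) hu)) himg
  have h3 := isSq_comp (f := (f i).symm) h2
  apply not_isSq_hu
  have h4 : (f i).symm '' (f i '' K₀) = K₀ := by
    rw [← image_comp]
    simp
  rw [h4] at h3
  refine h3.congr (fun p _ => ?_)
  simp [pull_apply]

end LadderVeech
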