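import Pool.Agent.LadderVeech.HalfPlane

open Set Filter Topology

namespace LadderVeech

variable {L : Type*} [TopologicalSpace L]

lemma exists_min_pos {ι : Type*} (t : Finset ι) (ε : ι → ℝ) (h : ∀ i ∈ t, 0 < ε i) :
    ∃ δ > 0, ∀ i ∈ t, δ ≤ ε i := by
  classical
  induction t using Finset.induction_on with
  | empty => exact ⟨1, one_pos, by simp⟩
  | insert a s ha ih =>
    obtain ⟨δ, hδ, hs⟩ := ih (fun i hi => h i (Finset.mem_insert_of_mem hi))
    refine ⟨min δ (ε a), lt_min hδ (h a (Finset.mem_insert_self _ _)), fun i hi => ?_⟩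
    rcases Finset.mem_insert.1 hi with rfl | hi
    · exact min_le_right _ _
    · exact (min_le_left _ _).trans (hs i hi)

lemma Hyp.exists_box [LocallyConnectedSpace L] (H : Hyp L) (u : C(L, Circle)) {K : Set L}
    (hK : IsCompact K) (hu : ∀ x ∉ K, u x = 1)
    (hZ : ∀ z, H.X z = 0 → H.Y z = 0 → ∃ N : Set L, IsOpen N ∧ z ∈ N ∧ IsSq u N ∧
      IsCompact (frontier N) ∧ ∀ y ∈ frontier N, H.X y ≠ 0 ∨ H.Y y ≠ 0) :
    ∃ δ > 0, IsSq u (H.box δ) := by
  have hcM : Continuous fun y => max |H.X y| |H.Y y| := H.cX.abs.max H.cY.abs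
  have hMpos : ∀ y, (H.X y ≠ 0 ∨ H.Y y ≠ 0) → 0 < max |H.X y| |H.Y y| := by
    rintro y (h | h)
    · exact lt_max_of_lt_left (abs_pos.2 h)
    · exact lt_max_of_lt_right (abs_pos.2 h)
  have hnot : ∀ (y : L) (ε : ℝ), ε ≤ max |H.X y| |H.Y y| → y ∉ H.box ε := by
    rintro y ε hε ⟨h1, h2⟩
    exact absurd (max_lt h1 h2) (not_lt.2 hε)
  have hex : ∀ x : L, ∃ U ∈ 𝓝 x, ∃ ε : ℝ, 0 < ε ∧ ((∀ y ∈ U, y ∉ H.box ε) ∨
      (IsOpen U ∧ IsSq u U ∧ ∀ y ∈ frontier U, y ∉ H.box ε)) := by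
    intro x
    by_cases hx : H.X x ≠ 0 ∨ H.Y x ≠ 0
    · have h1 := hMpos x hx
      refine ⟨{y | max |H.X x| |H.Y x| / 2 < max |H.X y| |H.Y y|}, ?_,
        max |H.X x| |H.Y x| / 2, by positivity, Or.inl ?_⟩
      · exact (isOpen_lt continuous_const hcM).mem_nhds (by
          change max |H.X x| |H.Y x| / 2 < max |H.X x| |H.Y x|
          linarith)
      · intro y hy
        exact hnot y _ (le_of_lt hy)
    · push Not at hx
      obtain ⟨N, hN, hxN, hsq, hcomp, hfr⟩ := hZ x hx.1 hx.2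
      rcases (frontier N).eq_empty_or_nonempty with hemp | hne
      · refine ⟨N, hN.mem_nhds hxN, 1, one_pos, Or.inr ⟨hN, hsq, ?_⟩⟩
        rw [hemp]
        simp
      · obtain ⟨y₀, hy₀, hmin⟩ := hcomp.exists_isMinOn hne hcM.continuousOn
        refine ⟨N, hN.mem_nhds hxN, max |H.X y₀| |H.Y y₀|, hMpos y₀ (hfr y₀ hy₀),
          Or.inr ⟨hN, hsq, fun y hy => hnot y _ (hmin hy)⟩⟩
  choose U hU ε hε hUε using hex
  obtain ⟨t, -, hcov⟩ := hK.elim_nhds_subcover U (fun x _ => hU x)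
  obtain ⟨δ, hδ, hδt⟩ := exists_min_pos t ε (fun x _ => hε x)
  have hbox : ∀ x ∈ t, H.box δ ⊆ H.box (ε x) := by
    rintro x hx y ⟨h1, h2⟩
    exact ⟨h1.trans_le (hδt x hx), h2.trans_le (hδt x hx)⟩
  refine ⟨δ, hδ, ?_⟩
  have hopen : IsOpen (H.box δ) := (isOpen_lt H.cX.abs continuous_const).inter
    (isOpen_lt H.cY.abs continuous_const)
  have hcomp : ∀ x ∈ H.box δ, IsSq u (connectedComponentIn (H.box δ) x) := by
    intro x hx
    have hsub : connectedComponentIn (H.box δ) x ⊆ H.box δ := connectedComponentIn_subset _ _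
    by_cases hE : ∃ y ∈ connectedComponentIn (H.box δ) x, y ∈ K
    · obtain ⟨y, hyE, hyK⟩ := hE
      obtain ⟨x', hx't, hyU⟩ := mem_iUnion₂.1 (hcov hyK)
      rcases hUε x' with h | ⟨h1, h2, h3⟩
      · exact absurd (hbox x' hx't (hsub hyE)) (h y hyU)
      · refine h2.mono ?_
        refine isPreconnected_connectedComponentIn.subset_of_closure_inter_subset h1
          ⟨y, hyE, hyU⟩ ?_
        rintro z ⟨hz1, hz2⟩
        by_contra hzU
        refine h3 z ?_ (hbox x' hx't (hsub hz2))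
        rw [h1.frontier_eq]
        exact ⟨hz1, hzU⟩
    · push Not at hE
      refine ⟨fun _ => 1, continuousOn_const, fun y hy => ?_⟩
      rw [hu y (hE y hy), one_pow]
  obtain ⟨s, hs1, hs2, -⟩ := glue_components (σ := fun _ => 1) (B := ∅) hopen
    (continuousOn_empty _) (by simp) hcomp (by simp [isPreconnected_empty])
  exact ⟨s, hs1, hs2⟩

end LadderVeech
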