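import Pool.Agent.LadderVeech.FluxLimit

open Set Filter Topology

namespace LadderVeech

variable {S : Type*} [TopologicalSpace S] {ω : TranslationStructure S} [T2Space S]

/-- a global developing map -/
def IsDev (ω : TranslationStructure S) (D : S → ℂ) : Prop :=
  ∀ (x : S) (m : Model ω x), ∀ y ∈ m.disc (m.R / 4), D y = D x + m.φ y ^ m.k

section Exists

variable {ι : Type*} {𝒰 : Ultrafilter ι} {h : ι → S ≃ₜ S} {A : ι → GL (Fin 2) ℝ}

/-- the displacement of `y` under a homeomorphism, in a chosen model -/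
noncomputable def disp (ω : TranslationStructure S) (f : S ≃ₜ S) (y : S) : ℂ :=
  (exists_model ω y).some.φ (f y) ^ (exists_model ω y).some.k

lemma NearId.nrm_le (hn : NearId ω 𝒰 h A) : ∀ᶠ i in (𝒰 : Filter ι), nrm (A i) ≤ 3 := by
  have h1 : Tendsto (fun i => nrm (A i)) 𝒰 (𝓝 (nrm 1)) := (continuous_nrm.tendsto 1).comp hn.lim
  have h2 : nrm 1 < 3 := by
    unfold nrm
    simp
    norm_num
  filter_upwards [h1.eventually_lt_const h2] with i hi using hi.le

omit [T2Space S] in
lemma NearId.disp_seg (hn : NearId ω 𝒰 h A) (y : S) {ρ : ℝ} (hρ : 0 < ρ) :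
    ∀ᶠ i in (𝒰 : Filter ι), ‖disp ω (h i) y‖ ≤ ρ ∧ Seg ω y (disp ω (h i) y) (h i y) := by
  set m := (exists_model ω y).some with hm
  have h1 : ∀ᶠ i in (𝒰 : Filter ι), h i y ∈ m.disc ρ := hn.pt y (m.disc_mem_nhds hρ)
  filter_upwards [h1] with i hi
  refine ⟨?_, m.seg_of_mem hi⟩
  unfold disp
  rw [norm_pow]
  exact hi.2.2

lemma NearId.disp_rel (hn : NearId ω 𝒰 h A) {x : S} (m : Model ω x) {y : S}
    (hy : y ∈ m.disc (m.R / 4)) : ∀ᶠ i in (𝒰 : Filter ι),
      disp ω (h i) y - disp ω (h i) x = act (A i) (m.φ y ^ m.k) - m.φ y ^ m.k := by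
  have hR := m.R_pos
  have h1 : ∀ᶠ i in (𝒰 : Filter ι), h i x ∈ m.disc (m.R / 8) :=
    hn.pt x (m.disc_mem_nhds (by positivity))
  have hyseg := m.seg_of_mem hy
  have hynorm : ‖m.φ y ^ m.k‖ ≤ m.R / 4 := by rw [norm_pow]; exact hy.2.2
  filter_upwards [hn.disp_seg y (ρ := m.R / 8) (by positivity),
    hn.disp_seg x (ρ := m.R / 8) (by positivity), h1, hn.nrm_le] with i hi1 hi2 hi3 hi4
  have e1 := (m.trap hy hi1.2 (by linarith [hi1.1])).2
  have e2 := (m.trap (m.center_mem le_rfl) hi2.2 (by linarith [hi2.1])).2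
  rw [m.zero, zero_pow m.hk, zero_add] at e2
  have h4 : ‖act (A i) (m.φ y ^ m.k)‖ ≤ 3 * (m.R / 4) := norm_act_le' hi4 hynorm
  have e3 := (m.trap hi3 (hyseg.map (hn.aff i)) (by linarith)).2
  rw [e1, e2] at e3
  linear_combination e3

/-- a family of affine maps near the identity without (infinitesimal) fixed vectors gives a
global developing map -/
theorem exists_dev [PreconnectedSpace S] [Nonempty S] (hn : NearId ω 𝒰 h A)
    (hinj : ∀ᶠ i in (𝒰 : Filter ι), ∀ c : ℂ, act (A i) c = c → c = 0) :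
    ∃ D : S → ℂ, IsDev ω D := by
  classical
  set R : S → S → ℂ → Prop := fun x y c => ∀ᶠ i in (𝒰 : Filter ι),
    disp ω (h i) y - disp ω (h i) x = act (A i) c - c with hR
  have htrans : ∀ x y z c c', R x y c → R y z c' → R x z (c + c') := by
    intro x y z c c' h1 h2
    filter_upwards [h1, h2] with i hi1 hi2
    rw [act_add]
    linear_combination hi1 + hi2
  have hsymm : ∀ x y c, R x y c → R y x (-c) := by
    intro x y c h1
    filter_upwards [h1] with i hi1
    rw [act_neg]
    linear_combination -hi1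
  have huniq : ∀ x y c c', R x y c → R x y c' → c = c' := by
    intro x y c c' h1 h2
    obtain ⟨i, hi1, hi2, hi3⟩ := (h1.and (h2.and hinj)).exists
    have h3 : act (A i) (c - c') = c - c' := by
      rw [act_sub]
      linear_combination hi2 - hi1
    have := hi3 _ h3
    linear_combination this
  obtain ⟨x₀⟩ := ‹Nonempty S›
  have hall : ∀ y, ∃ c, R x₀ y c := by
    have hopen : ∀ (x : S), (∃ c, R x₀ x c) → ∀ᶠ y in 𝓝 x, ∃ c, R x₀ y c := by
      rintro x ⟨c, hc⟩
      obtain ⟨m⟩ := exists_model ω x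
      filter_upwards [m.disc_mem_nhds (ρ := m.R / 4) (by have := m.R_pos; positivity)] with y hy
      exact ⟨_, htrans _ _ _ _ _ hc (hn.disp_rel m hy)⟩
    have hclosed : ∀ (x : S), ¬ (∃ c, R x₀ x c) → ∀ᶠ y in 𝓝 x, ¬ ∃ c, R x₀ y c := by
      intro x hx
      obtain ⟨m⟩ := exists_model ω x
      filter_upwards [m.disc_mem_nhds (ρ := m.R / 4) (by have := m.R_pos; positivity)] with y hy
      rintro ⟨c, hc⟩
      exact hx ⟨_, htrans _ _ _ _ _ hc (hsymm _ _ _ (hn.disp_rel m hy))⟩
    have hclopen : IsClopen {y | ∃ c, R x₀ y c} := by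
      constructor
      · rw [← isOpen_compl_iff, isOpen_iff_mem_nhds]
        exact fun x hx => hclosed x hx
      · rw [isOpen_iff_mem_nhds]
        exact fun x hx => hopen x hx
    have h0 : x₀ ∈ {y | ∃ c, R x₀ y c} := by
      refine ⟨0, Eventually.of_forall fun i => ?_⟩
      rw [act_zero]
      ring
    have := hclopen.eq_univ ⟨x₀, h0⟩
    intro y
    have hy : y ∈ {y | ∃ c, R x₀ y c} := by rw [this]; trivial
    exact hy
  choose D hD using hall
  refine ⟨D, fun x m y hy => ?_⟩
  exact huniq _ _ _ _ (hD y) (htrans _ _ _ _ _ (hD x) (hn.disp_rel m hy))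

end Exists

namespace IsDev

variable {D : S → ℂ}

omit [T2Space S] in
lemma sub_const (hD : IsDev ω D) (c : ℂ) : IsDev ω (fun x => D x - c) := by
  intro x m y hy
  simp only
  rw [hD x m y hy]
  ring

omit [T2Space S] in
lemma cont (hD : IsDev ω D) : Continuous D := by
  rw [continuous_iff_continuousAt]
  intro x
  obtain ⟨m⟩ := exists_model ω x
  have h1 : ContinuousAt (fun y => D x + m.φ y ^ m.k) x :=
    continuousAt_const.add ((m.φ.continuousAt m.mem).pow _)
  refine h1.congr ?_
  filter_upwards [m.disc_mem_nhds (ρ := m.R / 4) (by have := m.R_pos; positivity)] with y hy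
  exact (hD x m y hy).symm

lemma affine [PreconnectedSpace S] (hD : IsDev ω D) {f : S ≃ₜ S} {A : GL (Fin 2) ℝ}
    (hf : IsAffine ω f A) : ∃ c : ℂ, ∀ x, D (f x) = act A (D x) + c := by
  have hlc : IsLocallyConstant (fun x => D (f x) - act A (D x)) := by
    rw [IsLocallyConstant.iff_eventually_eq]
    intro x
    obtain ⟨m⟩ := exists_model ω x
    obtain ⟨m'⟩ := exists_model ω (f x)
    have hR := m.R_pos
    have hR' := m'.R_pos
    set ρ : ℝ := min (m.R / 4) (m'.R / (4 * (nrm A + 1))) with hρ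
    have hnA := nrm_nonneg A
    have hρ0 : 0 < ρ := by positivity
    filter_upwards [m.disc_mem_nhds hρ0] with y hy
    have e1 := hD x m y (m.disc_mono (min_le_left _ _) hy)
    have hseg := (m.seg_of_mem hy).map hf
    have h1 : ‖m.φ y ^ m.k‖ ≤ ρ := by rw [norm_pow]; exact hy.2.2
    have h2 : ‖act A (m.φ y ^ m.k)‖ ≤ m'.R / 4 := by
      refine (norm_act_le' le_rfl h1).trans ?_
      calc nrm A * ρ ≤ (nrm A + 1) * (m'.R / (4 * (nrm A + 1))) := by
            gcongr
            · linarith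
            · exact min_le_right _ _
        _ = m'.R / 4 := by field_simp
    have h3 := m'.trap (m'.center_mem le_rfl) hseg (by linarith)
    rw [m'.zero, zero_pow m'.hk, zero_add] at h3
    have e2 := hD (f x) m' (f y) (m'.disc_mono (by linarith) h3.1)
    rw [e2, e1, h3.2, act_add]
    ring
  by_cases hS : Nonempty S
  · obtain ⟨x₀⟩ := hS
    refine ⟨D (f x₀) - act A (D x₀), fun x => ?_⟩
    have := hlc.apply_eq_of_preconnectedSpace x x₀
    linear_combination this
  · exact ⟨0, fun x => absurd ⟨x⟩ hS⟩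

end IsDev

end LadderVeech
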