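import Pool.Agent.LadderVeech.Lie

open Set Filter Topology NormedSpace
open scoped Matrix.Norms.Operator

namespace LadderVeech

/-- a left eigenvector -/
lemma exists_left_eig {B : Matrix (Fin 2) (Fin 2) ℝ} {x : ℝ}
    (hx : x ^ 2 - (B 0 0 + B 1 1) * x + (B 0 0 * B 1 1 - B 0 1 * B 1 0) = 0) :
    ∃ a b : ℝ, ¬ (a = 0 ∧ b = 0) ∧ a * B 0 0 + b * B 1 0 = x * a ∧
      a * B 0 1 + b * B 1 1 = x * b := by
  have hdet : Matrix.det (B - x • (1 : Matrix (Fin 2) (Fin 2) ℝ)) = 0 := by
    rw [Matrix.det_fin_two]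
    simp only [Matrix.sub_apply, Matrix.smul_apply, Matrix.one_apply_eq, smul_eq_mul, mul_one,
      ne_eq, zero_ne_one, not_false_eq_true, Matrix.one_apply_ne, mul_zero, sub_zero, one_ne_zero]
    linear_combination hx
  obtain ⟨v, hv, hvM⟩ := Matrix.exists_vecMul_eq_zero_iff.2 hdet
  have h0 := congrFun hvM 0
  have h1 := congrFun hvM 1
  simp only [Matrix.vecMul, dotProduct, Fin.sum_univ_two, Matrix.sub_apply, Matrix.smul_apply,
    Matrix.one_apply_eq, smul_eq_mul, mul_one, ne_eq, zero_ne_one, one_ne_zero,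
    not_false_eq_true, Matrix.one_apply_ne, mul_zero, sub_zero, Pi.zero_apply] at h0 h1
  refine ⟨v 0, v 1, ?_, by linear_combination h0, by linear_combination h1⟩
  rintro ⟨h2, h3⟩
  apply hv
  ext i
  fin_cases i
  · exact h2
  · exact h3

lemma expGL_diagonal (v : Fin 2 → ℝ) (i j : Fin 2) :
    expGL (Matrix.diagonal v) i j = if i = j then Real.exp (v i) else 0 := by
  have h : (expGL (Matrix.diagonal v) : Matrix (Fin 2) (Fin 2) ℝ) i j =
      (exp (Matrix.diagonal v) : Matrix (Fin 2) (Fin 2) ℝ) i j := rfl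
  rw [h, Matrix.exp_diagonal, Matrix.diagonal_apply]
  have h2 : (exp v : Fin 2 → ℝ) i = Real.exp (v i) := by
    rw [Pi.coe_exp, Real.exp_eq_exp_ℝ]
  rw [h2]

/-- diagonalisation of a hyperbolic one-parameter group -/
theorem exists_diag {B : Matrix (Fin 2) (Fin 2) ℝ} (hB : B 0 0 * B 1 1 - B 0 1 * B 1 0 < 0) :
    ∃ (P : GL (Fin 2) ℝ) (lam mu : ℝ), 0 < lam ∧ 0 < mu ∧ ∀ (t : ℝ) (z : ℂ),
      (act P (act (expGL (t • B)) z)).re = Real.exp (lam * t) * (act P z).re ∧
      (act P (act (expGL (t • B)) z)).im = Real.exp (-(mu * t)) * (act P z).im := by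
  set T := B 0 0 + B 1 1 with hT
  set Δ := B 0 0 * B 1 1 - B 0 1 * B 1 0 with hΔ
  set s := Real.sqrt (T ^ 2 - 4 * Δ) with hs
  have hpos : 0 < T ^ 2 - 4 * Δ := by nlinarith [sq_nonneg T]
  have hs2 : s ^ 2 = T ^ 2 - 4 * Δ := Real.sq_sqrt hpos.le
  have hs0 : 0 < s := Real.sqrt_pos.2 hpos
  have hsT : |T| < s := by
    rw [hs, ← Real.sqrt_sq_eq_abs]
    exact Real.sqrt_lt_sqrt (sq_nonneg T) (by linarith)
  rw [abs_lt] at hsT
  set lam := (T + s) / 2 with hlam
  set mu := (s - T) / 2 with hmu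
  have hlam0 : 0 < lam := by rw [hlam]; linarith
  have hmu0 : 0 < mu := by rw [hmu]; linarith
  obtain ⟨a, b, hab, e1, e2⟩ := exists_left_eig (B := B) (x := lam) (by
    rw [← hT, ← hΔ, hlam]; nlinarith)
  obtain ⟨c, d, hcd, e3, e4⟩ := exists_left_eig (B := B) (x := -mu) (by
    rw [← hT, ← hΔ, hmu]; nlinarith)
  have hdet : a * d - b * c ≠ 0 := by
    intro h0
    have h1 : (lam + mu) * (a * c) = 0 := by
      linear_combination (-c) * e1 + a * e3 - B 1 0 * h0
    have h2 : (lam + mu) * (b * d) = 0 := by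
      linear_combination (-d) * e2 + b * e4 + B 0 1 * h0
    have h3 : a * c = 0 := (mul_eq_zero.1 h1).resolve_left (by linarith)
    have h4 : b * d = 0 := (mul_eq_zero.1 h2).resolve_left (by linarith)
    by_cases ha : a = 0
    · have hb : b ≠ 0 := fun hb => hab ⟨ha, hb⟩
      have hd : d = 0 := (mul_eq_zero.1 h4).resolve_left hb
      rw [ha, zero_mul, zero_sub, neg_eq_zero] at h0
      exact hcd ⟨(mul_eq_zero.1 h0).resolve_left hb, hd⟩
    · have hc : c = 0 := (mul_eq_zero.1 h3).resolve_left ha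
      rw [hc, mul_zero, sub_zero] at h0
      exact hcd ⟨hc, (mul_eq_zero.1 h0).resolve_left ha⟩
  set M : Matrix (Fin 2) (Fin 2) ℝ := !![a, b; c, d] with hM
  have hMdet : M.det ≠ 0 := by rw [hM, Matrix.det_fin_two_of]; exact hdet
  set P : GL (Fin 2) ℝ := Matrix.GeneralLinearGroup.mkOfDetNeZero M hMdet with hP
  have hPM : (P : Matrix (Fin 2) (Fin 2) ℝ) = M := rfl
  have hPB : (P : Matrix (Fin 2) (Fin 2) ℝ) * B =
      Matrix.diagonal ![lam, -mu] * (P : Matrix (Fin 2) (Fin 2) ℝ) := by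
    rw [hPM, hM]
    ext i j
    fin_cases i <;> fin_cases j <;>
      simp [Matrix.mul_apply, Fin.sum_univ_two, Matrix.diagonal_mul]
    · linear_combination e1
    · linear_combination e2
    · linear_combination e3
    · linear_combination e4
  have hconj : ∀ t : ℝ, P * expGL (t • B) =
      expGL (Matrix.diagonal ![lam * t, -(mu * t)]) * P := by
    intro t
    have h1 := expGL_conj P (t • B)
    have h2 : (P : Matrix (Fin 2) (Fin 2) ℝ) * (t • B) *
        ((P⁻¹ : GL (Fin 2) ℝ) : Matrix (Fin 2) (Fin 2) ℝ) =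
        Matrix.diagonal ![lam * t, -(mu * t)] := by
      rw [Matrix.mul_smul, hPB, Matrix.smul_mul, Matrix.mul_assoc, ← Units.val_mul,
        mul_inv_cancel, Units.val_one, Matrix.mul_one, ← Matrix.diagonal_smul]
      congr 1
      ext i
      fin_cases i <;> simp [mul_comm]
    rw [h2] at h1
    rw [← h1]
    group
  refine ⟨P, lam, mu, hlam0, hmu0, fun t z => ?_⟩
  rw [← act_mul, hconj, act_mul]
  have e00 := expGL_diagonal ![lam * t, -(mu * t)] 0 0
  have e01 := expGL_diagonal ![lam * t, -(mu * t)] 0 1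
  have e10 := expGL_diagonal ![lam * t, -(mu * t)] 1 0
  have e11 := expGL_diagonal ![lam * t, -(mu * t)] 1 1
  simp only [if_true, Matrix.cons_val_zero, Matrix.cons_val_one, zero_ne_one, one_ne_zero,
    if_false] at e00 e01 e10 e11
  constructor
  · change expGL (Matrix.diagonal ![lam * t, -(mu * t)]) 0 0 * (act P z).re +
      expGL (Matrix.diagonal ![lam * t, -(mu * t)]) 0 1 * (act P z).im = _
    rw [e00, e01]
    ring
  · change expGL (Matrix.diagonal ![lam * t, -(mu * t)]) 1 0 * (act P z).re +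
      expGL (Matrix.diagonal ![lam * t, -(mu * t)]) 1 1 * (act P z).im = _
    rw [e10, e11]
    ring

end LadderVeech
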