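import Pool.Agent.LadderVeech.Surface

open Set Filter Topology

namespace LadderVeech

/-- points on the upper edge -/
def pt (x : ℝ) : Ladder := ⟨(x, 2, 0), by norm_num⟩

@[simp] lemma xc_pt (x : ℝ) : xc (pt x) = x := rfl

lemma refl_aux (p : Ladder) : (-p.1.1, p.1.2.1, p.1.2.2).2.2 ^ 2 =
    (4 - (-p.1.1, p.1.2.1, p.1.2.2).2.1 ^ 2) * ((-p.1.1, p.1.2.1, p.1.2.2).2.1 ^ 2 +
      Real.sin (Real.pi * (-p.1.1, p.1.2.1, p.1.2.2).1) ^ 2 - 1 / 2) := by
  have := p.2
  simp only
  rw [mul_neg, Real.sin_neg, neg_sq]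
  exact this

/-- the reflection `x ↦ -x` -/
noncomputable def reflFun (p : Ladder) : Ladder := ⟨(-p.1.1, p.1.2.1, p.1.2.2), refl_aux p⟩

lemma reflFun_reflFun (p : Ladder) : reflFun (reflFun p) = p := by
  apply Subtype.ext
  simp [reflFun]

lemma continuous_reflFun : Continuous reflFun := by
  unfold reflFun
  exact Continuous.subtype_mk (by fun_prop) _

/-- reflection exchanging the two ends -/
noncomputable def refl : Ladder ≃ₜ Ladder where
  toFun := reflFun
  invFun := reflFun
  left_inv := reflFun_reflFun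
  right_inv := reflFun_reflFun
  continuous_toFun := continuous_reflFun
  continuous_invFun := continuous_reflFun

@[simp] lemma xc_refl (p : Ladder) : xc (refl p) = -xc p := rfl

lemma exists_half_le (R : ℝ) : ∃ n : ℤ, (n:ℝ) + 1 / 2 ≤ R := by
  obtain ⟨n, hn⟩ := exists_int_lt (R - 1 / 2)
  exact ⟨n, by linarith⟩

lemma exists_half_ge (R : ℝ) : ∃ n : ℤ, R ≤ (n:ℝ) + 1 / 2 := by
  obtain ⟨n, hn⟩ := exists_int_gt R
  exact ⟨n, by linarith⟩

lemma isPreconnected_le (R : ℝ) : IsPreconnected {p : Ladder | xc p ≤ R} := by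
  obtain ⟨n, hn⟩ := exists_half_le R
  exact isPreconnected_slab isPreconnected_Iic n hn

lemma isPreconnected_ge (R : ℝ) : IsPreconnected {p : Ladder | R ≤ xc p} := by
  obtain ⟨n, hn⟩ := exists_half_ge R
  exact isPreconnected_slab isPreconnected_Ici n hn

lemma far (f : Ladder ≃ₜ Ladder) (M : ℝ) :
    ∃ R : ℝ, ∀ p, xc p ≤ R → xc (f p) < -M ∨ M < xc (f p) := by
  have h1 : IsCompact (f.symm '' {p : Ladder | -M ≤ xc p ∧ xc p ≤ M}) :=
    (isCompact_slab _ _).image f.symm.continuous
  obtain ⟨b, hb⟩ := (h1.image continuous_xc).bddBelow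
  refine ⟨b - 1, fun p hp => ?_⟩
  by_contra hcon
  push Not at hcon
  have h2 : xc p ∈ xc '' (f.symm '' {p : Ladder | -M ≤ xc p ∧ xc p ≤ M}) :=
    ⟨p, ⟨f p, hcon, by simp⟩, rfl⟩
  have := hb h2
  linarith

lemma left_or_right (f : Ladder ≃ₜ Ladder) {M : ℝ} (hM : 0 ≤ M) :
    ∃ R : ℝ, (∀ p, xc p ≤ R → xc (f p) < -M) ∨ (∀ p, xc p ≤ R → M < xc (f p)) := by
  obtain ⟨R, hR⟩ := far f M
  refine ⟨R, ?_⟩
  have h1 : IsPreconnected (f '' {p : Ladder | xc p ≤ R}) :=
    (isPreconnected_le R).image _ f.continuous.continuousOn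
  have h2 := h1.subset_or_subset (u := {p | xc p < -M}) (v := {p | M < xc p})
    (isOpen_lt continuous_xc continuous_const) (isOpen_lt continuous_const continuous_xc)
    (by
      rw [Set.disjoint_left]
      intro p hp hp'
      simp only [mem_ofPred_eq] at hp hp'
      linarith)
    (by
      rintro _ ⟨p, hp, rfl⟩
      exact hR p hp)
  rcases h2 with h | h
  · exact Or.inl fun p hp => h ⟨p, hp, rfl⟩
  · exact Or.inr fun p hp => h ⟨p, hp, rfl⟩

/-- `f` maps the left end to the left end -/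
def LL (f : Ladder ≃ₜ Ladder) : Prop := ∀ M : ℝ, ∃ R : ℝ, ∀ p, xc p ≤ R → xc (f p) ≤ M

/-- `f` maps the left end to the right end -/
def LR (f : Ladder ≃ₜ Ladder) : Prop := ∀ M : ℝ, ∃ R : ℝ, ∀ p, xc p ≤ R → M ≤ xc (f p)

/-- `f` maps the right end to the right end -/
def RR (f : Ladder ≃ₜ Ladder) : Prop := ∀ M : ℝ, ∃ R : ℝ, ∀ p, R ≤ xc p → M ≤ xc (f p)

/-- `f` maps the right end to the left end -/
def RL (f : Ladder ≃ₜ Ladder) : Prop := ∀ M : ℝ, ∃ R : ℝ, ∀ p, R ≤ xc p → xc (f p) ≤ M

lemma ll_or_lr (f : Ladder ≃ₜ Ladder) : LL f ∨ LR f := by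
  obtain ⟨R₀, h0⟩ := left_or_right f le_rfl
  rcases h0 with h0 | h0
  · left
    intro M
    obtain ⟨R, hR⟩ := left_or_right f (abs_nonneg M)
    rcases hR with hR | hR
    · refine ⟨R, fun p hp => ?_⟩
      have := hR p hp
      have := neg_abs_le M
      linarith
    · exfalso
      have h1 := hR (pt (min R R₀)) (by simp)
      have h2 := h0 (pt (min R R₀)) (by simp)
      have := abs_nonneg M
      linarith
  · right
    intro M
    obtain ⟨R, hR⟩ := left_or_right f (abs_nonneg M)
    rcases hR with hR | hR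
    · exfalso
      have h1 := hR (pt (min R R₀)) (by simp)
      have h2 := h0 (pt (min R R₀)) (by simp)
      have := abs_nonneg M
      linarith
    · refine ⟨R, fun p hp => ?_⟩
      have := hR p hp
      have := le_abs_self M
      linarith

lemma rl_or_rr (f : Ladder ≃ₜ Ladder) : RL f ∨ RR f := by
  rcases ll_or_lr (refl.trans f) with h | h
  · left
    intro M
    obtain ⟨R, hR⟩ := h M
    refine ⟨-R, fun p hp => ?_⟩
    have h1 := hR (refl p) (by rw [xc_refl]; linarith)
    have h2 : (refl.trans f) (refl p) = f p := by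
      change f (refl (refl p)) = f p
      congr 1
      exact reflFun_reflFun p
    rwa [h2] at h1
  · right
    intro M
    obtain ⟨R, hR⟩ := h M
    refine ⟨-R, fun p hp => ?_⟩
    have h1 := hR (refl p) (by rw [xc_refl]; linarith)
    have h2 : (refl.trans f) (refl p) = f p := by
      change f (refl (refl p)) = f p
      congr 1
      exact reflFun_reflFun p
    rwa [h2] at h1

lemma rr_of_ll {f : Ladder ≃ₜ Ladder} (h : LL f) : RR f := by
  rcases rl_or_rr f with h1 | h1
  · exfalso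
    obtain ⟨R, hR⟩ := h 0
    obtain ⟨R', hR'⟩ := h1 0
    obtain ⟨b, hb⟩ := ((isCompact_slab R R').image
      (continuous_xc.comp f.continuous)).bddAbove
    have hall : ∀ p, xc (f p) ≤ max b 0 := by
      intro p
      rcases le_total (xc p) R with h2 | h2
      · exact (hR p h2).trans (le_max_right _ _)
      · rcases le_total R' (xc p) with h3 | h3
        · exact (hR' p h3).trans (le_max_right _ _)
        · exact (hb ⟨p, ⟨h2, h3⟩, rfl⟩).trans (le_max_left _ _)
    have := hall (f.symm (pt (max b 0 + 1)))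
    simp only [Homeomorph.apply_symm_apply, xc_pt] at this
    linarith
  · exact h1

lemma rl_of_not_ll {f : Ladder ≃ₜ Ladder} (h : ¬ LL f) : RL f := by
  have hLR : LR f := (ll_or_lr f).resolve_left h
  rcases rl_or_rr f with h1 | h1
  · exact h1
  · exfalso
    obtain ⟨R, hR⟩ := hLR 0
    obtain ⟨R', hR'⟩ := h1 0
    obtain ⟨b, hb⟩ := ((isCompact_slab R R').image
      (continuous_xc.comp f.continuous)).bddBelow
    have hall : ∀ p, min b 0 ≤ xc (f p) := by
      intro p
      rcases le_total (xc p) R with h2 | h2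
      · exact (min_le_right _ _).trans (hR p h2)
      · rcases le_total R' (xc p) with h3 | h3
        · exact (min_le_right _ _).trans (hR' p h3)
        · exact (min_le_left _ _).trans (hb ⟨p, ⟨h2, h3⟩, rfl⟩)
    have := hall (f.symm (pt (min b 0 - 1)))
    simp only [Homeomorph.apply_symm_apply, xc_pt] at this
    linarith

/-- The homeomorphisms of the ladder fixing the two ends. -/
def endFix : Subgroup (Ladder ≃ₜ Ladder) where
  carrier := {f | LL f}
  mul_mem' := by
    intro f g hf hg M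
    obtain ⟨R, hR⟩ := hf M
    obtain ⟨R', hR'⟩ := hg R
    exact ⟨R', fun p hp => hR _ (hR' p hp)⟩
  one_mem' := fun M => ⟨M, fun p hp => hp⟩
  inv_mem' := by
    intro f hf
    rcases ll_or_lr f⁻¹ with h | h
    · exact h
    · exfalso
      obtain ⟨R, hR⟩ := h 0
      obtain ⟨R', hR'⟩ := hf R
      have h1 := hR' (pt (min R' (-1))) (by simp)
      have h2 := hR _ h1
      have h3 : f⁻¹ (f (pt (min R' (-1)))) = pt (min R' (-1)) := f.symm_apply_apply _
      rw [h3, xc_pt] at h2
      have := min_le_right R' (-1)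
      linarith

lemma mem_endFix {f : Ladder ≃ₜ Ladder} : f ∈ endFix ↔ LL f := Iff.rfl

lemma mul_mem_endFix {f g : Ladder ≃ₜ Ladder} (hf : f ∉ endFix) (hg : g ∉ endFix) :
    f * g ∈ endFix := by
  have h1 : RL f := rl_of_not_ll hf
  have h2 : LR g := (ll_or_lr g).resolve_left hg
  intro M
  obtain ⟨R, hR⟩ := h1 M
  obtain ⟨R', hR'⟩ := h2 R
  exact ⟨R', fun p hp => hR _ (hR' p hp)⟩

end LadderVeech
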