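import Pool.Agent.LadderVeech.Sqrt

open Set Filter Topology

namespace LadderVeech

section Etale

variable {M : Type*} [TopologicalSpace M]

/-- preimages of preconnected sets under an injective open map on an open set -/
lemma preconnected_inter_preimage {N : Type*} [TopologicalSpace N] {p : M → N} {U : Set M}
    (hinj : InjOn p U) (hopen : ∀ V : Set M, IsOpen V → V ⊆ U → IsOpen (p '' V))
    (hU : IsOpen U) {A : Set N} (hA : IsPreconnected A) (hAU : A ⊆ p '' U) :
    IsPreconnected (U ∩ p ⁻¹' A) := by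
  have h1 : Function.Injective (fun x : U => p x) := by
    intro x y hxy
    exact Subtype.ext (hinj x.2 y.2 hxy)
  have h2 : IsOpenMap (fun x : U => p x) := by
    intro V hV
    have : (fun x : U => p x) '' V = p '' (Subtype.val '' V) := by
      rw [image_image]
    rw [this]
    exact hopen _ (hU.isOpenMap_subtype_val V hV) (by rintro _ ⟨x, -, rfl⟩; exact x.2)
  have h3 : IsPreconnected ((fun x : U => p x) ⁻¹' A) := by
    refine hA.preimage_of_isOpenMap h1 h2 ?_
    intro a ha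
    obtain ⟨x, hx, rfl⟩ := hAU ha
    exact ⟨⟨x, hx⟩, rfl⟩
  have h4 := h3.image Subtype.val continuous_subtype_val.continuousOn
  convert h4 using 1
  ext x
  constructor
  · rintro ⟨hx, hxA⟩
    exact ⟨⟨x, hx⟩, hxA, rfl⟩
  · rintro ⟨y, hy, rfl⟩
    exact ⟨y.2, hy⟩

variable [T2Space M] {p : M → ℝ}

lemma injOn_union (hopen : IsOpenMap p) {U V : Set M} (hU : IsOpen U)
    (hV : IsOpen V) (hU' : IsPreconnected U) (hV' : IsPreconnected V) (hc : Continuous p)
    (hUi : InjOn p U) (hVi : InjOn p V) {y : M} (hyU : y ∈ U) (hyV : y ∈ V) :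
    InjOn p (U ∪ V) := by
  have hA : IsPreconnected (p '' U ∩ p '' V) := by
    have h1 : (p '' U).OrdConnected := (hU'.image p hc.continuousOn).ordConnected
    have h2 : (p '' V).OrdConnected := (hV'.image p hc.continuousOn).ordConnected
    exact (h1.inter h2).isPreconnected
  have hUA := preconnected_inter_preimage hUi (fun W hW _ => hopen W hW) hU hA inter_subset_left
  have hsub : U ∩ p ⁻¹' (p '' U ∩ p '' V) ⊆ V := by
    have h := isPreconnected_iff_subset_of_disjoint.1 hUA V (interior Vᶜ) hV isOpen_interior ?_ ?_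
    · rcases h with h | h
      · exact h
      · have := h ⟨hyU, ⟨y, hyU, rfl⟩, ⟨y, hyV, rfl⟩⟩
        exact absurd hyV (interior_subset this)
    · rintro x ⟨hxU, -, ⟨v, hvV, hvx⟩⟩
      by_cases hxV : x ∈ V
      · exact Or.inl hxV
      · right
        have hne : x ≠ v := by
          rintro rfl
          exact hxV hvV
        obtain ⟨N₁, N₂, h1, h2, hx1, hv2, hdis⟩ := t2_separation hne
        rw [mem_interior]
        refine ⟨N₁ ∩ p ⁻¹' (p '' (N₂ ∩ V)), ?_, h1.inter ((hopen _ (h2.inter hV)).preimage hc),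
          hx1, ⟨v, ⟨hv2, hvV⟩, hvx⟩⟩
        rintro x' ⟨hx'1, ⟨v', ⟨hv'2, hv'V⟩, hv'x'⟩⟩ hx'V
        have := hVi hv'V hx'V hv'x'
        rw [this] at hv'2
        exact Set.disjoint_left.1 hdis hx'1 hv'2
    · rw [Set.eq_empty_iff_forall_notMem]
      rintro x ⟨-, hxV, hx⟩
      exact (interior_subset hx) hxV
  have key : ∀ u ∈ U, ∀ v ∈ V, p u = p v → u = v := by
    intro u hu v hv huv
    exact hVi (hsub ⟨hu, ⟨u, hu, rfl⟩, ⟨v, hv, huv.symm⟩⟩) hv huv
  rintro a (ha | ha) b (hb | hb) hab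
  · exact hUi ha hb hab
  · exact key a ha b hb hab
  · exact (key b hb a ha hab.symm).symm
  · exact hVi ha hb hab

/-- A connected Hausdorff space which is étale over the line injects into the line. -/
theorem injOn_of_etale (hopen : IsOpenMap p) (hc : Continuous p)
    (hloc : ∀ x, ∃ U ∈ 𝓝 x, InjOn p U) {S : Set M} (hS : IsPreconnected S) : InjOn p S := by
  -- the equivalence relation
  set R : M → M → Prop := fun x y => ∃ U : Set M, IsOpen U ∧ IsPreconnected U ∧ InjOn p U ∧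
    x ∈ U ∧ y ∈ U with hR
  have hrefl : ∀ x, ∃ U : Set M, IsOpen U ∧ IsPreconnected U ∧ InjOn p U ∧ x ∈ U := by
    intro x
    obtain ⟨U₀, hU₀, hinj⟩ := hloc x
    obtain ⟨U, hUU₀, hU, hxU⟩ := mem_nhds_iff.1 hU₀
    have hinjU : InjOn p U := hinj.mono hUU₀
    have h1 : p '' U ∈ 𝓝 (p x) := (hopen U hU).mem_nhds ⟨x, hxU, rfl⟩
    obtain ⟨ε, hε, hball⟩ := Metric.mem_nhds_iff.1 h1
    refine ⟨U ∩ p ⁻¹' Metric.ball (p x) ε, hU.inter (Metric.isOpen_ball.preimage hc), ?_,
      hinjU.mono inter_subset_left, hxU, Metric.mem_ball_self hε⟩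
    exact preconnected_inter_preimage hinjU (fun W hW _ => hopen W hW) hU
      (convex_ball _ _).isPreconnected hball
  have htrans : ∀ x y z, R x y → R y z → R x z := by
    rintro x y z ⟨U, hU1, hU2, hU3, hxU, hyU⟩ ⟨V, hV1, hV2, hV3, hyV, hzV⟩
    exact ⟨U ∪ V, hU1.union hV1, hU2.union y hyU hyV hV2,
      injOn_union hopen hU1 hV1 hU2 hV2 hc hU3 hV3 hyU hyV, Or.inl hxU, Or.inr hzV⟩
  have hsymm : ∀ x y, R x y → R y x := by
    rintro x y ⟨U, hU1, hU2, hU3, hxU, hyU⟩
    exact ⟨U, hU1, hU2, hU3, hyU, hxU⟩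
  intro x hx y hy hxy
  -- the class of `x` is open, and so is its complement
  have hcl : ∀ x, IsOpen {y | R x y} := by
    intro x
    rw [isOpen_iff_mem_nhds]
    rintro y ⟨U, hU1, hU2, hU3, hxU, hyU⟩
    filter_upwards [hU1.mem_nhds hyU] with z hz
    exact ⟨U, hU1, hU2, hU3, hxU, hz⟩
  have hco : IsOpen {y | ¬ R x y} := by
    rw [isOpen_iff_mem_nhds]
    intro y hy
    obtain ⟨U, hU1, hU2, hU3, hyU⟩ := hrefl y
    filter_upwards [hU1.mem_nhds hyU] with z hz hxz
    exact hy (htrans x z y hxz ⟨U, hU1, hU2, hU3, hz, hyU⟩)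
  have h := isPreconnected_iff_subset_of_disjoint.1 hS {y | R x y} {y | ¬ R x y} (hcl x) hco ?_ ?_
  · have hxx : R x x := by
      obtain ⟨U, hU1, hU2, hU3, hxU⟩ := hrefl x
      exact ⟨U, hU1, hU2, hU3, hxU, hxU⟩
    rcases h with h | h
    · obtain ⟨U, hU1, hU2, hU3, hxU, hyU⟩ := h hy
      exact hU3 hxU hyU hxy
    · exact absurd hxx (h hx)
  · intro y _
    exact em (R x y)
  · rw [Set.eq_empty_iff_forall_notMem]
    rintro y ⟨-, h1, h2⟩
    exact h2 h1

end Etale

end LadderVeech
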