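import Mathlib

open Set Filter Topology NormedSpace

namespace LadderVeech

section Banach

variable {𝔸 : Type*} [NormedRing 𝔸] [NormedAlgebra ℝ 𝔸] [CompleteSpace 𝔸] [NormOneClass 𝔸]

lemma norm_pow_sub_pow_le {x y : 𝔸} {M : ℝ} (hM : 1 ≤ M) (hx : ‖x‖ ≤ M) (hy : ‖y‖ ≤ M) (n : ℕ) :
    ‖x ^ n - y ^ n‖ ≤ n * M ^ n * ‖x - y‖ := by
  induction n with
  | zero => simp
  | succ n ih =>
    have e : x ^ (n + 1) - y ^ (n + 1) = x * (x ^ n - y ^ n) + (x - y) * y ^ n := by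
      rw [pow_succ' x, pow_succ' y]; noncomm_ring
    have h1 : ‖y ^ n‖ ≤ M ^ n := (norm_pow_le y n).trans (pow_le_pow_left₀ (norm_nonneg _) hy n)
    have h2 : M ^ n ≤ M ^ (n + 1) := pow_le_pow_right₀ hM (Nat.le_succ n)
    calc ‖x ^ (n + 1) - y ^ (n + 1)‖ ≤ ‖x * (x ^ n - y ^ n)‖ + ‖(x - y) * y ^ n‖ := by
          rw [e]; exact norm_add_le _ _
      _ ≤ ‖x‖ * ‖x ^ n - y ^ n‖ + ‖x - y‖ * ‖y ^ n‖ := add_le_add (norm_mul_le _ _) (norm_mul_le _ _)
      _ ≤ M * (n * M ^ n * ‖x - y‖) + ‖x - y‖ * M ^ (n + 1) := by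
          gcongr
          exact h1.trans h2
      _ = ((n + 1 : ℕ) : ℝ) * M ^ (n + 1) * ‖x - y‖ := by push_cast; ring

theorem pow_tendsto_exp {ι : Type*} {l : Filter ι} {X : ι → 𝔸} {m : ι → ℕ} {Y : 𝔸}
    (hX : Tendsto X l (𝓝 0)) (hm : Tendsto (fun i => (m i : ℝ) • X i) l (𝓝 Y)) :
    Tendsto (fun i => (1 + X i) ^ (m i)) l (𝓝 (exp Y)) := by
  let _ : NormedAlgebra ℚ 𝔸 := NormedAlgebra.restrictScalars ℚ ℝ 𝔸
  have hexp : Tendsto (fun i => exp ((m i : ℝ) • X i)) l (𝓝 (exp Y)) :=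
    ((exp_continuous (𝔸 := 𝔸)).tendsto Y).comp hm
  have hexp2 : ∀ i, exp ((m i : ℝ) • X i) = exp (X i) ^ (m i) := by
    intro i
    rw [← exp_nsmul (𝔸 := 𝔸), Nat.cast_smul_eq_nsmul]
  have hzero : Tendsto (fun i => (1 + X i) ^ (m i) - exp (X i) ^ (m i)) l (𝓝 0) := by
    rw [tendsto_zero_iff_norm_tendsto_zero]
    rw [Metric.tendsto_nhds]
    intro δ hδ
    set K : ℝ := (‖Y‖ + 1) with hK
    have hK0 : 0 < K := by positivity
    set η : ℝ := min 1 (δ / (2 * Real.exp (2 * K) * K)) with hη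
    have hη0 : 0 < η := by positivity
    have h0 := (hasFDerivAt_exp_zero (𝕂 := ℝ) (𝔸 := 𝔸)).isLittleO
    have h1 : ∀ᶠ x in 𝓝 (0 : 𝔸), ‖exp x - 1 - x‖ ≤ η * ‖x‖ := by
      have := h0.bound hη0
      filter_upwards [this] with x hx
      simpa using hx
    have hm' : ∀ᶠ i in l, (m i : ℝ) * ‖X i‖ ≤ K := by
      have h2 := hm.norm
      have h3 : ∀ᶠ i in l, ‖(m i : ℝ) • X i‖ < K := h2.eventually_lt_const (by rw [hK]; linarith)
      filter_upwards [h3] with i hi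
      rw [norm_smul] at hi
      simpa using hi.le
    filter_upwards [hX.eventually h1, hm'] with i hi1 hi2
    have b1 : ‖(1 : 𝔸) + X i‖ ≤ 1 + 2 * ‖X i‖ := by
      refine (norm_add_le _ _).trans ?_
      rw [norm_one]
      linarith [norm_nonneg (X i)]
    have b2 : ‖exp (X i)‖ ≤ 1 + 2 * ‖X i‖ := by
      have e : exp (X i) = (exp (X i) - 1 - X i) + (1 + X i) := by abel
      have h4 : ‖exp (X i) - 1 - X i‖ ≤ ‖X i‖ := by
        refine hi1.trans ?_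
        have : η ≤ 1 := min_le_left _ _
        nlinarith [norm_nonneg (X i)]
      rw [e]
      refine (norm_add_le _ _).trans ?_
      have : ‖(1 : 𝔸) + X i‖ ≤ 1 + ‖X i‖ := by
        refine (norm_add_le _ _).trans ?_
        rw [norm_one]
      linarith
    have b3 := norm_pow_sub_pow_le (by linarith [norm_nonneg (X i)]) b1 b2 (m i)
    have b4 : (1 + 2 * ‖X i‖) ^ (m i) ≤ Real.exp (2 * K) := by
      have h5 : 1 + 2 * ‖X i‖ ≤ Real.exp (2 * ‖X i‖) := by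
        have := Real.add_one_le_exp (2 * ‖X i‖)
        linarith
      calc (1 + 2 * ‖X i‖) ^ (m i) ≤ Real.exp (2 * ‖X i‖) ^ (m i) := by
            gcongr
        _ = Real.exp (2 * ((m i : ℝ) * ‖X i‖)) := by rw [← Real.exp_nat_mul]; congr 1; ring
        _ ≤ Real.exp (2 * K) := Real.exp_le_exp.2 (by linarith)
    have b5 : ‖(1 : 𝔸) + X i - exp (X i)‖ ≤ η * ‖X i‖ := by
      have e : (1 : 𝔸) + X i - exp (X i) = -(exp (X i) - 1 - X i) := by abel
      rw [e, norm_neg]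
      exact hi1
    rw [dist_zero_right, norm_norm]
    calc ‖(1 + X i) ^ m i - exp (X i) ^ m i‖
        ≤ (m i : ℝ) * (1 + 2 * ‖X i‖) ^ (m i) * ‖(1 : 𝔸) + X i - exp (X i)‖ := b3
      _ ≤ (m i : ℝ) * Real.exp (2 * K) * (η * ‖X i‖) := by gcongr
      _ = η * Real.exp (2 * K) * ((m i : ℝ) * ‖X i‖) := by ring
      _ ≤ η * Real.exp (2 * K) * K := by gcongr
      _ ≤ (δ / (2 * Real.exp (2 * K) * K)) * Real.exp (2 * K) * K := by
          gcongr
          exact min_le_right _ _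
      _ = δ / 2 := by field_simp
      _ < δ := by linarith
  have := hzero.add hexp
  rw [zero_add] at this
  refine this.congr (fun i => ?_)
  rw [hexp2]
  abel

end Banach

end LadderVeech
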