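import Pool.Agent.LadderVeech.Sqrt

open Set Filter Topology

namespace LadderVeech

universe u

variable {X : Type u} [MetricSpace X]

/-- Modulo squares, the restrictions of circle valued maps to a compact subset of a surface
form a finite set. -/
lemma exists_finite_coding (hloc : ∀ p : X, ∃ e : OpenPartialHomeomorph X ℂ, p ∈ e.source)
    {P : Set X} (hP : IsCompact P) :
    ∃ (β : Type u) (_ : Finite β) (Φ : C(X, Circle) → β), ∀ u u' : C(X, Circle),
      Φ u = Φ u' → IsSq (fun p => u p / u' p) P := by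
  classical
  choose e he using hloc
  have hg := fun p => exists_good_nhds (he p) (O := univ) univ_mem
  choose G hGo hGc hGm _ hGs using hg
  obtain ⟨δ, hδ, hL⟩ := lebesgue_number_lemma_of_metric hP (c := G) hGo
    (fun p _ => mem_iUnion.2 ⟨p, hGm p⟩)
  have hn := fun p => exists_good_nhds (he p) (O := Metric.ball p (δ / 4))
    (Metric.ball_mem_nhds p (by positivity))
  choose N hNo hNc hNm hNsub hNs using hn
  obtain ⟨t, htP, htc⟩ := hP.elim_nhds_subcover N (fun x _ => (hNo x).mem_nhds (hNm x))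
  have hsq : ∀ (x : X) (u : C(X, Circle)), ∃ v : X → Circle, ContinuousOn v (N x) ∧
      ∀ p ∈ N x, v p ^ 2 = u p := fun x u => hNs x u
  choose v hv hvu using hsq
  set c : X → X → X := fun x y => if h : (N x ∩ N y).Nonempty then h.some else x with hc
  have hcmem : ∀ x y, (N x ∩ N y).Nonempty → c x y ∈ N x ∩ N y := by
    intro x y h
    simp only [hc, dif_pos h]
    exact h.some_mem
  have key : ∀ x ∈ t, ∀ y ∈ t, (N x ∩ N y).Nonempty → ∀ u : C(X, Circle),
      ∃ s : Circle, s ^ 2 = 1 ∧ ∀ p ∈ N x ∩ N y, v x u p = s * v y u p := by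
    intro x hx y hy hne u
    obtain ⟨i, hi⟩ := hL x (htP x hx)
    have hNx : N x ⊆ G i := by
      refine ((hNsub x).trans (Metric.ball_subset_ball (by linarith))).trans hi
    have hNy : N y ⊆ G i := by
      obtain ⟨q, hq1, hq2⟩ := hne
      have h1 := hNsub x hq1
      have h2 := hNsub y hq2
      rw [Metric.mem_ball] at h1 h2
      intro z hz
      have h3 := hNsub y hz
      rw [Metric.mem_ball] at h3
      apply hi
      rw [Metric.mem_ball]
      calc dist z x ≤ dist z y + dist y x := dist_triangle _ _ _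
        _ ≤ dist z y + (dist y q + dist q x) := by gcongr; exact dist_triangle _ _ _
        _ < δ := by rw [dist_comm y q]; linarith
    obtain ⟨w, hw, hwu⟩ := hGs i u
    obtain ⟨a, ha, hax⟩ := sign_const (hNc x) (hv x u) (hw.mono hNx)
      (fun p hp => by rw [hvu x u p hp, hwu p (hNx hp)])
    obtain ⟨b, hb, hby⟩ := sign_const (hNc y) (hv y u) (hw.mono hNy)
      (fun p hp => by rw [hvu y u p hp, hwu p (hNy hp)])
    refine ⟨a / b, by rw [div_pow, ha, hb, div_self'], fun p hp => ?_⟩
    rw [hax p hp.1, hby p hp.2, ← mul_assoc, div_mul_cancel]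
  refine ⟨t → t → Bool, inferInstance,
    fun u x y => decide (v x u (c x y) = v y u (c x y)), ?_⟩
  intro u u' hΦ
  have hss : ∀ x ∈ t, ∀ y ∈ t, ∀ p ∈ N x ∩ N y,
      v x u p / v x u' p = v y u p / v y u' p := by
    intro x hx y hy p hp
    obtain ⟨s, hs, hsv⟩ := key x hx y hy ⟨p, hp⟩ u
    obtain ⟨s', hs', hsv'⟩ := key x hx y hy ⟨p, hp⟩ u'
    have hcm := hcmem x y ⟨p, hp⟩
    have h1 := congrFun (congrFun hΦ ⟨x, hx⟩) ⟨y, hy⟩
    simp only [decide_eq_decide] at h1
    rw [hsv _ hcm, hsv' _ hcm, mul_eq_right, mul_eq_right] at h1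
    have h2 : s = s' := by
      rcases (sq_one_iff s).1 hs with rfl | rfl
      · exact (h1.1 rfl).symm
      · rcases (sq_one_iff s').1 hs' with rfl | rfl
        · exact h1.2 rfl
        · rfl
    rw [hsv p hp, hsv' p hp, h2, mul_div_mul_left_eq_div]
  have hcov : ∀ p ∈ P, ∃ x ∈ t, p ∈ N x := by
    intro p hp
    have := htc hp
    simpa using this
  choose! i hi hiN using hcov
  refine ⟨fun p => v (i p) u p / v (i p) u' p, ?_, ?_⟩
  · intro p hp
    have h1 : ContinuousAt (fun q => v (i p) u q / v (i p) u' q) p :=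
      ((hv (i p) u).div' (hv (i p) u')).continuousAt ((hNo _).mem_nhds (hiN p hp))
    refine h1.continuousWithinAt.congr_of_eventuallyEq_of_mem ?_ hp
    filter_upwards [self_mem_nhdsWithin,
      mem_nhdsWithin_of_mem_nhds ((hNo (i p)).mem_nhds (hiN p hp))] with q hq1 hq2
    exact hss (i q) (hi q hq1) (i p) (hi p hp) q ⟨hiN q hq1, hq2⟩
  · intro p hp
    simp only
    rw [div_pow, hvu _ u p (hiN p hp), hvu _ u' p (hiN p hp)]

lemma relIndex_sqSub_ne_zero (hloc : ∀ p : X, ∃ e : OpenPartialHomeomorph X ℂ, p ∈ e.source)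
    {B P : Set X} (hB : IsClosed B) (hP : IsCompact P) (hBP : IsPreconnected (B ∩ P)) :
    (sqSub (B ∪ P)).relIndex (sqSub B) ≠ 0 := by
  obtain ⟨β, hβ, Φ, hΦ⟩ := exists_finite_coding hloc hP
  have hfin : Finite (↥(sqSub B) ⧸ (sqSub (B ∪ P)).subgroupOf (sqSub B)) := by
    refine Finite.of_injective (fun a => Φ a.out.1) ?_
    intro a b hab
    simp only at hab
    have h1 := hΦ _ _ hab.symm
    have h2 : IsSq (fun p => b.out.1 p / a.out.1 p) B := by
      have := (sqSub B).div_mem b.out.2 a.out.2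
      exact this
    have h3 := h2.union hB hP.isClosed hBP h1
    have h4 : (a.out)⁻¹ * b.out ∈ (sqSub (B ∪ P)).subgroupOf (sqSub B) := by
      rw [Subgroup.mem_subgroupOf]
      refine IsSq.congr h3 (fun p _ => ?_)
      simp only [Subgroup.coe_mul, InvMemClass.coe_inv, ContinuousMap.mul_apply,
        ContinuousMap.inv_apply]
      rw [mul_comm, ← div_eq_mul_inv]
    have h5 := QuotientGroup.eq.2 h4
    rwa [QuotientGroup.out_eq', QuotientGroup.out_eq'] at h5
  exact Subgroup.index_ne_zero_of_finite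

lemma relIndex_two_pow {𝒰 : Type*} [CommGroup 𝒰] (V W : Subgroup 𝒰)
    (hW : ∀ u : 𝒰, u ^ 2 ∈ W) (h : W.relIndex V ≠ 0) : ∃ k : ℕ, W.relIndex V = 2 ^ k := by
  have hfin : Finite (↥V ⧸ W.subgroupOf V) := by
    unfold Subgroup.relIndex Subgroup.index at h
    exact Nat.finite_of_card_ne_zero h
  have hp : IsPGroup 2 (↥V ⧸ W.subgroupOf V) := by
    intro g
    obtain ⟨a, rfl⟩ := QuotientGroup.mk_surjective g
    refine ⟨1, ?_⟩
    rw [pow_one, ← QuotientGroup.mk_pow, QuotientGroup.eq_one_iff, Subgroup.mem_subgroupOf]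
    exact hW _
  have : Fact (Nat.Prime 2) := ⟨Nat.prime_two⟩
  exact IsPGroup.iff_card.1 hp

end LadderVeech
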