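import Pool.Agent.LadderVeech.Groups
import Pool.Agent.LadderVeech.Dev
import Pool.Agent.LadderVeech.Eig
import Pool.Agent.LadderVeech.Box

open Set Filter Topology

namespace LadderVeech

section General

variable {S : Type*} [TopologicalSpace S] {ω : TranslationStructure S}

lemma IsAffine.pow {f : S ≃ₜ S} {A : GL (Fin 2) ℝ} (h : IsAffine ω f A) (n : ℕ) :
    IsAffine ω (f ^ n) (A ^ n) := by
  induction n with
  | zero => simp only [pow_zero]; exact isAffine_one
  | succ n ih => simp only [pow_succ']; exact h.mul ih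

lemma IsAffine.zpow {f : S ≃ₜ S} {A : GL (Fin 2) ℝ} (h : IsAffine ω f A) (n : ℤ) :
    IsAffine ω (f ^ n) (A ^ n) := by
  cases n with
  | ofNat n => simp only [Int.ofNat_eq_natCast, zpow_natCast]; exact h.pow n
  | negSucc n => simp only [zpow_negSucc]; exact (h.pow _).inv

lemma locallyConnected_of (ω : TranslationStructure S) : LocallyConnectedSpace S := by
  rw [locallyConnectedSpace_iff_subsets_isOpen_isConnected]
  intro x O hO
  obtain ⟨e, he⟩ := hloc_of ω x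
  obtain ⟨N, h1, h2, h3, h4, -⟩ := exists_good_nhds he hO
  exact ⟨N, h4, h1, h3, ⟨⟨x, h3⟩, h2⟩⟩

end General

variable {ω : TranslationStructure Ladder}

lemma ZeroFlux.pow {f : Ladder ≃ₜ Ladder} (h : ZeroFlux ω f) (n : ℕ) : ZeroFlux ω (f ^ n) := by
  induction n with
  | zero => simp only [pow_zero]; exact ZeroFlux.one
  | succ n ih => simp only [pow_succ']; exact h.mul ih

lemma ZeroFlux.zpow {f : Ladder ≃ₜ Ladder} (h : ZeroFlux ω f) (n : ℤ) : ZeroFlux ω (f ^ n) := by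
  cases n with
  | ofNat n => simp only [Int.ofNat_eq_natCast, zpow_natCast]; exact h.pow n
  | negSucc n => simp only [zpow_negSucc]; exact (h.pow _).inv

/-- zero flux translations preserve the developing map -/
lemma IsDev.translation {D : Ladder → ℂ} (hD : IsDev ω D) {τ : Ladder ≃ₜ Ladder}
    (hτ : IsAffine ω τ 1) (h0 : ZeroFlux ω τ) (x : Ladder) : D (τ x) = D x := by
  obtain ⟨c, hc⟩ := hD.affine hτ
  have hc' : ∀ x, D (τ x) = D x + c := fun x => by rw [hc, act_one]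
  have hn : ∀ (n : ℕ) (x : Ladder), D ((τ ^ n) x) = D x + n * c := by
    intro n
    induction n with
    | zero => intro x; simp
    | succ n ih =>
      intro x
      rw [pow_succ']
      change D (τ ((τ ^ n) x)) = _
      rw [hc', ih]
      push_cast
      ring
  obtain ⟨M, hM⟩ := (isCompact_slab _ _ : IsCompact K₀).exists_bound_of_continuousOn
    hD.cont.continuousOn
  have hb : ∀ n : ℕ, n * ‖c‖ ≤ 2 * M := by
    intro n
    obtain ⟨_, ⟨x, hx, rfl⟩, hy⟩ := (h0.pow n).inter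
    have h1 := hM x hx
    have h2 := hM _ hy
    have h3 : (n : ℂ) * c = D ((τ ^ n) x) - D x := by rw [hn]; ring
    have h4 : ‖(n : ℂ) * c‖ = n * ‖c‖ := by rw [norm_mul, Complex.norm_natCast]
    rw [← h4, h3]
    refine (norm_sub_le _ _).trans ?_
    linarith
  have hc0 : ‖c‖ = 0 := by
    by_contra hne
    have hpos : 0 < ‖c‖ := lt_of_le_of_ne (norm_nonneg _) (Ne.symm hne)
    obtain ⟨n, hn⟩ := exists_nat_gt (2 * M / ‖c‖)
    rw [div_lt_iff₀ hpos] at hn
    linarith [hb n]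
  rw [hc', norm_eq_zero.1 hc0, add_zero]

lemma exists_nearId {B : Matrix (Fin 2) (Fin 2) ℝ} (hB : B ∈ tang (veechZero ω))
    {𝒰 : Ultrafilter ℕ} {ε : ℕ → ℝ} (hε : Tendsto ε 𝒰 (𝓝 0)) :
    ∃ h : ℕ → Ladder ≃ₜ Ladder, NearId ω 𝒰 h (fun i => expGL (ε i • B)) ∧
      ∀ i, ZeroFlux ω (h i) := by
  have h1 : ∀ i, ∃ f : Ladder ≃ₜ Ladder, IsAffine ω f (expGL (ε i • B)) ∧ ZeroFlux ω f :=
    fun i => (mem_veechZero.1 (hB (ε i))).2
  choose f hf hf0 using h1
  have hlim : Tendsto (fun i => expGL (ε i • B)) 𝒰 (𝓝 1) := by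
    have h2 : Continuous fun s : ℝ => expGL (s • B) :=
      continuous_expGL.comp (continuous_id.smul continuous_const)
    have h3 := h2.tendsto 0
    rw [zero_smul, expGL_zero] at h3
    exact h3.comp hε
  obtain ⟨F, hF, hF0, hpt⟩ := zeroFlux_limit hf hlim hf0
  refine ⟨fun i => f i * F⁻¹, ⟨fun i => ?_, hlim, fun x => ?_⟩, fun i => (hf0 i).mul hF0.inv⟩
  · have := (hf i).mul hF.inv
    rwa [inv_one, mul_one] at this
  · have := hpt (F⁻¹ x)
    have e : F (F⁻¹ x) = x := F.apply_symm_apply x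
    rw [e] at this
    exact this

/-- the data of a diagonalised one-parameter group -/
structure Eig (B : Matrix (Fin 2) (Fin 2) ℝ) where
  P : GL (Fin 2) ℝ
  lam : ℝ
  mu : ℝ
  hlam : 0 < lam
  hmu : 0 < mu
  re : ∀ (t : ℝ) (z : ℂ),
    (act P (act (expGL (t • B)) z)).re = Real.exp (lam * t) * (act P z).re
  im : ∀ (t : ℝ) (z : ℂ),
    (act P (act (expGL (t • B)) z)).im = Real.exp (-(mu * t)) * (act P z).im

lemma act_injective (P : GL (Fin 2) ℝ) : Function.Injective (act P) := by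
  intro x y h
  rw [← act_inv_act P x, h, act_inv_act]

lemma Eig.fixed {B : Matrix (Fin 2) (Fin 2) ℝ} (E : Eig B) {t : ℝ} (ht : t ≠ 0) {z : ℂ}
    (h : act (expGL (t • B)) z = z) : z = 0 := by
  have h1 := E.re t z
  have h2 := E.im t z
  rw [h] at h1 h2
  have e1 : Real.exp (E.lam * t) ≠ 1 := by
    rw [Ne, Real.exp_eq_one_iff]
    exact mul_ne_zero E.hlam.ne' ht
  have e2 : Real.exp (-(E.mu * t)) ≠ 1 := by
    rw [Ne, Real.exp_eq_one_iff, neg_eq_zero]
    exact mul_ne_zero E.hmu.ne' ht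
  have h3 : (act E.P z).re = 0 := by
    by_contra hne
    apply e1
    have : Real.exp (E.lam * t) * (act E.P z).re = 1 * (act E.P z).re := by rw [one_mul]; exact h1.symm
    exact mul_right_cancel₀ hne this
  have h4 : (act E.P z).im = 0 := by
    by_contra hne
    apply e2
    have : Real.exp (-(E.mu * t)) * (act E.P z).im = 1 * (act E.P z).im := by
      rw [one_mul]; exact h2.symm
    exact mul_right_cancel₀ hne this
  apply act_injective E.P
  rw [act_zero]
  exact Complex.ext h3 h4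

/-- solve `p = A p + c` for the time one map -/
lemma Eig.exists_fixed {B : Matrix (Fin 2) (Fin 2) ℝ} (E : Eig B) (c : ℂ) :
    ∃ p : ℂ, act (expGL ((1 : ℝ) • B)) p + c = p := by
  have e1 : 1 - Real.exp (E.lam * 1) ≠ 0 := by
    rw [sub_ne_zero]
    intro h
    have := (Real.exp_eq_one_iff _).1 h.symm
    rw [mul_one] at this
    exact E.hlam.ne' this
  have e2 : 1 - Real.exp (-(E.mu * 1)) ≠ 0 := by
    rw [sub_ne_zero]
    intro h
    have := (Real.exp_eq_one_iff _).1 h.symm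
    rw [mul_one, neg_eq_zero] at this
    exact E.hmu.ne' this
  set q : ℂ := ⟨(act E.P c).re / (1 - Real.exp (E.lam * 1)),
    (act E.P c).im / (1 - Real.exp (-(E.mu * 1)))⟩ with hq
  refine ⟨act E.P⁻¹ q, ?_⟩
  apply act_injective E.P
  rw [act_add, act_act_inv]
  apply Complex.ext
  · rw [Complex.add_re, E.re, act_act_inv]
    simp only [hq]
    generalize Real.exp (E.lam * 1) = a at *
    field_simp
    ring
  · rw [Complex.add_im, E.im, act_act_inv]
    simp only [hq]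
    generalize Real.exp (-(E.mu * 1)) = a at *
    field_simp
    ring

/-- a developing map which conjugates all zero flux maps to their derivatives -/
theorem exists_hyp_dev {B : Matrix (Fin 2) (Fin 2) ℝ} (E : Eig B)
    (hB : B ∈ tang (veechZero ω)) : ∃ D : Ladder → ℂ, IsDev ω D ∧
      ∀ (t : ℝ) (f : Ladder ≃ₜ Ladder), IsAffine ω f (expGL (t • B)) → ZeroFlux ω f →
        ∀ x, D (f x) = act (expGL (t • B)) (D x) := by
  set 𝒰 : Ultrafilter ℕ := Filter.hyperfilter ℕ with h𝒰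
  have h𝒰le : (𝒰 : Filter ℕ) ≤ atTop := by
    rw [← Nat.cofinite_eq_atTop]
    exact Filter.hyperfilter_le_cofinite
  have hε : Tendsto (fun n : ℕ => 1 / ((n : ℝ) + 1)) 𝒰 (𝓝 0) :=
    tendsto_one_div_add_atTop_nhds_zero_nat.mono_left h𝒰le
  obtain ⟨h, hn, h0⟩ := exists_nearId hB hε
  have hinj : ∀ᶠ i : ℕ in (𝒰 : Filter ℕ), ∀ c : ℂ,
      act (expGL ((1 / ((i : ℝ) + 1)) • B)) c = c → c = 0 := by
    refine Eventually.of_forall fun i c hc => E.fixed ?_ hc
    positivity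
  have : Nonempty Ladder := ⟨pt 0⟩
  obtain ⟨D₀, hD₀⟩ := exists_dev hn hinj
  obtain ⟨f₁, hf₁, hf₁0⟩ : ∃ f : Ladder ≃ₜ Ladder, IsAffine ω f (expGL ((1 : ℝ) • B)) ∧
    ZeroFlux ω f := (mem_veechZero.1 (hB 1)).2
  obtain ⟨c₁, hc₁⟩ := hD₀.affine hf₁
  obtain ⟨p, hp⟩ := E.exists_fixed c₁
  have hD : IsDev ω (fun x => D₀ x - p) := hD₀.sub_const p
  refine ⟨fun x => D₀ x - p, hD, fun t f hf hf0 => ?_⟩
  have hD1 : ∀ x, D₀ (f₁ x) - p = act (expGL ((1 : ℝ) • B)) (D₀ x - p) := by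
    intro x
    rw [hc₁, act_sub]
    linear_combination hp
  obtain ⟨c, hc⟩ := hD.affine hf
  have hAA : expGL (t • B) * expGL ((1 : ℝ) • B) = expGL ((1 : ℝ) • B) * expGL (t • B) := by
    rw [← expGL_smul_add, ← expGL_smul_add, add_comm]
  have hτ : IsAffine ω ((f * f₁)⁻¹ * (f₁ * f)) 1 := by
    have h1 := (hf.mul hf₁).inv.mul (hf₁.mul hf)
    rwa [hAA, inv_mul_cancel] at h1
  have hτ0 : ZeroFlux ω ((f * f₁)⁻¹ * (f₁ * f)) := (hf0.mul hf₁0).inv.mul (hf₁0.mul hf0)
  have htr := hD.translation hτ hτ0 (pt 0)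
  set y := ((f * f₁)⁻¹ * (f₁ * f)) (pt 0) with hy
  have hy2 : f (f₁ y) = f₁ (f (pt 0)) := by
    have h1 : (f * f₁) y = (f₁ * f) (pt 0) := by
      rw [hy]
      change (f * f₁) ((f * f₁).symm ((f₁ * f) (pt 0))) = _
      exact Homeomorph.apply_symm_apply _ _
    exact h1
  have e1 := hc (f₁ y)
  have e2 := hD1 (f (pt 0))
  rw [hy2, hD1 y, htr, ← act_mul, hAA, act_mul] at e1
  rw [hc (pt 0), act_add] at e2
  rw [e2] at e1
  have hc0 : c = 0 := E.fixed one_ne_zero (by linear_combination e1)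
  intro x
  have h1 := hc x
  rw [hc0, add_zero] at h1
  exact h1

lemma expGL_pow (B : Matrix (Fin 2) (Fin 2) ℝ) (t : ℝ) (n : ℕ) :
    expGL (t • B) ^ n = expGL ((n * t) • B) := by
  induction n with
  | zero => rw [pow_zero, Nat.cast_zero, zero_mul, zero_smul, expGL_zero]
  | succ n ih =>
    rw [pow_succ', ih, ← expGL_smul_add]
    congr 2
    push_cast
    ring

lemma expGL_inv (B : Matrix (Fin 2) (Fin 2) ℝ) (t : ℝ) :
    (expGL (t • B))⁻¹ = expGL ((-t) • B) := by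
  rw [← expGL_neg, neg_smul]

lemma expGL_zpow (B : Matrix (Fin 2) (Fin 2) ℝ) (t : ℝ) (n : ℤ) :
    expGL (t • B) ^ n = expGL ((n * t) • B) := by
  cases n with
  | ofNat n =>
    simp only [Int.ofNat_eq_natCast, zpow_natCast, Int.cast_natCast]
    exact expGL_pow B t n
  | negSucc n =>
    rw [zpow_negSucc, expGL_pow, expGL_inv]
    congr 2
    push_cast
    ring

lemma norm_act_sub_le (A : GL (Fin 2) ℝ) (z : ℂ) :
    ‖act A z - z‖ ≤ (|A 0 0 - 1| + |A 0 1| + |A 1 0| + |A 1 1 - 1|) * ‖z‖ := by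
  have h1 := Complex.abs_re_le_norm z
  have h2 := Complex.abs_im_le_norm z
  have h3 : ‖act A z - z‖ ≤ |(act A z - z).re| + |(act A z - z).im| :=
    Complex.norm_le_abs_re_add_abs_im _
  have h4 : |(act A z - z).re| ≤ |A 0 0 - 1| * ‖z‖ + |A 0 1| * ‖z‖ := by
    have e : (act A z - z).re = (A 0 0 - 1) * z.re + A 0 1 * z.im := by
      simp only [act, Complex.sub_re]
      ring
    rw [e]
    refine (abs_add_le _ _).trans ?_
    rw [abs_mul, abs_mul]
    gcongr
  have h5 : |(act A z - z).im| ≤ |A 1 0| * ‖z‖ + |A 1 1 - 1| * ‖z‖ := by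
    have e : (act A z - z).im = A 1 0 * z.re + (A 1 1 - 1) * z.im := by
      simp only [act, Complex.sub_im]
      ring
    rw [e]
    refine (abs_add_le _ _).trans ?_
    rw [abs_mul, abs_mul]
    gcongr
  linarith

lemma exists_small (B : Matrix (Fin 2) (Fin 2) ℝ) {M ρ : ℝ} (hM : 0 ≤ M) (hρ : 0 < ρ) :
    ∃ δ > 0, ∀ s : ℝ, |s| ≤ δ → ∀ w : ℂ, ‖w‖ ≤ M → ‖act (expGL (s • B)) w - w‖ ≤ ρ := by
  have hc : Continuous fun s : ℝ => expGL (s • B) :=
    continuous_expGL.comp (continuous_id.smul continuous_const)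
  have he : Continuous fun s : ℝ => |expGL (s • B) 0 0 - 1| + |expGL (s • B) 0 1| +
      |expGL (s • B) 1 0| + |expGL (s • B) 1 1 - 1| :=
    ((((((continuous_entry 0 0).comp hc).sub continuous_const).abs).add
      (((continuous_entry 0 1).comp hc).abs)).add (((continuous_entry 1 0).comp hc).abs)).add
      ((((continuous_entry 1 1).comp hc).sub continuous_const).abs)
  have h0 := he.tendsto 0
  simp only [zero_smul, expGL_zero, Units.val_one, Matrix.one_apply_eq, sub_self, abs_zero,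
    zero_ne_one, one_ne_zero, ne_eq, not_false_eq_true, Matrix.one_apply_ne, add_zero] at h0
  have h1 : 0 < ρ / (M + 1) := by positivity
  have h2 := h0.eventually_lt_const h1
  obtain ⟨δ, hδ, hball⟩ := Metric.eventually_nhds_iff.1 h2
  refine ⟨δ / 2, by positivity, fun s hs w hw => ?_⟩
  have h3 := hball (y := s) (by rw [dist_zero_right, Real.norm_eq_abs]; linarith)
  refine (norm_act_sub_le _ _).trans ?_
  calc _ ≤ ρ / (M + 1) * M := by
        gcongr
    _ ≤ ρ / (M + 1) * (M + 1) := by gcongr; linarith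
    _ = ρ := by field_simp

/-- local control of the iterates -/
lemma local_control {𝒰 : Ultrafilter ℕ} {h : ℕ → Ladder ≃ₜ Ladder} {A : ℕ → GL (Fin 2) ℝ}
    (hn : NearId ω 𝒰 h A) {D : Ladder → ℂ} (hD : IsDev ω D)
    (hDh : ∀ i y, D (h i y) = act (A i) (D y)) {x : Ladder} (m : Model ω x) {ρ : ℝ}
    (hρ : 0 < ρ) (hρR : 28 * ρ ≤ m.R) : ∀ᶠ i in (𝒰 : Filter ℕ), ∀ j : ℕ,
      (∀ l ≤ j, ∀ w : ℂ, ‖w‖ ≤ ‖D x‖ + ρ → ‖act (A i ^ l) w - w‖ ≤ ρ) →
      ∀ y ∈ m.disc ρ, (h i ^ j) y ∈ m.disc (2 * ρ) := by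
  filter_upwards [hn.nrm_le, hn.pt x (m.disc_mem_nhds hρ)] with i hi1 hi2
  have hDj : ∀ (j : ℕ) (y : Ladder), D ((h i ^ j) y) = act (A i ^ j) (D y) := by
    intro j
    induction j with
    | zero => intro y; rw [pow_zero, pow_zero, act_one]; rfl
    | succ j ih =>
      intro y
      rw [pow_succ', pow_succ', act_mul, ← ih]
      exact hDh i _
  intro j
  induction j with
  | zero =>
    intro _ y hy
    rw [pow_zero]
    exact m.disc_mono (by linarith) hy
  | succ j ih =>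
    intro hl y hy
    have hz := ih (fun l hlj => hl l (hlj.trans (Nat.le_succ _))) y hy
    set z := (h i ^ j) y with hzdef
    have hseg := (m.seg_of_mem hz).map (hn.aff i)
    have h1 : ‖m.φ z ^ m.k‖ ≤ 2 * ρ := by rw [norm_pow]; exact hz.2.2
    have h2 : ‖act (A i) (m.φ z ^ m.k)‖ ≤ 3 * (2 * ρ) := norm_act_le' hi1 h1
    have h3 := (m.trap hi2 hseg (by linarith)).1
    have h4 : h i z ∈ m.disc (m.R / 4) := m.disc_mono (by linarith) h3
    have e1 := hD x m _ h4
    have e2 := hD x m y (m.disc_mono (by linarith) hy)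
    have e3 : D (h i z) = act (A i ^ (j + 1)) (D y) := by
      rw [hzdef, ← hDj (j + 1) y, pow_succ']
      rfl
    have h5 : ‖m.φ y ^ m.k‖ ≤ ρ := by rw [norm_pow]; exact hy.2.2
    have h6 : ‖D y‖ ≤ ‖D x‖ + ρ := by
      rw [e2]
      exact (norm_add_le _ _).trans (by linarith)
    have h7 := hl (j + 1) le_rfl (D y) h6
    have h8 : m.φ (h i z) ^ m.k = (act (A i ^ (j + 1)) (D y) - D y) + m.φ y ^ m.k := by
      rw [← e3]
      linear_combination e2 - e1
    have h9 : ‖m.φ (h i z)‖ ^ m.k ≤ 2 * ρ := by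
      rw [← norm_pow, h8]
      exact (norm_add_le _ _).trans (by linarith)
    have e4 : (h i ^ (j + 1)) y = h i z := by
      rw [pow_succ', hzdef]
      rfl
    rw [e4]
    exact ⟨h4.1, h4.2.1, h9⟩

lemma local_control_z {𝒰 : Ultrafilter ℕ} {h : ℕ → Ladder ≃ₜ Ladder}
    {B : Matrix (Fin 2) (Fin 2) ℝ} {ε : ℕ → ℝ} (hε : ∀ i, 0 < ε i)
    (hn : NearId ω 𝒰 h (fun i => expGL (ε i • B))) {D : Ladder → ℂ} (hD : IsDev ω D)
    (hDh : ∀ i y, D (h i y) = act (expGL (ε i • B)) (D y)) {x : Ladder} (m : Model ω x) {ρ : ℝ}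
    (hρ : 0 < ρ) (hρR : 28 * ρ ≤ m.R) : ∃ δ > 0, ∀ᶠ i in (𝒰 : Filter ℕ), ∀ n : ℤ,
      |n * ε i| ≤ δ → ∀ y ∈ m.disc ρ, (h i ^ n) y ∈ m.disc (2 * ρ) := by
  obtain ⟨δ, hδ, hsmall⟩ := exists_small B (M := ‖D x‖ + ρ) (by positivity) hρ
  have hDh' : ∀ i y, D ((h i).symm y) = act (expGL (ε i • B))⁻¹ (D y) := by
    intro i y
    have h1 := hDh i ((h i).symm y)
    rw [Homeomorph.apply_symm_apply] at h1
    rw [h1, act_inv_act]
  refine ⟨δ, hδ, ?_⟩
  filter_upwards [local_control hn hD hDh m hρ hρR, local_control hn.symm hD hDh' m hρ hρR]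
    with i hi1 hi2 n hnδ y hy
  have hbd : ∀ l j : ℕ, l ≤ j → |(j : ℝ) * ε i| ≤ δ → |(l : ℝ) * ε i| ≤ δ := by
    intro l j hlj hj
    refine le_trans ?_ hj
    rw [abs_mul, abs_mul, Nat.abs_cast, Nat.abs_cast]
    have : (l : ℝ) ≤ j := by exact_mod_cast hlj
    gcongr
  cases n with
  | ofNat j =>
    simp only [Int.ofNat_eq_natCast, zpow_natCast, Int.cast_natCast] at hnδ ⊢
    refine hi1 j (fun l hl w hw => ?_) y hy
    rw [expGL_pow]
    exact hsmall _ (hbd l j hl hnδ) w hw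
  | negSucc j =>
    rw [zpow_negSucc, ← inv_pow]
    have hnδ' : |((j + 1 : ℕ) : ℝ) * ε i| ≤ δ := by
      have e : ((Int.negSucc j : ℤ) : ℝ) = -((j + 1 : ℕ) : ℝ) := by
        push_cast
        ring
      rw [e, neg_mul, abs_neg] at hnδ
      exact hnδ
    refine hi2 (j + 1) (fun l hl w hw => ?_) y hy
    rw [expGL_inv, expGL_pow]
    refine hsmall _ ?_ w hw
    rw [mul_neg, abs_neg]
    exact hbd l (j + 1) hl hnδ'

end LadderVeech
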