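import Pool.Agent.LadderVeech.Surface

open Set Filter Topology

namespace LadderVeech

/-- a step function of slope `2` -/
noncomputable def clampf (x : ℝ) : ℝ := max 0 (min 1 (2 * x + 1 / 2))

lemma continuous_clampf : Continuous clampf := by unfold clampf; fun_prop

lemma clampf_of_le {x : ℝ} (h : x ≤ -(1 / 4)) : clampf x = 0 := by
  unfold clampf
  apply max_eq_left
  exact (min_le_right _ _).trans (by linarith)

lemma clampf_of_ge {x : ℝ} (h : 1 / 4 ≤ x) : clampf x = 1 := by
  unfold clampf
  rw [min_eq_left (by linarith)]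
  norm_num

lemma exp_clampf_of_abs {x : ℝ} (h : 1 / 4 ≤ |x|) :
    Circle.exp (2 * Real.pi * clampf x) = 1 := by
  rcases le_abs.1 h with h1 | h1
  · rw [clampf_of_ge h1, mul_one, Circle.exp_two_pi]
  · rw [clampf_of_le (by linarith), mul_zero, Circle.exp_zero]

lemma abs_ge_of_yc_eq_zero {p : Ladder} (h : yc p = 0) : 1 / 4 ≤ |xc p| := by
  obtain ⟨⟨x, y, z⟩, hp⟩ := p
  simp only [yc] at h
  simp only [xc]
  subst h
  obtain ⟨-, hg⟩ := ladder_bounds hp
  by_contra hcon
  push Not at hcon
  have hpi := Real.pi_pos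
  have h1 : 0 < Real.cos (2 * (Real.pi * x)) := by
    rw [← Real.cos_abs]
    apply Real.cos_pos_of_mem_Ioo
    rw [abs_mul, abs_mul, abs_of_pos hpi, abs_of_pos (by norm_num : (0:ℝ) < 2)]
    constructor
    · have : 0 ≤ 2 * (Real.pi * |x|) := by positivity
      linarith
    · nlinarith
  rw [Real.cos_two_mul] at h1
  have h2 := Real.sin_sq_add_cos_sq (Real.pi * x)
  nlinarith

/-- a circle valued map supported in the handle around the hole at the origin -/
noncomputable def hu : C(Ladder, Circle) where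
  toFun p := if 0 ≤ yc p then Circle.exp (2 * Real.pi * clampf (xc p)) else 1
  continuous_toFun := by
    refine Continuous.if_le ?_ continuous_const continuous_const continuous_yc ?_
    · exact Circle.exp.continuous.comp
        (continuous_const.mul (continuous_clampf.comp continuous_xc))
    · intro p hp
      exact exp_clampf_of_abs (abs_ge_of_yc_eq_zero hp.symm)

lemma hu_eq_one {p : Ladder} (h : xc p ≤ -(1 / 4)) : hu p = 1 := by
  simp only [hu, ContinuousMap.coe_mk, clampf_of_le h, mul_zero, Circle.exp_zero, ite_self]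

lemma loop_radicand (θ : ℝ) : 0 ≤ (4 - (3 / 2 * Real.sin θ) ^ 2) *
    ((3 / 2 * Real.sin θ) ^ 2 + Real.sin (Real.pi * (Real.cos θ / 2)) ^ 2 - 1 / 2) := by
  have h1 := Real.sin_sq_add_cos_sq θ
  have hs := sq_nonneg (Real.sin θ)
  have hs1 := Real.sin_sq_le_one θ
  have hpi := Real.pi_pos
  refine mul_nonneg (by nlinarith) ?_
  have hs2 := sq_nonneg (Real.sin (Real.pi * (Real.cos θ / 2)))
  by_cases h4 : 1 / 4 ≤ Real.sin θ ^ 2
  · nlinarith
  · push Not at h4
    have hc : 3 / 4 < Real.cos θ ^ 2 := by linarith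
    have hc1 : |Real.cos θ| ≤ 1 := Real.abs_cos_le_one θ
    have hc2 : 1 / 2 ≤ |Real.cos θ| := by
      rw [← sq_abs] at hc
      nlinarith [abs_nonneg (Real.cos θ)]
    have h5 : Real.cos (Real.pi * Real.cos θ) ≤ 0 := by
      rw [← Real.cos_abs, abs_mul, abs_of_pos hpi]
      apply Real.cos_nonpos_of_pi_div_two_le_of_le
      · nlinarith
      · nlinarith
    have h6 : Real.cos (Real.pi * Real.cos θ) =
        1 - 2 * Real.sin (Real.pi * (Real.cos θ / 2)) ^ 2 := by
      have h7 := Real.cos_two_mul (Real.pi * (Real.cos θ / 2))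
      have h8 := Real.sin_sq_add_cos_sq (Real.pi * (Real.cos θ / 2))
      have h9 : Real.pi * Real.cos θ = 2 * (Real.pi * (Real.cos θ / 2)) := by ring
      rw [h9, h7]
      linarith
    nlinarith

/-- a loop around the hole at the origin -/
noncomputable def loop (θ : ℝ) : Ladder :=
  ⟨(Real.cos θ / 2, 3 / 2 * Real.sin θ, Real.sqrt ((4 - (3 / 2 * Real.sin θ) ^ 2) *
    ((3 / 2 * Real.sin θ) ^ 2 + Real.sin (Real.pi * (Real.cos θ / 2)) ^ 2 - 1 / 2))),
    Real.sq_sqrt (loop_radicand θ)⟩

lemma continuous_loop : Continuous loop := by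
  unfold loop
  exact Continuous.subtype_mk (by fun_prop) _

lemma xc_loop (θ : ℝ) : xc (loop θ) = Real.cos θ / 2 := rfl

lemma yc_loop (θ : ℝ) : yc (loop θ) = 3 / 2 * Real.sin θ := rfl

lemma loop_two_pi : loop (2 * Real.pi) = loop 0 := by
  apply Subtype.ext
  simp [loop]

/-- the compact piece of the ladder around the hole at the origin -/
def K₀ : Set Ladder := {p | -(1 / 2) ≤ xc p ∧ xc p ≤ 1 / 2}

lemma loop_mem (θ : ℝ) : loop θ ∈ K₀ := by
  have h1 := Real.cos_le_one θ
  have h2 := Real.neg_one_le_cos θ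
  simp only [K₀, mem_ofPred_eq, xc_loop]
  constructor <;> linarith

/-- `hu` has no continuous square root on the compact piece `K₀`. -/
lemma not_isSq_hu : ¬ IsSq hu K₀ := by
  rintro ⟨v, hv, hvu⟩
  have hpi := Real.pi_pos
  have hw : Continuous fun θ => v (loop θ) := by
    have := hv.comp_continuous continuous_loop loop_mem
    exact this
  have h1 : ∀ θ ∈ Icc 0 Real.pi, v (loop θ) ^ 2 =
      (Circle.exp (Real.pi * clampf (Real.cos θ / 2))) ^ 2 := by
    intro θ hθ
    rw [hvu _ (loop_mem θ)]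
    have hs : 0 ≤ Real.sin θ := Real.sin_nonneg_of_nonneg_of_le_pi hθ.1 hθ.2
    have : 0 ≤ yc (loop θ) := by rw [yc_loop]; positivity
    simp only [hu, ContinuousMap.coe_mk, this, if_true, xc_loop]
    rw [pow_two, ← Circle.exp_add]
    congr 1
    ring
  have h2 : ∀ θ ∈ Icc Real.pi (2 * Real.pi), v (loop θ) ^ 2 = (1 : Circle) ^ 2 := by
    intro θ hθ
    rw [hvu _ (loop_mem θ), one_pow]
    have hs : Real.sin θ ≤ 0 := by
      have h3 : Real.sin (θ - Real.pi) = - Real.sin θ := Real.sin_sub_pi θ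
      have h4 : 0 ≤ Real.sin (θ - Real.pi) :=
        Real.sin_nonneg_of_nonneg_of_le_pi (by linarith [hθ.1]) (by linarith [hθ.2])
      linarith
    simp only [hu, ContinuousMap.coe_mk]
    split_ifs with h5
    · rw [yc_loop] at h5
      have h6 : Real.sin θ = 0 := by linarith
      have h7 : |Real.cos θ| = 1 := by
        have h8 := Real.sin_sq_add_cos_sq θ
        rw [h6] at h8
        have h9 : |Real.cos θ| ^ 2 = 1 := by rw [sq_abs]; linarith
        nlinarith [abs_nonneg (Real.cos θ)]
      apply exp_clampf_of_abs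
      rw [xc_loop, abs_div, h7]
      norm_num
    · rfl
  obtain ⟨c, hc, hcv⟩ := sign_const isPreconnected_Icc hw.continuousOn
    (Continuous.continuousOn (by
      exact Circle.exp.continuous.comp (continuous_const.mul
        (continuous_clampf.comp (Real.continuous_cos.div_const 2))))) h1
  obtain ⟨d, hd, hdv⟩ := sign_const isPreconnected_Icc hw.continuousOn continuousOn_const h2
  have e1 := hcv 0 ⟨le_rfl, hpi.le⟩
  have e2 := hcv Real.pi ⟨hpi.le, le_rfl⟩
  have e3 := hdv Real.pi ⟨le_rfl, by linarith⟩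
  have e4 := hdv (2 * Real.pi) ⟨by linarith, le_rfl⟩
  rw [loop_two_pi] at e4
  rw [Real.cos_zero, clampf_of_ge (by norm_num), mul_one] at e1
  rw [Real.cos_pi, clampf_of_le (by norm_num), mul_zero, Circle.exp_zero, mul_one] at e2
  rw [mul_one] at e3 e4
  have e5 : c = d := by rw [← e2, ← e3]
  have e6 : Circle.exp Real.pi = -1 := by
    apply Circle.coe_injective
    rw [Circle.coe_exp, Circle.coe_neg, Circle.coe_one, Complex.exp_pi_mul_I]
  rw [e4, e5, e6] at e1
  have e7 : (1 : Circle) = -1 := by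
    have := congrArg (fun x => d⁻¹ * x) e1
    simpa using this
  exact one_ne_neg_one_circle e7

end LadderVeech
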