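import Pool.Agent.LadderVeech.Finite
import Pool.Agent.LadderVeech.Handle
import Pool.Agent.LadderVeech.Ends

open Set Filter Topology

namespace LadderVeech

section Algebra

variable {𝒰 : Type*} [CommGroup 𝒰]

/-- cocycle identity for relative indices of commensurable subgroups -/
lemma relIndex_cocycle (V W Z : Subgroup 𝒰) (h1 : W.relIndex V ≠ 0) (h2 : V.relIndex W ≠ 0)
    (h3 : Z.relIndex W ≠ 0) (h6 : Z.relIndex V ≠ 0) :
    W.relIndex V * Z.relIndex W * V.relIndex Z =
      V.relIndex W * W.relIndex Z * Z.relIndex V := by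
  have eV1 : Z.relIndex (W ⊓ V) * W.relIndex V = (Z ⊓ W).relIndex V :=
    Subgroup.relIndex_inf_mul_relIndex _ _ _
  have eV2 : W.relIndex (Z ⊓ V) * Z.relIndex V = (W ⊓ Z).relIndex V :=
    Subgroup.relIndex_inf_mul_relIndex _ _ _
  have eW1 : Z.relIndex (V ⊓ W) * V.relIndex W = (Z ⊓ V).relIndex W :=
    Subgroup.relIndex_inf_mul_relIndex _ _ _
  have eW2 : V.relIndex (Z ⊓ W) * Z.relIndex W = (V ⊓ Z).relIndex W :=
    Subgroup.relIndex_inf_mul_relIndex _ _ _
  have eZ1 : V.relIndex (W ⊓ Z) * W.relIndex Z = (V ⊓ W).relIndex Z :=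
    Subgroup.relIndex_inf_mul_relIndex _ _ _
  have eZ2 : W.relIndex (V ⊓ Z) * V.relIndex Z = (W ⊓ V).relIndex Z :=
    Subgroup.relIndex_inf_mul_relIndex _ _ _
  have m1 : (W ⊓ Z).relIndex V ≠ 0 := Subgroup.relIndex_inf_ne_zero h1 h6
  have m2 : (V ⊓ Z).relIndex W ≠ 0 := Subgroup.relIndex_inf_ne_zero h2 h3
  have n2 : W.relIndex (Z ⊓ V) ≠ 0 := by
    intro h
    rw [h, zero_mul] at eV2
    exact m1 eV2.symm
  have n3 : V.relIndex (Z ⊓ W) ≠ 0 := by
    intro h
    rw [h, zero_mul] at eW2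
    exact m2 eW2.symm
  rw [inf_comm Z W, ← eV2, inf_comm W V, inf_comm Z V] at eV1
  rw [inf_comm Z V, ← eW2, inf_comm Z W] at eW1
  rw [inf_comm V W, ← eZ2] at eZ1
  rw [inf_comm Z V] at n2
  rw [inf_comm Z W] at n3
  have n1 : Z.relIndex (V ⊓ W) ≠ 0 := by
    intro h
    rw [h, zero_mul] at eV1
    rcases mul_eq_zero.1 eV1.symm with h' | h'
    · exact n2 h'
    · exact h6 h'
  apply Nat.eq_of_mul_eq_mul_left (Nat.pos_of_ne_zero (mul_ne_zero (mul_ne_zero n1 n2) n3))
  calc Z.relIndex (V ⊓ W) * W.relIndex (V ⊓ Z) * V.relIndex (W ⊓ Z) *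
        (W.relIndex V * Z.relIndex W * V.relIndex Z)
      = (Z.relIndex (V ⊓ W) * W.relIndex V) * (V.relIndex (W ⊓ Z) * Z.relIndex W) *
        (W.relIndex (V ⊓ Z) * V.relIndex Z) := by ring
    _ = (W.relIndex (V ⊓ Z) * Z.relIndex V) * (Z.relIndex (V ⊓ W) * V.relIndex W) *
        (V.relIndex (W ⊓ Z) * W.relIndex Z) := by rw [eV1, ← eW1, ← eZ1]
    _ = _ := by ring

end Algebra

section Pull

variable {X : Type*} [TopologicalSpace X]

/-- the action of a homeomorphism on circle valued maps -/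
noncomputable def pull (f : X ≃ₜ X) : C(X, Circle) →* C(X, Circle) where
  toFun u := ⟨fun p => u (f.symm p), u.continuous.comp f.symm.continuous⟩
  map_one' := by ext; rfl
  map_mul' u v := by ext; rfl

lemma pull_apply (f : X ≃ₜ X) (u : C(X, Circle)) (p : X) : pull f u p = u (f.symm p) := rfl

lemma pull_injective (f : X ≃ₜ X) : Function.Injective (pull f) := by
  intro u v h
  ext p
  have h1 := congrArg (fun w : C(X, Circle) => w (f p)) h
  simp only [pull_apply, Homeomorph.symm_apply_apply] at h1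
  rw [h1]

lemma isSq_comp {f : X ≃ₜ X} {u : X → Circle} {A : Set X} (h : IsSq u A) :
    IsSq (fun p => u (f.symm p)) (f '' A) := by
  obtain ⟨v, hv, hvu⟩ := h
  refine ⟨fun p => v (f.symm p), hv.comp f.symm.continuous.continuousOn ?_, ?_⟩
  · rintro _ ⟨p, hp, rfl⟩
    simpa using hp
  · rintro _ ⟨p, hp, rfl⟩
    simpa using hvu p hp

lemma sqSub_image (f : X ≃ₜ X) (A : Set X) : sqSub (f '' A) = (sqSub A).map (pull f) := by
  ext u
  rw [Subgroup.mem_map]
  constructor
  · intro hu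
    refine ⟨⟨fun p => u (f p), u.continuous.comp f.continuous⟩, ?_, ?_⟩
    · have h1 := isSq_comp (f := f.symm) hu
      have h2 : f.symm '' (f '' A) = A := by
        rw [← image_comp]
        simp
      rw [h2] at h1
      exact h1
    · ext p
      simp [pull_apply]
  · rintro ⟨v, hv, rfl⟩
    exact isSq_comp hv

lemma relIndex_sqSub_image (f : X ≃ₜ X) (A B : Set X) :
    (sqSub (f '' A)).relIndex (sqSub (f '' B)) = (sqSub A).relIndex (sqSub B) := by
  rw [sqSub_image, sqSub_image, Subgroup.relIndex_map_map_of_injective _ _ (pull_injective f)]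

end Pull

/-- left half of the ladder -/
def Lh : Set Ladder := {p | xc p ≤ -(1 / 2)}

lemma isClosed_le' (R : ℝ) : IsClosed {p : Ladder | xc p ≤ R} :=
  isClosed_le continuous_xc continuous_const

lemma relIndex_sqSub_le (hloc : ∀ p : Ladder, ∃ e : OpenPartialHomeomorph Ladder ℂ, p ∈ e.source)
    (n : ℤ) (b : ℝ) (h : (n:ℝ) + 1 / 2 ≤ b) :
    (sqSub {p : Ladder | xc p ≤ b}).relIndex (sqSub {p : Ladder | xc p ≤ (n:ℝ) + 1 / 2}) ≠ 0 := by
  have h1 : {p : Ladder | xc p ≤ b} = {p : Ladder | xc p ≤ (n:ℝ) + 1 / 2} ∪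
      {p : Ladder | (n:ℝ) + 1 / 2 ≤ xc p ∧ xc p ≤ b} := by
    ext p
    simp only [mem_ofPred_eq, mem_union]
    constructor
    · intro hp
      rcases le_total (xc p) ((n:ℝ) + 1 / 2) with h2 | h2
      · exact Or.inl h2
      · exact Or.inr ⟨h2, hp⟩
    · rintro (hp | hp)
      · exact hp.trans h
      · exact hp.2
  rw [h1]
  refine relIndex_sqSub_ne_zero hloc (isClosed_le' _) (isCompact_slab _ _) ?_
  have h2 : {p : Ladder | xc p ≤ (n:ℝ) + 1 / 2} ∩ {p : Ladder | (n:ℝ) + 1 / 2 ≤ xc p ∧ xc p ≤ b} =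
      xc ⁻¹' {(n:ℝ) + 1 / 2} := by
    ext p
    simp only [mem_inter_iff, mem_ofPred_eq, mem_preimage, mem_singleton_iff]
    constructor
    · rintro ⟨h3, h4, -⟩
      exact le_antisymm h3 h4
    · intro h3
      rw [h3]
      exact ⟨le_rfl, le_rfl, h⟩
  rw [h2]
  exact isPreconnected_slab isPreconnected_singleton n (mem_singleton _)

/-- half ladders fixed up to compact sets give commensurable subgroups -/
lemma relIndex_image_ne_zero
    (hloc : ∀ p : Ladder, ∃ e : OpenPartialHomeomorph Ladder ℂ, p ∈ e.source)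
    {f : Ladder ≃ₜ Ladder} (hf : f ∈ endFix) :
    (sqSub (f '' Lh)).relIndex (sqSub Lh) ≠ 0 ∧ (sqSub Lh).relIndex (sqSub (f '' Lh)) ≠ 0 := by
  have hfi : f⁻¹ ∈ endFix := endFix.inv_mem hf
  -- upper bound for `f '' Lh`
  obtain ⟨R, hR⟩ := hf 0
  obtain ⟨b, hb⟩ := ((isCompact_slab R (-(1/2))).image
      (continuous_xc.comp f.continuous)).bddAbove
  have hub : ∀ p ∈ Lh, xc (f p) ≤ max b 0 := by
    intro p hp
    rcases le_total (xc p) R with h2 | h2
    · exact (hR p h2).trans (le_max_right _ _)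
    · exact (hb ⟨p, ⟨h2, hp⟩, rfl⟩).trans (le_max_left _ _)
  -- lower bound
  obtain ⟨R', hR'⟩ := hfi (-(1 / 2))
  obtain ⟨n, hn⟩ := exists_half_le (min R' (-(1 / 2)))
  have hn1 : (n:ℝ) + 1 / 2 ≤ R' := hn.trans (min_le_left _ _)
  have hn2 : (n:ℝ) + 1 / 2 ≤ -(1 / 2) := hn.trans (min_le_right _ _)
  have hsmall1 : {p : Ladder | xc p ≤ (n:ℝ) + 1 / 2} ⊆ f '' Lh := by
    intro p hp
    refine ⟨f⁻¹ p, hR' p (le_trans hp hn1), f.apply_symm_apply p⟩
  have hsmall2 : {p : Ladder | xc p ≤ (n:ℝ) + 1 / 2} ⊆ Lh := fun p hp => le_trans hp hn2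
  have hbig1 : f '' Lh ⊆ {p : Ladder | xc p ≤ max b 0} := by
    rintro _ ⟨p, hp, rfl⟩
    exact hub p hp
  have hbig2 : Lh ⊆ {p : Ladder | xc p ≤ max b 0} := by
    intro p hp
    have h1 : xc p ≤ -(1 / 2) := hp
    have h2 : (0:ℝ) ≤ max b 0 := le_max_right _ _
    simp only [mem_ofPred_eq]
    linarith
  have hfin := relIndex_sqSub_le hloc n (max b 0) (by
    have : (0:ℝ) ≤ max b 0 := le_max_right _ _
    linarith)
  have key : ∀ V W : Subgroup C(Ladder, Circle),
      sqSub {p : Ladder | xc p ≤ max b 0} ≤ V → W ≤ sqSub {p : Ladder | xc p ≤ (n:ℝ) + 1 / 2} →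
      V.relIndex W ≠ 0 := by
    intro V W hV hW h0
    apply hfin
    have h1 : (sqSub {p : Ladder | xc p ≤ max b 0}).relIndex W = 0 :=
      Subgroup.relIndex_eq_zero_of_le_left hV h0
    exact Subgroup.relIndex_eq_zero_of_le_right hW h1
  exact ⟨key _ _ (sqSub_anti hbig1) (sqSub_anti hsmall2),
    key _ _ (sqSub_anti hbig2) (sqSub_anti hsmall1)⟩

/-- exponent of the relative index of `V` and `f V` -/
noncomputable def ea (f : Ladder ≃ₜ Ladder) : ℕ :=
  Nat.log 2 ((sqSub (f '' Lh)).relIndex (sqSub Lh))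

/-- exponent of the relative index of `f V` and `V` -/
noncomputable def eb (f : Ladder ≃ₜ Ladder) : ℕ :=
  Nat.log 2 ((sqSub Lh).relIndex (sqSub (f '' Lh)))

lemma pow_ea (hloc : ∀ p : Ladder, ∃ e : OpenPartialHomeomorph Ladder ℂ, p ∈ e.source)
    {f : Ladder ≃ₜ Ladder} (hf : f ∈ endFix) :
    (sqSub (f '' Lh)).relIndex (sqSub Lh) = 2 ^ ea f := by
  obtain ⟨k, hk⟩ := relIndex_two_pow (sqSub Lh) (sqSub (f '' Lh)) (sq_mem_sqSub _)
    (relIndex_image_ne_zero hloc hf).1
  rw [ea, hk, Nat.log_pow (by norm_num)]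

lemma pow_eb (hloc : ∀ p : Ladder, ∃ e : OpenPartialHomeomorph Ladder ℂ, p ∈ e.source)
    {f : Ladder ≃ₜ Ladder} (hf : f ∈ endFix) :
    (sqSub Lh).relIndex (sqSub (f '' Lh)) = 2 ^ eb f := by
  obtain ⟨k, hk⟩ := relIndex_two_pow (sqSub (f '' Lh)) (sqSub Lh) (sq_mem_sqSub _)
    (relIndex_image_ne_zero hloc hf).2
  rw [eb, hk, Nat.log_pow (by norm_num)]

lemma flux_mul (hloc : ∀ p : Ladder, ∃ e : OpenPartialHomeomorph Ladder ℂ, p ∈ e.source)
    {f g : Ladder ≃ₜ Ladder} (hf : f ∈ endFix) (hg : g ∈ endFix) :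
    ea f + ea g + eb (f * g) = eb f + eb g + ea (f * g) := by
  have hfg : f * g ∈ endFix := endFix.mul_mem hf hg
  have himg : ((f * g : Ladder ≃ₜ Ladder) '' Lh) = f '' (g '' Lh) := by
    rw [← image_comp]; rfl
  have e1 : (sqSub ((f * g : Ladder ≃ₜ Ladder) '' Lh)).relIndex (sqSub (f '' Lh)) = 2 ^ ea g := by
    rw [himg, relIndex_sqSub_image, pow_ea hloc hg]
  have e2 : (sqSub (f '' Lh)).relIndex (sqSub ((f * g : Ladder ≃ₜ Ladder) '' Lh)) = 2 ^ eb g := by
    rw [himg, relIndex_sqSub_image, pow_eb hloc hg]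
  have h := relIndex_cocycle (sqSub Lh) (sqSub (f '' Lh))
    (sqSub ((f * g : Ladder ≃ₜ Ladder) '' Lh)) (relIndex_image_ne_zero hloc hf).1
    (relIndex_image_ne_zero hloc hf).2 (by rw [e1]; positivity)
    (relIndex_image_ne_zero hloc hfg).1
  rw [e1, e2, pow_ea hloc hf, pow_eb hloc hf, pow_ea hloc hfg, pow_eb hloc hfg, ← pow_add,
    ← pow_add, ← pow_add, ← pow_add] at h
  exact Nat.pow_right_injective le_rfl h

/-- The flux homomorphism on the group of homeomorphisms fixing the two ends. -/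
noncomputable def flux
    (hloc : ∀ p : Ladder, ∃ e : OpenPartialHomeomorph Ladder ℂ, p ∈ e.source) :
    endFix →* Multiplicative ℤ where
  toFun f := Multiplicative.ofAdd ((ea f.1 : ℤ) - eb f.1)
  map_one' := by
    have h := flux_mul hloc endFix.one_mem endFix.one_mem
    rw [mul_one] at h
    have h2 : (ea (1 : Ladder ≃ₜ Ladder) : ℤ) - eb (1 : Ladder ≃ₜ Ladder) = 0 := by omega
    rw [Subgroup.coe_one, h2]
    rfl
  map_mul' f g := by
    have h := flux_mul hloc f.2 g.2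
    rw [← ofAdd_add]
    congr 1
    rw [Subgroup.coe_mul]
    omega

lemma flux_eq_one_iff
    (hloc : ∀ p : Ladder, ∃ e : OpenPartialHomeomorph Ladder ℂ, p ∈ e.source) (f : endFix) :
    flux hloc f = 1 ↔ ea f.1 = eb f.1 := by
  change Multiplicative.ofAdd ((ea f.1 : ℤ) - eb f.1) = 1 ↔ _
  rw [ofAdd_eq_one]
  omega

lemma sqSub_lt : ¬ (sqSub Lh ≤ sqSub {p : Ladder | xc p ≤ 1 / 2}) := by
  intro h
  have h1 : hu ∈ sqSub Lh := by
    refine ⟨fun _ => 1, continuousOn_const, fun p hp => ?_⟩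
    have hp' : xc p ≤ -(1 / 2) := hp
    rw [hu_eq_one (by linarith), one_pow]
  have h2 := h h1
  exact not_isSq_hu (IsSq.mono h2 (fun p hp => hp.2))

lemma flux_ne_one_of_right
    (hloc : ∀ p : Ladder, ∃ e : OpenPartialHomeomorph Ladder ℂ, p ∈ e.source) (f : endFix)
    (h : ∀ p ∈ K₀, 1 / 2 < xc (f.1 p)) : flux hloc f ≠ 1 := by
  intro h1
  rw [flux_eq_one_iff] at h1
  have hfi : f.1⁻¹ ∈ endFix := endFix.inv_mem f.2
  -- the preimage of the half ladder `x ≤ 1/2` lies on the left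
  have hpre : IsPreconnected ((f.1⁻¹ : Ladder ≃ₜ Ladder) '' {p : Ladder | xc p ≤ 1 / 2}) :=
    (isPreconnected_le _).image _ (f.1⁻¹).continuous.continuousOn
  have hsub := hpre.subset_or_subset (u := {p | xc p < -(1 / 2)}) (v := {p | 1 / 2 < xc p})
    (isOpen_lt continuous_xc continuous_const) (isOpen_lt continuous_const continuous_xc)
    (by
      rw [Set.disjoint_left]
      intro p hp hp'
      simp only [mem_ofPred_eq] at hp hp'
      linarith)
    (by
      rintro _ ⟨p, hp, rfl⟩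
      by_contra hcon
      simp only [mem_union, mem_ofPred_eq, not_or, not_lt] at hcon hp
      have h2 := h _ hcon
      have h3 : f.1 (f.1⁻¹ p) = p := f.1.apply_symm_apply p
      rw [h3] at h2
      linarith)
  have hleft : (f.1⁻¹ : Ladder ≃ₜ Ladder) '' {p : Ladder | xc p ≤ 1 / 2} ⊆ {p | xc p < -(1 / 2)} := by
    rcases hsub with h2 | h2
    · exact h2
    · exfalso
      obtain ⟨R, hR⟩ := hfi 0
      have h3 := h2 ⟨pt (min R 0), by
        simp only [mem_ofPred_eq, xc_pt]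
        exact (min_le_right _ _).trans (by norm_num), rfl⟩
      have h4 := hR (pt (min R 0)) (by simp)
      simp only [mem_ofPred_eq] at h3
      linarith
  have hsub2 : {p : Ladder | xc p ≤ 1 / 2} ⊆ f.1 '' Lh := by
    intro p hp
    have h2 := hleft ⟨p, hp, rfl⟩
    simp only [mem_ofPred_eq] at h2
    exact ⟨f.1⁻¹ p, h2.le, f.1.apply_symm_apply p⟩
  have hVle : sqSub (f.1 '' Lh) ≤ sqSub {p : Ladder | xc p ≤ 1 / 2} := sqSub_anti hsub2
  have hVle2 : sqSub (f.1 '' Lh) ≤ sqSub Lh := by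
    refine hVle.trans (sqSub_anti ?_)
    intro p hp
    have : xc p ≤ -(1 / 2) := hp
    simp only [mem_ofPred_eq]
    linarith
  have hb1 : (sqSub Lh).relIndex (sqSub (f.1 '' Lh)) = 1 := Subgroup.relIndex_eq_one.2 hVle2
  rw [pow_eb hloc f.2, ← h1, ← pow_ea hloc f.2] at hb1
  have := Subgroup.relIndex_eq_one.1 hb1
  exact sqSub_lt (this.trans hVle)

/-- A homeomorphism of the ladder of zero flux cannot move `K₀` off itself. -/
lemma flux_kernel
    (hloc : ∀ p : Ladder, ∃ e : OpenPartialHomeomorph Ladder ℂ, p ∈ e.source) (f : endFix)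
    (hf : flux hloc f = 1) : (f.1 '' K₀ ∩ K₀).Nonempty := by
  by_contra hcon
  rw [Set.not_nonempty_iff_eq_empty] at hcon
  have hout : ∀ p ∈ K₀, f.1 p ∉ K₀ := by
    intro p hp hp2
    have : f.1 p ∈ f.1 '' K₀ ∩ K₀ := ⟨⟨p, hp, rfl⟩, hp2⟩
    rw [hcon] at this
    exact this
  have hK : IsPreconnected K₀ :=
    isPreconnected_slab (I := Icc (-(1 / 2)) (1 / 2)) isPreconnected_Icc 0
      (by norm_num)
  have hsub := (hK.image _ f.1.continuous.continuousOn).subset_or_subset
    (u := {p | xc p < -(1 / 2)}) (v := {p | 1 / 2 < xc p})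
    (isOpen_lt continuous_xc continuous_const) (isOpen_lt continuous_const continuous_xc)
    (by
      rw [Set.disjoint_left]
      intro p hp hp'
      simp only [mem_ofPred_eq] at hp hp'
      linarith)
    (by
      rintro _ ⟨p, hp, rfl⟩
      have h2 := hout p hp
      simp only [K₀, mem_ofPred_eq, not_and_or, not_le] at h2
      exact h2)
  rcases hsub with hL | hR
  · -- `f K₀` is on the left: use the inverse
    have hfi : flux hloc f⁻¹ = 1 := by rw [map_inv, hf, inv_one]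
    refine flux_ne_one_of_right hloc f⁻¹ ?_ hfi
    have hpre : IsPreconnected ((f.1⁻¹ : Ladder ≃ₜ Ladder) '' {p : Ladder | -(1 / 2) ≤ xc p}) :=
      (isPreconnected_ge _).image _ (f.1⁻¹).continuous.continuousOn
    have hsub2 := hpre.subset_or_subset (u := {p | xc p < -(1 / 2)}) (v := {p | 1 / 2 < xc p})
      (isOpen_lt continuous_xc continuous_const) (isOpen_lt continuous_const continuous_xc)
      (by
        rw [Set.disjoint_left]
        intro p hp hp'
        simp only [mem_ofPred_eq] at hp hp'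
        linarith)
      (by
        rintro _ ⟨p, hp, rfl⟩
        by_contra hcon
        simp only [mem_union, mem_ofPred_eq, not_or, not_lt] at hcon hp
        have h2 := hL ⟨f.1⁻¹ p, hcon, rfl⟩
        have h3 : f.1 (f.1⁻¹ p) = p := f.1.apply_symm_apply p
        rw [h3] at h2
        simp only [mem_ofPred_eq] at h2
        linarith)
    have hright : (f.1⁻¹ : Ladder ≃ₜ Ladder) '' {p : Ladder | -(1 / 2) ≤ xc p} ⊆ {p | 1 / 2 < xc p} := by
      rcases hsub2 with h2 | h2
      · exfalso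
        obtain ⟨R, hR⟩ := rr_of_ll (endFix.inv_mem f.2) 0
        have h3 := h2 ⟨pt (max R 0), by
          simp only [mem_ofPred_eq, xc_pt]
          exact le_trans (by norm_num) (le_max_right _ _), rfl⟩
        have h4 := hR (pt (max R 0)) (by simp)
        simp only [mem_ofPred_eq] at h3
        linarith
      · exact h2
    intro p hp
    exact hright ⟨p, hp.1, rfl⟩
  · exact flux_ne_one_of_right hloc f (fun p hp => hR ⟨p, hp, rfl⟩) hf

end LadderVeech
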