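import Pool.Agent.LadderVeech.Limit
import Pool.Agent.LadderVeech.Flux

open Set Filter Topology

namespace LadderVeech

section General

variable {S : Type*} [TopologicalSpace S] {ω : TranslationStructure S} [T2Space S] {ι : Type*}
  {𝒰 : Ultrafilter ι} {f : ι → S ≃ₜ S} {A : ι → GL (Fin 2) ℝ} {C : ℝ}

/-- joint continuity of the limit -/
lemma Bdd.joint (h : Bdd ω 𝒰 f A C) (hC : 0 < C) {x y : S} {g : ι → S}
    (hxy : Tendsto (fun i => f i x) 𝒰 (𝓝 y)) (hg : Tendsto g 𝒰 (𝓝 x)) :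
    Tendsto (fun i => f i (g i)) 𝒰 (𝓝 y) := by
  obtain ⟨mx⟩ := exists_model ω x
  obtain ⟨my⟩ := exists_model ω y
  rw [tendsto_def]
  intro O hO
  obtain ⟨ρ, hρ, hρR, hsub⟩ := my.disc_basis hO
  have hη : 0 < ρ / (4 * C) := by positivity
  have e1 : ∀ᶠ i in (𝒰 : Filter ι), g i ∈ mx.disc (ρ / (4 * C)) := hg (mx.disc_mem_nhds hη)
  have e2 : ∀ᶠ i in (𝒰 : Filter ι), f i x ∈ my.disc (ρ / 2) :=
    hxy (my.disc_mem_nhds (by positivity))
  filter_upwards [e1, e2, h.bd] with i hi1 hi2 hbi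
  obtain ⟨v, hv, hseg⟩ := mx.seg_of_mem' hi1
  have h3 := hseg.map (h.aff i)
  have h4 : ‖act (A i) v‖ ≤ ρ / 4 := by
    refine (norm_act_le' hbi hv).trans (le_of_eq ?_)
    field_simp
  have h5 := (my.trap hi2 h3 (by linarith)).1
  exact hsub (my.disc_mono (by linarith) h5)

/-- a family of affine maps converging to the identity -/
structure NearId (ω : TranslationStructure S) (𝒰 : Ultrafilter ι) (f : ι → S ≃ₜ S)
    (A : ι → GL (Fin 2) ℝ) : Prop where
  aff : ∀ i, IsAffine ω (f i) (A i)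
  lim : Tendsto A 𝒰 (𝓝 1)
  pt : ∀ x, Tendsto (fun i => f i x) 𝒰 (𝓝 x)

lemma NearId.bdd (h : NearId ω 𝒰 f A) : ∃ C > 0, Bdd ω 𝒰 f A C := exists_bdd h.aff h.lim

lemma NearId.symm (h : NearId ω 𝒰 f A) :
    NearId ω 𝒰 (fun i => (f i).symm) (fun i => (A i)⁻¹) := by
  obtain ⟨C, hC, hb⟩ := h.bdd
  refine ⟨fun i => (h.aff i).symm, ?_, fun x => hb.lim_inv hC (h.pt x)⟩
  have := h.lim.inv
  rwa [inv_one] at this

lemma NearId.joint (h : NearId ω 𝒰 f A) {x : S} {g : ι → S} (hg : Tendsto g 𝒰 (𝓝 x)) :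
    Tendsto (fun i => f i (g i)) 𝒰 (𝓝 x) := by
  obtain ⟨C, hC, hb⟩ := h.bdd
  exact hb.joint hC (h.pt x) hg

lemma NearId.pow (h : NearId ω 𝒰 f A) (j : ℕ) :
    NearId ω 𝒰 (fun i => (f i) ^ j) (fun i => (A i) ^ j) := by
  induction j with
  | zero =>
    refine ⟨fun i => ?_, ?_, fun x => ?_⟩
    · simp only [pow_zero]; exact isAffine_one
    · simp only [pow_zero]; exact tendsto_const_nhds
    · simp only [pow_zero]; exact tendsto_const_nhds
  | succ j ih =>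
    refine ⟨fun i => ?_, ?_, fun x => ?_⟩
    · simp only [pow_succ']; exact (h.aff i).mul (ih.aff i)
    · simp only [pow_succ']
      have := h.lim.mul ih.lim
      rwa [mul_one] at this
    · simp only [pow_succ']
      exact h.joint (ih.pt x)

/-- uniform closeness to the identity on compact sets -/
lemma NearId.unif (h : NearId ω 𝒰 f A) {K : Set S} (hK : IsCompact K) {g : S → ℝ}
    (hg : Continuous g) {ε : ℝ} (hε : 0 < ε) :
    ∀ᶠ i in (𝒰 : Filter ι), ∀ p ∈ K, |g (f i p) - g p| < ε := by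
  by_contra hcon
  rw [← Ultrafilter.eventually_not] at hcon
  push Not at hcon
  have hex : ∀ i, ∃ p : S, (∃ p ∈ K, ε ≤ |g (f i p) - g p|) → p ∈ K ∧ ε ≤ |g (f i p) - g p| := by
    intro i
    by_cases hi : ∃ p ∈ K, ε ≤ |g (f i p) - g p|
    · obtain ⟨p, hp⟩ := hi
      exact ⟨p, fun _ => hp⟩
    · by_cases hS : Nonempty S
      · exact ⟨hS.some, fun h => absurd h hi⟩
      · obtain ⟨j, ⟨p, hp⟩⟩ := hcon.exists
        exact absurd ⟨p⟩ hS
  choose q hq using hex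
  have hqK : ∀ᶠ i in (𝒰 : Filter ι), q i ∈ K := by
    filter_upwards [hcon] with i hi using (hq i hi).1
  obtain ⟨p, -, hp⟩ := exists_lim_of_compact hK hqK
  have h1 : Tendsto (fun i => |g (f i (q i)) - g (q i)|) 𝒰 (𝓝 |g p - g p|) :=
    (((hg.tendsto p).comp (h.joint hp)).sub ((hg.tendsto p).comp hp)).abs
  rw [sub_self, abs_zero] at h1
  have h2 := h1.eventually_lt_const hε
  obtain ⟨i, hi1, hi2⟩ := (h2.and hcon).exists
  have := (hq i hi2).2
  linarith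

end General

/-- closeness to the identity on a slab -/
def Close (h : Ladder ≃ₜ Ladder) : Prop :=
  (∀ p : Ladder, -3 ≤ xc p ∧ xc p ≤ 3 → |xc (h p) - xc p| < 1 / 4) ∧
  (∀ p : Ladder, -3 ≤ xc p ∧ xc p ≤ 3 → |xc (h.symm p) - xc p| < 1 / 4)

lemma subset_side {A : Set Ladder} (hA : IsPreconnected A) {c : ℝ} (hc : ∀ p ∈ A, xc p ≠ c)
    {q : Ladder} (hq : q ∈ A) (hqc : xc q < c) : ∀ p ∈ A, xc p < c := by
  have h := hA.subset_or_subset (u := {p | xc p < c}) (v := {p | c < xc p})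
    (isOpen_lt continuous_xc continuous_const) (isOpen_lt continuous_const continuous_xc)
    (by
      rw [Set.disjoint_left]
      intro p hp hp'
      simp only [mem_ofPred_eq] at hp hp'
      linarith)
    (fun p hp => lt_or_gt_of_ne (hc p hp))
  rcases h with h | h
  · exact h
  · have := h hq
    simp only [mem_ofPred_eq] at this
    linarith

lemma Close.image_sub {h : Ladder ≃ₜ Ladder} (hh : Close h) :
    h '' Lh ⊆ {p : Ladder | xc p ≤ 0} := by
  have h1 : IsPreconnected (h '' Lh) := (isPreconnected_le _).image _ h.continuous.continuousOn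
  have h2 := subset_side h1 (c := 0) ?_ (q := h (pt (-(1 / 2)))) ⟨pt (-(1/2)), by simp [Lh], rfl⟩ ?_
  · intro p hp
    exact (h2 p hp).le
  · rintro _ ⟨p, hp, rfl⟩ h3
    have h4 := hh.2 (h p) (by rw [h3]; norm_num)
    rw [Homeomorph.symm_apply_apply, h3, sub_zero, abs_lt] at h4
    have h5 : xc p ≤ -(1 / 2) := hp
    linarith
  · have h4 := hh.1 (pt (-(1 / 2))) (by simp; norm_num)
    rw [abs_lt, xc_pt] at h4
    linarith

lemma Close.sub_image {h : Ladder ≃ₜ Ladder} (hh : Close h) :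
    {p : Ladder | xc p ≤ -1} ⊆ h '' Lh := by
  have h1 : IsPreconnected (h.symm '' {p : Ladder | xc p ≤ -1}) :=
    (isPreconnected_le _).image _ h.symm.continuous.continuousOn
  have h2 := subset_side h1 (c := -(1 / 2)) ?_ (q := h.symm (pt (-1))) ⟨pt (-1), by simp, rfl⟩ ?_
  · intro p hp
    exact ⟨h.symm p, (h2 _ ⟨p, hp, rfl⟩).le, by simp⟩
  · rintro _ ⟨p, hp, rfl⟩ h3
    have h4 := hh.1 (h.symm p) (by rw [h3]; norm_num)
    rw [Homeomorph.apply_symm_apply, h3, abs_lt] at h4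
    have h5 : xc p ≤ -1 := hp
    linarith
  · have h4 := hh.2 (pt (-1)) (by simp; norm_num)
    rw [abs_lt, xc_pt] at h4
    linarith

lemma Close.mem_endFix {h : Ladder ≃ₜ Ladder} (hh : Close h) : h ∈ endFix := by
  rcases ll_or_lr h with h1 | h1
  · exact h1
  · exfalso
    obtain ⟨R, hR⟩ := h1 1
    have h2 := hR (pt (min R (-1))) (by simp)
    have h3 := hh.image_sub ⟨pt (min R (-1)), by
      simp only [Lh, mem_ofPred_eq, xc_pt]
      exact (min_le_right _ _).trans (by norm_num), rfl⟩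
    simp only [mem_ofPred_eq] at h3
    linarith

/-- a universal bound for the exponents of maps close to the identity -/
lemma exists_close_bound
    (hloc : ∀ p : Ladder, ∃ e : OpenPartialHomeomorph Ladder ℂ, p ∈ e.source) :
    ∃ c : ℕ, ∀ h : Ladder ≃ₜ Ladder, Close h → ea h ≤ c ∧ eb h ≤ c := by
  have hLh : Lh = {p : Ladder | xc p ≤ ((-1 : ℤ):ℝ) + 1 / 2} := by
    ext p
    simp only [Lh, mem_ofPred_eq]
    push_cast
    constructor <;> intro h <;> linarith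
  have n1 := relIndex_sqSub_le hloc (-1) 0 (by push_cast; norm_num)
  have n2 := relIndex_sqSub_le hloc (-2) (-(1 / 2)) (by push_cast; norm_num)
  rw [← hLh] at n1
  set c1 := (sqSub {p : Ladder | xc p ≤ 0}).relIndex (sqSub Lh)
  set c2 := (sqSub {p : Ladder | xc p ≤ -(1 / 2)}).relIndex
    (sqSub {p : Ladder | xc p ≤ ((-2 : ℤ):ℝ) + 1 / 2})
  refine ⟨max (Nat.log 2 c1) (Nat.log 2 c2), fun h hh => ⟨?_, ?_⟩⟩
  · refine le_trans (Nat.log_mono_right ?_) (le_max_left _ _)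
    exact Subgroup.relIndex_le_of_le_left (sqSub_anti hh.image_sub) n1
  · refine le_trans (Nat.log_mono_right ?_) (le_max_right _ _)
    refine Subgroup.relIndex_le_of_le_right (sqSub_anti ?_) n2
    refine Subset.trans ?_ hh.sub_image
    intro p hp
    have : xc p ≤ ((-2 : ℤ):ℝ) + 1 / 2 := hp
    push_cast at this
    simp only [mem_ofPred_eq]
    linarith

lemma hloc_of {S : Type*} [TopologicalSpace S] (ω : TranslationStructure S) (p : S) :
    ∃ e : OpenPartialHomeomorph S ℂ, p ∈ e.source := by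
  obtain ⟨m⟩ := exists_model ω p
  exact ⟨m.φ, m.mem⟩

/-- Zero flux maps: both ends are fixed and the flux vanishes. -/
def ZeroFlux (ω : TranslationStructure Ladder) (f : Ladder ≃ₜ Ladder) : Prop :=
  ∃ hf : f ∈ endFix, flux (hloc_of ω) ⟨f, hf⟩ = 1

variable {ω : TranslationStructure Ladder}

lemma ZeroFlux.inter {f : Ladder ≃ₜ Ladder} (h : ZeroFlux ω f) : (f '' K₀ ∩ K₀).Nonempty := by
  obtain ⟨hf, h⟩ := h
  exact flux_kernel _ _ h

lemma ZeroFlux.one : ZeroFlux ω 1 := ⟨endFix.one_mem, map_one _⟩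

lemma ZeroFlux.mul {f g : Ladder ≃ₜ Ladder} (hf : ZeroFlux ω f) (hg : ZeroFlux ω g) :
    ZeroFlux ω (f * g) := by
  obtain ⟨hf1, hf2⟩ := hf
  obtain ⟨hg1, hg2⟩ := hg
  refine ⟨endFix.mul_mem hf1 hg1, ?_⟩
  have := map_mul (flux (hloc_of ω)) ⟨f, hf1⟩ ⟨g, hg1⟩
  rw [hf2, hg2, mul_one] at this
  exact this

lemma ZeroFlux.inv {f : Ladder ≃ₜ Ladder} (hf : ZeroFlux ω f) : ZeroFlux ω f⁻¹ := by
  obtain ⟨hf1, hf2⟩ := hf
  refine ⟨endFix.inv_mem hf1, ?_⟩
  have := map_inv (flux (hloc_of ω)) ⟨f, hf1⟩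
  rw [hf2, inv_one] at this
  exact this

lemma ZeroFlux.conj {f g : Ladder ≃ₜ Ladder} (hf : ZeroFlux ω f) (hg : g ∈ endFix) :
    ZeroFlux ω (g * f * g⁻¹) := by
  obtain ⟨hf1, hf2⟩ := hf
  refine ⟨endFix.mul_mem (endFix.mul_mem hg hf1) (endFix.inv_mem hg), ?_⟩
  have h1 : flux (hloc_of ω) (⟨g, hg⟩ * ⟨f, hf1⟩ * (⟨g, hg⟩)⁻¹) = 1 := by
    rw [map_mul, map_mul, map_inv, hf2, mul_one, mul_inv_cancel]
  exact h1

lemma isCompact_slab3 : IsCompact {p : Ladder | -3 ≤ xc p ∧ xc p ≤ 3} := isCompact_slab _ _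

lemma NearId.close {ι : Type*} {𝒰 : Ultrafilter ι} {f : ι → Ladder ≃ₜ Ladder}
    {A : ι → GL (Fin 2) ℝ} (h : NearId ω 𝒰 f A) : ∀ᶠ i in (𝒰 : Filter ι), Close (f i) := by
  filter_upwards [h.unif isCompact_slab3 continuous_xc (ε := 1 / 4) (by norm_num),
    h.symm.unif isCompact_slab3 continuous_xc (ε := 1 / 4) (by norm_num)] with i h1 h2
  exact ⟨h1, h2⟩

/-- Limits of zero flux affine maps are zero flux affine maps. -/
theorem zeroFlux_limit {ι : Type*} {𝒰 : Ultrafilter ι} {f : ι → Ladder ≃ₜ Ladder}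
    {A : ι → GL (Fin 2) ℝ} {B : GL (Fin 2) ℝ} (haff : ∀ i, IsAffine ω (f i) (A i))
    (hA : Tendsto A 𝒰 (𝓝 B)) (h0 : ∀ i, ZeroFlux ω (f i)) :
    ∃ F : Ladder ≃ₜ Ladder, IsAffine ω F B ∧ ZeroFlux ω F ∧
      ∀ x, Tendsto (fun i => f i x) 𝒰 (𝓝 (F x)) := by
  have hK : IsCompact K₀ := isCompact_slab _ _
  obtain ⟨F, hF, hlim⟩ := exists_affine_limit haff hA hK (fun i => (h0 i).inter)
  refine ⟨F, hF, ?_, hlim⟩
  obtain ⟨C, hC, hb⟩ := exists_bdd haff hA
  -- the maps `f i ⁻¹ F` converge to the identity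
  have hnear : NearId ω 𝒰 (fun i => (f i)⁻¹ * F) (fun i => (A i)⁻¹ * B) := by
    refine ⟨fun i => ((haff i).symm).mul hF, ?_, fun x => ?_⟩
    · have := hA.inv.mul (tendsto_const_nhds (x := B) (f := (𝒰 : Filter ι)))
      rwa [inv_mul_cancel] at this
    · exact hb.lim_inv hC (hlim x)
  obtain ⟨c, hc⟩ := exists_close_bound (hloc_of ω)
  have hFend : F ∈ endFix := by
    obtain ⟨i, hi⟩ := hnear.close.exists
    obtain ⟨hf, -⟩ := h0 i
    have := endFix.mul_mem hf hi.mem_endFix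
    rwa [mul_inv_cancel_left] at this
  refine ⟨hFend, ?_⟩
  obtain ⟨i, hi1⟩ := (hnear.pow (c + 1)).close.exists
  obtain ⟨hf, hf0⟩ := h0 i
  have hmem : (f i)⁻¹ * F ∈ endFix := endFix.mul_mem (endFix.inv_mem hf) hFend
  have e1 : flux (hloc_of ω) ⟨(f i)⁻¹ * F, hmem⟩ = flux (hloc_of ω) ⟨F, hFend⟩ := by
    have := map_mul (flux (hloc_of ω)) (⟨f i, hf⟩)⁻¹ ⟨F, hFend⟩
    rw [map_inv, hf0, inv_one, one_mul] at this
    exact this
  have e2 : flux (hloc_of ω) ⟨((f i)⁻¹ * F) ^ (c + 1), endFix.pow_mem hmem _⟩ =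
      (flux (hloc_of ω) ⟨F, hFend⟩) ^ (c + 1) := by
    rw [← e1, ← map_pow]
    rfl
  obtain ⟨b1, b2⟩ := hc _ hi1
  set k : ℤ := Multiplicative.toAdd (flux (hloc_of ω) ⟨F, hFend⟩) with hk
  have e3 : Multiplicative.toAdd
      (flux (hloc_of ω) ⟨((f i)⁻¹ * F) ^ (c + 1), endFix.pow_mem hmem _⟩) = (c + 1) * k := by
    rw [e2, toAdd_pow, hk]
    simp
  have e4 : Multiplicative.toAdd
      (flux (hloc_of ω) ⟨((f i)⁻¹ * F) ^ (c + 1), endFix.pow_mem hmem _⟩) =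
      (ea (((f i)⁻¹ * F) ^ (c + 1)) : ℤ) - eb (((f i)⁻¹ * F) ^ (c + 1)) := rfl
  rw [e3] at e4
  have hk0 : k = 0 := by
    by_contra hne
    have h1 : (c + 1 : ℤ) ≤ |(c + 1) * k| := by
      rw [abs_mul, abs_of_nonneg (by positivity : (0:ℤ) ≤ (c:ℤ) + 1)]
      have : 1 ≤ |k| := Int.one_le_abs hne
      nlinarith
    have h2 : |((c:ℤ) + 1) * k| ≤ c := by
      rw [e4, abs_le]
      constructor <;> omega
    omega
  have : flux (hloc_of ω) ⟨F, hFend⟩ = Multiplicative.ofAdd k := by rw [hk, ofAdd_toAdd]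
  rw [this, hk0]
  rfl

end LadderVeech
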