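import Pool.Agent.LadderVeech.Bounded

open Set Filter Topology

namespace LadderVeech

variable (ω : TranslationStructure Ladder)

/-- affine automorphisms fixing both ends of the ladder -/
def affPlus : Subgroup ((Ladder ≃ₜ Ladder) × GL (Fin 2) ℝ) where
  carrier := {x | x ∈ affGroup ω ∧ x.1 ∈ endFix}
  mul_mem' := by
    rintro x y ⟨h1, h2⟩ ⟨h3, h4⟩
    exact ⟨(affGroup ω).mul_mem h1 h3, endFix.mul_mem h2 h4⟩
  one_mem' := ⟨(affGroup ω).one_mem, endFix.one_mem⟩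
  inv_mem' := by
    rintro x ⟨h1, h2⟩
    exact ⟨(affGroup ω).inv_mem h1, endFix.inv_mem h2⟩

/-- affine automorphisms of zero flux -/
def affZero : Subgroup ((Ladder ≃ₜ Ladder) × GL (Fin 2) ℝ) where
  carrier := {x | x ∈ affGroup ω ∧ ZeroFlux ω x.1}
  mul_mem' := by
    rintro x y ⟨h1, h2⟩ ⟨h3, h4⟩
    exact ⟨(affGroup ω).mul_mem h1 h3, h2.mul h4⟩
  one_mem' := ⟨(affGroup ω).one_mem, ZeroFlux.one⟩
  inv_mem' := by
    rintro x ⟨h1, h2⟩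
    exact ⟨(affGroup ω).inv_mem h1, h2.inv⟩

/-- derivatives of affine automorphisms fixing both ends -/
def veechPlus : Subgroup (GL (Fin 2) ℝ) := (affPlus ω).map (MonoidHom.snd _ _)

/-- derivatives of affine automorphisms of zero flux -/
def veechZero : Subgroup (GL (Fin 2) ℝ) := (affZero ω).map (MonoidHom.snd _ _)

variable {ω}

lemma mem_veechZero {A : GL (Fin 2) ℝ} :
    A ∈ veechZero ω ↔ 0 < Matrix.det (A : Matrix (Fin 2) (Fin 2) ℝ) ∧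
      ∃ f : Ladder ≃ₜ Ladder, IsAffine ω f A ∧ ZeroFlux ω f := by
  unfold veechZero
  rw [Subgroup.mem_map]
  constructor
  · rintro ⟨⟨f, B⟩, ⟨⟨h1, h2⟩, h3⟩, rfl⟩
    exact ⟨h1, f, h2, h3⟩
  · rintro ⟨h1, f, h2, h3⟩
    exact ⟨⟨f, A⟩, ⟨⟨h1, h2⟩, h3⟩, rfl⟩

lemma mem_veechPlus {A : GL (Fin 2) ℝ} :
    A ∈ veechPlus ω ↔ 0 < Matrix.det (A : Matrix (Fin 2) (Fin 2) ℝ) ∧
      ∃ f : Ladder ≃ₜ Ladder, IsAffine ω f A ∧ f ∈ endFix := by
  unfold veechPlus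
  rw [Subgroup.mem_map]
  constructor
  · rintro ⟨⟨f, B⟩, ⟨⟨h1, h2⟩, h3⟩, rfl⟩
    exact ⟨h1, f, h2, h3⟩
  · rintro ⟨h1, f, h2, h3⟩
    exact ⟨⟨f, A⟩, ⟨⟨h1, h2⟩, h3⟩, rfl⟩

lemma veechZero_le : veechZero ω ≤ veechPlus ω := by
  intro A hA
  rw [mem_veechZero] at hA
  rw [mem_veechPlus]
  obtain ⟨h1, f, h2, h3, h4⟩ := hA
  exact ⟨h1, f, h2, h3⟩

lemma veechPlus_le : veechPlus ω ≤ veechGroup ω := by
  intro A hA
  rw [mem_veechPlus] at hA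
  rw [mem_veechGroup]
  obtain ⟨h1, f, h2, h3⟩ := hA
  exact ⟨h1, f, h2⟩

lemma veechPlus_index {A B : GL (Fin 2) ℝ} (hA : A ∈ veechGroup ω) (hB : B ∈ veechGroup ω)
    (hA' : A ∉ veechPlus ω) (hB' : B ∉ veechPlus ω) : A * B ∈ veechPlus ω := by
  rw [mem_veechGroup] at hA hB
  rw [mem_veechPlus] at hA' hB' ⊢
  obtain ⟨a1, f, a2⟩ := hA
  obtain ⟨b1, g, b2⟩ := hB
  have hf : f ∉ endFix := fun h => hA' ⟨a1, f, a2, h⟩
  have hg : g ∉ endFix := fun h => hB' ⟨b1, g, b2, h⟩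
  refine ⟨?_, f * g, a2.mul b2, mul_mem_endFix hf hg⟩
  rw [Units.val_mul, Matrix.det_mul]
  exact mul_pos a1 b1

lemma veechZero_normal {A B : GL (Fin 2) ℝ} (hA : A ∈ veechPlus ω) (hB : B ∈ veechZero ω) :
    A * B * A⁻¹ ∈ veechZero ω := by
  have hA' := veechPlus_le hA
  have hB' := veechPlus_le (veechZero_le hB)
  have h1 := (veechGroup ω).mul_mem ((veechGroup ω).mul_mem hA' hB') ((veechGroup ω).inv_mem hA')
  have hdet := (mem_veechGroup.1 h1).1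
  rw [mem_veechPlus] at hA
  rw [mem_veechZero] at hB ⊢
  obtain ⟨a1, f, a2, a3⟩ := hA
  obtain ⟨b1, g, b2, b3⟩ := hB
  exact ⟨hdet, f * g * f⁻¹, a2.conj b2, b3.conj a3⟩

/-- forget the derivative -/
def toEnd (ω : TranslationStructure Ladder) : affPlus ω →* endFix where
  toFun x := ⟨x.1.1, x.2.2⟩
  map_one' := rfl
  map_mul' _ _ := rfl


lemma cyc_aux {G : Type*} [Group G] (φ : G →* Multiplicative ℤ) :
    ∃ x : G, ∀ y : G, ∃ k : ℤ, φ (y * x ^ k) = 1 := by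
  have hcyc : IsCyclic φ.range := inferInstance
  obtain ⟨⟨g, ⟨x, hx⟩⟩, hg⟩ := hcyc.exists_generator
  refine ⟨x, fun y => ?_⟩
  obtain ⟨k, hk⟩ := hg ⟨φ y, ⟨y, rfl⟩⟩
  have hk2 : g ^ k = φ y := by
    have := congrArg Subtype.val hk
    simpa using this
  refine ⟨-k, ?_⟩
  rw [map_mul, map_zpow, hx, ← hk2, ← zpow_add, add_neg_cancel, zpow_zero]

lemma mem_affZero_of (x : affPlus ω) (h : flux (hloc_of ω) (toEnd ω x) = 1) : x.1 ∈ affZero ω :=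
  ⟨x.2.1, x.2.2, h⟩

lemma veechPlus_cyclic : ∃ T ∈ veechPlus ω, ∀ A ∈ veechPlus ω, ∃ k : ℤ,
    A * T ^ k ∈ veechZero ω := by
  obtain ⟨x, hx⟩ := cyc_aux ((flux (hloc_of ω)).comp (toEnd ω))
  refine ⟨x.1.2, ⟨x.1, x.2, rfl⟩, fun A hA => ?_⟩
  obtain ⟨y, hy, rfl⟩ := hA
  obtain ⟨k, hk⟩ := hx ⟨y, hy⟩
  rw [MonoidHom.comp_apply] at hk
  have h1 := mem_affZero_of _ hk
  refine ⟨k, ⟨_, h1, ?_⟩⟩
  rw [Subgroup.coe_mul, map_mul, Subgroup.coe_zpow, map_zpow]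
  rfl

lemma isClosed_veechZero : IsClosed (veechZero ω : Set (GL (Fin 2) ℝ)) := by
  classical
  rw [isClosed_iff_ultrafilter]
  intro B 𝒰 hle hmem
  have hex : ∀ A : GL (Fin 2) ℝ, ∃ x : (Ladder ≃ₜ Ladder) × GL (Fin 2) ℝ,
      IsAffine ω x.1 x.2 ∧ ZeroFlux ω x.1 ∧ (A ∈ veechZero ω → x.2 = A) := by
    intro A
    by_cases hA : A ∈ veechZero ω
    · obtain ⟨-, f, h2, h3⟩ := mem_veechZero.1 hA
      exact ⟨(f, A), h2, h3, fun _ => rfl⟩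
    · exact ⟨(1, 1), isAffine_one, ZeroFlux.one, fun h => absurd h hA⟩
  choose x hx1 hx2 hx3 using hex
  have hlim : Tendsto (fun A => (x A).2) 𝒰 (𝓝 B) := by
    refine Tendsto.congr' ?_ (f₁ := fun A => A) ?_
    · filter_upwards [hmem] with A hA using (hx3 A hA).symm
    · exact hle
  obtain ⟨F, hF1, hF2, -⟩ := zeroFlux_limit (fun A => hx1 A) hlim (fun A => hx2 A)
  refine mem_veechZero.2 ⟨?_, F, hF1, hF2⟩
  have hdet : Continuous fun A : GL (Fin 2) ℝ => Matrix.det (A : Matrix (Fin 2) (Fin 2) ℝ) :=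
    Continuous.matrix_det Units.continuous_val
  have h0 : 0 ≤ Matrix.det (B : Matrix (Fin 2) (Fin 2) ℝ) := by
    refine ge_of_tendsto ((hdet.tendsto B).mono_left hle) ?_
    filter_upwards [hmem] with A hA using (mem_veechZero.1 hA).1.le
  have h1 : Matrix.det (B : Matrix (Fin 2) (Fin 2) ℝ) ≠ 0 := by
    have := (Matrix.isUnit_iff_isUnit_det _).1 B.isUnit
    exact this.ne_zero
  exact lt_of_le_of_ne h0 h1.symm

lemma veechZero_bound (ω : TranslationStructure Ladder) :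
    ∃ c > 0, ∀ A ∈ veechZero ω, c ≤ nrm A := by
  obtain ⟨c, hc, h⟩ := exists_nrm_lower_bound ω
  refine ⟨c, hc, fun A hA => ?_⟩
  obtain ⟨-, f, h1, h2⟩ := mem_veechZero.1 hA
  exact h f A h1 h2

end LadderVeech
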