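import Pool.Agent.LadderVeech.Etale

open Set Filter Topology

namespace LadderVeech

section Lemmas

variable {L : Type*} [TopologicalSpace L]

/-- square roots on regions with convex image -/
lemma isSq_of_convex_image {Ψ : L → ℂ} {C : Set L} (hC : IsOpen C) (hne : C.Nonempty)
    (hΨ : ContinuousOn Ψ C) (hinj : InjOn Ψ C)
    (hopen : ∀ V, IsOpen V → V ⊆ C → IsOpen (Ψ '' V)) (hconv : Convex ℝ (Ψ '' C))
    (u : C(L, Circle)) : IsSq u C := by
  classical
  obtain ⟨x₀, hx₀⟩ := hne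
  have : Nonempty L := ⟨x₀⟩
  set g : ℂ → L := Function.invFunOn Ψ C with hg
  have hgl : ∀ x ∈ C, g (Ψ x) = x := fun x hx => hinj.leftInvOn_invFunOn hx
  have hgr : ∀ z ∈ Ψ '' C, g z ∈ C ∧ Ψ (g z) = z := by
    rintro _ ⟨x, hx, rfl⟩
    rw [hgl x hx]
    exact ⟨hx, rfl⟩
  have hgc : ContinuousOn g (Ψ '' C) := by
    rw [continuousOn_open_iff (hopen C hC Subset.rfl)]
    intro t ht
    have : Ψ '' C ∩ g ⁻¹' t = Ψ '' (C ∩ t) := by
      ext z
      constructor
      · rintro ⟨hz, hzt⟩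
        obtain ⟨h1, h2⟩ := hgr z hz
        exact ⟨g z, ⟨h1, hzt⟩, h2⟩
      · rintro ⟨x, ⟨hx, hxt⟩, rfl⟩
        refine ⟨⟨x, hx, rfl⟩, ?_⟩
        rw [mem_preimage, hgl x hx]
        exact hxt
    rw [this]
    exact hopen _ (hC.inter ht) inter_subset_left
  have hsc : IsSimplyConnected (Ψ '' C) := by
    have : ContractibleSpace (Ψ '' C) := hconv.contractibleSpace ⟨Ψ x₀, x₀, hx₀, rfl⟩
    change SimplyConnectedSpace (Ψ '' C)
    infer_instance
  have huc : ContinuousOn (fun z : ℂ => ((u (g z) : Circle) : ℂ)) (Ψ '' C) :=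
    isInducing_circle.continuous.comp_continuousOn (u.continuous.comp_continuousOn hgc)
  obtain ⟨f, hfc, hf⟩ := Complex.exists_continuousOn_pow_eq hsc (hopen C hC Subset.rfl) huc (by
    rintro ⟨z, -, hz⟩
    exact Circle.coe_ne_zero _ hz) two_ne_zero
  have hnorm : ∀ z, ‖f z‖ = 1 := by
    intro z
    have h3 : ‖f z‖ ^ 2 = 1 := by
      rw [← norm_pow, hf z]
      exact Circle.norm_coe _
    nlinarith [norm_nonneg (f z)]
  refine ⟨fun q => toC (f (Ψ q)) (hnorm (Ψ q)), ?_, ?_⟩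
  · have h4 : ContinuousOn (fun q => f (Ψ q)) C := hfc.comp hΨ (fun q hq => ⟨q, hq, rfl⟩)
    exact isInducing_circle.continuousOn_iff.2 h4
  · intro q hq
    apply Circle.coe_injective
    simp only [Circle.coe_pow, coe_toC]
    rw [hf, hgl q hq]

/-- gluing square roots on components, normalised on `B` -/
lemma glue_components [LocallyConnectedSpace L] {u σ : L → Circle} {O B : Set L} (hO : IsOpen O)
    (hσ : ContinuousOn σ B) (hσu : ∀ p ∈ B, σ p ^ 2 = u p)
    (h : ∀ x ∈ O, IsSq u (connectedComponentIn O x))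
    (hB : ∀ x ∈ O, IsPreconnected (connectedComponentIn O x ∩ B)) :
    ∃ s : L → Circle, ContinuousOn s O ∧ (∀ p ∈ O, s p ^ 2 = u p) ∧ ∀ p ∈ O ∩ B, s p = σ p := by
  classical
  have key : ∀ C : Set L, ∃ v : L → Circle, (∃ x ∈ O, C = connectedComponentIn O x) →
      ContinuousOn v C ∧ (∀ p ∈ C, v p ^ 2 = u p) ∧ ∀ p ∈ C ∩ B, v p = σ p := by
    intro C
    by_cases hC : ∃ x ∈ O, C = connectedComponentIn O x
    · obtain ⟨x, hx, rfl⟩ := hC
      obtain ⟨v, hv, hvu⟩ := h x hx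
      obtain ⟨c, hc, hcv⟩ := sign_const (hB x hx) (hσ.mono inter_subset_right)
        (hv.mono inter_subset_left) (fun p hp => by rw [hvu p hp.1, hσu p hp.2])
      refine ⟨fun p => c * v p, fun _ => ⟨continuousOn_const.mul hv, ?_, ?_⟩⟩
      · intro p hp
        rw [mul_pow, hc, one_mul, hvu p hp]
      · intro p hp
        exact (hcv p hp).symm
    · exact ⟨fun _ => 1, fun h => absurd h hC⟩
  choose v hv using key
  refine ⟨fun p => v (connectedComponentIn O p) p, ?_, ?_, ?_⟩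
  · intro x hx
    have h1 := (hv _ ⟨x, hx, rfl⟩).1
    have h2 : connectedComponentIn O x ∈ 𝓝 x :=
      (hO.connectedComponentIn).mem_nhds (mem_connectedComponentIn hx)
    refine ContinuousAt.continuousWithinAt ?_
    refine (h1.continuousAt h2).congr ?_
    filter_upwards [h2] with y hy
    rw [connectedComponentIn_eq hy]
  · intro p hp
    exact (hv _ ⟨p, hp, rfl⟩).2.1 p (mem_connectedComponentIn hp)
  · intro p hp
    exact (hv _ ⟨p, hp.1, rfl⟩).2.2 p ⟨mem_connectedComponentIn hp.1, hp.2⟩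

end Lemmas

/-- A hyperbolic flow with its two eigenfunctions. -/
structure Hyp (L : Type*) [TopologicalSpace L] where
  X : L → ℝ
  Y : L → ℝ
  lam : ℝ
  mu : ℝ
  hlam : 0 < lam
  hmu : 0 < mu
  φ : ℝ → L → L
  cX : Continuous X
  cY : Continuous Y
  cφ : Continuous (fun q : ℝ × L => φ q.1 q.2)
  φ0 : ∀ x, φ 0 x = x
  φadd : ∀ s t x, φ (s + t) x = φ s (φ t x)
  eX : ∀ t x, X (φ t x) = Real.exp (lam * t) * X x
  eY : ∀ t x, Y (φ t x) = Real.exp (-(mu * t)) * Y x
  inj : ∀ x, (X x ≠ 0 ∨ Y x ≠ 0) → ∃ U ∈ 𝓝 x, InjOn (fun y => (X y, Y y)) U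
  opn : ∀ x, (X x ≠ 0 ∨ Y x ≠ 0) → 𝓝 (X x, Y x) ≤ map (fun y => (X y, Y y)) (𝓝 x)

namespace Hyp

variable {L : Type*} [TopologicalSpace L]

/-- reverse time and exchange the coordinates -/
def swap (H : Hyp L) : Hyp L where
  X := H.Y
  Y := H.X
  lam := H.mu
  mu := H.lam
  hlam := H.hmu
  hmu := H.hlam
  φ := fun t x => H.φ (-t) x
  cX := H.cY
  cY := H.cX
  cφ := by
    have : Continuous (fun q : ℝ × L => (-q.1, q.2)) := by fun_prop
    exact H.cφ.comp this
  φ0 := fun x => by simp only [neg_zero]; exact H.φ0 x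
  φadd := fun s t x => by
    have : -(s + t) = -s + -t := by ring
    rw [this]
    exact H.φadd _ _ x
  eX := fun t x => by
    rw [H.eY]
    congr 2
    ring
  eY := fun t x => by
    rw [H.eX]
    congr 2
    ring
  inj := by
    intro x hx
    obtain ⟨U, hU, hinj⟩ := H.inj x hx.symm
    refine ⟨U, hU, fun a ha b hb hab => hinj ha hb ?_⟩
    simp only [Prod.mk.injEq] at hab ⊢
    exact hab.symm
  opn := by
    intro x hx
    have h := H.opn x hx.symm
    have h1 := map_mono (m := Prod.swap) h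
    rw [map_map] at h1
    have h2 : map Prod.swap (𝓝 (H.X x, H.Y x)) = 𝓝 (H.Y x, H.X x) :=
      (Homeomorph.prodComm ℝ ℝ).map_nhds_eq _
    rw [h2] at h1
    exact h1

/-- change the sign of the first coordinate -/
def negX (H : Hyp L) : Hyp L where
  X := fun x => -H.X x
  Y := H.Y
  lam := H.lam
  mu := H.mu
  hlam := H.hlam
  hmu := H.hmu
  φ := H.φ
  cX := H.cX.neg
  cY := H.cY
  cφ := H.cφ
  φ0 := H.φ0
  φadd := H.φadd
  eX := fun t x => by rw [H.eX]; ring
  eY := H.eY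
  inj := by
    intro x hx
    obtain ⟨U, hU, hinj⟩ := H.inj x (hx.imp_left neg_ne_zero.1)
    refine ⟨U, hU, fun a ha b hb hab => hinj ha hb ?_⟩
    simp only [Prod.mk.injEq, neg_inj] at hab ⊢
    exact hab
  opn := by
    intro x hx
    have h := H.opn x (hx.imp_left neg_ne_zero.1)
    have h1 := map_mono (m := fun q : ℝ × ℝ => (-q.1, q.2)) h
    rw [map_map] at h1
    have h2 : map (fun q : ℝ × ℝ => (-q.1, q.2)) (𝓝 (H.X x, H.Y x)) = 𝓝 (-H.X x, H.Y x) :=
      ((Homeomorph.neg ℝ).prodCongr (Homeomorph.refl ℝ)).map_nhds_eq _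
    rw [h2] at h1
    exact h1

/-- change the sign of the second coordinate -/
def negY (H : Hyp L) : Hyp L := H.swap.negX.swap

variable (H : Hyp L)

lemma φ_neg (t : ℝ) (x : L) : H.φ (-t) (H.φ t x) = x := by
  rw [← H.φadd, neg_add_cancel, H.φ0]

/-- the retraction to the slice -/
noncomputable def ret (x : L) : L := H.φ (-(Real.log (H.X x) / H.lam)) x

lemma X_ret {x : L} (hx : 0 < H.X x) : H.X (H.ret x) = 1 := by
  unfold ret
  rw [H.eX]
  have h1 : H.lam * -(Real.log (H.X x) / H.lam) = -Real.log (H.X x) := by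
    have := H.hlam.ne'
    field_simp
  rw [h1, Real.exp_neg, Real.exp_log hx, inv_mul_cancel₀ hx.ne']

lemma continuousOn_ret : ContinuousOn H.ret {x | 0 < H.X x} := by
  unfold ret
  have h1 : ContinuousOn (fun x => (-(Real.log (H.X x) / H.lam), x)) {x | 0 < H.X x} := by
    refine ContinuousOn.prodMk ?_ continuousOn_id
    refine (ContinuousOn.div_const ?_ _).neg
    exact ContinuousOn.log H.cX.continuousOn (fun x hx => (show 0 < H.X x from hx).ne')
  exact H.cφ.comp_continuousOn h1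

/-- the slice `X = 1` -/
abbrev Slice : Type _ := {x : L // H.X x = 1}

lemma slice_open : IsOpenMap (fun x : H.Slice => H.Y x.1) := by
  intro U hU
  obtain ⟨U', hU', rfl⟩ := hU
  rw [isOpen_iff_mem_nhds]
  rintro _ ⟨⟨x, hx⟩, hxU, rfl⟩
  have h1 := H.opn x (Or.inl (by rw [hx]; exact one_ne_zero))
  have h2 : (fun y => (H.X y, H.Y y)) '' U' ∈ 𝓝 (H.X x, H.Y x) :=
    h1 (image_mem_map (hU'.mem_nhds hxU))
  rw [hx] at h2
  have h3 : Continuous fun y : ℝ => ((1 : ℝ), y) := by fun_prop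
  have h4 := (h3.tendsto (H.Y x)) h2
  filter_upwards [h4] with y hy
  obtain ⟨x', hx'U, hx'⟩ := hy
  simp only [Prod.mk.injEq] at hx'
  exact ⟨⟨x', hx'.1⟩, hx'U, hx'.2⟩

variable [T2Space L]

lemma injOn_of_preconnected {S : Set L} (hS : IsPreconnected S) (hSX : ∀ x ∈ S, 0 < H.X x) :
    InjOn (fun y => (H.X y, H.Y y)) S := by
  set S' : Set H.Slice := {x | x.1 ∈ H.ret '' S} with hS'
  have hS'pre : IsPreconnected S' := by
    have h1 : IsPreconnected (H.ret '' S) := hS.image _ (H.continuousOn_ret.mono hSX)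
    have h2 : (Subtype.val : H.Slice → L) '' S' = H.ret '' S := by
      ext y
      constructor
      · rintro ⟨x, hx, rfl⟩
        exact hx
      · rintro ⟨x, hx, rfl⟩
        exact ⟨⟨H.ret x, H.X_ret (hSX x hx)⟩, ⟨x, hx, rfl⟩, rfl⟩
    refine (Topology.IsInducing.isPreconnected_image (f := (Subtype.val : H.Slice → L))
      Topology.IsInducing.subtypeVal).1 ?_
    rw [h2]
    exact h1
  have hinj : InjOn (fun x : H.Slice => H.Y x.1) S' := by
    refine injOn_of_etale H.slice_open (H.cY.comp continuous_subtype_val) ?_ hS'pre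
    rintro ⟨x, hx⟩
    obtain ⟨U, hU, hUi⟩ := H.inj x (Or.inl (by rw [hx]; exact one_ne_zero))
    refine ⟨Subtype.val ⁻¹' U, continuous_subtype_val.continuousAt.preimage_mem_nhds hU, ?_⟩
    rintro ⟨a, ha⟩ haU ⟨b, hb⟩ hbU hab
    refine Subtype.ext (hUi haU hbU ?_)
    simp only [Prod.mk.injEq]
    exact ⟨by rw [ha, hb], hab⟩
  intro x hx y hy hxy
  simp only [Prod.mk.injEq] at hxy
  have h1 : H.ret x = H.ret y := by
    have h2 : (⟨H.ret x, H.X_ret (hSX x hx)⟩ : H.Slice) = ⟨H.ret y, H.X_ret (hSX y hy)⟩ := by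
      refine hinj ⟨x, hx, rfl⟩ ⟨y, hy, rfl⟩ ?_
      simp only [ret]
      rw [H.eY, H.eY, hxy.1, hxy.2]
    exact congrArg Subtype.val h2
  unfold ret at h1
  rw [hxy.1] at h1
  have h3 := congrArg (H.φ (Real.log (H.X y) / H.lam)) h1
  rw [← H.φadd, ← H.φadd, add_neg_cancel, H.φ0, H.φ0] at h3
  exact h3

/-- the exponent -/
noncomputable def r : ℝ := H.mu / H.lam

omit [T2Space L] in
lemma r_pos : 0 < H.r := div_pos H.hmu H.hlam

/-- the first coordinate of the normal form -/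
noncomputable def xi (x : L) : ℝ := |H.X x| ^ H.r

/-- the normal form coordinates -/
noncomputable def Ψ (x : L) : ℂ := ⟨H.xi x, H.xi x * H.Y x⟩

omit [T2Space L] in
lemma continuous_xi : Continuous H.xi :=
  H.cX.abs.rpow_const (fun _ => Or.inr H.r_pos.le)

omit [T2Space L] in
lemma continuous_Ψ : Continuous H.Ψ := by
  have : H.Ψ = fun x => (H.xi x : ℂ) + ((H.xi x * H.Y x : ℝ) : ℂ) * Complex.I := by
    ext x
    apply Complex.ext <;> simp [Ψ]
  rw [this]
  exact (Complex.continuous_ofReal.comp H.continuous_xi).add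
    ((Complex.continuous_ofReal.comp (H.continuous_xi.mul H.cY)).mul continuous_const)

omit [T2Space L] in
lemma xi_pos {x : L} (hx : 0 < H.X x) : 0 < H.xi x :=
  Real.rpow_pos_of_pos (abs_pos.2 hx.ne') _

omit [T2Space L] in
lemma xi_flow (t : ℝ) (x : L) : H.xi (H.φ t x) = Real.exp (H.mu * t) * H.xi x := by
  unfold xi
  rw [H.eX, abs_mul, abs_of_pos (Real.exp_pos _), Real.mul_rpow (Real.exp_pos _).le (abs_nonneg _),
    ← Real.exp_mul]
  congr 2
  have := H.hlam.ne'
  unfold r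
  field_simp

omit [T2Space L] in
lemma W_flow (t : ℝ) (x : L) : (H.Ψ (H.φ t x)).im = (H.Ψ x).im := by
  simp only [Ψ]
  rw [H.xi_flow, H.eY, Real.exp_neg]
  field_simp

/-- inverse of the change of coordinates -/
noncomputable def K (z : ℂ) : ℝ × ℝ := (z.re ^ (1 / H.r), z.im / z.re)

omit [T2Space L] in
lemma K_Ψ {x : L} (hx : 0 < H.X x) : H.K (H.Ψ x) = (H.X x, H.Y x) := by
  have h1 := H.xi_pos hx
  simp only [K, Ψ, Prod.mk.injEq]
  constructor
  · unfold xi
    rw [abs_of_pos hx, ← Real.rpow_mul hx.le, mul_one_div_cancel H.r_pos.ne', Real.rpow_one]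
  · rw [mul_div_cancel_left₀ _ h1.ne']

omit [T2Space L] in
lemma Ψ_of_K {z : ℂ} (hz : 0 < z.re) {x : L} (hx : (H.X x, H.Y x) = H.K z) : H.Ψ x = z := by
  simp only [K, Prod.mk.injEq] at hx
  have h0 : 0 ≤ z.re ^ (1 / H.r) := Real.rpow_nonneg hz.le _
  have h1 : H.xi x = z.re := by
    unfold xi
    rw [hx.1, abs_of_nonneg h0, ← Real.rpow_mul hz.le, one_div_mul_cancel H.r_pos.ne',
      Real.rpow_one]
  apply Complex.ext
  · exact h1
  · simp only [Ψ]
    rw [h1, hx.2]
    field_simp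

omit [T2Space L] in
lemma Ψ_open {V : Set L} (hV : IsOpen V) (hVX : ∀ x ∈ V, 0 < H.X x) : IsOpen (H.Ψ '' V) := by
  rw [isOpen_iff_mem_nhds]
  rintro _ ⟨x, hxV, rfl⟩
  have hx := hVX x hxV
  have hre : 0 < (H.Ψ x).re := H.xi_pos hx
  have h1 : (fun y => (H.X y, H.Y y)) '' V ∈ 𝓝 (H.X x, H.Y x) :=
    H.opn x (Or.inl hx.ne') (image_mem_map (hV.mem_nhds hxV))
  rw [← H.K_Ψ hx] at h1
  have hK : ContinuousAt H.K (H.Ψ x) := by
    unfold K
    refine ContinuousAt.prodMk ?_ ?_
    · exact (Complex.continuous_re.continuousAt).rpow_const (Or.inl hre.ne')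
    · exact (Complex.continuous_im.continuousAt).div (Complex.continuous_re.continuousAt) hre.ne'
  have h2 := hK.preimage_mem_nhds h1
  have h3 : {z : ℂ | 0 < z.re} ∈ 𝓝 (H.Ψ x) :=
    (isOpen_lt continuous_const Complex.continuous_re).mem_nhds hre
  filter_upwards [h2, h3] with z hz hz0
  obtain ⟨y, hyV, hy⟩ := hz
  exact ⟨y, hyV, H.Ψ_of_K hz0 hy⟩

lemma Ψ_injOn {S : Set L} (hS : IsPreconnected S) (hSX : ∀ x ∈ S, 0 < H.X x) : InjOn H.Ψ S := by
  intro x hx y hy hxy
  refine H.injOn_of_preconnected hS hSX hx hy ?_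
  simp only
  rw [← H.K_Ψ (hSX x hx), ← H.K_Ψ (hSX y hy), hxy]

/-- the half plane `X > 0` -/
def P : Set L := {x | 0 < H.X x}

omit [T2Space L] in
lemma isOpen_P : IsOpen H.P := isOpen_lt continuous_const H.cX

omit [T2Space L] in
lemma pos_of_mem {x y : L} (hy : y ∈ connectedComponentIn H.P x) : 0 < H.X y :=
  connectedComponentIn_subset H.P x hy

omit [T2Space L] in
lemma flow_mem {x y : L} (hy : y ∈ connectedComponentIn H.P x) (t : ℝ) :
    H.φ t y ∈ connectedComponentIn H.P x := by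
  have hyP : y ∈ H.P := connectedComponentIn_subset _ _ hy
  rw [connectedComponentIn_eq hy]
  have h1 : IsPreconnected ((fun s : ℝ => H.φ s y) '' univ) := by
    refine isPreconnected_univ.image _ (Continuous.continuousOn ?_)
    have : Continuous fun s : ℝ => (s, y) := by fun_prop
    exact H.cφ.comp this
  refine h1.subset_connectedComponentIn ⟨0, trivial, H.φ0 y⟩ ?_ ⟨t, trivial, rfl⟩
  rintro _ ⟨s, -, rfl⟩
  change 0 < H.X (H.φ s y)
  rw [H.eX]
  exact mul_pos (Real.exp_pos _) hyP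

omit [T2Space L] in
lemma image_Ψ (x : L) : H.Ψ '' connectedComponentIn H.P x =
    {z : ℂ | 0 < z.re ∧ z.im ∈ (fun y => (H.Ψ y).im) '' connectedComponentIn H.P x} := by
  ext z
  constructor
  · rintro ⟨y, hy, rfl⟩
    exact ⟨H.xi_pos (H.pos_of_mem hy), ⟨y, hy, rfl⟩⟩
  · rintro ⟨hz, ⟨y, hy, hyz⟩⟩
    have hyX : 0 < H.X y := H.pos_of_mem hy
    have hxi := H.xi_pos hyX
    refine ⟨H.φ (Real.log (z.re / H.xi y) / H.mu) y, H.flow_mem hy _, ?_⟩
    apply Complex.ext
    · simp only [Ψ]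
      rw [H.xi_flow, mul_div_cancel₀ _ H.hmu.ne', Real.exp_log (by positivity)]
      field_simp
    · rw [H.W_flow]
      exact hyz

omit [T2Space L] in
lemma convex_W (x : L) : Convex ℝ ((fun y => (H.Ψ y).im) '' connectedComponentIn H.P x) := by
  have h1 : IsPreconnected ((fun y => (H.Ψ y).im) '' connectedComponentIn H.P x) :=
    isPreconnected_connectedComponentIn.image _
      (Complex.continuous_im.comp H.continuous_Ψ).continuousOn
  exact h1.ordConnected.convex

omit [T2Space L] in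
lemma convex_image (x : L) : Convex ℝ (H.Ψ '' connectedComponentIn H.P x) := by
  rw [H.image_Ψ]
  have h1 : Convex ℝ {z : ℂ | 0 < z.re} :=
    convex_halfSpace_gt (f := fun z : ℂ => z.re) ⟨by simp, by simp⟩ _
  exact h1.inter ((H.convex_W x).is_linear_preimage (f := fun z : ℂ => z.im)
    ⟨by simp, by simp⟩)

variable [LocallyConnectedSpace L]

lemma isSq_component {x : L} (hx : x ∈ H.P) (u : C(L, Circle)) :
    IsSq u (connectedComponentIn H.P x) := by
  have hsub : connectedComponentIn H.P x ⊆ H.P := connectedComponentIn_subset _ _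
  exact isSq_of_convex_image H.isOpen_P.connectedComponentIn ⟨x, mem_connectedComponentIn hx⟩
    H.continuous_Ψ.continuousOn (H.Ψ_injOn isPreconnected_connectedComponentIn hsub)
    (fun V hV hVC => H.Ψ_open hV (fun y hy => hsub (hVC hy))) (H.convex_image x) u

lemma preconnected_inter {x : L} {T : Set ℂ} (hT : Convex ℝ T) :
    IsPreconnected (connectedComponentIn H.P x ∩ H.Ψ ⁻¹' T) := by
  have hsub : connectedComponentIn H.P x ⊆ H.P := connectedComponentIn_subset _ _
  have h1 := preconnected_inter_preimage (A := T ∩ H.Ψ '' connectedComponentIn H.P x)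
    (H.Ψ_injOn isPreconnected_connectedComponentIn hsub)
    (fun V hV hVC => H.Ψ_open hV (fun y hy => hsub (hVC hy)))
    H.isOpen_P.connectedComponentIn (hT.inter (H.convex_image x)).isPreconnected
    inter_subset_right
  convert h1 using 1
  ext y
  constructor
  · rintro ⟨h1, h2⟩
    exact ⟨h1, h2, ⟨y, h1, rfl⟩⟩
  · rintro ⟨h1, h2, -⟩
    exact ⟨h1, h2⟩

/-- the box -/
def box (δ : ℝ) : Set L := {x | |H.X x| < δ ∧ |H.Y x| < δ}

omit [T2Space L] [LocallyConnectedSpace L] in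
lemma mem_box_iff {δ : ℝ} (hδ : 0 < δ) {x : L} (hx : x ∈ H.P) : x ∈ H.box δ ↔
    (H.Ψ x).re < δ ^ H.r ∧ (H.Ψ x).im - δ * (H.Ψ x).re < 0 ∧
      -(H.Ψ x).im - δ * (H.Ψ x).re < 0 := by
  have hx' : 0 < H.X x := hx
  have hxi := H.xi_pos hx'
  unfold box
  simp only [mem_ofPred_eq, Ψ]
  have h1 : |H.X x| < δ ↔ H.xi x < δ ^ H.r := by
    unfold xi
    rw [Real.rpow_lt_rpow_iff (abs_nonneg _) hδ.le H.r_pos]
  rw [h1, abs_lt]
  refine and_congr_right fun _ => ?_
  constructor
  · rintro ⟨h2, h3⟩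
    constructor <;> nlinarith
  · rintro ⟨h2, h3⟩
    constructor
    · by_contra hcon
      push Not at hcon
      nlinarith
    · by_contra hcon
      push Not at hcon
      nlinarith

lemma preconnected_box {δ : ℝ} (hδ : 0 < δ) (x : L) :
    IsPreconnected (connectedComponentIn H.P x ∩ H.box δ) := by
  have hconv : Convex ℝ {z : ℂ | z.re < δ ^ H.r ∧ z.im - δ * z.re < 0 ∧
      -z.im - δ * z.re < 0} := by
    have h1 : Convex ℝ {z : ℂ | z.re < δ ^ H.r} :=
      convex_halfSpace_lt (f := fun z : ℂ => z.re) ⟨by simp, by simp⟩ _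
    have h2 : Convex ℝ {z : ℂ | z.im - δ * z.re < 0} :=
      convex_halfSpace_lt (f := fun z : ℂ => z.im - δ * z.re)
        ⟨by intro a b; simp; ring, by intro a b; simp; ring⟩ _
    have h3 : Convex ℝ {z : ℂ | -z.im - δ * z.re < 0} :=
      convex_halfSpace_lt (f := fun z : ℂ => -z.im - δ * z.re)
        ⟨by intro a b; simp; ring, by intro a b; simp; ring⟩ _
    exact h1.inter (h2.inter h3)
  have h := H.preconnected_inter (x := x) hconv
  convert h using 1
  ext y
  constructor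
  · rintro ⟨h1, h2⟩
    exact ⟨h1, (H.mem_box_iff hδ (connectedComponentIn_subset _ _ h1)).1 h2⟩
  · rintro ⟨h1, h2⟩
    exact ⟨h1, (H.mem_box_iff hδ (connectedComponentIn_subset _ _ h1)).2 h2⟩

lemma preconnected_quadrant (x : L) :
    IsPreconnected (connectedComponentIn H.P x ∩ {y | 0 < H.Y y}) := by
  have hconv : Convex ℝ {z : ℂ | 0 < z.im} :=
    convex_halfSpace_gt (f := fun z : ℂ => z.im) ⟨by simp, by simp⟩ _
  have h := H.preconnected_inter (x := x) hconv
  convert h using 1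
  ext y
  constructor
  · rintro ⟨h1, h2⟩
    exact ⟨h1, mul_pos (H.xi_pos (H.pos_of_mem h1)) h2⟩
  · rintro ⟨h1, h2⟩
    exact ⟨h1, (pos_iff_pos_of_mul_pos h2).1 (H.xi_pos (H.pos_of_mem h1))⟩

/-- either the component is everything or its quadrant part meets the box -/
lemma dichotomy [PreconnectedSpace L] {δ : ℝ} (hδ : 0 < δ) {x : L} (hx : x ∈ H.P)
    (hy : 0 < H.Y x) (hne : connectedComponentIn H.P x ≠ univ) :
    (connectedComponentIn H.P x ∩ {y | 0 < H.Y y} ∩ H.box δ).Nonempty := by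
  by_contra hcon
  rw [not_nonempty_iff_eq_empty] at hcon
  set C := connectedComponentIn H.P x with hC
  set c : ℝ := δ * δ ^ H.r with hc
  have hδr : 0 < δ ^ H.r := Real.rpow_pos_of_pos hδ _
  have hc0 : 0 < c := mul_pos hδ hδr
  have h1 : ∀ w ∈ (fun y => (H.Ψ y).im) '' C, 0 < w → c ≤ w := by
    intro w hw hw0
    by_contra hlt
    push Not at hlt
    have h2 : w / δ < δ ^ H.r := by
      rw [div_lt_iff₀ hδ]
      linarith
    obtain ⟨ξ, hξ1, hξ2⟩ := exists_between h2
    have hξ0 : 0 < ξ := lt_of_le_of_lt (by positivity) hξ1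
    have hz : (⟨ξ, w⟩ : ℂ) ∈ H.Ψ '' C := by
      rw [hC, H.image_Ψ]
      exact ⟨hξ0, hw⟩
    obtain ⟨y, hyC, hyz⟩ := hz
    have hyX := H.pos_of_mem hyC
    have hre : (H.Ψ y).re = ξ := by rw [hyz]
    have him : (H.Ψ y).im = w := by rw [hyz]
    have h3 : w < δ * ξ := by
      rw [div_lt_iff₀ hδ] at hξ1
      linarith
    have hyB : y ∈ H.box δ := by
      rw [H.mem_box_iff hδ hyX, hre, him]
      refine ⟨hξ2, by linarith, ?_⟩
      have : 0 < δ * ξ := mul_pos hδ hξ0
      linarith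
    have hyY : 0 < H.Y y := by
      have h4 : 0 < H.xi y * H.Y y := by
        have : (H.Ψ y).im = H.xi y * H.Y y := rfl
        rw [← this, him]
        exact hw0
      exact (pos_iff_pos_of_mul_pos h4).1 (H.xi_pos hyX)
    have : y ∈ C ∩ {y | 0 < H.Y y} ∩ H.box δ := ⟨⟨hyC, hyY⟩, hyB⟩
    rw [hcon] at this
    exact this
  have hxC : x ∈ C := mem_connectedComponentIn hx
  have hx' : 0 < H.X x := hx
  have hWx : c ≤ (H.Ψ x).im := by
    refine h1 _ ⟨x, hxC, rfl⟩ ?_
    exact mul_pos (H.xi_pos hx') hy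
  have h2 : ∀ y ∈ C, c ≤ (H.Ψ y).im := by
    intro y hyC
    by_cases hpos : 0 < (H.Ψ y).im
    · exact h1 _ ⟨y, hyC, rfl⟩ hpos
    · exfalso
      push Not at hpos
      have hmem : c / 2 ∈ (fun y => (H.Ψ y).im) '' C := by
        have hoc := (H.convex_W x).ordConnected
        exact hoc.out ⟨y, hyC, rfl⟩ ⟨x, hxC, rfl⟩ ⟨by simp only; linarith, by simp only; linarith⟩
      have := h1 _ hmem (by linarith)
      linarith
  have h3 : closure C ⊆ H.P := by
    have hcl : IsClosed {y : L | 0 ≤ H.X y ∧ c ≤ (H.Ψ y).im} :=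
      (isClosed_le continuous_const H.cX).inter
        (isClosed_le continuous_const (Complex.continuous_im.comp H.continuous_Ψ))
    have h4 : closure C ⊆ {y : L | 0 ≤ H.X y ∧ c ≤ (H.Ψ y).im} :=
      closure_minimal (fun y hyC => ⟨(H.pos_of_mem hyC).le, h2 y hyC⟩) hcl
    intro y hy'
    obtain ⟨h5, h6⟩ := h4 hy'
    refine lt_of_le_of_ne h5 ?_
    intro h0
    have h7 : (H.Ψ y).im = 0 := by
      simp only [Ψ, xi]
      rw [← h0, abs_zero, Real.zero_rpow H.r_pos.ne', zero_mul]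
    rw [h7] at h6
    linarith
  have h4 : closure C ⊆ C :=
    (isPreconnected_connectedComponentIn.closure).subset_connectedComponentIn
      (subset_closure hxC) h3
  have h5 : IsClosed C := isClosed_of_closure_subset h4
  exact hne (IsClopen.eq_univ ⟨h5, H.isOpen_P.connectedComponentIn⟩ ⟨x, hxC⟩)

/-- normalised square roots on the half plane -/
lemma half {δ : ℝ} (hδ : 0 < δ) (u : C(L, Circle)) {σ : L → Circle} {B : Set L}
    (hB : H.box δ = B) (hσ : ContinuousOn σ B) (hσu : ∀ p ∈ B, σ p ^ 2 = u p) :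
    ∃ s : L → Circle, ContinuousOn s H.P ∧ (∀ p ∈ H.P, s p ^ 2 = u p) ∧
      ∀ p ∈ H.P ∩ B, s p = σ p := by
  subst hB
  exact glue_components H.isOpen_P hσ hσu (fun x hx => H.isSq_component hx u)
    (fun x _ => H.preconnected_box hδ x)

omit [T2Space L] [LocallyConnectedSpace L] in
lemma swap_P : H.swap.P = {x | 0 < H.Y x} := rfl

lemma consistent [PreconnectedSpace L] {δ : ℝ} (hδ : 0 < δ) (u : C(L, Circle))
    {σ s s' : L → Circle} {B : Set L} (hB : H.box δ = B)
    (hne : ∀ x ∈ H.P, connectedComponentIn H.P x ≠ univ)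
    (h1 : ContinuousOn s H.P) (h2 : ∀ p ∈ H.P, s p ^ 2 = u p) (h3 : ∀ p ∈ H.P ∩ B, s p = σ p)
    (h1' : ContinuousOn s' H.swap.P) (h2' : ∀ p ∈ H.swap.P, s' p ^ 2 = u p)
    (h3' : ∀ p ∈ H.swap.P ∩ B, s' p = σ p) {x : L} (hx : 0 < H.X x) (hy : 0 < H.Y x) :
    s x = s' x := by
  subst hB
  have hxP : x ∈ H.P := hx
  have hsub : connectedComponentIn H.P x ∩ {y | 0 < H.Y y} ⊆ H.P :=
    fun y hy => H.pos_of_mem hy.1
  have hsub' : connectedComponentIn H.P x ∩ {y | 0 < H.Y y} ⊆ H.swap.P := fun y hy => hy.2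
  obtain ⟨c, hc, hcs⟩ := sign_const (H.preconnected_quadrant x) (h1.mono hsub) (h1'.mono hsub')
    (fun p hp => by rw [h2 p (hsub hp), h2' p (hsub' hp)])
  obtain ⟨q, hq1, hq2⟩ := H.dichotomy hδ hxP hy (hne x hxP)
  have e1 := hcs q hq1
  rw [h3 q ⟨hsub hq1, hq2⟩, h3' q ⟨hsub' hq1, hq2⟩] at e1
  have hc1 : c = 1 := by
    have : c * σ q = 1 * σ q := by rw [one_mul]; exact e1.symm
    exact mul_right_cancel this
  have e2 := hcs x ⟨mem_connectedComponentIn hxP, hy⟩
  rw [hc1, one_mul] at e2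
  exact e2

theorem isSq_univ [PreconnectedSpace L] (u : C(L, Circle)) {δ : ℝ} (hδ : 0 < δ)
    (hB : IsSq u (H.box δ)) : IsSq u univ := by
  classical
  by_cases hne1 : ∀ x ∈ H.P, connectedComponentIn H.P x ≠ univ
  swap
  · push Not at hne1
    obtain ⟨x, hx, hxu⟩ := hne1
    rw [← hxu]
    exact H.isSq_component hx u
  by_cases hne2 : ∀ x ∈ H.negX.P, connectedComponentIn H.negX.P x ≠ univ
  swap
  · push Not at hne2
    obtain ⟨x, hx, hxu⟩ := hne2
    rw [← hxu]
    exact H.negX.isSq_component hx u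
  obtain ⟨σ, hσ, hσu⟩ := hB
  set B := H.box δ with hBdef
  have b2 : H.negX.box δ = B := by
    ext x
    change |-H.X x| < δ ∧ |H.Y x| < δ ↔ |H.X x| < δ ∧ |H.Y x| < δ
    rw [abs_neg]
  have b3 : H.swap.box δ = B := by
    ext x
    change |H.Y x| < δ ∧ |H.X x| < δ ↔ |H.X x| < δ ∧ |H.Y x| < δ
    rw [and_comm]
  have b4 : H.swap.negX.box δ = B := by
    ext x
    change |-H.Y x| < δ ∧ |H.X x| < δ ↔ |H.X x| < δ ∧ |H.Y x| < δ
    rw [abs_neg, and_comm]
  have b5 : H.negY.box δ = B := by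
    ext x
    change |H.X x| < δ ∧ |-H.Y x| < δ ↔ |H.X x| < δ ∧ |H.Y x| < δ
    rw [abs_neg]
  have b6 : H.negX.negY.box δ = B := by
    ext x
    change |-H.X x| < δ ∧ |-H.Y x| < δ ↔ |H.X x| < δ ∧ |H.Y x| < δ
    rw [abs_neg, abs_neg]
  obtain ⟨s1, c1, q1, n1⟩ := H.half hδ u rfl hσ hσu
  obtain ⟨s2, c2, q2, n2⟩ := H.negX.half hδ u b2 hσ hσu
  obtain ⟨s3, c3, q3, n3⟩ := H.swap.half hδ u b3 hσ hσu
  obtain ⟨s4, c4, q4, n4⟩ := H.swap.negX.half hδ u b4 hσ hσu
  have e13 : ∀ x, 0 < H.X x → 0 < H.Y x → s1 x = s3 x := fun x hx hy =>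
    H.consistent hδ u rfl hne1 c1 q1 n1 c3 q3 n3 hx hy
  have e14 : ∀ x, 0 < H.X x → H.Y x < 0 → s1 x = s4 x := fun x hx hy =>
    H.negY.consistent hδ u b5 hne1 c1 q1 n1 c4 q4 n4 hx (by
      change 0 < -H.Y x
      linarith)
  have e23 : ∀ x, H.X x < 0 → 0 < H.Y x → s2 x = s3 x := fun x hx hy =>
    H.negX.consistent hδ u b2 hne2 c2 q2 n2 c3 q3 n3 (by
      change 0 < -H.X x
      linarith) hy
  have e24 : ∀ x, H.X x < 0 → H.Y x < 0 → s2 x = s4 x := fun x hx hy =>
    H.negX.negY.consistent hδ u b6 hne2 c2 q2 n2 c4 q4 n4 (by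
      change 0 < -H.X x
      linarith) (by
      change 0 < -H.Y x
      linarith)
  have o1 : IsOpen {x | 0 < H.X x} := isOpen_lt continuous_const H.cX
  have o2 : IsOpen {x | H.X x < 0} := isOpen_lt H.cX continuous_const
  have o3 : IsOpen {x | 0 < H.Y x} := isOpen_lt continuous_const H.cY
  have o4 : IsOpen {x | H.Y x < 0} := isOpen_lt H.cY continuous_const
  have oB : IsOpen B := (isOpen_lt H.cX.abs continuous_const).inter
    (isOpen_lt H.cY.abs continuous_const)
  have P2 : ∀ x, H.X x < 0 → x ∈ H.negX.P := fun x hx => by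
    change 0 < -H.X x
    linarith
  have P4 : ∀ x, H.Y x < 0 → x ∈ H.swap.negX.P := fun x hx => by
    change 0 < -H.Y x
    linarith
  set s : L → Circle := fun x => if x ∈ B then σ x else if 0 < H.X x then s1 x else
    if H.X x < 0 then s2 x else if 0 < H.Y x then s3 x else s4 x with hs
  have sB : ∀ x ∈ B, s x = σ x := fun x hx => by simp only [hs, hx, if_true]
  have t1 : ∀ x, 0 < H.X x → s x = s1 x := by
    intro x hx
    by_cases hxB : x ∈ B
    · rw [sB x hxB, n1 x ⟨hx, hxB⟩]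
    · simp only [hs, hxB, hx, if_false, if_true]
  have t2 : ∀ x, H.X x < 0 → s x = s2 x := by
    intro x hx
    by_cases hxB : x ∈ B
    · rw [sB x hxB, n2 x ⟨P2 x hx, hxB⟩]
    · have : ¬ 0 < H.X x := by linarith
      simp only [hs, hxB, hx, this, if_false, if_true]
  have t3 : ∀ x, 0 < H.Y x → s x = s3 x := by
    intro x hx
    by_cases hxB : x ∈ B
    · rw [sB x hxB, n3 x ⟨hx, hxB⟩]
    · rcases lt_trichotomy (H.X x) 0 with h | h | h
      · rw [t2 x h, e23 x h hx]
      · have h5 : ¬ 0 < H.X x := by linarith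
        have h6 : ¬ H.X x < 0 := by linarith
        simp only [hs, hxB, hx, h5, h6, if_false, if_true]
      · rw [t1 x h, e13 x h hx]
  have t4 : ∀ x, H.Y x < 0 → s x = s4 x := by
    intro x hx
    by_cases hxB : x ∈ B
    · rw [sB x hxB, n4 x ⟨P4 x hx, hxB⟩]
    · rcases lt_trichotomy (H.X x) 0 with h | h | h
      · rw [t2 x h, e24 x h hx]
      · have h5 : ¬ 0 < H.X x := by linarith
        have h6 : ¬ H.X x < 0 := by linarith
        have h7 : ¬ 0 < H.Y x := by linarith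
        simp only [hs, hxB, h5, h6, h7, if_false]
      · rw [t1 x h, e14 x h hx]
  have cover : ∀ x, x ∈ B ∨ 0 < H.X x ∨ H.X x < 0 ∨ 0 < H.Y x ∨ H.Y x < 0 := by
    intro x
    rcases lt_trichotomy (H.X x) 0 with h | h | h
    · exact Or.inr (Or.inr (Or.inl h))
    · rcases lt_trichotomy (H.Y x) 0 with h' | h' | h'
      · exact Or.inr (Or.inr (Or.inr (Or.inr h')))
      · left
        change |H.X x| < δ ∧ |H.Y x| < δ
        rw [h, h', abs_zero]
        exact ⟨hδ, hδ⟩
      · exact Or.inr (Or.inr (Or.inr (Or.inl h')))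
    · exact Or.inr (Or.inl h)
  refine ⟨s, ?_, ?_⟩
  · intro x _
    refine ContinuousAt.continuousWithinAt ?_
    rcases cover x with h | h | h | h | h
    · refine (hσ.continuousAt (oB.mem_nhds h)).congr ?_
      filter_upwards [oB.mem_nhds h] with y hy using (sB y hy).symm
    · refine (c1.continuousAt (o1.mem_nhds h)).congr ?_
      filter_upwards [o1.mem_nhds h] with y hy using (t1 y hy).symm
    · refine ContinuousAt.congr (c2.continuousAt ?_) ?_
      · filter_upwards [o2.mem_nhds h] with y hy using P2 y hy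
      · filter_upwards [o2.mem_nhds h] with y hy using (t2 y hy).symm
    · refine (c3.continuousAt (o3.mem_nhds h)).congr ?_
      filter_upwards [o3.mem_nhds h] with y hy using (t3 y hy).symm
    · refine ContinuousAt.congr (c4.continuousAt ?_) ?_
      · filter_upwards [o4.mem_nhds h] with y hy using P4 y hy
      · filter_upwards [o4.mem_nhds h] with y hy using (t4 y hy).symm
  · intro x _
    rcases cover x with h | h | h | h | h
    · rw [sB x h, hσu x h]
    · rw [t1 x h, q1 x h]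
    · rw [t2 x h, q2 x (P2 x h)]
    · rw [t3 x h, q3 x h]
    · rw [t4 x h, q4 x (P4 x h)]

end Hyp

end LadderVeech
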