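import Pool.Agent.LadderVeech.LVDefs

/-!
LV01. Basic rules for straight moves `Mv ω O v s p q` (definition in LVDefs: a curve `γ` on an open
interval `J ∋ 0, s`, continuous, in `O`, with `e (γ u) = e (γ t) + (u - t) v` near every `t ∈ J` for
every chart `e` at `γ t`).

PROOFS.
* `refl`: chart `e` at `p` (ω.covers, since `p ∈ O ⊆ singᶜ`), `γ u = e.symm (e p + u v)` on a small
  interval `(-ε, ε)` (so that `e p + u v ∈ e.target` and `γ u ∈ O`); for another chart `e'` at `γ t` use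
  ω.compatible (difference locally constant).
* `unique'`: two curves `γ, γ'` as in the definition on an open interval `J` which agree at one point
  agree on `J`: `{t ∈ J | γ t = γ' t}` is closed in `J` (T2) and open (chart `e` at `γ t = γ' t`,
  `e` injective on its source, both curves are in the source near `t`). `J` is preconnected
  (OrdConnected). E.g. apply `IsPreconnected.subset_of_closure_inter_subset` /
  `isPreconnected_iff_subset_of_disjoint` or `IsPreconnected.induction`-style lemmas.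
* `symm`: shift the parameter by `s`: `γ' u = γ (u + s)` on `J - s`.
* `trans`: `γ'' u = if u ∈ J then γ u else γ' (u - s)` on `J ∪ (J' + s)`; both `J` and `J' + s` are open
  intervals containing `s`, the curves agree on the intersection by `unique'`.
* `smul`: reparametrise, `γ' u = γ (c u)`.
* `map`: compose with `f`; local rule from IsAffine (charts at `f (γ t)` and at `γ t`).
* `seg`: restrict to `[0, s]` and rescale to `[0,1]` (if `s = 0` then `p = q`, first alternative of Seg).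
* `between`: same curve, stop at time `t`, then shift.
-/

open Set Filter Topology

namespace LadderVeech

variable {S : Type*} [TopologicalSpace S] {ω : TranslationStructure S} {O : Set S} {v : ℂ}
  {s t : ℝ} {p q r : S}

private lemma LV01_reparam {J : Set ℝ} (hJ : IsOpen J) (hJ' : J.OrdConnected) {γ : ℝ → S}
    (hγ : ContinuousOn γ J)
    (h : ∀ t ∈ J, γ t ∈ O ∧ ∀ e ∈ ω.atlas, γ t ∈ e.source →
        ∀ᶠ u in 𝓝 t, e (γ u) = e (γ t) + ((u - t : ℝ) : ℂ) * v) (c d : ℝ) :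
    IsOpen ((fun u : ℝ => c * u + d) ⁻¹' J) ∧ ((fun u : ℝ => c * u + d) ⁻¹' J).OrdConnected ∧
      ContinuousOn (fun u : ℝ => γ (c * u + d)) ((fun u : ℝ => c * u + d) ⁻¹' J) ∧
      ∀ t ∈ (fun u : ℝ => c * u + d) ⁻¹' J, γ (c * t + d) ∈ O ∧ ∀ e ∈ ω.atlas,
        γ (c * t + d) ∈ e.source → ∀ᶠ u in 𝓝 t, e (γ (c * u + d)) =
          e (γ (c * t + d)) + ((u - t : ℝ) : ℂ) * ((c : ℂ) * v) := by
  have hcont : Continuous (fun u : ℝ => c * u + d) := by fun_prop
  refine ⟨hJ.preimage hcont, ?_, hγ.comp hcont.continuousOn (fun u hu => hu), ?_⟩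
  · rcases le_total 0 c with hc | hc
    · exact hJ'.preimage_mono (fun a b hab => by
        have := mul_le_mul_of_nonneg_left hab hc
        simpa using this)
    · exact hJ'.preimage_anti (fun a b hab => by
        have := mul_le_mul_of_nonpos_left hab hc
        simpa using this)
  · intro t ht
    obtain ⟨h1, h2⟩ := h _ ht
    refine ⟨h1, fun e he hte => ?_⟩
    have h3 := (hcont.tendsto t).eventually (h2 e he hte)
    filter_upwards [h3] with u hu
    rw [hu]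
    push_cast
    ring

lemma Mv.refl (hO : IsOpen O) (hOs : O ⊆ ω.singᶜ) (hp : p ∈ O) : Mv ω O v 0 p p := by
  obtain ⟨e, he, hpe⟩ := ω.covers p (hOs hp)
  have hU : IsOpen (e.target ∩ e.symm ⁻¹' O) := e.isOpen_inter_preimage_symm hO
  have hl : Continuous (fun u : ℝ => e p + (u : ℂ) * v) := by fun_prop
  have h0 : (fun u : ℝ => e p + (u : ℂ) * v) 0 ∈ e.target ∩ e.symm ⁻¹' O := by
    simp only [Complex.ofReal_zero, zero_mul, add_zero]
    exact ⟨e.map_source hpe, by simpa [e.left_inv hpe] using hp⟩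
  obtain ⟨ε, hε, hsub⟩ := Metric.isOpen_iff.1 (hU.preimage hl) 0 h0
  have hcont : ContinuousOn (fun u : ℝ => e.symm (e p + (u : ℂ) * v)) (Metric.ball 0 ε) :=
    e.continuousOn_symm.comp hl.continuousOn (fun u hu => (hsub hu).1)
  refine ⟨Metric.ball 0 ε, Metric.isOpen_ball, (convex_ball (0:ℝ) ε).ordConnected,
    Metric.mem_ball_self hε, Metric.mem_ball_self hε,
    fun u => e.symm (e p + (u : ℂ) * v), hcont, ?_, ?_, ?_⟩
  · simp [e.left_inv hpe]
  · simp [e.left_inv hpe]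
  · intro t ht
    refine ⟨(hsub ht).2, fun e' he' hte => ?_⟩
    have hts : e.symm (e p + (t : ℂ) * v) ∈ e.source := e.map_target (hsub ht).1
    obtain ⟨c, hc⟩ := ω.compatible e he e' he' _ ⟨hts, hte⟩
    have hct : ContinuousAt (fun u : ℝ => e.symm (e p + (u : ℂ) * v)) t :=
      hcont.continuousAt (Metric.isOpen_ball.mem_nhds ht)
    have h1 := hct.eventually hc
    have h2 := hc.self_of_nhds
    filter_upwards [h1, Metric.isOpen_ball.mem_nhds ht] with u hu hub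
    rw [hu, h2, e.right_inv (hsub ht).1, e.right_inv (hsub hub).1]
    push_cast
    ring

lemma Mv.left_mem (h : Mv ω O v s p q) : p ∈ O := by
  obtain ⟨J, -, -, h0, -, γ, -, rfl, -, h⟩ := h
  exact (h 0 h0).1

lemma Mv.right_mem (h : Mv ω O v s p q) : q ∈ O := by
  obtain ⟨J, -, -, -, hs, γ, -, -, rfl, h⟩ := h
  exact (h s hs).1

lemma Mv.mono {O' : Set S} (h : Mv ω O v s p q) (hO : O ⊆ O') : Mv ω O' v s p q := by
  obtain ⟨J, h1, h2, h3, h4, γ, h5, h6, h7, h⟩ := h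
  exact ⟨J, h1, h2, h3, h4, γ, h5, h6, h7, fun t ht => ⟨hO (h t ht).1, (h t ht).2⟩⟩

lemma Mv.symm (h : Mv ω O v s p q) : Mv ω O v (-s) q p := by
  obtain ⟨J, h1, h2, h3, h4, γ, h5, h6, h7, h⟩ := h
  obtain ⟨k1, k2, k3, k4⟩ := LV01_reparam h1 h2 h5 h 1 s
  refine ⟨_, k1, k2, by simpa using h4, by simpa using h3, _, k3, by simpa using h7,
    by simpa using h6, fun t ht => ?_⟩
  have := k4 t ht
  simpa only [Complex.ofReal_one, one_mul] using this

/-- two straight curves with the same velocity which agree at one point agree -/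
lemma curve_unique [T2Space S] (hOs : O ⊆ ω.singᶜ) {J : Set ℝ} (hJ : IsOpen J)
    (hJ' : J.OrdConnected) {γ γ' : ℝ → S} (hγ : ContinuousOn γ J) (hγ' : ContinuousOn γ' J)
    (h : ∀ t ∈ J, γ t ∈ O ∧ ∀ e ∈ ω.atlas, γ t ∈ e.source →
        ∀ᶠ u in 𝓝 t, e (γ u) = e (γ t) + ((u - t : ℝ) : ℂ) * v)
    (h' : ∀ t ∈ J, γ' t ∈ O ∧ ∀ e ∈ ω.atlas, γ' t ∈ e.source →
        ∀ᶠ u in 𝓝 t, e (γ' u) = e (γ' t) + ((u - t : ℝ) : ℂ) * v)
    {t₀ : ℝ} (ht₀ : t₀ ∈ J) (heq : γ t₀ = γ' t₀) : ∀ t ∈ J, γ t = γ' t := by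
  have hconn : IsPreconnected J := hJ'.isPreconnected
  have hA : IsOpen {t | t ∈ J ∧ γ t = γ' t} := by
    rw [isOpen_iff_mem_nhds]
    rintro t ⟨htJ, hte⟩
    obtain ⟨e, he, hpe⟩ := ω.covers (γ t) (hOs (h t htJ).1)
    have hpe' : γ' t ∈ e.source := hte ▸ hpe
    have c1 : ContinuousAt γ t := hγ.continuousAt (hJ.mem_nhds htJ)
    have c2 : ContinuousAt γ' t := hγ'.continuousAt (hJ.mem_nhds htJ)
    filter_upwards [hJ.mem_nhds htJ, (h t htJ).2 e he hpe, (h' t htJ).2 e he hpe',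
      c1.preimage_mem_nhds (e.open_source.mem_nhds hpe),
      c2.preimage_mem_nhds (e.open_source.mem_nhds hpe')] with u hu1 hu2 hu3 hu4 hu5
    refine ⟨hu1, e.injOn hu4 hu5 ?_⟩
    rw [hu2, hu3, hte]
  have hB : IsOpen {t | t ∈ J ∧ γ t ≠ γ' t} := by
    rw [isOpen_iff_mem_nhds]
    rintro t ⟨htJ, hte⟩
    obtain ⟨U, V, hU, hV, hxU, hyV, hUV⟩ := t2_separation hte
    have c1 : ContinuousAt γ t := hγ.continuousAt (hJ.mem_nhds htJ)
    have c2 : ContinuousAt γ' t := hγ'.continuousAt (hJ.mem_nhds htJ)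
    filter_upwards [hJ.mem_nhds htJ, c1.preimage_mem_nhds (hU.mem_nhds hxU),
      c2.preimage_mem_nhds (hV.mem_nhds hyV)] with u hu1 hu2 hu3
    exact ⟨hu1, hUV.ne_of_mem hu2 hu3⟩
  intro t ht
  by_contra hne
  obtain ⟨x, hx, hx1, hx2⟩ := hconn _ _ hA hB (fun u hu => by
    by_cases hh : γ u = γ' u
    · exact Or.inl ⟨hu, hh⟩
    · exact Or.inr ⟨hu, hh⟩) ⟨t₀, ht₀, ht₀, heq⟩ ⟨t, ht, ht, hne⟩
  exact hx2.2 hx1.2

lemma Mv.unique [T2Space S] (hOs : O ⊆ ω.singᶜ) {q' : S} (h : Mv ω O v s p q)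
    (h' : Mv ω O v s p q') : q = q' := by
  obtain ⟨J, h1, h2, h3, h4, γ, h5, h6, h7, h⟩ := h
  obtain ⟨J', h1', h2', h3', h4', γ', h5', h6', h7', h'⟩ := h'
  rw [← h7, ← h7']
  exact curve_unique hOs (h1.inter h1') (h2.inter h2') (h5.mono inter_subset_left)
    (h5'.mono inter_subset_right) (fun t ht => h t ht.1) (fun t ht => h' t ht.2) ⟨h3, h3'⟩
    (h6.trans h6'.symm) s ⟨h4, h4'⟩

lemma Mv.trans [T2Space S] (hOs : O ⊆ ω.singᶜ) (h : Mv ω O v s p q) (h' : Mv ω O v t q r) :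
    Mv ω O v (s + t) p r := by
  classical
  obtain ⟨J, h1, h2, h3, h4, γ, h5, h6, h7, h⟩ := h
  obtain ⟨J₀, g1, g2, g3, g4, γ₀, g5, g6, g7, g⟩ := h'
  obtain ⟨k1, k2, k3, k4⟩ := LV01_reparam g1 g2 g5 g 1 (-s)
  simp only [Complex.ofReal_one, one_mul] at k1 k2 k3 k4
  set J' : Set ℝ := (fun u : ℝ => u + -s) ⁻¹' J₀ with hJ'
  set γ' : ℝ → S := fun u => γ₀ (u + -s) with hγ'
  have hsJ' : s ∈ J' := by
    simp only [hJ', mem_preimage, add_neg_cancel]
    exact g3
  have hss : γ s = γ' s := by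
    simp only [hγ', add_neg_cancel]
    rw [h7, g6]
  have hagree : ∀ u ∈ J ∩ J', γ u = γ' u :=
    curve_unique hOs (h1.inter k1) (h2.inter k2) (h5.mono inter_subset_left)
      (k3.mono inter_subset_right) (fun t ht => h t ht.1) (fun t ht => k4 t ht.2) ⟨h4, hsJ'⟩ hss
  have e1 : ∀ u ∈ J, (if u ∈ J then γ u else γ' u) = γ u := fun u hu => if_pos hu
  have e2 : ∀ u ∈ J', (if u ∈ J then γ u else γ' u) = γ' u := by
    intro u hu
    by_cases hh : u ∈ J
    · rw [if_pos hh, hagree u ⟨hh, hu⟩]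
    · rw [if_neg hh]
  refine ⟨J ∪ J', h1.union k1, (IsPreconnected.union s h4 hsJ' h2.isPreconnected
    k2.isPreconnected).ordConnected, Or.inl h3, Or.inr ?_,
    fun u => if u ∈ J then γ u else γ' u, ?_, ?_, ?_, ?_⟩
  · simp only [hJ', mem_preimage]
    have : s + t + -s = t := by ring
    rw [this]
    exact g4
  · refine ContinuousOn.union_of_isOpen ?_ ?_ h1 k1
    · exact h5.congr e1
    · exact k3.congr e2
  · simp only
    rw [e1 0 h3, h6]
  · have hst : s + t ∈ J' := by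
      simp only [hJ', mem_preimage]
      have : s + t + -s = t := by ring
      rw [this]
      exact g4
    simp only
    rw [e2 _ hst, hγ']
    simp only
    have : s + t + -s = t := by ring
    rw [this, g7]
  · intro u hu
    rcases hu with hu | hu
    · simp only [e1 u hu]
      refine ⟨(h u hu).1, fun e he hte => ?_⟩
      filter_upwards [(h u hu).2 e he hte, h1.mem_nhds hu] with w hw hw'
      rw [e1 w hw', hw]
    · simp only [e2 u hu]
      refine ⟨(k4 u hu).1, fun e he hte => ?_⟩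
      filter_upwards [(k4 u hu).2 e he hte, k1.mem_nhds hu] with w hw hw'
      rw [e2 w hw', hγ']
      exact hw

lemma Mv.smul {c : ℝ} (hc : c ≠ 0) (h : Mv ω O v s p q) : Mv ω O ((c : ℂ) * v) (s / c) p q := by
  obtain ⟨J, h1, h2, h3, h4, γ, h5, h6, h7, h⟩ := h
  obtain ⟨k1, k2, k3, k4⟩ := LV01_reparam h1 h2 h5 h c 0
  refine ⟨_, k1, k2, by simpa using h3, ?_, _, k3, by simpa using h6, ?_, k4⟩
  · simp only [mem_preimage, add_zero]
    rwa [mul_div_cancel₀ _ hc]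
  · simp only [add_zero]
    rw [mul_div_cancel₀ _ hc, h7]

lemma Mv.map {f : S ≃ₜ S} {A : GL (Fin 2) ℝ} (hf : IsAffine ω f A) (hOs : O ⊆ ω.singᶜ)
    (h : Mv ω O v s p q) : Mv ω (f '' O) (act A v) s (f p) (f q) := by
  obtain ⟨J, h1, h2, h3, h4, γ, h5, h6, h7, h⟩ := h
  refine ⟨J, h1, h2, h3, h4, fun u => f (γ u), f.continuous.comp_continuousOn h5,
    by simp only [h6], by simp only [h7], fun t ht => ⟨mem_image_of_mem _ (h t ht).1,
      fun e' he' hte' => ?_⟩⟩
  have h2' : γ t ∉ ω.sing := hOs (h t ht).1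
  obtain ⟨e, he, hte⟩ := ω.covers _ h2'
  obtain ⟨c, hc⟩ := hf.2 _ h2' e he hte e' he' hte'
  have hγt : ContinuousAt γ t := h5.continuousAt (h1.mem_nhds ht)
  have h6' := hγt.eventually hc
  filter_upwards [(h t ht).2 e he hte, h6'] with s hs hs'
  have h7' : e' (f (γ t)) = act A (e (γ t)) + c := hc.self_of_nhds
  rw [hs', h7', hs, act_add, act_real_mul]
  ring

lemma Mv.seg (hOs : O ⊆ ω.singᶜ) (h : Mv ω O v s p q) : Seg ω p ((s : ℂ) * v) q := by
  obtain ⟨J, h1, h2, h3, h4, γ, h5, h6, h7, h⟩ := h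
  obtain ⟨k1, k2, k3, k4⟩ := LV01_reparam h1 h2 h5 h s 0
  have h0 : (0:ℝ) ∈ (fun u : ℝ => s * u + 0) ⁻¹' J := by simpa using h3
  have h1' : (1:ℝ) ∈ (fun u : ℝ => s * u + 0) ⁻¹' J := by simpa using h4
  have hsub := k2.out h0 h1'
  refine Or.inr ⟨fun u => γ (s * u + 0), k3.mono hsub, by simpa using h6, by simpa using h7, ?_⟩
  intro t ht
  obtain ⟨g1, g2⟩ := k4 t (hsub (Ioo_subset_Icc_self ht))
  exact ⟨hOs g1, g2⟩

lemma Mv.between (h : Mv ω O v s p q) (ht : t ∈ uIcc 0 s) :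
    ∃ r, Mv ω O v t p r ∧ Mv ω O v (s - t) r q := by
  obtain ⟨J, h1, h2, h3, h4, γ, h5, h6, h7, h⟩ := h
  have htJ : t ∈ J := h2.uIcc_subset h3 h4 ht
  refine ⟨γ t, ⟨J, h1, h2, h3, htJ, γ, h5, h6, rfl, h⟩, ?_⟩
  obtain ⟨k1, k2, k3, k4⟩ := LV01_reparam h1 h2 h5 h 1 t
  refine ⟨_, k1, k2, by simpa using htJ, ?_, _, k3, by simp, ?_, fun u hu => ?_⟩
  · simpa using h4
  · simpa using h7
  · have := k4 u hu
    simpa only [Complex.ofReal_one, one_mul] using this

/-- the end points of the moves of length between `0` and `s` form a connected set -/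
lemma Mv.exists_path (h : Mv ω O v s p q) : ∃ C : Set S, IsPreconnected C ∧ p ∈ C ∧ q ∈ C ∧
    ∀ r ∈ C, ∃ t ∈ uIcc 0 s, Mv ω O v t p r := by
  obtain ⟨J, h1, h2, h3, h4, γ, h5, h6, h7, h⟩ := h
  have hsub := h2.uIcc_subset h3 h4
  refine ⟨γ '' uIcc 0 s, isPreconnected_uIcc.image _ (h5.mono hsub), ⟨0, left_mem_uIcc, h6⟩,
    ⟨s, right_mem_uIcc, h7⟩, ?_⟩
  rintro r ⟨t, ht, rfl⟩
  exact ⟨t, ht, J, h1, h2, h3, hsub ht, γ, h5, h6, rfl, h⟩

/-- moving within a component -/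
lemma Mv.mem_comp (h : Mv ω O v s p q) : q ∈ connectedComponentIn O p := by
  obtain ⟨C, hC, hp, hq, hr⟩ := h.exists_path
  refine hC.subset_connectedComponentIn hp (fun r hrC => ?_) hq
  obtain ⟨t, -, ht⟩ := hr r hrC
  exact ht.right_mem

end LadderVeech
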