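import Pool.Agent.LadderVeech.LV01

/-!
LV02. Straight moves inside a model disc `m : Model ω p` (`m.φ p = 0`, charts are `m.φ ^ m.k + c`,
`m.disc ρ` = points of the source with `‖φ‖ ≤ m.r` and `‖φ‖^k ≤ ρ`, `m.R = m.r ^ m.k`).
-/

open Set Filter Topology

namespace LadderVeech

variable {S : Type*} [TopologicalSpace S] {ω : TranslationStructure S} {O : Set S} {v : ℂ}
  {s t : ℝ} {p q r : S}

lemma Mv.trap [T2Space S] (hOs : O ⊆ ω.singᶜ) (h : Mv ω O v s q r) (m : Model ω p) {ρ : ℝ}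
    (hq : q ∈ m.disc ρ) (hR : ρ + |s| * ‖v‖ < m.R) :
    r ∈ m.disc (ρ + |s| * ‖v‖) ∧ m.φ r ^ m.k = m.φ q ^ m.k + (s : ℂ) * v := by
  have e : ‖(s : ℂ) * v‖ = |s| * ‖v‖ := by rw [norm_mul, Complex.norm_real, Real.norm_eq_abs]
  have h1 := m.trap hq (Mv.seg hOs h) (by rw [e]; exact hR)
  rwa [e] at h1

lemma LV02_abs_le {s t : ℝ} (ht : t ∈ uIcc 0 s) : |t| ≤ |s| := by
  rcases le_total 0 s with h | h
  · rw [uIcc_of_le h] at ht
    rw [abs_of_nonneg ht.1, abs_of_nonneg h]
    exact ht.2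
  · rw [uIcc_of_ge h] at ht
    rw [abs_of_nonpos ht.2, abs_of_nonpos h]
    linarith [ht.1]

lemma LV02_slit {z v : ℂ} {s : ℝ} (hne : ∀ t ∈ uIcc 0 s, z + (t : ℂ) * v ≠ 0) {t : ℝ}
    (ht : t ∈ uIcc 0 s) : (z + (t : ℂ) * v) / z ∈ Complex.slitPlane := by
  have hz : z ≠ 0 := by
    have := hne 0 left_mem_uIcc
    simpa using this
  by_contra hcon
  rw [Complex.mem_slitPlane_iff, not_or, not_lt, not_not] at hcon
  obtain ⟨hre, him⟩ := hcon
  set c : ℝ := -((z + (t : ℂ) * v) / z).re with hc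
  have hc0 : 0 ≤ c := by linarith
  have hval : (z + (t : ℂ) * v) / z = ((-c : ℝ) : ℂ) := by
    apply Complex.ext
    · rw [Complex.ofReal_re, hc, neg_neg]
    · rw [Complex.ofReal_im, him]
  have h1 : z + (t : ℂ) * v = ((-c : ℝ) : ℂ) * z := by
    rw [← hval, div_mul_cancel₀ _ hz]
  have hc1 : (0 : ℝ) < 1 + c := by linarith
  have hc1' : (1 + (c : ℂ)) ≠ 0 := by exact_mod_cast hc1.ne'
  refine hne (t / (1 + c)) ?_ ?_
  · rcases le_total 0 s with h | h
    · rw [uIcc_of_le h] at ht ⊢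
      refine ⟨div_nonneg ht.1 hc1.le, ?_⟩
      rw [div_le_iff₀ hc1]
      nlinarith [ht.1, ht.2, mul_nonneg h hc0]
    · rw [uIcc_of_ge h] at ht ⊢
      refine ⟨?_, div_nonpos_of_nonpos_of_nonneg ht.2 hc1.le⟩
      rw [le_div_iff₀ hc1]
      nlinarith [ht.1, ht.2, mul_nonneg (neg_nonneg.2 h) hc0]
  · push_cast at h1 ⊢
    field_simp
    linear_combination h1

/-- straight moves in a model disc avoiding the centre -/
lemma Model.mv (m : Model ω p) {x : S} {ρ : ℝ} (hx : x ∈ m.disc ρ)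
    (hne : ∀ t ∈ uIcc 0 s, m.φ x ^ m.k + (t : ℂ) * v ≠ 0) (hR : ρ + |s| * ‖v‖ < m.R)
    (hO : IsOpen O) (hOm : ∀ y ∈ m.disc (ρ + |s| * ‖v‖),
      (∃ t ∈ uIcc 0 s, m.φ y ^ m.k = m.φ x ^ m.k + (t : ℂ) * v) → y ∈ O) :
    ∃ y ∈ m.disc (ρ + |s| * ‖v‖), m.φ y ^ m.k = m.φ x ^ m.k + (s : ℂ) * v ∧ Mv ω O v s x y := by
  set z : ℂ := m.φ x ^ m.k with hz
  have hz0 : z ≠ 0 := by
    have := hne 0 left_mem_uIcc
    simpa using this
  have hzρ : ‖z‖ ≤ ρ := by rw [hz, norm_pow]; exact hx.2.2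
  set w : ℝ → ℂ := fun u => (z + (u : ℂ) * v) / z with hw
  have hwc : Continuous w := by
    exact (continuous_const.add (Complex.continuous_ofReal.mul continuous_const)).div_const z
  set a : ℝ → ℂ := fun u => m.φ x * w u ^ (1 / (m.k : ℂ)) with ha
  have hk0 : (m.k : ℂ) ≠ 0 := by exact_mod_cast m.hk
  have hapow : ∀ u, a u ^ m.k = z + (u : ℂ) * v := by
    intro u
    simp only [ha]
    rw [mul_pow, ← Complex.cpow_nat_mul, mul_one_div_cancel hk0, Complex.cpow_one]
    simp only [hw]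
    rw [← hz, mul_div_cancel₀ _ hz0]
  set γ : ℝ → S := fun u => m.φ.symm (a u) with hγ
  set U₀ : Set ℝ := {u | w u ∈ Complex.slitPlane ∧ ‖z + (u : ℂ) * v‖ < m.R} with hU₀
  have hU₀o : IsOpen U₀ := by
    refine (Complex.isOpen_slitPlane.preimage hwc).inter ?_
    exact isOpen_lt (continuous_const.add
      (Complex.continuous_ofReal.mul continuous_const)).norm continuous_const
  have htar : ∀ u ∈ U₀, a u ∈ m.φ.target := by
    intro u hu
    apply m.ball
    rw [mem_closedBall_zero_iff]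
    by_contra hcon
    push Not at hcon
    have h1 : m.r ^ m.k ≤ ‖a u‖ ^ m.k := pow_le_pow_left₀ m.hr.le hcon.le _
    rw [← norm_pow, hapow] at h1
    exact absurd hu.2 (not_lt.2 h1)
  have hac : ContinuousOn a U₀ := by
    refine ContinuousOn.mul continuousOn_const ?_
    intro u hu
    refine ContinuousAt.continuousWithinAt ?_
    exact (hwc.continuousAt).cpow continuousAt_const hu.1
  have hγc : ContinuousOn γ U₀ := m.φ.symm.continuousOn.comp hac htar
  have hsrc : ∀ u ∈ U₀, γ u ∈ m.φ.source := fun u hu => m.φ.map_target (htar u hu)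
  have hφγ : ∀ u ∈ U₀, m.φ (γ u) = a u := fun u hu => m.φ.right_inv (htar u hu)
  have hI0 : ∀ u ∈ uIcc 0 s, u ∈ U₀ ∧ ‖z + (u : ℂ) * v‖ ≤ ρ + |s| * ‖v‖ := by
    intro u hu
    have h1 : ‖z + (u : ℂ) * v‖ ≤ ρ + |s| * ‖v‖ := by
      refine (norm_add_le _ _).trans ?_
      rw [norm_mul, Complex.norm_real, Real.norm_eq_abs]
      have := LV02_abs_le hu
      have := norm_nonneg v
      gcongr
    exact ⟨⟨LV02_slit hne hu, h1.trans_lt hR⟩, h1⟩
  have hdisc : ∀ u ∈ uIcc 0 s, γ u ∈ m.disc (ρ + |s| * ‖v‖) := by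
    intro u hu
    obtain ⟨h1, h2⟩ := hI0 u hu
    refine ⟨hsrc u h1, ?_, ?_⟩
    · refine (m.norm_lt_of_pow_lt (q := γ u) ?_).le
      rw [hφγ u h1, ← norm_pow, hapow]
      exact h1.2
    · rw [hφγ u h1, ← norm_pow, hapow]
      exact h2
  set U : Set ℝ := U₀ ∩ γ ⁻¹' O with hU
  have hUo : IsOpen U := hγc.isOpen_inter_preimage hU₀o hO
  have hIU : uIcc 0 s ⊆ U := by
    intro u hu
    refine ⟨(hI0 u hu).1, hOm _ (hdisc u hu) ⟨u, hu, ?_⟩⟩
    rw [hφγ u (hI0 u hu).1, hapow]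
  obtain ⟨δ, hδ, hδU⟩ := isCompact_uIcc.exists_thickening_subset_open hUo hIU
  set J : Set ℝ := Metric.thickening δ (uIcc 0 s) with hJ
  have hJo : IsOpen J := Metric.isOpen_thickening
  have hJc : J.OrdConnected := ((convex_uIcc 0 s).thickening δ).ordConnected
  have hIJ : uIcc 0 s ⊆ J := Metric.self_subset_thickening hδ _
  have h0J : (0 : ℝ) ∈ J := hIJ left_mem_uIcc
  have hsJ : s ∈ J := hIJ right_mem_uIcc
  refine ⟨γ s, hdisc s right_mem_uIcc, ?_, J, hJo, hJc, h0J, hsJ, γ,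
    hγc.mono (fun u hu => (hδU hu).1), ?_, rfl, ?_⟩
  · rw [hφγ s (hδU hsJ).1, hapow]
  · simp only [hγ, ha, hw]
    rw [Complex.ofReal_zero, zero_mul, add_zero, div_self hz0, Complex.one_cpow, mul_one,
      m.φ.left_inv hx.1]
  · intro t ht
    refine ⟨(hδU ht).2, fun e he hte => ?_⟩
    have htU := (hδU ht).1
    have hat : a t ≠ 0 := by
      intro h0
      have h1 := hapow t
      rw [h0, zero_pow m.hk] at h1
      have h2 := htU.1
      simp only [hw] at h2
      rw [← h1, zero_div] at h2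
      exact Complex.zero_notMem_slitPlane h2
    have hne' : γ t ≠ p := by
      intro hcon
      apply hat
      rw [← hφγ t htU, hcon, m.zero]
    obtain ⟨c, hc⟩ := m.chart _ (hsrc t htU) (m.reg _ (hsrc t htU) hne') e he hte
    have hγt : ContinuousAt γ t := hγc.continuousAt (hU₀o.mem_nhds htU)
    have h1 := hγt.eventually hc
    have h2 := hc.self_of_nhds
    filter_upwards [h1, hJo.mem_nhds ht] with u hu huJ
    rw [hu, h2, hφγ u (hδU huJ).1, hφγ t htU, hapow, hapow]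
    push_cast
    ring

/-- straight moves in a convex set of a chart -/
lemma LV02_chart {e : OpenPartialHomeomorph S ℂ} (he : e ∈ ω.atlas) {W : Set ℂ} (hW : IsOpen W)
    (hWc : Convex ℝ W) (hWt : W ⊆ e.target) (hWO : ∀ w ∈ W, e.symm w ∈ O) {a : ℂ} (ha : a ∈ W)
    (hb : a + (s : ℂ) * v ∈ W) : Mv ω O v s (e.symm a) (e.symm (a + (s : ℂ) * v)) := by
  have hc : Continuous fun u : ℝ => a + (u : ℂ) * v := by fun_prop
  refine ⟨(fun u : ℝ => a + (u : ℂ) * v) ⁻¹' W, hW.preimage hc, ?_, by simpa using ha, hb,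
    fun u => e.symm (a + (u : ℂ) * v), ?_, by simp, rfl, ?_⟩
  · refine Convex.ordConnected ?_
    intro x hx y hy α β hα hβ hαβ
    have h1 := hWc hx hy hα hβ hαβ
    rw [mem_preimage]
    convert h1 using 1
    simp only [smul_eq_mul, Complex.real_smul]
    push_cast
    have : (α : ℂ) + β = 1 := by exact_mod_cast hαβ
    linear_combination (-a) * this
  · exact e.symm.continuousOn.comp hc.continuousOn (fun u hu => hWt hu)
  · intro t ht
    refine ⟨hWO _ ht, fun e' he' hte' => ?_⟩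
    have hsrc : e.symm (a + (t : ℂ) * v) ∈ e.source := e.map_target (hWt ht)
    obtain ⟨c, hc'⟩ := ω.compatible e he e' he' _ ⟨hsrc, hte'⟩
    have hct : ContinuousAt (fun u : ℝ => e.symm (a + (u : ℂ) * v)) t :=
      ContinuousAt.comp (g := e.symm) (e.symm.continuousAt (hWt ht)) hc.continuousAt
    have h1 := hct.eventually hc'
    have h2 := hc'.self_of_nhds
    filter_upwards [h1, (hW.preimage hc).mem_nhds ht] with u hu huW
    rw [hu, h2, e.right_inv (hWt ht), e.right_inv (hWt huW)]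
    push_cast
    ring

/-- every point of a neighbourhood is reached by a vertical and a horizontal move -/
lemma exists_box (hO : IsOpen O) (hOs : O ⊆ ω.singᶜ) {e : OpenPartialHomeomorph S ℂ}
    (he : e ∈ ω.atlas) (hp : p ∈ O) (hpe : p ∈ e.source) :
    ∃ N ∈ 𝓝 p, N ⊆ O ∩ e.source ∧ ∀ x ∈ N, ∀ y ∈ N, ∃ z,
      Mv ω O Complex.I ((e y - e x).im) x z ∧ Mv ω O 1 ((e y - e x).re) z y := by
  have hV : IsOpen (e.target ∩ e.symm ⁻¹' O) := e.isOpen_inter_preimage_symm hO
  have hpV : e p ∈ e.target ∩ e.symm ⁻¹' O := by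
    refine ⟨e.map_source hpe, ?_⟩
    rw [mem_preimage, e.left_inv hpe]
    exact hp
  obtain ⟨ε, hε, hball⟩ := Metric.isOpen_iff.1 hV _ hpV
  set W : Set ℂ := Metric.ball (e p).re (ε / 2) ×ℂ Metric.ball (e p).im (ε / 2) with hW
  have hWo : IsOpen W := Metric.isOpen_ball.reProdIm Metric.isOpen_ball
  have hWc : Convex ℝ W := ((convex_ball (e p).re (ε / 2)).linear_preimage Complex.reLm).inter
    ((convex_ball (e p).im (ε / 2)).linear_preimage Complex.imLm)
  have hpW : e p ∈ W := ⟨Metric.mem_ball_self (by positivity), Metric.mem_ball_self (by positivity)⟩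
  have hWV : W ⊆ e.target ∩ e.symm ⁻¹' O := by
    rintro w ⟨h1, h2⟩
    apply hball
    rw [Metric.mem_ball, dist_eq_norm]
    refine (Complex.norm_le_abs_re_add_abs_im _).trans_lt ?_
    have h1' : |(w - e p).re| < ε / 2 := by
      rw [Complex.sub_re]
      simpa [Real.dist_eq] using h1
    have h2' : |(w - e p).im| < ε / 2 := by
      rw [Complex.sub_im]
      simpa [Real.dist_eq] using h2
    linarith
  refine ⟨e.source ∩ e ⁻¹' W, ?_, ?_, ?_⟩
  · exact (e.isOpen_inter_preimage hWo).mem_nhds ⟨hpe, hpW⟩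
  · rintro x ⟨hx1, hx2⟩
    refine ⟨?_, hx1⟩
    have := (hWV hx2).2
    rwa [mem_preimage, e.left_inv hx1] at this
  · rintro x ⟨hx1, hx2⟩ y ⟨hy1, hy2⟩
    have hmid : e x + (((e y - e x).im : ℝ) : ℂ) * Complex.I = ⟨(e x).re, (e y).im⟩ := by
      apply Complex.ext <;> simp
    have hend : (⟨(e x).re, (e y).im⟩ : ℂ) + (((e y - e x).re : ℝ) : ℂ) * 1 = e y := by
      apply Complex.ext <;> simp
    have hmW : (⟨(e x).re, (e y).im⟩ : ℂ) ∈ W := ⟨hx2.1, hy2.2⟩
    refine ⟨e.symm ⟨(e x).re, (e y).im⟩, ?_, ?_⟩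
    · have h1 := LV02_chart (ω := ω) (O := O) (v := Complex.I) (s := (e y - e x).im) he hWo hWc
        (fun w hw => (hWV hw).1) (fun w hw => (hWV hw).2) hx2 (by rw [hmid]; exact hmW)
      rwa [hmid, e.left_inv hx1] at h1
    · have h1 := LV02_chart (ω := ω) (O := O) (v := 1) (s := (e y - e x).re) he hWo hWc
        (fun w hw => (hWV hw).1) (fun w hw => (hWV hw).2) hmW (by rw [hend]; exact hy2)
      rwa [hend, e.left_inv hy1] at h1

lemma LV02_cont {h : S → ℝ} (hh : IsHt ω h) : Continuous h := by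
  rw [continuous_iff_continuousAt]
  intro x
  obtain ⟨m⟩ := exists_model ω x
  have h1 : ContinuousAt (fun y => h x + (m.φ y ^ m.k).im) x :=
    continuousAt_const.add (Complex.continuous_im.continuousAt.comp
      ((m.φ.continuousAt m.mem).pow _))
  refine h1.congr ?_
  filter_upwards [m.disc_mem_nhds (ρ := m.R / 4) (by have := m.R_pos; positivity)] with y hy
  exact (hh x m y hy).symm

/-- horizontal moves of points near a compact set, off the level zero -/
lemma wall [T2Space S] {h : S → ℝ} (hh : IsHt ω h) (hs : ∀ x ∈ ω.sing, h x = 0) {K : Set S}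
    (hK : IsCompact K) : ∃ ρ > 0, ∀ x ∈ K, h x ≠ 0 → ∀ s : ℝ, |s| < ρ →
      ∃ y, Mv ω {y | h y ≠ 0} 1 s x y := by
  have hc := LV02_cont hh
  have hO : IsOpen {y | h y ≠ 0} := isOpen_ne_fun hc continuous_const
  refine hK.induction_on (p := fun K => ∃ ρ > 0, ∀ x ∈ K, h x ≠ 0 → ∀ s : ℝ, |s| < ρ →
      ∃ y, Mv ω {y | h y ≠ 0} 1 s x y) ?_ ?_ ?_ ?_
  · exact ⟨1, one_pos, fun x hx => absurd hx (notMem_empty x)⟩
  · rintro A B hAB ⟨ρ, hρ, h1⟩
    exact ⟨ρ, hρ, fun x hx => h1 x (hAB hx)⟩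
  · rintro A B ⟨ρ, hρ, h1⟩ ⟨ρ', hρ', h2⟩
    refine ⟨min ρ ρ', lt_min hρ hρ', ?_⟩
    rintro x (hx | hx) hx0 s hs
    · exact h1 x hx hx0 s (hs.trans_le (min_le_left _ _))
    · exact h2 x hx hx0 s (hs.trans_le (min_le_right _ _))
  · intro z _
    by_cases hz : h z = 0
    · obtain ⟨m⟩ := exists_model ω z
      have hR := m.R_pos
      refine ⟨m.disc (m.R / 8), mem_nhdsWithin_of_mem_nhds (m.disc_mem_nhds (by positivity)),
        m.R / 8, by positivity, ?_⟩
      intro x hx hx0 s hsR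
      have e1 := hh z m x (m.disc_mono (by linarith) hx)
      rw [hz, zero_add] at e1
      have him : ∀ t : ℝ, (m.φ x ^ m.k + (t : ℂ) * 1).im = h x := by
        intro t
        rw [e1]
        simp
      obtain ⟨y, -, -, h3⟩ := m.mv (s := s) (v := 1) (O := {y | h y ≠ 0}) hx (fun t _ h0 => by
          have := him t
          rw [h0, Complex.zero_im] at this
          exact hx0 this.symm) (by rw [norm_one]; linarith) hO (by
          rintro y hy ⟨t, -, hyt⟩
          rw [norm_one] at hy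
          have e2 := hh z m y (m.disc_mono (by linarith) hy)
          rw [hz, zero_add, hyt, him] at e2
          change h y ≠ 0
          rw [e2]
          exact hx0)
      exact ⟨y, h3⟩
    · have hzs : z ∉ ω.sing := fun hcon => hz (hs z hcon)
      obtain ⟨e, he, hze⟩ := ω.covers z hzs
      have hV : IsOpen (e.target ∩ e.symm ⁻¹' {y | h y ≠ 0}) := e.isOpen_inter_preimage_symm hO
      have hzV : e z ∈ e.target ∩ e.symm ⁻¹' {y | h y ≠ 0} := by
        refine ⟨e.map_source hze, ?_⟩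
        rw [mem_preimage, e.left_inv hze]
        exact hz
      obtain ⟨ε, hε, hball⟩ := Metric.isOpen_iff.1 hV _ hzV
      refine ⟨e.source ∩ e ⁻¹' Metric.ball (e z) (ε / 2), mem_nhdsWithin_of_mem_nhds
        ((e.isOpen_inter_preimage Metric.isOpen_ball).mem_nhds
          ⟨hze, Metric.mem_ball_self (by positivity)⟩), ε / 2, by positivity, ?_⟩
      rintro x ⟨hx1, hx2⟩ hx0 s hsε
      rw [mem_preimage, Metric.mem_ball, dist_eq_norm] at hx2
      have h1 := LV02_chart (ω := ω) (O := {y | h y ≠ 0}) (v := 1) (s := s) he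
        (Metric.isOpen_ball (x := e z) (ε := ε)) (convex_ball _ _)
        (fun w hw => (hball hw).1) (fun w hw => (hball hw).2) (a := e x)
        (by rw [Metric.mem_ball, dist_eq_norm]; linarith)
        (by
          rw [Metric.mem_ball, dist_eq_norm]
          have e3 : e x + (s : ℂ) * 1 - e z = (e x - e z) + (s : ℂ) := by ring
          rw [e3]
          refine (norm_add_le _ _).trans_lt ?_
          rw [Complex.norm_real, Real.norm_eq_abs]
          linarith)
      rw [e.left_inv hx1] at h1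
      exact ⟨_, h1⟩

end LadderVeech
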