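import Pool.Agent.LadderVeech.LV02

/-!
LV03. Stability of straight moves: points near `p` can make the same move, they arrive near `q`, and
the difference of chart coordinates is carried along.

PROOF of `Mv.stable0` (same `s`): let `γ, J` be the curve of `h : Mv ω O v s p q`. Let
`P(t)`: for all charts `e` at `p`, `e'` at `γ t` and all `N ∈ 𝓝 (γ t)`:
`∀ᶠ x in 𝓝 p, ∃ y ∈ N, y ∈ e'.source ∧ Mv ω O v t x y ∧ e' y = e' (γ t) + (e x - e p)`.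
`P(0)`: `y = x`, Mv.refl and ω.compatible. `P` propagates locally in both directions: for `t₀ ∈ J` there is
`ε > 0` such that for `t, t' ∈ (t₀ - ε, t₀ + ε)`: `P(t) → P(t')`: take a chart `e₀` at `γ t₀` (in atlas) and
`R > 0` with the closed ball of radius `R` around `e₀ (γ t₀)` in the target and its preimage in `O`; if
`|t - t₀|, |t' - t₀|` are small, all points `y` near `γ t` can be moved by `(t' - t) v` inside this ball
(straight line `u ↦ e₀.symm (e₀ y + u v)`), arriving at the point with `e₀`-coordinate `e₀ y + (t' - t) v`;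
use Mv.trans. Conclude on `[0, s]` (or `[s, 0]`) by connectedness (`P` and `¬ P` are both locally
constant on the interval; e.g. IsPreconnected.induction, or `IsClopen`, on `uIcc 0 s`).
`Mv.stable`: then add a small move of length `s' - s` at the end, inside a chart at `q`.
`Mv.continuousWithinAt`: a choice function is continuous by `stable` and `Mv.unique`.
-/

open Set Filter Topology

namespace LadderVeech

variable {S : Type*} [TopologicalSpace S] {ω : TranslationStructure S} {O : Set S} {v : ℂ}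
  {s t : ℝ} {p q r : S}

private lemma LV03_ball {e₀ : OpenPartialHomeomorph S ℂ} (he₀ : e₀ ∈ ω.atlas) {c : ℂ} {R : ℝ}
    (hB : Metric.ball c R ⊆ e₀.target ∩ e₀.symm ⁻¹' O) {y : S} (hy : y ∈ e₀.source) {τ : ℝ}
    (h0 : e₀ y ∈ Metric.ball c R) (h1 : e₀ y + (τ : ℂ) * v ∈ Metric.ball c R) :
    Mv ω O v τ y (e₀.symm (e₀ y + (τ : ℂ) * v)) := by
  have hl : Continuous (fun u : ℝ => e₀ y + (u : ℂ) * v) := by fun_prop
  have hJo : IsOpen ((fun u : ℝ => e₀ y + (u : ℂ) * v) ⁻¹' Metric.ball c R) :=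
    Metric.isOpen_ball.preimage hl
  have hJc : Convex ℝ ((fun u : ℝ => e₀ y + (u : ℂ) * v) ⁻¹' Metric.ball c R) := by
    intro a ha b hb α β hα hβ hαβ
    have := (convex_ball c R) ha hb hα hβ hαβ
    simp only [mem_preimage] at this ⊢
    convert this using 1
    simp only [smul_eq_mul, Complex.real_smul]
    have h2 : (α : ℂ) + β = 1 := by exact_mod_cast hαβ
    push_cast
    linear_combination (-1 : ℂ) * (e₀ y) * h2
  have hcont : ContinuousOn (fun u : ℝ => e₀.symm (e₀ y + (u : ℂ) * v))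
      ((fun u : ℝ => e₀ y + (u : ℂ) * v) ⁻¹' Metric.ball c R) :=
    e₀.continuousOn_symm.comp hl.continuousOn (fun u hu => (hB hu).1)
  refine ⟨_, hJo, hJc.ordConnected, by simpa using h0, h1, fun u => e₀.symm (e₀ y + (u : ℂ) * v),
    hcont, ?_, rfl, ?_⟩
  · simp [e₀.left_inv hy]
  · intro t ht
    refine ⟨(hB ht).2, fun e' he' hte => ?_⟩
    have hts : e₀.symm (e₀ y + (t : ℂ) * v) ∈ e₀.source := e₀.map_target (hB ht).1
    obtain ⟨c', hc⟩ := ω.compatible e₀ he₀ e' he' _ ⟨hts, hte⟩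
    have hct : ContinuousAt (fun u : ℝ => e₀.symm (e₀ y + (u : ℂ) * v)) t :=
      hcont.continuousAt (hJo.mem_nhds ht)
    have h1' := hct.eventually hc
    have h2' := hc.self_of_nhds
    filter_upwards [h1', hJo.mem_nhds ht] with u hu hub
    rw [hu, h2', e₀.right_inv (hB ht).1, e₀.right_inv (hB hub).1]
    push_cast
    ring

/-- the propagated property -/
private def LV03_P (ω : TranslationStructure S) (O : Set S) (v : ℂ) (p : S)
    (e : OpenPartialHomeomorph S ℂ) (γ : ℝ → S) (t : ℝ) : Prop :=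
  ∀ e' ∈ ω.atlas, γ t ∈ e'.source → ∀ N ∈ 𝓝 (γ t), ∀ᶠ x in 𝓝 p, ∃ y ∈ N, y ∈ e'.source ∧
    Mv ω O v t x y ∧ e' y = e' (γ t) + (e x - e p)

private lemma LV03_step [T2Space S] (hO : IsOpen O) (hOs : O ⊆ ω.singᶜ)
    {e : OpenPartialHomeomorph S ℂ} {J : Set ℝ} (hJ : IsOpen J) {γ : ℝ → S}
    (hγ : ContinuousOn γ J)
    (h : ∀ t ∈ J, γ t ∈ O ∧ ∀ e ∈ ω.atlas, γ t ∈ e.source →
        ∀ᶠ u in 𝓝 t, e (γ u) = e (γ t) + ((u - t : ℝ) : ℂ) * v) {t₀ : ℝ} (ht₀ : t₀ ∈ J) :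
    ∃ A ∈ 𝓝 t₀, ∀ t ∈ A, ∀ t' ∈ A, LV03_P ω O v p e γ t → LV03_P ω O v p e γ t' := by
  obtain ⟨e₀, he₀, hpe₀⟩ := ω.covers _ (hOs (h t₀ ht₀).1)
  have hU : IsOpen (e₀.target ∩ e₀.symm ⁻¹' O) := e₀.isOpen_inter_preimage_symm hO
  have hcU : e₀ (γ t₀) ∈ e₀.target ∩ e₀.symm ⁻¹' O :=
    ⟨e₀.map_source hpe₀, by simpa [e₀.left_inv hpe₀] using (h t₀ ht₀).1⟩
  obtain ⟨R, hR, hB⟩ := Metric.isOpen_iff.1 hU _ hcU
  have c1 : ContinuousAt γ t₀ := hγ.continuousAt (hJ.mem_nhds ht₀)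
  have hpos : ∀ᶠ u in 𝓝 t₀, ‖((u - t₀ : ℝ) : ℂ) * v‖ < R := by
    have : Tendsto (fun u : ℝ => ‖((u - t₀ : ℝ) : ℂ) * v‖) (𝓝 t₀)
        (𝓝 ‖((t₀ - t₀ : ℝ) : ℂ) * v‖) := by
      apply Continuous.tendsto (f := fun u : ℝ => ‖((u - t₀ : ℝ) : ℂ) * v‖)
      fun_prop
    rw [sub_self, Complex.ofReal_zero, zero_mul, norm_zero] at this
    exact this.eventually_lt_const hR
  refine ⟨_, inter_mem ((h t₀ ht₀).2 e₀ he₀ hpe₀) (inter_mem hpos
    (c1.preimage_mem_nhds (e₀.open_source.mem_nhds hpe₀))), ?_⟩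
  rintro t ⟨ht1, ht2, ht3⟩ t' ⟨ht1', ht2', ht3'⟩ hP e' he' hte' N hN
  simp only [mem_preimage] at ht3 ht3'
  have ht1 : e₀ (γ t) = e₀ (γ t₀) + ((t - t₀ : ℝ) : ℂ) * v := ht1
  have ht1' : e₀ (γ t') = e₀ (γ t₀) + ((t' - t₀ : ℝ) : ℂ) * v := ht1'
  have ht2 : ‖((t - t₀ : ℝ) : ℂ) * v‖ < R := ht2
  have ht2' : ‖((t' - t₀ : ℝ) : ℂ) * v‖ < R := ht2'
  have hdiff : e₀ (γ t') = e₀ (γ t) + ((t' - t : ℝ) : ℂ) * v := by
    rw [ht1, ht1']
    push_cast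
    ring
  have hb : e₀ (γ t) ∈ Metric.ball (e₀ (γ t₀)) R := by
    rw [ht1, Metric.mem_ball, dist_eq_norm, add_sub_cancel_left]
    exact ht2
  have hb' : e₀ (γ t') ∈ Metric.ball (e₀ (γ t₀)) R := by
    rw [ht1', Metric.mem_ball, dist_eq_norm, add_sub_cancel_left]
    exact ht2'
  obtain ⟨c, hc⟩ := ω.compatible e₀ he₀ e' he' (γ t') ⟨ht3', hte'⟩
  -- the shifted point
  have hcont : ContinuousAt (fun y => e₀ y) (γ t) := e₀.continuousAt ht3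
  have hcont2 : ContinuousAt (fun y => e₀ y + ((t' - t : ℝ) : ℂ) * v) (γ t) :=
    hcont.add continuousAt_const
  have hsym : ContinuousAt e₀.symm (e₀ (γ t) + ((t' - t : ℝ) : ℂ) * v) := by
    apply e₀.symm.continuousAt
    rw [← hdiff]
    exact e₀.map_source ht3'
  have hshift : ContinuousAt (fun y => e₀.symm (e₀ y + ((t' - t : ℝ) : ℂ) * v)) (γ t) :=
    ContinuousAt.comp (g := e₀.symm) (f := fun y => e₀ y + ((t' - t : ℝ) : ℂ) * v) hsym hcont2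
  have hval : e₀.symm (e₀ (γ t) + ((t' - t : ℝ) : ℂ) * v) = γ t' := by
    rw [← hdiff, e₀.left_inv ht3']
  have hW : ∀ᶠ y in 𝓝 (γ t), e₀.symm (e₀ y + ((t' - t : ℝ) : ℂ) * v) ∈ N ∧
      e₀.symm (e₀ y + ((t' - t : ℝ) : ℂ) * v) ∈ e'.source ∧
      e' (e₀.symm (e₀ y + ((t' - t : ℝ) : ℂ) * v)) =
        e₀ (e₀.symm (e₀ y + ((t' - t : ℝ) : ℂ) * v)) + c := by
    have h1 : ∀ᶠ z in 𝓝 (γ t'), z ∈ N ∧ z ∈ e'.source ∧ e' z = e₀ z + c := by
      filter_upwards [hN, e'.open_source.mem_nhds hte', hc] with z h1 h2 h3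
      exact ⟨h1, h2, h3⟩
    rw [← hval] at h1
    exact hshift.eventually h1
  have hV : ∀ᶠ y in 𝓝 (γ t), e₀ y ∈ Metric.ball (e₀ (γ t₀)) R ∧
      e₀ y + ((t' - t : ℝ) : ℂ) * v ∈ Metric.ball (e₀ (γ t₀)) R := by
    have h1 := hcont.preimage_mem_nhds (Metric.isOpen_ball.mem_nhds hb)
    have h2 := hcont2.preimage_mem_nhds (Metric.isOpen_ball.mem_nhds
      (show e₀ (γ t) + ((t' - t : ℝ) : ℂ) * v ∈ Metric.ball (e₀ (γ t₀)) R by
        rw [← hdiff]; exact hb'))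
    filter_upwards [h1, h2] with y hy1 hy2
    exact ⟨hy1, hy2⟩
  have hmain := hP e₀ he₀ ht3 _ (inter_mem hW hV)
  filter_upwards [hmain] with x hx
  obtain ⟨y, ⟨hyW, hyV⟩, hys, hmv, hey⟩ := hx
  have hyW : e₀.symm (e₀ y + ((t' - t : ℝ) : ℂ) * v) ∈ N ∧
      e₀.symm (e₀ y + ((t' - t : ℝ) : ℂ) * v) ∈ e'.source ∧
      e' (e₀.symm (e₀ y + ((t' - t : ℝ) : ℂ) * v)) =
        e₀ (e₀.symm (e₀ y + ((t' - t : ℝ) : ℂ) * v)) + c := hyW
  have hyV : e₀ y ∈ Metric.ball (e₀ (γ t₀)) R ∧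
      e₀ y + ((t' - t : ℝ) : ℂ) * v ∈ Metric.ball (e₀ (γ t₀)) R := hyV
  refine ⟨_, hyW.1, hyW.2.1, ?_, ?_⟩
  · have h3 := LV03_ball he₀ hB hys hyV.1 hyV.2
    have h4 := hmv.trans hOs h3
    have h5 : t + (t' - t) = t' := by ring
    rwa [h5] at h4
  · rw [hyW.2.2, e₀.right_inv (hB hyV.2).1, hey]
    have h6 := hc.self_of_nhds
    rw [h6, hdiff]
    ring

private lemma LV03_P_s [T2Space S] (hO : IsOpen O) (hOs : O ⊆ ω.singᶜ)
    {e : OpenPartialHomeomorph S ℂ} (he : e ∈ ω.atlas) {J : Set ℝ} (hJ : IsOpen J)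
    (hJ' : J.OrdConnected) {γ : ℝ → S} (hγ : ContinuousOn γ J) (h0 : 0 ∈ J)
    (hpe : γ 0 ∈ e.source)
    (h : ∀ t ∈ J, γ t ∈ O ∧ ∀ e ∈ ω.atlas, γ t ∈ e.source →
        ∀ᶠ u in 𝓝 t, e (γ u) = e (γ t) + ((u - t : ℝ) : ℂ) * v) :
    ∀ t ∈ J, LV03_P ω O v (γ 0) e γ t := by
  have hP0 : LV03_P ω O v (γ 0) e γ 0 := by
    intro e' he' hpe' N hN
    obtain ⟨c, hc⟩ := ω.compatible e he e' he' (γ 0) ⟨hpe, hpe'⟩
    filter_upwards [hN, e'.open_source.mem_nhds hpe', hO.mem_nhds (h 0 h0).1, hc]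
      with x h1 h2 h3 h4
    refine ⟨x, h1, h2, Mv.refl hO hOs h3, ?_⟩
    rw [h4, hc.self_of_nhds]
    ring
  have hA : IsOpen {t | t ∈ J ∧ LV03_P ω O v (γ 0) e γ t} := by
    rw [isOpen_iff_mem_nhds]
    rintro t ⟨htJ, hte⟩
    obtain ⟨A, hA, hA'⟩ := LV03_step (p := γ 0) (e := e) hO hOs hJ hγ h htJ
    filter_upwards [hA, hJ.mem_nhds htJ] with u hu huJ
    exact ⟨huJ, hA' t (mem_of_mem_nhds hA) u hu hte⟩
  have hB : IsOpen {t | t ∈ J ∧ ¬ LV03_P ω O v (γ 0) e γ t} := by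
    rw [isOpen_iff_mem_nhds]
    rintro t ⟨htJ, hte⟩
    obtain ⟨A, hA, hA'⟩ := LV03_step (p := γ 0) (e := e) hO hOs hJ hγ h htJ
    filter_upwards [hA, hJ.mem_nhds htJ] with u hu huJ
    exact ⟨huJ, fun hcon => hte (hA' u hu t (mem_of_mem_nhds hA) hcon)⟩
  intro t ht
  by_contra hne
  obtain ⟨x, hx, hx1, hx2⟩ := hJ'.isPreconnected _ _ hA hB (fun u hu => by
    by_cases hh : LV03_P ω O v (γ 0) e γ u
    · exact Or.inl ⟨hu, hh⟩
    · exact Or.inr ⟨hu, hh⟩) ⟨0, h0, h0, hP0⟩ ⟨t, ht, ht, hne⟩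
  exact hx2.2 hx1.2

/-- stability of straight moves -/
theorem Mv.stable [T2Space S] (hO : IsOpen O) (hOs : O ⊆ ω.singᶜ) (h : Mv ω O v s p q)
    {e e' : OpenPartialHomeomorph S ℂ} (he : e ∈ ω.atlas) (hp : p ∈ e.source) (he' : e' ∈ ω.atlas)
    (hq : q ∈ e'.source) {N : Set S} (hN : N ∈ 𝓝 q) :
    ∀ᶠ x in 𝓝 (p, s), ∃ y ∈ N, y ∈ e'.source ∧ Mv ω O v x.2 x.1 y ∧
      e' y = e' q + (e x.1 - e p) + ((x.2 - s : ℝ) : ℂ) * v := by
  obtain ⟨J, hJ, hJ', h0, hs, γ, hγ, rfl, rfl, h⟩ := h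
  have hP := LV03_P_s hO hOs he hJ hJ' hγ h0 hp h s hs
  have hU : IsOpen (e'.target ∩ e'.symm ⁻¹' (O ∩ interior N)) :=
    e'.isOpen_inter_preimage_symm (hO.inter isOpen_interior)
  have hcU : e' (γ s) ∈ e'.target ∩ e'.symm ⁻¹' (O ∩ interior N) := by
    refine ⟨e'.map_source hq, ?_⟩
    rw [mem_preimage, e'.left_inv hq]
    exact ⟨(h s hs).1, mem_interior_iff_mem_nhds.2 hN⟩
  obtain ⟨R, hR, hB⟩ := Metric.isOpen_iff.1 hU _ hcU
  have hB' : Metric.ball (e' (γ s)) R ⊆ e'.target ∩ e'.symm ⁻¹' O :=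
    fun z hz => ⟨(hB hz).1, (hB hz).2.1⟩
  have c1 : ContinuousAt e' (γ s) := e'.continuousAt hq
  have h1 := hP e' he' hq _ (c1.preimage_mem_nhds (Metric.ball_mem_nhds _ (half_pos hR)))
  have h2 : ∀ᶠ u in 𝓝 s, ‖((u - s : ℝ) : ℂ) * v‖ < R / 2 := by
    have : Tendsto (fun u : ℝ => ‖((u - s : ℝ) : ℂ) * v‖) (𝓝 s)
        (𝓝 ‖((s - s : ℝ) : ℂ) * v‖) := by
      apply Continuous.tendsto (f := fun u : ℝ => ‖((u - s : ℝ) : ℂ) * v‖)
      fun_prop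
    rw [sub_self, Complex.ofReal_zero, zero_mul, norm_zero] at this
    exact this.eventually_lt_const (half_pos hR)
  have h3 := h1.prod_nhds h2
  filter_upwards [h3] with x hx
  obtain ⟨⟨y, hyN, hys, hmv, hey⟩, hx2⟩ := hx
  have hyb : e' y ∈ Metric.ball (e' (γ s)) (R / 2) := hyN
  have hyb1 : e' y ∈ Metric.ball (e' (γ s)) R := Metric.ball_subset_ball (by linarith) hyb
  have hyb2 : e' y + ((x.2 - s : ℝ) : ℂ) * v ∈ Metric.ball (e' (γ s)) R := by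
    rw [Metric.mem_ball, dist_eq_norm] at hyb ⊢
    calc ‖e' y + ((x.2 - s : ℝ) : ℂ) * v - e' (γ s)‖
        = ‖(e' y - e' (γ s)) + ((x.2 - s : ℝ) : ℂ) * v‖ := by ring_nf
      _ ≤ ‖e' y - e' (γ s)‖ + ‖((x.2 - s : ℝ) : ℂ) * v‖ := norm_add_le _ _
      _ < R / 2 + R / 2 := add_lt_add hyb hx2
      _ = R := by ring
  have h4 := LV03_ball he' hB' hys hyb1 hyb2
  have h5 := hmv.trans hOs h4
  have h6 : s + (x.2 - s) = x.2 := by ring
  rw [h6] at h5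
  refine ⟨_, interior_subset (hB hyb2).2.2, e'.map_target (hB hyb2).1, h5, ?_⟩
  rw [e'.right_inv (hB hyb2).1, hey]

/-- continuity of the end point -/
theorem Mv.tendsto [T2Space S] (hO : IsOpen O) (hOs : O ⊆ ω.singᶜ) {ι : Type*} {l : Filter ι}
    {x y : ι → S} {u : ι → ℝ} (h : Mv ω O v s p q) (hx : Tendsto x l (𝓝 p))
    (hu : Tendsto u l (𝓝 s)) (hxy : ∀ᶠ i in l, Mv ω O v (u i) (x i) (y i)) :
    Tendsto y l (𝓝 q) := by
  obtain ⟨e, he, hpe⟩ := ω.covers p (hOs h.left_mem)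
  obtain ⟨e', he', hqe⟩ := ω.covers q (hOs h.right_mem)
  intro N hN
  have h1 := h.stable hO hOs he hpe he' hqe hN
  have h2 : Tendsto (fun i => (x i, u i)) l (𝓝 (p, s)) := by
    rw [nhds_prod_eq]
    exact hx.prodMk hu
  rw [mem_map]
  filter_upwards [h2.eventually h1, hxy] with i hi hi'
  obtain ⟨y', hy', -, hmv, -⟩ := hi
  have := Mv.unique hOs hi' hmv
  rw [mem_preimage, this]
  exact hy'

end LadderVeech
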