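import Pool.Agent.LadderVeech.LV01

/-!
LV04. Basic facts on heights (`IsHt` in LVDefs).

PROOFS. Everything is parallel to the facts on `IsDev` in Dev.lean and Flow.lean.
* `cont`, `affine`: copy IsDev.cont, IsDev.affine (Dev.lean): if `A 1 0 = 0` then
  `(act A z).im = A 1 1 * z.im`.
* `seg`: along a segment `γ` the function `t ↦ h (γ t) - t * v.im` is continuous on `[0,1]` and locally
  constant on `(0,1)` (at a regular point take the model with `k = 1` of exists_model_reg, or any model, and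
  a chart: `φ ^ k + c = e`).
* `exists_lt`/`exists_gt` : near `x` there are points of the model disc with `Im (φ ^ k) = -η` (e.g.
  `φ y = ` a `k`-th root of `-η i`, `η` small).
* `zeroFlux`: `h ∘ f = h + c` by `affine`; `h ∘ f^n = h + n c`; `ZeroFlux.inter` for `f ^ n` (ZeroFlux.pow,
  Flow.lean) gives points `x, f^n x ∈ K₀` (K₀ compact: `isCompact_slab`), so `|n c| ≤ 2 sup_{K₀} |h|`; `c = 0`.
  (Compare IsDev.translation.)
* `of_dev`: imaginary part of a developing map.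
-/

open Set Filter Topology

namespace LadderVeech

section General

variable {S : Type*} [TopologicalSpace S] {ω : TranslationStructure S} {h : S → ℝ}

lemma IsHt.add_const (hh : IsHt ω h) (c : ℝ) : IsHt ω (fun x => h x + c) := by
  intro x m y hy
  simp only
  rw [hh x m y hy]
  ring

lemma IsHt.cont (hh : IsHt ω h) : Continuous h := by
  rw [continuous_iff_continuousAt]
  intro x
  obtain ⟨m⟩ := exists_model ω x
  have h0 : ContinuousAt (fun y => m.φ y ^ m.k) x := (m.φ.continuousAt m.mem).pow _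
  have h1 : ContinuousAt (fun y => h x + (m.φ y ^ m.k).im) x :=
    continuousAt_const.add (Complex.continuous_im.continuousAt.comp h0)
  refine h1.congr ?_
  filter_upwards [m.disc_mem_nhds (ρ := m.R / 4) (by have := m.R_pos; positivity)] with y hy
  exact (hh x m y hy).symm

lemma IsHt.affine [T2Space S] [PreconnectedSpace S] (hh : IsHt ω h) {f : S ≃ₜ S}
    {A : GL (Fin 2) ℝ} (hf : IsAffine ω f A) (hA : A 1 0 = 0) :
    ∃ c : ℝ, ∀ x, h (f x) = A 1 1 * h x + c := by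
  have him : ∀ z : ℂ, (act A z).im = A 1 1 * z.im := by
    intro z
    simp [act, hA]
  have hlc : IsLocallyConstant (fun x => h (f x) - A 1 1 * h x) := by
    rw [IsLocallyConstant.iff_eventually_eq]
    intro x
    obtain ⟨m⟩ := exists_model ω x
    obtain ⟨m'⟩ := exists_model ω (f x)
    have hR := m.R_pos
    have hR' := m'.R_pos
    set ρ : ℝ := min (m.R / 4) (m'.R / (4 * (nrm A + 1))) with hρ
    have hnA := nrm_nonneg A
    have hρ0 : 0 < ρ := by positivity
    filter_upwards [m.disc_mem_nhds hρ0] with y hy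
    have e1 := hh x m y (m.disc_mono (min_le_left _ _) hy)
    have hseg := (m.seg_of_mem hy).map hf
    have h1 : ‖m.φ y ^ m.k‖ ≤ ρ := by rw [norm_pow]; exact hy.2.2
    have h2 : ‖act A (m.φ y ^ m.k)‖ ≤ m'.R / 4 := by
      refine (norm_act_le' le_rfl h1).trans ?_
      calc nrm A * ρ ≤ (nrm A + 1) * (m'.R / (4 * (nrm A + 1))) := by
            gcongr
            · linarith
            · exact min_le_right _ _
        _ = m'.R / 4 := by field_simp
    have h3 := m'.trap (m'.center_mem le_rfl) hseg (by linarith)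
    rw [m'.zero, zero_pow m'.hk, zero_add] at h3
    have e2 := hh (f x) m' (f y) (m'.disc_mono (by linarith) h3.1)
    rw [e2, e1, h3.2, zero_add, him]
    ring
  by_cases hS : Nonempty S
  · obtain ⟨x₀⟩ := hS
    refine ⟨h (f x₀) - A 1 1 * h x₀, fun x => ?_⟩
    have := hlc.apply_eq_of_preconnectedSpace x x₀
    linear_combination this
  · exact ⟨0, fun x => absurd ⟨x⟩ hS⟩

/-- in charts at regular points -/
lemma IsHt.chart (hh : IsHt ω h) {e : OpenPartialHomeomorph S ℂ} (he : e ∈ ω.atlas) {p : S}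
    (hp : p ∈ e.source) : ∀ᶠ q in 𝓝 p, h q = h p + (e q - e p).im := by
  obtain ⟨m, hk, -, hφ⟩ := exists_model_reg he hp
  filter_upwards [m.disc_mem_nhds (ρ := m.R / 4) (by have := m.R_pos; positivity)] with y hy
  rw [hh p m y hy, hk, hφ, pow_one]

/-- along a straight curve: derivative zero -/
lemma LV04_deriv (H : ∀ e ∈ ω.atlas, ∀ p ∈ e.source, ∀ᶠ q in 𝓝 p, h q = h p + (e q - e p).im)
    {γ : ℝ → S} {v : ℂ} {t : ℝ} (hγ : ContinuousAt γ t) (hns : γ t ∉ ω.sing)
    (hloc : ∀ e ∈ ω.atlas, γ t ∈ e.source → ∀ᶠ s in 𝓝 t, e (γ s) = e (γ t) + ((s - t : ℝ) : ℂ) * v) :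
    HasDerivAt (fun s => h (γ s) - s * v.im) 0 t := by
  obtain ⟨e, he, hte⟩ := ω.covers _ hns
  have h1 := hγ.eventually (H e he _ hte)
  have h3 : (fun s => h (γ s) - s * v.im) =ᶠ[𝓝 t] fun _ => h (γ t) - t * v.im := by
    filter_upwards [h1, hloc e he hte] with s hs hs'
    rw [hs, hs']
    have h4 : (e (γ t) + ((s - t : ℝ) : ℂ) * v - e (γ t)).im = (s - t) * v.im := by
      rw [add_sub_cancel_left, Complex.im_ofReal_mul]
    rw [h4]
    ring
  exact (hasDerivAt_const t _).congr_of_eventuallyEq h3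

lemma LV04_seg (hc : Continuous h)
    (H : ∀ e ∈ ω.atlas, ∀ p ∈ e.source, ∀ᶠ q in 𝓝 p, h q = h p + (e q - e p).im)
    {p q : S} {v : ℂ} (hs : Seg ω p v q) : h q = h p + v.im := by
  rcases hs with ⟨rfl, rfl⟩ | ⟨γ, hγ, h0, h1, hloc⟩
  · simp
  have hgc : ContinuousOn (fun s => h (γ s) - s * v.im) (Icc 0 1) := by
    refine ContinuousOn.sub (hc.comp_continuousOn hγ) ?_
    exact (continuous_id.mul continuous_const).continuousOn
  obtain ⟨c, -, hc'⟩ := exists_hasDerivAt_eq_slope (fun s => h (γ s) - s * v.im) (fun _ => 0)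
    (zero_lt_one) hgc (fun t ht => LV04_deriv H (hγ.continuousAt (Icc_mem_nhds ht.1 ht.2))
      (hloc t ht).1 (hloc t ht).2)
  simp only [h0, h1] at hc'
  linarith

lemma IsHt.seg [T2Space S] (hh : IsHt ω h) {p q : S} {v : ℂ} (hs : Seg ω p v q) :
    h q = h p + v.im :=
  LV04_seg hh.cont (fun _ he _ hp => hh.chart he hp) hs

lemma IsHt.mv [T2Space S] (hh : IsHt ω h) {O : Set S} (hOs : O ⊆ ω.singᶜ) {p q : S} {v : ℂ} {s : ℝ}
    (hs : Mv ω O v s p q) : h q = h p + s * v.im := by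
  obtain ⟨J, hJo, hJc, h0J, hsJ, γ, hγ, h0, h1, hloc⟩ := hs
  have hd : ∀ t ∈ J, HasDerivAt (fun s => h (γ s) - s * v.im) 0 t := fun t ht =>
    LV04_deriv (fun _ he _ hp => hh.chart he hp) (hγ.continuousAt (hJo.mem_nhds ht))
      (hOs (hloc t ht).1) (hloc t ht).2
  have h2 := hJo.is_const_of_deriv_eq_zero hJc.isPreconnected
    (fun t ht => (hd t ht).differentiableAt.differentiableWithinAt)
    (fun t ht => (hd t ht).deriv) hsJ h0J
  simp only [h0, h1] at h2
  linarith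

lemma IsHt.of_chart [T2Space S] (hc : Continuous h)
    (H : ∀ e ∈ ω.atlas, ∀ p ∈ e.source, ∀ᶠ q in 𝓝 p, h q = h p + (e q - e p).im) : IsHt ω h := by
  intro x m y hy
  exact LV04_seg hc H (m.seg_of_mem hy)

/-- a point of the model disc with a given small value of `φ ^ k` -/
lemma LV04_pt {x : S} {O : Set S} (hO : O ∈ 𝓝 x) : ∃ ρ : ℝ, 0 < ρ ∧ ∀ (z : ℂ), ‖z‖ = ρ →
    ∃ (m : Model ω x), ∃ y ∈ O, y ∈ m.disc (m.R / 4) ∧ m.φ y ^ m.k = z := by
  obtain ⟨m⟩ := exists_model ω x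
  obtain ⟨ρ, hρ, hρR, hsub⟩ := m.disc_basis hO
  have hR := m.R_pos
  refine ⟨min ρ (m.R / 4), lt_min hρ (by linarith), fun z hz => ⟨m, ?_⟩⟩
  obtain ⟨w, hw⟩ := IsAlgClosed.exists_pow_nat_eq z (Nat.pos_of_ne_zero m.hk)
  have hwn : ‖w‖ ^ m.k = min ρ (m.R / 4) := by rw [← norm_pow, hw, hz]
  have hwr : ‖w‖ ≤ m.r := by
    have h1 : ‖w‖ ^ m.k < m.r ^ m.k := by
      rw [hwn]
      have : min ρ (m.R / 4) ≤ m.R / 4 := min_le_right _ _
      have h2 : m.R = m.r ^ m.k := rfl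
      linarith
    exact (lt_of_pow_lt_pow_left₀ _ m.hr.le h1).le
  have hwt : w ∈ m.φ.target := m.ball (by simpa using hwr)
  have hmem : ∀ ρ', min ρ (m.R / 4) ≤ ρ' → m.φ.symm w ∈ m.disc ρ' := by
    intro ρ' hρ'
    refine ⟨m.φ.map_target hwt, ?_, ?_⟩
    · rw [m.φ.right_inv hwt]; exact hwr
    · rw [m.φ.right_inv hwt, hwn]; exact hρ'
  refine ⟨m.φ.symm w, hsub (hmem _ (min_le_left _ _)), hmem _ (min_le_right _ _), ?_⟩
  rw [m.φ.right_inv hwt, hw]

lemma IsHt.exists_lt (hh : IsHt ω h) {x : S} {O : Set S} (hO : O ∈ 𝓝 x) :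
    ∃ y ∈ O, h y < h x := by
  obtain ⟨ρ, hρ, hex⟩ := LV04_pt (ω := ω) hO
  obtain ⟨m, y, hyO, hyd, hy⟩ := hex (⟨0, -ρ⟩ : ℂ) (by
    have : (⟨0, -ρ⟩ : ℂ) = (-ρ : ℝ) * Complex.I := by apply Complex.ext <;> simp
    rw [this, norm_mul, Complex.norm_I, mul_one, Complex.norm_real, Real.norm_eq_abs, abs_neg,
      abs_of_pos hρ])
  refine ⟨y, hyO, ?_⟩
  rw [hh x m y hyd, hy]
  simp only
  linarith

lemma IsHt.exists_gt (hh : IsHt ω h) {x : S} {O : Set S} (hO : O ∈ 𝓝 x) :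
    ∃ y ∈ O, h x < h y := by
  obtain ⟨ρ, hρ, hex⟩ := LV04_pt (ω := ω) hO
  obtain ⟨m, y, hyO, hyd, hy⟩ := hex (⟨0, ρ⟩ : ℂ) (by
    have : (⟨0, ρ⟩ : ℂ) = (ρ : ℝ) * Complex.I := by apply Complex.ext <;> simp
    rw [this, norm_mul, Complex.norm_I, mul_one, Complex.norm_real, Real.norm_eq_abs,
      abs_of_pos hρ])
  refine ⟨y, hyO, ?_⟩
  rw [hh x m y hyd, hy]
  simp only
  linarith

lemma IsDev.isHt [T2Space S] {D : S → ℂ} (hD : IsDev ω D) : IsHt ω (fun x => (D x).im) := by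
  intro x m y hy
  simp only
  rw [hD x m y hy, Complex.add_im]

end General

variable {ω : TranslationStructure Ladder} {h : Ladder → ℝ}

lemma IsHt.zeroFlux (hh : IsHt ω h) {f : Ladder ≃ₜ Ladder} (h0 : ZeroFlux ω f)
    {A : GL (Fin 2) ℝ} (hf : IsAffine ω f A) (hA : A 1 0 = 0) (hA1 : A 1 1 = 1) (x : Ladder) :
    h (f x) = h x := by
  obtain ⟨c, hc⟩ := hh.affine hf hA
  have hc' : ∀ x, h (f x) = h x + c := fun x => by rw [hc, hA1, one_mul]
  have hn : ∀ (n : ℕ) (x : Ladder), h ((f ^ n) x) = h x + n * c := by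
    intro n
    induction n with
    | zero => intro x; simp
    | succ n ih =>
      intro x
      rw [pow_succ']
      change h (f ((f ^ n) x)) = _
      rw [hc', ih]
      push_cast
      ring
  obtain ⟨M, hM⟩ := (isCompact_slab _ _ : IsCompact K₀).exists_bound_of_continuousOn
    hh.cont.continuousOn
  have hb : ∀ n : ℕ, n * ‖c‖ ≤ 2 * M := by
    intro n
    obtain ⟨_, ⟨x, hx, rfl⟩, hy⟩ := (h0.pow n).inter
    have h1 := hM x hx
    have h2 := hM _ hy
    have h3 : (n : ℝ) * c = h ((f ^ n) x) - h x := by rw [hn]; ring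
    have h4 : ‖(n : ℝ) * c‖ = n * ‖c‖ := by rw [norm_mul, Real.norm_natCast]
    rw [← h4, h3]
    refine (norm_sub_le _ _).trans ?_
    linarith
  have hc0 : ‖c‖ = 0 := by
    by_contra hne
    have hpos : 0 < ‖c‖ := lt_of_le_of_ne (norm_nonneg _) (Ne.symm hne)
    obtain ⟨n, hn⟩ := exists_nat_gt (2 * M / ‖c‖)
    rw [div_lt_iff₀ hpos] at hn
    linarith [hb n]
  rw [hc', norm_eq_zero.1 hc0, add_zero]

end LadderVeech
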