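import Pool.Agent.LadderVeech.LV04

/-!
LV05. An element of the Lie algebra of the zero flux group with kernel `ℝ e₁` gives a height, and the
displacement of near-identity families.

PROOFS.
* `act_kX`: `kX false = E₁₂` is nilpotent, `kX true = E₂₂` idempotent: `exp (t E₁₂) = 1 + t E₁₂`,
  `exp (t E₂₂) = diag (1, e^t)`. For `kX true` use `expGL_diagonal` (Eig.lean) with `v = ![0, t]`. For
  `kX false`: e.g. `Matrix.exp` of a nilpotent matrix (`NormedSpace.exp_eq_tsum`/ `exp_eq_sum` with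
  `(t • E₁₂)^2 = 0`), or use `tendsto_expGL_sub`-free: `N ↦ 1 + N` ... any way.
* `exists_disp` (the heart): copy the proof of `exists_dev` (Dev.lean). `disp ω (f i) y` is the displacement of
  `y` in a fixed model; by NearId.disp_rel, for `y ∈ m.disc (R/4)`, `m : Model ω x`, eventually
  `disp (f i) y - disp (f i) x = act (A i) ζ - ζ = kth b (ε i) * ζ.im * km b`, `ζ = m.φ y ^ m.k`. Define the
  relation `R x y c` : `∀ᶠ i in 𝒰, disp (f i) y - disp (f i) x = kth b (ε i) * c * km b` (`c` real); it is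
  additive and unique (`ε i ≠ 0` eventually, so `kth b (ε i) ≠ 0`), every `y` has some `c` with `R x₀ y c` by
  connectedness. `h y := c`. Then `IsHt ω h`, and with
  `D i := disp (f i) x₀ - kth b (ε i) * h x₀ * km b` one has for every `y`, eventually,
  `disp (f i) y = kth b (ε i) * h y * km b + D i`, and `Seg ω y (disp (f i) y) (f i y)` (NearId.disp_seg);
  `D i → 0` because `‖disp (f i) x₀‖ → 0` along `𝒰` and `kth b (ε i) → 0`.
-/

open Set Filter Topology

namespace LadderVeech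

section Exp

open scoped Matrix.Norms.Operator

private lemma LV05_exp_false (t : ℝ) :
    NormedSpace.exp (t • (!![0, 1; 0, 0] : Matrix (Fin 2) (Fin 2) ℝ)) =
      1 + t • (!![0, 1; 0, 0] : Matrix (Fin 2) (Fin 2) ℝ) := by
  have hsq : (t • (!![0, 1; 0, 0] : Matrix (Fin 2) (Fin 2) ℝ)) ^ 2 = 0 := by
    rw [pow_two]
    ext i j
    fin_cases i <;> fin_cases j <;> simp [Matrix.mul_apply, Fin.sum_univ_two]
  have h1 := congrFun (NormedSpace.exp_eq_tsum ℝ (𝔸 := Matrix (Fin 2) (Fin 2) ℝ))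
    (t • (!![0, 1; 0, 0] : Matrix (Fin 2) (Fin 2) ℝ))
  rw [h1, tsum_eq_sum (s := Finset.range 2)]
  · simp [Finset.sum_range_succ]
  · intro n hn
    have hn' : 2 ≤ n := by
      by_contra h
      exact hn (Finset.mem_range.2 (by omega))
    obtain ⟨j, rfl⟩ := Nat.exists_eq_add_of_le hn'
    rw [pow_add, hsq, zero_mul, smul_zero]

end Exp

private lemma LV05_entries_false (t : ℝ) (i j : Fin 2) :
    expGL (t • kX false) i j = (1 + t • (!![0, 1; 0, 0] : Matrix (Fin 2) (Fin 2) ℝ)) i j := by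
  have h : (expGL (t • kX false) : Matrix (Fin 2) (Fin 2) ℝ) =
      NormedSpace.exp (t • (!![0, 1; 0, 0] : Matrix (Fin 2) (Fin 2) ℝ)) := rfl
  show (expGL (t • kX false) : Matrix (Fin 2) (Fin 2) ℝ) i j = _
  rw [h, LV05_exp_false]

private lemma LV05_entries_true (t : ℝ) (i j : Fin 2) :
    expGL (t • kX true) i j = if i = j then Real.exp (![0, t] i) else 0 := by
  have h : t • kX true = Matrix.diagonal ![0, t] := by
    ext i j
    fin_cases i <;> fin_cases j <;> simp [kX]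
  rw [h]
  exact expGL_diagonal _ i j

lemma expGL_kX_entries (b : Bool) (t : ℝ) : expGL (t • kX b) 1 0 = 0 ∧
    expGL (t • kX b) 1 1 = kch b t ∧ expGL (t • kX b) 0 0 = 1 ∧
    expGL (t • kX b) 0 1 = (if b then 0 else t) := by
  cases b
  · refine ⟨?_, ?_, ?_, ?_⟩ <;> rw [LV05_entries_false] <;> simp [kch]
  · refine ⟨?_, ?_, ?_, ?_⟩ <;> rw [LV05_entries_true] <;> simp [kch]

lemma act_kX (b : Bool) (t : ℝ) (z : ℂ) :
    act (expGL (t • kX b)) z = z + ((kth b t * z.im : ℝ) : ℂ) * km b := by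
  obtain ⟨h1, h2, h3, h4⟩ := expGL_kX_entries b t
  apply Complex.ext
  · show expGL (t • kX b) 0 0 * z.re + expGL (t • kX b) 0 1 * z.im = _
    rw [h3, h4]
    cases b <;> simp [kth, km]
  · show expGL (t • kX b) 1 0 * z.re + expGL (t • kX b) 1 1 * z.im = _
    rw [h1, h2]
    cases b
    · simp [kth, km, kch]
    · simp [kth, km, kch, Complex.exp_ofReal_re]
      ring

lemma kch_pos (b : Bool) (t : ℝ) : 0 < kch b t := by
  cases b
  · simp [kch]
  · simp [kch, Real.exp_pos]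

lemma kth_add (b : Bool) (s t : ℝ) : kth b (s + t) = kth b t + kth b s * kch b t := by
  cases b
  · simp [kth, kch]
    ring
  · simp [kth, kch, Real.exp_add]
    ring

lemma kch_add (b : Bool) (s t : ℝ) : kch b (s + t) = kch b s * kch b t := by
  cases b <;> simp [kch, Real.exp_add]

lemma kch_eq (b : Bool) (t : ℝ) : kch b t = 1 + kth b t * (km b).im := by
  cases b <;> simp [kch, kth, km]

lemma continuous_kth (b : Bool) : Continuous (kth b) := by
  cases b
  · have h : kth false = fun t : ℝ => t := by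
      funext t
      simp [kth]
    rw [h]
    exact continuous_id
  · have h : kth true = fun t : ℝ => Real.exp t - 1 := by
      funext t
      simp [kth]
    rw [h]
    fun_prop

lemma kth_eq_zero (b : Bool) {t : ℝ} : kth b t = 0 ↔ t = 0 := by
  cases b
  · simp [kth]
  · simp only [kth, if_true]
    rw [sub_eq_zero, Real.exp_eq_one_iff]

section General

variable {S : Type*} [TopologicalSpace S] {ω : TranslationStructure S} [T2Space S]

private lemma LV05_km_ne (b : Bool) : km b ≠ 0 := by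
  cases b <;> simp [km]

private lemma LV05_rel {𝒰 : Ultrafilter ℕ} {f : ℕ → S ≃ₜ S} {b : Bool} {ε : ℕ → ℝ}
    (hn : NearId ω 𝒰 f (fun i => expGL (ε i • kX b))) {x : S} (m : Model ω x) {y : S}
    (hy : y ∈ m.disc (m.R / 4)) : ∀ᶠ i in (𝒰 : Filter ℕ),
      disp ω (f i) y - disp ω (f i) x =
        ((kth b (ε i) * (m.φ y ^ m.k).im : ℝ) : ℂ) * km b := by
  filter_upwards [hn.disp_rel m hy] with i hi
  rw [hi, act_kX]
  ring

private lemma LV05_disp_tendsto {𝒰 : Ultrafilter ℕ} {f : ℕ → S ≃ₜ S} {A : ℕ → GL (Fin 2) ℝ}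
    (hn : NearId ω 𝒰 f A) (x : S) : Tendsto (fun i => disp ω (f i) x) 𝒰 (𝓝 0) := by
  rw [Metric.tendsto_nhds]
  intro ρ hρ
  filter_upwards [hn.disp_seg x (ρ := ρ / 2) (by positivity)] with i hi
  rw [dist_zero_right]
  linarith [hi.1]

/-- the same with a height given in advance (also for `ε i = 0`) -/
private lemma LV05_main [PreconnectedSpace S] [Nonempty S] {𝒰 : Ultrafilter ℕ} {f : ℕ → S ≃ₜ S}
    {b : Bool} {ε : ℕ → ℝ} (hε0 : Tendsto ε 𝒰 (𝓝 0))
    (hn : NearId ω 𝒰 f (fun i => expGL (ε i • kX b))) {h : S → ℝ} (hh : IsHt ω h) :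
    ∃ (D : ℕ → ℂ), Tendsto D 𝒰 (𝓝 0) ∧
      ∀ y, ∀ᶠ i in (𝒰 : Filter ℕ), Seg ω y (((kth b (ε i) * h y : ℝ) : ℂ) * km b + D i) (f i y) := by
  set R : S → S → Prop := fun x y => ∀ᶠ i in (𝒰 : Filter ℕ),
    disp ω (f i) y - disp ω (f i) x = ((kth b (ε i) * (h y - h x) : ℝ) : ℂ) * km b with hR
  have htrans : ∀ x y z, R x y → R y z → R x z := by
    intro x y z h1 h2
    filter_upwards [h1, h2] with i hi1 hi2
    have e : ((kth b (ε i) * (h z - h x) : ℝ) : ℂ) =
        ((kth b (ε i) * (h y - h x) : ℝ) : ℂ) + ((kth b (ε i) * (h z - h y) : ℝ) : ℂ) := by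
      push_cast
      ring
    rw [e]
    linear_combination hi1 + hi2
  have hsymm : ∀ x y, R x y → R y x := by
    intro x y h1
    filter_upwards [h1] with i hi1
    have e : ((kth b (ε i) * (h x - h y) : ℝ) : ℂ) = - ((kth b (ε i) * (h y - h x) : ℝ) : ℂ) := by
      push_cast
      ring
    rw [e]
    linear_combination -hi1
  have hloc : ∀ x, ∀ᶠ y in 𝓝 x, R x y := by
    intro x
    obtain ⟨m⟩ := exists_model ω x
    filter_upwards [m.disc_mem_nhds (ρ := m.R / 4) (by have := m.R_pos; positivity)] with y hy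
    have h1 := hh x m y hy
    filter_upwards [LV05_rel hn m hy] with i hi
    rw [hi, h1]
    congr 3
    ring
  obtain ⟨x₀⟩ := ‹Nonempty S›
  have hall : ∀ y, R x₀ y := by
    have hclopen : IsClopen {y | R x₀ y} := by
      constructor
      · rw [← isOpen_compl_iff, isOpen_iff_mem_nhds]
        intro x hx
        filter_upwards [hloc x] with y hy hc
        exact hx (htrans _ _ _ hc (hsymm _ _ hy))
      · rw [isOpen_iff_mem_nhds]
        intro x hx
        filter_upwards [hloc x] with y hy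
        exact htrans _ _ _ hx hy
    have h0 : x₀ ∈ {y | R x₀ y} := by
      refine Eventually.of_forall fun i => ?_
      simp
    have := hclopen.eq_univ ⟨x₀, h0⟩
    intro y
    have hy : y ∈ {y | R x₀ y} := by rw [this]; trivial
    exact hy
  refine ⟨fun i => disp ω (f i) x₀ - ((kth b (ε i) * h x₀ : ℝ) : ℂ) * km b, ?_, fun y => ?_⟩
  · have h1 := LV05_disp_tendsto hn x₀
    have h2 : Tendsto (fun i => kth b (ε i)) 𝒰 (𝓝 0) := by
      have h3 := ((continuous_kth b).tendsto 0).comp hε0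
      rwa [(kth_eq_zero b).2 rfl] at h3
    have h3 : Tendsto (fun i => ((kth b (ε i) * h x₀ : ℝ) : ℂ) * km b) 𝒰 (𝓝 0) := by
      have h4 : Tendsto (fun i => kth b (ε i) * h x₀) 𝒰 (𝓝 0) := by
        have h5 := h2.mul_const (h x₀)
        rwa [zero_mul] at h5
      have h5 : Tendsto (fun i => ((kth b (ε i) * h x₀ : ℝ) : ℂ)) 𝒰 (𝓝 ((0 : ℝ) : ℂ)) :=
        (Complex.continuous_ofReal.tendsto 0).comp h4
      have h6 := h5.mul_const (km b)
      rwa [Complex.ofReal_zero, zero_mul] at h6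
    have h4 := h1.sub h3
    rwa [sub_zero] at h4
  · filter_upwards [hall y, hn.disp_seg y (ρ := 1) one_pos] with i hi1 hi2
    have e : ((kth b (ε i) * h y : ℝ) : ℂ) * km b +
        (disp ω (f i) x₀ - ((kth b (ε i) * h x₀ : ℝ) : ℂ) * km b) = disp ω (f i) y := by
      have e2 : ((kth b (ε i) * (h y - h x₀) : ℝ) : ℂ) =
          ((kth b (ε i) * h y : ℝ) : ℂ) - ((kth b (ε i) * h x₀ : ℝ) : ℂ) := by
        push_cast
        ring
      rw [e2] at hi1
      linear_combination -hi1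
    rw [e]
    exact hi2.2

theorem exists_disp [PreconnectedSpace S] [Nonempty S] {𝒰 : Ultrafilter ℕ} {f : ℕ → S ≃ₜ S}
    {b : Bool} {ε : ℕ → ℝ} (hε : ∀ i, 0 < ε i) (hε0 : Tendsto ε 𝒰 (𝓝 0))
    (hn : NearId ω 𝒰 f (fun i => expGL (ε i • kX b))) :
    ∃ (h : S → ℝ) (D : ℕ → ℂ), IsHt ω h ∧ Tendsto D 𝒰 (𝓝 0) ∧
      ∀ y, ∀ᶠ i in (𝒰 : Filter ℕ), Seg ω y (((kth b (ε i) * h y : ℝ) : ℂ) * km b + D i) (f i y) := by
  classical
  set R : S → S → ℝ → Prop := fun x y c => ∀ᶠ i in (𝒰 : Filter ℕ),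
    disp ω (f i) y - disp ω (f i) x = ((kth b (ε i) * c : ℝ) : ℂ) * km b with hR
  have htrans : ∀ x y z c c', R x y c → R y z c' → R x z (c + c') := by
    intro x y z c c' h1 h2
    filter_upwards [h1, h2] with i hi1 hi2
    have e : ((kth b (ε i) * (c + c') : ℝ) : ℂ) =
        ((kth b (ε i) * c : ℝ) : ℂ) + ((kth b (ε i) * c' : ℝ) : ℂ) := by
      push_cast
      ring
    rw [e]
    linear_combination hi1 + hi2
  have hsymm : ∀ x y c, R x y c → R y x (-c) := by
    intro x y c h1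
    filter_upwards [h1] with i hi1
    have e : ((kth b (ε i) * (-c) : ℝ) : ℂ) = - ((kth b (ε i) * c : ℝ) : ℂ) := by
      push_cast
      ring
    rw [e]
    linear_combination -hi1
  have huniq : ∀ x y c c', R x y c → R x y c' → c = c' := by
    intro x y c c' h1 h2
    obtain ⟨i, hi1, hi2⟩ := (h1.and h2).exists
    have h3 : kth b (ε i) ≠ 0 := fun h => (hε i).ne' ((kth_eq_zero b).1 h)
    have h4 : ((kth b (ε i) * c : ℝ) : ℂ) * km b = ((kth b (ε i) * c' : ℝ) : ℂ) * km b := by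
      rw [← hi1, ← hi2]
    have h5 := mul_right_cancel₀ (LV05_km_ne b) h4
    have h6 : kth b (ε i) * c = kth b (ε i) * c' := by exact_mod_cast h5
    exact mul_left_cancel₀ h3 h6
  obtain ⟨x₀⟩ := ‹Nonempty S›
  have hall : ∀ y, ∃ c, R x₀ y c := by
    have hclopen : IsClopen {y | ∃ c, R x₀ y c} := by
      constructor
      · rw [← isOpen_compl_iff, isOpen_iff_mem_nhds]
        intro x hx
        obtain ⟨m⟩ := exists_model ω x
        filter_upwards [m.disc_mem_nhds (ρ := m.R / 4) (by have := m.R_pos; positivity)] with y hy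
        rintro ⟨c, hc⟩
        exact hx ⟨_, htrans _ _ _ _ _ hc (hsymm _ _ _ (LV05_rel hn m hy))⟩
      · rw [isOpen_iff_mem_nhds]
        rintro x ⟨c, hc⟩
        obtain ⟨m⟩ := exists_model ω x
        filter_upwards [m.disc_mem_nhds (ρ := m.R / 4) (by have := m.R_pos; positivity)] with y hy
        exact ⟨_, htrans _ _ _ _ _ hc (LV05_rel hn m hy)⟩
    have h0 : x₀ ∈ {y | ∃ c, R x₀ y c} := by
      refine ⟨0, Eventually.of_forall fun i => ?_⟩
      simp
    have := hclopen.eq_univ ⟨x₀, h0⟩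
    intro y
    have hy : y ∈ {y | ∃ c, R x₀ y c} := by rw [this]; trivial
    exact hy
  choose h hD using hall
  have hh : IsHt ω h := fun x m y hy =>
    huniq _ _ _ _ (hD y) (htrans _ _ _ _ _ (hD x) (LV05_rel hn m hy))
  haveI : Nonempty S := ⟨x₀⟩
  obtain ⟨D, hD1, hD2⟩ := LV05_main hε0 hn hh
  exact ⟨h, D, hh, hD1, hD2⟩

/-- the same with a height given in advance (also for `ε i = 0`) -/
theorem exists_disp' [PreconnectedSpace S] [Nonempty S] {𝒰 : Ultrafilter ℕ} {f : ℕ → S ≃ₜ S}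
    {b : Bool} {ε : ℕ → ℝ} (hε0 : Tendsto ε 𝒰 (𝓝 0))
    (hn : NearId ω 𝒰 f (fun i => expGL (ε i • kX b))) {h : S → ℝ} (hh : IsHt ω h) :
    ∃ (D : ℕ → ℂ), Tendsto D 𝒰 (𝓝 0) ∧
      ∀ y, ∀ᶠ i in (𝒰 : Filter ℕ), Seg ω y (((kth b (ε i) * h y : ℝ) : ℂ) * km b + D i) (f i y) :=
  LV05_main hε0 hn hh

end General

end LadderVeech
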