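import Pool.Agent.LadderVeech.LV05

/-!
LV06. From near-identity families to flows.  (Model: `local_control`, `local_control_z` in Flow.lean and
`exists_flow` in NoHyp.lean; copy and adapt.)

PROOF. (0) One step, uniformly: let `m : Model ω x`, `ρ` small (`28 ρ ≤ m.R`). Eventually in `i`, for every
`y ∈ m.disc (2ρ)`: `f i y ∈ m.source..`, in fact `f i y ∈ m.disc (m.R/4)` and
  `m.φ (f i y) ^ k = m.φ y ^ k + kth b (ε i) * h y * km b + d i`.
 Proof: `hd x` and `m.trap` at the centre give `m.φ (f i x) ^ k = kth b (ε i) h x km b + d i`; with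
 `ζ = m.φ y ^ k`, `Seg ω x ζ y` (m.seg_of_mem), `Seg.map` and `m.trap` give
 `m.φ (f i y) ^ k = m.φ (f i x) ^ k + act (A i) ζ`, and `act (A i) ζ = ζ + kth b (ε i) ζ.im km b` (act_kX),
 `h y = h x + ζ.im`.  The same for `(f i).symm` with `ε, d` replaced by `-ε, -d`: it is again a family as in the
 hypotheses (`NearId.symm`, `expGL_inv`, `h ((f i).symm x) = kch b (-ε i) h x`, displacement
 `kth b (-ε i) h y km b - d i`, by `kth_add`: `kth b (-ε) = - kth b ε / kch b ε`).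
(1) Local control: there is `δ₀ > 0` such that eventually for all `n : ℤ` with `|n * δ i| ≤ δ₀` and all
 `y ∈ m.disc ρ`: `(f i ^ n) y ∈ m.disc (2ρ)` and
  `m.φ ((f i ^ n) y) ^ k = m.φ y ^ k + kth b (n * ε i) * h y * km b + n * d i`.
 Induction on `|n|`; the displacement is small because `|n ε i| ≤ δ₀ (|a| + 1)`, `|n d i| ≤ δ₀ (|c| + 1)`
 eventually, `kth b` is continuous with `kth b 0 = 0` and `h` is bounded on the disc; the formula uses
 `kth_add` and `h ((f i ^ n) y) = kch b (n ε i) h y`.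
(2) `n t i = ⌊t / δ i⌋`, `n t i * δ i → t`, so `n t i * ε i → a t`, `n t i * d i → c t`. By `zeroFlux_limit`
 (derivative `expGL (ε i • X) ^ n = expGL ((n ε i) • X) → expGL ((a t) • X)`) the maps `f i ^ (n t i)` converge
 pointwise to `F t`, affine with derivative `expGL ((a t) • kX b)`, of zero flux. Group law and joint
 continuity exactly as in `exists_flow`. `disp`: pass to the limit in (1) with `y = x` (`m.φ x = 0`) and use
 `m.seg_of_mem`: `m.φ (F t x) ^ k = kth b (a t) h x km b + c t`. `ht`: limit of `hht` (IsHt.cont).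
-/

open Set Filter Topology

namespace LadderVeech

section Kappa

private lemma LV06_kch_zero (b : Bool) : kch b 0 = 1 := by
  cases b <;> simp [kch]

private lemma LV06_kth_zero (b : Bool) : kth b 0 = 0 := (kth_eq_zero b).2 rfl

private lemma LV06_kch_cont (b : Bool) : Continuous (kch b) := by
  have h : kch b = fun t => 1 + kth b t * (km b).im := funext (kch_eq b)
  rw [h]
  exact continuous_const.add ((continuous_kth b).mul continuous_const)

private lemma LV06_kch_neg (b : Bool) (t : ℝ) : kch b (-t) * kch b t = 1 := by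
  rw [← kch_add, neg_add_cancel, LV06_kch_zero]

private lemma LV06_kth_neg (b : Bool) (t : ℝ) : kth b t * kch b (-t) = -kth b (-t) := by
  have h := kth_add b t (-t)
  rw [add_neg_cancel, LV06_kth_zero] at h
  linarith

private lemma LV06_km_norm (b : Bool) : ‖km b‖ = 1 := by
  cases b <;> simp [km]

end Kappa

/-- the data of a near identity family -/
private structure LV06_Fam (ω : TranslationStructure Ladder) (h : Ladder → ℝ) (b : Bool)
    (𝒰 : Ultrafilter ℕ) (f : ℕ → Ladder ≃ₜ Ladder) (ε d : ℕ → ℝ) : Prop where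
  hn : NearId ω 𝒰 f (fun i => expGL (ε i • kX b))
  hht : ∀ i x, h (f i x) = kch b (ε i) * h x
  hd : ∀ y, ∀ᶠ i in (𝒰 : Filter ℕ),
      Seg ω y (((kth b (ε i) * h y : ℝ) : ℂ) * km b + ((d i : ℝ) : ℂ)) (f i y)
  hε : Tendsto ε 𝒰 (𝓝 0)
  hd0 : Tendsto d 𝒰 (𝓝 0)

/-- the one step formula -/
private def LV06_Step {ω : TranslationStructure Ladder} (h : Ladder → ℝ) (b : Bool) {x : Ladder}
    (m : Model ω x) (ρ : ℝ) (g : Ladder ≃ₜ Ladder) (ε d : ℝ) : Prop :=
  ∀ y ∈ m.disc (2 * ρ), g y ∈ m.disc (m.R / 4) ∧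
    m.φ (g y) ^ m.k = m.φ y ^ m.k + ((kth b ε * h y : ℝ) : ℂ) * km b + ((d : ℝ) : ℂ)

variable {ω : TranslationStructure Ladder} {h : Ladder → ℝ}

private lemma LV06_step (hh : IsHt ω h) {b : Bool} {𝒰 : Ultrafilter ℕ} {f : ℕ → Ladder ≃ₜ Ladder}
    {ε d : ℕ → ℝ} (F : LV06_Fam ω h b 𝒰 f ε d) {x : Ladder} (m : Model ω x) {ρ : ℝ} (hρ : 0 < ρ)
    (hρR : 28 * ρ ≤ m.R) : ∀ᶠ i in (𝒰 : Filter ℕ), LV06_Step h b m ρ (f i) (ε i) (d i) := by
  have hv : Tendsto (fun i => ‖((kth b (ε i) * h x : ℝ) : ℂ) * km b + ((d i : ℝ) : ℂ)‖) 𝒰 (𝓝 0) := by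
    have h1 : Tendsto (fun i => kth b (ε i)) 𝒰 (𝓝 0) := by
      have h2 := ((continuous_kth b).tendsto 0).comp F.hε
      rwa [LV06_kth_zero] at h2
    have h3 : Continuous fun q : ℝ × ℝ => ‖((q.1 * h x : ℝ) : ℂ) * km b + ((q.2 : ℝ) : ℂ)‖ := by
      fun_prop
    have h4 := (h3.tendsto (0, 0)).comp (h1.prodMk_nhds F.hd0)
    have h5 : ‖((((0 : ℝ), (0 : ℝ)).1 * h x : ℝ) : ℂ) * km b + ((((0 : ℝ), (0 : ℝ)).2 : ℝ) : ℂ)‖ = 0 := by
      simp
    rw [h5] at h4
    exact h4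
  filter_upwards [F.hn.nrm_le, F.hd x, hv.eventually_lt_const hρ] with i hi1 hi2 hi3
  intro y hy
  have e1 := m.trap (m.center_mem le_rfl) hi2 (by linarith)
  rw [m.zero, zero_pow m.hk, zero_add, zero_add] at e1
  have hseg := (m.seg_of_mem hy).map (F.hn.aff i)
  have h1 : ‖m.φ y ^ m.k‖ ≤ 2 * ρ := by rw [norm_pow]; exact hy.2.2
  have h2 : ‖act (expGL (ε i • kX b)) (m.φ y ^ m.k)‖ ≤ 3 * (2 * ρ) := norm_act_le' hi1 h1
  have h3 := m.trap e1.1 hseg (by linarith)
  refine ⟨m.disc_mono (by linarith) h3.1, ?_⟩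
  rw [h3.2, e1.2, act_kX]
  have h4 := hh x m y (m.disc_mono (by linarith) hy)
  rw [h4]
  push_cast
  ring

private lemma LV06_symm (hh : IsHt ω h) {b : Bool} {𝒰 : Ultrafilter ℕ} {f : ℕ → Ladder ≃ₜ Ladder}
    {ε d : ℕ → ℝ} (F : LV06_Fam ω h b 𝒰 f ε d) :
    LV06_Fam ω h b 𝒰 (fun i => (f i).symm) (fun i => -ε i) (fun i => -d i) := by
  have hht : ∀ i x, h ((f i).symm x) = kch b (-ε i) * h x := by
    intro i x
    have h1 := F.hht i ((f i).symm x)
    rw [Homeomorph.apply_symm_apply] at h1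
    rw [h1, ← mul_assoc, LV06_kch_neg, one_mul]
  refine ⟨?_, hht, ?_, ?_, ?_⟩
  · have h1 := F.hn.symm
    have h2 : (fun i => expGL ((-ε i) • kX b)) = fun i => (expGL (ε i • kX b))⁻¹ := by
      funext i
      rw [expGL_inv]
    rw [h2]
    exact h1
  · intro y
    obtain ⟨m⟩ := exists_model ω y
    have hR := m.R_pos
    have hρ : 0 < m.R / 28 := by positivity
    have h1 := F.hn.symm.pt y (m.disc_mem_nhds (ρ := 2 * (m.R / 28)) (by positivity))
    filter_upwards [LV06_step hh F m hρ (by linarith), h1] with i hi1 hi2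
    have h2 := (hi1 _ hi2).2
    have h3 := m.seg_of_mem hi2
    change m.φ (f i ((f i).symm y)) ^ m.k = m.φ ((f i).symm y) ^ m.k + _ + _ at h2
    rw [Homeomorph.apply_symm_apply, m.zero, zero_pow m.hk, hht, ← mul_assoc, LV06_kth_neg] at h2
    have h4 : m.φ ((f i).symm y) ^ m.k =
        ((kth b (-ε i) * h y : ℝ) : ℂ) * km b + ((-d i : ℝ) : ℂ) := by
      push_cast at h2 ⊢
      linear_combination -h2
    rw [← h4]
    exact h3
  · have h1 := F.hε.neg
    rwa [neg_zero] at h1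
  · have h1 := F.hd0.neg
    rwa [neg_zero] at h1

private lemma LV06_pow_ht {b : Bool} {g : Ladder ≃ₜ Ladder} {ε : ℝ} (hg : ∀ x, h (g x) = kch b ε * h x)
    (j : ℕ) (x : Ladder) : h ((g ^ j) x) = kch b (j * ε) * h x := by
  induction j with
  | zero =>
    rw [pow_zero, Nat.cast_zero, zero_mul, LV06_kch_zero, one_mul]
    rfl
  | succ j ih =>
    have e : (g ^ (j + 1)) x = g ((g ^ j) x) := by
      rw [pow_succ']
      rfl
    rw [e, hg, ih, ← mul_assoc, ← kch_add]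
    congr 2
    push_cast
    ring

/-- the iterates -/
private lemma LV06_iter {b : Bool} {x : Ladder} {m : Model ω x} {ρ : ℝ} (hρ : 0 < ρ)
    {g : Ladder ≃ₜ Ladder} {ε d : ℝ} (hs : LV06_Step h b m ρ g ε d)
    (hg : ∀ x, h (g x) = kch b ε * h x) {y : Ladder} (hy : y ∈ m.disc ρ) (j : ℕ)
    (hl : ∀ l ≤ j, ‖((kth b (l * ε) * h y : ℝ) : ℂ) * km b + ((l * d : ℝ) : ℂ)‖ ≤ ρ) :
    (g ^ j) y ∈ m.disc (2 * ρ) ∧ m.φ ((g ^ j) y) ^ m.k =
      m.φ y ^ m.k + ((kth b (j * ε) * h y : ℝ) : ℂ) * km b + ((j * d : ℝ) : ℂ) := by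
  induction j with
  | zero =>
    refine ⟨?_, ?_⟩
    · rw [pow_zero]
      exact m.disc_mono (by linarith) hy
    · rw [pow_zero, Nat.cast_zero, zero_mul, zero_mul, LV06_kth_zero]
      simp only [zero_mul, Complex.ofReal_zero, add_zero]
      rfl
  | succ j ih =>
    obtain ⟨h1, h2⟩ := ih (fun l hlj => hl l (hlj.trans (Nat.le_succ _)))
    obtain ⟨h3, h4⟩ := hs _ h1
    have e : (g ^ (j + 1)) y = g ((g ^ j) y) := by
      rw [pow_succ']
      rfl
    have h5 : m.φ ((g ^ (j + 1)) y) ^ m.k = m.φ y ^ m.k +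
        ((kth b ((j + 1 : ℕ) * ε) * h y : ℝ) : ℂ) * km b + (((j + 1 : ℕ) * d : ℝ) : ℂ) := by
      rw [e, h4, h2, LV06_pow_ht hg]
      have h6 : kth b ((j + 1 : ℕ) * ε) = kth b (j * ε) + kth b ε * kch b (j * ε) := by
        rw [← kth_add]
        congr 1
        push_cast
        ring
      rw [h6]
      push_cast
      ring
    refine ⟨?_, h5⟩
    rw [e] at h5 ⊢
    refine ⟨h3.1, h3.2.1, ?_⟩
    rw [← norm_pow, h5, add_assoc]
    have h7 : ‖m.φ y ^ m.k‖ ≤ ρ := by rw [norm_pow]; exact hy.2.2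
    exact (norm_add_le _ _).trans (by linarith [hl (j + 1) le_rfl])

private lemma LV06_zpow_ht {b : Bool} {g : Ladder ≃ₜ Ladder} {ε : ℝ}
    (hg : ∀ x, h (g x) = kch b ε * h x) (n : ℤ) (x : Ladder) :
    h ((g ^ n) x) = kch b (n * ε) * h x := by
  cases n with
  | ofNat j =>
    simp only [Int.ofNat_eq_natCast, zpow_natCast, Int.cast_natCast]
    exact LV06_pow_ht hg j x
  | negSucc j =>
    have hg' : ∀ x, h (g⁻¹ x) = kch b (-ε) * h x := by
      intro x
      have h1 := hg (g⁻¹ x)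
      have h2 : g (g⁻¹ x) = x := g.apply_symm_apply x
      rw [h2] at h1
      rw [h1, ← mul_assoc, LV06_kch_neg, one_mul]
    rw [zpow_negSucc, ← inv_pow, LV06_pow_ht hg']
    congr 2
    push_cast
    ring

/-- local control -/
private lemma LV06_control (hh : IsHt ω h) {b : Bool} {𝒰 : Ultrafilter ℕ}
    {f : ℕ → Ladder ≃ₜ Ladder} {ε d δ : ℕ → ℝ} {a c : ℝ} (F : LV06_Fam ω h b 𝒰 f ε d)
    (hδ : ∀ i, 0 < δ i) (ha : Tendsto (fun i => ε i / δ i) 𝒰 (𝓝 a))
    (hc : Tendsto (fun i => d i / δ i) 𝒰 (𝓝 c)) {x : Ladder} (m : Model ω x) {ρ : ℝ} (hρ : 0 < ρ)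
    (hρR : 28 * ρ ≤ m.R) : ∃ δ₀ > 0, ∀ᶠ i in (𝒰 : Filter ℕ), ∀ n : ℤ, |n * δ i| ≤ δ₀ →
      ∀ y ∈ m.disc ρ, (f i ^ n) y ∈ m.disc (2 * ρ) ∧ m.φ ((f i ^ n) y) ^ m.k =
        m.φ y ^ m.k + ((kth b (n * ε i) * h y : ℝ) : ℂ) * km b + ((n * d i : ℝ) : ℂ) := by
  have hM : ∀ y ∈ m.disc ρ, |h y| ≤ |h x| + ρ := by
    intro y hy
    rw [hh x m y (m.disc_mono (by linarith) hy)]
    refine (abs_add_le _ _).trans ?_
    have h1 : ‖m.φ y ^ m.k‖ ≤ ρ := by rw [norm_pow]; exact hy.2.2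
    have h2 := Complex.abs_im_le_norm (m.φ y ^ m.k)
    linarith
  obtain ⟨η, hη, hsmall⟩ : ∃ η > 0, ∀ s : ℝ, |s| ≤ η → |kth b s| * (|h x| + ρ) ≤ ρ / 2 := by
    have h1 : Continuous fun s => |kth b s| * (|h x| + ρ) := by
      have := continuous_kth b
      fun_prop
    have h2 := h1.tendsto 0
    rw [LV06_kth_zero, abs_zero, zero_mul] at h2
    have h3 := h2.eventually_lt_const (show 0 < ρ / 2 by positivity)
    obtain ⟨η, hη, hball⟩ := Metric.eventually_nhds_iff.1 h3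
    refine ⟨η / 2, by positivity, fun s hs => (hball ?_).le⟩
    rw [dist_zero_right, Real.norm_eq_abs]
    linarith
  have ha' : ∀ᶠ i in (𝒰 : Filter ℕ), |ε i / δ i| ≤ |a| + 1 := by
    filter_upwards [ha.abs.eventually_lt_const (lt_add_one |a|)] with i hi using hi.le
  have hc' : ∀ᶠ i in (𝒰 : Filter ℕ), |d i / δ i| ≤ |c| + 1 := by
    filter_upwards [hc.abs.eventually_lt_const (lt_add_one |c|)] with i hi using hi.le
  have hpa : 0 < |a| + 1 := by positivity
  have hpc : 0 < |c| + 1 := by positivity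
  refine ⟨min (η / (|a| + 1)) (ρ / 2 / (|c| + 1)), by positivity, ?_⟩
  filter_upwards [LV06_step hh F m hρ hρR, LV06_step hh (LV06_symm hh F) m hρ hρR, ha', hc']
    with i hi1 hi2 hi3 hi4 n hn y hy
  have hδi := hδ i
  -- the bound
  have key : ∀ l : ℝ, |l * δ i| ≤ min (η / (|a| + 1)) (ρ / 2 / (|c| + 1)) →
      ‖((kth b (l * ε i) * h y : ℝ) : ℂ) * km b + ((l * d i : ℝ) : ℂ)‖ ≤ ρ := by
    intro l hl
    have h1 : |l * ε i| ≤ η := by
      have e : l * ε i = (l * δ i) * (ε i / δ i) := by field_simp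
      rw [e, abs_mul]
      calc |l * δ i| * |ε i / δ i| ≤ (η / (|a| + 1)) * (|a| + 1) := by
            gcongr
            exact hl.trans (min_le_left _ _)
        _ = η := by field_simp
    have h2 : |l * d i| ≤ ρ / 2 := by
      have e : l * d i = (l * δ i) * (d i / δ i) := by field_simp
      rw [e, abs_mul]
      calc |l * δ i| * |d i / δ i| ≤ (ρ / 2 / (|c| + 1)) * (|c| + 1) := by
            gcongr
            exact hl.trans (min_le_right _ _)
        _ = ρ / 2 := by field_simp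
    refine (norm_add_le _ _).trans ?_
    rw [norm_mul, LV06_km_norm, mul_one, Complex.norm_real, Complex.norm_real, Real.norm_eq_abs,
      Real.norm_eq_abs, abs_mul]
    have h3 : |kth b (l * ε i)| * |h y| ≤ |kth b (l * ε i)| * (|h x| + ρ) := by
      gcongr
      exact hM y hy
    linarith [hsmall _ h1]
  have hbd : ∀ l j : ℕ, l ≤ j → |(j : ℝ) * δ i| ≤ min (η / (|a| + 1)) (ρ / 2 / (|c| + 1)) →
      |(l : ℝ) * δ i| ≤ min (η / (|a| + 1)) (ρ / 2 / (|c| + 1)) := by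
    intro l j hlj hj
    refine le_trans ?_ hj
    rw [abs_mul, abs_mul, Nat.abs_cast, Nat.abs_cast]
    have : (l : ℝ) ≤ j := by exact_mod_cast hlj
    gcongr
  cases n with
  | ofNat j =>
    simp only [Int.ofNat_eq_natCast, zpow_natCast, Int.cast_natCast] at hn ⊢
    exact LV06_iter hρ hi1 (F.hht i) hy j (fun l hl => key _ (hbd l j hl hn))
  | negSucc j =>
    have hn' : |((j + 1 : ℕ) : ℝ) * δ i| ≤ min (η / (|a| + 1)) (ρ / 2 / (|c| + 1)) := by
      have e : ((Int.negSucc j : ℤ) : ℝ) = -((j + 1 : ℕ) : ℝ) := by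
        push_cast
        ring
      rw [e, neg_mul, abs_neg] at hn
      exact hn
    have h1 := LV06_iter hρ hi2 ((LV06_symm hh F).hht i) hy (j + 1) (fun l hl => by
      have h2 := key (-(l : ℝ)) (by
        rw [neg_mul, abs_neg]
        exact hbd l (j + 1) hl hn')
      have e1 : (l : ℝ) * -ε i = -(l : ℝ) * ε i := by ring
      have e2 : (l : ℝ) * -d i = -(l : ℝ) * d i := by ring
      rw [e1, e2]
      exact h2)
    have e0 : f i ^ Int.negSucc j = (f i).symm ^ (j + 1) := by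
      rw [zpow_negSucc, ← inv_pow]
      rfl
    have e1 : ((j + 1 : ℕ) : ℝ) * -ε i = ((Int.negSucc j : ℤ) : ℝ) * ε i := by
      push_cast
      ring
    have e2 : ((j + 1 : ℕ) : ℝ) * -d i = ((Int.negSucc j : ℤ) : ℝ) * d i := by
      push_cast
      ring
    rw [e1, e2] at h1
    rw [e0]
    exact h1

theorem near_flow {ω : TranslationStructure Ladder} {h : Ladder → ℝ} (hh : IsHt ω h) {b : Bool}
    {𝒰 : Ultrafilter ℕ} {f : ℕ → Ladder ≃ₜ Ladder} {ε d δ : ℕ → ℝ} {a c : ℝ}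
    (hn : NearId ω 𝒰 f (fun i => expGL (ε i • kX b))) (h0 : ∀ i, ZeroFlux ω (f i))
    (hht : ∀ i x, h (f i x) = kch b (ε i) * h x)
    (hd : ∀ y, ∀ᶠ i in (𝒰 : Filter ℕ),
      Seg ω y (((kth b (ε i) * h y : ℝ) : ℂ) * km b + ((d i : ℝ) : ℂ)) (f i y))
    (hδ : ∀ i, 0 < δ i) (hδ0 : Tendsto δ 𝒰 (𝓝 0))
    (ha : Tendsto (fun i => ε i / δ i) 𝒰 (𝓝 a)) (hc : Tendsto (fun i => d i / δ i) 𝒰 (𝓝 c)) :
    Nonempty (HFlow ω h b a c) := by
  have hε : Tendsto ε 𝒰 (𝓝 0) := by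
    have h1 := ha.mul hδ0
    rw [mul_zero] at h1
    refine h1.congr fun i => ?_
    have := hδ i
    field_simp
  have hd0 : Tendsto d 𝒰 (𝓝 0) := by
    have h1 := hc.mul hδ0
    rw [mul_zero] at h1
    refine h1.congr fun i => ?_
    have := hδ i
    field_simp
  have F : LV06_Fam ω h b 𝒰 f ε d := ⟨hn, hht, hd, hε, hd0⟩
  -- the approximating powers
  set n : ℝ → ℕ → ℤ := fun t i => ⌊t / δ i⌋ with hndef
  have hnlim : ∀ t, Tendsto (fun i => (n t i : ℝ) * δ i) 𝒰 (𝓝 t) := by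
    intro t
    have h2 : Tendsto (fun i => t - δ i) 𝒰 (𝓝 t) := by
      have := (tendsto_const_nhds (x := t) (f := (𝒰 : Filter ℕ))).sub hδ0
      rwa [sub_zero] at this
    refine tendsto_of_tendsto_of_tendsto_of_le_of_le h2 tendsto_const_nhds ?_ ?_
    · intro i
      have h3 := Int.lt_floor_add_one (t / δ i)
      rw [div_lt_iff₀ (hδ i)] at h3
      simp only [hndef]
      linarith
    · intro i
      have h3 := Int.floor_le (t / δ i)
      rw [le_div_iff₀ (hδ i)] at h3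
      exact h3
  have hnε : ∀ t, Tendsto (fun i => (n t i : ℝ) * ε i) 𝒰 (𝓝 (a * t)) := by
    intro t
    have h1 := (hnlim t).mul ha
    rw [mul_comm a t]
    refine h1.congr fun i => ?_
    have := hδ i
    field_simp
  have hnd : ∀ t, Tendsto (fun i => (n t i : ℝ) * d i) 𝒰 (𝓝 (c * t)) := by
    intro t
    have h1 := (hnlim t).mul hc
    rw [mul_comm c t]
    refine h1.congr fun i => ?_
    have := hδ i
    field_simp
  have hcontE : Continuous fun s : ℝ => expGL (s • kX b) :=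
    continuous_expGL.comp (continuous_id.smul continuous_const)
  have haff : ∀ t i, IsAffine ω (f i ^ n t i) (expGL (ε i • kX b) ^ n t i) :=
    fun t i => (hn.aff i).zpow _
  have hAlim : ∀ t, Tendsto (fun i => expGL (ε i • kX b) ^ n t i) 𝒰 (𝓝 (expGL ((a * t) • kX b))) := by
    intro t
    have h1 := (hcontE.tendsto (a * t)).comp (hnε t)
    refine h1.congr (fun i => ?_)
    rw [expGL_zpow]
    rfl
  have hex : ∀ t, ∃ G : Ladder ≃ₜ Ladder, IsAffine ω G (expGL ((a * t) • kX b)) ∧ ZeroFlux ω G ∧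
      ∀ x, Tendsto (fun i => (f i ^ n t i) x) 𝒰 (𝓝 (G x)) :=
    fun t => zeroFlux_limit (haff t) (hAlim t) (fun i => (h0 i).zpow _)
  choose Φ hΦaff hΦ0 hΦ using hex
  have hzero : ∀ x, Φ 0 x = x := by
    intro x
    have h1 := hΦ 0 x
    have h2 : (fun i => (f i ^ n 0 i) x) = fun _ => x := by
      funext i
      have : n 0 i = 0 := by simp [hndef]
      rw [this, zpow_zero]
      rfl
    rw [h2] at h1
    exact (tendsto_nhds_unique h1 tendsto_const_nhds)
  have hadd : ∀ s t x, Φ (s + t) x = Φ s (Φ t x) := by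
    intro s t x
    obtain ⟨C, hC, hbs⟩ := exists_bdd (haff s) (hAlim s)
    obtain ⟨C', hC', hbt⟩ := exists_bdd (haff t) (hAlim t)
    set r : ℕ → ℤ := fun i => n (s + t) i - n s i - n t i with hr
    have hr01 : ∀ i, r i = 0 ∨ r i = 1 := by
      intro i
      have h1 := Int.le_floor_add (s / δ i) (t / δ i)
      have h2 := Int.le_floor_add_floor (s / δ i) (t / δ i)
      have h3 : (s + t) / δ i = s / δ i + t / δ i := add_div _ _ _
      have h4 : n (s + t) i = ⌊s / δ i + t / δ i⌋ := by simp only [hndef, h3]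
      simp only [hr]
      rw [h4]
      simp only [hndef]
      omega
    have hrlim : Tendsto (fun i => (f i ^ r i) x) 𝒰 (𝓝 x) := by
      rw [tendsto_def]
      intro O hO
      filter_upwards [hn.pt x hO] with i hi
      rcases hr01 i with h1 | h1
      · rw [mem_preimage, h1, zpow_zero]
        exact mem_of_mem_nhds hO
      · rw [mem_preimage, h1, zpow_one]
        exact hi
    have h1 := hbt.joint hC' (hΦ t x) hrlim
    have h2 := hbs.joint hC (hΦ s (Φ t x)) h1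
    refine tendsto_nhds_unique (hΦ (s + t) x) (h2.congr (fun i => ?_))
    have h3 : n (s + t) i = n s i + (n t i + r i) := by simp only [hr]; ring
    rw [h3, zpow_add, zpow_add]
    rfl
  -- continuity at time zero
  have hcont0 : ∀ x, ∀ O ∈ 𝓝 x, ∃ δ > 0, ∃ V ∈ 𝓝 x, ∀ t : ℝ, |t| < δ → ∀ y ∈ V, Φ t y ∈ O := by
    intro x O hO
    obtain ⟨m⟩ := exists_model ω x
    obtain ⟨ρ₀, hρ₀, -, hsub⟩ := m.disc_basis hO
    have hR := m.R_pos
    set ρ : ℝ := min (ρ₀ / 2) (m.R / 28) with hρ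
    have hρpos : 0 < ρ := by positivity
    have hρ1 : 2 * ρ ≤ ρ₀ := by
      have := min_le_left (ρ₀ / 2) (m.R / 28)
      linarith
    have hρ2 : 28 * ρ ≤ m.R := by
      have := min_le_right (ρ₀ / 2) (m.R / 28)
      linarith
    obtain ⟨δ', hδ', hctl⟩ := LV06_control hh F hδ ha hc m hρpos hρ2
    refine ⟨δ', hδ', m.disc ρ, m.disc_mem_nhds hρpos, fun t ht y hy => ?_⟩
    refine hsub (m.disc_mono hρ1 ?_)
    refine (m.isCompact_disc _).isClosed.mem_of_tendsto (hΦ t y) ?_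
    have h1 : ∀ᶠ i in (𝒰 : Filter ℕ), |(n t i : ℝ) * δ i| < δ' :=
      (hnlim t).abs.eventually_lt_const ht
    filter_upwards [hctl, h1] with i hi1 hi2
    exact (hi1 _ hi2.le y hy).1
  refine ⟨⟨fun t x => Φ t x, ?_, hzero, hadd, fun t => ⟨Φ t, fun x => rfl, hΦ0 t, hΦaff t⟩, ?_, ?_⟩⟩
  · rw [continuous_iff_continuousAt]
    rintro ⟨t₀, x₀⟩
    rw [ContinuousAt, tendsto_def]
    intro O hO
    simp only at hO
    obtain ⟨δ, hδ, V, hV, hVO⟩ := hcont0 _ O hO
    have h1 : ∀ᶠ t in 𝓝 t₀, |t - t₀| < δ := by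
      have h2 : Tendsto (fun t => |t - t₀|) (𝓝 t₀) (𝓝 |t₀ - t₀|) :=
        ((continuous_id.sub continuous_const).abs).tendsto t₀
      rw [sub_self, abs_zero] at h2
      exact h2.eventually_lt_const hδ
    have h2 : ∀ᶠ x in 𝓝 x₀, Φ t₀ x ∈ V := ((Φ t₀).continuous.tendsto x₀) hV
    rw [nhds_prod_eq]
    filter_upwards [h1.prod_mk h2] with q hq
    have h3 := hVO (q.1 - t₀) hq.1 _ hq.2
    rw [← hadd, sub_add_cancel] at h3
    exact h3
  · intro x
    obtain ⟨m⟩ := exists_model ω x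
    have hR := m.R_pos
    have hρ : 0 < m.R / 28 := by positivity
    obtain ⟨δ', hδ', hctl⟩ := LV06_control hh F hδ ha hc m hρ (by linarith)
    refine ⟨δ', hδ', fun t ht => ?_⟩
    have h1 : ∀ᶠ i in (𝒰 : Filter ℕ), |(n t i : ℝ) * δ i| < δ' :=
      (hnlim t).abs.eventually_lt_const ht
    have hx : x ∈ m.disc (m.R / 28) := m.center_mem hρ.le
    have h2 : ∀ᶠ i in (𝒰 : Filter ℕ), (f i ^ n t i) x ∈ m.disc (2 * (m.R / 28)) ∧
        m.φ ((f i ^ n t i) x) ^ m.k = m.φ x ^ m.k +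
          ((kth b (n t i * ε i) * h x : ℝ) : ℂ) * km b + ((n t i * d i : ℝ) : ℂ) := by
      filter_upwards [hctl, h1] with i hi1 hi2
      exact hi1 _ hi2.le x hx
    have h3 : Φ t x ∈ m.disc (2 * (m.R / 28)) :=
      (m.isCompact_disc _).isClosed.mem_of_tendsto (hΦ t x) (h2.mono fun i hi => hi.1)
    have h4 : Tendsto (fun i => m.φ ((f i ^ n t i) x) ^ m.k) 𝒰 (𝓝 (m.φ (Φ t x) ^ m.k)) :=
      (((m.φ.continuousAt h3.1).tendsto).comp (hΦ t x)).pow _
    have h5 : Tendsto (fun i => m.φ x ^ m.k + ((kth b (n t i * ε i) * h x : ℝ) : ℂ) * km b +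
        ((n t i * d i : ℝ) : ℂ)) 𝒰 (𝓝 (m.φ x ^ m.k +
          ((kth b (a * t) * h x : ℝ) : ℂ) * km b + ((c * t : ℝ) : ℂ))) := by
      have h6 : Tendsto (fun i => kth b (n t i * ε i)) 𝒰 (𝓝 (kth b (a * t))) :=
        ((continuous_kth b).tendsto _).comp (hnε t)
      have h7 : Continuous fun q : ℝ × ℝ => m.φ x ^ m.k + ((q.1 * h x : ℝ) : ℂ) * km b +
          ((q.2 : ℝ) : ℂ) := by
        fun_prop
      have h8 := (h7.tendsto (kth b (a * t), c * t)).comp (h6.prodMk_nhds (hnd t))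
      exact h8
    have h8 := tendsto_nhds_unique h4 (h5.congr' (h2.mono fun i hi => hi.2.symm))
    rw [m.zero, zero_pow m.hk, zero_add] at h8
    rw [← h8]
    exact m.seg_of_mem h3
  · intro t x
    have h1 : Tendsto (fun i => h ((f i ^ n t i) x)) 𝒰 (𝓝 (h (Φ t x))) :=
      (hh.cont.tendsto _).comp (hΦ t x)
    have h2 : Tendsto (fun i => kch b (n t i * ε i) * h x) 𝒰 (𝓝 (kch b (a * t) * h x)) :=
      (((LV06_kch_cont b).tendsto _).comp (hnε t)).mul_const _
    refine tendsto_nhds_unique h1 (h2.congr fun i => ?_)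
    rw [LV06_zpow_ht (hht i)]

end LadderVeech
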