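import Pool.Agent.LadderVeech.LV04
import Pool.Agent.LadderVeech.LV05

/-!
LV07. Consequences of an `HFlow` (structure in LVDefs).

PROOFS.
* `sing_fixed`: `Φ t` preserves `sing` (aff), `t ↦ Φ t x` is continuous with values in the discrete closed set
  `sing`, so constant `= Φ 0 x = x`.
* `sing_disp`: for small `t`: `Seg ω x w x` with `w = kth b (a t) h x km b + c t` small; `m.trap` at the centre of
  a model `m` at `x` gives `0 = m.φ x ^ k = w`. So `kth b (a t) h x km b + c t = 0` for all small `t`.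
  `false`: `a t h x + c t = 0`, so `a h x + c = 0`. `true`: imaginary part `(e^{at} - 1) h x = 0`.
* `mv_false` : `γ u = Φ (u / h x) x` on `J = univ` (`a = 1`, `c = 0`, `b = false`, `h` constant along the flow).
  At `t`: for `u` near `t`, with `y = γ t`: `γ u = Φ ((u - t)/h x) y`, `disp` at `y` gives
  `Seg ω y (u - t) (γ u)`, and in the chart `e` at the regular point `y` (`h y ≠ 0`, not in sing):
  `e (γ u) = e y + (u - t)` (model with `k = 1`, exists_model_reg, and m.trap at the centre).
* `mv_true` : `γ u = Φ (log (1 + u / h x)) x` on `J = {u | 0 < 1 + u / h x}`;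
  `h (γ u) = h x + u`; velocity `I`. Move length `kth true t * h x = (e^t - 1) h x`.
* `rescale`: `Φ' t = Φ (t / a)`. `shift`: a shear flow with `c` is a shear flow with `c = 0` for `h + c`.
* `translation_mv`: for `a = 0` (any `b`), `c ≠ 0`: `sing = ∅` by `sing_disp`-argument (`kth b 0 = 0`, `c t = 0`)
  and `γ u = Φ (u / c) x` has velocity `1`.
-/

open Set Filter Topology

namespace LadderVeech

variable {ω : TranslationStructure Ladder} {h : Ladder → ℝ} {b : Bool} {a c : ℝ}

lemma LV07_seg_chart {e : OpenPartialHomeomorph Ladder ℂ} (he : e ∈ ω.atlas) {y : Ladder}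
    (hy : y ∈ e.source) : ∃ R > 0, ∀ (w : ℂ) (z : Ladder), ‖w‖ < R → Seg ω y w z →
      e z = e y + w := by
  obtain ⟨m, hk, -, hφ⟩ := exists_model_reg he hy
  refine ⟨m.R, m.R_pos, fun w z hw hs => ?_⟩
  have h1 := (m.trap (m.center_mem le_rfl) hs (by rwa [zero_add])).2
  rw [hk, pow_one, pow_one, hφ, hφ] at h1
  linear_combination h1

lemma LV07_seg_zero {y z : Ladder} (hs : Seg ω y 0 z) : z = y := by
  obtain ⟨m⟩ := exists_model ω y
  have h1 := m.trap (m.center_mem le_rfl) hs (by rw [norm_zero, zero_add]; exact m.R_pos)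
  have h2 := h1.2
  rw [m.zero, zero_pow m.hk, add_zero] at h2
  have h3 : m.φ z = 0 := pow_eq_zero_iff m.hk |>.1 h2
  exact m.φ.injOn h1.1.1 m.mem (by rw [h3, m.zero])

lemma LV07_disp_cont (b : Bool) (a c r : ℝ) : Continuous fun t : ℝ =>
    ((kth b (a * t) * r : ℝ) : ℂ) * km b + ((c * t : ℝ) : ℂ) := by
  have h1 : Continuous fun t : ℝ => kth b (a * t) * r :=
    ((continuous_kth b).comp (continuous_const.mul continuous_id)).mul continuous_const
  exact ((Complex.continuous_ofReal.comp h1).mul continuous_const).add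
    (Complex.continuous_ofReal.comp (continuous_const.mul continuous_id))

lemma LV07_km_ne (b : Bool) : km b ≠ 0 := by
  cases b <;> simp [km, Complex.I_ne_zero]

lemma HFlow.sing_fixed (F : HFlow ω h b a c) {x : Ladder} (hx : x ∈ ω.sing) (t : ℝ) :
    F.Φ t x = x := by
  have hmem : ∀ t, F.Φ t x ∈ ω.sing := by
    intro t
    obtain ⟨f, hf, -, hA⟩ := F.aff t
    rw [← hf, hA.mem_iff]
    exact hx
  have hd : DiscreteTopology ω.sing := ω.isDiscrete_sing.to_subtype
  have hc : Continuous fun t : ℝ => F.Φ t x :=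
    F.cont.comp (continuous_id.prodMk continuous_const)
  have hc' : Continuous fun t : ℝ => (⟨F.Φ t x, hmem t⟩ : ω.sing) := hc.subtype_mk hmem
  have h1 := PreconnectedSpace.constant (inferInstance : PreconnectedSpace ℝ) hc'
    (x := t) (y := 0)
  have h2 := congrArg Subtype.val h1
  simp only at h2
  rw [h2, F.zero]

lemma LV07_sing_disp (F : HFlow ω h b a c) {x : Ladder} (hx : x ∈ ω.sing) :
    ∃ δ > 0, ∀ t : ℝ, |t| < δ →
      ((kth b (a * t) * h x : ℝ) : ℂ) * km b + ((c * t : ℝ) : ℂ) = 0 := by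
  obtain ⟨δ, hδ, hd⟩ := F.disp x
  obtain ⟨m⟩ := exists_model ω x
  have h1 : ∀ᶠ t : ℝ in 𝓝 0,
      ‖((kth b (a * t) * h x : ℝ) : ℂ) * km b + ((c * t : ℝ) : ℂ)‖ < m.R := by
    have h2 := ((LV07_disp_cont b a c (h x)).norm.tendsto 0)
    refine h2.eventually_lt_const ?_
    have h3 : kth b 0 = 0 := (kth_eq_zero b).2 rfl
    simp only [mul_zero, h3, zero_mul, Complex.ofReal_zero, add_zero, norm_zero]
    exact m.R_pos
  obtain ⟨ε, hε, hball⟩ := Metric.eventually_nhds_iff.1 h1
  refine ⟨min δ ε, lt_min hδ hε, fun t ht => ?_⟩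
  have h2 := hd t (ht.trans_le (min_le_left _ _))
  have h3 := hball (y := t) (by
    rw [Real.dist_eq, sub_zero]
    exact ht.trans_le (min_le_right _ _))
  rw [F.sing_fixed hx] at h2
  have h4 := (m.trap (m.center_mem le_rfl) h2 (by rwa [zero_add])).2
  linear_combination -h4

lemma HFlow.sing_zero (F : HFlow ω h b 1 0) {x : Ladder} (hx : x ∈ ω.sing) : h x = 0 := by
  obtain ⟨δ, hδ, hd⟩ := LV07_sing_disp F hx
  have h1 := hd (δ / 2) (by rw [abs_of_pos (by positivity)]; linarith)
  rw [zero_mul, Complex.ofReal_zero, add_zero, one_mul] at h1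
  have h2 := (mul_eq_zero.1 h1).resolve_right (LV07_km_ne b)
  have h3 : kth b (δ / 2) * h x = 0 := by exact_mod_cast h2
  refine (mul_eq_zero.1 h3).resolve_left fun h4 => ?_
  have := (kth_eq_zero b).1 h4
  linarith

lemma HFlow.sing_zero_true (F : HFlow ω h true 1 c) {x : Ladder} (hx : x ∈ ω.sing) : h x = 0 := by
  obtain ⟨δ, hδ, hd⟩ := LV07_sing_disp F hx
  have h1 := hd (δ / 2) (by rw [abs_of_pos (by positivity)]; linarith)
  have h2 := congrArg Complex.im h1
  have h3 : kth true (δ / 2) * h x = 0 := by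
    simpa [km] using h2
  refine (mul_eq_zero.1 h3).resolve_left fun h4 => ?_
  have := (kth_eq_zero true).1 h4
  linarith

/-- the inverse of `kth b` -/
noncomputable def LV07_tau (b : Bool) (u : ℝ) : ℝ := if b then Real.log (1 + u) else u

lemma LV07_kth_tau (b : Bool) {u : ℝ} (hu : b = true → 0 < 1 + u) :
    kth b (LV07_tau b u) = u := by
  cases b
  · simp [kth, LV07_tau]
  · have := hu rfl
    simp only [kth, LV07_tau, if_true]
    rw [Real.exp_log this]
    ring

lemma LV07_tau_kth (b : Bool) (t : ℝ) : LV07_tau b (kth b t) = t := by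
  cases b
  · simp [kth, LV07_tau]
  · simp only [kth, LV07_tau, if_true]
    rw [add_sub_cancel, Real.log_exp]

lemma LV07_tau_cont (b : Bool) : ContinuousOn (LV07_tau b) {u | b = true → 0 < 1 + u} := by
  cases b
  · have : LV07_tau false = fun u => u := by
      funext u
      simp [LV07_tau]
    rw [this]
    exact continuousOn_id
  · have : LV07_tau true = fun u => Real.log (1 + u) := by
      funext u
      simp [LV07_tau]
    rw [this]
    refine ContinuousOn.log (by fun_prop) ?_
    intro u hu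
    exact (hu rfl).ne'

lemma HFlow.mv (F : HFlow ω h b 1 0) {x : Ladder} (hx : h x ≠ 0) (t : ℝ) :
    Mv ω {y | h y ≠ 0} (km b) (kth b t * h x) x (F.Φ t x) := by
  have hkth0 : kth b 0 = 0 := (kth_eq_zero b).2 rfl
  have htau0 : LV07_tau b 0 = 0 := by
    have := LV07_tau_kth b 0
    rwa [hkth0] at this
  have hdivc : Continuous fun u : ℝ => u / h x := continuous_id.div_const _
  have hJc : ContinuousOn (fun u : ℝ => LV07_tau b (u / h x))
      {u | b = true → 0 < 1 + u / h x} :=
    (LV07_tau_cont b).comp hdivc.continuousOn (fun u hu => hu)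
  have hJo : IsOpen {u : ℝ | b = true → 0 < 1 + u / h x} := by
    cases b
    · simp
    · simp only [forall_const]
      exact isOpen_lt continuous_const (continuous_const.add hdivc)
  refine ⟨{u | b = true → 0 < 1 + u / h x}, hJo, ?_, ?_, ?_,
    fun u => F.Φ (LV07_tau b (u / h x)) x, ?_, ?_, ?_, ?_⟩
  · refine ⟨fun u hu v hv w hw hb => ?_⟩
    have h1 := hu hb
    have h2 := hv hb
    rcases lt_or_gt_of_ne hx with hneg | hpos
    · have : v / h x ≤ w / h x := by
        rw [div_le_div_right_of_neg hneg]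
        exact hw.2
      linarith
    · have : u / h x ≤ w / h x := by
        rw [div_le_div_iff_of_pos_right hpos]
        exact hw.1
      linarith
  · intro _
    rw [zero_div]
    norm_num
  · intro hb
    rw [mul_div_assoc, div_self hx, mul_one]
    subst hb
    simp only [kth, if_true]
    have := Real.exp_pos t
    linarith
  · have h1 : ContinuousOn (fun u : ℝ => (LV07_tau b (u / h x), x))
        {u | b = true → 0 < 1 + u / h x} := hJc.prodMk continuousOn_const
    exact F.cont.comp_continuousOn h1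
  · simp only [zero_div, htau0, F.zero]
  · simp only [mul_div_assoc, div_self hx, mul_one, LV07_tau_kth]
  · intro u₀ hu₀
    have hheight : ∀ s, h (F.Φ s x) = kch b s * h x := by
      intro s
      rw [F.ht, one_mul]
    refine ⟨?_, fun e he hye => ?_⟩
    · show h _ ≠ 0
      rw [hheight]
      exact mul_ne_zero (kch_pos b _).ne' hx
    · obtain ⟨R, hR, hseg⟩ := LV07_seg_chart he hye
      obtain ⟨δ, hδ, hd⟩ := F.disp (F.Φ (LV07_tau b (u₀ / h x)) x)
      have hcat : ContinuousAt (fun u : ℝ => LV07_tau b (u / h x)) u₀ :=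
        hJc.continuousAt (hJo.mem_nhds hu₀)
      have h1 : ∀ᶠ u in 𝓝 u₀, |LV07_tau b (u / h x) - LV07_tau b (u₀ / h x)| < δ := by
        have h2 : Tendsto (fun u : ℝ => |LV07_tau b (u / h x) - LV07_tau b (u₀ / h x)|) (𝓝 u₀)
            (𝓝 |LV07_tau b (u₀ / h x) - LV07_tau b (u₀ / h x)|) :=
          (hcat.sub continuousAt_const).abs
        rw [sub_self, abs_zero] at h2
        exact h2.eventually_lt_const hδ
      have h2 : ∀ᶠ u : ℝ in 𝓝 u₀, ‖((u - u₀ : ℝ) : ℂ) * km b‖ < R := by
        have h3 : Continuous fun u : ℝ => ‖((u - u₀ : ℝ) : ℂ) * km b‖ := by fun_prop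
        have h4 := h3.tendsto u₀
        rw [sub_self, Complex.ofReal_zero, zero_mul, norm_zero] at h4
        exact h4.eventually_lt_const hR
      filter_upwards [h1, h2, hJo.mem_nhds hu₀] with u hu1 hu2 hu3
      refine hseg _ _ hu2 ?_
      have h5 := hd _ hu1
      rw [← F.add, sub_add_cancel] at h5
      have h6 := kth_add b (LV07_tau b (u / h x) - LV07_tau b (u₀ / h x))
        (LV07_tau b (u₀ / h x))
      rw [sub_add_cancel, LV07_kth_tau b hu3, LV07_kth_tau b hu₀] at h6
      have h7 : kth b (1 * (LV07_tau b (u / h x) - LV07_tau b (u₀ / h x))) *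
          h (F.Φ (LV07_tau b (u₀ / h x)) x) = u - u₀ := by
        rw [hheight, one_mul, ← mul_assoc]
        have h8 : kth b (LV07_tau b (u / h x) - LV07_tau b (u₀ / h x)) *
            kch b (LV07_tau b (u₀ / h x)) = u / h x - u₀ / h x := by linarith
        rw [h8, sub_mul, div_mul_cancel₀ _ hx, div_mul_cancel₀ _ hx]
      rw [h7, zero_mul, Complex.ofReal_zero, add_zero] at h5
      exact h5

/-- horizontal completeness off the level zero -/
lemma HFlow.hc (F : HFlow ω h false 1 0) {x : Ladder} (hx : h x ≠ 0) (t : ℝ) :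
    ∃ y, Mv ω {y | h y ≠ 0} 1 t x y := by
  refine ⟨F.Φ (t / h x) x, ?_⟩
  have h1 := F.mv hx (t / h x)
  have h2 : kth false (t / h x) * h x = t := by
    simp only [kth, Bool.false_eq_true, if_false]
    exact div_mul_cancel₀ _ hx
  have h3 : km false = 1 := by simp [km]
  rwa [h2, h3] at h1

/-- points of height zero are fixed -/
lemma HFlow.zero_fixed (F : HFlow ω h b 1 0) {x : Ladder} (hx : h x = 0) (t : ℝ) :
    F.Φ t x = x := by
  obtain ⟨δ, hδ, hd⟩ := F.disp x
  have h1 : ∀ t : ℝ, |t| < δ → F.Φ t x = x := by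
    intro t ht
    have h2 := hd t ht
    rw [hx, mul_zero, zero_mul, Complex.ofReal_zero, zero_mul, add_zero] at h2
    exact LV07_seg_zero h2
  have h2 : ∀ (n : ℕ) (s : ℝ), |s| < δ → F.Φ (n * s) x = x := by
    intro n s hs
    induction n with
    | zero => rw [Nat.cast_zero, zero_mul, F.zero]
    | succ n ih =>
      rw [Nat.cast_succ, add_mul, one_mul, F.add, h1 s hs, ih]
  obtain ⟨n, hn⟩ := exists_nat_gt (|t| / δ)
  have hn0 : (0 : ℝ) < n := lt_of_le_of_lt (by positivity) hn
  have h3 := h2 n (t / n) (by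
    rw [abs_div, abs_of_pos hn0, div_lt_iff₀ hn0]
    rw [div_lt_iff₀ hδ] at hn
    linarith)
  rwa [mul_div_cancel₀ _ hn0.ne'] at h3

lemma HFlow.rescale (F : HFlow ω h b a c) (ha : a ≠ 0) : Nonempty (HFlow ω h b 1 (c / a)) := by
  have haa : ∀ t : ℝ, a * (t / a) = 1 * t := by
    intro t
    rw [mul_div_cancel₀ _ ha, one_mul]
  refine ⟨⟨fun t x => F.Φ (t / a) x, ?_, ?_, ?_, ?_, ?_, ?_⟩⟩
  · have h1 : Continuous fun q : ℝ × Ladder => (q.1 / a, q.2) :=
      (continuous_fst.div_const _).prodMk continuous_snd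
    exact F.cont.comp h1
  · intro x
    rw [zero_div, F.zero]
  · intro s t x
    rw [add_div, F.add]
  · intro t
    obtain ⟨f, h1, h2, h3⟩ := F.aff (t / a)
    rw [haa] at h3
    exact ⟨f, h1, h2, h3⟩
  · intro x
    obtain ⟨δ, hδ, hd⟩ := F.disp x
    refine ⟨δ * |a|, mul_pos hδ (abs_pos.2 ha), fun t ht => ?_⟩
    have h1 := hd (t / a) (by
      rw [abs_div, div_lt_iff₀ (abs_pos.2 ha)]
      exact ht)
    rw [haa] at h1
    have h2 : c / a * t = c * (t / a) := by ring
    rw [h2]
    exact h1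
  · intro t x
    rw [F.ht, haa]

lemma HFlow.shift (F : HFlow ω h false 1 c) :
    Nonempty (HFlow ω (fun x => h x + c) false 1 0) := by
  refine ⟨⟨F.Φ, F.cont, F.zero, F.add, F.aff, ?_, ?_⟩⟩
  · intro x
    obtain ⟨δ, hδ, hd⟩ := F.disp x
    refine ⟨δ, hδ, fun t ht => ?_⟩
    have h1 := hd t ht
    have h2 : ((kth false (1 * t) * (h x + c) : ℝ) : ℂ) * km false + ((0 * t : ℝ) : ℂ) =
        ((kth false (1 * t) * h x : ℝ) : ℂ) * km false + ((c * t : ℝ) : ℂ) := by
      simp only [kth, km, Bool.false_eq_true, if_false]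
      push_cast
      ring
    rw [h2]
    exact h1
  · intro t x
    have h1 := F.ht t x
    simp only [kch, Bool.false_eq_true, if_false, one_mul] at h1 ⊢
    rw [h1]

lemma HFlow.translation_sing (F : HFlow ω h b 0 c) (hc : c ≠ 0) : ω.sing = ∅ := by
  rw [Set.eq_empty_iff_forall_notMem]
  intro x hx
  obtain ⟨δ, hδ, hd⟩ := LV07_sing_disp F hx
  have h1 := hd (δ / 2) (by rw [abs_of_pos (by positivity)]; linarith)
  rw [zero_mul, (kth_eq_zero b).2 rfl, zero_mul, Complex.ofReal_zero, zero_mul, zero_add] at h1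
  have h2 : c * (δ / 2) = 0 := by exact_mod_cast h1
  rcases mul_eq_zero.1 h2 with h3 | h3
  · exact hc h3
  · linarith

lemma HFlow.translation_hc (F : HFlow ω h b 0 c) (hc : c ≠ 0) (x : Ladder) (t : ℝ) :
    ∃ y, Mv ω univ 1 t x y := by
  refine ⟨F.Φ (t / c) x, univ, isOpen_univ, ordConnected_univ, mem_univ _, mem_univ _,
    fun u => F.Φ (u / c) x, ?_, ?_, rfl, ?_⟩
  · have h1 : Continuous fun u : ℝ => (u / c, x) :=
      (continuous_id.div_const _).prodMk continuous_const
    exact (F.cont.comp h1).continuousOn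
  · simp only [zero_div, F.zero]
  · intro u₀ _
    refine ⟨mem_univ _, fun e he hye => ?_⟩
    obtain ⟨R, hR, hseg⟩ := LV07_seg_chart he hye
    obtain ⟨δ, hδ, hd⟩ := F.disp (F.Φ (u₀ / c) x)
    have h1 : ∀ᶠ u : ℝ in 𝓝 u₀, |(u - u₀) / c| < δ := by
      have h3 : Continuous fun u : ℝ => |(u - u₀) / c| := by fun_prop
      have h4 := h3.tendsto u₀
      rw [sub_self, zero_div, abs_zero] at h4
      exact h4.eventually_lt_const hδ
    have h2 : ∀ᶠ u : ℝ in 𝓝 u₀, ‖((u - u₀ : ℝ) : ℂ) * 1‖ < R := by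
      have h3 : Continuous fun u : ℝ => ‖((u - u₀ : ℝ) : ℂ) * 1‖ := by fun_prop
      have h4 := h3.tendsto u₀
      rw [sub_self, Complex.ofReal_zero, zero_mul, norm_zero] at h4
      exact h4.eventually_lt_const hR
    filter_upwards [h1, h2] with u hu1 hu2
    refine hseg _ _ hu2 ?_
    have h5 := hd _ hu1
    rw [← F.add, ← add_div, sub_add_cancel, zero_mul, (kth_eq_zero b).2 rfl, zero_mul,
      Complex.ofReal_zero, zero_mul, zero_add, mul_div_cancel₀ _ hc] at h5
    rw [mul_one]
    exact h5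

end LadderVeech
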