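import Pool.Agent.LadderVeech.LV12
import Pool.Agent.LadderVeech.LV07

/-!
LV08. No horizontally complete structures, no translation flows.

PROOF of `no_hc`. `O = univ`, the component of every point is `univ` (PreconnectedSpace Ladder). `K₀` is compact
(isCompact_slab) and nonempty; let `x₀ ∈ K₀` minimise `h` on `K₀`; by IsHt.exists_lt there is `z₀` with
`h z₀ < h x₀`. `push` with the constant `c = h z₀`, `u = hu`: a point `z` with `h z = h z₀` is not in `K₀`, so
`hu z = 1` (hu_eq_one_of_notMem, NoHyp.lean). So `IsSq hu univ`, contradiction to `not_isSq_hu` (Handle.lean).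
`no_trans`: HFlow.translation_sing and HFlow.translation_hc.
-/

open Set Filter Topology

namespace LadderVeech

variable {ω : TranslationStructure Ladder} {h : Ladder → ℝ}

theorem no_hc (hh : IsHt ω h) (hs : ω.sing = ∅) (HC : ∀ x, ∀ t : ℝ, ∃ y, Mv ω univ 1 t x y) :
    False := by
  have hK : IsCompact K₀ := isCompact_slab _ _
  have hne : K₀.Nonempty := ⟨loop 0, loop_mem 0⟩
  obtain ⟨x₀, hx₀, hmin⟩ := hK.exists_isMinOn hne hh.cont.continuousOn
  obtain ⟨z₀, -, hz₀⟩ := hh.exists_lt (x := x₀) (O := univ) univ_mem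
  have hcomp : ∀ x : Ladder, connectedComponentIn (univ : Set Ladder) x = univ := by
    intro x
    rw [connectedComponentIn_univ]
    exact PreconnectedSpace.connectedComponent_eq_univ x
  obtain ⟨s, hsc, hsq, -⟩ := push (ω := ω) hh (O := univ) isOpen_univ
    (by rw [hs, compl_empty]) (fun x _ t => HC x t) (fun _ => h z₀)
    (fun x _ => ⟨z₀, by rw [hcomp x]; exact mem_univ _, rfl⟩) (fun _ _ _ _ => rfl) hu
    (by
      intro x _ z _ hz
      apply hu_eq_one_of_notMem
      intro hzK
      have h1 : h x₀ ≤ h z := hmin hzK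
      rw [hz] at h1
      exact absurd hz₀ (not_lt.2 h1))
  exact not_isSq_hu ⟨s, hsc.mono (subset_univ _), fun p _ => hsq p (mem_univ _)⟩

theorem no_trans (hh : IsHt ω h) {b : Bool} {c : ℝ} (hc : c ≠ 0) (F : HFlow ω h b 0 c) :
    False :=
  no_hc hh (F.translation_sing hc) (F.translation_hc hc)

end LadderVeech
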