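import Pool.Agent.LadderVeech.LV06
import Pool.Agent.LadderVeech.LV08

/-!
LV09. Normalised flows.

PROOF of `exists_shear_flow`. `𝒰 = hyperfilter ℕ`, `ε i = 1/(i+1)`. `exists_nearId` (Flow.lean) gives zero flux
`f i` with derivative `expGL (ε i • kX false)`, NearId. `exists_disp` (LV05): `h₀`, `D i → 0`, displacement
`kth (ε i) h₀ y km + D i`. `h₀ (f i x) = h₀ x` by IsHt.zeroFlux (entries by expGL_kX_entries). With IsHt.seg:
imaginary part of the displacement is `h₀ (f i y) - h₀ y = 0`, so `D i` is real eventually (the `km` term is real).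
Put `d i = (D i).re`, `δ i = max (ε i) |d i| > 0`, `→ 0`. `ε i / δ i ∈ [0,1]`, `d i / δ i ∈ [-1,1]` converge
along `𝒰` (compactness: `Ultrafilter` limits, `IsCompact.ultrafilter_le_nhds'` or exists_lim_of_compact) to
`a, c`, and `max a |c| = 1`. near_flow (LV06): `HFlow ω h₀ false a c`. `a ≠ 0` by `no_trans`
(then `c = ± 1 ≠ 0`). HFlow.rescale, HFlow.shift.
(`hd` in near_flow is only needed eventually for each `y`; `D i = d i` eventually.)

PROOF of `exists_scale_flow`. The same with `b = true`, after the normalisation of `h₀`: for zero flux `f` with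
derivative `expGL (t • kX true)`: `h₀ ∘ f = e^t h₀ + c_f` (IsHt.affine); `c_f` depends only on `t`: for two such
`f, g` the map `f g⁻¹` is a zero flux translation and preserves `h₀` (IsHt.zeroFlux). So `c_f = C t`; for `f, g`
with parameters `s, t` both `f g` and `g f` have parameter `s + t` (`C (s+t) = e^s C t + C s = e^t C s + C t`),
so `C t (e^s - 1) = C s (e^t - 1)`, hence `C t = c₀ (e^t - 1)` with `c₀ = C 1 / (e - 1)`; `h = h₀ + c₀` satisfies
`h ∘ f = e^t h`. (Existence of `f` for every `t`: `hX` and mem_veechZero.) Take the near-identity family, `exists_disp'`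
for this `h`: displacement `(e^{ε i} - 1) h y I + D i`, imaginary part must be `h (f i y) - h y = (e^{ε i} - 1) h y`,
so `D i` is real. Then as before; `a ≠ 0` by `no_trans`; HFlow.rescale gives `HFlow ω h true 1 (c/a)`.

PROOF of `zero_of_translations`: a family of zero flux translations `g i` (derivative `1 = expGL (0 • kX b)`), NearId,
with displacement `d i` real, `d i ≠ 0`, `d i → 0`: near_flow with `ε = 0`, `δ i = |d i|`, `a = 0`, `c = ± 1`
(along the ultrafilter): contradiction to `no_trans`.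
-/

open Set Filter Topology

namespace LadderVeech

variable {ω : TranslationStructure Ladder}

/-- the common part -/
private lemma LV09_core {h : Ladder → ℝ} (hh : IsHt ω h) {b : Bool} {𝒰 : Ultrafilter ℕ}
    {f : ℕ → Ladder ≃ₜ Ladder} {ε : ℕ → ℝ} (hε : ∀ i, 0 < ε i) (hε0 : Tendsto ε 𝒰 (𝓝 0))
    (hn : NearId ω 𝒰 f (fun i => expGL (ε i • kX b))) (h0 : ∀ i, ZeroFlux ω (f i))
    (hht : ∀ i x, h (f i x) = kch b (ε i) * h x) {D : ℕ → ℂ} (hD0 : Tendsto D 𝒰 (𝓝 0))
    (hD : ∀ y, ∀ᶠ i in (𝒰 : Filter ℕ),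
      Seg ω y (((kth b (ε i) * h y : ℝ) : ℂ) * km b + D i) (f i y)) :
    ∃ c, Nonempty (HFlow ω h b 1 c) := by
  -- the displacement is real
  have him : ∀ᶠ i in (𝒰 : Filter ℕ), (D i).im = 0 := by
    filter_upwards [hD (pt 0)] with i hi
    have h1 := hh.seg hi
    rw [hht, kch_eq, Complex.add_im, Complex.im_ofReal_mul] at h1
    linarith
  set d : ℕ → ℝ := fun i => (D i).re with hd
  have hd0 : Tendsto d 𝒰 (𝓝 0) := by
    have h1 := (Complex.continuous_re.tendsto 0).comp hD0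
    exact h1
  have hDd : ∀ y, ∀ᶠ i in (𝒰 : Filter ℕ),
      Seg ω y (((kth b (ε i) * h y : ℝ) : ℂ) * km b + ((d i : ℝ) : ℂ)) (f i y) := by
    intro y
    filter_upwards [hD y, him] with i hi hi2
    have h1 : D i = ((d i : ℝ) : ℂ) := by
      apply Complex.ext
      · simp [hd]
      · simp [hi2]
    rwa [← h1]
  set δ : ℕ → ℝ := fun i => max (ε i) |d i| with hδ
  have hδpos : ∀ i, 0 < δ i := fun i => lt_max_of_lt_left (hε i)
  have hδ0 : Tendsto δ 𝒰 (𝓝 0) := by
    have h1 := hε0.max hd0.abs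
    rwa [abs_zero, max_self] at h1
  obtain ⟨a, -, ha⟩ := exists_lim_of_compact (𝒰 := 𝒰) (g := fun i => ε i / δ i)
    (isCompact_Icc (a := (0 : ℝ)) (b := 1)) (Eventually.of_forall fun i =>
      ⟨div_nonneg (hε i).le (hδpos i).le, (div_le_one (hδpos i)).2 (le_max_left _ _)⟩)
  obtain ⟨c, -, hc⟩ := exists_lim_of_compact (𝒰 := 𝒰) (g := fun i => d i / δ i)
    (isCompact_Icc (a := (-1 : ℝ)) (b := 1)) (Eventually.of_forall fun i => by
      have h1 : |d i / δ i| ≤ 1 := by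
        rw [abs_div, abs_of_pos (hδpos i)]
        exact (div_le_one (hδpos i)).2 (le_max_right _ _)
      exact abs_le.1 h1)
  obtain ⟨F⟩ := near_flow hh hn h0 hht hDd hδpos hδ0 ha hc
  have hmax : max a |c| = 1 := by
    have h1 := ha.max hc.abs
    have h2 : (fun i => max (ε i / δ i) |d i / δ i|) = fun _ => (1 : ℝ) := by
      funext i
      rw [abs_div, abs_of_pos (hδpos i), max_div_div_right (hδpos i).le, div_self (hδpos i).ne']
    rw [h2] at h1
    exact tendsto_nhds_unique h1 tendsto_const_nhds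
  have ha0 : a ≠ 0 := by
    rintro rfl
    have hc0 : c ≠ 0 := by
      rintro rfl
      simp at hmax
    exact no_trans hh hc0 F
  exact ⟨_, F.rescale ha0⟩

private lemma LV09_eps : ∃ (𝒰 : Ultrafilter ℕ) (ε : ℕ → ℝ), (∀ i, 0 < ε i) ∧
    Tendsto ε 𝒰 (𝓝 0) := by
  refine ⟨Filter.hyperfilter ℕ, fun n => 1 / ((n : ℝ) + 1), fun i => by positivity, ?_⟩
  refine tendsto_one_div_add_atTop_nhds_zero_nat.mono_left ?_
  rw [← Nat.cofinite_eq_atTop]
  exact Filter.hyperfilter_le_cofinite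

theorem exists_shear_flow (hX : kX false ∈ tang (veechZero ω)) :
    ∃ h, IsHt ω h ∧ Nonempty (HFlow ω h false 1 0) := by
  obtain ⟨𝒰, ε, hε, hε0⟩ := LV09_eps
  obtain ⟨f, hn, h0⟩ := exists_nearId hX hε0
  have : Nonempty Ladder := ⟨pt 0⟩
  obtain ⟨h, D, hh, hD0, hD⟩ := exists_disp hε hε0 hn
  have hht : ∀ i x, h (f i x) = kch false (ε i) * h x := by
    intro i x
    obtain ⟨e1, e2, -, -⟩ := expGL_kX_entries false (ε i)
    have e3 : kch false (ε i) = 1 := by simp [kch]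
    rw [e3] at e2
    rw [e3, one_mul]
    exact hh.zeroFlux (h0 i) (hn.aff i) e1 e2 x
  obtain ⟨c, ⟨F⟩⟩ := LV09_core hh hε hε0 hn h0 hht hD0 hD
  exact ⟨_, hh.add_const c, F.shift⟩

theorem exists_scale_flow (hX : kX true ∈ tang (veechZero ω)) :
    ∃ h, IsHt ω h ∧ (∃ c, Nonempty (HFlow ω h true 1 c)) ∧
      ∀ (t : ℝ) (f : Ladder ≃ₜ Ladder), ZeroFlux ω f → IsAffine ω f (expGL (t • kX true)) →
        ∀ x, h (f x) = Real.exp t * h x := by
  obtain ⟨𝒰, ε, hε, hε0⟩ := LV09_eps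
  obtain ⟨f, hn, h0⟩ := exists_nearId hX hε0
  have : Nonempty Ladder := ⟨pt 0⟩
  obtain ⟨h₀, D, hh₀, -, -⟩ := exists_disp hε hε0 hn
  have hent : ∀ t : ℝ, expGL (t • kX true) 1 0 = 0 ∧ expGL (t • kX true) 1 1 = Real.exp t := by
    intro t
    obtain ⟨e1, e2, -, -⟩ := expGL_kX_entries true t
    refine ⟨e1, ?_⟩
    rw [e2]
    simp [kch]
  have haff : ∀ (t : ℝ) (g : Ladder ≃ₜ Ladder), IsAffine ω g (expGL (t • kX true)) →
      ∃ C : ℝ, ∀ x, h₀ (g x) = Real.exp t * h₀ x + C := by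
    intro t g hg
    obtain ⟨C, hC⟩ := hh₀.affine hg (hent t).1
    refine ⟨C, fun x => ?_⟩
    rw [hC, (hent t).2]
  obtain ⟨f₁, hf₁, hf₁0⟩ : ∃ g : Ladder ≃ₜ Ladder, IsAffine ω g (expGL ((1 : ℝ) • kX true)) ∧
    ZeroFlux ω g := (mem_veechZero.1 (hX 1)).2
  obtain ⟨C₁, hC₁⟩ := haff 1 f₁ hf₁
  have he1 : Real.exp 1 - 1 ≠ 0 := by
    have := Real.add_one_lt_exp (one_ne_zero)
    intro h
    linarith
  set c₀ : ℝ := C₁ / (Real.exp 1 - 1) with hc₀
  have hc₀' : C₁ = c₀ * (Real.exp 1 - 1) := by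
    rw [hc₀]
    field_simp
  have hnorm : ∀ (t : ℝ) (g : Ladder ≃ₜ Ladder), ZeroFlux ω g →
      IsAffine ω g (expGL (t • kX true)) → ∀ x, h₀ (g x) + c₀ = Real.exp t * (h₀ x + c₀) := by
    intro t g hg0 hg x
    obtain ⟨C, hC⟩ := haff t g hg
    have hAA : expGL (t • kX true) * expGL ((1 : ℝ) • kX true) =
        expGL ((1 : ℝ) • kX true) * expGL (t • kX true) := by
      rw [← expGL_smul_add, ← expGL_smul_add, add_comm]
    have hτ : IsAffine ω ((g * f₁)⁻¹ * (f₁ * g)) 1 := by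
      have h1 := (hg.mul hf₁).inv.mul (hf₁.mul hg)
      rwa [hAA, inv_mul_cancel] at h1
    have hτ0 : ZeroFlux ω ((g * f₁)⁻¹ * (f₁ * g)) := (hg0.mul hf₁0).inv.mul (hf₁0.mul hg0)
    have htr := hh₀.zeroFlux hτ0 hτ (by simp) (by simp) (pt 0)
    set y := ((g * f₁)⁻¹ * (f₁ * g)) (pt 0) with hy
    have hy2 : g (f₁ y) = f₁ (g (pt 0)) := by
      have h1 : (g * f₁) y = (f₁ * g) (pt 0) := by
        rw [hy]
        change (g * f₁) ((g * f₁).symm ((f₁ * g) (pt 0))) = _
        exact Homeomorph.apply_symm_apply _ _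
      exact h1
    have e1 := hC (f₁ y)
    have e2 := hC₁ (g (pt 0))
    rw [hy2, hC₁ y, htr] at e1
    rw [e1, hC (pt 0)] at e2
    have e3 : C * (Real.exp 1 - 1) = c₀ * (Real.exp t - 1) * (Real.exp 1 - 1) := by
      rw [hc₀'] at e2
      linear_combination (-1 : ℝ) * e2
    have e4 := mul_right_cancel₀ he1 e3
    rw [hC, e4]
    ring
  have hh : IsHt ω (fun x => h₀ x + c₀) := hh₀.add_const c₀
  obtain ⟨D', hD0, hD'⟩ := exists_disp' hε0 hn hh
  refine ⟨fun x => h₀ x + c₀, hh, ?_, fun t g hg0 hg x => hnorm t g hg0 hg x⟩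
  refine LV09_core hh hε hε0 hn h0 (fun i x => ?_) hD0 hD'
  have e3 : kch true (ε i) = Real.exp (ε i) := by simp [kch]
  rw [e3]
  exact hnorm (ε i) (f i) (h0 i) (hn.aff i) x

theorem zero_of_translations {h : Ladder → ℝ} (hh : IsHt ω h) {𝒰 : Ultrafilter ℕ}
    {g : ℕ → Ladder ≃ₜ Ladder} {d : ℕ → ℝ} (hn : NearId ω 𝒰 g (fun _ => 1))
    (h0 : ∀ i, ZeroFlux ω (g i)) (hd0 : Tendsto d 𝒰 (𝓝 0)) (hd : ∀ i, d i ≠ 0)
    (hdisp : ∀ y, ∀ᶠ i in (𝒰 : Filter ℕ), Seg ω y ((d i : ℝ) : ℂ) (g i y)) : False := by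
  have hn' : NearId ω 𝒰 g (fun _ => expGL ((0 : ℝ) • kX false)) := by
    rw [zero_smul, expGL_zero]
    exact hn
  have hk : kch false 0 = 1 := by simp [kch]
  have hk' : kth false 0 = 0 := by simp [kth]
  obtain ⟨c, -, hc⟩ := exists_lim_of_compact (𝒰 := 𝒰) (g := fun i => d i / |d i|)
    (isCompact_Icc (a := (-1 : ℝ)) (b := 1)) (Eventually.of_forall fun i => by
      have h1 : |d i / abs (d i)| ≤ 1 := by
        rw [abs_div, abs_abs, div_self (abs_pos.2 (hd i)).ne']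
      exact abs_le.1 h1)
  have hc1 : |c| = 1 := by
    have h1 := hc.abs
    have h2 : (fun i => |d i / abs (d i)|) = fun _ => (1 : ℝ) := by
      funext i
      rw [abs_div, abs_abs, div_self (abs_pos.2 (hd i)).ne']
    rw [h2] at h1
    exact tendsto_nhds_unique h1 tendsto_const_nhds
  have hc0 : c ≠ 0 := by
    rintro rfl
    simp at hc1
  obtain ⟨F⟩ := near_flow (b := false) (ε := fun _ => 0) (d := d) (δ := fun i => |d i|) (a := 0)
    (c := c) hh hn' h0
    (fun i x => by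
      rw [hk, one_mul]
      exact hh.zeroFlux (h0 i) (hn.aff i) (by simp) (by simp) x)
    (fun y => by
      filter_upwards [hdisp y] with i hi
      simpa [hk'] using hi)
    (fun i => abs_pos.2 (hd i))
    (by simpa using hd0.abs)
    (by simp)
    hc
  exact no_trans hh hc0 F

end LadderVeech
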