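import Pool.Agent.LadderVeech.LV03
import Pool.Agent.LadderVeech.LV04

/-!
LV10. If all horizontal lines in `O` are complete, then inside a component of `O` all vertical lines reach
all levels.

PROOF. Horizontal completeness `HC`. (1) Transport of vertical moves by horizontal ones (`vert_transport`):
let `Mv ω O I η x x₁` with the curve `γ` on `J` (vertical, in `O`), and `t` real. For `u ∈ J` let `g u` be the
point with `Mv ω O 1 t (γ u) (g u)` (HC, unique by Mv.unique). Then `g` is a vertical curve on `J`: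
by `Mv.stable` at `(γ u, t)` (with charts `e` at `γ u`, `e'` at `g u`): for `u'` near `u` the point `g u'` is the
unique end point, it is in any given neighbourhood of `g u` and
`e' (g u') = e' (g u) + (e (γ u') - e (γ u)) = e' (g u) + (u' - u) I`. So `Mv ω O I η (g 0) (g η)`.
(2) For `p ∈ O` let `B p = {z | ∃ s t y, Mv ω O I s p y ∧ Mv ω O 1 t y z}`. Let `N` be a box neighbourhood
(exists_box, LV02) of a point `x ∈ O`. Claim: for `z, z' ∈ N`, `z ∈ B p → z' ∈ B p`. Indeed exists_box gives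
`w` with `Mv I η z w`, `Mv 1 ξ w z'`. With `Mv I s p y`, `Mv 1 t y z`: transport the vertical move `z → w` by the
horizontal move of length `-t`: `z ↦ y` (Mv.symm, uniqueness), `w ↦ y'` with `Mv I η y y'`,
`Mv 1 (-t) w y'`. So `Mv I (s + η) p y'` and `Mv 1 (t + ξ) y' z'` (Mv.trans, Mv.symm).
(3) Hence `B p ∩ O` and its complement in `O` are open; the component `connectedComponentIn O p` is
preconnected and contains `p ∈ B p`, so it is contained in `B p`.
(4) For `z` in the component: `h z = h y` (horizontal move), `h y = h p + s` (IsHt.mv), so `s = h z - h p`.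
-/

open Set Filter Topology

namespace LadderVeech

variable {S : Type*} [TopologicalSpace S] {ω : TranslationStructure S} {O : Set S} {v : ℂ}

lemma vert_transport [T2Space S] (hO : IsOpen O) (hOs : O ⊆ ω.singᶜ)
    (HC : ∀ x ∈ O, ∀ t : ℝ, ∃ y, Mv ω O 1 t x y) {η t : ℝ} {x x₁ y : S}
    (h1 : Mv ω O Complex.I η x x₁) (h2 : Mv ω O 1 t x y) :
    ∃ y₁, Mv ω O 1 t x₁ y₁ ∧ Mv ω O Complex.I η y y₁ := by
  obtain ⟨J, hJ, hJ', h0, hη, γ, hγ, hγ0, hγη, hγJ⟩ := h1
  have : Nonempty S := ⟨x⟩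
  choose! g hg using fun u (hu : u ∈ J) => HC (γ u) (hγJ u hu).1 t
  have hg0 : g 0 = y := by
    have h3 := hg 0 h0
    rw [hγ0] at h3
    exact Mv.unique hOs h3 h2
  have hev : ∀ u ∈ J, ∀ᶠ u' in 𝓝 u, Mv ω O 1 t (γ u') (g u') := by
    intro u hu
    filter_upwards [hJ.mem_nhds hu] with u' hu'
    exact hg u' hu'
  have hγc : ∀ u ∈ J, Tendsto γ (𝓝 u) (𝓝 (γ u)) := fun u hu => hγ.continuousAt (hJ.mem_nhds hu)
  refine ⟨g η, by rw [← hγη]; exact hg η hη, J, hJ, hJ', h0, hη, g, ?_, hg0, rfl, ?_⟩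
  · intro u hu
    have h3 : ContinuousAt g u :=
      Mv.tendsto hO hOs (hg u hu) (hγc u hu) (tendsto_const_nhds (x := t)) (hev u hu)
    exact h3.continuousWithinAt
  · intro u hu
    refine ⟨(hg u hu).right_mem, fun e' he' hue' => ?_⟩
    obtain ⟨e, he, hue⟩ := ω.covers _ (hOs (hγJ u hu).1)
    have h3 := Mv.stable hO hOs (hg u hu) he hue he' hue' (N := univ) univ_mem
    have h4 : Tendsto (fun u' => (γ u', t)) (𝓝 u) (𝓝 (γ u, t)) :=
      (hγc u hu).prodMk_nhds tendsto_const_nhds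
    filter_upwards [h4.eventually h3, hev u hu, (hγJ u hu).2 e he hue] with u' h5 h6 h7
    obtain ⟨z, -, -, hz1, hz2⟩ := h5
    have h8 : z = g u' := Mv.unique hOs hz1 h6
    rw [← h8, hz2, h7]
    simp

theorem vert_complete' [T2Space S] (hO : IsOpen O) (hOs : O ⊆ ω.singᶜ)
    (HC : ∀ x ∈ O, ∀ t : ℝ, ∃ y, Mv ω O 1 t x y) {x z : S} (hx : x ∈ O)
    (hz : z ∈ connectedComponentIn O x) :
    ∃ s t y, Mv ω O Complex.I s x y ∧ Mv ω O 1 t y z := by
  set B : Set S := {z | ∃ s t y, Mv ω O Complex.I s x y ∧ Mv ω O 1 t y z} with hB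
  have key : ∀ p ∈ O, ∃ N ∈ 𝓝 p, N ⊆ O ∧ ∀ z ∈ N, ∀ z' ∈ N, z ∈ B → z' ∈ B := by
    intro p hp
    obtain ⟨e, he, hpe⟩ := ω.covers p (hOs hp)
    obtain ⟨N, hN, hNO, hbox⟩ := exists_box hO hOs he hp hpe
    refine ⟨N, hN, fun q hq => (hNO hq).1, ?_⟩
    rintro z hz z' hz' ⟨s, t, y, hy1, hy2⟩
    obtain ⟨w, hw1, hw2⟩ := hbox z hz z' hz'
    obtain ⟨y', hy3, hy4⟩ := vert_transport hO hOs HC hw1 hy2.symm
    have h5 := hy3.symm
    exact ⟨_, _, y', hy1.trans hOs hy4, h5.trans hOs hw2⟩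
  have hopen1 : IsOpen (O ∩ B) := by
    rw [isOpen_iff_mem_nhds]
    rintro p ⟨hp, hpB⟩
    obtain ⟨N, hN, hNO, hNB⟩ := key p hp
    exact mem_of_superset hN fun q hq => ⟨hNO hq, hNB p (mem_of_mem_nhds hN) q hq hpB⟩
  have hopen2 : IsOpen (O \ B) := by
    rw [isOpen_iff_mem_nhds]
    rintro p ⟨hp, hpB⟩
    obtain ⟨N, hN, hNO, hNB⟩ := key p hp
    exact mem_of_superset hN fun q hq =>
      ⟨hNO hq, fun hqB => hpB (hNB q hq p (mem_of_mem_nhds hN) hqB)⟩
  have hxB : x ∈ B := ⟨0, 0, x, Mv.refl hO hOs hx, Mv.refl hO hOs hx⟩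
  have hsub : connectedComponentIn O x ⊆ O ∩ B := by
    refine IsPreconnected.subset_left_of_subset_union hopen1 hopen2 ?_ ?_ ?_
      isPreconnected_connectedComponentIn
    · rw [Set.disjoint_left]
      rintro q ⟨-, hq⟩ ⟨-, hq'⟩
      exact hq' hq
    · intro q hq
      have hqO := connectedComponentIn_subset O x hq
      by_cases hqB : q ∈ B
      · exact Or.inl ⟨hqO, hqB⟩
      · exact Or.inr ⟨hqO, hqB⟩
    · exact ⟨x, mem_connectedComponentIn hx, hx, hxB⟩
  exact (hsub hz).2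

theorem vert_complete [T2Space S] {h : S → ℝ} (hh : IsHt ω h) (hO : IsOpen O) (hOs : O ⊆ ω.singᶜ)
    (HC : ∀ x ∈ O, ∀ t : ℝ, ∃ y, Mv ω O 1 t x y) {x z : S} (hx : x ∈ O)
    (hz : z ∈ connectedComponentIn O x) :
    ∃ y, Mv ω O Complex.I (h z - h x) x y := by
  obtain ⟨s, t, y, h1, h2⟩ := vert_complete' hO hOs HC hx hz
  have h3 := hh.mv hOs h1
  have h4 := hh.mv hOs h2
  rw [Complex.I_im, mul_one] at h3
  rw [Complex.one_im, mul_zero, add_zero] at h4
  refine ⟨y, ?_⟩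
  have h5 : h z - h x = s := by rw [h4, h3]; ring
  rw [h5]
  exact h1

end LadderVeech
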