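import Pool.Agent.LadderVeech.LVDefs

/-!
LV11. Square roots from homotopies.

PROOF. Lift to the covering `Circle.exp : ℝ → Circle`: the map `G : [0,1] × V → Circle`,
`G (θ, p) = u (H (1 - θ) p)`, continuous, `G (0, p) = 1 = Circle.exp 0`. Homotopy lifting for covering maps
with arbitrary base space (Mathlib: `IsCoveringMap.liftHomotopy`-like statements in
Mathlib/Topology/Homotopy/Lifting.lean; the covering: `Circle.isCoveringMap_exp` or through `AddCircle`; see
how exists_good_nhds in Sqrt.lean lifts) gives a continuous `g : [0,1] × V → ℝ` with `g (0, p) = 0` and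
`Circle.exp (g (θ, p)) = G (θ, p)`. Put `s p = Circle.exp (g (1, p) / 2)` on `V` (and `1` elsewhere):
`s p ^ 2 = Circle.exp (g (1,p)) = u (H 0 p) = u p`. If `u (H θ p) = 1` for all `θ`, then `g (·, p)` has values in
`2 π ℤ`, is continuous and starts at `0`, so it is `0` (or: uniqueness of lifts), `s p = 1`.
-/

open Set Filter Topology

namespace LadderVeech

theorem sq_homotopy {X : Type*} [TopologicalSpace X] {V : Set X} (H : ℝ → X → X)
    (hH : ContinuousOn (fun q : ℝ × X => H q.1 q.2) (Icc 0 1 ×ˢ V)) (h0 : ∀ p ∈ V, H 0 p = p)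
    (u : C(X, Circle)) (h1 : ∀ p ∈ V, u (H 1 p) = 1) :
    ∃ s : X → Circle, ContinuousOn s V ∧ (∀ p ∈ V, s p ^ 2 = u p) ∧
      ∀ p ∈ V, (∀ θ ∈ Icc (0 : ℝ) 1, u (H θ p) = 1) → s p = 1 := by
  classical
  have hGc : Continuous fun q : unitInterval × V => u (H (1 - (q.1 : ℝ)) (q.2 : X)) := by
    refine u.continuous.comp ?_
    have h2 : Continuous fun q : unitInterval × V => ((1 - (q.1 : ℝ), (q.2 : X)) : ℝ × X) := by
      fun_prop
    refine hH.comp_continuous h2 fun q => ⟨?_, q.2.2⟩
    exact ⟨by linarith [q.1.2.2], by linarith [q.1.2.1]⟩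
  set G : C(unitInterval × V, Circle) := ⟨_, hGc⟩ with hG
  have hG0 : ∀ a : V, G (0, a) = Circle.exp ((ContinuousMap.const V (0 : ℝ)) a) := by
    intro a
    simp only [hG, ContinuousMap.coe_mk, ContinuousMap.const_apply, Circle.exp_zero,
      Set.Icc.coe_zero, sub_zero]
    exact h1 a a.2
  set g : C(unitInterval × V, ℝ) :=
    Circle.isCoveringMap_exp.liftHomotopy G (ContinuousMap.const V (0 : ℝ)) hG0 with hg
  have hgl : ∀ q, Circle.exp (g q) = G q := fun q =>
    congrFun (Circle.isCoveringMap_exp.liftHomotopy_lifts G (ContinuousMap.const V (0 : ℝ)) hG0) q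
  have hg0 : ∀ a : V, g (0, a) = 0 := fun a =>
    Circle.isCoveringMap_exp.liftHomotopy_zero G (ContinuousMap.const V (0 : ℝ)) hG0 a
  refine ⟨fun p => if hp : p ∈ V then Circle.exp (g (1, ⟨p, hp⟩) / 2) else 1, ?_, ?_, ?_⟩
  · rw [continuousOn_iff_continuous_domRestrict]
    have h2 : V.domRestrict (fun p => if hp : p ∈ V then Circle.exp (g (1, ⟨p, hp⟩) / 2) else 1) =
        fun p : V => Circle.exp (g (1, p) / 2) := by
      funext p
      rw [Set.domRestrict_apply, dif_pos p.2]
    rw [h2]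
    fun_prop
  · intro p hp
    simp only [hp, dif_pos]
    have h2 := hgl (1, ⟨p, hp⟩)
    have h3 : G (1, ⟨p, hp⟩) = u p := by
      simp only [hG, ContinuousMap.coe_mk, Set.Icc.coe_one, sub_self]
      rw [h0 p hp]
    rw [sq, ← Circle.exp_add, add_halves, h2, h3]
  · intro p hp hθ
    simp only [hp, dif_pos]
    have h2 : (fun θ : unitInterval => g (θ, ⟨p, hp⟩)) = fun _ => (0 : ℝ) := by
      refine Circle.isCoveringMap_exp.eq_of_comp_eq (by fun_prop) continuous_const ?_ 0
        (hg0 ⟨p, hp⟩)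
      funext θ
      simp only [Function.comp_apply, Circle.exp_zero]
      rw [hgl]
      simp only [hG, ContinuousMap.coe_mk]
      exact hθ _ ⟨by linarith [θ.2.2], by linarith [θ.2.1]⟩
    have h3 : g (1, ⟨p, hp⟩) = 0 := congrFun h2 1
    rw [h3, zero_div, Circle.exp_zero]

end LadderVeech
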