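import Pool.Agent.LadderVeech.LV10
import Pool.Agent.LadderVeech.LV11

/-!
LV12. Pushing along vertical lines to a level on which `u = 1`.

PROOF. Let `x ∈ O`. By `vert_complete` (with `z` in the component, `h z = c x`) there is `y` with
`Mv ω O I (c x - h x) x y`, and by Mv.between a unique point `H θ x` with
`Mv ω O I (θ * (c x - h x)) x (H θ x)` for `θ ∈ [0,1]` (between: `θ (c x - h x) ∈ uIcc 0 (c x - h x)`).
`H 0 x = x` (Mv.refl, Mv.unique). `H` is continuous on `[0,1] × O`: near `x₀ ∈ O`, `c` is constant (`c z = c x₀`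
on the component of `x₀`, which is open: `IsOpen.connectedComponentIn` with `locallyConnected_of ω`
(Flow.lean)), `h` is continuous, so apply `Mv.tendsto` (LV03). `u (H 1 x) = 1`: `H 1 x` is in the component
(Mv.mem_comp) and `h (H 1 x) = c x` (IsHt.mv). Now `sq_homotopy`.
-/

open Set Filter Topology

namespace LadderVeech

variable {S : Type*} [TopologicalSpace S] {ω : TranslationStructure S} {O : Set S}

theorem push [T2Space S] {h : S → ℝ} (hh : IsHt ω h) (hO : IsOpen O) (hOs : O ⊆ ω.singᶜ)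
    (HC : ∀ x ∈ O, ∀ t : ℝ, ∃ y, Mv ω O 1 t x y) (c : S → ℝ)
    (hc : ∀ x ∈ O, ∃ z ∈ connectedComponentIn O x, h z = c x)
    (hcc : ∀ x ∈ O, ∀ z ∈ connectedComponentIn O x, c z = c x) (u : C(S, Circle))
    (hu : ∀ x ∈ O, ∀ z ∈ connectedComponentIn O x, h z = c x → u z = 1) :
    ∃ s : S → Circle, ContinuousOn s O ∧ (∀ x ∈ O, s x ^ 2 = u x) ∧
      ∀ x ∈ O, (∀ t ∈ uIcc 0 (c x - h x), ∀ y, Mv ω O Complex.I t x y → u y = 1) → s x = 1 := by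
  classical
  -- the moves
  have hmv : ∀ x ∈ O, ∀ θ ∈ Icc (0 : ℝ) 1, ∃ y, Mv ω O Complex.I (θ * (c x - h x)) x y := by
    intro x hx θ hθ
    obtain ⟨z, hz, hzc⟩ := hc x hx
    obtain ⟨y, hy⟩ := vert_complete hh hO hOs HC hx hz
    rw [hzc] at hy
    have hmem : θ * (c x - h x) ∈ uIcc 0 (c x - h x) := by
      rcases le_total 0 (c x - h x) with h0 | h0
      · rw [uIcc_of_le h0]
        exact ⟨mul_nonneg hθ.1 h0, mul_le_of_le_one_left h0 hθ.2⟩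
      · rw [uIcc_of_ge h0]
        refine ⟨?_, mul_nonpos_of_nonneg_of_nonpos hθ.1 h0⟩
        nlinarith [hθ.2]
    obtain ⟨r, hr, -⟩ := hy.between hmem
    exact ⟨r, hr⟩
  set H : ℝ → S → S := fun θ x =>
    if hx : x ∈ O ∧ θ ∈ Icc (0 : ℝ) 1 then (hmv x hx.1 θ hx.2).choose else x with hH
  have hHmv : ∀ x ∈ O, ∀ θ ∈ Icc (0 : ℝ) 1, Mv ω O Complex.I (θ * (c x - h x)) x (H θ x) := by
    intro x hx θ hθ
    have hcond : x ∈ O ∧ θ ∈ Icc (0 : ℝ) 1 := ⟨hx, hθ⟩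
    have : H θ x = (hmv x hcond.1 θ hcond.2).choose := by
      simp only [hH]
      rw [dif_pos hcond]
    rw [this]
    exact (hmv x hcond.1 θ hcond.2).choose_spec
  have h01 : (0 : ℝ) ∈ Icc (0 : ℝ) 1 := ⟨le_rfl, zero_le_one⟩
  have h11 : (1 : ℝ) ∈ Icc (0 : ℝ) 1 := ⟨zero_le_one, le_rfl⟩
  have hcont : ContinuousOn (fun q : ℝ × S => H q.1 q.2) (Icc 0 1 ×ˢ O) := by
    rintro ⟨θ₀, x₀⟩ ⟨hθ₀, hx₀⟩
    have := locallyConnected_of ω
    have hopen : IsOpen (connectedComponentIn O x₀) := hO.connectedComponentIn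
    have hxx : Tendsto (fun q : ℝ × S => q.2) (𝓝[Icc 0 1 ×ˢ O] (θ₀, x₀)) (𝓝 x₀) :=
      (continuous_snd.tendsto (θ₀, x₀)).mono_left nhdsWithin_le_nhds
    have hθθ : Tendsto (fun q : ℝ × S => q.1) (𝓝[Icc 0 1 ×ˢ O] (θ₀, x₀)) (𝓝 θ₀) :=
      (continuous_fst.tendsto (θ₀, x₀)).mono_left nhdsWithin_le_nhds
    have hcc' : ∀ᶠ q in 𝓝[Icc 0 1 ×ˢ O] (θ₀, x₀), c q.2 = c x₀ := by
      have h1 : ∀ᶠ x in 𝓝 x₀, x ∈ connectedComponentIn O x₀ :=
        hopen.mem_nhds (mem_connectedComponentIn hx₀)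
      filter_upwards [hxx.eventually h1] with q hq
      exact hcc x₀ hx₀ q.2 hq
    have hhh : Tendsto (fun q : ℝ × S => h q.2) (𝓝[Icc 0 1 ×ˢ O] (θ₀, x₀)) (𝓝 (h x₀)) :=
      (hh.cont.tendsto x₀).comp hxx
    have hu' : Tendsto (fun q : ℝ × S => q.1 * (c q.2 - h q.2)) (𝓝[Icc 0 1 ×ˢ O] (θ₀, x₀))
        (𝓝 (θ₀ * (c x₀ - h x₀))) := by
      have h2 : Tendsto (fun q : ℝ × S => q.1 * (c x₀ - h q.2)) (𝓝[Icc 0 1 ×ˢ O] (θ₀, x₀))
          (𝓝 (θ₀ * (c x₀ - h x₀))) := hθθ.mul (tendsto_const_nhds.sub hhh)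
      refine h2.congr' ?_
      filter_upwards [hcc'] with q hq
      rw [hq]
    have hxy : ∀ᶠ q in 𝓝[Icc 0 1 ×ˢ O] (θ₀, x₀),
        Mv ω O Complex.I (q.1 * (c q.2 - h q.2)) q.2 (H q.1 q.2) := by
      filter_upwards [self_mem_nhdsWithin] with q hq
      exact hHmv q.2 hq.2 q.1 hq.1
    exact Mv.tendsto hO hOs (hHmv x₀ hx₀ θ₀ hθ₀) hxx hu' hxy
  have hH0 : ∀ p ∈ O, H 0 p = p := by
    intro p hp
    have h1 := hHmv p hp 0 h01
    rw [zero_mul] at h1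
    exact h1.unique hOs (Mv.refl hO hOs hp)
  have hH1 : ∀ p ∈ O, u (H 1 p) = 1 := by
    intro p hp
    have h1 := hHmv p hp 1 h11
    rw [one_mul] at h1
    refine hu p hp _ h1.mem_comp ?_
    rw [hh.mv hOs h1, Complex.I_im]
    ring
  obtain ⟨s, hs1, hs2, hs3⟩ := sq_homotopy H hcont hH0 u hH1
  refine ⟨s, hs1, hs2, fun x hx hxt => hs3 x hx (fun θ hθ => ?_)⟩
  refine hxt (θ * (c x - h x)) ?_ _ (hHmv x hx θ hθ)
  rcases le_total 0 (c x - h x) with h0 | h0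
  · rw [uIcc_of_le h0]
    exact ⟨mul_nonneg hθ.1 h0, mul_le_of_le_one_left h0 hθ.2⟩
  · rw [uIcc_of_ge h0]
    refine ⟨?_, mul_nonpos_of_nonneg_of_nonpos hθ.1 h0⟩
    nlinarith [hθ.2]

end LadderVeech
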