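import Pool.Agent.LadderVeech.LVDefs

/-!
LV13. Square roots extend over isolated points of a surface.

PROOF. Let `s` be a continuous root on `Zᶜ`. For `z ∈ Z` choose a chart `e ∋ z` (hloc) and `r > 0` with
`closedBall (e z) r ⊆ e.target` and `U = e.source ∩ e ⁻¹' ball (e z) r` containing no other point of `Z`
(`IsDiscrete`: `Z ∩ nbhd = {z}`). `IsSq u U` : root `σ` on `U` (as in `exists_good_nhds`, Sqrt.lean:
lift `u ∘ e.symm` on the ball). The punctured ball is preconnected (image of `(0, r) × ℝ` under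
`(ρ, θ) ↦ e z + ρ e^{iθ}`), so `U \ {z}` is preconnected; by `sign_const` `s = c σ` on `U \ {z}`, `c = ± 1`.
Hence `lim_{q → z, q ≠ z} s q` exists; define `v z` as this limit (`c σ z`), `v = s` off `Z`. Then `v` is continuous
(on `U` it is `c σ`; off the closed set `Z` it is `s`) and `v ^ 2 = u`.
`exists_small_nhds` is the first part (used again elsewhere).
-/

open Set Filter Topology

namespace LadderVeech

lemma isPreconnected_punctured_ball (c : ℂ) (r : ℝ) :
    IsPreconnected (Metric.ball c r \ {c}) := by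
  have h1 : Metric.ball c r \ {c} =
      (fun q : ℝ × ℝ => c + (q.1 : ℂ) * Complex.exp ((q.2 : ℂ) * Complex.I)) '' (Ioo 0 r ×ˢ univ) := by
    ext z
    constructor
    · rintro ⟨h1, h2⟩
      rw [Metric.mem_ball, dist_eq_norm] at h1
      refine ⟨(‖z - c‖, (z - c).arg), ⟨⟨?_, h1⟩, mem_univ _⟩, ?_⟩
      · exact norm_pos_iff.2 (sub_ne_zero.2 h2)
      · show c + (‖z - c‖ : ℂ) * Complex.exp ((z - c).arg * Complex.I) = z
        rw [Complex.norm_mul_exp_arg_mul_I, add_sub_cancel]
    · rintro ⟨⟨ρ, θ⟩, ⟨⟨h1, h2⟩, -⟩, rfl⟩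
      have h3 : ‖(ρ : ℂ) * Complex.exp ((θ : ℂ) * Complex.I)‖ = ρ := by
        rw [norm_mul, Complex.norm_exp_ofReal_mul_I, mul_one, Complex.norm_real, Real.norm_eq_abs, abs_of_pos h1]
      refine ⟨?_, ?_⟩
      · rw [Metric.mem_ball, dist_eq_norm]
        show ‖c + (ρ : ℂ) * Complex.exp ((θ : ℂ) * Complex.I) - c‖ < r
        rw [add_sub_cancel_left, h3]
        exact h2
      · intro h4
        have h5 : c + (ρ : ℂ) * Complex.exp ((θ : ℂ) * Complex.I) = c := h4
        have h6 : (ρ : ℂ) * Complex.exp ((θ : ℂ) * Complex.I) = 0 := by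
          linear_combination h5
        rw [h6, norm_zero] at h3
        exact h1.ne h3
  rw [h1]
  apply IsPreconnected.image
  · exact isPreconnected_Ioo.prod isPreconnected_univ
  · apply Continuous.continuousOn
    fun_prop

lemma exists_small_nhds {X : Type*} [TopologicalSpace X] {e : OpenPartialHomeomorph X ℂ} {z : X}
    (hz : z ∈ e.source) {O : Set X} (hO : O ∈ 𝓝 z) : ∃ U : Set X, IsOpen U ∧ z ∈ U ∧ U ⊆ O ∧
      IsPreconnected (U \ {z}) ∧ ∀ u : C(X, Circle), IsSq u U := by
  have h1 : e.target ∩ e.symm ⁻¹' O ∈ 𝓝 (e z) := by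
    have h2 : ContinuousAt e.symm (e z) := e.symm.continuousAt (e.map_source hz)
    refine inter_mem (e.open_target.mem_nhds (e.map_source hz)) (h2.preimage_mem_nhds ?_)
    rwa [e.left_inv hz]
  obtain ⟨r, hr, hsub⟩ := Metric.mem_nhds_iff.1 h1
  have hN : e.symm '' Metric.ball (e z) r = e.source ∩ e ⁻¹' Metric.ball (e z) r := by
    ext q
    constructor
    · rintro ⟨w, hw, rfl⟩
      have hw' := (hsub hw).1
      refine ⟨e.map_target hw', ?_⟩
      rw [mem_preimage, e.right_inv hw']
      exact hw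
    · rintro ⟨hq1, hq2⟩
      exact ⟨e q, hq2, e.left_inv hq1⟩
  refine ⟨e.symm '' Metric.ball (e z) r, ?_, ?_, ?_, ?_, ?_⟩
  · rw [hN]
    exact e.isOpen_inter_preimage Metric.isOpen_ball
  · exact ⟨e z, Metric.mem_ball_self hr, e.left_inv hz⟩
  · rintro _ ⟨w, hw, rfl⟩
    exact (hsub hw).2
  · have h3 : e.symm '' Metric.ball (e z) r \ {z} = e.symm '' (Metric.ball (e z) r \ {e z}) := by
      ext q
      constructor
      · rintro ⟨⟨w, hw, rfl⟩, h4⟩
        refine ⟨w, ⟨hw, ?_⟩, rfl⟩
        intro h5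
        apply h4
        have h5' : w = e z := h5
        rw [h5', e.left_inv hz]
        rfl
      · rintro ⟨w, ⟨hw, h4⟩, rfl⟩
        refine ⟨⟨w, hw, rfl⟩, ?_⟩
        intro h5
        apply h4
        have h5' : e.symm w = z := h5
        show w = e z
        rw [← h5', e.right_inv (hsub hw).1]
    rw [h3]
    exact (isPreconnected_punctured_ball _ _).image _ (e.symm.continuousOn.mono
      (fun w hw => (hsub hw.1).1))
  · intro u
    have hgc : ContinuousOn (fun z : ℂ => ((u (e.symm z) : Circle) : ℂ)) (Metric.ball (e z) r) := by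
      refine isInducing_circle.continuous.comp_continuousOn ?_
      exact u.continuous.comp_continuousOn (e.symm.continuousOn.mono (fun z hz => (hsub hz).1))
    obtain ⟨f, hfc, hf⟩ := Complex.exists_continuousOn_pow_eq (isSimplyConnected_ball _ hr)
      Metric.isOpen_ball hgc (by
        rintro ⟨z, -, hz⟩
        exact Circle.coe_ne_zero _ hz) two_ne_zero
    have hnorm : ∀ z, ‖f z‖ = 1 := by
      intro z
      have h3 : ‖f z‖ ^ 2 = 1 := by
        rw [← norm_pow, hf z]
        exact Circle.norm_coe _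
      nlinarith [norm_nonneg (f z)]
    refine ⟨fun q => toC (f (e q)) (hnorm (e q)), ?_, ?_⟩
    · have h4 : ContinuousOn (fun q => f (e q)) (e.symm '' Metric.ball (e z) r) := by
        refine hfc.comp (e.continuousOn.mono ?_) ?_
        · rw [hN]; exact inter_subset_left
        · rw [hN]; exact fun q hq => hq.2
      exact isInducing_circle.continuousOn_iff.2 h4
    · intro q hq
      rw [hN] at hq
      apply Circle.coe_injective
      simp only [Circle.coe_pow, coe_toC]
      rw [hf, e.left_inv hq.1]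

theorem sq_extend {X : Type*} [TopologicalSpace X]
    (hloc : ∀ p : X, ∃ e : OpenPartialHomeomorph X ℂ, p ∈ e.source) (u : C(X, Circle))
    {Z : Set X} (hZc : IsClosed Z) (hZ : IsDiscrete Z) (hs : IsSq u Zᶜ) : IsSq u univ := by
  classical
  obtain ⟨s, hsc, hsu⟩ := hs
  -- the local roots
  have key : ∀ z : X, ∃ w : Circle, z ∈ Z → ∃ U : Set X, IsOpen U ∧ z ∈ U ∧ (∀ q ∈ U, q ∈ Z → q = z) ∧
      ∃ τ : X → Circle, ContinuousOn τ U ∧ (∀ q ∈ U, τ q ^ 2 = u q) ∧ (∀ q ∈ U, q ≠ z → τ q = s q) ∧ τ z = w := by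
    intro z
    by_cases hz : z ∈ Z
    · obtain ⟨O, hO, hOZ⟩ := isDiscrete_iff_forall_mem_exists_isOpen.1 hZ z hz
      have hzO : z ∈ O := by
        have : z ∈ O ∩ Z := by
          rw [hOZ]
          rfl
        exact this.1
      obtain ⟨e, he⟩ := hloc z
      obtain ⟨U, hU, hzU, hUO, hUc, hUs⟩ := exists_small_nhds he (hO.mem_nhds hzO)
      have hUZ : ∀ q ∈ U, q ∈ Z → q = z := by
        intro q hq hqZ
        have : q ∈ O ∩ Z := ⟨hUO hq, hqZ⟩
        rw [hOZ] at this
        exact this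
      obtain ⟨σ, hσc, hσu⟩ := hUs u
      have hsub : U \ {z} ⊆ Zᶜ := by
        rintro q ⟨hq, hne⟩ hqZ
        exact hne (hUZ q hq hqZ)
      obtain ⟨c, hc, hcs⟩ := sign_const hUc (hsc.mono hsub) (hσc.mono sdiff_subset)
        (fun q hq => by rw [hsu q (hsub hq), hσu q hq.1])
      refine ⟨c * σ z, fun _ => ⟨U, hU, hzU, hUZ, fun q => c * σ q, continuousOn_const.mul hσc, ?_, ?_, rfl⟩⟩
      · intro q hq
        rw [mul_pow, hc, one_mul, hσu q hq]
      · intro q hq hne
        exact (hcs q ⟨hq, hne⟩).symm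
    · exact ⟨1, fun h => absurd h hz⟩
  choose w hw using key
  refine ⟨fun q => if q ∈ Z then w q else s q, ?_, ?_⟩
  · intro z _
    apply ContinuousAt.continuousWithinAt
    by_cases hz : z ∈ Z
    · obtain ⟨U, hU, hzU, hUZ, τ, hτc, hτu, hτs, hτz⟩ := hw z hz
      have h1 : (fun q => if q ∈ Z then w q else s q) =ᶠ[𝓝 z] τ := by
        filter_upwards [hU.mem_nhds hzU] with q hq
        by_cases hqZ : q ∈ Z
        · have h2 := hUZ q hq hqZ
          rw [if_pos hqZ, h2, hτz]
        · rw [if_neg hqZ]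
          have hne : q ≠ z := by
            rintro rfl
            exact hqZ hz
          exact (hτs q hq hne).symm
      exact (hτc.continuousAt (hU.mem_nhds hzU)).congr h1.symm
    · have h1 : (fun q => if q ∈ Z then w q else s q) =ᶠ[𝓝 z] s := by
        filter_upwards [hZc.isOpen_compl.mem_nhds hz] with q hq
        rw [if_neg hq]
      exact (hsc.continuousAt (hZc.isOpen_compl.mem_nhds hz)).congr h1.symm
  · intro q _
    show (if q ∈ Z then w q else s q) ^ 2 = u q
    by_cases hq : q ∈ Z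
    · obtain ⟨U, hU, hzU, hUZ, τ, hτc, hτu, hτs, hτz⟩ := hw q hq
      rw [if_pos hq, ← hτz]
      exact hτu q hzU
    · rw [if_neg hq]
      exact hsu q hq

end LadderVeech
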