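import Pool.Agent.LadderVeech.LV09

/-!
LV14. The drift is unique; conjugation of flows by affine maps fixing the ends.
-/

open Set Filter Topology

namespace LadderVeech

variable {ω : TranslationStructure Ladder} {h : Ladder → ℝ} {b : Bool} {c c' : ℝ}

private lemma LV14_disp (F : HFlow ω h b 1 c) (F' : HFlow ω h b 1 c') (y : Ladder) :
    ∀ᶠ t in 𝓝 (0 : ℝ), Seg ω y (((c' - c) * t : ℝ) : ℂ) (F'.Φ t (F.Φ (-t) y)) := by
  obtain ⟨m⟩ := exists_model ω y
  have hR := m.R_pos
  obtain ⟨δ, hδ, hF⟩ := F.disp y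
  obtain ⟨δ', hδ', hF'⟩ := F'.disp y
  set v : ℝ → ℂ := fun t => ((kth b (1 * (-t)) * h y : ℝ) : ℂ) * km b + ((c * (-t) : ℝ) : ℂ) with hv
  set w : ℝ → ℂ := fun t => ((kth b (1 * t) * h y : ℝ) : ℂ) * km b + ((c' * t : ℝ) : ℂ) with hw
  set v' : ℝ → ℂ := fun t => v t + ((kth b (1 * t) * (v t).im : ℝ) : ℂ) * km b with hv'
  have hk := continuous_kth b
  have hk0 : kth b 0 = 0 := (kth_eq_zero b).2 rfl
  have cv : Continuous v := by
    simp only [hv]
    fun_prop
  have cw : Continuous w := by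
    simp only [hw]
    fun_prop
  have cv' : Continuous v' := by
    simp only [hv']
    have : Continuous fun t => (v t).im := Complex.continuous_im.comp cv
    fun_prop
  have v0 : v 0 = 0 := by simp [hv, hk0]
  have w0 : w 0 = 0 := by simp [hw, hk0]
  have v'0 : v' 0 = 0 := by simp [hv', v0]
  have hwn : ∀ᶠ t in 𝓝 (0 : ℝ), ‖w t‖ < m.R / 4 := by
    have : Tendsto (fun t => ‖w t‖) (𝓝 0) (𝓝 ‖w 0‖) := (cw.norm).tendsto 0
    rw [w0, norm_zero] at this
    exact this.eventually_lt_const (by positivity)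
  have hvn : ∀ᶠ t in 𝓝 (0 : ℝ), ‖v' t‖ < m.R / 4 := by
    have : Tendsto (fun t => ‖v' t‖) (𝓝 0) (𝓝 ‖v' 0‖) := (cv'.norm).tendsto 0
    rw [v'0, norm_zero] at this
    exact this.eventually_lt_const (by positivity)
  have hδn : ∀ᶠ t : ℝ in 𝓝 (0 : ℝ), |t| < min δ δ' := by
    have : Tendsto (fun t : ℝ => |t|) (𝓝 0) (𝓝 |0|) := continuous_abs.tendsto 0
    rw [abs_zero] at this
    exact this.eventually_lt_const (lt_min hδ hδ')
  filter_upwards [hwn, hvn, hδn] with t h1 h2 h3
  have s1 := hF (-t) (by rw [abs_neg]; exact h3.trans_le (min_le_left _ _))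
  have s2 := hF' t (h3.trans_le (min_le_right _ _))
  obtain ⟨f, hf, -, haff⟩ := F'.aff t
  have s3 := s1.map haff
  rw [hf, hf, act_kX] at s3
  have t1 := m.trap (m.center_mem le_rfl) s2 (by
    change 0 + ‖w t‖ < m.R
    linarith)
  rw [m.zero, zero_pow m.hk, zero_add] at t1
  have t2 := m.trap t1.1 s3 (by
    change ‖w t‖ + ‖v' t‖ < m.R
    linarith)
  rw [t1.2] at t2
  have t3 := m.seg_of_mem t2.1
  rw [t2.2] at t3
  have key : (kth b (1 * t) * h y) + (kth b (1 * (-t)) * h y) +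
      kth b (1 * t) * (kth b (1 * (-t)) * h y * (km b).im) = 0 := by
    have e1 := kth_add b t (-t)
    rw [add_neg_cancel, hk0, kch_eq] at e1
    rw [one_mul, one_mul]
    linear_combination (-(h y)) * e1
  have e2 : (v t).im = kth b (1 * (-t)) * h y * (km b).im := by
    simp only [hv, Complex.add_im, Complex.im_ofReal_mul, Complex.ofReal_im, add_zero]
  have e3 : w t + v' t = (((c' - c) * t : ℝ) : ℂ) := by
    have e4 : (((kth b (1 * t) * h y) + (kth b (1 * (-t)) * h y) +
      kth b (1 * t) * (kth b (1 * (-t)) * h y * (km b).im) : ℝ) : ℂ) * km b = 0 := by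
      rw [key]; simp
    simp only [hv', e2]
    simp only [hw, hv]
    push_cast at e4 ⊢
    linear_combination e4
  rw [zero_add] at t3
  have e5 : Seg ω y (w t + v' t) (F'.Φ t (F.Φ (-t) y)) := t3
  rw [e3] at e5
  exact e5

theorem drift_unique (hh : IsHt ω h) (F : HFlow ω h b 1 c) (F' : HFlow ω h b 1 c') : c = c' := by
  by_contra hne
  choose f hf hf0 hfa using F.aff
  choose f' hf' hf0' hfa' using F'.aff
  set t : ℕ → ℝ := fun i => 1 / ((i : ℝ) + 1) with ht
  have ht0 : Tendsto t (hyperfilter ℕ : Ultrafilter ℕ) (𝓝 0) := by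
    have h1 : Tendsto t atTop (𝓝 0) := tendsto_one_div_add_atTop_nhds_zero_nat
    exact h1.mono_left (Nat.cofinite_eq_atTop ▸ hyperfilter_le_cofinite)
  have htpos : ∀ i, 0 < t i := fun i => by positivity
  set g : ℕ → Ladder ≃ₜ Ladder := fun i => f' (t i) * f (-t i) with hg
  have hgx : ∀ i x, g i x = F'.Φ (t i) (F.Φ (-t i) x) := by
    intro i x
    change f' (t i) (f (-t i) x) = _
    rw [hf, hf']
  have hn : NearId ω (hyperfilter ℕ : Ultrafilter ℕ) g (fun _ => 1) := by
    refine ⟨fun i => ?_, tendsto_const_nhds, fun x => ?_⟩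
    · have h1 := (hfa' (t i)).mul (hfa (-t i))
      have h2 : expGL ((1 * t i) • kX b) * expGL ((1 * -t i) • kX b) = 1 := by
        rw [← expGL_smul_add]
        have : 1 * t i + 1 * -t i = 0 := by ring
        rw [this, zero_smul, expGL_zero]
      rw [h2] at h1
      exact h1
    · have h1 : Continuous fun s : ℝ => F'.Φ s (F.Φ (-s) x) := by
        have h2 : Continuous fun s : ℝ => F.Φ (-s) x :=
          F.cont.comp (continuous_neg.prodMk continuous_const)
        exact F'.cont.comp (continuous_id.prodMk h2)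
      have h3 := (h1.tendsto 0).comp ht0
      have h4 : F'.Φ 0 (F.Φ (-0) x) = x := by rw [neg_zero, F.zero, F'.zero]
      rw [h4] at h3
      refine h3.congr (fun i => ?_)
      exact (hgx i x).symm
  refine zero_of_translations hh hn (fun i => (hf0' _).mul (hf0 _))
    (d := fun i => (c' - c) * t i) ?_ (fun i => ?_) (fun y => ?_)
  · have := ht0.const_mul (c' - c)
    rwa [mul_zero] at this
  · exact mul_ne_zero (sub_ne_zero.2 (fun h => hne h.symm)) (htpos i).ne'
  · filter_upwards [ht0.eventually (LV14_disp F F' y)] with i hi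
    rw [hgx]
    exact hi

theorem conj_true (F : HFlow ω h true 1 c) {T : Ladder ≃ₜ Ladder} {A : GL (Fin 2) ℝ}
    (hT : IsAffine ω T A) (hTe : T ∈ endFix) (hA : A 0 1 = 0 ∧ A 1 0 = 0)
    (hhT : ∀ x, h (T x) = A 1 1 * h x) : Nonempty (HFlow ω h true 1 (A 0 0 * c)) := by
  have hc : ∀ s : ℝ, A * expGL (s • kX true) * A⁻¹ = expGL (s • kX true) := by
    intro s
    obtain ⟨e10, e11, e00, e01⟩ := expGL_kX_entries true s
    simp only [if_true] at e01
    have : A * expGL (s • kX true) = expGL (s • kX true) * A := by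
      refine gl_ext ?_ ?_ ?_ ?_ <;>
        simp only [mul_entry, e10, e11, e00, e01, hA.1, hA.2] <;> ring
    rw [this, mul_inv_cancel_right]
  refine ⟨⟨fun t x => T (F.Φ t (T.symm x)), ?_, fun x => ?_, fun s t x => ?_, fun t => ?_,
    fun x => ?_, fun t x => ?_⟩⟩
  · exact T.continuous.comp (F.cont.comp
      (continuous_fst.prodMk (T.symm.continuous.comp continuous_snd)))
  · simp only [F.zero, T.apply_symm_apply]
  · simp only [F.add, T.symm_apply_apply]
  · obtain ⟨f, hf, h0, haff⟩ := F.aff t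
    refine ⟨T * f * T⁻¹, fun x => ?_, h0.conj hTe, ?_⟩
    · change T (f (T.symm x)) = _
      rw [hf]
    · have h1 := (hT.mul haff).mul hT.inv
      rwa [hc] at h1
  · obtain ⟨δ, hδ, hd⟩ := F.disp (T.symm x)
    refine ⟨δ, hδ, fun t ht => ?_⟩
    have h1 := (hd t ht).map hT
    rw [T.apply_symm_apply] at h1
    have h2 : h x = A 1 1 * h (T.symm x) := by rw [← hhT, T.apply_symm_apply]
    have h3 : act A (((kth true (1 * t) * h (T.symm x) : ℝ) : ℂ) * km true + ((c * t : ℝ) : ℂ)) =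
        ((kth true (1 * t) * h x : ℝ) : ℂ) * km true + ((A 0 0 * c * t : ℝ) : ℂ) := by
      rw [h2]
      apply Complex.ext
      · simp [act, km, hA.1, hA.2]
        ring
      · simp [act, km, hA.1, hA.2]
        ring
    rw [h3] at h1
    exact h1
  · have h2 : h x = A 1 1 * h (T.symm x) := by rw [← hhT, T.apply_symm_apply]
    rw [hhT, F.ht, h2]
    ring

theorem conj_false (F : HFlow ω h false 1 0) {T : Ladder ≃ₜ Ladder} {A : GL (Fin 2) ℝ}
    (hT : IsAffine ω T A) (hTe : T ∈ endFix) (hA : A 0 1 = 0 ∧ A 1 0 = 0) {e : ℝ}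
    (hhT : ∀ x, h (T x) = A 1 1 * h x + e) : Nonempty (HFlow ω h false 1 (-e)) := by
  have hdet : A 0 0 * A 1 1 ≠ 0 := by
    have h1 : IsUnit (Matrix.det (A : Matrix (Fin 2) (Fin 2) ℝ)) :=
      (Matrix.isUnit_iff_isUnit_det _).1 A.isUnit
    have h2 := h1.ne_zero
    rw [Matrix.det_fin_two, hA.1, zero_mul, sub_zero] at h2
    exact h2
  have ha : A 0 0 ≠ 0 := left_ne_zero_of_mul hdet
  have hd : A 1 1 ≠ 0 := right_ne_zero_of_mul hdet
  set r : ℝ := A 1 1 / A 0 0 with hr
  have hr0 : r ≠ 0 := div_ne_zero hd ha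
  have har : A 0 0 * r = A 1 1 := by rw [hr]; field_simp
  have hc : ∀ t : ℝ, A * expGL ((1 * (r * t)) • kX false) * A⁻¹ = expGL ((1 * t) • kX false) := by
    intro t
    obtain ⟨e10, e11, e00, e01⟩ := expGL_kX_entries false (1 * (r * t))
    obtain ⟨g10, g11, g00, g01⟩ := expGL_kX_entries false (1 * t)
    simp only [Bool.false_eq_true, if_false, kch] at e01 g01 e11 g11
    have : A * expGL ((1 * (r * t)) • kX false) = expGL ((1 * t) • kX false) * A := by
      refine gl_ext ?_ ?_ ?_ ?_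
      · simp only [mul_entry, e10, e11, e00, e01, g10, g11, g00, g01, hA.1, hA.2]; ring
      · simp only [mul_entry, e10, e11, e00, e01, g10, g11, g00, g01, hA.1, hA.2]
        linear_combination t * har
      · simp only [mul_entry, e10, e11, e00, e01, g10, g11, g00, g01, hA.1, hA.2]; ring
      · simp only [mul_entry, e10, e11, e00, e01, g10, g11, g00, g01, hA.1, hA.2]; ring
    rw [this, mul_inv_cancel_right]
  refine ⟨⟨fun t x => T (F.Φ (r * t) (T.symm x)), ?_, fun x => ?_, fun s t x => ?_, fun t => ?_,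
    fun x => ?_, fun t x => ?_⟩⟩
  · exact T.continuous.comp (F.cont.comp
      ((continuous_const.mul continuous_fst).prodMk (T.symm.continuous.comp continuous_snd)))
  · simp only [mul_zero, F.zero, T.apply_symm_apply]
  · simp only [mul_add, F.add, T.symm_apply_apply]
  · obtain ⟨f, hf, h0, haff⟩ := F.aff (r * t)
    refine ⟨T * f * T⁻¹, fun x => ?_, h0.conj hTe, ?_⟩
    · change T (f (T.symm x)) = _
      rw [hf]
    · have h1 := (hT.mul haff).mul hT.inv
      rwa [hc] at h1
  · obtain ⟨δ, hδ, hdis⟩ := F.disp (T.symm x)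
    refine ⟨δ / |r|, by positivity, fun t ht => ?_⟩
    have h1 := (hdis (r * t) (by
      rw [abs_mul, mul_comm]
      exact (lt_div_iff₀ (abs_pos.2 hr0)).1 ht)).map hT
    rw [T.apply_symm_apply] at h1
    have h2 : h x = A 1 1 * h (T.symm x) + e := by rw [← hhT, T.apply_symm_apply]
    have h3 : act A (((kth false (1 * (r * t)) * h (T.symm x) : ℝ) : ℂ) * km false +
        ((0 * (r * t) : ℝ) : ℂ)) =
        ((kth false (1 * t) * h x : ℝ) : ℂ) * km false + ((-e * t : ℝ) : ℂ) := by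
      rw [h2]
      apply Complex.ext
      · simp [act, km, kth, hA.1, hA.2]
        linear_combination (t * h (T.symm x)) * har
      · simp [act, km, kth, hA.1, hA.2]
    rw [h3] at h1
    exact h1
  · have h2 : h x = A 1 1 * h (T.symm x) + e := by rw [← hhT, T.apply_symm_apply]
    rw [hhT, F.ht, h2]
    simp [kch]

theorem normal_true (hh : IsHt ω h) (F : HFlow ω h true 1 c)
    (hn : ∀ (t : ℝ) (f : Ladder ≃ₜ Ladder), ZeroFlux ω f → IsAffine ω f (expGL (t • kX true)) →
      ∀ x, h (f x) = Real.exp t * h x) {T : Ladder ≃ₜ Ladder} {A : GL (Fin 2) ℝ}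
    (hT : IsAffine ω T A) (hTe : T ∈ endFix) (hA : A 0 1 = 0 ∧ A 1 0 = 0) (x : Ladder) :
    h (T x) = A 1 1 * h x := by
  obtain ⟨e, he⟩ := hh.affine hT hA.2
  obtain ⟨f, hf, h0, haff⟩ := F.aff 1
  have hc : A * expGL (((1 : ℝ) * 1) • kX true) * A⁻¹ = expGL (((1 : ℝ) * 1) • kX true) := by
    obtain ⟨e10, e11, e00, e01⟩ := expGL_kX_entries true ((1 : ℝ) * 1)
    simp only [if_true] at e01
    have : A * expGL (((1 : ℝ) * 1) • kX true) = expGL (((1 : ℝ) * 1) • kX true) * A := by
      refine gl_ext ?_ ?_ ?_ ?_ <;>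
        simp only [mul_entry, e10, e11, e00, e01, hA.1, hA.2] <;> ring
    rw [this, mul_inv_cancel_right]
  have haff2 := (hT.mul haff).mul hT.inv
  rw [hc] at haff2
  have h1 := hn _ _ (h0.conj hTe) haff2 (T x)
  have h2 : (T * f * T⁻¹) (T x) = T (f x) := by
    change T (f (T.symm (T x))) = _
    rw [T.symm_apply_apply]
  rw [h2, he, he, hn _ _ h0 haff] at h1
  have h3 : Real.exp (1 * 1) ≠ 1 := by
    have : (1 : ℝ) < Real.exp (1 * 1) := Real.one_lt_exp_iff.2 (by norm_num)
    exact this.ne'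
  have h4 : e * (Real.exp (1 * 1) - 1) = 0 := by linear_combination -h1
  have h5 : e = 0 := (mul_eq_zero.1 h4).resolve_right (sub_ne_zero.2 h3)
  rw [he, h5, add_zero]

theorem normal_false (hh : IsHt ω h) (F : HFlow ω h false 1 0) {T : Ladder ≃ₜ Ladder}
    {A : GL (Fin 2) ℝ} (hT : IsAffine ω T A) (hTe : T ∈ endFix) (hA : A 0 1 = 0 ∧ A 1 0 = 0)
    (x : Ladder) : h (T x) = A 1 1 * h x := by
  obtain ⟨e, he⟩ := hh.affine hT hA.2
  obtain ⟨F'⟩ := conj_false F hT hTe hA he
  have h1 := drift_unique hh F F'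
  have h2 : e = 0 := by linarith
  rw [he, h2, add_zero]

end LadderVeech
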