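import Pool.Agent.LadderVeech.LV07

/-!
LV15. A rotation one-parameter group of zero flux: global developing map and flow.

PROOF. `act (expGL (t • jX)) z = exp (i t) z` (`jX² = -1`).
Dev: `exists_nearId` with `ε i = 1/(i+1)`, `exists_dev` (no fixed vectors: `exp (i ε) ≠ 1` for `0 < ε ≤ 1`):
`D₀` with `IsDev ω D₀`. Normalisation as in `exists_hyp_dev` (Flow.lean): for zero flux affine `f` with derivative
`expGL (t • jX)`: `D₀ ∘ f = e^{it} D₀ + c_f`; `c_f` depends only on `t` (IsDev.translation); with `f₁` for `t = 1`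
choose `p` with `e^{i} p + c₁ = p`; then `D = D₀ - p` satisfies `D ∘ f = e^{it} D` for all `f` (commutation with
`f₁` up to zero flux translations: the affine maps `z ↦ e^{it} z + c_t` and `z ↦ e^i z + c_1` commute, so the first
fixes the unique fixed point `p` of the second). Then `exists_flow` (NoHyp.lean).
`sing`: let `x ∈ sing`, and
`f i` the near-identity family of `exists_nearId` (aff, zero flux, `f i x → x`, `f i x ∈ sing`, `sing` discrete:
eventually `f i x = x`), so `D x = D (f i x) = e^{i ε i} D x`, hence `D x = 0`.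
-/

open Set Filter Topology

namespace LadderVeech

/-- the infinitesimal rotation -/
def jX : Matrix (Fin 2) (Fin 2) ℝ := !![0, -1; 1, 0]

private lemma LV15_sq : jX * jX = -1 := by
  ext i j
  fin_cases i <;> fin_cases j <;> simp [jX, Matrix.mul_apply, Fin.sum_univ_two]

open scoped Matrix.Norms.Operator in
private lemma LV15_exp (t : ℝ) :
    NormedSpace.exp (t • jX) = Real.cos t • (1 : Matrix (Fin 2) (Fin 2) ℝ) + Real.sin t • jX := by
  set F : ℝ → Matrix (Fin 2) (Fin 2) ℝ := fun u =>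
    NormedSpace.exp (u • jX) * (Real.cos u • (1 : Matrix (Fin 2) (Fin 2) ℝ) - Real.sin u • jX)
    with hF
  have hd : ∀ u, HasDerivAt F 0 u := by
    intro u
    have h1 := hasDerivAt_exp_smul_const (𝕂 := ℝ) jX u
    have h2 : HasDerivAt (fun u => Real.cos u • (1 : Matrix (Fin 2) (Fin 2) ℝ) - Real.sin u • jX)
        ((-Real.sin u) • (1 : Matrix (Fin 2) (Fin 2) ℝ) - Real.cos u • jX) u :=
      ((Real.hasDerivAt_cos u).smul_const _).sub ((Real.hasDerivAt_sin u).smul_const _)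
    have h3 := h1.mul h2
    have h4 : NormedSpace.exp (u • jX) * jX *
        (Real.cos u • (1 : Matrix (Fin 2) (Fin 2) ℝ) - Real.sin u • jX) +
        NormedSpace.exp (u • jX) *
        ((-Real.sin u) • (1 : Matrix (Fin 2) (Fin 2) ℝ) - Real.cos u • jX) = 0 := by
      rw [mul_assoc, ← mul_add, mul_sub, mul_smul_comm, mul_one, mul_smul_comm, LV15_sq]
      have : Real.cos u • jX - Real.sin u • (-1 : Matrix (Fin 2) (Fin 2) ℝ) +
          (-Real.sin u • (1 : Matrix (Fin 2) (Fin 2) ℝ) - Real.cos u • jX) = 0 := by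
        module
      rw [this, mul_zero]
    exact HasDerivAt.congr_deriv h3 h4
  have hc : F t = F 0 := by
    refine is_const_of_deriv_eq_zero (fun u => (hd u).differentiableAt) (fun u => (hd u).deriv) _ _
  have h0 : F 0 = 1 := by
    simp [hF]
  rw [h0] at hc
  have h5 : (Real.cos t • (1 : Matrix (Fin 2) (Fin 2) ℝ) - Real.sin t • jX) *
      (Real.cos t • (1 : Matrix (Fin 2) (Fin 2) ℝ) + Real.sin t • jX) = 1 := by
    rw [mul_add, sub_mul, sub_mul]
    simp only [smul_mul_assoc, mul_smul_comm, one_mul, mul_one, LV15_sq, smul_smul]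
    have h6 := Real.sin_sq_add_cos_sq t
    calc _ = (Real.sin t ^ 2 + Real.cos t ^ 2) • (1 : Matrix (Fin 2) (Fin 2) ℝ) := by module
      _ = 1 := by rw [h6, one_smul]
  calc NormedSpace.exp (t • jX) = NormedSpace.exp (t • jX) *
        ((Real.cos t • (1 : Matrix (Fin 2) (Fin 2) ℝ) - Real.sin t • jX) *
      (Real.cos t • (1 : Matrix (Fin 2) (Fin 2) ℝ) + Real.sin t • jX)) := by rw [h5, mul_one]
    _ = F t * (Real.cos t • (1 : Matrix (Fin 2) (Fin 2) ℝ) + Real.sin t • jX) := by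
        rw [hF, mul_assoc]
    _ = _ := by rw [hc, one_mul]

lemma act_jX (t : ℝ) (z : ℂ) : act (expGL (t • jX)) z = Complex.exp (t * Complex.I) * z := by
  have h : (expGL (t • jX) : Matrix (Fin 2) (Fin 2) ℝ) =
      Real.cos t • (1 : Matrix (Fin 2) (Fin 2) ℝ) + Real.sin t • jX := by
    rw [coe_expGL]
    exact LV15_exp t
  have e : ∀ i j, expGL (t • jX) i j =
      (Real.cos t • (1 : Matrix (Fin 2) (Fin 2) ℝ) + Real.sin t • jX) i j := by
    intro i j
    rw [← h]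
  have e00 : expGL (t • jX) 0 0 = Real.cos t := by rw [e]; simp [jX]
  have e01 : expGL (t • jX) 0 1 = -Real.sin t := by rw [e]; simp [jX]
  have e10 : expGL (t • jX) 1 0 = Real.sin t := by rw [e]; simp [jX]
  have e11 : expGL (t • jX) 1 1 = Real.cos t := by rw [e]; simp [jX]
  unfold act
  rw [e00, e01, e10, e11, Complex.exp_mul_I, ← Complex.ofReal_cos, ← Complex.ofReal_sin]
  apply Complex.ext
  · simp only [Complex.mul_re, Complex.add_re, Complex.ofReal_re, Complex.I_re, Complex.I_im,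
      Complex.ofReal_im, Complex.mul_im, Complex.add_im]
    ring
  · simp only [Complex.mul_re, Complex.add_re, Complex.ofReal_re, Complex.I_re, Complex.I_im,
      Complex.ofReal_im, Complex.mul_im, Complex.add_im]
    ring

variable {ω : TranslationStructure Ladder}

private lemma LV15_fix {t : ℝ} (h0 : 0 < t) (h1 : t ≤ 1) {z : ℂ}
    (h : act (expGL (t • jX)) z = z) : z = 0 := by
  rw [act_jX] at h
  by_contra hz
  have h2 : Complex.exp (t * Complex.I) = 1 := by
    have : Complex.exp (t * Complex.I) * z = 1 * z := by rw [h, one_mul]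
    exact mul_right_cancel₀ hz this
  have h3 := congrArg Complex.im h2
  rw [Complex.exp_ofReal_mul_I_im, Complex.one_im] at h3
  have h4 : 0 < Real.sin t := Real.sin_pos_of_pos_of_lt_pi h0 (by linarith [Real.pi_gt_three])
  exact h4.ne' h3

/-- a developing map which conjugates all zero flux maps to their derivatives -/
private lemma LV15_dev (hB : jX ∈ tang (veechZero ω)) : ∃ D : Ladder → ℂ, IsDev ω D ∧
      ∀ (t : ℝ) (f : Ladder ≃ₜ Ladder), IsAffine ω f (expGL (t • jX)) → ZeroFlux ω f →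
        ∀ x, D (f x) = act (expGL (t • jX)) (D x) := by
  set 𝒰 : Ultrafilter ℕ := Filter.hyperfilter ℕ with h𝒰
  have h𝒰le : (𝒰 : Filter ℕ) ≤ atTop := by
    rw [← Nat.cofinite_eq_atTop]
    exact Filter.hyperfilter_le_cofinite
  have hε : Tendsto (fun n : ℕ => 1 / ((n : ℝ) + 1)) 𝒰 (𝓝 0) :=
    tendsto_one_div_add_atTop_nhds_zero_nat.mono_left h𝒰le
  obtain ⟨h, hn, h0⟩ := exists_nearId hB hε
  have hinj : ∀ᶠ i : ℕ in (𝒰 : Filter ℕ), ∀ c : ℂ,
      act (expGL ((1 / ((i : ℝ) + 1)) • jX)) c = c → c = 0 := by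
    refine Eventually.of_forall fun i c hc => LV15_fix ?_ ?_ hc
    · positivity
    · rw [div_le_one (by positivity)]
      linarith [(Nat.cast_nonneg i : (0 : ℝ) ≤ i)]
  have : Nonempty Ladder := ⟨pt 0⟩
  obtain ⟨D₀, hD₀⟩ := exists_dev hn hinj
  obtain ⟨f₁, hf₁, hf₁0⟩ : ∃ f : Ladder ≃ₜ Ladder, IsAffine ω f (expGL ((1 : ℝ) • jX)) ∧
    ZeroFlux ω f := (mem_veechZero.1 (hB 1)).2
  obtain ⟨c₁, hc₁⟩ := hD₀.affine hf₁
  have hne : 1 - Complex.exp (((1 : ℝ) : ℂ) * Complex.I) ≠ 0 := by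
    intro h
    have h2 : act (expGL ((1 : ℝ) • jX)) 1 = 1 := by
      rw [act_jX, mul_one]
      exact (sub_eq_zero.1 h).symm
    exact one_ne_zero (LV15_fix one_pos le_rfl h2)
  obtain ⟨p, hp⟩ : ∃ p : ℂ, act (expGL ((1 : ℝ) • jX)) p + c₁ = p := by
    refine ⟨c₁ / (1 - Complex.exp (((1 : ℝ) : ℂ) * Complex.I)), ?_⟩
    rw [act_jX]
    field_simp
    ring
  have hD : IsDev ω (fun x => D₀ x - p) := hD₀.sub_const p
  refine ⟨fun x => D₀ x - p, hD, fun t f hf hf0 => ?_⟩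
  have hD1 : ∀ x, D₀ (f₁ x) - p = act (expGL ((1 : ℝ) • jX)) (D₀ x - p) := by
    intro x
    rw [hc₁, act_sub]
    linear_combination hp
  obtain ⟨c, hc⟩ := hD.affine hf
  have hAA : expGL (t • jX) * expGL ((1 : ℝ) • jX) = expGL ((1 : ℝ) • jX) * expGL (t • jX) := by
    rw [← expGL_smul_add, ← expGL_smul_add, add_comm]
  have hτ : IsAffine ω ((f * f₁)⁻¹ * (f₁ * f)) 1 := by
    have h1 := (hf.mul hf₁).inv.mul (hf₁.mul hf)
    rwa [hAA, inv_mul_cancel] at h1
  have hτ0 : ZeroFlux ω ((f * f₁)⁻¹ * (f₁ * f)) := (hf0.mul hf₁0).inv.mul (hf₁0.mul hf0)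
  have htr := hD.translation hτ hτ0 (pt 0)
  set y := ((f * f₁)⁻¹ * (f₁ * f)) (pt 0) with hy
  have hy2 : f (f₁ y) = f₁ (f (pt 0)) := by
    have h1 : (f * f₁) y = (f₁ * f) (pt 0) := by
      rw [hy]
      change (f * f₁) ((f * f₁).symm ((f₁ * f) (pt 0))) = _
      exact Homeomorph.apply_symm_apply _ _
    exact h1
  have e1 := hc (f₁ y)
  have e2 := hD1 (f (pt 0))
  rw [hy2, hD1 y, htr, ← act_mul, hAA, act_mul] at e1
  rw [hc (pt 0), act_add] at e2
  rw [e2] at e1
  have hc0 : c = 0 := LV15_fix one_pos le_rfl (by linear_combination e1)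
  intro x
  have h1 := hc x
  rw [hc0, add_zero] at h1
  exact h1

theorem exists_rot_dev (hJ : jX ∈ tang (veechZero ω)) : ∃ (D : Ladder → ℂ) (Φ : ℝ → Ladder → Ladder),
    IsDev ω D ∧ (∀ x ∈ ω.sing, D x = 0) ∧ Continuous (fun q : ℝ × Ladder => Φ q.1 q.2) ∧
      (∀ x, Φ 0 x = x) ∧ (∀ s t x, Φ (s + t) x = Φ s (Φ t x)) ∧
      ∀ t x, D (Φ t x) = Complex.exp (t * Complex.I) * D x := by
  obtain ⟨D, hD, hcomm⟩ := LV15_dev hJ
  obtain ⟨Φ, hΦc, hΦ0, hΦadd, hΦD⟩ := exists_flow hJ hD hcomm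
  refine ⟨D, Φ, hD, ?_, hΦc, hΦ0, hΦadd, fun t x => by rw [hΦD, act_jX]⟩
  intro x hx
  set 𝒰 : Ultrafilter ℕ := Filter.hyperfilter ℕ with h𝒰
  have h𝒰le : (𝒰 : Filter ℕ) ≤ atTop := by
    rw [← Nat.cofinite_eq_atTop]
    exact Filter.hyperfilter_le_cofinite
  have hε0 : Tendsto (fun n : ℕ => 1 / ((n : ℝ) + 1)) 𝒰 (𝓝 0) :=
    tendsto_one_div_add_atTop_nhds_zero_nat.mono_left h𝒰le
  obtain ⟨h, hn, h0⟩ := exists_nearId hJ hε0
  obtain ⟨m⟩ := exists_model ω x
  have h1 : ∀ᶠ i in (𝒰 : Filter ℕ), h i x ∈ m.disc 1 :=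
    hn.pt x (m.disc_mem_nhds one_pos)
  obtain ⟨i, hi⟩ := h1.exists
  have h2 : h i x = x := by
    by_contra hne
    exact m.reg _ hi.1 hne (((hn.aff i).mem_iff x).2 hx)
  have h3 := hcomm _ _ (hn.aff i) (h0 i) x
  rw [h2] at h3
  refine LV15_fix (t := 1 / ((i : ℝ) + 1)) (by positivity) ?_ h3.symm
  rw [div_le_one (by positivity)]
  linarith [(Nat.cast_nonneg i : (0 : ℝ) ≤ i)]

end LadderVeech
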