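import Pool.Agent.LadderVeech.LV04
import Pool.Agent.LadderVeech.LV15

/-!
LV16. The logarithmic structure on `{D ≠ 0}`.

PROOF. `S' = {x // D x ≠ 0}`. `sing = ∅`, atlas = all `e : OpenPartialHomeomorph S' ℂ` such that for every
`p ∈ e.source`: `∀ᶠ q in 𝓝 p, D q = D p * exp (i (e q - e p))`. (So `e = -i log D + const` locally.)
 covers: `D` is a local homeomorphism at the points of `O = {D ≠ 0}` (they are regular by `hs`; `IsDev` with the
 model `k = 1` of exists_model_reg: `D = chart + const` near the point); compose with a local inverse of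
 `z ↦ exp (i z)` : e.g. `z ↦ -i log (z / D p)` on the ball around `D p` of radius `‖D p‖` (Complex.log on slitPlane).
 compatible: two such charts at `p`: `exp (i (e q - e p)) = exp (i (e' q - e' p))` near `p`, and by
 continuity `e q - e p = e' q - e' p` near `p` (both small, Complex.exp injective near `0`).
 maximal: compare with a chart of `covers` at the point. cone: empty.
 The open subtype: `IsOpen.isOpenEmbedding_subtypeVal`, charts on the subtype: `(e.subtypeRestr ..)` or
 `OpenPartialHomeomorph` composed with `(hO.isOpenEmbedding_subtypeVal).toOpenPartialHomeomorph`.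
HEIGHT `h q = - log ‖D q‖`: `IsHt ω' h` (IsHt.of_chart, LV04): `‖exp (i w)‖ = exp (- w.im)`.
`Mv`: the curve `γ u = Φ u x` (in `S'` since `D (Φ u x) ≠ 0`), `J = univ`:
 `D (γ u) = exp (i (u - s)) D (γ s)`, so in a chart `e` at `γ s`: `exp (i (e (γ u) - e (γ s))) = exp (i (u - s))`, and
 for `u` near `s` both exponents are small, so `e (γ u) = e (γ s) + (u - s)`.
-/

open Set Filter Topology

namespace LadderVeech

/-- the charts of the logarithmic structure -/
def LV16atlas {S : Type*} [TopologicalSpace S] (D : S → ℂ) :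
    Set (OpenPartialHomeomorph {x : S // D x ≠ 0} ℂ) :=
  {e | ∀ p ∈ e.source, ∀ᶠ q : {x : S // D x ≠ 0} in 𝓝 p,
    D q.1 = D p.1 * Complex.exp (Complex.I * (e q - e p))}

lemma LV16_exp_inj {z w : ℂ} (hz : |z.re| < 1) (hw : |w.re| < 1)
    (h : Complex.exp (Complex.I * z) = Complex.exp (Complex.I * w)) : z = w := by
  have hpi := Real.pi_gt_three
  have h1 := abs_lt.1 hz
  have h2 := abs_lt.1 hw
  have h3 : Complex.I * z = Complex.I * w := by
    refine Complex.exp_inj_of_neg_pi_lt_of_le_pi ?_ ?_ ?_ ?_ h <;> simp <;> linarith [h1.1, h1.2, h2.1, h2.2]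
  exact mul_left_cancel₀ Complex.I_ne_zero h3

lemma LV16_small {X : Type*} [TopologicalSpace X] {f : X → ℂ} {p : X} (hf : ContinuousAt f p) :
    ∀ᶠ q in 𝓝 p, |(f q - f p).re| < 1 := by
  have h1 : Tendsto (fun q => |(f q - f p).re|) (𝓝 p) (𝓝 |(f p - f p).re|) :=
    (Complex.continuous_re.continuousAt.comp (hf.sub continuousAt_const)).abs
  rw [sub_self, Complex.zero_re, abs_zero] at h1
  exact h1.eventually_lt_const one_pos

/-- the chart at a regular point -/
lemma LV16_chart {S : Type*} [TopologicalSpace S] [T2Space S]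
    {ω : TranslationStructure S} {D : S → ℂ} (hD : IsDev ω D)
    (hs : ∀ x ∈ ω.sing, D x = 0) (p : {x : S // D x ≠ 0}) :
    ∃ e ∈ LV16atlas D, p ∈ e.source := by
  have hDc : Continuous D := hD.cont
  have hO : IsOpen {x : S | D x ≠ 0} := isOpen_ne_fun hDc continuous_const
  have hps : p.1 ∉ ω.sing := fun h => p.2 (hs _ h)
  obtain ⟨e₀, he₀, hpe₀⟩ := ω.covers _ hps
  obtain ⟨m, hk, hsrc, hφ⟩ := exists_model_reg he₀ hpe₀
  have hdisc : m.disc (m.R / 4) ∈ 𝓝 p.1 := m.disc_mem_nhds (by have := m.R_pos; positivity)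
  obtain ⟨W, hWsub, hW, hpW⟩ := mem_nhds_iff.1 hdisc
  have hDW : ∀ y ∈ W, D y = D p.1 + (e₀ y - e₀ p.1) := by
    intro y hy
    have := hD p.1 m y (hWsub hy)
    rw [hk, pow_one, hφ] at this
    exact this
  have : Nonempty {x : S // D x ≠ 0} := ⟨p⟩
  set ι := (hO.isOpenEmbedding_subtypeVal).toOpenPartialHomeomorph (Subtype.val : {x : S // D x ≠ 0} → S)
    with hι
  have hp0 : D p.1 ≠ 0 := p.2
  let A : ℂ ≃ₜ ℂ := (Homeomorph.subRight (e₀ p.1)).trans
    ((Homeomorph.mulRight₀ (D p.1)⁻¹ (inv_ne_zero hp0)).trans (Homeomorph.addRight 1))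
  let B : ℂ ≃ₜ ℂ := Homeomorph.mulLeft₀ (-Complex.I) (neg_ne_zero.2 Complex.I_ne_zero)
  let E : OpenPartialHomeomorph {x : S // D x ≠ 0} ℂ :=
    (((ι.trans (e₀.restrOpen W hW)).trans A.toOpenPartialHomeomorph).trans
      Complex.expOpenPartialHomeomorph.symm).trans B.toOpenPartialHomeomorph
  have hE : ∀ q, E q = -Complex.I * Complex.log ((e₀ q.1 - e₀ p.1) * (D p.1)⁻¹ + 1) := by
    intro q
    rfl
  have hEs : ∀ q, q ∈ E.source ↔ (q.1 ∈ e₀.source ∧ q.1 ∈ W) ∧
      (e₀ q.1 - e₀ p.1) * (D p.1)⁻¹ + 1 ∈ Complex.slitPlane := by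
    intro q
    simp only [E, OpenPartialHomeomorph.trans_source, mem_inter_iff, mem_preimage,
      OpenPartialHomeomorph.restrOpen_source]
    constructor
    · rintro ⟨⟨⟨⟨_, h1, h2⟩, _⟩, h3⟩, _⟩
      exact ⟨⟨h1, h2⟩, h3⟩
    · rintro ⟨⟨h1, h2⟩, h3⟩
      exact ⟨⟨⟨⟨trivial, h1, h2⟩, trivial⟩, h3⟩, trivial⟩
  have key : ∀ q ∈ E.source, D q.1 = D p.1 * Complex.exp (Complex.I * E q) := by
    intro q hq
    rw [hEs] at hq
    rw [hE, hDW _ hq.1.2]
    have h1 : Complex.I * (-Complex.I * Complex.log ((e₀ q.1 - e₀ p.1) * (D p.1)⁻¹ + 1))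
        = Complex.log ((e₀ q.1 - e₀ p.1) * (D p.1)⁻¹ + 1) := by
      linear_combination (-Complex.log ((e₀ q.1 - e₀ p.1) * (D p.1)⁻¹ + 1)) * Complex.I_sq
    rw [h1, Complex.exp_log (Complex.slitPlane_ne_zero hq.2)]
    field_simp
    ring
  refine ⟨E, ?_, ?_⟩
  · intro p' hp'
    filter_upwards [E.open_source.mem_nhds hp'] with q hq
    rw [key q hq, key p' hp', mul_assoc, ← Complex.exp_add]
    congr 2
    ring
  · rw [hEs]
    refine ⟨⟨hpe₀, hpW⟩, ?_⟩
    simp

theorem exists_log_structure {S : Type*} [TopologicalSpace S] [T2Space S]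
    {ω : TranslationStructure S} {D : S → ℂ} {Φ : ℝ → S → S} (hD : IsDev ω D)
    (hs : ∀ x ∈ ω.sing, D x = 0) (hΦ : Continuous (fun q : ℝ × S => Φ q.1 q.2))
    (h0 : ∀ x, Φ 0 x = x) (hadd : ∀ s t x, Φ (s + t) x = Φ s (Φ t x))
    (hr : ∀ t x, D (Φ t x) = Complex.exp (t * Complex.I) * D x) :
    ∃ ω' : TranslationStructure {x : S // D x ≠ 0}, ω'.sing = ∅ ∧
      IsHt ω' (fun q => -Real.log ‖D q.1‖) ∧
      ∀ (x : {x : S // D x ≠ 0}) (t : ℝ), ∃ y : {x : S // D x ≠ 0}, Mv ω' univ 1 t x y := by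
  have hDc : Continuous D := hD.cont
  have hcmp : ∀ e ∈ LV16atlas D, ∀ e' ∈ LV16atlas D, ∀ p ∈ e.source ∩ e'.source,
      ∃ c : ℂ, ∀ᶠ q in 𝓝 p, e' q = e q + c := by
    rintro e he e' he' p ⟨hp, hp'⟩
    refine ⟨e' p - e p, ?_⟩
    filter_upwards [he p hp, he' p hp', LV16_small (e.continuousAt hp),
      LV16_small (e'.continuousAt hp')] with q h1 h2 h3 h4
    have h5 : Complex.exp (Complex.I * (e q - e p)) = Complex.exp (Complex.I * (e' q - e' p)) :=
      mul_left_cancel₀ p.2 (h1.symm.trans h2)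
    have := LV16_exp_inj h3 h4 h5
    linear_combination -this
  let ω' : TranslationStructure {x : S // D x ≠ 0} :=
    { sing := ∅
      isClosed_sing := isClosed_empty
      isDiscrete_sing := by
        constructor
        infer_instance
      atlas := LV16atlas D
      source_subset := by intro e _ x _; exact fun h => h
      covers := fun p _ => LV16_chart hD hs p
      compatible := hcmp
      maximal := by
        intro e _ hmax p hp
        obtain ⟨e', he', hp'⟩ := LV16_chart hD hs p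
        obtain ⟨c, hc⟩ := hmax e' he' p ⟨hp, hp'⟩
        have hcp := hc.self_of_nhds
        filter_upwards [hc, he' p hp'] with q h1 h2
        rw [h2, h1, hcp]
        congr 2
        ring
      cone := fun p hp => absurd hp (Set.notMem_empty p) }
  refine ⟨ω', rfl, ?_, ?_⟩
  · refine IsHt.of_chart ?_ ?_
    · refine Continuous.neg (Continuous.log ?_ ?_)
      · exact (hDc.comp continuous_subtype_val).norm
      · intro x
        exact norm_ne_zero_iff.2 x.2
    · intro e he p hp
      filter_upwards [he p hp] with q hq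
      rw [hq, norm_mul, Real.log_mul (norm_ne_zero_iff.2 p.2) (norm_ne_zero_iff.2 (Complex.exp_ne_zero _)),
        Complex.norm_exp, Real.log_exp]
      simp
      ring
  · intro x t
    have hne : ∀ u, D (Φ u x.1) ≠ 0 := by
      intro u
      rw [hr]
      exact mul_ne_zero (Complex.exp_ne_zero _) x.2
    let γ : ℝ → {x : S // D x ≠ 0} := fun u => ⟨Φ u x.1, hne u⟩
    have hγ : Continuous γ :=
      Continuous.subtype_mk (hΦ.comp (continuous_id.prodMk continuous_const)) _
    refine ⟨γ t, univ, isOpen_univ, ordConnected_univ, trivial, trivial, γ, hγ.continuousOn, ?_, rfl, ?_⟩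
    · exact Subtype.ext (h0 x.1)
    · intro s _
      refine ⟨trivial, fun e he hse => ?_⟩
      have h1 : ∀ᶠ u in 𝓝 s, D (γ u).1 = D (γ s).1 * Complex.exp (Complex.I * (e (γ u) - e (γ s))) :=
        (hγ.tendsto s).eventually (he _ hse)
      have h2 : ContinuousAt (fun u => e (γ u)) s :=
        ContinuousAt.comp (g := e) (e.continuousAt hse) hγ.continuousAt
      have h3 : ContinuousAt (fun u : ℝ => (u : ℂ)) s := Complex.continuous_ofReal.continuousAt
      filter_upwards [h1, LV16_small h2, LV16_small h3] with u hu1 hu2 hu3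
      have h4 : Complex.exp (Complex.I * (e (γ u) - e (γ s))) = Complex.exp (Complex.I * ((u : ℂ) - s)) := by
        have h5 : D (γ u).1 = Complex.exp (u * Complex.I) * D x.1 := hr u x.1
        have h6 : D (γ s).1 = Complex.exp (s * Complex.I) * D x.1 := hr s x.1
        have h7 : Complex.exp (u * Complex.I) = Complex.exp (s * Complex.I) *
            Complex.exp (Complex.I * ((u : ℂ) - s)) := by
          rw [← Complex.exp_add]
          congr 1
          ring
        rw [h5, h6, h7] at hu1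
        have h8 : Complex.exp (s * Complex.I) * D x.1 ≠ 0 := mul_ne_zero (Complex.exp_ne_zero _) x.2
        apply mul_left_cancel₀ h8
        linear_combination -hu1
      have h9 := LV16_exp_inj hu2 hu3 h4
      push_cast
      linear_combination h9

end LadderVeech
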