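import Pool.Agent.LadderVeech.LV12
import Pool.Agent.LadderVeech.LV13
import Pool.Agent.LadderVeech.LV16

/-!
LV17. There is no rotation group of zero flux.

PROOF of `comp_max`: `C = connectedComponentIn {g ≠ 0} x`. `K ∩ closure C` is compact, nonempty; let `y₀` maximise
`g` on it; `g y₀ > 0` because `C ∩ K` is nonempty and `g > 0` there. So `y₀ ∈ {g ≠ 0}`, and `C` is closed in
`{g ≠ 0}` (components of an open set of a locally connected space: the component of `y₀` is open, meets `C`, so
equals `C`), hence `y₀ ∈ C`.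
PROOF of `no_rotation`. `D, Φ` from exists_rot_dev (LV15), `ω'` from exists_log_structure (LV16) on
 `S' = {x // D x ≠ 0}`, `h q = - log ‖D q‖`. Component `C` of `x` in `S'`; `u = hu` restricted to `S'`.
LEVELS: `c : S' → ℝ`, constant on connected components (define it through the set `connectedComponent x` by
 Classical.choose). If `C` contains no point of `K₀`, `c = h x₀` for some `x₀ ∈ C` (then `hu = 1` on `C`,
 hu_eq_one_of_notMem). Otherwise, by `comp_max` (`g = ‖D ·‖`, `K = K₀`, isCompact_slab; the component in `S'` is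
 `connectedComponentIn {D ≠ 0} x` : definition of connectedComponentIn) there is `y₀ ∈ C ∩ K₀` with
 `‖D y‖ ≤ ‖D y₀‖` for `y ∈ C ∩ K₀`; by IsHt.exists_lt for `ω'` (the component is open) there is `y₁ ∈ C` with
 `h y₁ < h y₀`; `c = h y₁`: points of `C` at this level have `‖D‖ > ‖D y₀‖`, so are not in `K₀`.
 `push` (LV12) on `S'` with `O = univ` (T2Space subtype; `connectedComponentIn univ x = connectedComponent x`)
 gives a root of `hu` on `S'`, i.e. `IsSq hu {D ≠ 0}`. `Z = {D = 0}` is closed and discrete (IsDev: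
 `D = D x + φ^k` vanishes near a zero `x` only at `x`). `sq_extend` (LV13, hloc_of ω): `IsSq hu univ`, so
 `IsSq hu K₀` (IsSq.mono), contradiction to `not_isSq_hu`.
-/

open Set Filter Topology

namespace LadderVeech

lemma comp_max {L : Type*} [TopologicalSpace L] [LocallyConnectedSpace L] {g : L → ℝ}
    (hg : Continuous g) (hg0 : ∀ x, 0 ≤ g x) {K : Set L} (hK : IsCompact K) {x : L}
    (hne : (connectedComponentIn {y | g y ≠ 0} x ∩ K).Nonempty) :
    ∃ y₀ ∈ connectedComponentIn {y | g y ≠ 0} x ∩ K,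
      ∀ y ∈ connectedComponentIn {y | g y ≠ 0} x ∩ K, g y ≤ g y₀ := by
  obtain ⟨y₁, hy₁C, hy₁K⟩ := hne
  have hop : IsOpen {y : L | g y ≠ 0} := isOpen_ne_fun hg continuous_const
  obtain ⟨y₀, hy₀, hmax⟩ := (hK.inter_right (isClosed_closure
    (s := connectedComponentIn {y | g y ≠ 0} x))).exists_isMaxOn
    ⟨y₁, hy₁K, subset_closure hy₁C⟩ hg.continuousOn
  have h1 : g y₁ ≤ g y₀ := hmax ⟨hy₁K, subset_closure hy₁C⟩
  have h2 : g y₁ ≠ 0 := connectedComponentIn_subset _ _ hy₁C
  have h3 : 0 < g y₁ := lt_of_le_of_ne (hg0 _) h2.symm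
  have h4 : y₀ ∈ {y : L | g y ≠ 0} := (h3.trans_le h1).ne'
  have h5 : IsOpen (connectedComponentIn {y : L | g y ≠ 0} y₀) := hop.connectedComponentIn
  obtain ⟨z, hz1, hz2⟩ := mem_closure_iff.1 hy₀.2 _ h5 (mem_connectedComponentIn h4)
  have h6 : y₀ ∈ connectedComponentIn {y : L | g y ≠ 0} x := by
    rw [connectedComponentIn_eq hz2, ← connectedComponentIn_eq hz1]
    exact mem_connectedComponentIn h4
  exact ⟨y₀, ⟨h6, hy₀.1⟩, fun y hy => hmax ⟨hy.2, subset_closure hy.1⟩⟩

/-- the zeros of a developing map are isolated -/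
lemma IsDev.zeros {S : Type*} [TopologicalSpace S] {ω : TranslationStructure S} {D : S → ℂ}
    (hD : IsDev ω D) : IsClosed {x | D x = 0} ∧ IsDiscrete {x | D x = 0} := by
  constructor
  · exact isClosed_eq hD.cont continuous_const
  · refine IsDiscrete.of_nhdsWithin fun x hx => ?_
    obtain ⟨m⟩ := exists_model ω x
    have h1 : m.disc (m.R / 4) ∈ 𝓝 x := m.disc_mem_nhds (by have := m.R_pos; positivity)
    have h2 : m.disc (m.R / 4) ∩ {x | D x = 0} ⊆ {x} := by
      rintro y ⟨hy1, hy2⟩
      have h3 := hD x m y hy1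
      have hx0 : D x = 0 := hx
      have hy0 : D y = 0 := hy2
      rw [hx0, hy0, zero_add] at h3
      have h4 : m.φ y = 0 := (pow_eq_zero_iff m.hk).1 h3.symm
      exact m.φ.injOn hy1.1 m.mem (by rw [h4, m.zero])
    intro V hV
    rw [mem_nhdsWithin]
    obtain ⟨W, hW1, hW2, hW3⟩ := mem_nhds_iff.1 h1
    refine ⟨W, hW2, hW3, fun y hy => ?_⟩
    have h3 : y = x := h2 ⟨hW1 hy.1, hy.2⟩
    rw [h3]
    exact hV

variable {ω : TranslationStructure Ladder}

/-- the level on which `hu` is trivial, in every component -/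
private lemma LV17_level {D : Ladder → ℂ} (hDc : Continuous D)
    {ω' : TranslationStructure {x : Ladder // D x ≠ 0}}
    (hht : IsHt ω' (fun q => -Real.log ‖D q.1‖)) (hlc : LocallyConnectedSpace Ladder)
    (x : {x : Ladder // D x ≠ 0}) :
    ∃ c : ℝ, (∃ z ∈ connectedComponent x, -Real.log ‖D z.1‖ = c) ∧
      ∀ z ∈ connectedComponent x, -Real.log ‖D z.1‖ = c → hu z.1 = 1 := by
  by_cases hK : ∃ z ∈ connectedComponent x, z.1 ∈ K₀
  · obtain ⟨z, hz, hzK⟩ := hK
    have hset : {y : Ladder | ‖D y‖ ≠ 0} = {y : Ladder | D y ≠ 0} := by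
      ext y
      simp
    have himg : connectedComponentIn {y : Ladder | ‖D y‖ ≠ 0} x.1 =
        Subtype.val '' connectedComponent x := by
      rw [hset, connectedComponentIn_eq_image (show x.1 ∈ {y : Ladder | D y ≠ 0} from x.2)]
      rfl
    obtain ⟨y₀, hy₀, hmax⟩ := comp_max (g := fun y => ‖D y‖) hDc.norm (fun y => norm_nonneg _)
      (isCompact_slab _ _ : IsCompact K₀) (x := x.1)
      ⟨z.1, by rw [himg]; exact mem_image_of_mem _ hz, hzK⟩
    rw [himg] at hy₀ hmax
    obtain ⟨⟨z₀, hz₀, rfl⟩, hz₀K⟩ := hy₀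
    have hlc' : LocallyConnectedSpace {x : Ladder // D x ≠ 0} := locallyConnected_of ω'
    obtain ⟨y₁, hy₁, hlt⟩ := hht.exists_lt (x := z₀)
      (isOpen_connectedComponent.mem_nhds hz₀)
    refine ⟨_, ⟨y₁, hy₁, rfl⟩, fun w hw hwe => hu_eq_one_of_notMem fun hwK => ?_⟩
    have h1 : ‖D w.1‖ ≤ ‖D z₀.1‖ := hmax w.1 ⟨mem_image_of_mem _ hw, hwK⟩
    have h2 : Real.log ‖D w.1‖ ≤ Real.log ‖D z₀.1‖ :=
      Real.log_le_log (norm_pos_iff.2 w.2) h1
    linarith
  · push Not at hK
    exact ⟨_, ⟨x, mem_connectedComponent, rfl⟩, fun z hz _ => hu_eq_one_of_notMem (hK z hz)⟩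

theorem no_rotation : jX ∉ tang (veechZero ω) := by
  classical
  intro hJ
  obtain ⟨D, Φ, hD, hs, hΦc, hΦ0, hΦadd, hΦD⟩ := exists_rot_dev hJ
  obtain ⟨ω', hsing, hht, hmv⟩ := exists_log_structure hD hs hΦc hΦ0 hΦadd hΦD
  have hlc : LocallyConnectedSpace Ladder := locallyConnected_of ω
  have hlev := LV17_level hD.cont hht hlc
  set h : {x : Ladder // D x ≠ 0} → ℝ := fun q => -Real.log ‖D q.1‖ with hh
  set u : C({x : Ladder // D x ≠ 0}, Circle) := hu.comp ⟨Subtype.val, continuous_subtype_val⟩ with hu'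
  set lev : Set {x : Ladder // D x ≠ 0} → ℝ := fun A =>
    if H : ∃ c : ℝ, (∃ z ∈ A, h z = c) ∧ ∀ z ∈ A, h z = c → hu z.1 = 1 then H.choose else 0 with hlevdef
  have hspec : ∀ x : {x : Ladder // D x ≠ 0}, (∃ z ∈ connectedComponent x, h z = lev (connectedComponent x)) ∧
      ∀ z ∈ connectedComponent x, h z = lev (connectedComponent x) → hu z.1 = 1 := by
    intro x
    have H := hlev x
    have e : lev (connectedComponent x) = H.choose := by
      simp only [hlevdef]
      rw [dif_pos H]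
    rw [e]
    exact H.choose_spec
  obtain ⟨s, hs1, hs2, -⟩ := push (ω := ω') (O := univ) hht isOpen_univ (by rw [hsing, compl_empty])
    (fun x _ t => hmv x t) (fun x => lev (connectedComponent x))
    (fun x _ => by
      rw [connectedComponentIn_univ]
      exact (hspec x).1)
    (fun x _ z hz => by
      rw [connectedComponentIn_univ] at hz
      rw [connectedComponent_eq hz])
    u
    (fun x _ z hz hzc => by
      rw [connectedComponentIn_univ] at hz
      exact (hspec x).2 z hz hzc)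
  have hsq : IsSq hu {x : Ladder | D x = 0}ᶜ := by
    refine ⟨fun p => if hp : D p ≠ 0 then s ⟨p, hp⟩ else 1, ?_, ?_⟩
    · rw [continuousOn_iff_continuous_domRestrict]
      have h1 : Continuous s := by rwa [← continuousOn_univ]
      have h2 : Continuous fun p : ({x : Ladder | D x = 0}ᶜ : Set Ladder) =>
          s ⟨p.1, fun hp => p.2 hp⟩ :=
        h1.comp (Continuous.subtype_mk continuous_subtype_val _)
      refine h2.congr fun p => ?_
      have hp : D p.1 ≠ 0 := fun hp => p.2 hp
      simp only [Set.domRestrict_apply]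
      rw [dif_pos hp]
    · intro p hp
      have hp' : D p ≠ 0 := hp
      simp only
      rw [dif_pos hp']
      exact hs2 ⟨p, hp'⟩ (mem_univ _)
  have hz := hD.zeros
  have hfin : IsSq hu univ := sq_extend (fun p => hloc_of ω p) hu hz.1 hz.2 hsq
  exact not_isSq_hu (hfin.mono (subset_univ _))

end LadderVeech
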