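import Pool.Agent.LadderVeech.LV09
import Pool.Agent.LadderVeech.LV17

/-!
LV18. Two independent generators with a common image: global development and the two flows.
-/

open Set Filter Topology

namespace LadderVeech

/-- the derivative of the horizontal scaling -/
lemma LV18_entries (t : ℝ) :
    expGL (t • (!![1, 0; 0, 0] : Matrix (Fin 2) (Fin 2) ℝ)) 0 0 = Real.exp t ∧
    expGL (t • (!![1, 0; 0, 0] : Matrix (Fin 2) (Fin 2) ℝ)) 0 1 = 0 ∧
    expGL (t • (!![1, 0; 0, 0] : Matrix (Fin 2) (Fin 2) ℝ)) 1 0 = 0 ∧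
    expGL (t • (!![1, 0; 0, 0] : Matrix (Fin 2) (Fin 2) ℝ)) 1 1 = 1 := by
  have e : t • (!![1, 0; 0, 0] : Matrix (Fin 2) (Fin 2) ℝ) = Matrix.diagonal ![t, 0] := by
    ext i j
    fin_cases i <;> fin_cases j <;> simp
  rw [e]
  refine ⟨?_, ?_, ?_, ?_⟩
  · rw [expGL_diagonal]; simp
  · rw [expGL_diagonal]; simp
  · rw [expGL_diagonal]; simp
  · rw [expGL_diagonal]; simp

lemma LV18_act (t : ℝ) (z : ℂ) :
    act (expGL (t • (!![1, 0; 0, 0] : Matrix (Fin 2) (Fin 2) ℝ))) z =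
      ⟨Real.exp t * z.re, z.im⟩ := by
  obtain ⟨e1, e2, e3, e4⟩ := LV18_entries t
  unfold act
  rw [e1, e2, e3, e4]
  apply Complex.ext <;> simp

section Gen

variable {S : Type*} [TopologicalSpace S] {ω : TranslationStructure S} [T2Space S]

/-- the horizontal coordinate of a near-identity family of horizontal scalings -/
theorem LV18_exists_width [PreconnectedSpace S] [Nonempty S] {𝒰 : Ultrafilter ℕ}
    {f : ℕ → S ≃ₜ S} {ε : ℕ → ℝ} (hε : ∀ i, 0 < ε i)
    (hn : NearId ω 𝒰 f (fun i => expGL (ε i • (!![1, 0; 0, 0] : Matrix (Fin 2) (Fin 2) ℝ)))) :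
    ∃ g : S → ℝ, ∀ (x : S) (m : Model ω x), ∀ y ∈ m.disc (m.R / 4),
      g y = g x + (m.φ y ^ m.k).re := by
  classical
  have hκ : ∀ i, Real.exp (ε i) - 1 ≠ 0 := by
    intro i
    have := Real.add_one_lt_exp (hε i).ne'
    have h2 := hε i
    linarith
  set R : S → S → ℝ → Prop := fun x y c => ∀ᶠ i in (𝒰 : Filter ℕ),
    disp ω (f i) y - disp ω (f i) x = (((Real.exp (ε i) - 1) * c : ℝ) : ℂ) with hR
  have htrans : ∀ x y z c c', R x y c → R y z c' → R x z (c + c') := by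
    intro x y z c c' h1 h2
    filter_upwards [h1, h2] with i hi1 hi2
    push_cast at hi1 hi2 ⊢
    linear_combination hi1 + hi2
  have hsymm : ∀ x y c, R x y c → R y x (-c) := by
    intro x y c h1
    filter_upwards [h1] with i hi1
    push_cast at hi1 ⊢
    linear_combination -hi1
  have huniq : ∀ x y c c', R x y c → R x y c' → c = c' := by
    intro x y c c' h1 h2
    obtain ⟨i, hi1, hi2⟩ := (h1.and h2).exists
    rw [hi1] at hi2
    have h3 : (Real.exp (ε i) - 1) * c = (Real.exp (ε i) - 1) * c' := by exact_mod_cast hi2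
    exact mul_left_cancel₀ (hκ i) h3
  have hrel : ∀ (x : S) (m : Model ω x), ∀ y ∈ m.disc (m.R / 4), R x y (m.φ y ^ m.k).re := by
    intro x m y hy
    filter_upwards [hn.disp_rel m hy] with i hi
    rw [hi, LV18_act]
    generalize Real.exp (ε i) = a
    apply Complex.ext
    · rw [Complex.sub_re, Complex.ofReal_re]
      ring
    · rw [Complex.sub_im, Complex.ofReal_im]
      ring
  obtain ⟨x₀⟩ := ‹Nonempty S›
  have hall : ∀ y, ∃ c, R x₀ y c := by
    have hopen : ∀ (x : S), (∃ c, R x₀ x c) → ∀ᶠ y in 𝓝 x, ∃ c, R x₀ y c := by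
      rintro x ⟨c, hc⟩
      obtain ⟨m⟩ := exists_model ω x
      filter_upwards [m.disc_mem_nhds (ρ := m.R / 4) (by have := m.R_pos; positivity)] with y hy
      exact ⟨_, htrans _ _ _ _ _ hc (hrel x m y hy)⟩
    have hclosed : ∀ (x : S), ¬ (∃ c, R x₀ x c) → ∀ᶠ y in 𝓝 x, ¬ ∃ c, R x₀ y c := by
      intro x hx
      obtain ⟨m⟩ := exists_model ω x
      filter_upwards [m.disc_mem_nhds (ρ := m.R / 4) (by have := m.R_pos; positivity)] with y hy
      rintro ⟨c, hc⟩
      exact hx ⟨_, htrans _ _ _ _ _ hc (hsymm _ _ _ (hrel x m y hy))⟩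
    have hclopen : IsClopen {y | ∃ c, R x₀ y c} := by
      constructor
      · rw [← isOpen_compl_iff, isOpen_iff_mem_nhds]
        exact fun x hx => hclosed x hx
      · rw [isOpen_iff_mem_nhds]
        exact fun x hx => hopen x hx
    have h0 : x₀ ∈ {y | ∃ c, R x₀ y c} := by
      refine ⟨0, Eventually.of_forall fun i => ?_⟩
      simp
    have := hclopen.eq_univ ⟨x₀, h0⟩
    intro y
    have hy : y ∈ {y | ∃ c, R x₀ y c} := by rw [this]; trivial
    exact hy
  choose g hg using hall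
  refine ⟨g, fun x m y hy => ?_⟩
  exact huniq _ _ _ _ (hg y) (htrans _ _ _ _ _ (hg x) (hrel x m y hy))

end Gen

variable {ω : TranslationStructure Ladder}

theorem exists_two_flows (h1 : (!![1, 0; 0, 0] : Matrix (Fin 2) (Fin 2) ℝ) ∈ tang (veechZero ω))
    (h2 : kX false ∈ tang (veechZero ω)) :
    ∃ (D : Ladder → ℂ) (Θ : ℝ → Ladder → Ladder), IsDev ω D ∧ (∀ x ∈ ω.sing, D x = 0) ∧
      Nonempty (HFlow ω (fun x => (D x).im) false 1 0) ∧
      Continuous (fun q : ℝ × Ladder => Θ q.1 q.2) ∧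
      (∀ x, Θ 0 x = x) ∧ (∀ s t x, Θ (s + t) x = Θ s (Θ t x)) ∧
      ∀ t x, D (Θ t x) = ⟨Real.exp t * (D x).re, (D x).im⟩ := by
  obtain ⟨h₁, hh₁, ⟨F⟩⟩ := exists_shear_flow h2
  -- the near identity family
  set 𝒰 : Ultrafilter ℕ := Filter.hyperfilter ℕ with h𝒰
  have h𝒰le : (𝒰 : Filter ℕ) ≤ atTop := by
    rw [← Nat.cofinite_eq_atTop]
    exact Filter.hyperfilter_le_cofinite
  set ε : ℕ → ℝ := fun n => 1 / ((n : ℝ) + 1) with hεdef
  have hε0 : Tendsto ε 𝒰 (𝓝 0) := tendsto_one_div_add_atTop_nhds_zero_nat.mono_left h𝒰le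
  have hεpos : ∀ i, 0 < ε i := fun i => by simp only [hεdef]; positivity
  obtain ⟨f, hn, hf0⟩ := exists_nearId h1 hε0
  have : Nonempty Ladder := ⟨pt 0⟩
  obtain ⟨g₀, hg₀⟩ := LV18_exists_width hεpos hn
  set D₀ : Ladder → ℂ := fun x => ⟨g₀ x, h₁ x⟩ with hD₀def
  have hD₀ : IsDev ω D₀ := by
    intro x m y hy
    apply Complex.ext
    · rw [Complex.add_re]
      exact hg₀ x m y hy
    · rw [Complex.add_im]
      exact hh₁ x m y hy
  -- constants
  have hreal : ∀ (t : ℝ) (f : Ladder ≃ₜ Ladder),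
      IsAffine ω f (expGL (t • (!![1, 0; 0, 0] : Matrix (Fin 2) (Fin 2) ℝ))) → ZeroFlux ω f →
        ∃ c : ℝ, ∀ x, D₀ (f x) =
          act (expGL (t • (!![1, 0; 0, 0] : Matrix (Fin 2) (Fin 2) ℝ))) (D₀ x) + (c : ℂ) := by
    intro t f hf hf0
    obtain ⟨c, hc⟩ := hD₀.affine hf
    obtain ⟨-, -, e3, e4⟩ := LV18_entries t
    have hcim : c.im = 0 := by
      have e1 := congrArg Complex.im (hc (pt 0))
      rw [LV18_act, Complex.add_im] at e1
      have e2 := hh₁.zeroFlux hf0 hf e3 e4 (pt 0)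
      simp only [hD₀def] at e1
      linarith
    refine ⟨c.re, fun x => ?_⟩
    rw [hc x]
    congr 1
    apply Complex.ext
    · simp
    · simp [hcim]
  obtain ⟨f₁, hf₁, hf₁0⟩ : ∃ f : Ladder ≃ₜ Ladder,
      IsAffine ω f (expGL ((1 : ℝ) • (!![1, 0; 0, 0] : Matrix (Fin 2) (Fin 2) ℝ))) ∧
        ZeroFlux ω f := (mem_veechZero.1 (h1 1)).2
  obtain ⟨c₁, hc₁⟩ := hreal 1 f₁ hf₁ hf₁0
  have he1 : (1 : ℝ) - Real.exp 1 ≠ 0 := by
    have := Real.add_one_lt_exp (one_ne_zero (α := ℝ))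
    linarith
  set p : ℝ := c₁ / (1 - Real.exp 1) with hp
  have hp' : Real.exp 1 * p + c₁ = p := by
    rw [hp]
    generalize Real.exp 1 = a at *
    field_simp
    ring
  have hD : IsDev ω (fun x => D₀ x - (p : ℂ)) := hD₀.sub_const p
  have hcomm : ∀ (t : ℝ) (f : Ladder ≃ₜ Ladder),
      IsAffine ω f (expGL (t • (!![1, 0; 0, 0] : Matrix (Fin 2) (Fin 2) ℝ))) → ZeroFlux ω f →
        ∀ x, D₀ (f x) - (p : ℂ) =
          act (expGL (t • (!![1, 0; 0, 0] : Matrix (Fin 2) (Fin 2) ℝ))) (D₀ x - (p : ℂ)) := by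
    intro t f hf hf0
    obtain ⟨c₀, hc₀⟩ := hreal t f hf hf0
    set c : ℝ := c₀ + Real.exp t * p - p with hcdef
    have hc : ∀ x, D₀ (f x) - (p : ℂ) =
        act (expGL (t • (!![1, 0; 0, 0] : Matrix (Fin 2) (Fin 2) ℝ))) (D₀ x - (p : ℂ)) +
          (c : ℂ) := by
      intro x
      rw [hc₀ x, LV18_act, LV18_act, hcdef]
      generalize Real.exp t = a
      apply Complex.ext
      · simp only [Complex.sub_re, Complex.add_re, Complex.ofReal_re]
        ring
      · simp only [Complex.sub_im, Complex.add_im, Complex.ofReal_im]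
        ring
    have hD1 : ∀ x, D₀ (f₁ x) - (p : ℂ) =
        act (expGL ((1 : ℝ) • (!![1, 0; 0, 0] : Matrix (Fin 2) (Fin 2) ℝ)))
          (D₀ x - (p : ℂ)) := by
      intro x
      rw [hc₁ x, LV18_act, LV18_act]
      apply Complex.ext
      · simp only [Complex.sub_re, Complex.add_re, Complex.ofReal_re]
        linarith
      · simp only [Complex.sub_im, Complex.add_im, Complex.ofReal_im]
        ring
    have hAA : expGL (t • (!![1, 0; 0, 0] : Matrix (Fin 2) (Fin 2) ℝ)) *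
        expGL ((1 : ℝ) • (!![1, 0; 0, 0] : Matrix (Fin 2) (Fin 2) ℝ)) =
        expGL ((1 : ℝ) • (!![1, 0; 0, 0] : Matrix (Fin 2) (Fin 2) ℝ)) *
        expGL (t • (!![1, 0; 0, 0] : Matrix (Fin 2) (Fin 2) ℝ)) := by
      rw [← expGL_smul_add, ← expGL_smul_add, add_comm]
    have hτ : IsAffine ω ((f * f₁)⁻¹ * (f₁ * f)) 1 := by
      have h1 := (hf.mul hf₁).inv.mul (hf₁.mul hf)
      rwa [hAA, inv_mul_cancel] at h1
    have hτ0 : ZeroFlux ω ((f * f₁)⁻¹ * (f₁ * f)) := (hf0.mul hf₁0).inv.mul (hf₁0.mul hf0)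
    have htr := hD.translation hτ hτ0 (pt 0)
    set y := ((f * f₁)⁻¹ * (f₁ * f)) (pt 0) with hy
    have hy2 : f (f₁ y) = f₁ (f (pt 0)) := by
      have h1 : (f * f₁) y = (f₁ * f) (pt 0) := by
        rw [hy]
        change (f * f₁) ((f * f₁).symm ((f₁ * f) (pt 0))) = _
        exact Homeomorph.apply_symm_apply _ _
      exact h1
    have e1 := hc (f₁ y)
    have e2 := hD1 (f (pt 0))
    rw [hy2, hD1 y, htr, ← act_mul, hAA, act_mul] at e1
    rw [hc (pt 0), act_add] at e2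
    rw [e2] at e1
    have e3 : act (expGL ((1 : ℝ) • (!![1, 0; 0, 0] : Matrix (Fin 2) (Fin 2) ℝ))) (c : ℂ) =
        (c : ℂ) := by linear_combination e1
    rw [LV18_act] at e3
    have e4 : Real.exp 1 * c = c := by
      have := congrArg Complex.re e3
      simpa using this
    have hc0 : c = 0 := by
      have h5 : (1 - Real.exp 1) * c = 0 := by linarith
      exact (mul_eq_zero.1 h5).resolve_left he1
    intro x
    have h1 := hc x
    rw [hc0, Complex.ofReal_zero, add_zero] at h1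
    exact h1
  obtain ⟨Θ, hΘc, hΘ0, hΘadd, hΘD⟩ := exists_flow h1 hD hcomm
  have him : (fun x => (D₀ x - (p : ℂ)).im) = h₁ := by
    funext x
    simp [hD₀def]
  refine ⟨fun x => D₀ x - (p : ℂ), Θ, hD, ?_, ?_, hΘc, hΘ0, hΘadd, fun t x => ?_⟩
  · intro x hx
    obtain ⟨m⟩ := exists_model ω x
    have h3 : ∀ᶠ i in (𝒰 : Filter ℕ), f i x ∈ m.disc 1 :=
      hn.pt x (m.disc_mem_nhds one_pos)
    obtain ⟨i, hi⟩ := h3.exists
    have h4 : f i x = x := by
      by_contra hne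
      exact m.reg _ hi.1 hne (((hn.aff i).mem_iff x).2 hx)
    have h5 := hcomm _ _ (hn.aff i) (hf0 i) x
    rw [h4, LV18_act] at h5
    have h6 : (D₀ x - (p : ℂ)).re = Real.exp (ε i) * (D₀ x - (p : ℂ)).re :=
      congrArg Complex.re h5
    have h7 : (Real.exp (ε i) - 1) * (D₀ x - (p : ℂ)).re = 0 := by linarith
    have h8 : Real.exp (ε i) - 1 ≠ 0 := by
      have h9 := Real.add_one_lt_exp (hεpos i).ne'
      have h10 := hεpos i
      linarith
    apply Complex.ext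
    · exact (mul_eq_zero.1 h7).resolve_left h8
    · have h9 : (D₀ x - (p : ℂ)).im = h₁ x := congrFun him x
      change (D₀ x - (p : ℂ)).im = 0
      rw [h9, F.sing_zero hx]
  · rw [him]
    exact ⟨F⟩
  · have h9 := hΘD t x
    rw [LV18_act] at h9
    exact h9

end LadderVeech
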