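import Pool.Agent.LadderVeech.LV18

/-!
LV19. Exclusion of the two-dimensional algebra with image `ℝ e₁`.

PROOF. `D = g + i h`, `Θ` (`g ↦ e^t g`), shear flow, from exists_two_flows. Let `M > |g|, |h|` on `K₀` (compact).
(1) root `s₁` on `{g ≠ 0}`: homotopy `H θ x = Θ (θ * τ x) x`, `τ x = max 0 (log (M / |g x|))` : at `θ = 1`
  `|g| ≥ M`, so `H 1 x ∉ K₀`, `hu = 1`. `sq_homotopy` (LV11) with `V = {g ≠ 0}`. `s₁ x = 1` if `|g x| ≥ M`
  (then `τ x = 0`, `H θ x = x ∉ K₀`).
(2) root `s₂` on `O = {h ≠ 0}`: `push` (LV12) with the height `h` for the components where `h > 0` (levels `c` above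
  all levels of `K₀`), and similarly where `h < 0`; horizontal completeness: HFlow.hc. Levels: component `C` of `x`:
  if `C ∩ K₀ = ∅` take `c = h x₀`, `x₀ ∈ C` (chosen through the set `C`); otherwise `comp_max` (LV17, `g = |h|`)
  gives `y₀ ∈ C ∩ K₀` with `|h|` maximal, and IsHt.exists_gt / exists_lt a point `y₁ ∈ C` with `|h y₁| > |h y₀|`
  (`C` is open and connected in `{h ≠ 0}`, so `h` has a fixed sign on `C`); `c = h y₁`.
(3) `s₁ = s₂` on `{g ≠ 0} ∩ {h ≠ 0}`: both are roots of `hu`. Let `C'` be a component of this open set (or simply the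
  connected set `{Θ t x | t ≥ 0}`): `t ↦ s₁ (Θ t x) * (s₂ (Θ t x))⁻¹` is continuous with square `1`, so constant
  (sign_const, with the preconnected set `{Θ t x | t ≥ 0}`). For `t` with `e^t |g x| ≥ M` the point `p = Θ t x` has
  `|g p| ≥ M`: `s₁ p = 1`; and every vertical move from `p` ends at a point with the same `g` (IsDev: `g` is
  the real part; along a vertical move `D` changes by a multiple of `i`: use the chart rule, or
  Mv.seg and the additivity of `D` along segments), so with `|g| ≥ M`, not in `K₀`, `hu = 1`: `s₂ p = 1` by the last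
  clause of `push`. So `s₁ = s₂`.
(4) Glue: `s = s₁` on `{g ≠ 0}`, `s₂` on `{h ≠ 0}`: root on `{D ≠ 0}` (both sets open). `Z = {D = 0}` closed and
  discrete (IsDev.zeros), `sq_extend`: `IsSq hu univ`, contradiction to not_isSq_hu.
-/

open Set Filter Topology

namespace LadderVeech

private lemma LV19_mv {S : Type*} [TopologicalSpace S] [T2Space S] {ω : TranslationStructure S} {D : S → ℂ}
    (hD : IsDev ω D) {O : Set S} (hOs : O ⊆ ω.singᶜ) {t : ℝ} {p q : S}
    (h : Mv ω O Complex.I t p q) : (D q).re = (D p).re := by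
  obtain ⟨J, hJ, hJo, h0, ht, γ, hγ, hγ0, hγt, hloc⟩ := h
  have h1 : ∀ s ∈ J, HasDerivAt (fun u => (D (γ u)).re) 0 s := by
    intro s hs
    obtain ⟨h2, h3⟩ := hloc s hs
    obtain ⟨e, he, hse⟩ := ω.covers (γ s) (hOs h2)
    obtain ⟨m, hk, -, hφ⟩ := exists_model_reg he hse
    have h4 := h3 e he hse
    have h5 : ContinuousAt γ s := hγ.continuousAt (hJ.mem_nhds hs)
    have h6 := h5.eventually (m.disc_mem_nhds (ρ := m.R / 4) (by have := m.R_pos; positivity))
    have h7 : (fun u => (D (γ u)).re) =ᶠ[𝓝 s] fun _ => (D (γ s)).re := by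
      filter_upwards [h4, h6] with u hu1 hu2
      rw [hD _ m _ hu2, hk, pow_one, hφ, hu1]
      simp
    exact (hasDerivAt_const s _).congr_of_eventuallyEq h7
  obtain ⟨a, ha⟩ := hJ.exists_is_const_of_deriv_eq_zero hJo.isPreconnected
    (fun s hs => (h1 s hs).differentiableAt.differentiableWithinAt) (fun s hs => (h1 s hs).deriv)
  have e1 := ha 0 h0
  have e2 := ha t ht
  rw [← hγ0, ← hγt]
  exact e2.trans e1.symm

/-- a level for every component -/
private lemma LV19_levels {ω : TranslationStructure Ladder} {h : Ladder → ℝ} (hht : IsHt ω h) :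
    ∃ c : Ladder → ℝ, (∀ x ∈ {y | h y ≠ 0}, ∃ z ∈ connectedComponentIn {y | h y ≠ 0} x, h z = c x) ∧
      (∀ x ∈ {y | h y ≠ 0}, ∀ z ∈ connectedComponentIn {y | h y ≠ 0} x, c z = c x) ∧
      (∀ x ∈ {y | h y ≠ 0}, ∀ z ∈ connectedComponentIn {y | h y ≠ 0} x, h z = c x → hu z = 1) := by
  classical
  have hlc : LocallyConnectedSpace Ladder := locallyConnected_of ω
  have hhc : Continuous h := hht.cont
  have hO : IsOpen {y | h y ≠ 0} := isOpen_ne_fun hhc continuous_const
  set P : Set Ladder → ℝ → Prop := fun C r => (∃ z ∈ C, h z = r) ∧ ∀ z ∈ C, h z = r → hu z = 1 with hP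
  set κ : Set Ladder → ℝ := fun C => if H : ∃ r, P C r then H.choose else 0 with hκ
  have hex : ∀ x ∈ {y | h y ≠ 0}, ∃ r, P (connectedComponentIn {y | h y ≠ 0} x) r := by
    intro x hx
    have hCo : IsOpen (connectedComponentIn {y | h y ≠ 0} x) := hO.connectedComponentIn
    by_cases hne : (connectedComponentIn {y | h y ≠ 0} x ∩ K₀).Nonempty
    · have hset : {y | h y ≠ 0} = {y | |h y| ≠ 0} := by
        ext y
        exact abs_ne_zero.symm
      have hne' := hne
      rw [hset] at hne'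
      obtain ⟨y₀, hy₀, hmax⟩ := comp_max (g := fun y => |h y|) hhc.abs (fun y => abs_nonneg _)
        (isCompact_slab _ _ : IsCompact K₀) hne'
      rw [← hset] at hy₀ hmax
      have hy₀0 : h y₀ ≠ 0 := connectedComponentIn_subset _ _ hy₀.1
      have hfar : ∃ y₁ ∈ connectedComponentIn {y | h y ≠ 0} x, |h y₀| < |h y₁| := by
        rcases lt_or_gt_of_ne hy₀0 with h1 | h1
        · obtain ⟨y₁, h2, h3⟩ := hht.exists_lt (hCo.mem_nhds hy₀.1)
          refine ⟨y₁, h2, ?_⟩
          rw [abs_of_neg h1, abs_of_neg (by linarith)]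
          linarith
        · obtain ⟨y₁, h2, h3⟩ := hht.exists_gt (hCo.mem_nhds hy₀.1)
          refine ⟨y₁, h2, ?_⟩
          rw [abs_of_pos h1, abs_of_pos (by linarith)]
          linarith
      obtain ⟨y₁, h2, h3⟩ := hfar
      refine ⟨h y₁, ⟨y₁, h2, rfl⟩, fun z hz hz1 => hu_eq_one_of_notMem fun hzK => ?_⟩
      have h4 := hmax z ⟨hz, hzK⟩
      rw [hz1] at h4
      linarith
    · refine ⟨h x, ⟨x, mem_connectedComponentIn hx, rfl⟩, fun z hz _ => hu_eq_one_of_notMem fun hzK => ?_⟩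
      exact hne ⟨z, hz, hzK⟩
  have hκP : ∀ x ∈ {y | h y ≠ 0}, P (connectedComponentIn {y | h y ≠ 0} x)
      (κ (connectedComponentIn {y | h y ≠ 0} x)) := by
    intro x hx
    have H := hex x hx
    have h1 : κ (connectedComponentIn {y | h y ≠ 0} x) = H.choose := by
      rw [hκ]
      simp only [dif_pos H]
    rw [h1]
    exact H.choose_spec
  refine ⟨fun x => κ (connectedComponentIn {y | h y ≠ 0} x), fun x hx => (hκP x hx).1, fun x hx z hz => ?_,
    fun x hx => (hκP x hx).2⟩
  show κ _ = κ _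
  rw [connectedComponentIn_eq hz]

variable {ω : TranslationStructure Ladder}

theorem no_image_line (h1 : (!![1, 0; 0, 0] : Matrix (Fin 2) (Fin 2) ℝ) ∈ tang (veechZero ω))
    (h2 : kX false ∈ tang (veechZero ω)) : False := by
  classical
  obtain ⟨D, Θ, hD, hsing, ⟨F⟩, hΘ, hΘ0, hΘadd, hΘD⟩ := exists_two_flows h1 h2
  have hcont : Continuous D := hD.cont
  set g : Ladder → ℝ := fun x => (D x).re with hg
  set h : Ladder → ℝ := fun x => (D x).im with hh
  have hgc : Continuous g := Complex.continuous_re.comp hcont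
  have hht : IsHt ω h := hD.isHt
  have hhc : Continuous h := hht.cont
  obtain ⟨M₀, hM₀⟩ := (isCompact_slab _ _ : IsCompact K₀).exists_bound_of_continuousOn hcont.continuousOn
  set M : ℝ := |M₀| + 1 with hM
  have hMpos : 0 < M := by positivity
  have hgM : ∀ x, M ≤ |g x| → hu x = 1 := by
    intro x hx
    apply hu_eq_one_of_notMem
    intro hxK
    have e1 := hM₀ x hxK
    have e2 := Complex.abs_re_le_norm (D x)
    have e3 := le_abs_self M₀
    have e4 : |g x| = |(D x).re| := rfl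
    linarith
  -- the flow
  have hΘg : ∀ t x, g (Θ t x) = Real.exp t * g x := fun t x => by
    show (D (Θ t x)).re = _
    rw [hΘD]
  have hΘh : ∀ t x, h (Θ t x) = h x := fun t x => by
    show (D (Θ t x)).im = _
    rw [hΘD]
  have hVo : IsOpen {x | g x ≠ 0} := isOpen_ne_fun hgc continuous_const
  have hOo : IsOpen {x | h x ≠ 0} := isOpen_ne_fun hhc continuous_const
  -- step 1
  set τ : Ladder → ℝ := fun x => max 0 (Real.log (M / |g x|)) with hτ
  have hτ0 : ∀ x, 0 ≤ τ x := fun x => le_max_left _ _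
  have hτc : ContinuousOn τ {x | g x ≠ 0} := by
    refine ContinuousOn.sup continuousOn_const (ContinuousOn.log ?_ ?_)
    · exact continuousOn_const.div hgc.abs.continuousOn fun x hx => abs_ne_zero.2 hx
    · intro x hx
      exact (div_pos hMpos (abs_pos.2 hx)).ne'
  have hHg : ∀ θ x, |g (Θ (θ * τ x) x)| = Real.exp (θ * τ x) * |g x| := by
    intro θ x
    rw [hΘg, abs_mul, abs_of_pos (Real.exp_pos _)]
  obtain ⟨s₁, hs₁c, hs₁, hs₁one⟩ := sq_homotopy (V := {x | g x ≠ 0}) (fun θ x => Θ (θ * τ x) x) (by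
      refine hΘ.comp_continuousOn (s := Icc (0 : ℝ) 1 ×ˢ {x | g x ≠ 0})
        (f := fun q : ℝ × Ladder => (q.1 * τ q.2, q.2)) ?_
      refine ContinuousOn.prodMk (continuousOn_fst.mul ?_) continuousOn_snd
      exact hτc.comp continuousOn_snd fun q hq => hq.2) (fun p _ => by rw [zero_mul, hΘ0]) hu (by
      intro p hp
      apply hgM
      rw [hHg, one_mul]
      have hp' : 0 < |g p| := abs_pos.2 hp
      have e1 : M / |g p| ≤ Real.exp (τ p) := by
        rw [← Real.log_le_iff_le_exp (div_pos hMpos hp')]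
        exact le_max_right _ _
      rwa [div_le_iff₀ hp'] at e1)
  have hs₁far : ∀ p, M ≤ |g p| → s₁ p = 1 := by
    intro p hp
    have hp' : g p ≠ 0 := by
      intro h0
      rw [h0, abs_zero] at hp
      linarith
    refine hs₁one p hp' fun θ hθ => hgM _ ?_
    show M ≤ |g (Θ (θ * τ p) p)|
    rw [hHg]
    have e1 : 1 ≤ Real.exp (θ * τ p) := Real.one_le_exp (mul_nonneg hθ.1 (hτ0 p))
    have e2 := abs_nonneg (g p)
    nlinarith
  -- step 2
  have hOs : {x | h x ≠ 0} ⊆ ω.singᶜ := by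
    intro x hx hxs
    apply hx
    show (D x).im = 0
    rw [hsing x hxs, Complex.zero_im]
  obtain ⟨c, hc1, hc2, hc3⟩ := LV19_levels hht
  obtain ⟨s₂, hs₂c, hs₂, hs₂one⟩ := push hht hOo hOs (fun x hx t => F.hc hx t) c hc1 hc2 hu hc3
  have hs₂far : ∀ p, h p ≠ 0 → M ≤ |g p| → s₂ p = 1 := by
    intro p hp hpM
    refine hs₂one p hp fun t _ y hy => hgM y ?_
    have e1 : g y = g p := LV19_mv hD hOs hy
    rwa [e1]
  -- step 3
  have hagree : ∀ x, g x ≠ 0 → h x ≠ 0 → s₁ x = s₂ x := by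
    intro x hgx hhx
    set A : Set Ladder := (fun t => Θ t x) '' Ici (0 : ℝ) with hA
    have hc : Continuous fun t => Θ t x := hΘ.comp (continuous_id.prodMk continuous_const)
    have hApre : IsPreconnected A := isPreconnected_Ici.image _ hc.continuousOn
    have hAg : A ⊆ {x | g x ≠ 0} := by
      rintro _ ⟨t, _, rfl⟩
      show g (Θ t x) ≠ 0
      rw [hΘg]
      exact mul_ne_zero (Real.exp_ne_zero _) hgx
    have hAh : A ⊆ {x | h x ≠ 0} := by
      rintro _ ⟨t, _, rfl⟩
      show h (Θ t x) ≠ 0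
      rw [hΘh]
      exact hhx
    obtain ⟨w, -, hw⟩ := sign_const hApre (hs₁c.mono hAg) (hs₂c.mono hAh) (fun p hp => by
      rw [hs₁ p (hAg hp), hs₂ p (hAh hp)])
    have hx' : 0 < |g x| := abs_pos.2 hgx
    have hfar : Θ (τ x) x ∈ A := ⟨τ x, hτ0 x, rfl⟩
    have hgfar : M ≤ |g (Θ (τ x) x)| := by
      rw [hΘg, abs_mul, abs_of_pos (Real.exp_pos _)]
      have e1 : M / |g x| ≤ Real.exp (τ x) := by
        rw [← Real.log_le_iff_le_exp (div_pos hMpos hx')]
        exact le_max_right _ _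
      rwa [div_le_iff₀ hx'] at e1
    have e1 := hw _ hfar
    rw [hs₁far _ hgfar, hs₂far _ (hAh hfar) hgfar, mul_one] at e1
    have hx0 : x ∈ A := ⟨0, le_refl (0 : ℝ), hΘ0 x⟩
    have e2 := hw _ hx0
    rwa [← e1, one_mul] at e2
  -- step 4
  have hsq : IsSq hu {x | D x = 0}ᶜ := by
    set s : Ladder → Circle := fun x => if g x ≠ 0 then s₁ x else s₂ x with hs
    have hsV : ∀ x ∈ {x | g x ≠ 0}, s x = s₁ x := fun x hx => by
      rw [hs]
      simp only [if_pos (show g x ≠ 0 from hx)]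
    have hsO : ∀ x ∈ {x | h x ≠ 0}, s x = s₂ x := fun x hx => by
      by_cases hgx : g x ≠ 0
      · rw [hsV x hgx, hagree x hgx hx]
      · rw [hs]
        simp only [if_neg hgx]
    have hcov : {x | D x = 0}ᶜ ⊆ {x | g x ≠ 0} ∪ {x | h x ≠ 0} := by
      intro x hx
      by_contra hcon
      apply hx
      have e1 : ¬ (g x ≠ 0) := fun h' => hcon (Or.inl h')
      have e2 : ¬ (h x ≠ 0) := fun h' => hcon (Or.inr h')
      rw [not_not] at e1 e2
      exact Complex.ext e1 e2
    refine IsSq.mono ⟨s, ?_, ?_⟩ hcov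
    · exact ContinuousOn.union_of_isOpen (hs₁c.congr hsV) (hs₂c.congr hsO) hVo hOo
    · rintro x (hx | hx)
      · rw [hsV x hx, hs₁ x hx]
      · rw [hsO x hx, hs₂ x hx]
  obtain ⟨hZc, hZd⟩ := hD.zeros
  exact not_isSq_hu (IsSq.mono (sq_extend (hloc_of ω) hu hZc hZd hsq) (subset_univ _))

end LadderVeech
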