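import Pool.Agent.LadderVeech.LV03
import Pool.Agent.LadderVeech.LV05

/-!
LV20. Affine maps built from straight moves.

SETTING: height `h`, `h = 0` on sing, and for all `t` and all `x` with `h x ≠ 0` the move from `x` with velocity
`km b` and length `kth b t * h x` exists inside `O = {h ≠ 0}`.
PROOF. `f t x := x` if `h x = 0`, otherwise the end point. `h (f t x) = kch b t * h x` (IsHt.mv, kch_eq). Composition:
`f s (f t x) = f (s + t) x` by Mv.trans (`kth b t * h x + kth b s * (kch b t * h x) = kth b (s+t) * h x`,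
kth_add) and Mv.unique; `f 0 = id`. So `f t` is a bijection with inverse `f (-t)`.
Continuity at `x` with `h x ≠ 0`: `Mv.tendsto` (LV03). At `z` with `h z = 0`: model `m` at `z`; for `x` near `z`:
`Mv.trap`: `x ∈ m.disc ρ` → `f t x ∈ m.disc (ρ + |kth b t * h x|)`, and `h x → 0` (for `h x = 0` trivial).
`f t '' sing = sing` (fixed).
Affinity at `p ∉ sing` with charts `e` at `p`, `e'` at `f t p`. If `h p ≠ 0`: `Mv.stable` with
`(x, s) = (q, kth b t * h q)`: `e' (f q) = e' (f p) + (e q - e p) + (kth b t * (h q - h p)) * km b`, and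
`h q - h p = (e q - e p).im` near `p` (IsHt.chart), so by act_kX it is `act A (e q) + const`. If `h p = 0`:
`f p = p`; near `p` use the model with `k = 1` given by exists_model_reg for `e` (`m.φ q = e q - e p`,
`m.φ.source = e.source`) and Mv.trap: `e (f q) = e q + (kth b t * h q) km b`, also if `h q = 0`; `h q = (e q - e p).im`
near `p`; then compare `e'` with `e` (ω.compatible, and continuity of `f`).
-/

open Set Filter Topology

namespace LadderVeech

section Build

variable {S : Type*} [TopologicalSpace S] {ω : TranslationStructure S} {h : S → ℝ} {b : Bool}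

open Classical in
/-- the end point of the move -/
private noncomputable def LV20_f
    (hex : ∀ (t : ℝ) (x : S), h x ≠ 0 → ∃ y, Mv ω {y | h y ≠ 0} (km b) (kth b t * h x) x y)
    (t : ℝ) (x : S) : S :=
  if hx : h x ≠ 0 then (hex t x hx).choose else x

variable (hex : ∀ (t : ℝ) (x : S), h x ≠ 0 → ∃ y, Mv ω {y | h y ≠ 0} (km b) (kth b t * h x) x y)

private lemma LV20_f_zero {t : ℝ} {x : S} (hx : h x = 0) : LV20_f hex t x = x := by
  unfold LV20_f
  rw [dif_neg (not_not.2 hx)]

private lemma LV20_f_mv (t : ℝ) {x : S} (hx : h x ≠ 0) :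
    Mv ω {y | h y ≠ 0} (km b) (kth b t * h x) x (LV20_f hex t x) := by
  unfold LV20_f
  rw [dif_pos hx]
  exact (hex t x hx).choose_spec

private lemma LV20_O (hs : ∀ x ∈ ω.sing, h x = 0) : {y | h y ≠ 0} ⊆ ω.singᶜ :=
  fun y hy hys => hy (hs y hys)

private lemma LV20_open (hh : IsHt ω h) : IsOpen {y | h y ≠ 0} :=
  isOpen_ne_fun hh.cont continuous_const

private lemma LV20_km : ‖km b‖ = 1 := by
  cases b <;> simp [km]

variable [T2Space S]

private lemma LV20_ht (hh : IsHt ω h) (hs : ∀ x ∈ ω.sing, h x = 0) (t : ℝ) (x : S) :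
    h (LV20_f hex t x) = kch b t * h x := by
  by_cases hx : h x = 0
  · rw [LV20_f_zero hex hx, hx, mul_zero]
  · rw [hh.mv (LV20_O hs) (LV20_f_mv hex t hx), kch_eq]
    ring

private lemma LV20_ne (hh : IsHt ω h) (hs : ∀ x ∈ ω.sing, h x = 0) (t : ℝ) {x : S}
    (hx : h x ≠ 0) : h (LV20_f hex t x) ≠ 0 := by
  rw [LV20_ht hex hh hs]
  exact mul_ne_zero (kch_pos b t).ne' hx

private lemma LV20_add (hh : IsHt ω h) (hs : ∀ x ∈ ω.sing, h x = 0) (s t : ℝ) (x : S) :
    LV20_f hex (s + t) x = LV20_f hex s (LV20_f hex t x) := by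
  by_cases hx : h x = 0
  · rw [LV20_f_zero hex hx, LV20_f_zero hex hx, LV20_f_zero hex hx]
  · have h1 := LV20_f_mv hex t hx
    have h2 := LV20_f_mv hex s (LV20_ne hex hh hs t hx)
    have h3 := h1.trans (LV20_O hs) h2
    have h4 : kth b t * h x + kth b s * h (LV20_f hex t x) = kth b (s + t) * h x := by
      rw [LV20_ht hex hh hs, kth_add]
      ring
    rw [h4] at h3
    exact (LV20_f_mv hex (s + t) hx).unique (LV20_O hs) h3

private lemma LV20_id (hh : IsHt ω h) (hs : ∀ x ∈ ω.sing, h x = 0) (x : S) :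
    LV20_f hex 0 x = x := by
  by_cases hx : h x = 0
  · exact LV20_f_zero hex hx
  · have h1 := LV20_f_mv hex 0 hx
    have h2 : kth b 0 = 0 := (kth_eq_zero b).2 rfl
    rw [h2, zero_mul] at h1
    exact h1.unique (LV20_O hs) (Mv.refl (LV20_open hh) (LV20_O hs) hx)

/-- near a zero of the height the map is close to the identity -/
private lemma LV20_near (hh : IsHt ω h) (hs : ∀ x ∈ ω.sing, h x = 0) (t : ℝ) {z : S}
    (hz : h z = 0) (m : Model ω z) {ρ : ℝ} (hρ : 0 < ρ) (hρR : 2 * ρ < m.R) :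
    ∀ᶠ q in 𝓝 z, LV20_f hex t q ∈ m.disc (2 * ρ) ∧
      m.φ (LV20_f hex t q) ^ m.k = m.φ q ^ m.k + ((kth b t * h q : ℝ) : ℂ) * km b := by
  have h1 : Tendsto (fun q => |kth b t * h q|) (𝓝 z) (𝓝 |kth b t * h z|) :=
    ((continuous_const.mul hh.cont).abs).tendsto z
  rw [hz, mul_zero, abs_zero] at h1
  filter_upwards [m.disc_mem_nhds hρ, h1.eventually_lt_const hρ] with q hq1 hq2
  by_cases hq : h q = 0
  · rw [LV20_f_zero hex hq, hq]
    exact ⟨m.disc_mono (by linarith) hq1, by simp⟩
  · have h2 := (LV20_f_mv hex t hq).trap (LV20_O hs) m hq1 (by rw [LV20_km]; linarith)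
    exact ⟨m.disc_mono (by rw [LV20_km]; linarith) h2.1, h2.2⟩

private lemma LV20_cont (hh : IsHt ω h) (hs : ∀ x ∈ ω.sing, h x = 0) (t : ℝ) :
    Continuous (LV20_f hex t) := by
  rw [continuous_iff_continuousAt]
  intro x
  by_cases hx : h x = 0
  · obtain ⟨m⟩ := exists_model ω x
    rw [ContinuousAt, LV20_f_zero hex hx, tendsto_def]
    intro V hV
    obtain ⟨ρ, hρ, hρR, hsub⟩ := m.disc_basis hV
    filter_upwards [LV20_near hex hh hs t hx m (half_pos hρ) (by linarith)] with q hq
    exact hsub (m.disc_mono (by linarith) hq.1)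
  · refine (LV20_f_mv hex t hx).tendsto (LV20_open hh) (LV20_O hs) (x := fun q => q)
      (u := fun q => kth b t * h q) tendsto_id ((continuous_const.mul hh.cont).tendsto x) ?_
    have h1 : ∀ᶠ q in 𝓝 x, h q ≠ 0 := (LV20_open hh).mem_nhds hx
    filter_upwards [h1] with q hq
    exact LV20_f_mv hex t hq

private noncomputable def LV20_F (hh : IsHt ω h) (hs : ∀ x ∈ ω.sing, h x = 0) (t : ℝ) :
    S ≃ₜ S where
  toFun := LV20_f hex t
  invFun := LV20_f hex (-t)
  left_inv x := by rw [← LV20_add hex hh hs, neg_add_cancel, LV20_id hex hh hs]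
  right_inv x := by rw [← LV20_add hex hh hs, add_neg_cancel, LV20_id hex hh hs]
  continuous_toFun := LV20_cont hex hh hs t
  continuous_invFun := LV20_cont hex hh hs (-t)

private lemma LV20_aff (hh : IsHt ω h) (hs : ∀ x ∈ ω.sing, h x = 0) (t : ℝ) :
    IsAffine ω (LV20_F hex hh hs t) (expGL (t • kX b)) := by
  constructor
  · ext x
    constructor
    · rintro ⟨y, hy, rfl⟩
      have : LV20_F hex hh hs t y = y := LV20_f_zero hex (hs y hy)
      rwa [this]
    · intro hx
      exact ⟨x, hx, LV20_f_zero hex (hs x hx)⟩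
  · intro p hp e he hpe e' he' hpe'
    change LV20_f hex t p ∈ e'.source at hpe'
    change ∃ c : ℂ, ∀ᶠ q in 𝓝 p, e' (LV20_f hex t q) = act (expGL (t • kX b)) (e q) + c
    by_cases hx : h p = 0
    · obtain ⟨m, hm1, -, hm3⟩ := exists_model_reg he hpe
      have hpe'' := hpe'
      rw [LV20_f_zero hex hx] at hpe''
      obtain ⟨c, hc⟩ := ω.compatible e he e' he' p ⟨hpe, hpe''⟩
      have hct : Tendsto (LV20_f hex t) (𝓝 p) (𝓝 p) := by
        have := (LV20_cont hex hh hs t).tendsto p
        rwa [LV20_f_zero hex hx] at this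
      refine ⟨c - ((kth b t * (e p).im : ℝ) : ℂ) * km b, ?_⟩
      have hR := m.R_pos
      filter_upwards [hct.eventually hc, LV20_near hex hh hs t hx m (ρ := m.R / 4)
        (by linarith) (by linarith), hh.chart he hpe] with q h1 h2 h3
      have h4 := h2.2
      rw [hm1, pow_one, pow_one, hm3, hm3, h3, hx, zero_add, Complex.sub_im] at h4
      rw [h1, act_kX]
      push_cast at h4 ⊢
      linear_combination h4
    · refine ⟨e' (LV20_f hex t p) - e p - ((kth b t * (e p).im : ℝ) : ℂ) * km b, ?_⟩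
      have h1 := (LV20_f_mv hex t hx).stable (LV20_open hh) (LV20_O hs) he hpe he' hpe'
        (N := univ) univ_mem
      have h2 : Tendsto (fun q => (q, kth b t * h q)) (𝓝 p) (𝓝 (p, kth b t * h p)) :=
        (continuous_id.prodMk (continuous_const.mul hh.cont)).tendsto p
      have h5 : ∀ᶠ q in 𝓝 p, h q ≠ 0 := (LV20_open hh).mem_nhds hx
      filter_upwards [h2.eventually h1, hh.chart he hpe, h5] with q hq1 hq2 hq3
      obtain ⟨y, -, -, hy1, hy2⟩ := hq1
      have h6 : LV20_f hex t q = y := (LV20_f_mv hex t hq3).unique (LV20_O hs) hy1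
      rw [h6, hy2, act_kX, hq2, Complex.sub_im]
      push_cast
      ring

end Build

theorem build {S : Type*} [TopologicalSpace S] [T2Space S] {ω : TranslationStructure S} {h : S → ℝ}
    (hh : IsHt ω h) (hs : ∀ x ∈ ω.sing, h x = 0) (b : Bool)
    (hex : ∀ (t : ℝ) (x : S), h x ≠ 0 → ∃ y, Mv ω {y | h y ≠ 0} (km b) (kth b t * h x) x y) :
    ∃ f : ℝ → S ≃ₜ S, (∀ t, IsAffine ω (f t) (expGL (t • kX b))) ∧
      (∀ s t x, f (s + t) x = f s (f t x)) ∧ (∀ t x, h x = 0 → f t x = x) ∧
      (∀ t x, h (f t x) = kch b t * h x) ∧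
      ∀ t x, h x ≠ 0 → Mv ω {y | h y ≠ 0} (km b) (kth b t * h x) x (f t x) :=
  ⟨LV20_F hex hh hs, LV20_aff hex hh hs, LV20_add hex hh hs, fun _ _ hx => LV20_f_zero hex hx,
    LV20_ht hex hh hs, fun t _ hx => LV20_f_mv hex t hx⟩

end LadderVeech
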