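import Pool.Agent.LadderVeech.LV20

/-!
LV21. On the ladder the maps built in LV20 have zero flux.

PROOF. `f t = f (t/2) * f (t/2)` (as homeomorphisms, from the group law), so `f t ∈ endFix` (mul_mem_endFix if
`f (t/2) ∉ endFix`, Subgroup.mul_mem otherwise). `flux : endFix →* Multiplicative ℤ`; for every `n ≥ 1`,
`f t = (f (t/n))^n`, so `flux (f t) = (flux (f (t/n)))^n` : the integer is divisible by every `n`, hence `0`.
So `ZeroFlux ω (f t)`. `det > 0`: determinant of `expGL (t • kX b)` is `kch b t > 0` (det_entries and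
expGL_kX_entries, or mem_veechZero). So `kX b ∈ tang (veechZero ω)`.
-/

open Set Filter Topology

namespace LadderVeech

variable {ω : TranslationStructure Ladder}

/-- additive maps from the reals to the integers vanish -/
lemma LV21_hom_zero (ψ : ℝ →+ ℤ) (t : ℝ) : ψ t = 0 := by
  by_contra hne
  set n : ℕ := (ψ t).natAbs + 1 with hn
  have hn0 : (n : ℝ) ≠ 0 := by positivity
  have h1 : ψ t = (n : ℤ) * ψ (t / n) := by
    have h2 : t = n • (t / (n : ℝ)) := by
      rw [nsmul_eq_mul]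
      field_simp
    conv_lhs => rw [h2]
    rw [map_nsmul, nsmul_eq_mul]
  have h3 : (n : ℤ) ∣ ψ t := ⟨_, h1⟩
  have h4 : n ∣ (ψ t).natAbs := Int.natCast_dvd.1 h3
  have h5 : n ≤ (ψ t).natAbs := Nat.le_of_dvd (Int.natAbs_pos.2 hne) h4
  omega

/-- one-parameter groups of homeomorphisms have zero flux -/
theorem zeroFlux_of_group {f : ℝ → Ladder ≃ₜ Ladder} (hf : ∀ s t x, f (s + t) x = f s (f t x))
    (t : ℝ) : ZeroFlux ω (f t) := by
  have hmul : ∀ s t, f (s + t) = f s * f t := fun s t => Homeomorph.ext (fun x => hf s t x)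
  have hE : ∀ t, f t ∈ endFix := by
    intro t
    have h1 : f t = f (t / 2) * f (t / 2) := by
      rw [← hmul]
      congr 1
      ring
    rw [h1]
    by_cases h2 : f (t / 2) ∈ endFix
    · exact endFix.mul_mem h2 h2
    · exact mul_mem_endFix h2 h2
  refine ⟨hE t, ?_⟩
  have hadd : ∀ s t, Multiplicative.toAdd (flux (hloc_of ω) ⟨f (s + t), hE (s + t)⟩) =
      Multiplicative.toAdd (flux (hloc_of ω) ⟨f s, hE s⟩) +
        Multiplicative.toAdd (flux (hloc_of ω) ⟨f t, hE t⟩) := by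
    intro s t
    rw [← toAdd_mul, ← map_mul]
    congr 2
    exact Subtype.ext (hmul s t)
  have h := LV21_hom_zero (AddMonoidHom.mk'
    (fun t => Multiplicative.toAdd (flux (hloc_of ω) ⟨f t, hE t⟩)) hadd) t
  rw [AddMonoidHom.mk'_apply] at h
  exact toAdd_eq_zero.1 h

theorem build_tang {h : Ladder → ℝ} (hh : IsHt ω h) (hs : ∀ x ∈ ω.sing, h x = 0) (b : Bool)
    (hex : ∀ (t : ℝ) (x : Ladder), h x ≠ 0 →
      ∃ y, Mv ω {y | h y ≠ 0} (km b) (kth b t * h x) x y) :
    kX b ∈ tang (veechZero ω) := by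
  obtain ⟨f, hf1, hf2, -, -, -⟩ := build hh hs b hex
  intro t
  rw [mem_veechZero]
  refine ⟨?_, f t, hf1 t, zeroFlux_of_group hf2 t⟩
  obtain ⟨e10, e11, e00, e01⟩ := expGL_kX_entries b t
  rw [Matrix.det_fin_two, e10, e11, e00]
  simpa using kch_pos b t

end LadderVeech
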