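import Pool.Agent.LadderVeech.Basic

open Set Filter Topology

namespace LadderVeech

variable {S L : Type*} [TopologicalSpace S] [TopologicalSpace L]

/-- pull back a chart along a homeomorphism -/
noncomputable def pullChart (e : S ≃ₜ L) (ψ : OpenPartialHomeomorph L ℂ) :
    OpenPartialHomeomorph S ℂ := e.toOpenPartialHomeomorph.trans ψ

lemma pullChart_apply (e : S ≃ₜ L) (ψ : OpenPartialHomeomorph L ℂ) (x : S) :
    pullChart e ψ x = ψ (e x) := rfl

lemma pullChart_source (e : S ≃ₜ L) (ψ : OpenPartialHomeomorph L ℂ) :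
    (pullChart e ψ).source = e ⁻¹' ψ.source := by
  simp [pullChart]

lemma pullChart_pullChart (e : S ≃ₜ L) (ψ : OpenPartialHomeomorph S ℂ) :
    pullChart e (pullChart e.symm ψ) = ψ := by
  apply OpenPartialHomeomorph.ext
  · intro x
    simp [pullChart]
  · intro x
    simp [pullChart]
  · rw [pullChart_source, pullChart_source]
    ext x
    simp

/-- transport of a translation structure along a homeomorphism -/
noncomputable def TranslationStructure.transport (e : S ≃ₜ L) (ω : TranslationStructure S) :
    TranslationStructure L where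
  sing := e '' ω.sing
  isClosed_sing := e.isClosedMap _ ω.isClosed_sing
  isDiscrete_sing := by
    have h : e '' ω.sing = e.symm ⁻¹' ω.sing := e.image_eq_preimage_symm _
    rw [h]
    exact ω.isDiscrete_sing.preimage e.symm.continuous.continuousOn e.symm.injective
  atlas := {ψ | pullChart e ψ ∈ ω.atlas}
  source_subset := by
    rintro ψ hψ x hx ⟨y, hy, rfl⟩
    have := ω.source_subset _ hψ (show y ∈ (pullChart e ψ).source by
      rw [pullChart_source]; exact hx)
    exact this hy
  covers := by
    intro p hp
    have hp' : e.symm p ∉ ω.sing := fun h => hp ⟨_, h, by simp⟩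
    obtain ⟨ψ, hψ, hpψ⟩ := ω.covers _ hp'
    refine ⟨pullChart e.symm ψ, ?_, ?_⟩
    · change pullChart e (pullChart e.symm ψ) ∈ ω.atlas
      rwa [pullChart_pullChart]
    · rw [pullChart_source]
      exact hpψ
  compatible := by
    rintro ψ hψ ψ' hψ' p ⟨h1, h2⟩
    obtain ⟨c, hc⟩ := ω.compatible _ hψ _ hψ' (e.symm p) ⟨by
      rw [pullChart_source, mem_preimage, e.apply_symm_apply]; exact h1, by
      rw [pullChart_source, mem_preimage, e.apply_symm_apply]; exact h2⟩
    refine ⟨c, ?_⟩
    have := (e.symm.continuous.tendsto p).eventually hc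
    filter_upwards [this] with q hq
    rw [pullChart_apply, pullChart_apply, e.apply_symm_apply] at hq
    exact hq
  maximal := by
    intro ψ hψ hcomp
    change pullChart e ψ ∈ ω.atlas
    refine ω.maximal _ ?_ ?_
    · intro x hx hxs
      rw [pullChart_source] at hx
      exact hψ hx ⟨x, hxs, rfl⟩
    · rintro e' he' p ⟨h1, h2⟩
      rw [pullChart_source] at h1
      obtain ⟨c, hc⟩ := hcomp (pullChart e.symm e') (by
        change pullChart e (pullChart e.symm e') ∈ ω.atlas
        rwa [pullChart_pullChart]) (e p) ⟨h1, by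
          rw [pullChart_source, mem_preimage, e.symm_apply_apply]; exact h2⟩
      refine ⟨c, ?_⟩
      have := (e.continuous.tendsto p).eventually hc
      filter_upwards [this] with q hq
      rw [pullChart_apply, e.symm_apply_apply] at hq
      exact hq
  cone := by
    rintro _ ⟨p, hp, rfl⟩
    obtain ⟨k, hk, φ, hpφ, h0, h⟩ := ω.cone p hp
    refine ⟨k, hk, pullChart e.symm φ, ?_, ?_, ?_⟩
    · rw [pullChart_source, mem_preimage, e.symm_apply_apply]; exact hpφ
    · rw [pullChart_apply, e.symm_apply_apply]; exact h0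
    · intro q hq hqp
      rw [pullChart_source] at hq
      have hqp' : e.symm q ≠ p := by
        intro h
        apply hqp
        rw [← h, e.apply_symm_apply]
      obtain ⟨h1, h2⟩ := h _ hq hqp'
      constructor
      · rintro ⟨x, hx, rfl⟩
        rw [e.symm_apply_apply] at h1
        exact h1 hx
      · intro ψ hψ hqψ
        obtain ⟨c, hc⟩ := h2 _ hψ (by
          rw [pullChart_source, mem_preimage, e.apply_symm_apply]; exact hqψ)
        refine ⟨c, ?_⟩
        have := (e.symm.continuous.tendsto q).eventually hc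
        filter_upwards [this] with q' hq'
        rw [pullChart_apply, e.apply_symm_apply] at hq'
        exact hq'

lemma IsAffine.transport {ω : TranslationStructure S} (e : S ≃ₜ L) {f : S ≃ₜ S}
    {A : GL (Fin 2) ℝ} (hf : IsAffine ω f A) :
    IsAffine (ω.transport e) ((e.symm.trans f).trans e) A := by
  constructor
  · change ((e.symm.trans f).trans e) '' (e '' ω.sing) = e '' ω.sing
    have h1 := hf.1
    conv_rhs => rw [← h1]
    ext x
    constructor
    · rintro ⟨_, ⟨y, hy, rfl⟩, rfl⟩
      exact ⟨f y, ⟨y, hy, rfl⟩, by simp⟩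
    · rintro ⟨_, ⟨y, hy, rfl⟩, rfl⟩
      exact ⟨e y, ⟨y, hy, rfl⟩, by simp⟩
  · intro p hp ψ hψ hpψ ψ' hψ' hpψ'
    have hp' : e.symm p ∉ ω.sing := fun h => hp ⟨_, h, by simp⟩
    obtain ⟨c, hc⟩ := hf.2 _ hp' _ hψ (by
      rw [pullChart_source, mem_preimage, e.apply_symm_apply]; exact hpψ) _ hψ' (by
      rw [pullChart_source]; exact hpψ')
    refine ⟨c, ?_⟩
    have := (e.symm.continuous.tendsto p).eventually hc
    filter_upwards [this] with q hq
    rw [pullChart_apply, pullChart_apply, e.apply_symm_apply] at hq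
    exact hq

lemma IsAffine.of_transport {ω : TranslationStructure S} (e : S ≃ₜ L) {f : L ≃ₜ L}
    {A : GL (Fin 2) ℝ} (hf : IsAffine (ω.transport e) f A) :
    IsAffine ω ((e.trans f).trans e.symm) A := by
  constructor
  · have h1 : f '' (e '' ω.sing) = e '' ω.sing := hf.1
    apply Subset.antisymm
    · rintro _ ⟨x, hx, rfl⟩
      have h2 : f (e x) ∈ e '' ω.sing := by rw [← h1]; exact ⟨_, ⟨x, hx, rfl⟩, rfl⟩
      obtain ⟨y, hy, hyx⟩ := h2
      have : ((e.trans f).trans e.symm) x = y := by
        change e.symm (f (e x)) = y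
        rw [← hyx, e.symm_apply_apply]
      rw [this]
      exact hy
    · intro y hy
      have h2 : e y ∈ f '' (e '' ω.sing) := by rw [h1]; exact ⟨y, hy, rfl⟩
      obtain ⟨_, ⟨x, hx, rfl⟩, hxy⟩ := h2
      refine ⟨x, hx, ?_⟩
      change e.symm (f (e x)) = y
      rw [hxy, e.symm_apply_apply]
  · intro p hp ψ hψ hpψ ψ' hψ' hpψ'
    have hp' : e p ∉ (ω.transport e).sing := by
      rintro ⟨x, hx, hxp⟩
      rw [e.injective hxp] at hx
      exact hp hx
    obtain ⟨c, hc⟩ := hf.2 _ hp' (pullChart e.symm ψ) (by
      change pullChart e (pullChart e.symm ψ) ∈ ω.atlas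
      rwa [pullChart_pullChart]) (by
      rw [pullChart_source, mem_preimage, e.symm_apply_apply]; exact hpψ)
      (pullChart e.symm ψ') (by
      change pullChart e (pullChart e.symm ψ') ∈ ω.atlas
      rwa [pullChart_pullChart]) (by
      rw [pullChart_source]; exact hpψ')
    refine ⟨c, ?_⟩
    have := (e.continuous.tendsto p).eventually hc
    filter_upwards [this] with q hq
    rw [pullChart_apply, pullChart_apply, e.symm_apply_apply] at hq
    exact hq

/-- the Veech group only depends on the homeomorphism type -/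
theorem veechGroup_transport (e : S ≃ₜ L) (ω : TranslationStructure S) :
    veechGroup (ω.transport e) = veechGroup ω := by
  ext A
  rw [mem_veechGroup, mem_veechGroup]
  refine and_congr_right fun _ => ⟨?_, ?_⟩
  · rintro ⟨f, hf⟩
    exact ⟨_, hf.of_transport e⟩
  · rintro ⟨f, hf⟩
    exact ⟨_, hf.transport e⟩

end LadderVeech
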