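import Pool.Agent.LadderVeech.NoHyp
import Pool.Agent.LadderVeech.Transport

/-!
Definitions for the list of uncountable Veech groups on the ladder.
-/

open Set Filter Topology

namespace LadderVeech

section Lines

variable {S : Type*} [TopologicalSpace S]

/-- `Mv ω O v s p q`: moving from `p` with velocity `v` for the time `s` (of any sign), inside the
set `O` of regular points, leads to `q`. -/
def Mv (ω : TranslationStructure S) (O : Set S) (v : ℂ) (s : ℝ) (p q : S) : Prop :=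
  ∃ J : Set ℝ, IsOpen J ∧ J.OrdConnected ∧ (0 : ℝ) ∈ J ∧ s ∈ J ∧
    ∃ γ : ℝ → S, ContinuousOn γ J ∧ γ 0 = p ∧ γ s = q ∧
      ∀ t ∈ J, γ t ∈ O ∧ ∀ e ∈ ω.atlas, γ t ∈ e.source →
        ∀ᶠ u in 𝓝 t, e (γ u) = e (γ t) + ((u - t : ℝ) : ℂ) * v

/-- `h` is a global height: in charts it is the imaginary part plus a constant. -/
def IsHt (ω : TranslationStructure S) (h : S → ℝ) : Prop :=
  ∀ (x : S) (m : Model ω x), ∀ y ∈ m.disc (m.R / 4), h y = h x + (m.φ y ^ m.k).im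

end Lines

/-! The two kinds of infinitesimal generators with kernel `ℝ e₁`: `false` = shear, `true` =
vertical scaling. -/

/-- the generator: `E₁₂` or `E₂₂` -/
def kX (b : Bool) : Matrix (Fin 2) (Fin 2) ℝ := if b then !![0, 0; 0, 1] else !![0, 1; 0, 0]

/-- the direction of the displacement -/
noncomputable def km (b : Bool) : ℂ := if b then Complex.I else 1

/-- the displacement function -/
noncomputable def kth (b : Bool) (t : ℝ) : ℝ := if b then Real.exp t - 1 else t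

/-- the factor of the height -/
noncomputable def kch (b : Bool) (t : ℝ) : ℝ := if b then Real.exp t else 1

/-- A one-parameter group of zero flux affine maps with derivative `exp (a t X)` and displacement
`θ (a t) h m + c t`. -/
structure HFlow (ω : TranslationStructure Ladder) (h : Ladder → ℝ) (b : Bool) (a c : ℝ) where
  Φ : ℝ → Ladder → Ladder
  cont : Continuous (fun q : ℝ × Ladder => Φ q.1 q.2)
  zero : ∀ x, Φ 0 x = x
  add : ∀ s t x, Φ (s + t) x = Φ s (Φ t x)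
  aff : ∀ t : ℝ, ∃ f : Ladder ≃ₜ Ladder, (∀ x, f x = Φ t x) ∧ ZeroFlux ω f ∧
    IsAffine ω f (expGL ((a * t) • kX b))
  disp : ∀ x, ∃ δ > 0, ∀ t : ℝ, |t| < δ →
    Seg ω x (((kth b (a * t) * h x : ℝ) : ℂ) * km b + ((c * t : ℝ) : ℂ)) (Φ t x)
  ht : ∀ t x, h (Φ t x) = kch b (a * t) * h x

/-! Surfaces given by a branched developing map. -/

/-- `D` is a local homeomorphism off the closed discrete set `Z` and of the form
`D p + φ ^ k` near the points `p` of `Z`, with a local coordinate `φ` and `k ≥ 2`. -/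
structure BrDev {S : Type*} [TopologicalSpace S] (D : S → ℂ) (Z : Set S) : Prop where
  isClosed : IsClosed Z
  isDiscrete : IsDiscrete Z
  reg : ∀ p ∉ Z, ∃ e : OpenPartialHomeomorph S ℂ, p ∈ e.source ∧ e.source ⊆ Zᶜ ∧
    ∀ q ∈ e.source, e q = D q
  br : ∀ p ∈ Z, ∃ k : ℕ, 2 ≤ k ∧ ∃ φ : OpenPartialHomeomorph S ℂ, p ∈ φ.source ∧ φ p = 0 ∧
    (∀ q ∈ φ.source, q ≠ p → q ∉ Z) ∧ ∀ q ∈ φ.source, D q = D p + φ q ^ k

/-- The double cover `v ^ 2 = F b` of `B`. -/
abbrev Cv {B : Type*} [TopologicalSpace B] (F : B → ℂ) : Type _ := {q : B × ℂ // q.2 ^ 2 = F q.1}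

/-- The annulus. -/
abbrev Ann : Type := ℝ × Circle

/-- The function whose square root is adjoined: its imaginary part is the sine of the angle; on the
positive (negative) real axis its values are `Kp` (`Km`). -/
noncomputable def FF (Kp Km : ℝ → ℝ) (b : Ann) : ℂ :=
  ⟨(1 + (b.2 : ℂ).re) / 2 * Kp b.1 + (1 - (b.2 : ℂ).re) / 2 * Km b.1, (b.2 : ℂ).im⟩

/-- `1/2 - sin² (π x) = cos (2 π x) / 2` -/
noncomputable def kap (x : ℝ) : ℝ := 1 / 2 - Real.sin (Real.pi * x) ^ 2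

open Classical in
/-- `kap` on the even unit intervals, `1/2` on the odd ones -/
noncomputable def KE (x : ℝ) : ℝ := if Even ⌊x⌋ then kap x else 1 / 2

open Classical in
/-- `kap` on the odd unit intervals, `1/2` on the even ones -/
noncomputable def KO (x : ℝ) : ℝ := if Even ⌊x⌋ then 1 / 2 else kap x

/-! The groups of the list. -/

/-- `P_A` -/
def setP (A : Subgroup ℝˣ) : Set (GL (Fin 2) ℝ) :=
  {g | g 1 0 = 0 ∧ (∃ a ∈ A, g 0 0 = (a : ℝ)) ∧ 0 < g 0 0 * g 1 1}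

/-- `U_A` -/
def setU (A : Subgroup ℝˣ) : Set (GL (Fin 2) ℝ) :=
  {g | g 1 0 = 0 ∧ (∃ a ∈ A, g 0 0 = (a : ℝ)) ∧ 0 < g 0 0 * g 1 1 ∧ |g 1 1| = 1}

/-- `S` -/
def setS : Set (GL (Fin 2) ℝ) := {g | g 1 0 = 0 ∧ g 0 1 = 0 ∧ g 0 0 = 1 ∧ 0 < g 1 1}

/-- `± S` -/
def setSS : Set (GL (Fin 2) ℝ) :=
  {g | g 1 0 = 0 ∧ g 0 1 = 0 ∧ |g 0 0| = 1 ∧ 0 < g 0 0 * g 1 1}

end LadderVeech
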