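import Pool.Agent.LadderVeech.Bounded
import Pool.Agent.LadderVeech.LVDefs

/-!
LV22. Ends of the ladder: iterates and rays.

PROOFS. `slab M = {p | -M ≤ xc p ≤ M}` is compact (isCompact_slab), and preconnected for `M ≥ 1/2`
(isPreconnected_slab with `I = Icc (-M) M`, `n = 0`); `{xc ≤ R}` and `{R ≤ xc}` are preconnected
(isPreconnected_le, isPreconnected_ge, Ends.lean).
* `ends_apart`. For `M ≥ 1/2` let `K = slab M`. Eventually `f^j '' K ∩ K = ∅`; `f^j '' K` is connected, so it is
 contained in `{xc < -M}` or in `{M < xc}`: side(j). The same for `f^{-j} '' K` (apply `f^{-j}` to the disjointness).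
 (i) If `f^j '' K ⊆ {M < xc}` then `f^{-j} '' K ⊆ {xc < -M}`: otherwise `f^{-j} '' K ⊆ {M < xc}`, so with
 `A = {xc ≤ M}` (connected, contains `K`): `f^{-j} '' K ∩ A = ∅`, so `K ∩ f^j '' A = ∅`; `f^j '' A` is connected,
 misses `K` and contains `f^j '' K ⊆ {M < xc}`, so `f^j '' A ⊆ {M < xc}`; but `f^j ∈ endFix` (LL): points of `A`
 with `xc` very negative are mapped to `xc ≤ 0`. Contradiction. Symmetrically with left and right exchanged
 (use RR from rr_of_ll).
 (ii) side(j) is eventually constant: take `M' ≥ M` with `f '' slab M ⊆ slab M'` (compactness); for large `j`,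
 `f^j '' slab M'` is connected, misses `slab M'` and contains `f^j '' slab M` and `f^{j+1} '' slab M`.
 (iii) the side does not depend on `M`: for `M ≤ M'`, `f^j '' slab M ⊆ f^j '' slab M'`.
 Conclude: for given `x`, `M` take a slab containing `x` and of size `≥ |M|, 1/2`.
* `ray_end`: `γ` eventually avoids `slab M` for every `M ≥ 1/2`; `γ '' Ioi u₀` is connected, so on one side; the side
 does not depend on `M`.
* `cross`: intermediate value (xc continuous, `K₀ = {-1/2 ≤ xc ≤ 1/2}`).
-/

open Set Filter Topology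

namespace LadderVeech

/-- the symmetric slab -/
private def LV22_slab (M : ℝ) : Set Ladder := {p | -M ≤ xc p ∧ xc p ≤ M}

private lemma LV22_conn {M : ℝ} (hM : 1 / 2 ≤ M) : IsPreconnected (LV22_slab M) := by
  have h := isPreconnected_slab (I := Icc (-M) M) isPreconnected_Icc 0
    (by simp only [Int.cast_zero, zero_add, mem_Icc]; constructor <;> linarith)
  exact h

private lemma LV22_one {C : Set Ladder} (hC : IsPreconnected C) {M : ℝ} (hM : 1 / 2 ≤ M)
    (h : ∀ p ∈ C, p ∉ LV22_slab M) : (∀ p ∈ C, xc p < -M) ∨ ∀ p ∈ C, M < xc p := by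
  have h2 := hC.subset_or_subset (u := {p | xc p < -M}) (v := {p | M < xc p})
    (isOpen_lt continuous_xc continuous_const) (isOpen_lt continuous_const continuous_xc)
    (by
      rw [Set.disjoint_left]
      intro p hp hp'
      simp only [mem_ofPred_eq] at hp hp'
      linarith)
    (by
      intro p hp
      by_contra hcon
      simp only [mem_union, mem_ofPred_eq, not_or, not_lt] at hcon
      exact h p hp ⟨hcon.1, hcon.2⟩)
  rcases h2 with h | h
  · exact Or.inl fun p hp => h hp
  · exact Or.inr fun p hp => h hp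

private lemma LV22_img {g : Ladder ≃ₜ Ladder} {C : Set Ladder} (hC : IsPreconnected C) {M : ℝ}
    (hM : 1 / 2 ≤ M) (h : ∀ p ∈ C, g p ∉ LV22_slab M) :
    (∀ p ∈ C, xc (g p) < -M) ∨ ∀ p ∈ C, M < xc (g p) := by
  rcases LV22_one (hC.image g g.continuous.continuousOn) hM
    (by rintro _ ⟨p, hp, rfl⟩; exact h p hp) with h | h
  · exact Or.inl fun p hp => h _ ⟨p, hp, rfl⟩
  · exact Or.inr fun p hp => h _ ⟨p, hp, rfl⟩

private lemma LV22_mem {M : ℝ} (hM : 1 / 2 ≤ M) : pt 0 ∈ LV22_slab M := by
  simp only [LV22_slab, mem_ofPred_eq, xc_pt]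
  constructor <;> linarith

private lemma LV22_side {g : Ladder ≃ₜ Ladder} (hg : g ∈ endFix) {M : ℝ} (hM : 1 / 2 ≤ M)
    (h : g '' LV22_slab M ∩ LV22_slab M = ∅) :
    ((∀ p ∈ LV22_slab M, M < xc (g p)) ∧ ∀ p ∈ LV22_slab M, xc (g⁻¹ p) < -M) ∨
    ((∀ p ∈ LV22_slab M, xc (g p) < -M) ∧ ∀ p ∈ LV22_slab M, M < xc (g⁻¹ p)) := by
  have hgi : ∀ p, g⁻¹ (g p) = p := fun p => g.symm_apply_apply p
  have hig : ∀ p, g (g⁻¹ p) = p := fun p => g.apply_symm_apply p
  have h1 : ∀ p ∈ LV22_slab M, g p ∉ LV22_slab M := by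
    intro p hp hgp
    have : g p ∈ g '' LV22_slab M ∩ LV22_slab M := ⟨⟨p, hp, rfl⟩, hgp⟩
    rw [h] at this
    exact this
  have h2 : ∀ p ∈ LV22_slab M, g⁻¹ p ∉ LV22_slab M := by
    intro p hp hgp
    have := h1 _ hgp
    rw [hig] at this
    exact this hp
  rcases LV22_img (LV22_conn hM) hM h1 with s1 | s1
  · right
    refine ⟨s1, ?_⟩
    rcases LV22_img (LV22_conn hM) hM h2 with s2 | s2
    · exfalso
      have h3 : ∀ p ∈ {p : Ladder | -M ≤ xc p}, g p ∉ LV22_slab M := by
        intro p hp hgp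
        have := s2 _ hgp
        rw [hgi] at this
        simp only [mem_ofPred_eq] at hp
        linarith
      obtain ⟨R, hR⟩ := rr_of_ll (mem_endFix.1 hg) 0
      rcases LV22_img (isPreconnected_ge (-M)) hM h3 with s3 | s3
      · have h4 := s3 (pt (max R (-M))) (by simp)
        have h5 := hR (pt (max R (-M))) (by simp)
        linarith
      · have h4 := s3 (pt 0) (by simp only [mem_ofPred_eq, xc_pt]; linarith)
        have h5 := s1 (pt 0) (LV22_mem hM)
        linarith
    · exact s2
  · left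
    refine ⟨s1, ?_⟩
    rcases LV22_img (LV22_conn hM) hM h2 with s2 | s2
    · exact s2
    · exfalso
      have h3 : ∀ p ∈ {p : Ladder | xc p ≤ M}, g p ∉ LV22_slab M := by
        intro p hp hgp
        have := s2 _ hgp
        rw [hgi] at this
        simp only [mem_ofPred_eq] at hp
        linarith
      obtain ⟨R, hR⟩ := mem_endFix.1 hg 0
      rcases LV22_img (isPreconnected_le M) hM h3 with s3 | s3
      · have h4 := s3 (pt 0) (by simp only [mem_ofPred_eq, xc_pt]; linarith)
        have h5 := s1 (pt 0) (LV22_mem hM)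
        linarith
      · have h4 := s3 (pt (min R M)) (by simp)
        have h5 := hR (pt (min R M)) (by simp)
        linarith

theorem ends_apart {f : Ladder ≃ₜ Ladder} (hf : f ∈ endFix)
    (hK : ∀ K : Set Ladder, IsCompact K → ∀ᶠ j : ℕ in atTop, (f ^ j) '' K ∩ K = ∅) :
    (∀ x, Tendsto (fun j : ℕ => xc ((f ^ j) x)) atTop atTop ∧
      Tendsto (fun j : ℕ => xc ((f⁻¹ ^ j) x)) atTop atBot) ∨
    (∀ x, Tendsto (fun j : ℕ => xc ((f ^ j) x)) atTop atBot ∧
      Tendsto (fun j : ℕ => xc ((f⁻¹ ^ j) x)) atTop atTop) := by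
  have hfj : ∀ j : ℕ, f ^ j ∈ endFix := fun j => endFix.pow_mem hf j
  have hside : ∀ M : ℝ, 1 / 2 ≤ M → ∀ᶠ j : ℕ in atTop,
      ((∀ p ∈ LV22_slab M, M < xc ((f ^ j) p)) ∧ ∀ p ∈ LV22_slab M, xc ((f ^ j)⁻¹ p) < -M) ∨
      ((∀ p ∈ LV22_slab M, xc ((f ^ j) p) < -M) ∧ ∀ p ∈ LV22_slab M, M < xc ((f ^ j)⁻¹ p)) := by
    intro M hM
    filter_upwards [hK (LV22_slab M) (isCompact_slab _ _)] with j hj
    exact LV22_side (hfj j) hM hj
  -- the side of `pt 0`
  have hfx : f (pt 0) ∈ LV22_slab (max (1 / 2) |xc (f (pt 0))|) := by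
    simp only [LV22_slab, mem_ofPred_eq]
    have h1 := neg_abs_le (xc (f (pt 0)))
    have h2 := le_abs_self (xc (f (pt 0)))
    have h3 := le_max_right (1 / 2) |xc (f (pt 0))|
    constructor <;> linarith
  obtain ⟨N, hN⟩ := eventually_atTop.1 (hside (max (1 / 2) |xc (f (pt 0))|) (le_max_left _ _))
  have hhalf : (1 / 2 : ℝ) ≤ max (1 / 2) |xc (f (pt 0))| := le_max_left _ _
  have hsucc : ∀ j : ℕ, (f ^ j) (f (pt 0)) = (f ^ (j + 1)) (pt 0) := by
    intro j
    rw [pow_succ]
    rfl
  have hcst : (∀ j ≥ N, 0 < xc ((f ^ j) (pt 0))) ∨ ∀ j ≥ N, xc ((f ^ j) (pt 0)) < 0 := by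
    rcases hN N le_rfl with h0 | h0
    · left
      intro j hj
      induction j, hj using Nat.le_induction with
      | base => linarith [h0.1 (pt 0) (LV22_mem hhalf)]
      | succ j hj ih =>
        rcases hN j hj with h1 | h1
        · have := h1.1 _ hfx
          rw [hsucc] at this
          linarith
        · have := h1.1 (pt 0) (LV22_mem hhalf)
          linarith
    · right
      intro j hj
      induction j, hj using Nat.le_induction with
      | base => linarith [h0.1 (pt 0) (LV22_mem hhalf)]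
      | succ j hj ih =>
        rcases hN j hj with h1 | h1
        · have := h1.1 (pt 0) (LV22_mem hhalf)
          linarith
        · have := h1.1 _ hfx
          rw [hsucc] at this
          linarith
  have hmem : ∀ (x : Ladder) (b : ℝ), 1 / 2 ≤ max (max (1 / 2) |b|) |xc x| ∧
      x ∈ LV22_slab (max (max (1 / 2) |b|) |xc x|) ∧ b ≤ max (max (1 / 2) |b|) |xc x| ∧
      -max (max (1 / 2) |b|) |xc x| ≤ b := by
    intro x b
    have h1 := neg_abs_le (xc x)
    have h2 := le_abs_self (xc x)
    have h3 := le_max_right (max (1 / 2) |b|) |xc x|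
    have h4 := le_max_left (max (1 / 2) |b|) |xc x|
    have h5 := le_max_left (1 / 2) |b|
    have h6 := le_max_right (1 / 2) |b|
    have h7 := neg_abs_le b
    have h8 := le_abs_self b
    refine ⟨by linarith, ⟨by linarith, by linarith⟩, by linarith, by linarith⟩
  rcases hcst with hc | hc
  · left
    intro x
    constructor
    · rw [tendsto_atTop]
      intro b
      obtain ⟨m1, m2, m3, m4⟩ := hmem x b
      filter_upwards [hside _ m1, eventually_ge_atTop N] with j hj hjN
      rcases hj with hj | hj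
      · exact m3.trans (hj.1 x m2).le
      · have := hj.1 (pt 0) (LV22_mem m1)
        have := hc j hjN
        linarith
    · rw [tendsto_atBot]
      intro b
      obtain ⟨m1, m2, m3, m4⟩ := hmem x b
      filter_upwards [hside _ m1, eventually_ge_atTop N] with j hj hjN
      rw [inv_pow]
      rcases hj with hj | hj
      · exact (hj.2 x m2).le.trans m4
      · have := hj.1 (pt 0) (LV22_mem m1)
        have := hc j hjN
        linarith
  · right
    intro x
    constructor
    · rw [tendsto_atBot]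
      intro b
      obtain ⟨m1, m2, m3, m4⟩ := hmem x b
      filter_upwards [hside _ m1, eventually_ge_atTop N] with j hj hjN
      rcases hj with hj | hj
      · have := hj.1 (pt 0) (LV22_mem m1)
        have := hc j hjN
        linarith
      · exact (hj.1 x m2).le.trans m4
    · rw [tendsto_atTop]
      intro b
      obtain ⟨m1, m2, m3, m4⟩ := hmem x b
      filter_upwards [hside _ m1, eventually_ge_atTop N] with j hj hjN
      rw [inv_pow]
      rcases hj with hj | hj
      · have := hj.1 (pt 0) (LV22_mem m1)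
        have := hc j hjN
        linarith
      · exact m3.trans (hj.2 x m2).le

theorem ray_end {γ : ℝ → Ladder} (hγ : Continuous γ)
    (hK : ∀ K : Set Ladder, IsCompact K → ∀ᶠ u : ℝ in atTop, γ u ∉ K) :
    Tendsto (fun u => xc (γ u)) atTop atTop ∨ Tendsto (fun u => xc (γ u)) atTop atBot := by
  obtain ⟨u₀, hu₀⟩ := eventually_atTop.1 (hK (LV22_slab (1 / 2)) (isCompact_slab _ _))
  have h1 : IsPreconnected (γ '' Ici u₀) := isPreconnected_Ici.image _ hγ.continuousOn
  have h2 := LV22_one h1 le_rfl (by rintro _ ⟨u, hu, rfl⟩; exact hu₀ u hu)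
  have hb : ∀ b : ℝ, 1 / 2 ≤ max (1 / 2) |b| ∧ b ≤ max (1 / 2) |b| ∧ -max (1 / 2) |b| ≤ b := by
    intro b
    have h5 := le_max_left (1 / 2) |b|
    have h6 := le_max_right (1 / 2) |b|
    have h7 := neg_abs_le b
    have h8 := le_abs_self b
    exact ⟨by linarith, by linarith, by linarith⟩
  rcases h2 with h2 | h2
  · right
    rw [tendsto_atBot]
    intro b
    obtain ⟨b1, b2, b3⟩ := hb b
    filter_upwards [hK (LV22_slab (max (1 / 2) |b|)) (isCompact_slab _ _),
      eventually_ge_atTop u₀] with u hu hu'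
    have h3 := h2 (γ u) ⟨u, hu', rfl⟩
    simp only [LV22_slab, mem_ofPred_eq, not_and_or, not_le] at hu
    rcases hu with hu | hu
    · linarith
    · linarith
  · left
    rw [tendsto_atTop]
    intro b
    obtain ⟨b1, b2, b3⟩ := hb b
    filter_upwards [hK (LV22_slab (max (1 / 2) |b|)) (isCompact_slab _ _),
      eventually_ge_atTop u₀] with u hu hu'
    have h3 := h2 (γ u) ⟨u, hu', rfl⟩
    simp only [LV22_slab, mem_ofPred_eq, not_and_or, not_le] at hu
    rcases hu with hu | hu
    · linarith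
    · linarith

lemma cross {C : Set Ladder} (hC : IsPreconnected C) {x y : Ladder} (hx : x ∈ C) (hy : y ∈ C)
    (hxl : xc x ≤ -(1 / 2)) (hyr : 1 / 2 ≤ xc y) : (C ∩ K₀).Nonempty := by
  have h := hC.intermediate_value hx hy continuous_xc.continuousOn
  obtain ⟨z, hz, hz0⟩ := h (show (0:ℝ) ∈ Icc (xc x) (xc y) from ⟨by linarith, by linarith⟩)
  refine ⟨z, hz, ?_⟩
  simp only [K₀, mem_ofPred_eq, hz0]
  constructor <;> norm_num

/-- the ends are preserved by `f ∈ endFix` -/
lemma endFix_tendsto {f : Ladder ≃ₜ Ladder} (hf : f ∈ endFix) {ι : Type*} {l : Filter ι}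
    {x : ι → Ladder} : (Tendsto (fun i => xc (x i)) l atTop → Tendsto (fun i => xc (f (x i))) l atTop) ∧
      (Tendsto (fun i => xc (x i)) l atBot → Tendsto (fun i => xc (f (x i))) l atBot) := by
  constructor
  · intro h
    rw [tendsto_atTop] at h ⊢
    intro b
    obtain ⟨R, hR⟩ := rr_of_ll (mem_endFix.1 hf) b
    filter_upwards [h R] with i hi
    exact hR _ hi
  · intro h
    rw [tendsto_atBot] at h ⊢
    intro b
    obtain ⟨R, hR⟩ := mem_endFix.1 hf b
    filter_upwards [h R] with i hi
    exact hR _ hi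

end LadderVeech
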