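import Pool.Agent.LadderVeech.Bounded
import Pool.Agent.LadderVeech.LVDefs

/-!
LV23. Contractions move compact sets off themselves; recurrent isometries.

PROOF of `contract`. The proof of `exists_nrm_lower_bound` (Bounded.lean) shows: if affine maps `f i` have
`nrm (A i) → 0` then they cannot all satisfy `f i '' K ∩ K ≠ ∅`. Read it and extract: suppose not, then along an
ultrafilter `𝒰 ≤ atTop` (infinitely many `j` with `f j '' K ∩ K` nonempty) there are `x j, f j (x j) ∈ K`; replace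
`K` by a slab containing `K` and `K₀`; the maps `f j` contract the compact connected set `K` into small discs: all
`f j` restricted to `K` converge to one point `y`, so `f j '' K₀ ⊆ N` for a small disc `N` on which every
`u ∈ C(Ladder, Circle)` is a square (exists_good_nhds); apply this to `u = hu ∘ f j.symm`: `hu` is a square on `K₀`,
contradiction to not_isSq_hu. (In Bounded.lean this is done for zero flux maps, which satisfy
`(f '' K₀ ∩ K₀).Nonempty`; here `K` is an arbitrary compact set.)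
PROOF of `contract_pow`: `A ^ j` for `A 0 1 = A 1 0 = 0`, `A 0 0 = A 1 1 = a`, `|a| < 1`.
PROOF of `recurrent`. Suppose `A = 1` and not (`∀ᶠ j, f^j '' K ∩ K = ∅`): infinitely many `j` with
`f^j '' K ∩ K ≠ ∅`; take a subsequence `j i`, strictly increasing, an ultrafilter `𝒰 ≤ atTop` and
`exists_affine_limit` (Limit.lean) for `f ^ (j i)`, derivative `1`: the limit `F x` exists for every `x`. So for
every neighbourhood `N` of `F x` there are infinitely many `j` with `f^j x ∈ N`.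
-/

open Set Filter Topology

namespace LadderVeech

variable {ω : TranslationStructure Ladder}

/-- contracting affine maps cannot all meet a compact set twice -/
private theorem contract_aux {f : ℕ → Ladder ≃ₜ Ladder} {A : ℕ → GL (Fin 2) ℝ}
    (haff : ∀ j, IsAffine ω (f j) (A j)) (hA : Tendsto (fun j => nrm (A j)) atTop (𝓝 0))
    {K : Set Ladder} (hK : IsCompact K) (hKf : ∀ i, (f i '' K ∩ K).Nonempty) : False := by
  set 𝒰 : Ultrafilter ℕ := Filter.hyperfilter ℕ with h𝒰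
  have h𝒰le : (𝒰 : Filter ℕ) ≤ atTop := by
    rw [← Nat.cofinite_eq_atTop]
    exact Filter.hyperfilter_le_cofinite
  have hlim0 : Tendsto (fun n => nrm (A n)) 𝒰 (𝓝 0) := hA.mono_left h𝒰le
  have h1 : ∀ i, ∃ x ∈ K, f i x ∈ K := by
    intro i
    obtain ⟨_, ⟨x, hx, rfl⟩, hy⟩ := hKf i
    exact ⟨x, hx, hy⟩
  choose x hxK hfxK using h1
  obtain ⟨x₀, -, hx₀⟩ := exists_lim_of_compact (𝒰 := 𝒰) hK (Eventually.of_forall hxK)
  obtain ⟨y, -, hy⟩ := exists_lim_of_compact (𝒰 := 𝒰) hK (Eventually.of_forall hfxK)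
  obtain ⟨my⟩ := exists_model ω y
  -- segments are contracted
  have hcontr : ∀ {ρ δ : ℝ}, 0 < δ → ∀ᶠ i in (𝒰 : Filter ℕ), nrm (A i) * ρ < δ := by
    intro ρ δ hδ
    have := hlim0.mul_const ρ
    rw [zero_mul] at this
    exact this.eventually_lt_const hδ
  have key : ∀ (ρ' : ℝ), 0 < ρ' → ρ' < my.R → ∀ (r : ℝ), ∀ᶠ i in (𝒰 : Filter ℕ),
      ∀ p q : Ladder, ∀ v : ℂ, ‖v‖ ≤ r → Seg ω p v q → f i p ∈ my.disc (ρ' / 2) →
        f i q ∈ my.disc ρ' := by
    intro ρ' hρ' hρR r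
    filter_upwards [hcontr (ρ := r) (δ := ρ' / 4) (by positivity)] with i hi p q v hv hseg hp
    have h3 := hseg.map (haff i)
    have h4 : ‖act (A i) v‖ ≤ ρ' / 4 := by
      refine (norm_act_le' le_rfl hv).trans hi.le
    have h5 := (my.trap hp h3 (by linarith)).1
    exact my.disc_mono (by linarith) h5
  have hstep : ∀ p q : Ladder, ∀ v : ℂ, Seg ω p v q → Tendsto (fun i => f i p) 𝒰 (𝓝 y) →
      Tendsto (fun i => f i q) 𝒰 (𝓝 y) := by
    intro p q v hseg hp
    rw [tendsto_def]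
    intro O hO
    obtain ⟨ρ, hρ, hρR, hsub⟩ := my.disc_basis hO
    have e1 : ∀ᶠ i in (𝒰 : Filter ℕ), f i p ∈ my.disc (ρ / 2) :=
      hp (my.disc_mem_nhds (by positivity))
    filter_upwards [e1, key ρ hρ hρR ‖v‖] with i hi1 hi2
    exact hsub (hi2 p q v le_rfl hseg hi1)
  have hx₀y : Tendsto (fun i => f i x₀) 𝒰 (𝓝 y) := by
    obtain ⟨mx⟩ := exists_model ω x₀
    rw [tendsto_def]
    intro O hO
    obtain ⟨ρ, hρ, hρR, hsub⟩ := my.disc_basis hO
    have e1 : ∀ᶠ i in (𝒰 : Filter ℕ), x i ∈ mx.disc 1 := hx₀ (mx.disc_mem_nhds one_pos)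
    have e2 : ∀ᶠ i in (𝒰 : Filter ℕ), f i (x i) ∈ my.disc (ρ / 2) :=
      hy (my.disc_mem_nhds (by positivity))
    filter_upwards [e1, e2, key ρ hρ hρR 1] with i hi1 hi2 hi3
    obtain ⟨v, hv, hseg⟩ := mx.seg_of_mem' hi1
    exact hsub (hi3 _ _ _ (by rwa [norm_neg]) hseg.symm hi2)
  -- all points converge to `y`
  have hall : ∀ p : Ladder, Tendsto (fun i => f i p) 𝒰 (𝓝 y) := by
    have hopen : IsOpen {p : Ladder | Tendsto (fun i => f i p) 𝒰 (𝓝 y)} := by
      rw [isOpen_iff_mem_nhds]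
      intro p hp
      obtain ⟨mp⟩ := exists_model ω p
      filter_upwards [mp.disc_mem_nhds one_pos] with q hq
      obtain ⟨v, -, hseg⟩ := mp.seg_of_mem' hq
      exact hstep _ _ _ hseg hp
    have hclosed : IsClosed {p : Ladder | Tendsto (fun i => f i p) 𝒰 (𝓝 y)} := by
      rw [← closure_subset_iff_isClosed]
      intro p hp
      obtain ⟨mp⟩ := exists_model ω p
      obtain ⟨q, hq, hqy⟩ := mem_closure_iff_nhds.1 hp _ (mp.disc_mem_nhds one_pos)
      obtain ⟨v, -, hseg⟩ := mp.seg_of_mem' hq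
      exact hstep _ _ _ hseg.symm hqy
    have := IsClopen.eq_univ ⟨hclosed, hopen⟩ ⟨x₀, hx₀y⟩
    intro p
    have hp : p ∈ {p : Ladder | Tendsto (fun i => f i p) 𝒰 (𝓝 y)} := by
      rw [this]; trivial
    exact hp
  -- a small disc around `y` on which all circle valued maps are squares
  obtain ⟨N, hNo, -, hyN, -, hNs⟩ := exists_good_nhds my.mem (O := univ) univ_mem
  obtain ⟨ρ, hρ, hρR, hsub⟩ := my.disc_basis (hNo.mem_nhds hyN)
  -- uniformity on `K₀`
  have m : ∀ p, Model ω p := fun p => (exists_model ω p).some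
  obtain ⟨t, -, ht⟩ := (isCompact_slab _ _ : IsCompact K₀).elim_nhds_subcover (fun p => (m p).disc 1)
    (fun p _ => (m p).disc_mem_nhds one_pos)
  have hev : ∀ᶠ i in (𝒰 : Filter ℕ), ∀ p ∈ t, f i p ∈ my.disc (ρ / 2) := by
    rw [Filter.eventually_all_finset]
    intro p _
    exact hall p (my.disc_mem_nhds (by positivity))
  obtain ⟨i, hi1, hi2⟩ := (hev.and (key ρ hρ hρR 1)).exists
  have himg : f i '' K₀ ⊆ N := by
    rintro _ ⟨q, hq, rfl⟩
    have := ht hq
    simp only [mem_iUnion] at this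
    obtain ⟨p, hp, hqp⟩ := this
    obtain ⟨v, hv, hseg⟩ := (m p).seg_of_mem' hqp
    exact hsub (hi2 _ _ _ hv hseg (hi1 p hp))
  -- contradiction with the handle
  have h2 : IsSq (pull (f i) hu) (f i '' K₀) := IsSq.mono (hNs (pull (f i) hu)) himg
  have h3 := isSq_comp (f := (f i).symm) h2
  apply not_isSq_hu
  have h4 : (f i).symm '' (f i '' K₀) = K₀ := by
    rw [← image_comp]
    simp
  rw [h4] at h3
  refine h3.congr (fun p _ => ?_)
  simp [pull_apply]

private theorem isAffine_pow {f : Ladder ≃ₜ Ladder} {A : GL (Fin 2) ℝ} (hf : IsAffine ω f A) (j : ℕ) :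
    IsAffine ω (f ^ j) (A ^ j) := by
  induction j with
  | zero => rw [pow_zero, pow_zero]; exact isAffine_one
  | succ j ih => rw [pow_succ, pow_succ]; exact ih.mul hf

private theorem frequently_nonempty {f : ℕ → Ladder ≃ₜ Ladder} {K : Set Ladder}
    (h : ¬ ∀ᶠ j in atTop, f j '' K ∩ K = ∅) :
    ∃ φ : ℕ → ℕ, StrictMono φ ∧ ∀ i, (f (φ i) '' K ∩ K).Nonempty := by
  have h1 : ∃ᶠ j in atTop, (f j '' K ∩ K).Nonempty := by
    rw [Filter.not_eventually] at h
    exact h.mono (fun j hj => nonempty_iff_ne_empty.2 hj)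
  exact Filter.extraction_of_frequently_atTop h1

theorem contract {f : ℕ → Ladder ≃ₜ Ladder} {A : ℕ → GL (Fin 2) ℝ}
    (hf : ∀ j, IsAffine ω (f j) (A j)) (hA : Tendsto (fun j => nrm (A j)) atTop (𝓝 0))
    {K : Set Ladder} (hK : IsCompact K) : ∀ᶠ j in atTop, f j '' K ∩ K = ∅ := by
  by_contra hcon
  obtain ⟨φ, hφ, hne⟩ := frequently_nonempty hcon
  exact contract_aux (fun i => hf (φ i)) (hA.comp hφ.tendsto_atTop) hK hne

theorem contract_pow {f : Ladder ≃ₜ Ladder} {A : GL (Fin 2) ℝ} (hf : IsAffine ω f A)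
    (h01 : A 0 1 = 0) (h10 : A 1 0 = 0) (h : A 0 0 = A 1 1) (ha : |A 0 0| < 1) {K : Set Ladder}
    (hK : IsCompact K) : ∀ᶠ j : ℕ in atTop, (f ^ j) '' K ∩ K = ∅ := by
  refine contract (f := fun j => f ^ j) (A := fun j => A ^ j) (fun j => isAffine_pow hf j) ?_ hK
  have hent : ∀ j : ℕ, (A ^ j) 0 0 = (A 0 0) ^ j ∧ (A ^ j) 0 1 = 0 ∧ (A ^ j) 1 0 = 0 ∧
      (A ^ j) 1 1 = (A 0 0) ^ j := by
    intro j
    induction j with
    | zero => simp
    | succ j ih =>
      obtain ⟨i1, i2, i3, i4⟩ := ih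
      rw [pow_succ]
      refine ⟨?_, ?_, ?_, ?_⟩
      · rw [Units.val_mul, Matrix.mul_apply, Fin.sum_univ_two, i1, i2, pow_succ]
        ring
      · rw [Units.val_mul, Matrix.mul_apply, Fin.sum_univ_two, i1, i2, h01]
        ring
      · rw [Units.val_mul, Matrix.mul_apply, Fin.sum_univ_two, i3, i4, h10]
        ring
      · rw [Units.val_mul, Matrix.mul_apply, Fin.sum_univ_two, i3, i4, pow_succ, ← h]
        ring
  have h1 : (fun j : ℕ => nrm (A ^ j)) = fun j => 2 * |A 0 0| ^ j := by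
    funext j
    obtain ⟨i1, i2, i3, i4⟩ := hent j
    unfold nrm
    rw [i1, i2, i3, i4, abs_zero, abs_pow]
    ring
  rw [h1]
  have h2 := (tendsto_pow_atTop_nhds_zero_of_lt_one (abs_nonneg (A 0 0)) ha).const_mul 2
  rwa [mul_zero] at h2

theorem recurrent {f : Ladder ≃ₜ Ladder} (hf : IsAffine ω f 1) {K : Set Ladder} (hK : IsCompact K)
    (hrec : ¬ ∀ᶠ j : ℕ in atTop, (f ^ j) '' K ∩ K = ∅) (x : Ladder) :
    ∃ y : Ladder, ∀ N ∈ 𝓝 y, ∃ᶠ j : ℕ in atTop, (f ^ j) x ∈ N := by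
  obtain ⟨φ, hφ, hne⟩ := frequently_nonempty (f := fun j => f ^ j) hrec
  have h𝒰le : ((Filter.hyperfilter ℕ : Ultrafilter ℕ) : Filter ℕ) ≤ atTop := by
    rw [← Nat.cofinite_eq_atTop]
    exact Filter.hyperfilter_le_cofinite
  have haff : ∀ i, IsAffine ω (f ^ φ i) 1 := by
    intro i
    have := isAffine_pow hf (φ i)
    rwa [one_pow] at this
  obtain ⟨F, -, hF⟩ := exists_affine_limit (𝒰 := Filter.hyperfilter ℕ) (A := fun _ => 1) haff
    tendsto_const_nhds hK hne
  refine ⟨F x, fun N hN => ?_⟩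
  have h1 : ∀ᶠ i in ((Filter.hyperfilter ℕ : Ultrafilter ℕ) : Filter ℕ), (f ^ φ i) x ∈ N :=
    (hF x) hN
  have h2 : ∃ᶠ i in atTop, (f ^ φ i) x ∈ N := h1.frequently.filter_mono h𝒰le
  exact hφ.tendsto_atTop.frequently h2

end LadderVeech
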