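import Pool.Agent.LadderVeech.LV14
import Pool.Agent.LadderVeech.LV21
import Pool.Agent.LadderVeech.LV22
import Pool.Agent.LadderVeech.LV23

/-!
LV24. The case where only the vertical scaling is in the Lie algebra: diagonal elements have `|a| = 1`.

PROOF. `exists_scale_flow` (LV09): `h`, `F₀ : HFlow ω h true 1 c`, normalisation `hn`. Suppose `A ∈ veechPlus ω`
diagonal with `|A 0 0| ≠ 1`. Replacing `A` by `A²` or `A⁻²` (veechPlus is a subgroup; entries of a diagonal matrix):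
`0 < a = A 0 0 < 1`, `d = A 1 1 > 0` (squares). `(f, A)`: `f` affine, in endFix (mem_veechPlus).
DRIFT. `conj_true` with `T = f` (`normal_true` gives `h ∘ f = d h`): `HFlow ω h true 1 (a c)`; `drift_unique`:
`c = a c`, so `c = 0`. So `F : HFlow ω h true 1 0`, `O = {h ≠ 0}`, `h = 0` on sing (HFlow.sing_zero).
`T = f ∘ Φ s` with `e^s d = a` : derivative `A * expGL (s X) = diag (a, a)`, `T ∈ endFix` (Φ s has zero flux),
`h (T x) = a h x`. By contract_pow (LV23) and `ends_apart` (LV22): `T^j x` and `T^{-j} x` tend to different ends.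
`T (Φ u x) = Φ u (T x)` for `h x ≠ 0`: HFlow.mv and Mv.map: `Mv (a I) ((e^u - 1) h x) (T x) (T (Φ u x))`, so by
Mv.smul (`c = 1/a`) `Mv I ((e^u - 1) a h x) (T x) (T Φ u x)`, and HFlow.mv at `T x`, Mv.unique. (`T '' O = O`.)
BLOCKED POINTS. Suppose `x ∈ O`, `s₀ ∈ ℝ` and no `y` with `Mv ω O 1 s₀ x y`. Then (i) no `y` with
`Mv ω O 1 s₀ (Φ u x) y`, for all `u` (apply `Φ (-u)`: its derivative `diag (1, e^{-u})` fixes the vector `1`; Mv.map);
(ii) for all `j ∈ ℤ` no `y` with `Mv ω O 1 (a^j s₀) (T^j x) y` (Mv.map, Mv.smul).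
The ray `γ u = Φ u x`, `u ≥ 0` : `|h (γ u)| = e^u |h x| → ∞` so it leaves compact sets; `ray_end`: say
`xc (Φ u x) → +∞` (the other case is symmetric). By `T Φ u = Φ u T` and endFix_tendsto the same for `T^j x`, all
`j ∈ ℤ`. Let `K = K₀`, `ρ` from `wall` (LV02) for `K₀`.
 Large `j > 0`: `a^j |s₀| < ρ`, so no point `Φ u (T^j x)` is in `K₀` (it is blocked at `a^j s₀`, by (i),(ii), `wall`).
 The connected set `{Φ u (T^j x) | u ≥ 0}` misses `K₀` and goes to the right, so `xc (T^j x) > -1/2` (`cross`).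
 Large negative `j`: `|h (T^j x)| = a^j |h x| > max_{K₀} |h|`, and `|h|` is increasing along the ray: the ray misses `K₀`,
 so again `xc (T^j x) > -1/2`. But one of the two sequences tends to `-∞`. Contradiction.
So there are no blocked points: HC on `O`. Then `build_tang` (LV21) with `b = false` (moves `Mv ω O 1 (t * h x) x y`,
`km false = 1`) gives `kX false ∈ tang (veechZero ω)`, contradiction to `h1`.
-/

open Set Filter Topology

namespace LadderVeech

variable {ω : TranslationStructure Ladder}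

/-- transport of moves by an affine map whose derivative scales the direction -/
private lemma LV24_map {h : Ladder → ℝ} {T : Ladder ≃ₜ Ladder} {M : GL (Fin 2) ℝ} {a : ℝ} {v : ℂ}
    (ha : a ≠ 0) (hT : IsAffine ω T M) (hOs : {y | h y ≠ 0} ⊆ ω.singᶜ) (hM : act M v = (a : ℂ) * v)
    (hhT : ∀ x, h x ≠ 0 → h (T x) ≠ 0) {s : ℝ} {x y : Ladder} (hm : Mv ω {y | h y ≠ 0} v s x y) :
    Mv ω {y | h y ≠ 0} v (a * s) (T x) (T y) := by
  have h1 : Mv ω {y | h y ≠ 0} (act M v) s (T x) (T y) := by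
    refine (hm.map hT hOs).mono ?_
    rintro _ ⟨z, hz, rfl⟩
    exact hhT z hz
  have h2 := h1.smul (c := a⁻¹) (inv_ne_zero ha)
  have h3 : ((a⁻¹ : ℝ) : ℂ) * act M v = v := by
    rw [hM, ← mul_assoc, ← Complex.ofReal_mul, inv_mul_cancel₀ ha, Complex.ofReal_one, one_mul]
  rw [h3] at h2
  have h4 : s / a⁻¹ = a * s := by
    field_simp
  rwa [h4] at h2

/-- entries of a product -/
private lemma LV24_entry (A B : GL (Fin 2) ℝ) (i j : Fin 2) :
    (A * B) i j = A i 0 * B 0 j + A i 1 * B 1 j := by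
  simp [Matrix.mul_apply, Fin.sum_univ_two]

/-- entries of the inverse of a diagonal matrix -/
private lemma LV24_inv {A : GL (Fin 2) ℝ} (h01 : A 0 1 = 0) (h10 : A 1 0 = 0) :
    A⁻¹ 0 1 = 0 ∧ A⁻¹ 1 0 = 0 ∧ A 0 0 * A⁻¹ 0 0 = 1 ∧ A 1 1 * A⁻¹ 1 1 = 1 := by
  have h0 : A * A⁻¹ = 1 := mul_inv_cancel A
  have e : ∀ i j, (A * A⁻¹) i j = A i 0 * A⁻¹ 0 j + A i 1 * A⁻¹ 1 j := LV24_entry A A⁻¹
  have e00 := e 0 0
  have e01 := e 0 1
  have e10 := e 1 0
  have e11 := e 1 1
  rw [h0] at e00 e01 e10 e11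
  simp only [Units.val_one, Matrix.one_apply_eq, ne_eq, zero_ne_one, not_false_eq_true,
    Matrix.one_apply_ne, one_ne_zero, h01, h10, zero_mul, add_zero, zero_add] at e00 e01 e10 e11
  have ha : A 0 0 ≠ 0 := by
    intro h
    rw [h, zero_mul] at e00
    exact one_ne_zero e00
  have hd : A 1 1 ≠ 0 := by
    intro h
    rw [h, zero_mul] at e11
    exact one_ne_zero e11
  refine ⟨?_, ?_, e00.symm, e11.symm⟩
  · exact (mul_eq_zero.1 e01.symm).resolve_left ha
  · exact (mul_eq_zero.1 e10.symm).resolve_left hd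

/-- the ray argument -/
private lemma LV24_core (h1 : kX false ∉ tang (veechZero ω)) {h : Ladder → ℝ} (hh : IsHt ω h)
    (F : HFlow ω h true 1 0) {T : Ladder ≃ₜ Ladder} {M : GL (Fin 2) ℝ} {a : ℝ} (ha0 : 0 < a)
    (ha1 : a < 1) (hT : IsAffine ω T M) (hTe : T ∈ endFix) (h01 : M 0 1 = 0) (h10 : M 1 0 = 0)
    (h00 : M 0 0 = a) (h11 : M 1 1 = a) (hhT : ∀ x, h (T x) = a * h x) : False := by
  have hs : ∀ x ∈ ω.sing, h x = 0 := fun x hx => F.sing_zero hx
  have hOs : {y | h y ≠ 0} ⊆ ω.singᶜ := fun x hx hx' => hx (hs x hx')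
  have hane : a ≠ 0 := ha0.ne'
  -- transport by T
  have hT1 : act M 1 = (a : ℂ) * 1 := by
    apply Complex.ext <;> simp [act, h00, h10]
  have hTI : act M Complex.I = (a : ℂ) * Complex.I := by
    apply Complex.ext <;> simp [act, h01, h11]
  have hTne : ∀ x, h x ≠ 0 → h (T x) ≠ 0 := fun x hx => by
    rw [hhT]
    exact mul_ne_zero hane hx
  have hhTi : ∀ x, h (T⁻¹ x) = a⁻¹ * h x := by
    intro x
    have h3 : T (T⁻¹ x) = x := T.apply_symm_apply x
    have h4 := hhT (T⁻¹ x)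
    rw [h3] at h4
    rw [h4, ← mul_assoc, inv_mul_cancel₀ hane, one_mul]
  have hTine : ∀ x, h x ≠ 0 → h (T⁻¹ x) ≠ 0 := fun x hx => by
    rw [hhTi]
    exact mul_ne_zero (inv_ne_zero hane) hx
  have hTi1 : act M⁻¹ 1 = ((a⁻¹ : ℝ) : ℂ) * 1 := by
    have h3 := act_inv_act M (1 : ℂ)
    rw [hT1, act_real_mul] at h3
    have h4 : (a : ℂ) ≠ 0 := by exact_mod_cast hane
    rw [mul_one, Complex.ofReal_inv]
    field_simp
    linear_combination h3
  -- transport by the flow
  have hΦ : ∀ (u : ℝ) (s : ℝ) (x y : Ladder), Mv ω {y | h y ≠ 0} 1 s x y →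
      ∃ y', Mv ω {y | h y ≠ 0} 1 s (F.Φ u x) y' := by
    intro u s x y hm
    obtain ⟨g, hg1, hg2, hg3⟩ := F.aff u
    have h3 : act (expGL ((1 * u) • kX true)) 1 = ((1 : ℝ) : ℂ) * 1 := by
      rw [act_kX]
      simp
    have h4 := LV24_map one_ne_zero hg3 hOs h3 (fun x hx => by
      rw [hg1, F.ht]
      exact mul_ne_zero (kch_pos _ _).ne' hx) hm
    rw [one_mul, hg1] at h4
    exact ⟨_, h4⟩
  have hΦ' : ∀ (u : ℝ) (s : ℝ) (x y : Ladder), Mv ω {y | h y ≠ 0} 1 s (F.Φ u x) y →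
      ∃ y', Mv ω {y | h y ≠ 0} 1 s x y' := by
    intro u s x y hm
    obtain ⟨y', hy'⟩ := hΦ (-u) s _ _ hm
    rw [← F.add, neg_add_cancel, F.zero] at hy'
    exact ⟨y', hy'⟩
  -- T commutes with the flow
  have hcomm : ∀ (u : ℝ) (x : Ladder), h x ≠ 0 → T (F.Φ u x) = F.Φ u (T x) := by
    intro u x hx
    have h3 := F.mv hx u
    have h4 := F.mv (hTne x hx) u
    have h5 : km true = Complex.I := by simp [km]
    rw [h5] at h3 h4
    have h6 := LV24_map hane hT hOs hTI hTne h3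
    have h7 : a * (kth true u * h x) = kth true u * h (T x) := by
      rw [hhT]
      ring
    rw [h7] at h6
    exact h6.unique hOs h4
  have hΦne : ∀ (u : ℝ) (x : Ladder), h x ≠ 0 → h (F.Φ u x) ≠ 0 := fun u x hx => by
    rw [F.ht]
    exact mul_ne_zero (kch_pos _ _).ne' hx
  -- powers
  have hpow : ∀ (j : ℕ) (x : Ladder), h ((T ^ j) x) = a ^ j * h x := by
    intro j
    induction j with
    | zero => intro x; simp
    | succ j ih =>
      intro x
      have h3 : (T ^ (j + 1)) x = T ((T ^ j) x) := by rw [pow_succ']; rfl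
      rw [h3, hhT, ih, pow_succ]
      ring
  have hpowi : ∀ (j : ℕ) (x : Ladder), h ((T⁻¹ ^ j) x) = a⁻¹ ^ j * h x := by
    intro j
    induction j with
    | zero => intro x; simp
    | succ j ih =>
      intro x
      have h3 : (T⁻¹ ^ (j + 1)) x = T⁻¹ ((T⁻¹ ^ j) x) := by rw [pow_succ']; rfl
      rw [h3, hhTi, ih, pow_succ]
      ring
  have hcommi : ∀ (u : ℝ) (x : Ladder), h x ≠ 0 → T⁻¹ (F.Φ u x) = F.Φ u (T⁻¹ x) := by
    intro u x hx
    have h3 := hcomm u (T⁻¹ x) (hTine x hx)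
    have h4 : T (T⁻¹ x) = x := T.apply_symm_apply x
    rw [h4] at h3
    rw [← h3]
    exact T.symm_apply_apply _
  have hcp : ∀ (j : ℕ) (u : ℝ) (x : Ladder), h x ≠ 0 → (T ^ j) (F.Φ u x) = F.Φ u ((T ^ j) x) := by
    intro j
    induction j with
    | zero => intro u x hx; simp
    | succ j ih =>
      intro u x hx
      have h3 : ∀ z, (T ^ (j + 1)) z = T ((T ^ j) z) := fun z => by rw [pow_succ']; rfl
      rw [h3, h3, ih u x hx, hcomm]
      rw [hpow]
      exact mul_ne_zero (pow_ne_zero _ hane) hx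
  have hcpi : ∀ (j : ℕ) (u : ℝ) (x : Ladder), h x ≠ 0 →
      (T⁻¹ ^ j) (F.Φ u x) = F.Φ u ((T⁻¹ ^ j) x) := by
    intro j
    induction j with
    | zero => intro u x hx; simp
    | succ j ih =>
      intro u x hx
      have h3 : ∀ z, (T⁻¹ ^ (j + 1)) z = T⁻¹ ((T⁻¹ ^ j) z) := fun z => by rw [pow_succ']; rfl
      rw [h3, h3, ih u x hx, hcommi]
      rw [hpowi]
      exact mul_ne_zero (pow_ne_zero _ (inv_ne_zero hane)) hx
  have hback : ∀ (j : ℕ) (s : ℝ) (x y : Ladder), Mv ω {y | h y ≠ 0} 1 (a ^ j * s) ((T ^ j) x) y →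
      ∃ y', Mv ω {y | h y ≠ 0} 1 s x y' := by
    intro j
    induction j with
    | zero => intro s x y hm; exact ⟨y, by simpa using hm⟩
    | succ j ih =>
      intro s x y hm
      have h3 : (T ^ (j + 1)) x = T ((T ^ j) x) := by rw [pow_succ']; rfl
      rw [h3] at hm
      have h4 := LV24_map (inv_ne_zero hane) hT.inv hOs hTi1 hTine hm
      have h5 : T⁻¹ (T ((T ^ j) x)) = (T ^ j) x := T.symm_apply_apply _
      have h6 : a⁻¹ * (a ^ (j + 1) * s) = a ^ j * s := by
        rw [pow_succ]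
        field_simp
      rw [h5, h6] at h4
      exact ih s x _ h4
  -- ends
  have hends := ends_apart hTe (fun K hK => contract_pow hT h01 h10 (h00.trans h11.symm)
    (by rw [h00, abs_of_pos ha0]; exact ha1) hK)
  -- the claim
  have HC : ∀ x, h x ≠ 0 → ∀ s : ℝ, ∃ y, Mv ω {y | h y ≠ 0} 1 s x y := by
    intro x hx s
    by_contra hno
    obtain ⟨ρ, hρ, hwall⟩ := wall hh hs (isCompact_slab (-(1 / 2)) (1 / 2))
    have hγ : Continuous fun u : ℝ => F.Φ u x :=
      F.cont.comp (continuous_id.prodMk continuous_const)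
    have habs : ∀ (u : ℝ) (z : Ladder), |h (F.Φ u z)| = Real.exp u * |h z| := by
      intro u z
      rw [F.ht, abs_mul, abs_of_pos (kch_pos _ _)]
      simp [kch]
    have hbd : ∀ K : Set Ladder, IsCompact K → ∃ C : ℝ, ∀ z ∈ K, |h z| ≤ C := by
      intro K hK
      obtain ⟨C, hC⟩ := (hK.image hh.cont.abs).bddAbove
      exact ⟨C, fun z hz => hC ⟨z, hz, rfl⟩⟩
    have hxpos : 0 < |h x| := abs_pos.2 hx
    have hray := ray_end hγ (fun K hK => by
      obtain ⟨C, hC⟩ := hbd K hK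
      have h3 : Tendsto (fun u : ℝ => Real.exp u * |h x|) atTop atTop :=
        Real.tendsto_exp_atTop.atTop_mul_const hxpos
      filter_upwards [h3.eventually_gt_atTop C] with u hu hmem
      have := hC _ hmem
      rw [habs] at this
      linarith)
    -- the ray of `z` misses `K₀`
    have hmiss1 : ∀ᶠ j : ℕ in atTop, ∀ u : ℝ, F.Φ u ((T ^ j) x) ∉ K₀ := by
      have h3 : Tendsto (fun j : ℕ => a ^ j * s) atTop (𝓝 (0 * s)) :=
        (tendsto_pow_atTop_nhds_zero_of_lt_one ha0.le ha1).mul_const s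
      rw [zero_mul] at h3
      have h4 := h3.abs
      rw [abs_zero] at h4
      filter_upwards [h4.eventually_lt_const hρ] with j hj u hmem
      obtain ⟨y, hy⟩ := hwall _ hmem (hΦne u _ (by
        rw [hpow]
        exact mul_ne_zero (pow_ne_zero _ hane) hx)) _ hj
      obtain ⟨y', hy'⟩ := hΦ' _ _ _ _ hy
      exact hno (hback j s x y' hy')
    have hmiss2 : ∀ᶠ j : ℕ in atTop, ∀ u : ℝ, 0 ≤ u → F.Φ u ((T⁻¹ ^ j) x) ∉ K₀ := by
      obtain ⟨C, hC⟩ := hbd _ (isCompact_slab (-(1 / 2)) (1 / 2))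
      have h3 : Tendsto (fun j : ℕ => a⁻¹ ^ j * |h x|) atTop atTop :=
        (tendsto_pow_atTop_atTop_of_one_lt ((one_lt_inv₀ ha0).2 ha1)).atTop_mul_const hxpos
      filter_upwards [h3.eventually_gt_atTop C] with j hj u hu hmem
      have h4 := hC _ hmem
      rw [habs, hpowi, abs_mul, abs_of_pos (pow_pos (inv_pos.2 ha0) j)] at h4
      have h5 : 1 ≤ Real.exp u := Real.one_le_exp hu
      have h6 : 0 ≤ a⁻¹ ^ j * |h x| := by positivity
      nlinarith
    -- connectedness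
    have hcon : ∀ z, IsPreconnected ((fun u : ℝ => F.Φ u z) '' Ici 0) := fun z =>
      isPreconnected_Ici.image _ (F.cont.comp (continuous_id.prodMk continuous_const)).continuousOn
    have key : ∀ z, (∀ u : ℝ, 0 ≤ u → F.Φ u z ∉ K₀) →
        (Tendsto (fun u => xc (F.Φ u z)) atTop atTop → -(1 / 2) < xc z) ∧
        (Tendsto (fun u => xc (F.Φ u z)) atTop atBot → xc z < 1 / 2) := by
      intro z hz
      have hz0 : z ∈ (fun u : ℝ => F.Φ u z) '' Ici 0 := ⟨0, mem_Ici.2 le_rfl, F.zero z⟩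
      have hzK : ¬ ((fun u : ℝ => F.Φ u z) '' Ici 0 ∩ K₀).Nonempty := by
        rintro ⟨w, ⟨u, hu, rfl⟩, hw⟩
        exact hz u hu hw
      constructor
      · intro ht
        by_contra hcon2
        push Not at hcon2
        obtain ⟨u, hu1, hu2⟩ := ((ht.eventually_ge_atTop (1 / 2)).and
          (eventually_ge_atTop (0 : ℝ))).exists
        exact hzK (cross (hcon z) hz0 ⟨u, hu2, rfl⟩ hcon2 hu1)
      · intro ht
        by_contra hcon2
        push Not at hcon2
        obtain ⟨u, hu1, hu2⟩ := ((ht.eventually_le_atBot (-(1 / 2))).and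
          (eventually_ge_atTop (0 : ℝ))).exists
        exact hzK (cross (hcon z) ⟨u, hu2, rfl⟩ hz0 hu1 hcon2)
    have hmem1 : ∀ j : ℕ, T ^ j ∈ endFix := fun j => endFix.pow_mem hTe j
    have hmem2 : ∀ j : ℕ, T⁻¹ ^ j ∈ endFix := fun j => endFix.pow_mem (endFix.inv_mem hTe) j
    have htr1 : ∀ j : ℕ, (Tendsto (fun u => xc (F.Φ u x)) atTop atTop →
          Tendsto (fun u => xc (F.Φ u ((T ^ j) x))) atTop atTop) ∧
        (Tendsto (fun u => xc (F.Φ u x)) atTop atBot →
          Tendsto (fun u => xc (F.Φ u ((T ^ j) x))) atTop atBot) := by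
      intro j
      have h3 := endFix_tendsto (hmem1 j) (l := (atTop : Filter ℝ)) (x := fun u => F.Φ u x)
      have h4 : (fun u => xc ((T ^ j) (F.Φ u x))) = fun u => xc (F.Φ u ((T ^ j) x)) := by
        funext u
        rw [hcp j u x hx]
      rw [h4] at h3
      exact h3
    have htr2 : ∀ j : ℕ, (Tendsto (fun u => xc (F.Φ u x)) atTop atTop →
          Tendsto (fun u => xc (F.Φ u ((T⁻¹ ^ j) x))) atTop atTop) ∧
        (Tendsto (fun u => xc (F.Φ u x)) atTop atBot →
          Tendsto (fun u => xc (F.Φ u ((T⁻¹ ^ j) x))) atTop atBot) := by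
      intro j
      have h3 := endFix_tendsto (hmem2 j) (l := (atTop : Filter ℝ)) (x := fun u => F.Φ u x)
      have h4 : (fun u => xc ((T⁻¹ ^ j) (F.Φ u x))) = fun u => xc (F.Φ u ((T⁻¹ ^ j) x)) := by
        funext u
        rw [hcpi j u x hx]
      rw [h4] at h3
      exact h3
    rcases hray with hr | hr
    · -- everything is on the right
      have h3 : ∀ᶠ j : ℕ in atTop, -(1 / 2) < xc ((T ^ j) x) := by
        filter_upwards [hmiss1] with j hj
        exact (key _ fun u _ => hj u).1 ((htr1 j).1 hr)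
      have h4 : ∀ᶠ j : ℕ in atTop, -(1 / 2) < xc ((T⁻¹ ^ j) x) := by
        filter_upwards [hmiss2] with j hj
        exact (key _ hj).1 ((htr2 j).1 hr)
      rcases hends with he | he
      · obtain ⟨j, h5, h6⟩ := (h4.and ((he x).2.eventually_le_atBot (-(1 / 2)))).exists
        linarith
      · obtain ⟨j, h5, h6⟩ := (h3.and ((he x).1.eventually_le_atBot (-(1 / 2)))).exists
        linarith
    · have h3 : ∀ᶠ j : ℕ in atTop, xc ((T ^ j) x) < 1 / 2 := by
        filter_upwards [hmiss1] with j hj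
        exact (key _ fun u _ => hj u).2 ((htr1 j).2 hr)
      have h4 : ∀ᶠ j : ℕ in atTop, xc ((T⁻¹ ^ j) x) < 1 / 2 := by
        filter_upwards [hmiss2] with j hj
        exact (key _ hj).2 ((htr2 j).2 hr)
      rcases hends with he | he
      · obtain ⟨j, h5, h6⟩ := (h3.and ((he x).1.eventually_ge_atTop (1 / 2))).exists
        linarith
      · obtain ⟨j, h5, h6⟩ := (h4.and ((he x).2.eventually_ge_atTop (1 / 2))).exists
        linarith
  refine h1 (build_tang hh hs false fun t x hx => ?_)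
  have h5 : km false = 1 := by simp [km]
  rw [h5]
  exact HC x hx _

/-- the normalised case -/
private lemma LV24_norm (h2 : kX true ∈ tang (veechZero ω)) (h1 : kX false ∉ tang (veechZero ω))
    {A : GL (Fin 2) ℝ} (hA : A ∈ veechPlus ω) (h01 : A 0 1 = 0) (h10 : A 1 0 = 0)
    (ha0 : 0 < A 0 0) (ha1 : A 0 0 < 1) (hd : 0 < A 1 1) : False := by
  obtain ⟨h, hh, ⟨c, ⟨F⟩⟩, hn⟩ := exists_scale_flow h2
  obtain ⟨-, f, hf, hfe⟩ := mem_veechPlus.1 hA
  have hhf : ∀ x, h (f x) = A 1 1 * h x := normal_true hh F hn hf hfe ⟨h01, h10⟩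
  obtain ⟨F'⟩ := conj_true F hf hfe ⟨h01, h10⟩ hhf
  have hc := drift_unique hh F F'
  have hc0 : c = 0 := by
    have h3 : (1 - A 0 0) * c = 0 := by linear_combination hc
    rcases mul_eq_zero.1 h3 with h4 | h4
    · linarith
    · exact h4
  subst hc0
  set s : ℝ := Real.log (A 0 0 / A 1 1) with hs
  have hse : A 1 1 * Real.exp s = A 0 0 := by
    rw [hs, Real.exp_log (div_pos ha0 hd)]
    field_simp
  obtain ⟨g, hg1, hg2, hg3⟩ := F.aff s
  obtain ⟨e1, e2, e3, e4⟩ := expGL_kX_entries true (1 * s)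
  have e : ∀ i j, (A * expGL ((1 * s) • kX true)) i j =
      A i 0 * expGL ((1 * s) • kX true) 0 j + A i 1 * expGL ((1 * s) • kX true) 1 j :=
    LV24_entry _ _
  have e4' : expGL ((1 * s) • kX true) 0 1 = 0 := by rw [e4]; simp
  have e2' : expGL ((1 * s) • kX true) 1 1 = Real.exp s := by rw [e2]; simp [kch]
  refine LV24_core h1 hh F ha0 ha1 (hf.mul hg3) (endFix.mul_mem hfe hg2.1) ?_ ?_ ?_ ?_ ?_
  · rw [e, e4', h01]; ring
  · rw [e, e1, h10]; ring
  · rw [e, e3, h01]; ring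
  · rw [e, e2', h10, zero_mul, zero_add, hse]
  · intro x
    have h3 : (f * g) x = f (g x) := rfl
    rw [h3, hhf, hg1, F.ht, ← mul_assoc]
    simp only [kch, if_true, one_mul]
    rw [hse]

theorem s_case (h2 : kX true ∈ tang (veechZero ω)) (h1 : kX false ∉ tang (veechZero ω))
    {A : GL (Fin 2) ℝ} (hA : A ∈ veechPlus ω) (hd : A 0 1 = 0 ∧ A 1 0 = 0) : |A 0 0| = 1 := by
  obtain ⟨h01, h10⟩ := hd
  obtain ⟨i01, i10, i00, i11⟩ := LV24_inv h01 h10
  have ha : A 0 0 ≠ 0 := left_ne_zero_of_mul_eq_one i00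
  have hd : A 1 1 ≠ 0 := left_ne_zero_of_mul_eq_one i11
  have hai : A⁻¹ 0 0 ≠ 0 := right_ne_zero_of_mul_eq_one i00
  have hdi : A⁻¹ 1 1 ≠ 0 := right_ne_zero_of_mul_eq_one i11
  have e : ∀ (B : GL (Fin 2) ℝ) (i j : Fin 2), (B * B) i j = B i 0 * B 0 j + B i 1 * B 1 j :=
    fun B => LV24_entry B B
  by_contra hne
  rcases lt_or_gt_of_ne hne with hlt | hgt
  · refine LV24_norm h2 h1 (A := A * A) ((veechPlus ω).mul_mem hA hA) ?_ ?_ ?_ ?_ ?_
    · rw [e, h01]; ring
    · rw [e, h10]; ring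
    · rw [e, h01, zero_mul, add_zero]
      exact mul_self_pos.2 ha
    · rw [e, h01, zero_mul, add_zero, ← abs_mul_abs_self]
      have := abs_nonneg (A 0 0)
      nlinarith
    · rw [e, h10, zero_mul, zero_add]
      exact mul_self_pos.2 hd
  · have hi : |A 0 0| * |A⁻¹ 0 0| = 1 := by rw [← abs_mul, i00, abs_one]
    have hlt : |A⁻¹ 0 0| < 1 := by
      have := abs_nonneg (A⁻¹ 0 0)
      nlinarith
    have hAi := (veechPlus ω).inv_mem hA
    refine LV24_norm h2 h1 (A := A⁻¹ * A⁻¹) ((veechPlus ω).mul_mem hAi hAi) ?_ ?_ ?_ ?_ ?_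
    · rw [e, i01]; ring
    · rw [e, i10]; ring
    · rw [e, i01, zero_mul, add_zero]
      exact mul_self_pos.2 hai
    · rw [e, i01, zero_mul, add_zero, ← abs_mul_abs_self]
      have := abs_nonneg (A⁻¹ 0 0)
      nlinarith
    · rw [e, i10, zero_mul, zero_add]
      exact mul_self_pos.2 hdi

end LadderVeech
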