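import Pool.Agent.LadderVeech.LV10
import Pool.Agent.LadderVeech.LV09

/-!
LV25. The strips of a shear flow.

SETTING. `F : HFlow ω h false 1 0`, `O = {h ≠ 0}`, `O ⊆ singᶜ` (HFlow.sing_zero), horizontal completeness HFlow.hc.
`strip x = connectedComponentIn O x`. `lam h x = 1 / sup |h|` over the strip, `0` if unbounded.
PROOFS.
* `lam_mul_lt`: `|h x| < sup`: `h` takes larger values `|h y| > |h x|` in the strip (IsHt.exists_gt/exists_lt, the
  strip is open). `lam` is defined as `sInf {r | 0 ≤ r ∧ ∀ y ∈ strip x, r * |h y| ≤ 1}`'s complement.. we use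
  `lam = sSup {r | 0 ≤ r ∧ ∀ y ∈ strip, r * |h y| ≤ 1}` (bounded above by `1/|h x|`, contains `0`, closed).
* `lam_const` : on a strip `lam` is constant (connectedComponentIn_eq).
* `reach_up`: if `0 < s`, `lam x * s < 1` there is `y` in the strip with `|h y| = s`, same sign as `h x`: for
  `s ≥ |h x|`: otherwise `|h| ≤ s` on the strip by connectedness (`h` has a fixed sign on the strip, intermediate
  value), so `1/s` is admissible, `lam ≥ 1/s`. For `s < |h x|`: otherwise `|h| ≥ s` on the strip; then the strip is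
  closed in the ladder (its closure is in `{|h| ≥ s} ⊆ O`, components are closed in `O`), open, so the strip is
  everything, `O = univ`, `sing = ∅` (h = 0 on sing) and HC holds on `univ`: contradiction to `no_hc` (LV08).
  Then `vert_complete` (LV10): the vertical move of length `± s - h x` from `x` exists.
* `finite_strips`: every point `p` has a neighbourhood meeting finitely many strips: `h p ≠ 0`: the strip itself
  is open. `h p = 0`: model `m` at `p`, disc of radius `R/4` (interior): `{q | Im (m.φ q ^ k) ≠ 0}` in the open disc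
  is the union of `2k` connected sectors (images under `m.φ.symm` of the sectors
  `{z | ‖z‖ < r', π j/k < arg z < π (j+1)/k}`); each sector is connected and contained in one strip. A simple way:
  for `q` in the punctured set consider `w = m.φ q`; the segment `u ↦ m.φ.symm (u w)`, `0 < u ≤ 1`, and rotation inside
  the sector... or: the set `{z : 0 < ‖z‖ < r', Im (z ^ k) ≠ 0}` is covered by the finitely many convex sectors
  `{z | 0 < Im (z ζ̄_j), Im (z ζ̄_{j+1}) < 0}` (`ζ_j = e^{iπ j/k}`, `k ≥ 2`; for `k = 1` two half planes) intersected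
  with the ball.
* `lam_near_zero`: near a point `p` with `h p = 0`: finitely many values of `lam` (finite_strips), `h → 0`.
-/

open Set Filter Topology
open scoped Pointwise

namespace LadderVeech

variable {ω : TranslationStructure Ladder}

/-- the inverse of the height of the strip of `x` -/
noncomputable def lam (h : Ladder → ℝ) (x : Ladder) : ℝ :=
  sSup {r : ℝ | 0 ≤ r ∧ ∀ y ∈ connectedComponentIn {y | h y ≠ 0} x, r * |h y| ≤ 1}

variable {h : Ladder → ℝ}

lemma lam_nonneg (x : Ladder) : 0 ≤ lam h x :=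
  Real.sSup_nonneg (fun _ hr => hr.1)

lemma lam_const {x y : Ladder} (hy : y ∈ connectedComponentIn {y | h y ≠ 0} x) :
    lam h y = lam h x := by
  unfold lam
  rw [connectedComponentIn_eq hy]

lemma LV25_isOpen (hh : IsHt ω h) : IsOpen {y : Ladder | h y ≠ 0} :=
  isOpen_ne_fun hh.cont continuous_const

lemma LV25_comp_open (hh : IsHt ω h) (x : Ladder) :
    IsOpen (connectedComponentIn {y : Ladder | h y ≠ 0} x) := by
  haveI := locallyConnected_of ω
  exact (LV25_isOpen hh).connectedComponentIn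

lemma lam_mul_lt (hh : IsHt ω h) {x : Ladder} (hx : h x ≠ 0) : lam h x * |h x| < 1 := by
  have hmem : x ∈ connectedComponentIn {y : Ladder | h y ≠ 0} x := mem_connectedComponentIn hx
  have hnb := (LV25_comp_open hh x).mem_nhds hmem
  have hex : ∃ y ∈ connectedComponentIn {y : Ladder | h y ≠ 0} x, |h x| < |h y| := by
    rcases lt_or_gt_of_ne hx with h1 | h1
    · obtain ⟨y, hy, hlt⟩ := hh.exists_lt hnb
      refine ⟨y, hy, ?_⟩
      rw [abs_of_neg h1, abs_of_neg (hlt.trans h1)]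
      linarith
    · obtain ⟨y, hy, hlt⟩ := hh.exists_gt hnb
      refine ⟨y, hy, ?_⟩
      rw [abs_of_pos h1, abs_of_pos (h1.trans hlt)]
      exact hlt
  obtain ⟨y, hy, hlt⟩ := hex
  have hx0 : 0 < |h x| := abs_pos.2 hx
  have hy0 : 0 < |h y| := hx0.trans hlt
  have h1 : lam h x ≤ 1 / |h y| := by
    refine Real.sSup_le (fun r hr => ?_) (by positivity)
    rw [le_div_iff₀ hy0]
    exact hr.2 y hy
  calc lam h x * |h x| ≤ 1 / |h y| * |h x| := by gcongr
    _ < 1 := by rw [one_div, inv_mul_lt_iff₀ hy0, mul_one]; exact hlt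

/-- the sign of `h` is constant on strips -/
lemma strip_sign (hh : IsHt ω h) {x y : Ladder} (hx : h x ≠ 0)
    (hy : y ∈ connectedComponentIn {y | h y ≠ 0} x) : 0 < h x * h y := by
  have hmem : x ∈ connectedComponentIn {y : Ladder | h y ≠ 0} x := mem_connectedComponentIn hx
  have hy0 : h y ≠ 0 := connectedComponentIn_subset _ _ hy
  have hpre : IsPreconnected (h '' connectedComponentIn {y : Ladder | h y ≠ 0} x) :=
    isPreconnected_connectedComponentIn.image h hh.cont.continuousOn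
  have hno : (0 : ℝ) ∉ h '' connectedComponentIn {y : Ladder | h y ≠ 0} x := by
    rintro ⟨z, hz, hz0⟩
    exact connectedComponentIn_subset _ _ hz hz0
  by_contra hcon
  push Not at hcon
  rcases lt_or_gt_of_ne hx with h1 | h1
  · have h2 : 0 < h y := by
      rcases lt_or_gt_of_ne hy0 with h3 | h3
      · nlinarith
      · exact h3
    exact hno (hpre.Icc_subset ⟨x, hmem, rfl⟩ ⟨y, hy, rfl⟩ ⟨h1.le, h2.le⟩)
  · have h2 : h y < 0 := by
      rcases lt_or_gt_of_ne hy0 with h3 | h3
      · exact h3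
      · nlinarith
    exact hno (hpre.Icc_subset ⟨y, hy, rfl⟩ ⟨x, hmem, rfl⟩ ⟨h2.le, h1.le⟩)

lemma LV25_closed (hh : IsHt ω h) {x : Ladder} (_hx : h x ≠ 0) {δ : ℝ} (hδ : 0 < δ)
    (hall : ∀ z ∈ connectedComponentIn {y : Ladder | h y ≠ 0} x, δ ≤ |h z|) :
    IsClosed (connectedComponentIn {y : Ladder | h y ≠ 0} x) := by
  rw [← closure_subset_iff_isClosed]
  intro w hw
  have h1 : δ ≤ |h w| := by
    have hcl : IsClosed {z : Ladder | δ ≤ |h z|} := isClosed_le continuous_const hh.cont.abs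
    exact closure_minimal (fun z hz => hall z hz) hcl hw
  have hw0 : h w ≠ 0 := by
    intro h0
    rw [h0, abs_zero] at h1
    linarith
  have hwm : w ∈ connectedComponentIn {y : Ladder | h y ≠ 0} w := mem_connectedComponentIn hw0
  obtain ⟨z, hz1, hz2⟩ := mem_closure_iff.1 hw _ (LV25_comp_open hh w) hwm
  rw [connectedComponentIn_eq hz2, ← connectedComponentIn_eq hz1]
  exact hwm

theorem LV25_level (hh : IsHt ω h) (F : HFlow ω h false 1 0) {x : Ladder} (hx : h x ≠ 0) {r : ℝ}
    (hr : 0 < r) (hlr : lam h x * (r * |h x|) < 1) :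
    ∃ z ∈ connectedComponentIn {y : Ladder | h y ≠ 0} x, h z = r * h x := by
  have hmem : x ∈ connectedComponentIn {y : Ladder | h y ≠ 0} x := mem_connectedComponentIn hx
  have hx0 : 0 < |h x| := abs_pos.2 hx
  have hup : ∃ z ∈ connectedComponentIn {y : Ladder | h y ≠ 0} x, r * |h x| ≤ |h z| := by
    by_contra hcon
    push Not at hcon
    have h1 : 1 / (r * |h x|) ≤ lam h x := by
      refine le_csSup ⟨1 / |h x|, ?_⟩ ⟨by positivity, fun y hy => ?_⟩
      · rintro s ⟨-, hs⟩
        rw [le_div_iff₀ hx0]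
        exact hs x hmem
      · rw [one_div, inv_mul_le_iff₀ (by positivity), mul_one]
        exact (hcon y hy).le
    have h2 : 1 / (r * |h x|) * (r * |h x|) ≤ lam h x * (r * |h x|) := by gcongr
    rw [one_div_mul_cancel (by positivity)] at h2
    linarith
  have hdown : ∃ z ∈ connectedComponentIn {y : Ladder | h y ≠ 0} x, |h z| ≤ r * |h x| := by
    by_contra hcon
    push Not at hcon
    have hcl := LV25_closed hh hx (δ := r * |h x|) (by positivity) (fun z hz => (hcon z hz).le)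
    have huniv := (IsClopen.eq_univ ⟨hcl, LV25_comp_open hh x⟩ ⟨x, hmem⟩)
    have hall : ∀ y, h y ≠ 0 := fun y => by
      have hy : y ∈ connectedComponentIn {y : Ladder | h y ≠ 0} x := by rw [huniv]; trivial
      exact connectedComponentIn_subset _ _ hy
    refine no_hc hh ?_ (fun y t => ?_)
    · rw [eq_empty_iff_forall_notMem]
      intro y hy
      exact hall y (F.sing_zero hy)
    · obtain ⟨z, hz⟩ := F.hc (hall y) t
      exact ⟨z, hz.mono (subset_univ _)⟩
  obtain ⟨z₁, hz₁, h1⟩ := hdown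
  obtain ⟨z₂, hz₂, h2⟩ := hup
  have hpre : IsPreconnected ((fun z => |h z|) '' connectedComponentIn {y : Ladder | h y ≠ 0} x) :=
    isPreconnected_connectedComponentIn.image _ hh.cont.abs.continuousOn
  obtain ⟨z, hz, hzr⟩ := hpre.Icc_subset ⟨z₁, hz₁, rfl⟩ ⟨z₂, hz₂, rfl⟩ ⟨h1, h2⟩
  refine ⟨z, hz, ?_⟩
  have hs := strip_sign hh hx hz
  simp only at hzr
  rcases lt_or_gt_of_ne hx with h3 | h3
  · have h4 : h z < 0 := by nlinarith
    rw [abs_of_neg h3, abs_of_neg h4] at hzr
    linarith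
  · have h4 : 0 < h z := by nlinarith
    rw [abs_of_pos h3, abs_of_pos h4] at hzr
    linarith

theorem reach (hh : IsHt ω h) (F : HFlow ω h false 1 0) {x : Ladder} (hx : h x ≠ 0) {r : ℝ}
    (hr : 0 < r) (hlr : lam h x * (r * |h x|) < 1) :
    ∃ y, Mv ω {y | h y ≠ 0} Complex.I ((r - 1) * h x) x y := by
  obtain ⟨z, hz, hzr⟩ := LV25_level hh F hx hr hlr
  have hOs : {y : Ladder | h y ≠ 0} ⊆ ω.singᶜ := fun y hy hys => hy (F.sing_zero hys)
  obtain ⟨y, hy⟩ := vert_complete hh (LV25_isOpen hh) hOs (fun w hw t => F.hc hw t)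
    (show x ∈ {y : Ladder | h y ≠ 0} from hx) hz
  refine ⟨y, ?_⟩
  have : (r - 1) * h x = h z - h x := by rw [hzr]; ring
  rw [this]
  exact hy

/-- the sectors of the disc -/
def LV25_sector (k : ℕ) (r₀ : ℝ) (j : ℤ) : Set ℂ :=
  (fun q : ℝ × ℝ => (q.1 : ℂ) * Complex.exp (q.2 * Complex.I)) ''
    (Ioo 0 r₀ ×ˢ Ioo (j * (Real.pi / k)) ((j + 1) * (Real.pi / k)))

lemma LV25_sector_preconnected (k : ℕ) (r₀ : ℝ) (j : ℤ) : IsPreconnected (LV25_sector k r₀ j) := by
  refine IsPreconnected.image ?_ _ (Continuous.continuousOn (by fun_prop))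
  exact (convex_Ioo _ _).isPreconnected.prod (convex_Ioo _ _).isPreconnected

lemma LV25_pow_im (k : ℕ) (ρ θ : ℝ) :
    (((ρ : ℂ) * Complex.exp (θ * Complex.I)) ^ k).im = ρ ^ k * Real.sin (k * θ) := by
  rw [mul_pow, ← Complex.exp_nat_mul, ← Complex.ofReal_pow]
  have : (k : ℂ) * (θ * Complex.I) = ((k * θ : ℝ) : ℂ) * Complex.I := by push_cast; ring
  rw [this, Complex.im_ofReal_mul, Complex.exp_ofReal_mul_I_im]

lemma LV25_sin_ne {k : ℕ} (hk : k ≠ 0) {j : ℤ} {θ : ℝ} (h1 : j * (Real.pi / k) < θ)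
    (h2 : θ < (j + 1) * (Real.pi / k)) : Real.sin (k * θ) ≠ 0 := by
  have hk0 : (0 : ℝ) < k := by exact_mod_cast Nat.pos_of_ne_zero hk
  intro h0
  obtain ⟨n, hn⟩ := Real.sin_eq_zero_iff.1 h0
  have hpi := Real.pi_pos
  have h3 : (j : ℝ) * Real.pi < k * θ := by
    have := mul_lt_mul_of_pos_left h1 hk0
    have e : (k : ℝ) * (j * (Real.pi / k)) = j * Real.pi := by field_simp
    linarith
  have h4 : (k : ℝ) * θ < (j + 1) * Real.pi := by
    have := mul_lt_mul_of_pos_left h2 hk0
    have e : (k : ℝ) * ((j + 1) * (Real.pi / k)) = (j + 1) * Real.pi := by field_simp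
    linarith
  rw [← hn] at h3 h4
  have h5 : (j : ℝ) < n := lt_of_mul_lt_mul_right h3 hpi.le
  have h6 : (n : ℝ) < j + 1 := lt_of_mul_lt_mul_right h4 hpi.le
  have h7 : j < n := by exact_mod_cast h5
  have h8 : n < j + 1 := by exact_mod_cast h6
  omega

lemma LV25_cover {k : ℕ} (hk : k ≠ 0) {r₀ : ℝ} {w : ℂ} (hw : ‖w‖ < r₀) (him : (w ^ k).im ≠ 0) :
    ∃ j ∈ Icc (-(k : ℤ)) k, w ∈ LV25_sector k r₀ j := by
  have hk0 : (0 : ℝ) < k := by exact_mod_cast Nat.pos_of_ne_zero hk
  have hpi := Real.pi_pos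
  have hw0 : w ≠ 0 := by
    rintro rfl
    rw [zero_pow hk] at him
    simp at him
  set θ := Complex.arg w with hθ
  have hrep : (‖w‖ : ℂ) * Complex.exp (θ * Complex.I) = w := Complex.norm_mul_exp_arg_mul_I w
  have hsin : Real.sin (k * θ) ≠ 0 := by
    intro h0
    rw [← hrep, LV25_pow_im, h0, mul_zero] at him
    exact him rfl
  set j : ℤ := ⌊k * θ / Real.pi⌋ with hj
  have h1 : (j : ℝ) ≤ k * θ / Real.pi := Int.floor_le _
  have h2 : k * θ / Real.pi < j + 1 := Int.lt_floor_add_one _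
  have h3 : (j : ℝ) ≠ k * θ / Real.pi := by
    intro h0
    apply hsin
    rw [Real.sin_eq_zero_iff]
    refine ⟨j, ?_⟩
    rw [h0]
    field_simp
  have h4 : (j : ℝ) < k * θ / Real.pi := lt_of_le_of_ne h1 h3
  have harg1 := Complex.neg_pi_lt_arg w
  have harg2 := Complex.arg_le_pi w
  refine ⟨j, ⟨?_, ?_⟩, ?_⟩
  · have : (-(k : ℤ) : ℤ) ≤ j := by
      rw [hj, Int.le_floor]
      push_cast
      rw [le_div_iff₀ hpi]
      nlinarith
    exact this
  · have : (j : ℝ) ≤ k := by
      refine h1.trans ?_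
      rw [div_le_iff₀ hpi]
      gcongr
    exact_mod_cast this
  · refine ⟨(‖w‖, θ), ⟨⟨norm_pos_iff.2 hw0, hw⟩, ?_, ?_⟩, hrep⟩
    · rw [← mul_div_assoc, div_lt_iff₀ hk0]
      rw [lt_div_iff₀ hpi] at h4
      simp only
      linarith
    · rw [← mul_div_assoc, lt_div_iff₀ hk0]
      rw [div_lt_iff₀ hpi] at h2
      simp only
      linarith

lemma LV25_local_finite (hh : IsHt ω h) (p : Ladder) : ∃ N ∈ 𝓝 p,
    {C : Set Ladder | ∃ x ∈ N, h x ≠ 0 ∧ C = connectedComponentIn {y | h y ≠ 0} x}.Finite := by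
  by_cases hp : h p = 0
  · obtain ⟨m⟩ := exists_model ω p
    have hr := m.hr
    have hcont : ContinuousAt (fun q => ‖m.φ q‖) p := (m.φ.continuousAt m.mem).norm
    have h0 : ‖m.φ p‖ < m.r / 4 := by rw [m.zero, norm_zero]; positivity
    have hdisc : ∀ q ∈ m.φ.source, ‖m.φ q‖ < m.r / 4 → q ∈ m.disc (m.R / 4) := by
      intro q hq hlt
      refine ⟨hq, by linarith, ?_⟩
      calc ‖m.φ q‖ ^ m.k ≤ (m.r / 4) ^ m.k := by gcongr
        _ = m.r ^ m.k / 4 ^ m.k := div_pow _ _ _
        _ ≤ m.r ^ m.k / 4 := by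
            gcongr
            exact le_self_pow₀ (by norm_num) m.hk
        _ = m.R / 4 := rfl
    refine ⟨{q | q ∈ m.φ.source ∧ ‖m.φ q‖ < m.r / 4}, ?_, ?_⟩
    · exact Filter.inter_mem (m.φ.open_source.mem_nhds m.mem) (hcont.eventually_lt_const h0)
    have hsec : ∀ j : ℤ, ∀ w ∈ LV25_sector m.k (m.r / 4) j, w ∈ m.φ.target ∧
        h (m.φ.symm w) ≠ 0 := by
      rintro j _ ⟨⟨ρ, θ⟩, ⟨⟨hρ0, hρ⟩, hθ1, hθ2⟩, rfl⟩
      simp only at hρ0 hρ hθ1 hθ2
      have hnorm : ‖(ρ : ℂ) * Complex.exp (θ * Complex.I)‖ = ρ := by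
        rw [norm_mul, Complex.norm_exp_ofReal_mul_I, mul_one, Complex.norm_real,
          Real.norm_of_nonneg hρ0.le]
      have htgt : (ρ : ℂ) * Complex.exp (θ * Complex.I) ∈ m.φ.target := by
        apply m.ball
        rw [mem_closedBall_zero_iff, hnorm]
        linarith
      refine ⟨htgt, ?_⟩
      simp only
      have hy := hdisc (m.φ.symm ((ρ : ℂ) * Complex.exp (θ * Complex.I)))
        (m.φ.map_target htgt) (by rw [m.φ.right_inv htgt, hnorm]; exact hρ)
      rw [hh p m _ hy, hp, zero_add, m.φ.right_inv htgt, LV25_pow_im]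
      exact mul_ne_zero (pow_ne_zero _ hρ0.ne') (LV25_sin_ne m.hk hθ1 hθ2)
    refine Set.Finite.subset (s := ⋃ j ∈ Icc (-(m.k : ℤ)) m.k, {C : Set Ladder |
      ∃ x ∈ m.φ.source, m.φ x ∈ LV25_sector m.k (m.r / 4) j ∧
        C = connectedComponentIn {y | h y ≠ 0} x}) ?_ ?_
    · refine Set.Finite.biUnion (Set.finite_Icc _ _) (fun j _ => ?_)
      refine Set.Subsingleton.finite ?_
      rintro _ ⟨x, hx, hxs, rfl⟩ _ ⟨y, hy, hys, rfl⟩
      have hpre : IsPreconnected (m.φ.symm '' LV25_sector m.k (m.r / 4) j) :=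
        (LV25_sector_preconnected _ _ _).image _
          (m.φ.continuousOn_symm.mono (fun w hw => (hsec j w hw).1))
      have hsub : m.φ.symm '' LV25_sector m.k (m.r / 4) j ⊆ {y : Ladder | h y ≠ 0} := by
        rintro _ ⟨w, hw, rfl⟩
        exact (hsec j w hw).2
      have hx' : x ∈ m.φ.symm '' LV25_sector m.k (m.r / 4) j :=
        ⟨m.φ x, hxs, m.φ.left_inv hx⟩
      have hy' : y ∈ m.φ.symm '' LV25_sector m.k (m.r / 4) j :=
        ⟨m.φ y, hys, m.φ.left_inv hy⟩
      exact connectedComponentIn_eq (hpre.subset_connectedComponentIn hx' hsub hy')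
    · rintro C ⟨x, ⟨hx1, hx2⟩, hx0, rfl⟩
      have hd := hdisc x hx1 hx2
      have him : (m.φ x ^ m.k).im ≠ 0 := by
        have := hh p m x hd
        rw [hp, zero_add] at this
        rwa [← this]
      obtain ⟨j, hj, hjs⟩ := LV25_cover m.hk hx2 him
      simp only [mem_iUnion]
      exact ⟨j, hj, x, hx1, hjs, rfl⟩
  · refine ⟨connectedComponentIn {y | h y ≠ 0} p,
      (LV25_comp_open hh p).mem_nhds (mem_connectedComponentIn hp), ?_⟩
    refine Set.Subsingleton.finite ?_
    rintro _ ⟨x, hx, -, rfl⟩ _ ⟨y, hy, -, rfl⟩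
    rw [← connectedComponentIn_eq hx, ← connectedComponentIn_eq hy]

theorem finite_strips (hh : IsHt ω h) {K : Set Ladder} (hK : IsCompact K) :
    {C : Set Ladder | ∃ x ∈ K, h x ≠ 0 ∧ C = connectedComponentIn {y | h y ≠ 0} x}.Finite := by
  choose N hN hfin using fun p => LV25_local_finite hh p
  obtain ⟨t, -, ht⟩ := hK.elim_nhds_subcover N (fun p _ => hN p)
  refine (t.finite_toSet.biUnion (fun p _ => hfin p)).subset ?_
  rintro C ⟨x, hx, hx0, rfl⟩
  obtain ⟨p, hp, hxp⟩ := mem_iUnion₂.1 (ht hx)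
  exact mem_iUnion₂.2 ⟨p, hp, x, hxp, hx0, rfl⟩

lemma lam_near_zero (hh : IsHt ω h) {p : Ladder} (hp : h p = 0) :
    ∀ᶠ x in 𝓝 p, lam h x * |h x| ≤ 1 / 2 := by
  obtain ⟨m⟩ := exists_model ω p
  have hR := m.R_pos
  have hK := m.isCompact_disc (m.R / 4)
  have hfin := finite_strips hh hK
  have hfin2 := hfin.image (fun C : Set Ladder => sSup {r : ℝ | 0 ≤ r ∧ ∀ y ∈ C, r * |h y| ≤ 1})
  obtain ⟨Λ, hΛ⟩ := hfin2.bddAbove
  have h1 : ∀ x ∈ m.disc (m.R / 4), h x ≠ 0 → lam h x ≤ Λ := by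
    intro x hx hx0
    exact hΛ ⟨_, ⟨x, hx, hx0, rfl⟩, rfl⟩
  have h2 : ∀ᶠ x in 𝓝 p, |h x| < 1 / (2 * (|Λ| + 1)) := by
    have : Tendsto (fun x => |h x|) (𝓝 p) (𝓝 |h p|) := hh.cont.abs.tendsto p
    rw [hp, abs_zero] at this
    exact this.eventually_lt_const (by positivity)
  filter_upwards [h2, m.disc_mem_nhds (ρ := m.R / 4) (by positivity)] with x hx1 hx2
  by_cases hx0 : h x = 0
  · rw [hx0, abs_zero, mul_zero]
    norm_num
  · have h3 := h1 x hx2 hx0
    have h4 := lam_nonneg (h := h) x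
    have h5 : lam h x ≤ |Λ| + 1 := h3.trans ((le_abs_self _).trans (by linarith))
    calc lam h x * |h x| ≤ (|Λ| + 1) * (1 / (2 * (|Λ| + 1))) := by
          gcongr
      _ = 1 / 2 := by field_simp

/-- behaviour under affine maps -/
lemma lam_affine (hh : IsHt ω h) {f : Ladder ≃ₜ Ladder} {d : ℝ} (hd : d ≠ 0)
    (hf : ∀ x, h (f x) = d * h x) (x : Ladder) : lam h (f x) = lam h x / |d| := by
  have _ := hh
  have hd0 : 0 < |d| := abs_pos.2 hd
  have himO : f '' {y : Ladder | h y ≠ 0} = {y : Ladder | h y ≠ 0} := by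
    ext y
    constructor
    · rintro ⟨z, hz, rfl⟩
      simp only [mem_setOf_eq] at hz ⊢
      rw [hf]
      exact mul_ne_zero hd hz
    · intro hy
      refine ⟨f.symm y, ?_, f.apply_symm_apply y⟩
      simp only [mem_setOf_eq] at hy ⊢
      intro h0
      apply hy
      have := hf (f.symm y)
      rw [f.apply_symm_apply, h0, mul_zero] at this
      exact this
  by_cases hx : h x = 0
  · have hfx : h (f x) = 0 := by rw [hf, hx, mul_zero]
    have e1 : connectedComponentIn {y : Ladder | h y ≠ 0} x = ∅ :=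
      connectedComponentIn_eq_empty (by simpa using hx)
    have e2 : connectedComponentIn {y : Ladder | h y ≠ 0} (f x) = ∅ :=
      connectedComponentIn_eq_empty (by simpa using hfx)
    have e3 : ∀ z : Ladder, connectedComponentIn {y : Ladder | h y ≠ 0} z = ∅ → lam h z = 0 := by
      intro z hz
      unfold lam
      rw [hz]
      refine Real.sSup_of_not_bddAbove ?_
      rintro ⟨M, hM⟩
      have := hM (show |M| + 1 ∈ {r : ℝ | 0 ≤ r ∧ ∀ y ∈ (∅ : Set Ladder), r * |h y| ≤ 1} from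
        ⟨by positivity, by simp⟩)
      have := le_abs_self M
      linarith
    rw [e3 _ e1, e3 _ e2, zero_div]
  · have hcomp : connectedComponentIn {y : Ladder | h y ≠ 0} (f x) =
        f '' connectedComponentIn {y : Ladder | h y ≠ 0} x := by
      have := f.image_connectedComponentIn (s := {y : Ladder | h y ≠ 0})
        (show x ∈ {y : Ladder | h y ≠ 0} from hx)
      rw [this, himO]
    unfold lam
    rw [hcomp]
    have hset : {r : ℝ | 0 ≤ r ∧ ∀ y ∈ f '' connectedComponentIn {y : Ladder | h y ≠ 0} x,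
        r * |h y| ≤ 1} = |d|⁻¹ • {r : ℝ | 0 ≤ r ∧
          ∀ y ∈ connectedComponentIn {y : Ladder | h y ≠ 0} x, r * |h y| ≤ 1} := by
      ext r
      rw [mem_smul_set_iff_inv_smul_mem₀ (inv_ne_zero hd0.ne'), inv_inv, smul_eq_mul]
      simp only [mem_setOf_eq, forall_mem_image, hf, abs_mul]
      constructor
      · rintro ⟨h1, h2⟩
        refine ⟨by positivity, fun y hy => ?_⟩
        have := h2 hy
        linarith [mul_comm |d| r, mul_assoc r |d| |h y|]
      · rintro ⟨h1, h2⟩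
        refine ⟨?_, fun y hy => ?_⟩
        · exact nonneg_of_mul_nonneg_right h1 hd0
        · have := h2 y hy
          linarith [mul_comm |d| r, mul_assoc r |d| |h y|]
    rw [hset, Real.sSup_smul_of_nonneg (by positivity), smul_eq_mul]
    exact (div_eq_inv_mul _ _).symm

end LadderVeech
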