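import Pool.Agent.LadderVeech.LV03
import Pool.Agent.LadderVeech.LV04

/-!
LV26. Changing the vertical coordinate.

SETTING. `h` a height for `ω`, `k : S → ℝ` continuous, `k = h + const` near singular points, and near every regular
point `p`, `k q = g (h q)` with `g` a homeomorphism between neighbourhoods of `h p` and `k p` in `ℝ`.
NEW STRUCTURE `ω'`: `sing` the same; a chart is an `e' : OpenPartialHomeomorph S ℂ`, `e'.source ⊆ singᶜ`, such that for
all `e ∈ ω.atlas`, `p ∈ e'.source ∩ e.source`: `∃ c, ∀ᶠ q in 𝓝 p, e' q = ⟨(e q).re, k q⟩ + c`.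
 covers at `p`: `e ∈ ω.atlas` at `p`, `g`; `h q = h p + (e q - e p).im` near `p` (IsHt.chart). Compose `e` with
 `(x + i y) ↦ x + i g (h p + y - (e p).im)`, an OpenPartialHomeomorph of `ℂ` near `e p` (product of the identity of
 `ℝ` and of `g` translated; `Complex.equivRealProdCLM` or `OpenPartialHomeomorph.prod`), and shrink the source.
 compatible, maximal: as in the definition (maximal: compare with a chart of `covers`).
 cone at `p ∈ sing`: the same `φ`, restricted to an open neighbourhood where `k = h + const`; for `q ≠ p` in it: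
 near `q`: `e q' = φ q' ^ k + c` for `e ∈ ω.atlas` (ω.cone), so `Im (φ^k) = (e q').im - c.im = h q' + const` and
 `⟨(e q').re, k q'⟩ = φ q' ^ k + const`.
PROOFS of the other statements: chart computations.
* `Mv`: horizontal moves of `ω` in `O` are horizontal moves of `ω'` (`k` is constant along them because locally
  `k = g ∘ h`). `vertical moves`: for `x ∈ O` and a vertical move of `ω` in `O` from `x` to `y`, it is after
  reparametrisation a vertical move of `ω'` of length `k y - k x` : let `γ` be the curve on `J` (velocity `I`),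
  `κ u = k (γ u)` is continuous and locally `g (h x + u)`, locally injective, so strictly monotone on the interval
  `J`; suppose increasing (`hmono`: locally all `g` are increasing); `γ' v = γ (κ⁻¹ (k x + v))` on the
  open interval `κ '' J - k x`.
* affine maps: if `f` is affine for `ω` with derivative `A`, `A 0 1 = A 1 0 = 0`, and `k (f x) = A 1 1 * k x`.
-/

open Set Filter Topology

namespace LadderVeech

variable {S : Type*} [TopologicalSpace S]

/-- `ω'` has the vertical coordinate `k` instead of `h` -/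
structure Deformed (ω ω' : TranslationStructure S) (k : S → ℝ) : Prop where
  sing : ω'.sing = ω.sing
  rel : ∀ e' ∈ ω'.atlas, ∀ e ∈ ω.atlas, ∀ p ∈ e'.source ∩ e.source,
    ∃ c : ℂ, ∀ᶠ q in 𝓝 p, e' q = ⟨(e q).re, k q⟩ + c

/-- `k` is locally an increasing homeomorphic function of `h` -/
def LocFun (ω : TranslationStructure S) (h k : S → ℝ) : Prop :=
  (∀ p ∈ ω.sing, ∀ᶠ q in 𝓝 p, k q = h q + (k p - h p)) ∧
  ∀ p ∉ ω.sing, ∃ g : OpenPartialHomeomorph ℝ ℝ, h p ∈ g.source ∧ StrictMonoOn g g.source ∧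
    ∀ᶠ q in 𝓝 p, k q = g (h q)

/-- the change of the second coordinate in `ℂ` -/
private noncomputable def LV26_psi (g : OpenPartialHomeomorph ℝ ℝ) (c : ℝ) :
    OpenPartialHomeomorph ℂ ℂ :=
  (Complex.equivRealProdCLM.toHomeomorph.toOpenPartialHomeomorph.trans
    ((OpenPartialHomeomorph.refl ℝ).prod
      ((Homeomorph.addLeft c).toOpenPartialHomeomorph.trans g))).trans
    Complex.equivRealProdCLM.symm.toHomeomorph.toOpenPartialHomeomorph

private theorem LV26_psi_apply (g : OpenPartialHomeomorph ℝ ℝ) (c : ℝ) (z : ℂ) :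
    LV26_psi g c z = ⟨z.re, g (c + z.im)⟩ := by
  apply Complex.ext <;> simp [LV26_psi]

private theorem LV26_psi_source (g : OpenPartialHomeomorph ℝ ℝ) (c : ℝ) (z : ℂ) :
    z ∈ (LV26_psi g c).source ↔ c + z.im ∈ g.source := by
  simp [LV26_psi]

/-- the new atlas -/
private def LV26_atlas (ω : TranslationStructure S) (k : S → ℝ) :
    Set (OpenPartialHomeomorph S ℂ) :=
  {e' | e'.source ⊆ ω.singᶜ ∧ ∀ e ∈ ω.atlas, ∀ p ∈ e'.source ∩ e.source,
    ∃ c : ℂ, ∀ᶠ q in 𝓝 p, e' q = ⟨(e q).re, k q⟩ + c}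

private theorem LV26_covers {ω : TranslationStructure S} {h k : S → ℝ} (hh : IsHt ω h)
    (hhk : LocFun ω h k) {p : S} (hp : p ∉ ω.sing) :
    ∃ e' ∈ LV26_atlas ω k, p ∈ e'.source := by
  obtain ⟨e, he, hpe⟩ := ω.covers p hp
  obtain ⟨g, hg, -, hkg⟩ := hhk.2 p hp
  have hc := hh.chart he hpe
  obtain ⟨W, hW, hWo, hpW⟩ := mem_nhds_iff.1 (hc.and hkg)
  have happ : ∀ q ∈ W, LV26_psi g (h p - (e p).im) (e q) = ⟨(e q).re, k q⟩ := by
    intro q hq
    obtain ⟨h1, h2⟩ := hW hq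
    rw [LV26_psi_apply]
    congr 1
    rw [h2, h1]
    congr 1
    rw [Complex.sub_im]
    ring
  refine ⟨(e.trans (LV26_psi g (h p - (e p).im))).restrOpen W hWo, ⟨?_, ?_⟩, ?_⟩
  · intro q hq
    rw [OpenPartialHomeomorph.restrOpen_source, OpenPartialHomeomorph.trans_source] at hq
    exact ω.source_subset e he hq.1.1
  · rintro e₁ he₁ q ⟨hq, hq₁⟩
    rw [OpenPartialHomeomorph.restrOpen_source, OpenPartialHomeomorph.trans_source] at hq
    obtain ⟨c, hc'⟩ := ω.compatible e₁ he₁ e he q ⟨hq₁, hq.1.1⟩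
    refine ⟨⟨c.re, 0⟩, ?_⟩
    filter_upwards [hc', hWo.mem_nhds hq.2] with q' h1 h2
    have h3 := happ q' h2
    show LV26_psi g (h p - (e p).im) (e q') = _
    rw [h3, h1]
    apply Complex.ext <;> simp
  · rw [OpenPartialHomeomorph.restrOpen_source, OpenPartialHomeomorph.trans_source]
    refine ⟨⟨hpe, ?_⟩, hpW⟩
    rw [mem_preimage, LV26_psi_source, sub_add_cancel]
    exact hg

/-- the new structure -/
private def LV26_str {ω : TranslationStructure S} {h k : S → ℝ} (hh : IsHt ω h)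
    (hhk : LocFun ω h k) : TranslationStructure S where
  sing := ω.sing
  isClosed_sing := ω.isClosed_sing
  isDiscrete_sing := ω.isDiscrete_sing
  atlas := LV26_atlas ω k
  source_subset := fun e he => he.1
  covers := fun p hp => LV26_covers hh hhk hp
  compatible := by
    rintro e he e' he' p ⟨hp, hp'⟩
    obtain ⟨e₁, he₁, hp₁⟩ := ω.covers p (he.1 hp)
    obtain ⟨c, hc⟩ := he.2 e₁ he₁ p ⟨hp, hp₁⟩
    obtain ⟨c', hc'⟩ := he'.2 e₁ he₁ p ⟨hp', hp₁⟩
    refine ⟨c' - c, ?_⟩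
    filter_upwards [hc, hc'] with q h1 h2
    rw [h1, h2]
    ring
  maximal := by
    intro e he hcomp
    refine ⟨he, ?_⟩
    rintro e₁ he₁ p ⟨hp, hp₁⟩
    obtain ⟨e', he', hp'⟩ := LV26_covers hh hhk (he hp)
    obtain ⟨c, hc⟩ := he'.2 e₁ he₁ p ⟨hp', hp₁⟩
    obtain ⟨c', hc'⟩ := hcomp e' he' p ⟨hp, hp'⟩
    refine ⟨c - c', ?_⟩
    filter_upwards [hc, hc'] with q h1 h2
    rw [h1] at h2
    linear_combination -h2
  cone := by
    intro p hp
    obtain ⟨n, hn, φ, hpφ, hφ0, hφ⟩ := ω.cone p hp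
    obtain ⟨W, hW, hWo, hpW⟩ := mem_nhds_iff.1 (hhk.1 p hp)
    refine ⟨n, hn, φ.restrOpen W hWo, ?_, hφ0, ?_⟩
    · rw [OpenPartialHomeomorph.restrOpen_source]
      exact ⟨hpφ, hpW⟩
    · intro q hq hqp
      rw [OpenPartialHomeomorph.restrOpen_source] at hq
      obtain ⟨hqs, hφe⟩ := hφ q hq.1 hqp
      refine ⟨hqs, fun e' he' hqe' => ?_⟩
      obtain ⟨e, he, hqe⟩ := ω.covers q hqs
      obtain ⟨c, hc⟩ := hφe e he hqe
      obtain ⟨c', hc'⟩ := he'.2 e he q ⟨hqe', hqe⟩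
      refine ⟨c + c' + ⟨0, h q - (e q).im + (k p - h p)⟩, ?_⟩
      filter_upwards [hc, hc', hh.chart he hqe, hWo.mem_nhds hq.2] with q' h1 h2 h3 h4
      have h5 : k q' = h q' + (k p - h p) := hW h4
      have h6 : (⟨(e q').re, k q'⟩ : ℂ) = e q' + ⟨0, h q - (e q).im + (k p - h p)⟩ := by
        apply Complex.ext
        · simp
        · rw [Complex.add_im]
          show k q' = (e q').im + (h q - (e q).im + (k p - h p))
          rw [h5, h3, Complex.sub_im]
          ring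
      rw [h2, h6, h1]
      show _ = φ q' ^ n + _
      ring

theorem exists_deformed [T2Space S] {ω : TranslationStructure S} {h k : S → ℝ} (hh : IsHt ω h)
    (hk : Continuous k) (hhk : LocFun ω h k) : ∃ ω', Deformed ω ω' k ∧ IsHt ω' k := by
  refine ⟨LV26_str hh hhk, ⟨rfl, fun e' he' e he p hp => he'.2 e he p hp⟩, ?_⟩
  refine IsHt.of_chart hk fun e' he' p hp => ?_
  have he'' : e' ∈ LV26_atlas ω k := he'
  obtain ⟨e, he, hpe⟩ := ω.covers p (he''.1 hp)
  obtain ⟨c, hc⟩ := he''.2 e he p ⟨hp, hpe⟩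
  have hp0 := hc.self_of_nhds
  filter_upwards [hc] with q hq
  rw [hq, hp0, Complex.sub_im, Complex.add_im, Complex.add_im]
  ring

theorem Deformed.mv_horizontal [T2Space S] {ω ω' : TranslationStructure S} {h k : S → ℝ}
    (hh : IsHt ω h) (hhk : LocFun ω h k) (hd : Deformed ω ω' k) {O : Set S} (hOs : O ⊆ ω.singᶜ)
    {s : ℝ} {x y : S} (hm : Mv ω O 1 s x y) : Mv ω' O 1 s x y := by
  obtain ⟨J, hJ, hJ', h0, hs, γ, hγ, hγ0, hγs, hγJ⟩ := hm
  refine ⟨J, hJ, hJ', h0, hs, γ, hγ, hγ0, hγs, fun t ht => ⟨(hγJ t ht).1, fun e' he' hte' => ?_⟩⟩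
  have hts : γ t ∉ ω.sing := hOs (hγJ t ht).1
  obtain ⟨e, he, hte⟩ := ω.covers _ hts
  obtain ⟨c, hc⟩ := hd.rel e' he' e he (γ t) ⟨hte', hte⟩
  obtain ⟨g, hg, -, hkg⟩ := hhk.2 _ hts
  have hcont : ContinuousAt γ t := hγ.continuousAt (hJ.mem_nhds ht)
  have h1 := hcont.eventually (hc.and (hkg.and (hh.chart he hte)))
  have h2 := (hγJ t ht).2 e he hte
  have hc0 := hc.self_of_nhds
  have hk0 := hkg.self_of_nhds
  filter_upwards [h1, h2] with u hu hu'
  obtain ⟨hu1, hu2, hu3⟩ := hu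
  have h4 : h (γ u) = h (γ t) := by
    rw [hu3, hu', Complex.sub_im, Complex.add_im]
    simp
  have h5 : k (γ u) = k (γ t) := by
    rw [hu2, h4, ← hk0]
  rw [hu1, hc0, h5, hu']
  apply Complex.ext
  · simp
    ring
  · simp

/-- a continuous function which increases locally to the right is strictly increasing -/
private theorem LV26_mono {J : Set ℝ} (hJ' : J.OrdConnected) {κ : ℝ → ℝ} (hκ : ContinuousOn κ J)
    (h : ∀ t ∈ J, ∀ᶠ u in 𝓝[>] t, κ t < κ u) : StrictMonoOn κ J := by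
  intro a ha b hb hab
  have hsub : Icc a b ⊆ J := hJ'.out ha hb
  obtain ⟨c, hc, hmax⟩ := isCompact_Icc.exists_isMaxOn (nonempty_Icc.2 hab.le) (hκ.mono hsub)
  have key : ∀ c ∈ Icc a b, IsMaxOn κ (Icc a b) c → c = b := by
    intro c hc hmax
    by_contra hne
    have hcb : c < b := lt_of_le_of_ne hc.2 hne
    have h1 := h c (hsub hc)
    have h2 : ∀ᶠ u in 𝓝[>] c, u ∈ Ioo c b := Ioo_mem_nhdsGT hcb
    obtain ⟨u, hu, hu'⟩ := (h1.and h2).exists
    have h3 := hmax (show u ∈ Icc a b from ⟨hc.1.trans hu'.1.le, hu'.2.le⟩)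
    exact absurd hu (not_lt.2 h3)
  have hcb := key c hc hmax
  subst hcb
  have ha' : a ∈ Icc a c := left_mem_Icc.2 hab.le
  refine lt_of_le_of_ne (hmax ha') fun heq => ?_
  have h1 : IsMaxOn κ (Icc a c) a := by
    intro u hu
    show κ u ≤ κ a
    rw [heq]
    exact hmax hu
  exact hab.ne (key a ha' h1)

private theorem LV26_image {J : Set ℝ} (hJ : IsOpen J) {κ : ℝ → ℝ}
    (hκ : ContinuousOn κ J) (hm : StrictMonoOn κ J) {t : ℝ} (ht : t ∈ J) {N : Set ℝ}
    (hN : N ∈ 𝓝 t) : κ '' (N ∩ J) ∈ 𝓝 (κ t) := by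
  obtain ⟨ε, hε, hsub⟩ := Metric.mem_nhds_iff.1 (inter_mem hN (hJ.mem_nhds ht))
  have hsub' : Icc (t - ε / 2) (t + ε / 2) ⊆ N ∩ J := by
    intro u hu
    apply hsub
    rw [Metric.mem_ball, Real.dist_eq, abs_lt]
    constructor <;> linarith [hu.1, hu.2]
  have ha : t - ε / 2 ∈ J := (hsub' ⟨le_rfl, by linarith⟩).2
  have hb : t + ε / 2 ∈ J := (hsub' ⟨by linarith, le_rfl⟩).2
  have h1 : κ (t - ε / 2) < κ t := hm ha ht (by linarith)
  have h2 : κ t < κ (t + ε / 2) := hm ht hb (by linarith)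
  refine mem_of_superset (Ioo_mem_nhds h1 h2) ?_
  intro w hw
  have h3 := intermediate_value_Icc (show t - ε / 2 ≤ t + ε / 2 by linarith)
    (hκ.mono (hsub'.trans inter_subset_right))
  obtain ⟨u, hu, huw⟩ := h3 (Ioo_subset_Icc_self hw)
  exact ⟨u, hsub' hu, huw⟩

theorem Deformed.mv_vertical [T2Space S] {ω ω' : TranslationStructure S} {h k : S → ℝ}
    (hh : IsHt ω h) (hk : Continuous k) (hhk : LocFun ω h k) (hd : Deformed ω ω' k) {O : Set S}
    (hOs : O ⊆ ω.singᶜ) {s : ℝ} {x y : S} (hm : Mv ω O Complex.I s x y) :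
    Mv ω' O Complex.I (k y - k x) x y := by
  obtain ⟨J, hJ, hJ', h0, hs, γ, hγ, hγ0, hγs, hγJ⟩ := hm
  set κ : ℝ → ℝ := fun u => k (γ u) with hκ
  have hκc : ContinuousOn κ J := hk.comp_continuousOn hγ
  have hmono : StrictMonoOn κ J := by
    refine LV26_mono hJ' hκc fun t ht => ?_
    have hts : γ t ∉ ω.sing := hOs (hγJ t ht).1
    obtain ⟨e, he, hte⟩ := ω.covers _ hts
    obtain ⟨g, hg, hgm, hkg⟩ := hhk.2 _ hts
    have hcont : ContinuousAt γ t := hγ.continuousAt (hJ.mem_nhds ht)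
    have h1 := hcont.eventually (hkg.and (hh.chart he hte))
    have h2 := (hγJ t ht).2 e he hte
    have hk0 := hkg.self_of_nhds
    have h3 : ∀ᶠ u in 𝓝 t, h (γ t) + (u - t) ∈ g.source := by
      have h4 : ContinuousAt (fun u : ℝ => h (γ t) + (u - t)) t := by fun_prop
      refine h4.preimage_mem_nhds (g.open_source.mem_nhds ?_)
      simpa using hg
    refine ((h1.and (h2.and h3)).filter_mono nhdsWithin_le_nhds).and
      self_mem_nhdsWithin |>.mono ?_
    rintro u ⟨⟨⟨hu1, hu2⟩, hu3, hu4⟩, hut⟩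
    have hut' : t < u := hut
    have h5 : h (γ u) = h (γ t) + (u - t) := by
      rw [hu2, hu3, Complex.sub_im, Complex.add_im]
      simp
    show k (γ t) < k (γ u)
    rw [hu1, hk0, h5]
    exact hgm hg hu4 (by linarith)
  set σ : ℝ → ℝ := Function.invFunOn κ J with hσ
  have hσl : ∀ t ∈ J, σ (κ t) = t := fun t ht => hmono.injOn.leftInvOn_invFunOn ht
  have hσt : ∀ t ∈ J, Tendsto σ (𝓝 (κ t)) (𝓝 t) := by
    intro t ht N hN
    refine mem_map.2 (mem_of_superset (LV26_image hJ hκc hmono ht hN) ?_)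
    rintro _ ⟨u, hu, rfl⟩
    rw [mem_preimage, hσl u hu.2]
    exact hu.1
  set J₂ : Set ℝ := {v | k x + v ∈ κ '' J} with hJ₂
  have hx0 : κ 0 = k x := by rw [hκ]; simp only; rw [hγ0]
  have hy0 : κ s = k y := by rw [hκ]; simp only; rw [hγs]
  have hJ₂o : IsOpen J₂ := by
    rw [isOpen_iff_mem_nhds]
    rintro v ⟨t, ht, htv⟩
    have h1 := LV26_image hJ hκc hmono ht univ_mem
    rw [univ_inter, htv] at h1
    have h2 : ContinuousAt (fun v : ℝ => k x + v) v := by fun_prop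
    exact h2.preimage_mem_nhds h1
  have hJ₂c : J₂.OrdConnected := by
    have h1 : (κ '' J).OrdConnected := (hJ'.isPreconnected.image κ hκc).ordConnected
    refine ⟨fun a ha b hb c hc => ?_⟩
    exact h1.out ha hb ⟨by linarith [hc.1], by linarith [hc.2]⟩
  -- the new curve at a point
  have hloc : ∀ v ∈ J₂, ∃ t ∈ J, κ t = k x + v ∧ σ (k x + v) = t ∧
      Tendsto (fun v' => σ (k x + v')) (𝓝 v) (𝓝 t) := by
    rintro v ⟨t, ht, htv⟩
    refine ⟨t, ht, htv, by rw [← htv, hσl t ht], ?_⟩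
    have h1 := hσt t ht
    rw [htv] at h1
    have h2 : Tendsto (fun v' : ℝ => k x + v') (𝓝 v) (𝓝 (k x + v)) :=
      Continuous.tendsto (by fun_prop) v
    exact h1.comp h2
  refine ⟨J₂, hJ₂o, hJ₂c, ?_, ?_, fun v => γ (σ (k x + v)), ?_, ?_, ?_, ?_⟩
  · refine ⟨0, h0, ?_⟩
    rw [hx0, add_zero]
  · refine ⟨s, hs, ?_⟩
    rw [hy0]
    ring
  · intro v hv
    obtain ⟨t, ht, h1, h2, h3⟩ := hloc v hv
    have h4 : ContinuousAt γ t := hγ.continuousAt (hJ.mem_nhds ht)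
    have h5 : ContinuousAt (fun v => γ (σ (k x + v))) v := by
      show Tendsto (fun v => γ (σ (k x + v))) (𝓝 v) (𝓝 (γ (σ (k x + v))))
      rw [h2]
      exact h4.tendsto.comp h3
    exact h5.continuousWithinAt
  · show γ (σ (k x + 0)) = x
    rw [add_zero, ← hx0, hσl 0 h0, hγ0]
  · show γ (σ (k x + (k y - k x))) = y
    rw [add_sub_cancel, ← hy0, hσl s hs, hγs]
  · intro v hv
    obtain ⟨t, ht, h1, h2, h3⟩ := hloc v hv
    show γ (σ (k x + v)) ∈ O ∧ ∀ e' ∈ ω'.atlas, γ (σ (k x + v)) ∈ e'.source →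
      ∀ᶠ u in 𝓝 v, e' (γ (σ (k x + u))) = e' (γ (σ (k x + v))) + ((u - v : ℝ) : ℂ) * Complex.I
    rw [h2]
    refine ⟨(hγJ t ht).1, fun e' he' hte' => ?_⟩
    have hts : γ t ∉ ω.sing := hOs (hγJ t ht).1
    obtain ⟨e, he, hte⟩ := ω.covers _ hts
    obtain ⟨c, hc⟩ := hd.rel e' he' e he (γ t) ⟨hte', hte⟩
    have hcont : ContinuousAt γ t := hγ.continuousAt (hJ.mem_nhds ht)
    have h4 := h3.eventually ((hcont.eventually hc).and ((hγJ t ht).2 e he hte))
    have hc0 := hc.self_of_nhds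
    filter_upwards [h4, hJ₂o.mem_nhds hv] with v' hv' hv''
    obtain ⟨t', ht', h5, h6, -⟩ := hloc v' hv''
    obtain ⟨h7, h8⟩ := hv'
    rw [h6] at h7 h8 ⊢
    have h9 : k (γ t') = k x + v' := h5
    have h10 : k (γ t) = k x + v := h1
    rw [h7, hc0, h9, h10, h8]
    apply Complex.ext
    · simp
    · simp
      ring

theorem Deformed.affine [T2Space S] {ω ω' : TranslationStructure S} {k : S → ℝ}
    (hd : Deformed ω ω' k) {f : S ≃ₜ S} {A : GL (Fin 2) ℝ} (hf : IsAffine ω f A)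
    (hA : A 0 1 = 0 ∧ A 1 0 = 0) (hkf : ∀ x, k (f x) = A 1 1 * k x) : IsAffine ω' f A := by
  refine ⟨by rw [hd.sing]; exact hf.1, fun p hp e₁ he₁ hpe₁ e₂ he₂ hpe₂ => ?_⟩
  rw [hd.sing] at hp
  have hfp : f p ∉ ω.sing := fun h1 => hp ((hf.mem_iff p).1 h1)
  obtain ⟨e, he, hpe⟩ := ω.covers p hp
  obtain ⟨e', he', hpe'⟩ := ω.covers _ hfp
  obtain ⟨c₀, hc₀⟩ := hf.2 p hp e he hpe e' he' hpe'
  obtain ⟨c₁, hc₁⟩ := hd.rel e₁ he₁ e he p ⟨hpe₁, hpe⟩
  obtain ⟨c₂, hc₂⟩ := hd.rel e₂ he₂ e' he' (f p) ⟨hpe₂, hpe'⟩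
  refine ⟨⟨c₀.re, 0⟩ + c₂ - act A c₁, ?_⟩
  filter_upwards [hc₀, hc₁, f.continuous.continuousAt.eventually hc₂] with q h0 h1 h2
  rw [h2, h1, act_add, h0, hkf]
  apply Complex.ext
  · simp [act, hA.1, hA.2]
    ring
  · simp [act, hA.1, hA.2]

end LadderVeech
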