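import Pool.Agent.LadderVeech.LV25
import Pool.Agent.LadderVeech.LV26
import Pool.Agent.LadderVeech.LV21

/-!
LV27. The stretched structure.

SETTING. `F : HFlow ω h false 1 0`, `O = {h ≠ 0}`, `lam` from LV25.
`sg r = 1` for `r ≤ 1/2`, `sg r = 1 / (4 r (1 - r))` for `r > 1/2`;  `k x = h x * sg (lam h x * |h x|)`.
In a strip with `lam = l`: `k = g_l (h)`, `g_l y = y * sg (l |y|)`; for `l = 0`: `k = h`. For `l > 0`, `y > 0`: `g_l` maps
`(0, 1/l)` onto `(0, ∞)`, strictly increasing and continuous (`= y` for `l y ≤ 1/2`, `= 1/(4 l (1 - l y))` after), inverse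
`Y ↦ Y` if `l Y ≤ 1/2`, `Y ↦ (1 - 1/(4 l Y)) / l` otherwise; odd in `y`.
PROOFS. `k` continuous and LocFun: near `p` with `h p = 0`: `k = h` (lam_near_zero). Near `p` with `h p ≠ 0`: `lam` is
constant on the strip (open), `k = g_l ∘ h`, `g_l` as OpenPartialHomeomorph with source
`{y | 0 < y * h p ∧ l |y| < 1}` and target `{Y | 0 < Y * h p}`. So exists_deformed (LV26).
`k x = 0 ↔ h x = 0` (lam_mul_lt: `lam |h| < 1`, so `sg > 0`).
Vertical completeness: for `h x ≠ 0` and `t`: let `r > 0` with `g_l (r h x) = e^t k x`; `l r |h x| < 1`; `reach` gives the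
move of `ω` to `y`, `h y = r h x` (IsHt.mv), `lam y = lam x` (Mv.mem_comp, lam_const), so `k y = e^t k x`;
Deformed.mv_vertical: `Mv ω' O I ((e^t - 1) k x) x y`. `build` (LV20) for `ω'`, `k`, `b = true` gives `σ`; build_tang.
Horizontal: HFlow.hc and Deformed.mv_horizontal, build_tang for `b = false`.
`aff`: for `f` affine for `ω` with diagonal `A`, `h ∘ f = A 1 1 * h` : `lam_affine` gives `k ∘ f = A 1 1 * k`;
Deformed.affine.  (`A 1 1 ≠ 0` because `det ≠ 0`.)
`unb`: if `lam = 0` everywhere, `k = h`, and then `ω' ` may be replaced: `kX true ∈ tang (veechZero ω)` directly by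
`reach` and `build_tang` for `ω` (theorem `scale_of_lam_zero`).
-/

open Set Filter Topology

namespace LadderVeech

variable {ω : TranslationStructure Ladder} {h : Ladder → ℝ}

/-- the factor of the stretching -/
private noncomputable def sg (r : ℝ) : ℝ := 1 / (4 * max r (1 / 2) * (1 - max r (1 / 2)))

/-- the factor of the inverse -/
private noncomputable def isg (r : ℝ) : ℝ := 1 / max r (1 / 2) * (1 - 1 / (4 * max r (1 / 2)))

private lemma sg_of_le {r : ℝ} (h : r ≤ 1 / 2) : sg r = 1 := by
  unfold sg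
  rw [max_eq_right h]
  norm_num

private lemma sg_of_ge {r : ℝ} (h : 1 / 2 ≤ r) : sg r = 1 / (4 * r * (1 - r)) := by
  unfold sg
  rw [max_eq_left h]

private lemma isg_of_le {r : ℝ} (h : r ≤ 1 / 2) : isg r = 1 := by
  unfold isg
  rw [max_eq_right h]
  norm_num

private lemma isg_of_ge {r : ℝ} (h : 1 / 2 ≤ r) : isg r = 1 / r * (1 - 1 / (4 * r)) := by
  unfold isg
  rw [max_eq_left h]

private lemma sg_pos {r : ℝ} (h : r < 1) : 0 < sg r := by
  have h1 : max r (1 / 2) < 1 := max_lt h (by norm_num)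
  have h2 : (1 / 2 : ℝ) ≤ max r (1 / 2) := le_max_right _ _
  unfold sg
  have h3 : 0 < 1 - max r (1 / 2) := by linarith
  have h4 : 0 < max r (1 / 2) := by linarith
  positivity

private lemma isg_pos (r : ℝ) : 0 < isg r := by
  have h2 : (1 / 2 : ℝ) ≤ max r (1 / 2) := le_max_right _ _
  have h4 : 0 < max r (1 / 2) := by linarith
  unfold isg
  have h5 : 1 / (4 * max r (1 / 2)) ≤ 1 / 2 := by
    rw [div_le_div_iff₀ (by positivity) (by norm_num)]
    linarith
  have h6 : 0 < 1 - 1 / (4 * max r (1 / 2)) := by linarith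
  positivity

private lemma sg_mono {r s : ℝ} (hrs : r ≤ s) (hs : s < 1) : sg r ≤ sg s := by
  have h1 : max s (1 / 2) < 1 := max_lt hs (by norm_num)
  have h2 : (1 / 2 : ℝ) ≤ max r (1 / 2) := le_max_right _ _
  have h3 : max r (1 / 2) ≤ max s (1 / 2) := max_le_max hrs le_rfl
  unfold sg
  set a := max r (1 / 2)
  set b := max s (1 / 2)
  have h4 : 0 < 4 * b * (1 - b) := by
    have : 0 < 1 - b := by linarith
    have : 0 < b := by linarith
    positivity
  apply one_div_le_one_div_of_le h4
  nlinarith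

private lemma continuousOn_sg : ContinuousOn sg (Iio 1) := by
  unfold sg
  refine ContinuousOn.div continuousOn_const (by fun_prop) ?_
  intro r hr
  have h1 : max r (1 / 2) < 1 := max_lt hr (by norm_num)
  have h2 : (1 / 2 : ℝ) ≤ max r (1 / 2) := le_max_right _ _
  have h3 : 0 < 1 - max r (1 / 2) := by linarith
  have h4 : 0 < max r (1 / 2) := by linarith
  positivity

private lemma continuous_isg : Continuous isg := by
  have h4 : ∀ r : ℝ, 0 < max r (1 / 2) := fun r => by
    have h2 : (1 / 2 : ℝ) ≤ max r (1 / 2) := le_max_right _ _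
    linarith
  unfold isg
  refine Continuous.mul ?_ ?_
  · exact continuous_const.div (by fun_prop) (fun r => (h4 r).ne')
  · refine continuous_const.sub ?_
    exact continuous_const.div (by fun_prop) (fun r => (mul_pos (by norm_num) (h4 r)).ne')

/-- `isg` inverts `sg` -/
private lemma isg_sg {r : ℝ} (h0 : 0 ≤ r) (h : r < 1) : sg r * isg (r * sg r) = 1 := by
  rcases le_total r (1 / 2) with h1 | h1
  · rw [sg_of_le h1, mul_one, isg_of_le h1, mul_one]
  · have h2 : 0 < 1 - r := by linarith
    have h3 : 0 < r := by linarith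
    have h4 : r * sg r = 1 / (4 * (1 - r)) := by
      rw [sg_of_ge h1]
      field_simp
    have h5 : (1 / 2 : ℝ) ≤ r * sg r := by
      rw [h4, div_le_div_iff₀ (by norm_num) (by positivity)]
      linarith
    rw [isg_of_ge h5, h4, sg_of_ge h1]
    field_simp
    ring

private lemma sg_isg {r : ℝ} (h0 : 0 ≤ r) : isg r * sg (r * isg r) = 1 ∧ r * isg r < 1 := by
  rcases le_total r (1 / 2) with h1 | h1
  · rw [isg_of_le h1, mul_one, sg_of_le h1, mul_one]
    exact ⟨rfl, by linarith⟩
  · have h3 : 0 < r := by linarith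
    have h4 : r * isg r = 1 - 1 / (4 * r) := by
      rw [isg_of_ge h1]
      field_simp
    have h6 : 1 / (4 * r) ≤ 1 / 2 := by
      rw [div_le_div_iff₀ (by positivity) (by norm_num)]
      linarith
    have h7 : 0 < 1 / (4 * r) := by positivity
    have h5 : (1 / 2 : ℝ) ≤ r * isg r := by
      rw [h4]
      linarith
    refine ⟨?_, by rw [h4]; linarith⟩
    rw [sg_of_ge h5, h4, isg_of_ge h1]
    have h8 : 1 - 1 / (4 * r) ≠ 0 := by linarith
    have h9 : 1 - (1 - 1 / (4 * r)) = 1 / (4 * r) := by ring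
    have h10 : r * 4 - 1 ≠ 0 := by linarith
    rw [h9]
    field_simp

/-- the stretching of the heights -/
private noncomputable def gl (l y : ℝ) : ℝ := y * sg (l * |y|)

private noncomputable def gli (l y : ℝ) : ℝ := y * isg (l * |y|)

private lemma gl_abs {l y : ℝ} (hl : l * |y| < 1) : l * |gl l y| = l * |y| * sg (l * |y|) := by
  unfold gl
  rw [abs_mul, abs_of_pos (sg_pos hl)]
  ring

private lemma gli_abs (l y : ℝ) : l * |gli l y| = l * |y| * isg (l * |y|) := by
  unfold gli
  rw [abs_mul, abs_of_pos (isg_pos _)]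
  ring

private lemma gli_gl {l y : ℝ} (h0 : 0 ≤ l) (hl : l * |y| < 1) : gli l (gl l y) = y := by
  have h1 := isg_sg (mul_nonneg h0 (abs_nonneg y)) hl
  have h2 : gli l (gl l y) = gl l y * isg (l * |gl l y|) := rfl
  rw [h2, gl_abs hl]
  unfold gl
  rw [mul_assoc, h1, mul_one]

private lemma gl_gli {l y : ℝ} (h0 : 0 ≤ l) : gl l (gli l y) = y := by
  have h1 := (sg_isg (mul_nonneg h0 (abs_nonneg y))).1
  have h2 : gl l (gli l y) = gli l y * sg (l * |gli l y|) := rfl
  rw [h2, gli_abs]
  unfold gli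
  rw [mul_assoc, h1, mul_one]

private lemma gli_lt {l y : ℝ} (h0 : 0 ≤ l) : l * |gli l y| < 1 := by
  rw [gli_abs]
  exact (sg_isg (mul_nonneg h0 (abs_nonneg y))).2

private noncomputable def glH (l a : ℝ) (h0 : 0 ≤ l) : OpenPartialHomeomorph ℝ ℝ where
  toFun := gl l
  invFun := gli l
  source := {y | 0 < y * a ∧ l * |y| < 1}
  target := {y | 0 < y * a}
  map_source' := by
    rintro y ⟨h1, h2⟩
    have h3 : gl l y * a = y * a * sg (l * |y|) := by
      unfold gl
      ring
    change 0 < gl l y * a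
    rw [h3]
    exact mul_pos h1 (sg_pos h2)
  map_target' := by
    intro y h1
    refine ⟨?_, gli_lt h0⟩
    have h3 : gli l y * a = y * a * isg (l * |y|) := by
      unfold gli
      ring
    rw [h3]
    exact mul_pos h1 (isg_pos _)
  left_inv' := by
    rintro y ⟨h1, h2⟩
    exact gli_gl h0 h2
  right_inv' := by
    intro y h1
    exact gl_gli h0
  open_source := by
    have h1 : IsOpen {y : ℝ | 0 < y * a} := isOpen_lt continuous_const (by fun_prop)
    have h2 : IsOpen {y : ℝ | l * |y| < 1} := isOpen_lt (by fun_prop) continuous_const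
    exact h1.inter h2
  open_target := isOpen_lt continuous_const (by fun_prop)
  continuousOn_toFun := by
    change ContinuousOn (fun y => y * sg (l * |y|)) _
    refine continuousOn_id.mul ?_
    refine continuousOn_sg.comp (by fun_prop) ?_
    rintro y ⟨h1, h2⟩
    exact h2
  continuousOn_invFun := by
    change ContinuousOn (fun y => y * isg (l * |y|)) _
    refine continuousOn_id.mul ?_
    exact (continuous_isg.comp (by fun_prop)).continuousOn

private lemma glH_mono (l a : ℝ) (h0 : 0 ≤ l) : StrictMonoOn (glH l a h0) (glH l a h0).source := by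
  rintro y ⟨hy1, hy2⟩ z ⟨hz1, hz2⟩ hyz
  change y * sg (l * |y|) < z * sg (l * |z|)
  rcases lt_trichotomy a 0 with ha | ha | ha
  · have hy : y < 0 := by nlinarith
    have hz : z < 0 := by nlinarith
    have h1 : |z| ≤ |y| := by
      rw [abs_of_neg hy, abs_of_neg hz]
      linarith
    have h2 : sg (l * |z|) ≤ sg (l * |y|) := sg_mono (mul_le_mul_of_nonneg_left h1 h0) hy2
    have h3 := sg_pos hz2
    nlinarith
  · rw [ha, mul_zero] at hy1
    exact absurd hy1 (lt_irrefl _)
  · have hy : 0 < y := by nlinarith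
    have hz : 0 < z := by nlinarith
    have h1 : |y| ≤ |z| := by
      rw [abs_of_pos hy, abs_of_pos hz]
      linarith
    have h2 : sg (l * |y|) ≤ sg (l * |z|) := sg_mono (mul_le_mul_of_nonneg_left h1 h0) hz2
    have h3 := sg_pos hy2
    nlinarith

theorem scale_of_lam_zero (hh : IsHt ω h) (F : HFlow ω h false 1 0) (hl : ∀ x, lam h x = 0) :
    kX true ∈ tang (veechZero ω) := by
  refine build_tang hh (fun x hx => F.sing_zero hx) true (fun t x hx => ?_)
  obtain ⟨y, hy⟩ := reach hh F hx (Real.exp_pos t) (by rw [hl, zero_mul]; exact one_pos)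
  refine ⟨y, ?_⟩
  simpa only [km, kth, if_true] using hy

theorem exists_stretched (hh : IsHt ω h) (F : HFlow ω h false 1 0) :
    ∃ (ω' : TranslationStructure Ladder) (k : Ladder → ℝ) (σ : ℝ → Ladder ≃ₜ Ladder),
      ω'.sing = ω.sing ∧ IsHt ω' k ∧ (∀ x, k x = 0 ↔ h x = 0) ∧
      kX false ∈ tang (veechZero ω') ∧ kX true ∈ tang (veechZero ω') ∧
      (∀ (f : Ladder ≃ₜ Ladder) (A : GL (Fin 2) ℝ), IsAffine ω f A → A 0 1 = 0 ∧ A 1 0 = 0 →
        (∀ x, h (f x) = A 1 1 * h x) → IsAffine ω' f A ∧ ∀ x, k (f x) = A 1 1 * k x) ∧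
      (∀ t, IsAffine ω' (σ t) (expGL (t • kX true))) ∧
      (∀ s t x, σ (s + t) x = σ s (σ t x)) ∧ (∀ t x, k x = 0 → σ t x = x) ∧
      (∀ t x, k (σ t x) = Real.exp t * k x) ∧
      ∀ t x, k x ≠ 0 → Mv ω' {y | k y ≠ 0} Complex.I ((Real.exp t - 1) * k x) x (σ t x) := by
  set k : Ladder → ℝ := fun x => gl (lam h x) (h x) with hk
  have hkd : ∀ x, k x = h x * sg (lam h x * |h x|) := fun x => rfl
  have hO : IsOpen {y | h y ≠ 0} := isOpen_ne_fun hh.cont continuous_const
  have hOs : {y | h y ≠ 0} ⊆ ω.singᶜ := fun x hx hxs => hx (F.sing_zero hxs)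
  have hnear0 : ∀ p, h p = 0 → ∀ᶠ q in 𝓝 p, k q = h q := by
    intro p hp
    filter_upwards [lam_near_zero hh hp] with q hq
    rw [hkd, sg_of_le hq, mul_one]
  have hnear1 : ∀ p, h p ≠ 0 → ∀ᶠ q in 𝓝 p, k q = gl (lam h p) (h q) := by
    intro p hp
    have := locallyConnected_of ω
    have hopen : IsOpen (connectedComponentIn {y | h y ≠ 0} p) := hO.connectedComponentIn
    filter_upwards [hopen.mem_nhds (mem_connectedComponentIn hp)] with q hq
    have h1 : k q = gl (lam h q) (h q) := rfl
    rw [h1, lam_const hq]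
  have hk0 : ∀ x, k x = 0 ↔ h x = 0 := by
    intro x
    constructor
    · intro hx
      by_contra hne
      rw [hkd] at hx
      rcases mul_eq_zero.1 hx with h1 | h1
      · exact hne h1
      · exact (sg_pos (lam_mul_lt hh hne)).ne' h1
    · intro hx
      rw [hkd, hx, zero_mul]
  have hsrc : ∀ p, h p ≠ 0 → h p ∈ (glH (lam h p) (h p) (lam_nonneg p)).source := by
    intro p hp
    exact ⟨mul_self_pos.2 hp, lam_mul_lt hh hp⟩
  have hkc : Continuous k := by
    rw [continuous_iff_continuousAt]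
    intro p
    by_cases hp : h p = 0
    · have h1 : ContinuousAt h p := hh.cont.continuousAt
      exact h1.congr (Filter.EventuallyEq.symm (hnear0 p hp))
    · have h1 : ContinuousAt (gl (lam h p)) (h p) :=
        (glH (lam h p) (h p) (lam_nonneg p)).continuousAt (hsrc p hp)
      have h2 : ContinuousAt (fun q => gl (lam h p) (h q)) p :=
        ContinuousAt.comp (f := h) h1 hh.cont.continuousAt
      exact h2.congr (Filter.EventuallyEq.symm (hnear1 p hp))
  have hloc : LocFun ω h k := by
    refine ⟨?_, ?_⟩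
    · intro p hp
      have h0 := F.sing_zero hp
      filter_upwards [hnear0 p h0] with q hq
      rw [hq, (hk0 p).2 h0, h0]
      ring
    · intro p hp
      by_cases h0 : h p = 0
      · refine ⟨OpenPartialHomeomorph.refl ℝ, trivial, ?_, ?_⟩
        · intro x _ y _ hxy
          exact hxy
        · filter_upwards [hnear0 p h0] with q hq
          rw [hq]
          rfl
      · exact ⟨glH (lam h p) (h p) (lam_nonneg p), hsrc p h0, glH_mono _ _ _, hnear1 p h0⟩
  obtain ⟨ω', hd, hk'⟩ := exists_deformed hh hkc hloc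
  have hset : {y | k y ≠ 0} = {y | h y ≠ 0} := by
    ext y
    exact not_congr (hk0 y)
  have hs' : ∀ x ∈ ω'.sing, k x = 0 := by
    intro x hx
    rw [hd.sing] at hx
    exact (hk0 x).2 (F.sing_zero hx)
  have hvert : ∀ (t : ℝ) (x : Ladder), k x ≠ 0 →
      ∃ y, Mv ω' {y | k y ≠ 0} Complex.I ((Real.exp t - 1) * k x) x y := by
    intro t x hkx
    have hx : h x ≠ 0 := fun h0 => hkx ((hk0 x).2 h0)
    have hl0 := lam_nonneg (h := h) x
    set l := lam h x with hl
    set Y := Real.exp t * k x with hY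
    have hsgp := sg_pos (lam_mul_lt hh hx)
    set r : ℝ := Real.exp t * sg (l * |h x|) * isg (l * |Y|) with hr
    have hrpos : 0 < r := mul_pos (mul_pos (Real.exp_pos t) hsgp) (isg_pos _)
    have hrh : r * h x = gli l Y := by
      have e1 : gli l Y = Y * isg (l * |Y|) := rfl
      rw [e1, hr, hY, hkd x]
      ring
    have hlt : l * (r * |h x|) < 1 := by
      have e1 : r * |h x| = |r * h x| := by rw [abs_mul, abs_of_pos hrpos]
      rw [e1, hrh]
      exact gli_lt hl0
    obtain ⟨y, hy⟩ := reach hh F hx hrpos hlt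
    have hhy : h y = r * h x := by
      rw [hh.mv hOs hy, Complex.I_im]
      ring
    have hly : lam h y = l := lam_const hy.mem_comp
    have hky : k y = Y := by
      have e1 : k y = gl (lam h y) (h y) := rfl
      rw [e1, hly, hhy, hrh]
      exact gl_gli hl0
    refine ⟨y, ?_⟩
    have h1 := hd.mv_vertical hh hkc hloc hOs hy
    rw [hset]
    have e2 : (Real.exp t - 1) * k x = k y - k x := by
      rw [hky, hY]
      ring
    rw [e2]
    exact h1
  have hex : ∀ (t : ℝ) (x : Ladder), k x ≠ 0 →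
      ∃ y, Mv ω' {y | k y ≠ 0} (km true) (kth true t * k x) x y := by
    intro t x hx
    simpa only [km, kth, if_true] using hvert t x hx
  obtain ⟨σ, hσ1, hσ2, hσ3, hσ4, hσ5⟩ := build hk' hs' true hex
  refine ⟨ω', k, σ, hd.sing, hk', hk0, ?_, build_tang hk' hs' true hex, ?_, hσ1, hσ2, hσ3, ?_, ?_⟩
  · refine build_tang hk' hs' false (fun t x hkx => ?_)
    have hx : h x ≠ 0 := fun h0 => hkx ((hk0 x).2 h0)
    obtain ⟨y, hy⟩ := F.hc hx (t * k x)
    refine ⟨y, ?_⟩
    have h1 := hd.mv_horizontal hh hloc hOs hy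
    rw [hset]
    simpa only [km, kth, Bool.false_eq_true, if_false] using h1
  · intro f A hf hA hfh
    have hA11 : A 1 1 ≠ 0 := by
      intro h0
      have h1 : Matrix.det (A : Matrix (Fin 2) (Fin 2) ℝ) ≠ 0 :=
        ((Matrix.isUnit_iff_isUnit_det _).1 A.isUnit).ne_zero
      apply h1
      rw [Matrix.det_fin_two, h0, hA.1]
      ring
    have hkf : ∀ x, k (f x) = A 1 1 * k x := by
      intro x
      have e1 : lam h (f x) * |h (f x)| = lam h x * |h x| := by
        rw [lam_affine hh hA11 hfh, hfh, abs_mul]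
        have : |A 1 1| ≠ 0 := abs_ne_zero.2 hA11
        field_simp
      rw [hkd, hkd, e1, hfh]
      ring
    exact ⟨hd.affine hf hA hkf, hkf⟩
  · intro t x
    simpa only [kch, if_true] using hσ4 t x
  · intro t x hx
    simpa only [km, kth, if_true] using hσ5 t x hx

end LadderVeech
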