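import Pool.Agent.LadderVeech.LV32
import Pool.Agent.LadderVeech.LV05

/-!
LV28. Algebra of the case `P`: the entries `A 0 0` of the end-fixing Veech group form a discrete set.

PROOF of `upper_of_P`. All `B ∈ tang N`, `N = veechZero ω`, have determinant `0` (`tang_det_zero`, LV32). If
`B = !![p, q; r, s] ∈ tang N`, then (tang_add, tang_smul, isClosed_veechZero) `B + x E₁₂ + y E₂₂ ∈ tang N` for all
`x, y`, so `p (s + y) - (q + x) r = 0`, hence `p = r = 0`. For `A ∈ veechPlus ω`, `tang_conj` (veechZero_normal):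
`A E₂₂ A⁻¹ ∈ tang N` and `A E₁₂ A⁻¹ ∈ tang N`; first columns zero: `A E₂₂ A⁻¹ e₁ = 0` and `A E₁₂ A⁻¹ e₁ = 0` mean
that the second coordinate of `A⁻¹ e₁` is `0` (`A` invertible), so `A 1 0 = 0`.
PROOF of `p_case`. (1) If `A ∈ N` is upper triangular then `|A 0 0| = 1`: multiply by `expGL (s • kX false)`, `s = - b/a`:
`diag (a, d) ∈ N`; multiply by `expGL (t • kX true)`: `diag (a, d e^t) ∈ N`, `nrm = |a| + |d| e^t`, `t → -∞`: `c ≤ |a|`
(veechZero_bound). Apply this to all powers `A^n`, `n ∈ ℤ` (`(A^n) 0 0 = a^n` for upper triangular matrices):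
`c ≤ |a|^n` for all integers, so `|a| = 1`.
(2) veechPlus_cyclic: `T`, for `A ∈ veechPlus ω` there is `k` with `A * T ^ k ∈ N`, so `|A 0 0| = |T 0 0| ^ (-k)`.
If `|T 0 0| = 1` take `U = Ioi 0`; otherwise `U = {x | 0 < x ∧ |log x| < |log |T 0 0||}`.
-/

open Set Filter Topology

namespace LadderVeech

variable {ω : TranslationStructure Ladder}

private lemma tang_first_col (h1 : kX false ∈ tang (veechZero ω)) (h2 : kX true ∈ tang (veechZero ω))
    {B : Matrix (Fin 2) (Fin 2) ℝ} (hB : B ∈ tang (veechZero ω)) : B 0 0 = 0 ∧ B 1 0 = 0 := by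
  have e0 := tang_det_zero hB
  have e1 := tang_det_zero (tang_add isClosed_veechZero hB h1)
  have e2 := tang_det_zero (tang_add isClosed_veechZero hB h2)
  simp only [kX, Matrix.add_apply, Bool.false_eq_true, if_false, if_true, Matrix.of_apply,
    Matrix.cons_val_zero, Matrix.cons_val_one, add_zero] at e1 e2
  constructor
  · linear_combination e2 - e0
  · linear_combination e0 - e1

theorem upper_of_P (h1 : kX false ∈ tang (veechZero ω)) (h2 : kX true ∈ tang (veechZero ω))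
    {A : GL (Fin 2) ℝ} (hA : A ∈ veechPlus ω) : A 1 0 = 0 := by
  have hn : ∀ A ∈ veechPlus ω, ∀ B ∈ veechZero ω, A * B * A⁻¹ ∈ veechZero ω :=
    fun A hA B hB => veechZero_normal hA hB
  have hB := tang_conj hn h1 hA
  set B : Matrix (Fin 2) (Fin 2) ℝ := (A : Matrix (Fin 2) (Fin 2) ℝ) * kX false *
    ((A⁻¹ : GL (Fin 2) ℝ) : Matrix (Fin 2) (Fin 2) ℝ) with hBd
  obtain ⟨b0, b1⟩ := tang_first_col h1 h2 hB
  have hBA : B * (A : Matrix (Fin 2) (Fin 2) ℝ) = (A : Matrix (Fin 2) (Fin 2) ℝ) * kX false := by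
    rw [hBd, Matrix.mul_assoc]
    have : ((A⁻¹ : GL (Fin 2) ℝ) : Matrix (Fin 2) (Fin 2) ℝ) * (A : Matrix (Fin 2) (Fin 2) ℝ) = 1 := by
      rw [← Units.val_mul, inv_mul_cancel, Units.val_one]
    rw [this, Matrix.mul_one]
  have e1 : (B * (A : Matrix (Fin 2) (Fin 2) ℝ)) 1 0 =
      ((A : Matrix (Fin 2) (Fin 2) ℝ) * kX false) 1 0 := by rw [hBA]
  have e2 : (B * (A : Matrix (Fin 2) (Fin 2) ℝ)) 1 1 =
      ((A : Matrix (Fin 2) (Fin 2) ℝ) * kX false) 1 1 := by rw [hBA]
  simp only [Matrix.mul_apply, Fin.sum_univ_two, kX, Bool.false_eq_true, if_false, Matrix.of_apply,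
    Matrix.cons_val_zero, Matrix.cons_val_one, b1, zero_mul, zero_add, mul_zero, add_zero,
    mul_one] at e1 e2
  have e3 : A 1 0 * A 1 0 = 0 := by
    linear_combination (A 1 1) * e1 - (A 1 0) * e2
  exact mul_self_eq_zero.1 e3

private lemma mul00 (A B : GL (Fin 2) ℝ) (hB : B 1 0 = 0) : (A * B) 0 0 = A 0 0 * B 0 0 := by
  rw [Units.val_mul, Matrix.mul_apply, Fin.sum_univ_two, hB]
  ring

private lemma pow00 {A : GL (Fin 2) ℝ} (hA : A 1 0 = 0) (n : ℕ) : (A ^ n) 0 0 = (A 0 0) ^ n := by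
  induction n with
  | zero => simp
  | succ n ih => rw [pow_succ, mul00 _ _ hA, ih, pow_succ]

private lemma inv00 {A : GL (Fin 2) ℝ} (hA : A 1 0 = 0) : (A⁻¹) 0 0 = (A 0 0)⁻¹ := by
  have h1 := mul00 A⁻¹ A hA
  rw [inv_mul_cancel, Units.val_one, Matrix.one_apply_eq] at h1
  exact eq_inv_of_mul_eq_one_left h1.symm

private lemma zpow00 {G : Subgroup (GL (Fin 2) ℝ)} (hG : ∀ A ∈ G, A 1 0 = 0) {A : GL (Fin 2) ℝ}
    (hA : A ∈ G) (k : ℤ) : (A ^ k) 0 0 = (A 0 0) ^ k := by
  rcases Int.eq_nat_or_neg k with ⟨n, rfl | rfl⟩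
  · rw [zpow_natCast, zpow_natCast, pow00 (hG A hA)]
  · rw [zpow_neg, zpow_natCast, inv00 (hG _ (G.pow_mem hA n)), pow00 (hG A hA), zpow_neg,
      zpow_natCast]

private lemma abs00 (h1 : kX false ∈ tang (veechZero ω)) (h2 : kX true ∈ tang (veechZero ω)) :
    ∃ c > 0, ∀ A ∈ veechZero ω, c ≤ |A 0 0| := by
  obtain ⟨c, hc, hcb⟩ := veechZero_bound ω
  refine ⟨c, hc, fun A hA => ?_⟩
  have hup := upper_of_P h1 h2 (veechZero_le hA)
  have hdet : 0 < A 0 0 * A 1 1 := by
    have h3 := (mem_veechZero.1 hA).1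
    rw [Matrix.det_fin_two, hup] at h3
    linarith
  have hA00 : A 0 0 ≠ 0 := by
    intro h0
    rw [h0, zero_mul] at hdet
    exact lt_irrefl _ hdet
  -- clear the upper right entry, then scale
  have key : ∀ t : ℝ, c ≤ |A 0 0| + |A 1 1| * Real.exp t := by
    intro t
    have hmem : A * expGL ((-(A 0 1) / A 0 0) • kX false) * expGL (t • kX true) ∈ veechZero ω :=
      (veechZero ω).mul_mem ((veechZero ω).mul_mem hA (h1 _)) (h2 _)
    have hb := hcb _ hmem
    obtain ⟨f1, f2, f3, f4⟩ := expGL_kX_entries false (-(A 0 1) / A 0 0)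
    obtain ⟨g1, g2, g3, g4⟩ := expGL_kX_entries true t
    simp only [Bool.false_eq_true, if_false, kch] at f2 f4
    simp only [if_true, kch] at g2 g4
    have hz : A 0 0 * (-(A 0 1) / A 0 0) + A 0 1 = 0 := by
      field_simp
      ring
    refine hb.trans (le_of_eq ?_)
    unfold nrm
    simp only [Units.val_mul, Matrix.mul_apply, Fin.sum_univ_two, f1, f2, f3, f4, g1, g2, g3, g4,
      hup, mul_zero, mul_one, zero_mul, add_zero, zero_add, hz, abs_zero]
    rw [abs_mul, abs_of_pos (Real.exp_pos t)]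
  by_contra hcon
  push Not at hcon
  have hlim : Tendsto (fun t : ℝ => |A 0 0| + |A 1 1| * Real.exp t) atBot
      (𝓝 (|A 0 0| + |A 1 1| * 0)) :=
    tendsto_const_nhds.add (tendsto_const_nhds.mul Real.tendsto_exp_atBot)
  rw [mul_zero, add_zero] at hlim
  exact absurd (ge_of_tendsto hlim (Eventually.of_forall key)) (not_le.2 hcon)

private lemma abs00_eq (h1 : kX false ∈ tang (veechZero ω)) (h2 : kX true ∈ tang (veechZero ω))
    {A : GL (Fin 2) ℝ} (hA : A ∈ veechZero ω) : |A 0 0| = 1 := by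
  obtain ⟨c, hc, hcb⟩ := abs00 h1 h2
  -- all elements have first entry of absolute value at least one
  have key : ∀ B ∈ veechZero ω, 1 ≤ |B 0 0| := by
    intro B hB
    by_contra hcon
    push Not at hcon
    have hup := upper_of_P h1 h2 (veechZero_le hB)
    have hpow : ∀ n : ℕ, c ≤ |B 0 0| ^ n := by
      intro n
      have := hcb _ ((veechZero ω).pow_mem hB n)
      rwa [pow00 hup, abs_pow] at this
    have hlim := tendsto_pow_atTop_nhds_zero_of_lt_one (abs_nonneg (B 0 0)) hcon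
    exact absurd (ge_of_tendsto hlim (Eventually.of_forall hpow)) (not_le.2 hc)
  have k1 := key A hA
  have k2 := key _ ((veechZero ω).inv_mem hA)
  rw [inv00 (upper_of_P h1 h2 (veechZero_le hA)), abs_inv] at k2
  have hpos : 0 < |A 0 0| := by linarith
  have k3 : |A 0 0| ≤ 1 := (one_le_inv₀ hpos).1 k2
  exact le_antisymm k3 k1

theorem p_case (h1 : kX false ∈ tang (veechZero ω)) (h2 : kX true ∈ tang (veechZero ω)) :
    ∃ U ∈ 𝓝 (1 : ℝ), ∀ A ∈ veechPlus ω, A 0 0 ∈ U → A 0 0 = 1 := by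
  obtain ⟨T, hT, hcyc⟩ := veechPlus_cyclic (ω := ω)
  have hup : ∀ A ∈ veechPlus ω, A 1 0 = 0 := fun A hA => upper_of_P h1 h2 hA
  have hne : ∀ A ∈ veechPlus ω, A 0 0 ≠ 0 := by
    intro A hA h0
    have h3 := (mem_veechPlus.1 hA).1
    rw [Matrix.det_fin_two, hup A hA, h0] at h3
    simp at h3
  have hrel : ∀ A ∈ veechPlus ω, ∃ k : ℤ, |A 0 0| * |T 0 0| ^ k = 1 := by
    intro A hA
    obtain ⟨k, hk⟩ := hcyc A hA
    refine ⟨k, ?_⟩
    have h3 := abs00_eq h1 h2 hk
    rwa [mul00 _ _ (hup _ ((veechPlus ω).zpow_mem hT k)), zpow00 hup hT, abs_mul, abs_zpow] at h3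
  have hTne := hne T hT
  have hTpos : 0 < |T 0 0| := abs_pos.2 hTne
  generalize |T 0 0| = L at hrel hTpos
  by_cases hT1 : L = 1
  · refine ⟨Ioi 0, Ioi_mem_nhds one_pos, fun A hA hAU => ?_⟩
    obtain ⟨k, hk⟩ := hrel A hA
    rw [hT1, one_zpow, mul_one, abs_of_pos hAU] at hk
    exact hk
  · have hlog : Real.log L ≠ 0 := by
      intro h0
      exact hT1 (Real.eq_one_of_pos_of_log_eq_zero hTpos h0)
    refine ⟨{x | 0 < x ∧ |Real.log x| < |Real.log L|}, ?_, fun A hA hAU => ?_⟩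
    · have e1 : ∀ᶠ x : ℝ in 𝓝 1, 0 < x := Ioi_mem_nhds one_pos
      have e2 : Tendsto (fun x : ℝ => |Real.log x|) (𝓝 1) (𝓝 |Real.log 1|) :=
        (Real.continuousAt_log one_ne_zero).abs
      rw [Real.log_one, abs_zero] at e2
      exact e1.and (e2.eventually_lt_const (abs_pos.2 hlog))
    · obtain ⟨hA0, hAl⟩ := hAU
      obtain ⟨k, hk⟩ := hrel A hA
      rw [abs_of_pos hA0] at hk
      have hk' : Real.log (A 0 0) + k * Real.log L = 0 := by
        have := congrArg Real.log hk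
        rwa [Real.log_mul hA0.ne' (zpow_pos hTpos k).ne', Real.log_zpow, Real.log_one] at this
      have hk0 : k = 0 := by
        by_contra hkne
        have e3 : (1 : ℝ) ≤ |(k : ℝ)| := by
          exact_mod_cast Int.one_le_abs hkne
        have e4 : Real.log (A 0 0) = -(k * Real.log L) := by linarith
        rw [e4, abs_neg, abs_mul] at hAl
        have e5 := abs_pos.2 hlog
        nlinarith
      rw [hk0, Int.cast_zero, zero_mul, add_zero] at hk'
      exact Real.eq_one_of_pos_of_log_eq_zero hA0 hk'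

end LadderVeech
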