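import Pool.Agent.LadderVeech.LV27
import Pool.Agent.LadderVeech.LV28
import Pool.Agent.LadderVeech.LV14

/-!
LV29. The case `U`: the entries `A 0 0` form a discrete set.

PROOF. `exists_shear_flow` (LV09): `h, F`. `exists_stretched` (LV27): `ω', k, ...`. `p_case` for `ω'` gives `U`.
Let `A ∈ veechPlus ω`, `A 1 0 = 0` (`hup`), `A 0 0 ∈ U`. `A' = A * expGL (s • kX false)`, `s = - A 0 1 / A 0 0`, is
diagonal, in veechPlus ω (veechZero_le), `A' 0 0 = A 0 0`. mem_veechPlus: `f` affine, in endFix; `normal_false` (LV14):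
`h ∘ f = A' 1 1 * h`; so `f` is affine for `ω'` and `A' ∈ veechPlus ω'` (mem_veechPlus: same determinant, same endFix).
-/

open Set Filter Topology

namespace LadderVeech

variable {ω : TranslationStructure Ladder}

theorem u_case_disc (h1 : kX false ∈ tang (veechZero ω)) (hup : ∀ A ∈ veechPlus ω, A 1 0 = 0) :
    ∃ U ∈ 𝓝 (1 : ℝ), ∀ A ∈ veechPlus ω, A 0 0 ∈ U → A 0 0 = 1 := by
  obtain ⟨h, hh, ⟨F⟩⟩ := exists_shear_flow h1
  obtain ⟨ω', k, σ, -, -, -, h1', h2', haff, -⟩ := exists_stretched hh F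
  obtain ⟨U, hU, hU'⟩ := p_case h1' h2'
  refine ⟨U, hU, fun A hA hAU => ?_⟩
  have hA10 : A 1 0 = 0 := hup A hA
  have hdet := (mem_veechPlus.1 hA).1
  rw [Matrix.det_fin_two] at hdet
  have hA00 : A 0 0 ≠ 0 := by
    intro h0
    rw [h0, hA10] at hdet
    simp at hdet
  set B : GL (Fin 2) ℝ := A * expGL ((-(A 0 1) / A 0 0) • kX false) with hB
  have hBmem : B ∈ veechPlus ω := (veechPlus ω).mul_mem hA (veechZero_le (h1 _))
  obtain ⟨e1, e2, e3, e4⟩ := expGL_kX_entries false (-(A 0 1) / A 0 0)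
  have b00 : B 0 0 = A 0 0 := by
    rw [hB, Units.val_mul, Matrix.mul_apply, Fin.sum_univ_two, e1, e3]
    ring
  have b01 : B 0 1 = 0 := by
    rw [hB, Units.val_mul, Matrix.mul_apply, Fin.sum_univ_two, e2, e4]
    simp only [kch, Bool.false_eq_true, if_false]
    field_simp
    ring
  have b10 : B 1 0 = 0 := by
    rw [hB, Units.val_mul, Matrix.mul_apply, Fin.sum_univ_two, e1, e3, hA10]
    ring
  obtain ⟨hBdet, f, hf, hfe⟩ := mem_veechPlus.1 hBmem
  have hf' : IsAffine ω' f B :=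
    (haff f B hf ⟨b01, b10⟩ (normal_false hh F hf hfe ⟨b01, b10⟩)).1
  have hB' : B ∈ veechPlus ω' := mem_veechPlus.2 ⟨hBdet, f, hf', hfe⟩
  rw [← b00]
  exact hU' B hB' (by rwa [b00])

end LadderVeech
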