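import Pool.Agent.LadderVeech.Lie

open Set Filter Topology NormedSpace
open scoped Matrix.Norms.Operator commutatorElement

namespace LadderVeech

/-- second order recursions with both roots in the unit disc -/
lemma recursion_tendsto {t d : ℝ} (hd0 : 0 < d) (hd1 : d < 1) (ht : |t| < 1 + d) {x : ℕ → ℝ}
    (hx : ∀ n, x (n + 2) = t * x (n + 1) - d * x n) : Tendsto x atTop (𝓝 0) := by
  rw [abs_lt] at ht
  rcases lt_or_ge (t ^ 2) (4 * d) with h | h
  · -- complex roots
    have hV : ∀ n, x (n + 1) ^ 2 - t * x (n + 1) * x n + d * x n ^ 2 =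
        d ^ n * (x 1 ^ 2 - t * x 1 * x 0 + d * x 0 ^ 2) := by
      intro n
      induction n with
      | zero => simp
      | succ n ih =>
        have e : d ^ (n + 1) * (x 1 ^ 2 - t * x 1 * x 0 + d * x 0 ^ 2) =
          d * (d ^ n * (x 1 ^ 2 - t * x 1 * x 0 + d * x 0 ^ 2)) := by ring
        rw [e, ← ih, hx n]
        ring
    set V := x 1 ^ 2 - t * x 1 * x 0 + d * x 0 ^ 2 with hVdef
    set κ := d - t ^ 2 / 4 with hκ
    have hκ0 : 0 < κ := by rw [hκ]; linarith
    have hb : ∀ n, x n ^ 2 ≤ d ^ n * (V / κ) := by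
      intro n
      have h1 : κ * x n ^ 2 ≤ d ^ n * V := by
        rw [← hV n]
        have : x (n + 1) ^ 2 - t * x (n + 1) * x n + d * x n ^ 2 =
          (x (n + 1) - t / 2 * x n) ^ 2 + κ * x n ^ 2 := by rw [hκ]; ring
        rw [this]
        nlinarith [sq_nonneg (x (n + 1) - t / 2 * x n)]
      rw [← mul_div_assoc, le_div_iff₀ hκ0]
      linarith
    have hsq : Tendsto (fun n => x n ^ 2) atTop (𝓝 0) := by
      have h2 : Tendsto (fun n : ℕ => d ^ n * (V / κ)) atTop (𝓝 0) := by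
        have := (tendsto_pow_atTop_nhds_zero_of_lt_one hd0.le hd1).mul_const (V / κ)
        rwa [zero_mul] at this
      exact squeeze_zero (fun n => sq_nonneg _) hb h2
    have h3 := hsq.sqrt
    simp only [Real.sqrt_sq_eq_abs, Real.sqrt_zero] at h3
    exact (tendsto_zero_iff_abs_tendsto_zero _).2 h3
  · -- real roots
    set s := Real.sqrt (t ^ 2 - 4 * d) with hs
    have hs2 : s ^ 2 = t ^ 2 - 4 * d := Real.sq_sqrt (by linarith)
    set α := (t + s) / 2 with hα
    set β := (t - s) / 2 with hβ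
    have hab : α + β = t := by rw [hα, hβ]; ring
    have hab2 : α * β = d := by rw [hα, hβ]; nlinarith
    have h1 : 0 < (1 - α) * (1 - β) := by nlinarith
    have h2 : 0 < (1 + α) * (1 + β) := by nlinarith
    have hα1 : α < 1 := by
      by_contra hcon
      push Not at hcon
      have : 1 - β < 0 := by
        by_contra h3
        push Not at h3
        nlinarith
      nlinarith
    have hβ1 : β < 1 := by
      by_contra hcon
      push Not at hcon
      nlinarith
    have hβ2 : -1 < β := by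
      by_contra hcon
      push Not at hcon
      have : 1 + α < 0 := by
        by_contra h3
        push Not at h3
        nlinarith
      nlinarith
    have hα2 : -1 < α := by
      by_contra hcon
      push Not at hcon
      nlinarith
    set r := max |α| |β| with hr
    have hr1 : r < 1 := by
      rw [hr, max_lt_iff, abs_lt, abs_lt]
      exact ⟨⟨hα2, hα1⟩, ⟨hβ2, hβ1⟩⟩
    have hr0 : 0 ≤ r := le_max_of_le_left (abs_nonneg _)
    set y₀ := x 1 - α * x 0
    have hy : ∀ n, x (n + 1) - α * x n = β ^ n * y₀ := by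
      intro n
      induction n with
      | zero => simp [y₀]
      | succ n ih =>
        have e : β ^ (n + 1) * y₀ = β * (β ^ n * y₀) := by ring
        rw [e, ← ih, hx n, ← hab, ← hab2]
        ring
    set ρ := (1 + r) / 2 with hρ
    have hρ1 : ρ < 1 := by rw [hρ]; linarith
    have hρr : r < ρ := by rw [hρ]; linarith
    have hρ0 : 0 < ρ := by linarith
    set C := |x 0| + |y₀| / (ρ - r) with hC
    have hb : ∀ n, |x n| ≤ C * ρ ^ n := by
      intro n
      induction n with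
      | zero =>
        rw [pow_zero, mul_one, hC]
        have : 0 ≤ |y₀| / (ρ - r) := div_nonneg (abs_nonneg _) (by linarith)
        linarith
      | succ n ih =>
        have e1 : x (n + 1) = α * x n + β ^ n * y₀ := by linarith [hy n]
        have e2 : |x (n + 1)| ≤ r * (C * ρ ^ n) + ρ ^ n * |y₀| := by
          rw [e1]
          refine (abs_add_le _ _).trans ?_
          rw [abs_mul, abs_mul, abs_pow]
          have h3 : |α| ≤ r := le_max_left _ _
          have h4 : |β| ≤ ρ := (le_max_right _ _).trans hρr.le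
          gcongr
        have e3 : |y₀| ≤ (ρ - r) * C := by
          have h5 : |y₀| / (ρ - r) ≤ C := by rw [hC]; linarith [abs_nonneg (x 0)]
          rw [div_le_iff₀ (by linarith)] at h5
          linarith
        have e4 : 0 < ρ ^ n := by positivity
        calc |x (n + 1)| ≤ r * (C * ρ ^ n) + ρ ^ n * |y₀| := e2
          _ ≤ r * (C * ρ ^ n) + ρ ^ n * ((ρ - r) * C) := by gcongr
          _ = C * ρ ^ (n + 1) := by ring
    rw [tendsto_zero_iff_abs_tendsto_zero]
    have h3 : Tendsto (fun n : ℕ => C * ρ ^ n) atTop (𝓝 0) := by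
      have := (tendsto_pow_atTop_nhds_zero_of_lt_one hρ0.le hρ1).const_mul C
      rwa [mul_zero] at this
    exact squeeze_zero (fun n => abs_nonneg _) hb h3

lemma det_entries (A : GL (Fin 2) ℝ) :
    Matrix.det (A : Matrix (Fin 2) (Fin 2) ℝ) = A 0 0 * A 1 1 - A 0 1 * A 1 0 :=
  Matrix.det_fin_two _

lemma pow_entries_tendsto {A : GL (Fin 2) ℝ}
    (hd0 : 0 < A 0 0 * A 1 1 - A 0 1 * A 1 0) (hd1 : A 0 0 * A 1 1 - A 0 1 * A 1 0 < 1)
    (ht : |A 0 0 + A 1 1| < 1 + (A 0 0 * A 1 1 - A 0 1 * A 1 0)) (i j : Fin 2) :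
    Tendsto (fun n : ℕ => (A ^ n) i j) atTop (𝓝 0) := by
  refine recursion_tendsto hd0 hd1 ht (fun n => ?_)
  have e2 : A ^ (n + 2) = A * (A * A ^ n) := by rw [pow_succ', pow_succ']
  have e1 : A ^ (n + 1) = A * A ^ n := by rw [pow_succ']
  rw [e2, e1, mul_entry A (A * A ^ n), mul_entry, mul_entry, mul_entry]
  fin_cases i
  · simp only [Fin.zero_eta, Fin.isValue]; ring
  · simp only [Fin.mk_one, Fin.isValue]; ring

lemma not_contracting {N : Subgroup (GL (Fin 2) ℝ)} (hc : ∃ c > 0, ∀ A ∈ N, c ≤ nrm A)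
    {A : GL (Fin 2) ℝ} (hA : A ∈ N)
    (hd0 : 0 < A 0 0 * A 1 1 - A 0 1 * A 1 0) (hd1 : A 0 0 * A 1 1 - A 0 1 * A 1 0 < 1)
    (ht : |A 0 0 + A 1 1| < 1 + (A 0 0 * A 1 1 - A 0 1 * A 1 0)) : False := by
  obtain ⟨c, hc0, hc⟩ := hc
  have h := pow_entries_tendsto hd0 hd1 ht
  have h2 : Tendsto (fun n : ℕ => nrm (A ^ n)) atTop (𝓝 0) := by
    have h3 := (((h 0 0).abs.add (h 0 1).abs).add (h 1 0).abs).add (h 1 1).abs
    simp only [abs_zero, add_zero] at h3
    exact h3
  obtain ⟨n, hn⟩ := (h2.eventually_lt_const hc0).exists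
  have := hc _ (N.pow_mem hA n)
  linarith

lemma tang_det_tr {N : Subgroup (GL (Fin 2) ℝ)} (hc : ∃ c > 0, ∀ A ∈ N, c ≤ nrm A)
    {B : Matrix (Fin 2) (Fin 2) ℝ} (hB : B ∈ tang N)
    (hdet : 0 < B 0 0 * B 1 1 - B 0 1 * B 1 0) : B 0 0 + B 1 1 = 0 := by
  have key : ∀ B ∈ tang N, 0 < B 0 0 * B 1 1 - B 0 1 * B 1 0 → ¬ B 0 0 + B 1 1 < 0 := by
    intro B hB hdet htr
    have h1 := tendsto_expGL_sub B
    set M : ℝ → Matrix (Fin 2) (Fin 2) ℝ :=
      fun s => s⁻¹ • ((expGL (s • B) : Matrix (Fin 2) (Fin 2) ℝ) - 1) with hM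
    have hent : ∀ i j, Tendsto (fun s => M s i j) (𝓝[>] 0) (𝓝 (B i j)) := by
      intro i j
      have hcont : Continuous fun X : Matrix (Fin 2) (Fin 2) ℝ => X i j :=
        continuous_id.matrix_elem i j
      exact (hcont.tendsto B).comp h1
    have hid : Tendsto (fun s : ℝ => s) (𝓝[>] 0) (𝓝 0) :=
      tendsto_nhdsWithin_of_tendsto_nhds tendsto_id
    have e1 : ∀ᶠ s in 𝓝[>] (0 : ℝ), 0 < M s 0 0 * M s 1 1 - M s 0 1 * M s 1 0 :=
      (((hent 0 0).mul (hent 1 1)).sub ((hent 0 1).mul (hent 1 0))).eventually_const_lt hdet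
    have e2 : ∀ᶠ s in 𝓝[>] (0 : ℝ),
        (M s 0 0 + M s 1 1) + s * (M s 0 0 * M s 1 1 - M s 0 1 * M s 1 0) < 0 := by
      have := (((hent 0 0).add (hent 1 1)).add
        (hid.mul (((hent 0 0).mul (hent 1 1)).sub ((hent 0 1).mul (hent 1 0)))))
      rw [zero_mul, add_zero] at this
      exact this.eventually_lt_const htr
    have e3 : ∀ᶠ s in 𝓝[>] (0 : ℝ), 0 < 2 + s * (M s 0 0 + M s 1 1) := by
      have := (tendsto_const_nhds (x := (2 : ℝ)) (f := 𝓝[>] (0 : ℝ))).add
        (hid.mul ((hent 0 0).add (hent 1 1)))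
      rw [zero_mul, add_zero] at this
      exact this.eventually_const_lt (by norm_num)
    have e4 : ∀ᶠ s in 𝓝[>] (0 : ℝ), 0 < 1 + s * (M s 0 0 + M s 1 1) +
        s ^ 2 * (M s 0 0 * M s 1 1 - M s 0 1 * M s 1 0) := by
      have := ((tendsto_const_nhds (x := (1 : ℝ)) (f := 𝓝[>] (0 : ℝ))).add
        (hid.mul ((hent 0 0).add (hent 1 1)))).add ((hid.pow 2).mul
          (((hent 0 0).mul (hent 1 1)).sub ((hent 0 1).mul (hent 1 0))))
      rw [zero_mul, add_zero, zero_pow (by norm_num), zero_mul, add_zero] at this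
      exact this.eventually_const_lt (by norm_num)
    obtain ⟨s, hs1, hs2, hs3, hs4, hs0⟩ :=
      (e1.and (e2.and (e3.and (e4.and self_mem_nhdsWithin)))).exists
    have hs0' : (0 : ℝ) < s := hs0
    have hE : ∀ i j, expGL (s • B) i j = (1 : Matrix (Fin 2) (Fin 2) ℝ) i j + s * M s i j := by
      intro i j
      simp only [hM, Matrix.smul_apply, Matrix.sub_apply, smul_eq_mul]
      rw [← mul_assoc, mul_inv_cancel₀ hs0'.ne', one_mul]
      ring
    have h00 := hE 0 0
    have h01 := hE 0 1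
    have h10 := hE 1 0
    have h11 := hE 1 1
    simp only [Matrix.one_apply_eq, ne_eq, one_ne_zero, not_false_eq_true, Matrix.one_apply_ne,
      zero_ne_one, zero_add] at h00 h01 h10 h11
    set m00 := M s 0 0
    set m01 := M s 0 1
    set m10 := M s 1 0
    set m11 := M s 1 1
    have hdetE : expGL (s • B) 0 0 * expGL (s • B) 1 1 - expGL (s • B) 0 1 * expGL (s • B) 1 0 =
        1 + s * (m00 + m11) + s ^ 2 * (m00 * m11 - m01 * m10) := by
      rw [h00, h01, h10, h11]; ring
    refine not_contracting hc (hB s) ?_ ?_ ?_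
    · rw [hdetE]; exact hs4
    · rw [hdetE]
      have : s * (m00 + m11 + s * (m00 * m11 - m01 * m10)) < 0 := mul_neg_of_pos_of_neg hs0' hs2
      nlinarith
    · rw [hdetE, h00, h11, abs_of_pos (by linarith)]
      have : 0 < s ^ 2 * (m00 * m11 - m01 * m10) := by positivity
      linarith
  rcases lt_trichotomy (B 0 0 + B 1 1) 0 with h | h | h
  · exact (key B hB hdet h).elim
  · exact h
  · exfalso
    have hB' : -B ∈ tang N := by
      have := tang_smul hB (-1)
      rwa [neg_smul, one_smul] at this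
    refine key (-B) hB' ?_ ?_
    · simp only [Matrix.neg_apply]
      linarith
    · simp only [Matrix.neg_apply]
      linarith

/-- two unimodular matrices fixing the same nonzero vector commute -/
lemma commute_of_fix {U V : GL (Fin 2) ℝ} {v : ℂ} (hv : v ≠ 0) (hU : act U v = v)
    (hV : act V v = v) (hU1 : U 0 0 * U 1 1 - U 0 1 * U 1 0 = 1)
    (hV1 : V 0 0 * V 1 1 - V 0 1 * V 1 0 = 1) : U * V = V * U := by
  have key : ∀ W : GL (Fin 2) ℝ, act W v = v → W 0 0 * W 1 1 - W 0 1 * W 1 0 = 1 →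
      ∃ m : ℝ, W 0 0 = 1 + m ∧ W 1 1 = 1 - m ∧ m * v.re + W 0 1 * v.im = 0 ∧
        W 1 0 * v.re - m * v.im = 0 := by
    intro W hW hW1
    have e1 := congrArg Complex.re hW
    have e2 := congrArg Complex.im hW
    simp only [act] at e1 e2
    have htr : W 0 0 + W 1 1 = 2 := by
      have h1 : (W 0 0 + W 1 1 - 2) * v.re = 0 := by
        linear_combination (1 - W 1 1) * e1 + W 0 1 * e2 + v.re * hW1
      have h2 : (W 0 0 + W 1 1 - 2) * v.im = 0 := by
        linear_combination (1 - W 0 0) * e2 + W 1 0 * e1 + v.im * hW1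
      rcases mul_eq_zero.1 h1 with h | h
      · linarith
      · rcases mul_eq_zero.1 h2 with h' | h'
        · linarith
        · exact absurd (Complex.ext h h') hv
    refine ⟨W 0 0 - 1, by ring, by linarith, by linarith, ?_⟩
    have : W 0 0 = 2 - W 1 1 := by linarith
    rw [this]
    linarith
  obtain ⟨m, a1, a2, a3, a4⟩ := key U hU hU1
  obtain ⟨m', b1, b2, b3, b4⟩ := key V hV hV1
  rw [commute_entries]
  rw [a1, a2, b1, b2]
  by_cases hx : v.re = 0
  · have hy : v.im ≠ 0 := fun h => hv (Complex.ext hx h)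
    rw [hx, mul_zero, zero_add] at a3 b3
    rw [hx, mul_zero, zero_sub, neg_eq_zero] at a4 b4
    have c1 : U 0 1 = 0 := (mul_eq_zero.1 a3).resolve_right hy
    have c2 : V 0 1 = 0 := (mul_eq_zero.1 b3).resolve_right hy
    have c3 : m = 0 := (mul_eq_zero.1 a4).resolve_right hy
    have c4 : m' = 0 := (mul_eq_zero.1 b4).resolve_right hy
    rw [c1, c2, c3, c4]
    refine ⟨?_, ?_, ?_⟩ <;> ring
  · refine ⟨?_, ?_, ?_⟩
    · apply mul_left_cancel₀ hx
      apply mul_left_cancel₀ hx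
      linear_combination U 0 1 * v.re * b4 + U 0 1 * v.im * b3
        - V 0 1 * v.re * a4 - V 0 1 * v.im * a3
    · apply mul_left_cancel₀ hx
      linear_combination 2 * U 0 1 * b3 - 2 * V 0 1 * a3
    · apply mul_left_cancel₀ hx
      linear_combination 2 * m' * a4 - 2 * m * b4

lemma det_one_of_commutator (A B : GL (Fin 2) ℝ) :
    ⁅A, B⁆ 0 0 * ⁅A, B⁆ 1 1 - ⁅A, B⁆ 0 1 * ⁅A, B⁆ 1 0 = 1 := by
  rw [← det_entries]
  have h : Matrix.GeneralLinearGroup.det ⁅A, B⁆ = 1 := by
    rw [map_commutatorElement, commutatorElement_eq_one_iff_mul_comm]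
    exact mul_comm _ _
  rw [← Matrix.GeneralLinearGroup.val_det_apply, h, Units.val_one]

/-- groups preserving a line are metabelian -/
lemma metabelian_of_line {G₁ : Subgroup (GL (Fin 2) ℝ)} {v : ℂ} (hv : v ≠ 0)
    (h : ∀ A ∈ G₁, ∃ χ : ℝ, χ ≠ 0 ∧ act A v = χ * v) :
    ∀ A ∈ G₁, ∀ B ∈ G₁, ∀ C ∈ G₁, ∀ D ∈ G₁, ⁅⁅A, B⁆, ⁅C, D⁆⁆ = 1 := by
  have key : ∀ A ∈ G₁, ∀ B ∈ G₁, act ⁅A, B⁆ v = v := by
    intro A hA B hB
    obtain ⟨a, ha, hav⟩ := h A hA
    obtain ⟨b, hb, hbv⟩ := h B hB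
    have ha' : act A⁻¹ v = ((a⁻¹ : ℝ) : ℂ) * v := by
      have h1 : act A⁻¹ (act A v) = v := act_inv_act A v
      rw [hav, act_real_mul] at h1
      have hac : (a : ℂ) ≠ 0 := by exact_mod_cast ha
      calc act A⁻¹ v = (a : ℂ)⁻¹ * (a * act A⁻¹ v) := by
            rw [← mul_assoc, inv_mul_cancel₀ hac, one_mul]
        _ = _ := by rw [h1]; push_cast; rfl
    have hb' : act B⁻¹ v = ((b⁻¹ : ℝ) : ℂ) * v := by
      have h1 : act B⁻¹ (act B v) = v := act_inv_act B v
      rw [hbv, act_real_mul] at h1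
      have hbc : (b : ℂ) ≠ 0 := by exact_mod_cast hb
      calc act B⁻¹ v = (b : ℂ)⁻¹ * (b * act B⁻¹ v) := by
            rw [← mul_assoc, inv_mul_cancel₀ hbc, one_mul]
        _ = _ := by rw [h1]; push_cast; rfl
    rw [commutatorElement_def, act_mul, hb', act_real_mul, act_mul, ha', act_real_mul, act_mul,
      hbv, act_real_mul, hav]
    have hac : (a : ℂ) ≠ 0 := by exact_mod_cast ha
    have hbc : (b : ℂ) ≠ 0 := by exact_mod_cast hb
    push_cast
    field_simp
  intro A hA B hB C hC D hD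
  rw [commutatorElement_eq_one_iff_mul_comm]
  exact commute_of_fix hv (key A hA B hB) (key C hC D hD) (det_one_of_commutator A B)
    (det_one_of_commutator C D)

/-- `det` is negative definite on the orthogonal complement of an elliptic matrix -/
lemma rev_cs {a b c a' b' c' : ℝ} (hdet : 0 < -a ^ 2 - b * c)
    (horth : 2 * a * a' + b * c' + c * b' = 0) (h : 0 ≤ -a' ^ 2 - b' * c') :
    a' = 0 ∧ b' = 0 ∧ c' = 0 := by
  have hb : b ≠ 0 := by
    rintro rfl
    nlinarith [sq_nonneg a]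
  have e : b ^ 2 * (a' ^ 2 + b' * c') = (b * a' - a * b') ^ 2 + (-a ^ 2 - b * c) * b' ^ 2 := by
    linear_combination b * b' * horth
  have h1 : b ^ 2 * (a' ^ 2 + b' * c') ≤ 0 := by
    have : 0 < b ^ 2 := by positivity
    nlinarith
  have h2 : (b * a' - a * b') ^ 2 = 0 ∧ (-a ^ 2 - b * c) * b' ^ 2 = 0 := by
    constructor <;> nlinarith [sq_nonneg (b * a' - a * b'), mul_nonneg hdet.le (sq_nonneg b')]
  have hb' : b' = 0 := by
    rcases mul_eq_zero.1 h2.2 with h | h
    · linarith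
    · exact pow_eq_zero_iff (two_ne_zero) |>.1 h
  have ha' : a' = 0 := by
    have h3 := pow_eq_zero_iff (two_ne_zero) |>.1 h2.1
    rw [hb', mul_zero, sub_zero] at h3
    exact (mul_eq_zero.1 h3).resolve_left hb
  refine ⟨ha', hb', ?_⟩
  rw [ha', hb', mul_zero, zero_add, mul_zero, add_zero] at horth
  exact (mul_eq_zero.1 horth).resolve_left hb

/-- the elliptic case -/
lemma commutative_of_elliptic {G₁ N : Subgroup (GL (Fin 2) ℝ)}
    (hn : ∀ A ∈ G₁, ∀ B ∈ N, A * B * A⁻¹ ∈ N) (hN : IsClosed (N : Set (GL (Fin 2) ℝ)))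
    (hG₁ : ∀ A ∈ G₁, 0 < A 0 0 * A 1 1 - A 0 1 * A 1 0)
    (hc : ∃ c > 0, ∀ A ∈ N, c ≤ nrm A)
    (hyp : ∀ B ∈ tang N, 0 ≤ B 0 0 * B 1 1 - B 0 1 * B 1 0)
    {B : Matrix (Fin 2) (Fin 2) ℝ} (hB : B ∈ tang N)
    (hdet : 0 < B 0 0 * B 1 1 - B 0 1 * B 1 0) :
    ∀ g ∈ G₁, ∀ h ∈ G₁, g * h = h * g := by
  have htr := tang_det_tr hc hB hdet
  set a := B 0 0 with ha
  set b := B 0 1 with hb
  set c := B 1 0 with hcdef
  have hB11 : B 1 1 = -a := by linarith
  have hdet' : 0 < -a ^ 2 - b * c := by rw [hB11] at hdet; linarith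
  have hb0 : b ≠ 0 := by
    intro h
    rw [h] at hdet'
    nlinarith [sq_nonneg a]
  -- every tangent vector is a multiple of `B`
  have hmult : ∀ C ∈ tang N, ∃ κ : ℝ, C 0 0 = κ * a ∧ C 0 1 = κ * b ∧ C 1 0 = κ * c ∧
      C 1 1 = κ * (-a) := by
    intro C hC
    have htrC : C 0 0 + C 1 1 = 0 := by
      -- `B + s C` has positive determinant for small `s`
      have hcont : Continuous fun s : ℝ => (a + s * C 0 0) * (-a + s * C 1 1) -
          (b + s * C 0 1) * (c + s * C 1 0) := by fun_prop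
      have h1 : ∀ᶠ s in 𝓝 (0 : ℝ), 0 < (a + s * C 0 0) * (-a + s * C 1 1) -
          (b + s * C 0 1) * (c + s * C 1 0) := by
        refine (hcont.tendsto 0).eventually_const_lt ?_
        simp only [zero_mul, add_zero]
        linarith
      have h2 : ∀ᶠ s in 𝓝[>] (0 : ℝ), 0 < (a + s * C 0 0) * (-a + s * C 1 1) -
          (b + s * C 0 1) * (c + s * C 1 0) := nhdsWithin_le_nhds h1
      obtain ⟨s, hs1, hs2⟩ := (h2.and self_mem_nhdsWithin).exists
      have hs2' : (0 : ℝ) < s := hs2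
      have h3 := tang_add hN hB (tang_smul hC s)
      have h4 := tang_det_tr hc h3 (by
        simp only [Matrix.add_apply, Matrix.smul_apply, smul_eq_mul]
        rw [← ha, ← hb, ← hcdef, hB11]
        exact hs1)
      simp only [Matrix.add_apply, Matrix.smul_apply, smul_eq_mul] at h4
      rw [← ha, hB11] at h4
      have h5 : s * (C 0 0 + C 1 1) = 0 := by linarith
      exact (mul_eq_zero.1 h5).resolve_left hs2'.ne'
    set κ := -(2 * a * C 0 0 + b * C 1 0 + c * C 0 1) / (2 * (-a ^ 2 - b * c)) with hκ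
    have hδ : 2 * (-a ^ 2 - b * c) ≠ 0 := by linarith
    have hκ' : κ * (2 * (-a ^ 2 - b * c)) = -(2 * a * C 0 0 + b * C 1 0 + c * C 0 1) := by
      rw [hκ]; field_simp
    have h3 := tang_add hN hC (tang_smul hB (-κ))
    have h4 := hyp _ h3
    simp only [Matrix.add_apply, Matrix.smul_apply, smul_eq_mul] at h4
    rw [← ha, ← hb, ← hcdef, hB11] at h4
    have h5 := rev_cs hdet' (a' := C 0 0 - κ * a) (b' := C 0 1 - κ * b) (c' := C 1 0 - κ * c)
      (by linear_combination hκ') (by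
        have : C 1 1 = -C 0 0 := by linarith
        rw [this] at h4
        linarith)
    refine ⟨κ, by linarith [h5.1], by linarith [h5.2.1], by linarith [h5.2.2], ?_⟩
    linarith [h5.1]
  -- elements of `G₁` commute with `B`
  have hcomm : ∀ g ∈ G₁, g 0 1 * c = b * g 1 0 ∧ g 0 1 * (2 * a) = b * (g 0 0 - g 1 1) := by
    intro g hg
    obtain ⟨κ, k1, k2, k3, k4⟩ := hmult _ (tang_conj hn hB hg)
    set gi := ((g⁻¹ : GL (Fin 2) ℝ) : Matrix (Fin 2) (Fin 2) ℝ) with hgi
    have hgB : ∀ i j, ((g : Matrix (Fin 2) (Fin 2) ℝ) * B) i j =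
        (((g : Matrix (Fin 2) (Fin 2) ℝ) * B * gi) * (g : Matrix (Fin 2) (Fin 2) ℝ)) i j := by
      intro i j
      rw [Matrix.mul_assoc ((g : Matrix (Fin 2) (Fin 2) ℝ) * B), hgi, ← Units.val_mul,
        inv_mul_cancel, Units.val_one, Matrix.mul_one]
    have e00 := hgB 0 0
    have e01 := hgB 0 1
    have e10 := hgB 1 0
    have e11 := hgB 1 1
    rw [Matrix.mul_apply, Matrix.mul_apply] at e00 e01 e10 e11
    simp only [Fin.sum_univ_two] at e00 e01 e10 e11
    rw [k1, k2] at e00 e01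
    rw [k3, k4] at e10 e11
    rw [← ha, ← hcdef] at e00 e10
    rw [← hb, hB11] at e01 e11
    have hgdet := hG₁ g hg
    set p := g 0 0
    set q := g 0 1
    set r := g 1 0
    set s := g 1 1
    -- `κ ^ 2 = 1`
    have hκ2 : κ ^ 2 = 1 := by
      have h1 : (p * s - q * r) * (-a ^ 2 - b * c) = κ ^ 2 * ((p * s - q * r) * (-a ^ 2 - b * c)) := by
        calc (p * s - q * r) * (-a ^ 2 - b * c) =
          (p * a + q * c) * (r * b + s * -a) - (p * b + q * -a) * (r * a + s * c) := by ring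
          _ = (κ * a * p + κ * b * r) * (κ * c * q + κ * -a * s) -
              (κ * a * q + κ * b * s) * (κ * c * p + κ * -a * r) := by rw [e00, e01, e10, e11]
          _ = _ := by ring
      have h2 : (κ ^ 2 - 1) * ((p * s - q * r) * (-a ^ 2 - b * c)) = 0 := by linarith
      rcases mul_eq_zero.1 h2 with h | h
      · linarith
      · exfalso
        have : 0 < (p * s - q * r) * (-a ^ 2 - b * c) := mul_pos hgdet hdet'
        linarith
    have hκ : κ = 1 ∨ κ = -1 := by
      have : (κ - 1) * (κ + 1) = 0 := by linarith [hκ2, sq κ]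
      rcases mul_eq_zero.1 this with h | h
      · left; linarith
      · right; linarith
    rcases hκ with rfl | rfl
    · constructor <;> linarith
    · exfalso
      have h1 : b * (p + s) = 0 := by linarith
      have h2 : p + s = 0 := (mul_eq_zero.1 h1).resolve_left hb0
      have hs : s = -p := by linarith
      have h3 := rev_cs hdet' (a' := p) (b' := q) (c' := r) (by linarith) (by
        rw [hs] at hgdet; linarith)
      obtain ⟨h4, h5, h6⟩ := h3
      rw [hs, h4, h5] at hgdet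
      linarith
  intro g hg h hh
  obtain ⟨g1, g2⟩ := hcomm g hg
  obtain ⟨h1, h2⟩ := hcomm h hh
  rw [commute_entries]
  refine ⟨?_, ?_, ?_⟩
  · apply mul_left_cancel₀ hb0
    linear_combination h 0 1 * g1 - g 0 1 * h1
  · apply mul_left_cancel₀ hb0
    linear_combination h 0 1 * g2 - g 0 1 * h2
  · apply mul_left_cancel₀ hb0
    apply mul_left_cancel₀ hb0
    linear_combination (-b * (h 0 0 - h 1 1)) * g1 - (g 0 1 * c) * h2 + (b * (g 0 0 - g 1 1)) * h1
      + (h 0 1 * c) * g2

/-- the line spanned by `v` is preserved -/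
def Pres (v : ℂ) (g : GL (Fin 2) ℝ) : Prop := ∃ χ : ℝ, χ ≠ 0 ∧ act g v = χ * v

lemma Pres.mul {v : ℂ} {g h : GL (Fin 2) ℝ} (hg : Pres v g) (hh : Pres v h) : Pres v (g * h) := by
  obtain ⟨a, ha, hav⟩ := hg
  obtain ⟨b, hb, hbv⟩ := hh
  refine ⟨b * a, mul_ne_zero hb ha, ?_⟩
  rw [act_mul, hbv, act_real_mul, hav]
  push_cast
  ring

lemma Pres.inv {v : ℂ} {g : GL (Fin 2) ℝ} (hg : Pres v g) : Pres v g⁻¹ := by
  obtain ⟨a, ha, hav⟩ := hg
  refine ⟨a⁻¹, inv_ne_zero ha, ?_⟩
  have h1 : act g⁻¹ (act g v) = v := act_inv_act g v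
  rw [hav, act_real_mul] at h1
  have hac : (a : ℂ) ≠ 0 := by exact_mod_cast ha
  calc act g⁻¹ v = (a : ℂ)⁻¹ * (a * act g⁻¹ v) := by
        rw [← mul_assoc, inv_mul_cancel₀ hac, one_mul]
    _ = _ := by rw [h1]; push_cast; rfl

lemma Pres.of_det {v : ℂ} (hv : v ≠ 0) {g : GL (Fin 2) ℝ}
    (h : v.re * (act g v).im - v.im * (act g v).re = 0) : Pres v g := by
  set w := act g v with hw
  have hn : v.re ^ 2 + v.im ^ 2 ≠ 0 := by
    intro h0
    apply hv
    apply Complex.ext
    · simp only [Complex.zero_re]; nlinarith [sq_nonneg v.re, sq_nonneg v.im]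
    · simp only [Complex.zero_im]; nlinarith [sq_nonneg v.re, sq_nonneg v.im]
  set χ := (v.re * w.re + v.im * w.im) / (v.re ^ 2 + v.im ^ 2) with hχ
  have hχ' : χ * (v.re ^ 2 + v.im ^ 2) = v.re * w.re + v.im * w.im := by
    rw [hχ]; field_simp
  have hwv : w = χ * v := by
    apply Complex.ext
    · simp only [Complex.mul_re, Complex.ofReal_re, Complex.ofReal_im, zero_mul, sub_zero]
      apply mul_left_cancel₀ hn
      linear_combination (-v.re) * hχ' - v.im * h
    · simp only [Complex.mul_im, Complex.ofReal_re, Complex.ofReal_im, zero_mul, add_zero]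
      apply mul_left_cancel₀ hn
      linear_combination (-v.im) * hχ' + v.re * h
  refine ⟨χ, ?_, hwv⟩
  intro h0
  rw [h0, Complex.ofReal_zero, zero_mul] at hwv
  have : v = 0 := by
    rw [← act_inv_act g v, ← hw, hwv, act_zero]
  exact hv this

/-- the singular case -/
lemma line_of_singular {G₁ N : Subgroup (GL (Fin 2) ℝ)}
    (hn : ∀ A ∈ G₁, ∀ B ∈ N, A * B * A⁻¹ ∈ N) (hN : IsClosed (N : Set (GL (Fin 2) ℝ)))
    (hyp : ∀ B ∈ tang N, B 0 0 * B 1 1 - B 0 1 * B 1 0 = 0)
    {B : Matrix (Fin 2) (Fin 2) ℝ} (hB : B ∈ tang N) (hB0 : B ≠ 0) :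
    ∃ v : ℂ, v ≠ 0 ∧ ∀ g ∈ G₁, Pres v g := by
  have hdB := hyp B hB
  -- factorisation
  obtain ⟨v, α, hv, hα, hf00, hf01, hf10, hf11⟩ : ∃ v α : ℂ, v ≠ 0 ∧ α ≠ 0 ∧
      B 0 0 = v.re * α.re ∧ B 0 1 = v.re * α.im ∧ B 1 0 = v.im * α.re ∧
      B 1 1 = v.im * α.im := by
    by_cases h00 : B 0 0 = 0
    · by_cases h01 : B 0 1 = 0
      · -- first row zero
        refine ⟨⟨0, 1⟩, ⟨B 1 0, B 1 1⟩, ?_, ?_, ?_, ?_, ?_, ?_⟩
        · intro h
          have := congrArg Complex.im h
          simp at this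
        · intro h
          apply hB0
          have e1 := congrArg Complex.re h
          have e2 := congrArg Complex.im h
          simp only [Complex.zero_re, Complex.zero_im] at e1 e2
          ext i j
          fin_cases i <;> fin_cases j <;> simp [h00, h01, e1, e2]
        · simp [h00]
        · simp [h01]
        · simp
        · simp
      · refine ⟨⟨B 0 1, B 1 1⟩, ⟨B 0 0 / B 0 1, 1⟩, ?_, ?_, ?_, ?_, ?_, ?_⟩
        · intro h
          have := congrArg Complex.re h
          simp only [Complex.zero_re] at this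
          exact h01 this
        · intro h
          have := congrArg Complex.im h
          simp at this
        · simp [h00]
        · simp
        · simp only
          rw [h00] at hdB ⊢
          have : B 0 1 * B 1 0 = 0 := by linarith
          rw [(mul_eq_zero.1 this).resolve_left h01]
          simp
        · simp
    · refine ⟨⟨B 0 0, B 1 0⟩, ⟨1, B 0 1 / B 0 0⟩, ?_, ?_, ?_, ?_, ?_, ?_⟩
      · intro h
        have := congrArg Complex.re h
        simp only [Complex.zero_re] at this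
        exact h00 this
      · intro h
        have := congrArg Complex.re h
        simp at this
      · simp
      · simp only
        field_simp
      · simp
      · simp only
        field_simp
        linarith
  set k : ℂ := ⟨α.im, -α.re⟩ with hk
  have hk0 : k ≠ 0 := by
    intro h
    have e1 := congrArg Complex.re h
    have e2 := congrArg Complex.im h
    simp only [hk, Complex.zero_re, Complex.zero_im, neg_eq_zero] at e1 e2
    exact hα (Complex.ext e2 e1)
  have hor : ∀ g ∈ G₁, Pres v g ∨ Pres k g := by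
    intro g hg
    have h1 := tang_add hN hB (tang_conj hn hB hg)
    have h2 := hyp _ h1
    set M := B + (g : Matrix (Fin 2) (Fin 2) ℝ) * B *
      ((g⁻¹ : GL (Fin 2) ℝ) : Matrix (Fin 2) (Fin 2) ℝ) with hM
    have hMg : M * (g : Matrix (Fin 2) (Fin 2) ℝ) =
        B * (g : Matrix (Fin 2) (Fin 2) ℝ) + (g : Matrix (Fin 2) (Fin 2) ℝ) * B := by
      rw [hM, Matrix.add_mul, Matrix.mul_assoc ((g : Matrix (Fin 2) (Fin 2) ℝ) * B),
        ← Units.val_mul, inv_mul_cancel, Units.val_one, Matrix.mul_one]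
    have h3 : Matrix.det (M * (g : Matrix (Fin 2) (Fin 2) ℝ)) = 0 := by
      rw [Matrix.det_mul, Matrix.det_fin_two M, h2, zero_mul]
    rw [hMg, Matrix.det_fin_two] at h3
    simp only [Matrix.add_apply, Matrix.mul_apply, Fin.sum_univ_two] at h3
    rw [hf00, hf01, hf10, hf11] at h3
    have h4 : (v.re * (act g v).im - v.im * (act g v).re) *
        (k.re * (act g k).im - k.im * (act g k).re) = 0 := by
      simp only [act, hk]
      linear_combination h3
    rcases mul_eq_zero.1 h4 with h | h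
    · exact Or.inl (Pres.of_det hv h)
    · exact Or.inr (Pres.of_det hk0 h)
  by_cases hall : ∀ g ∈ G₁, Pres v g
  · exact ⟨v, hv, hall⟩
  · refine ⟨k, hk0, ?_⟩
    push Not at hall
    obtain ⟨g, hg, hgv⟩ := hall
    have hgk : Pres k g := (hor g hg).resolve_left hgv
    intro h hh
    rcases hor h hh with h1 | h1
    · -- `g * h` does not preserve `v`, so it preserves `k`
      have h2 : ¬ Pres v (g * h) := by
        intro h3
        have := h3.mul h1.inv
        rw [mul_inv_cancel_right] at this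
        exact hgv this
      have h3 : Pres k (g * h) := (hor _ (G₁.mul_mem hg hh)).resolve_left h2
      have := hgk.inv.mul h3
      rwa [inv_mul_cancel_left] at this
    · exact h1

/-- either there is a hyperbolic one-parameter group in `N`, or `G₁` is metabelian -/
theorem metabelian_of_nondiscrete {G₁ N : Subgroup (GL (Fin 2) ℝ)}
    (hn : ∀ A ∈ G₁, ∀ B ∈ N, A * B * A⁻¹ ∈ N) (hN : IsClosed (N : Set (GL (Fin 2) ℝ)))
    (hG₁ : ∀ A ∈ G₁, 0 < A 0 0 * A 1 1 - A 0 1 * A 1 0)
    (hc : ∃ c > 0, ∀ A ∈ N, c ≤ nrm A)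
    (hnd : ¬ ∃ U ∈ 𝓝 (1 : GL (Fin 2) ℝ), ∀ A ∈ N, A ∈ U → A = 1) :
    (∃ B ∈ tang N, B 0 0 * B 1 1 - B 0 1 * B 1 0 < 0) ∨
      ∀ A ∈ G₁, ∀ B ∈ G₁, ∀ C ∈ G₁, ∀ D ∈ G₁, ⁅⁅A, B⁆, ⁅C, D⁆⁆ = 1 := by
  by_cases hyp : ∀ B ∈ tang N, 0 ≤ B 0 0 * B 1 1 - B 0 1 * B 1 0
  · right
    by_cases hell : ∃ B ∈ tang N, 0 < B 0 0 * B 1 1 - B 0 1 * B 1 0
    · obtain ⟨B, hB, hdet⟩ := hell
      have hcomm := commutative_of_elliptic hn hN hG₁ hc hyp hB hdet
      intro A hA B hB C hC D hD
      have h1 : ⁅A, B⁆ = 1 := commutatorElement_eq_one_iff_mul_comm.2 (hcomm A hA B hB)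
      rw [h1]
      exact commutatorElement_one_left _
    · push Not at hell
      obtain ⟨B, hB, hB0⟩ := exists_tang hN hnd
      obtain ⟨v, hv, hpres⟩ := line_of_singular hn hN
        (fun C hC => le_antisymm (hell C hC) (hyp C hC)) hB hB0
      exact metabelian_of_line hv hpres
  · left
    push Not at hyp
    exact hyp

end LadderVeech
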