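import Pool.Agent.LadderVeech.LV27
import Pool.Agent.LadderVeech.LV14
import Pool.Agent.LadderVeech.LV22
import Pool.Agent.LadderVeech.LV23
import Pool.Agent.LadderVeech.Tang

/-!
LV30. The case `U`: `|A 1 1| = 1`.

PROOF. `exists_shear_flow`: `h, F`; `exists_stretched`: `ω', k, σ`. Let `A ∈ veechPlus ω`, upper triangular. Multiply by
`expGL (s • kX false)` to make it diagonal (same diagonal entries), take the square (entries squared), and the inverse
if necessary: WLOG `A = diag (a, d)`, `0 < a ≤ 1`, `0 < d`, and we must show `d = 1`. `f` affine for `ω` in endFix,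
`h ∘ f = d h` (normal_false); `f` is affine for `ω'` too.  `T = f ∘ σ s`, `e^s d = a`: affine for `ω'` with derivative
`diag (a, a)`, in endFix (zeroFlux_of_group, LV21, for `σ`).
STRIPS: `O = {h ≠ 0} = {k ≠ 0}`, `strip x = connectedComponentIn O x`. `σ t x ∈ strip x` for `x ∈ O` (Mv.mem_comp),
`T '' strip x = strip (T x) = f '' strip x` (homeomorphisms preserving `O` map components to components).
RAYS: for `x ∈ O`: `γ u = σ u x`, `u ≥ 0`: continuous in `u` (it is a vertical move: Mv.tendsto (LV03), or: `σ u x` is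
 the unique end point of the move of length `(e^u - 1) k x`), `|k (γ u)| = e^u |k x| → ∞`, so it leaves compact sets;
 `ray_end`: right (`→ +∞`) or left. `T (σ u x) = σ u (T x)` (Mv.map with `diag(a,a)`, Mv.smul, Mv.unique). So the type is
 the same for all `T^j x`, `j ∈ ℤ` (endFix_tendsto).
CLAIM W: for every `x ∈ O` there is `m ≥ 1` with `strip (f^m x) = strip x`.
 Case A: for every compact `K`, eventually `T^j '' K ∩ K = ∅` (true if `a < 1` by contract_pow). ends_apart: one of the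
 sequences `T^j x`, `T^{-j} x` (call it `x_j`) goes to the end different from the type of the ray of `x`. For large `j`
 the connected set `{σ u x_j | u ≥ 0}` crosses `K₀` (`cross`): so `strip x_j` meets `K₀` (in a point of `O`).
 Case B: `a = 1` and not case A: `recurrent` (LV23) for `T` (derivative `1`) gives `y` such that for every
 neighbourhood `N` of `y`, infinitely many `T^j x ∈ N`; take `N` compact.
 In both cases infinitely many of the strips `strip (T^{± j} x)` meet a compact set; `finite_strips` (LV25): two of them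
 coincide: `strip (T^i x) = strip (T^j x)`, `i < j`, so `strip (T^{j-i} x) = strip x` (apply `T^{-i}`), and
 `strip (T^m x) = strip (f^m x)`.
END: if `lam h x = 0` for all `x`, then `kX true ∈ tang (veechZero ω)` (scale_of_lam_zero), contradiction to `h2`.
So there is `x` with `lam h x > 0`; then `x ∈ O` (for `h x = 0` the component is empty and the set in the definition
of `lam` is unbounded, `sSup = 0`). `lam h (f^m x) = lam h x / d^m` (lam_affine for `f^m`) and `= lam h x` (lam_const), so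
`d^m = 1`, `d = 1`.
-/

open Set Filter Topology

namespace LadderVeech

/-- the data of the stretched structure used for the periodicity of the strips -/
structure LV30_Data where
  ω : TranslationStructure Ladder
  k : Ladder → ℝ
  σ : ℝ → Ladder ≃ₜ Ladder
  hk : IsHt ω k
  hs : ∀ x ∈ ω.sing, k x = 0
  hkσ : ∀ t x, k (σ t x) = Real.exp t * k x
  hmv : ∀ t x, k x ≠ 0 → Mv ω {y | k y ≠ 0} Complex.I ((Real.exp t - 1) * k x) x (σ t x)

namespace LV30_Data

variable (H : LV30_Data)

/-- the set of points off the level zero -/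
def O : Set Ladder := {y | H.k y ≠ 0}

/-- the strip of a point -/
def strip (x : Ladder) : Set Ladder := connectedComponentIn {y | H.k y ≠ 0} x

lemma isOpen_O : IsOpen {y : Ladder | H.k y ≠ 0} := isOpen_ne_fun H.hk.cont continuous_const

lemma O_sub : {y : Ladder | H.k y ≠ 0} ⊆ H.ω.singᶜ := fun y hy hys => hy (H.hs y hys)

lemma strip_eq {x y : Ladder} (h : y ∈ H.strip x) : H.strip y = H.strip x :=
  (connectedComponentIn_eq h).symm

lemma mem_strip {x : Ladder} (h : H.k x ≠ 0) : x ∈ H.strip x := mem_connectedComponentIn h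

lemma sigma_mem (t : ℝ) {x : Ladder} (h : H.k x ≠ 0) : H.σ t x ∈ H.strip x :=
  (H.hmv t x h).mem_comp

lemma continuous_ray {x : Ladder} (h : H.k x ≠ 0) : Continuous (fun u => H.σ u x) := by
  rw [continuous_iff_continuousAt]
  intro u₀
  have hlen : Tendsto (fun u : ℝ => (Real.exp u - 1) * H.k x) (𝓝 u₀)
      (𝓝 ((Real.exp u₀ - 1) * H.k x)) :=
    (((Real.continuous_exp.sub continuous_const).mul continuous_const).tendsto u₀)
  exact (H.hmv u₀ x h).tendsto H.isOpen_O H.O_sub tendsto_const_nhds hlen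
    (Eventually.of_forall fun u => H.hmv u x h)

lemma ray_leaves {x : Ladder} (h : H.k x ≠ 0) {K : Set Ladder} (hK : IsCompact K) :
    ∀ᶠ u : ℝ in atTop, H.σ u x ∉ K := by
  obtain ⟨M, hM⟩ := hK.exists_bound_of_continuousOn (f := H.k) H.hk.cont.continuousOn
  have hx0 : 0 < |H.k x| := abs_pos.2 h
  have h1 : Tendsto (fun u : ℝ => Real.exp u * |H.k x|) atTop atTop :=
    Real.tendsto_exp_atTop.atTop_mul_const hx0
  filter_upwards [h1.eventually_gt_atTop M] with u hu hmem
  have h2 := hM _ hmem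
  rw [H.hkσ, Real.norm_eq_abs, abs_mul, abs_of_pos (Real.exp_pos u)] at h2
  linarith

lemma ray_type {x : Ladder} (h : H.k x ≠ 0) :
    Tendsto (fun u => xc (H.σ u x)) atTop atTop ∨ Tendsto (fun u => xc (H.σ u x)) atTop atBot :=
  ray_end (H.continuous_ray h) (fun _ hK => H.ray_leaves h hK)

/-- a ray from the left to the right crosses the core -/
lemma strip_meets {x : Ladder} (h : H.k x ≠ 0)
    (hx : (xc x < -(1 / 2) ∧ Tendsto (fun u => xc (H.σ u x)) atTop atTop) ∨
      (1 / 2 < xc x ∧ Tendsto (fun u => xc (H.σ u x)) atTop atBot)) :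
    ∃ z ∈ K₀, H.k z ≠ 0 ∧ H.strip x = connectedComponentIn {y | H.k y ≠ 0} z := by
  have hpre : IsPreconnected (range fun u => H.σ u x) :=
    isPreconnected_range (H.continuous_ray h)
  have hx0 : x ∈ range fun u => H.σ u x := by
    refine ⟨0, ?_⟩
    have h1 := H.hmv 0 x h
    rw [Real.exp_zero, sub_self, zero_mul] at h1
    exact h1.unique H.O_sub (Mv.refl H.isOpen_O H.O_sub h)
  have key : ((range fun u => H.σ u x) ∩ K₀).Nonempty := by
    rcases hx with ⟨h1, h2⟩ | ⟨h1, h2⟩
    · obtain ⟨u, hu⟩ := (h2.eventually_ge_atTop (1 / 2)).exists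
      exact cross hpre hx0 ⟨u, rfl⟩ h1.le hu
    · obtain ⟨u, hu⟩ := (h2.eventually_le_atBot (-(1 / 2))).exists
      exact cross hpre ⟨u, rfl⟩ hx0 hu h1.le
  obtain ⟨_, ⟨u, rfl⟩, hz⟩ := key
  have hmem := H.sigma_mem u h
  refine ⟨_, hz, connectedComponentIn_subset _ _ hmem, ?_⟩
  exact (H.strip_eq hmem).symm

/-- a similarity of the stretched structure -/
structure Sim (T : Ladder ≃ₜ Ladder) (a : ℝ) : Prop where
  ha : 0 < a
  aff : ∃ A : GL (Fin 2) ℝ, A 0 1 = 0 ∧ A 1 0 = 0 ∧ A 0 0 = a ∧ A 1 1 = a ∧ IsAffine H.ω T A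
  fix : T ∈ endFix
  kT : ∀ x, H.k (T x) = a * H.k x

variable {H} {T : Ladder ≃ₜ Ladder} {a : ℝ}

lemma Sim.image (hT : H.Sim T a) : T '' {y : Ladder | H.k y ≠ 0} = {y : Ladder | H.k y ≠ 0} := by
  have ha := hT.ha
  ext y
  constructor
  · rintro ⟨z, hz, rfl⟩
    exact fun h0 => hz (by
      rw [hT.kT] at h0
      exact (mul_eq_zero.1 h0).resolve_left ha.ne')
  · intro hy
    refine ⟨T.symm y, fun h0 => hy ?_, T.apply_symm_apply y⟩
    have := hT.kT (T.symm y)
    rw [T.apply_symm_apply, h0, mul_zero] at this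
    exact this

lemma Sim.strip (hT : H.Sim T a) {x : Ladder} (h : H.k x ≠ 0) :
    T '' H.strip x = H.strip (T x) := by
  have := T.image_connectedComponentIn (s := {y : Ladder | H.k y ≠ 0})
    (show x ∈ {y : Ladder | H.k y ≠ 0} from h)
  rw [hT.image] at this
  exact this

lemma Sim.kne (hT : H.Sim T a) {x : Ladder} (h : H.k x ≠ 0) : H.k (T x) ≠ 0 := by
  rw [hT.kT]
  exact mul_ne_zero hT.ha.ne' h

lemma Sim.comm (hT : H.Sim T a) {x : Ladder} (h : H.k x ≠ 0) (u : ℝ) :
    T (H.σ u x) = H.σ u (T x) := by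
  obtain ⟨A, h01, h10, h00, h11, haff⟩ := hT.aff
  have ha := hT.ha
  have h1 := (H.hmv u x h).map haff H.O_sub
  rw [hT.image] at h1
  have h2 : act A Complex.I = (a : ℂ) * Complex.I := by
    apply Complex.ext <;> simp [act, h01, h11]
  rw [h2] at h1
  have h3 := h1.smul (c := a⁻¹) (inv_ne_zero ha.ne')
  have e1 : ((a⁻¹ : ℝ) : ℂ) * ((a : ℂ) * Complex.I) = Complex.I := by
    rw [← mul_assoc, ← Complex.ofReal_mul, inv_mul_cancel₀ ha.ne', Complex.ofReal_one, one_mul]
  have e2 : (Real.exp u - 1) * H.k x / a⁻¹ = (Real.exp u - 1) * H.k (T x) := by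
    rw [hT.kT, div_inv_eq_mul]
    ring
  rw [e1, e2] at h3
  exact h3.unique H.O_sub (H.hmv u (T x) (hT.kne h))

lemma Sim.pow (hT : H.Sim T a) (j : ℕ) : H.Sim (T ^ j) (a ^ j) := by
  induction j with
  | zero =>
    refine ⟨by simp, ⟨1, by simp, by simp, by simp, by simp, ?_⟩, ?_, ?_⟩
    · rw [pow_zero]; exact isAffine_one
    · rw [pow_zero]; exact endFix.one_mem
    · intro x; rw [pow_zero, pow_zero, one_mul]; rfl
  | succ j ih =>
    obtain ⟨A, h01, h10, h00, h11, haff⟩ := hT.aff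
    obtain ⟨B, g01, g10, g00, g11, gaff⟩ := ih.aff
    refine ⟨pow_pos hT.ha _, ⟨A * B, ?_, ?_, ?_, ?_, ?_⟩, ?_, ?_⟩
    · rw [mul_entry, h01, g01]; ring
    · rw [mul_entry, h10, g10]; ring
    · rw [mul_entry, h01, h00, g00, pow_succ']; ring
    · rw [mul_entry, h10, h11, g11, pow_succ']; ring
    · rw [pow_succ']; exact haff.mul gaff
    · rw [pow_succ']; exact endFix.mul_mem hT.fix ih.fix
    · intro x
      rw [pow_succ', pow_succ']
      change H.k (T ((T ^ j) x)) = _
      rw [hT.kT, ih.kT]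
      ring

lemma Sim.inv (hT : H.Sim T a) : H.Sim T⁻¹ a⁻¹ := by
  obtain ⟨A, h01, h10, h00, h11, haff⟩ := hT.aff
  have ha := hT.ha
  have e : A * A⁻¹ = 1 := mul_inv_cancel A
  have m00 := congrArg (fun M : GL (Fin 2) ℝ => M 0 0) e
  have m01 := congrArg (fun M : GL (Fin 2) ℝ => M 0 1) e
  have m10 := congrArg (fun M : GL (Fin 2) ℝ => M 1 0) e
  have m11 := congrArg (fun M : GL (Fin 2) ℝ => M 1 1) e
  simp only [mul_entry, h00, h01, h10, h11, zero_mul, add_zero, zero_add, Units.val_one,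
    Matrix.one_apply_eq, ne_eq, zero_ne_one, one_ne_zero, not_false_eq_true,
    Matrix.one_apply_ne, mul_eq_zero, ha.ne', false_or] at m00 m01 m10 m11
  refine ⟨inv_pos.2 ha, ⟨A⁻¹, m01, m10, ?_, ?_, haff.inv⟩, endFix.inv_mem hT.fix, ?_⟩
  · exact eq_inv_of_mul_eq_one_right m00
  · exact eq_inv_of_mul_eq_one_right m11
  · intro x
    have h1 := hT.kT (T⁻¹ x)
    have h2 : T (T⁻¹ x) = x := T.apply_symm_apply x
    rw [h2] at h1
    rw [h1, ← mul_assoc, inv_mul_cancel₀ ha.ne', one_mul]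

lemma Sim.type_right (hT : H.Sim T a) {x : Ladder} (h : H.k x ≠ 0)
    (hx : Tendsto (fun u => xc (H.σ u x)) atTop atTop) :
    Tendsto (fun u => xc (H.σ u (T x))) atTop atTop := by
  have h1 := (endFix_tendsto hT.fix (l := atTop) (x := fun u => H.σ u x)).1 hx
  refine h1.congr (fun u => ?_)
  rw [hT.comm h]

lemma Sim.type_left (hT : H.Sim T a) {x : Ladder} (h : H.k x ≠ 0)
    (hx : Tendsto (fun u => xc (H.σ u x)) atTop atBot) :
    Tendsto (fun u => xc (H.σ u (T x))) atTop atBot := by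
  have h1 := (endFix_tendsto hT.fix (l := atTop) (x := fun u => H.σ u x)).2 hx
  refine h1.congr (fun u => ?_)
  rw [hT.comm h]

lemma pigeon {P : ℕ → Set Ladder} {𝒞 : Set (Set Ladder)} (hfin : 𝒞.Finite)
    (h : ∃ᶠ j : ℕ in atTop, P j ∈ 𝒞) : ∃ i j, i < j ∧ P i = P j := by
  have hinf : {j | P j ∈ 𝒞}.Infinite := Nat.frequently_atTop_iff_infinite.1 h
  obtain ⟨i, -, j, -, hne, heq⟩ :=
    hinf.exists_ne_map_eq_of_mapsTo (f := P) (t := 𝒞) (fun j hj => hj) hfin
  rcases lt_or_gt_of_ne hne with h1 | h1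
  · exact ⟨i, j, h1, heq⟩
  · exact ⟨j, i, h1, heq.symm⟩

lemma Sim.periodic_of_eq (hT : H.Sim T a) {x : Ladder} (h : H.k x ≠ 0) {i j : ℕ} (hij : i < j)
    (heq : H.strip ((T ^ i) x) = H.strip ((T ^ j) x)) :
    ∃ m : ℕ, 1 ≤ m ∧ H.strip ((T ^ m) x) = H.strip x := by
  refine ⟨j - i, by omega, ?_⟩
  have hi := hT.pow i
  have h1 := hi.inv.strip (hi.kne h)
  have h2 := hi.inv.strip ((hT.pow j).kne h)
  rw [heq] at h1
  rw [h1] at h2
  have e1 : (T ^ i)⁻¹ ((T ^ i) x) = x := (T ^ i).symm_apply_apply x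
  have e2 : (T ^ i)⁻¹ ((T ^ j) x) = (T ^ (j - i)) x := by
    have : T ^ j = T ^ i * T ^ (j - i) := by rw [← pow_add]; congr 1; omega
    rw [this]
    exact (T ^ i).symm_apply_apply _
  rw [e1, e2] at h2
  exact h2.symm

lemma Sim.periodic_of_eq' (hT : H.Sim T a) {x : Ladder} (h : H.k x ≠ 0) {i j : ℕ} (hij : i < j)
    (heq : H.strip ((T⁻¹ ^ i) x) = H.strip ((T⁻¹ ^ j) x)) :
    ∃ m : ℕ, 1 ≤ m ∧ H.strip ((T ^ m) x) = H.strip x := by
  obtain ⟨m, hm, hmx⟩ := hT.inv.periodic_of_eq h hij heq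
  refine ⟨m, hm, ?_⟩
  have h1 := (hT.pow m).strip ((hT.inv.pow m).kne h)
  have h2 := (hT.pow m).strip h
  rw [hmx, h2] at h1
  have e1 : (T ^ m) ((T⁻¹ ^ m) x) = x := by
    have : T⁻¹ ^ m = (T ^ m)⁻¹ := inv_pow T m
    rw [this]
    exact (T ^ m).apply_symm_apply x
  rw [e1] at h1
  exact h1

lemma Sim.claimW (hT : H.Sim T a)
    (hcase : (∀ K : Set Ladder, IsCompact K → ∀ᶠ j : ℕ in atTop, (T ^ j) '' K ∩ K = ∅) ∨
      IsAffine H.ω T 1) {x : Ladder} (h : H.k x ≠ 0) :
    ∃ m : ℕ, 1 ≤ m ∧ H.strip ((T ^ m) x) = H.strip x := by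
  by_cases hA : ∀ K : Set Ladder, IsCompact K → ∀ᶠ j : ℕ in atTop, (T ^ j) '' K ∩ K = ∅
  · have hK₀ : IsCompact K₀ := isCompact_slab _ _
    have hfin := finite_strips H.hk hK₀
    have htypeR : ∀ j : ℕ, Tendsto (fun u => xc (H.σ u x)) atTop atTop →
        Tendsto (fun u => xc (H.σ u ((T ^ j) x))) atTop atTop :=
      fun j hx => (hT.pow j).type_right h hx
    have htypeL : ∀ j : ℕ, Tendsto (fun u => xc (H.σ u x)) atTop atBot →
        Tendsto (fun u => xc (H.σ u ((T ^ j) x))) atTop atBot :=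
      fun j hx => (hT.pow j).type_left h hx
    have htypeR' : ∀ j : ℕ, Tendsto (fun u => xc (H.σ u x)) atTop atTop →
        Tendsto (fun u => xc (H.σ u ((T⁻¹ ^ j) x))) atTop atTop :=
      fun j hx => (hT.inv.pow j).type_right h hx
    have htypeL' : ∀ j : ℕ, Tendsto (fun u => xc (H.σ u x)) atTop atBot →
        Tendsto (fun u => xc (H.σ u ((T⁻¹ ^ j) x))) atTop atBot :=
      fun j hx => (hT.inv.pow j).type_left h hx
    rcases ends_apart hT.fix hA with hE | hE
    · rcases H.ray_type h with ht | ht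
      · -- right type, the inverse iterates go left
        have h1 : ∃ᶠ j : ℕ in atTop, H.strip ((T⁻¹ ^ j) x) ∈ {C : Set Ladder | ∃ z ∈ K₀,
            H.k z ≠ 0 ∧ C = connectedComponentIn {y | H.k y ≠ 0} z} := by
          refine Eventually.frequently ?_
          filter_upwards [(hE x).2.eventually_lt_atBot (-(1 / 2))] with j hj
          exact H.strip_meets ((hT.inv.pow j).kne h) (Or.inl ⟨hj, htypeR' j ht⟩)
        obtain ⟨i, j, hij, heq⟩ := pigeon hfin h1
        exact hT.periodic_of_eq' h hij heq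
      · have h1 : ∃ᶠ j : ℕ in atTop, H.strip ((T ^ j) x) ∈ {C : Set Ladder | ∃ z ∈ K₀,
            H.k z ≠ 0 ∧ C = connectedComponentIn {y | H.k y ≠ 0} z} := by
          refine Eventually.frequently ?_
          filter_upwards [(hE x).1.eventually_gt_atTop (1 / 2)] with j hj
          exact H.strip_meets ((hT.pow j).kne h) (Or.inr ⟨hj, htypeL j ht⟩)
        obtain ⟨i, j, hij, heq⟩ := pigeon hfin h1
        exact hT.periodic_of_eq h hij heq
    · rcases H.ray_type h with ht | ht
      · have h1 : ∃ᶠ j : ℕ in atTop, H.strip ((T ^ j) x) ∈ {C : Set Ladder | ∃ z ∈ K₀,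
            H.k z ≠ 0 ∧ C = connectedComponentIn {y | H.k y ≠ 0} z} := by
          refine Eventually.frequently ?_
          filter_upwards [(hE x).1.eventually_lt_atBot (-(1 / 2))] with j hj
          exact H.strip_meets ((hT.pow j).kne h) (Or.inl ⟨hj, htypeR j ht⟩)
        obtain ⟨i, j, hij, heq⟩ := pigeon hfin h1
        exact hT.periodic_of_eq h hij heq
      · have h1 : ∃ᶠ j : ℕ in atTop, H.strip ((T⁻¹ ^ j) x) ∈ {C : Set Ladder | ∃ z ∈ K₀,
            H.k z ≠ 0 ∧ C = connectedComponentIn {y | H.k y ≠ 0} z} := by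
          refine Eventually.frequently ?_
          filter_upwards [(hE x).2.eventually_gt_atTop (1 / 2)] with j hj
          exact H.strip_meets ((hT.inv.pow j).kne h) (Or.inr ⟨hj, htypeL' j ht⟩)
        obtain ⟨i, j, hij, heq⟩ := pigeon hfin h1
        exact hT.periodic_of_eq' h hij heq
  · have h1 : IsAffine H.ω T 1 := hcase.resolve_left hA
    push Not at hA
    obtain ⟨K, hK, hrec⟩ := hA
    obtain ⟨y, hy⟩ := recurrent h1 hK (fun hall => by
      obtain ⟨j, hj1, hj2⟩ := (hall.and_frequently hrec).exists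
      exact hj2.ne_empty hj1) x
    have hN : {p : Ladder | xc y - 1 ≤ xc p ∧ xc p ≤ xc y + 1} ∈ 𝓝 y := by
      have h2 : ∀ᶠ p in 𝓝 y, |xc p - xc y| < 1 := by
        have : Tendsto (fun p => |xc p - xc y|) (𝓝 y) (𝓝 |xc y - xc y|) :=
          ((continuous_xc.sub continuous_const).abs).tendsto y
        rw [sub_self, abs_zero] at this
        exact this.eventually_lt_const one_pos
      filter_upwards [h2] with p hp
      rw [abs_lt] at hp
      exact ⟨by linarith [hp.1], by linarith [hp.2]⟩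
    have hfin := finite_strips H.hk (isCompact_slab (xc y - 1) (xc y + 1))
    have h2 : ∃ᶠ j : ℕ in atTop, H.strip ((T ^ j) x) ∈ {C : Set Ladder |
        ∃ z ∈ {p : Ladder | xc y - 1 ≤ xc p ∧ xc p ≤ xc y + 1},
          H.k z ≠ 0 ∧ C = connectedComponentIn {y | H.k y ≠ 0} z} := by
      refine (hy _ hN).mono (fun j hj => ?_)
      exact ⟨_, hj, (hT.pow j).kne h, rfl⟩
    obtain ⟨i, j, hij, heq⟩ := pigeon hfin h2
    exact hT.periodic_of_eq h hij heq

end LV30_Data

variable {ω : TranslationStructure Ladder}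

lemma LV30_diag (h1 : kX false ∈ tang (veechZero ω)) (h2 : kX true ∉ tang (veechZero ω))
    {A : GL (Fin 2) ℝ} (hA : A ∈ veechPlus ω) (hd : A 0 1 = 0 ∧ A 1 0 = 0) (ha0 : 0 < A 0 0)
    (ha1 : A 0 0 ≤ 1) (hd0 : 0 < A 1 1) : A 1 1 = 1 := by
  obtain ⟨h, hh, ⟨F⟩⟩ := exists_shear_flow h1
  obtain ⟨ω', k, σ, hsing, hk, hk0, -, -, haff, hσaff, hσadd, -, hkσ, hmv⟩ :=
    exists_stretched hh F
  obtain ⟨hdet, f, hf, hfe⟩ := mem_veechPlus.1 hA
  have hhf : ∀ x, h (f x) = A 1 1 * h x := normal_false hh F hf hfe hd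
  obtain ⟨hf', hkf⟩ := haff f A hf hd hhf
  let H : LV30_Data := ⟨ω', k, σ, hk, fun x hx => (hk0 x).2 (F.sing_zero (by rwa [hsing] at hx)),
    hkσ, hmv⟩
  have hO : ({y : Ladder | k y ≠ 0}) = {y : Ladder | h y ≠ 0} := by
    ext y
    exact not_congr (hk0 y)
  set s : ℝ := Real.log (A 0 0 / A 1 1) with hs
  have hes : Real.exp s = A 0 0 / A 1 1 := Real.exp_log (by positivity)
  obtain ⟨e10, e11, e00, e01⟩ := expGL_kX_entries true s
  simp only [kch, if_true] at e11 e01
  have hT : H.Sim (f * σ s) (A 0 0) := by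
    refine ⟨ha0, ⟨A * expGL (s • kX true), ?_, ?_, ?_, ?_, ?_⟩, ?_, ?_⟩
    · rw [mul_entry, e01, hd.1]; ring
    · rw [mul_entry, e10, hd.2]; ring
    · rw [mul_entry, e00, e10]; ring
    · rw [mul_entry, e11, hd.2, hes]
      field_simp
      ring
    · exact hf'.mul (hσaff s)
    · exact endFix.mul_mem hfe (zeroFlux_of_group (ω := ω) hσadd s).1
    · intro x
      change k (f (σ s x)) = A 0 0 * k x
      rw [hkf, hkσ, hes]
      field_simp
  have hcase : (∀ K : Set Ladder, IsCompact K → ∀ᶠ j : ℕ in atTop,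
      ((f * σ s) ^ j) '' K ∩ K = ∅) ∨ IsAffine H.ω (f * σ s) 1 := by
    obtain ⟨B, b01, b10, b00, b11, baff⟩ := hT.aff
    rcases lt_or_eq_of_le ha1 with hlt | heq
    · left
      intro K hK
      exact contract_pow baff b01 b10 (b00.trans b11.symm) (by
        rw [b00, abs_of_pos ha0]; exact hlt) hK
    · right
      have : B = 1 := by
        refine gl_ext ?_ ?_ ?_ ?_
        · rw [b00, heq]; simp
        · rw [b01]; simp
        · rw [b10]; simp
        · rw [b11, heq]; simp
      rw [← this]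
      exact baff
  -- a strip of finite height
  have hex : ∃ x, 0 < lam h x := by
    by_contra hcon
    push Not at hcon
    exact h2 (scale_of_lam_zero hh F (fun x => le_antisymm (hcon x) (lam_nonneg x)))
  obtain ⟨x, hx⟩ := hex
  have hx0 : h x ≠ 0 := by
    intro h0
    have e1 : connectedComponentIn {y : Ladder | h y ≠ 0} x = ∅ :=
      connectedComponentIn_eq_empty (by simpa using h0)
    have e2 : lam h x = 0 := by
      unfold lam
      rw [e1]
      refine Real.sSup_of_not_bddAbove ?_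
      rintro ⟨M, hM⟩
      have := hM (show |M| + 1 ∈ {r : ℝ | 0 ≤ r ∧ ∀ y ∈ (∅ : Set Ladder), r * |h y| ≤ 1} from
        ⟨by positivity, by simp⟩)
      have := le_abs_self M
      linarith
    linarith
  have hkx : k x ≠ 0 := fun h0 => hx0 ((hk0 x).1 h0)
  obtain ⟨m, hm, hmx⟩ := hT.claimW hcase (x := x) hkx
  -- compare with the powers of `f`
  have hkf0 : ∀ y, k y ≠ 0 → k (f y) ≠ 0 := by
    intro y hy
    rw [hkf]
    exact mul_ne_zero hd0.ne' hy
  have hfim : f '' {y : Ladder | k y ≠ 0} = {y : Ladder | k y ≠ 0} := by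
    ext y
    constructor
    · rintro ⟨z, hz, rfl⟩
      exact hkf0 z hz
    · intro hy
      refine ⟨f.symm y, fun h0 => hy ?_, f.apply_symm_apply y⟩
      have := hkf (f.symm y)
      rw [f.apply_symm_apply, h0, mul_zero] at this
      exact this
  have hfstrip : ∀ y, k y ≠ 0 → f '' H.strip y = H.strip (f y) := by
    intro y hy
    have := f.image_connectedComponentIn (s := {y : Ladder | k y ≠ 0})
      (show y ∈ {y : Ladder | k y ≠ 0} from hy)
    rw [hfim] at this
    exact this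
  have hkfn : ∀ (n : ℕ) (y : Ladder), k y ≠ 0 → k ((f ^ n) y) ≠ 0 := by
    intro n
    induction n with
    | zero => intro y hy; rw [pow_zero]; exact hy
    | succ n ih =>
      intro y hy
      rw [pow_succ']
      exact hkf0 _ (ih y hy)
  have hstripn : ∀ n : ℕ, H.strip (((f * σ s) ^ n) x) = H.strip ((f ^ n) x) := by
    intro n
    induction n with
    | zero => rw [pow_zero, pow_zero]
    | succ n ih =>
      have hy1 : k (((f * σ s) ^ n) x) ≠ 0 := (hT.pow n).kne hkx
      have hy2 := hkfn n x hkx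
      rw [pow_succ', pow_succ']
      change H.strip (f (σ s (((f * σ s) ^ n) x))) = H.strip (f ((f ^ n) x))
      have h3 : k (σ s (((f * σ s) ^ n) x)) ≠ 0 := by
        rw [hkσ]
        exact mul_ne_zero (Real.exp_pos s).ne' hy1
      rw [← hfstrip _ h3, ← hfstrip _ hy2, H.strip_eq (H.sigma_mem s hy1), ih]
  have hmem : (f ^ m) x ∈ connectedComponentIn {y : Ladder | h y ≠ 0} x := by
    have h4 : (f ^ m) x ∈ H.strip ((f ^ m) x) := H.mem_strip (hkfn m x hkx)
    rw [← hstripn m, hmx] at h4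
    have h5 : H.strip x = connectedComponentIn {y : Ladder | k y ≠ 0} x := rfl
    rw [h5, hO] at h4
    exact h4
  have hhfn : ∀ (n : ℕ) (y : Ladder), h ((f ^ n) y) = A 1 1 ^ n * h y := by
    intro n
    induction n with
    | zero => intro y; rw [pow_zero, pow_zero, one_mul]; rfl
    | succ n ih =>
      intro y
      rw [pow_succ', pow_succ']
      change h (f ((f ^ n) y)) = _
      rw [hhf, ih]
      ring
  have h6 := lam_affine hh (f := f ^ m) (d := A 1 1 ^ m) (pow_ne_zero _ hd0.ne') (hhfn m) x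
  rw [lam_const hmem] at h6
  have h7 : |A 1 1 ^ m| = 1 := by
    have h8 : 0 < |A 1 1 ^ m| := abs_pos.2 (pow_ne_zero _ hd0.ne')
    rw [eq_div_iff h8.ne'] at h6
    exact mul_left_cancel₀ hx.ne' (by rw [h6, mul_one])
  rw [abs_of_pos (pow_pos hd0 _)] at h7
  exact (pow_eq_one_iff_of_nonneg hd0.le (by omega)).1 h7

theorem u_case_det (h1 : kX false ∈ tang (veechZero ω)) (h2 : kX true ∉ tang (veechZero ω))
    {A : GL (Fin 2) ℝ} (hA : A ∈ veechPlus ω) (hup : A 1 0 = 0) : |A 1 1| = 1 := by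
  have hdet : 0 < A 0 0 * A 1 1 - A 0 1 * A 1 0 := by
    have := (mem_veechPlus.1 hA).1
    rwa [det_entries] at this
  rw [hup, mul_zero, sub_zero] at hdet
  have ha : A 0 0 ≠ 0 := by
    intro h0
    rw [h0, zero_mul] at hdet
    exact lt_irrefl _ hdet
  have hd : A 1 1 ≠ 0 := by
    intro h0
    rw [h0, mul_zero] at hdet
    exact lt_irrefl _ hdet
  -- make it diagonal
  set s : ℝ := -(A 0 1) / A 0 0 with hs
  obtain ⟨e10, e11, e00, e01⟩ := expGL_kX_entries false s
  simp only [kch, Bool.false_eq_true, if_false] at e11 e01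
  have hshear : expGL (s • kX false) ∈ veechPlus ω := veechZero_le (h1 s)
  set B : GL (Fin 2) ℝ := A * expGL (s • kX false) with hB
  have hBm : B ∈ veechPlus ω := (veechPlus ω).mul_mem hA hshear
  have b00 : B 0 0 = A 0 0 := by rw [hB, mul_entry, e00, e10]; ring
  have b01 : B 0 1 = 0 := by
    rw [hB, mul_entry, e01, e11, hs]
    field_simp
    ring
  have b10 : B 1 0 = 0 := by rw [hB, mul_entry, e00, e10, hup]; ring
  have b11 : B 1 1 = A 1 1 := by rw [hB, mul_entry, e01, e11, hup]; ring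
  have hC : B * B ∈ veechPlus ω := (veechPlus ω).mul_mem hBm hBm
  have c00 : (B * B) 0 0 = A 0 0 ^ 2 := by rw [mul_entry, b00, b01]; ring
  have c01 : (B * B) 0 1 = 0 := by rw [mul_entry, b01, b00, b11]; ring
  have c10 : (B * B) 1 0 = 0 := by rw [mul_entry, b10, b11]; ring
  have c11 : (B * B) 1 1 = A 1 1 ^ 2 := by rw [mul_entry, b10, b11]; ring
  have ha2 : 0 < A 0 0 ^ 2 := by positivity
  have hd2 : 0 < A 1 1 ^ 2 := by positivity
  have key : A 1 1 ^ 2 = 1 := by
    rcases le_or_gt (A 0 0 ^ 2) 1 with hle | hgt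
    · have := LV30_diag h1 h2 hC ⟨c01, c10⟩ (by rw [c00]; exact ha2) (by rw [c00]; exact hle)
        (by rw [c11]; exact hd2)
      rw [c11] at this
      exact this
    · have e : (B * B) * (B * B)⁻¹ = 1 := mul_inv_cancel _
      have m00 := congrArg (fun M : GL (Fin 2) ℝ => M 0 0) e
      have m01 := congrArg (fun M : GL (Fin 2) ℝ => M 0 1) e
      have m10 := congrArg (fun M : GL (Fin 2) ℝ => M 1 0) e
      have m11 := congrArg (fun M : GL (Fin 2) ℝ => M 1 1) e
      simp only [mul_entry (B * B), c00, c01, c10, c11, zero_mul, add_zero, zero_add,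
        Units.val_one, Matrix.one_apply_eq, ne_eq, zero_ne_one, one_ne_zero,
        not_false_eq_true, Matrix.one_apply_ne, mul_eq_zero, ha2.ne', hd2.ne', false_or]
        at m00 m01 m10 m11
      have d00 : (B * B)⁻¹ 0 0 = (A 0 0 ^ 2)⁻¹ := eq_inv_of_mul_eq_one_right m00
      have d11 : (B * B)⁻¹ 1 1 = (A 1 1 ^ 2)⁻¹ := eq_inv_of_mul_eq_one_right m11
      have := LV30_diag h1 h2 ((veechPlus ω).inv_mem hC) ⟨m01, m10⟩
        (by rw [d00]; positivity) (by rw [d00]; exact inv_le_one_of_one_le₀ hgt.le)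
        (by rw [d11]; positivity)
      rw [d11] at this
      exact inv_eq_one.1 this
  have h9 : |A 1 1| ^ 2 = 1 := by rw [sq_abs]; exact key
  exact (pow_eq_one_iff_of_nonneg (abs_nonneg _) two_ne_zero).1 h9

end LadderVeech
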