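import Pool.Agent.LadderVeech.LVDefs

/-!
LV31. Change of coordinates by a linear map of positive determinant.

PROOF of `exists_power_homeo`. (a) `act C z = l * z` (`l ∈ ℂ`, `l ≠ 0`): `Λ w = μ w`, `μ ^ k = l`.
(b) `C 1 0 = 0`, `C 0 0 > 0`, `C 1 1 > 0`: for `z ≠ 0`, `act C z / z ∈ slitPlane`: otherwise `act C z = - c z`, `c ≥ 0`;
`c = 0` impossible; imaginary parts: `C 1 1 * z.im = - c z.im` gives `z.im = 0`, then `C 0 0 * z.re = - c z.re`, `z = 0`.
`Λ_C w = w * (act C (w^k) / w^k) ^ (1/k : ℂ)` for `w ≠ 0`, `Λ_C 0 = 0`; `(Λ_C w)^k = act C (w^k)`; continuous at `0`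
because `‖Λ_C w‖^k = ‖act C (w^k)‖`. Inverse: `Λ_{C⁻¹}` (`C⁻¹` has the same properties):
`Λ_{C⁻¹} (Λ_C w) = w * z^(1/k) * (z⁻¹)^(1/k) = w`, `z = act C (w^k) / w^k ∈ slitPlane`.
(c) general `C` with `det > 0`: first column `(p, q)`, `l = (p + i q)/√(p²+q²)`, `R` the rotation matrix of `l`;
`R⁻¹ C` is of type (b) (first column `(√(p²+q²), 0)`, determinant `> 0`). Compose the homeomorphisms.
(`Homeomorph` from continuous maps both ways.)

PROOF of `exists_conj`. `L = act C` as a homeomorphism of `ℂ`. `ω'.sing = ω.sing`,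
`ω'.atlas = {e | e.trans (L⁻¹ as OpenPartialHomeomorph) ∈ ω.atlas}` (so the charts of `ω'` are `L ∘ e₀`).
covers, compatible (`L (z + c) = L z + L c`), maximal: translate. cone: `φ' = φ.trans Λ` with `Λ` from
exists_power_homeo: `L (φ^k + c) = Λ(φ)^k + L c`. IsAffine: chart computation, `act (C * A * C⁻¹)`; the converse by
applying the construction backwards, or directly.
-/

open Set Filter Topology

namespace LadderVeech

private noncomputable def LV31_T (τ z : ℂ) : ℂ := ⟨z.re + τ.re * z.im, τ.im * z.im⟩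

private noncomputable def LV31_G (k : ℕ) (τ w : ℂ) : ℂ :=
  w * (LV31_T τ (w ^ k) / w ^ k) ^ ((k : ℂ)⁻¹)

private theorem LV31_T_zero (τ : ℂ) : LV31_T τ 0 = 0 := by
  apply Complex.ext <;> simp [LV31_T]

private theorem LV31_T_cont (τ : ℂ) : Continuous (LV31_T τ) := by
  have h : LV31_T τ = fun z => ((z.re + τ.re * z.im : ℝ) : ℂ) + ((τ.im * z.im : ℝ) : ℂ) * Complex.I := by
    funext z
    apply Complex.ext <;> simp [LV31_T]
  rw [h]
  fun_prop

private theorem LV31_slit {τ z : ℂ} (hτ : 0 < τ.im) (hz : z ≠ 0) :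
    LV31_T τ z / z ∈ Complex.slitPlane := by
  rw [Complex.mem_slitPlane_iff]
  by_contra hcon
  rw [not_or, not_lt, not_not] at hcon
  obtain ⟨h1, h2⟩ := hcon
  set u := LV31_T τ z / z with hu
  have h3 : LV31_T τ z = u * z := by rw [hu, div_mul_cancel₀ _ hz]
  have h4 := congrArg Complex.im h3
  have h5 := congrArg Complex.re h3
  simp only [LV31_T, Complex.mul_im, Complex.mul_re, h2] at h4 h5
  have h6 : z.im = 0 := by
    have h7 : (τ.im - u.re) * z.im = 0 := by linarith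
    rcases mul_eq_zero.1 h7 with h8 | h8
    · linarith
    · exact h8
  have h9 : z.re = 0 := by
    have h7 : (1 - u.re) * z.re = 0 := by rw [h6] at h5; linarith
    rcases mul_eq_zero.1 h7 with h8 | h8
    · linarith
    · exact h8
  exact hz (Complex.ext h9 h6)

private theorem LV31_G_pow {k : ℕ} (hk : k ≠ 0) (τ w : ℂ) : (LV31_G k τ w) ^ k = LV31_T τ (w ^ k) := by
  unfold LV31_G
  by_cases hw : w = 0
  · subst hw
    rw [zero_mul, zero_pow hk, LV31_T_zero]
  · rw [mul_pow, Complex.cpow_nat_inv_pow _ hk, mul_div_cancel₀ _ (pow_ne_zero k hw)]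

private theorem LV31_G_cont {k : ℕ} (hk : k ≠ 0) {τ : ℂ} (hτ : 0 < τ.im) : Continuous (LV31_G k τ) := by
  rw [continuous_iff_continuousAt]
  intro w
  by_cases hw : w = 0
  · subst hw
    have h0 : LV31_G k τ 0 = 0 := by simp [LV31_G]
    rw [ContinuousAt, h0, Metric.tendsto_nhds]
    intro ε hε
    have h1 : Tendsto (fun w : ℂ => LV31_T τ (w ^ k)) (𝓝 0) (𝓝 (LV31_T τ ((0 : ℂ) ^ k))) :=
      (((LV31_T_cont τ).comp (continuous_pow k)).tendsto 0)
    rw [zero_pow hk, LV31_T_zero, Metric.tendsto_nhds] at h1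
    filter_upwards [h1 (ε ^ k) (pow_pos hε k)] with w hw
    rw [dist_zero_right] at hw ⊢
    rw [← LV31_G_pow hk, norm_pow] at hw
    exact lt_of_pow_lt_pow_left₀ k hε.le hw
  · have hwk : w ^ k ≠ 0 := pow_ne_zero k hw
    have h1 : ContinuousAt (fun w : ℂ => LV31_T τ (w ^ k) / w ^ k) w :=
      (((LV31_T_cont τ).comp (continuous_pow k)).continuousAt).div
        (continuous_pow k).continuousAt hwk
    have h2 : ContinuousAt (fun x : ℂ => x ^ ((k : ℂ)⁻¹)) (LV31_T τ (w ^ k) / w ^ k) :=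
      continuousAt_cpow_const (LV31_slit hτ hwk)
    exact continuousAt_id.mul (ContinuousAt.comp (f := fun w : ℂ => LV31_T τ (w ^ k) / w ^ k)
      (g := fun x : ℂ => x ^ ((k : ℂ)⁻¹)) h2 h1)

private theorem LV31_G_G {k : ℕ} (hk : k ≠ 0) {τ σ : ℂ} (hτ : 0 < τ.im)
    (hinv : ∀ z, LV31_T σ (LV31_T τ z) = z) (w : ℂ) : LV31_G k σ (LV31_G k τ w) = w := by
  by_cases hw : w = 0
  · subst hw
    simp [LV31_G]
  · have hwk : w ^ k ≠ 0 := pow_ne_zero k hw
    have hs := LV31_slit hτ hwk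
    have hT : LV31_T τ (w ^ k) ≠ 0 := by
      intro h
      have h1 := hinv (w ^ k)
      rw [h, LV31_T_zero] at h1
      exact hwk h1.symm
    have h1 : LV31_G k σ (LV31_G k τ w) =
        LV31_G k τ w * (w ^ k / LV31_T τ (w ^ k)) ^ ((k : ℂ)⁻¹) := by
      conv_lhs => rw [LV31_G]
      rw [LV31_G_pow hk, hinv]
    rw [h1, LV31_G, mul_assoc]
    have h2 : w ^ k / LV31_T τ (w ^ k) = (LV31_T τ (w ^ k) / w ^ k)⁻¹ := by rw [inv_div]
    rw [h2, Complex.inv_cpow _ _ (Complex.mem_slitPlane_iff_arg.1 hs).1, mul_inv_cancel₀, mul_one]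
    intro h3
    rw [Complex.cpow_eq_zero_iff] at h3
    exact (Complex.mem_slitPlane_iff_arg.1 hs).2 h3.1

private noncomputable def LV31_homeo (k : ℕ) (hk : k ≠ 0) (τ : ℂ) (hτ : 0 < τ.im) : ℂ ≃ₜ ℂ where
  toFun := LV31_G k τ
  invFun := LV31_G k ⟨-τ.re / τ.im, 1 / τ.im⟩
  left_inv := by
    intro w
    apply LV31_G_G hk hτ
    intro z
    apply Complex.ext
    · simp only [LV31_T]
      field_simp
      ring
    · simp only [LV31_T]
      field_simp
  right_inv := by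
    intro w
    apply LV31_G_G hk (by positivity)
    intro z
    apply Complex.ext
    · simp only [LV31_T]
      field_simp
      ring
    · simp only [LV31_T]
      field_simp
  continuous_toFun := LV31_G_cont hk hτ
  continuous_invFun := LV31_G_cont hk (by positivity)

theorem exists_power_homeo (C : GL (Fin 2) ℝ) (hC : 0 < C 0 0 * C 1 1 - C 0 1 * C 1 0) (k : ℕ)
    (hk : k ≠ 0) : ∃ Λ : ℂ ≃ₜ ℂ, Λ 0 = 0 ∧ ∀ w, (Λ w) ^ k = act C (w ^ k) := by
  set p := C 0 0 with hp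
  set q := C 1 0 with hq
  set r := C 0 1 with hr
  set s := C 1 1 with hs
  have hn : 0 < p ^ 2 + q ^ 2 := by
    have h0 : 0 ≤ p ^ 2 + q ^ 2 := by positivity
    rcases h0.lt_or_eq with h | h
    · exact h
    · exfalso
      have h1 : p = 0 := by nlinarith [sq_nonneg p, sq_nonneg q]
      have h2 : q = 0 := by nlinarith [sq_nonneg p, sq_nonneg q]
      rw [h1, h2] at hC
      linarith
  set τ : ℂ := ⟨(p * r + q * s) / (p ^ 2 + q ^ 2), (p * s - r * q) / (p ^ 2 + q ^ 2)⟩ with hτd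
  have hτ : 0 < τ.im := div_pos hC hn
  set a : ℂ := ⟨p, q⟩ with ha
  have ha0 : a ≠ 0 := by
    intro h
    have h1 : p = 0 := congrArg Complex.re h
    have h2 : q = 0 := congrArg Complex.im h
    rw [h1, h2] at hn
    norm_num at hn
  set μ : ℂ := a ^ ((k : ℂ)⁻¹) with hμ
  have hμk : μ ^ k = a := Complex.cpow_nat_inv_pow a hk
  have hμ0 : μ ≠ 0 := by
    intro h
    rw [h, zero_pow hk] at hμk
    exact ha0 hμk.symm
  refine ⟨(LV31_homeo k hk τ hτ).trans (Homeomorph.mulLeft₀ μ hμ0), ?_, ?_⟩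
  · change μ * LV31_G k τ 0 = 0
    simp [LV31_G]
  · intro w
    change (μ * LV31_G k τ w) ^ k = _
    rw [mul_pow, hμk, LV31_G_pow hk]
    generalize w ^ k = z
    apply Complex.ext
    · simp only [Complex.mul_re, LV31_T, act, ha, hτd, ← hp, ← hq, ← hr, ← hs]
      field_simp
      ring
    · simp only [Complex.mul_im, LV31_T, act, ha, hτd, ← hp, ← hq, ← hr, ← hs]
      field_simp
      ring

private theorem LV31_act_cont (C : GL (Fin 2) ℝ) : Continuous (act C) := by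
  have h : act C = fun z => ((C 0 0 * z.re + C 0 1 * z.im : ℝ) : ℂ) +
      ((C 1 0 * z.re + C 1 1 * z.im : ℝ) : ℂ) * Complex.I := by
    funext z
    apply Complex.ext <;> simp [act]
  rw [h]
  fun_prop

private noncomputable def LV31_L (C : GL (Fin 2) ℝ) : ℂ ≃ₜ ℂ where
  toFun := act C
  invFun := act C⁻¹
  left_inv := act_inv_act C
  right_inv := act_act_inv C
  continuous_toFun := LV31_act_cont C
  continuous_invFun := LV31_act_cont C⁻¹

private theorem LV31_trans {S : Type*} [TopologicalSpace S] (e : OpenPartialHomeomorph S ℂ)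
    (C : GL (Fin 2) ℝ) :
    (e.transHomeomorph (LV31_L C).symm).transHomeomorph (LV31_L C) = e := by
  apply OpenPartialHomeomorph.ext
  · intro x
    change act C (act C⁻¹ (e x)) = e x
    rw [act_act_inv]
  · intro x
    change e.symm (act C (act C⁻¹ x)) = e.symm x
    rw [act_act_inv]
  · rfl

private noncomputable def LV31_str {S : Type*} [TopologicalSpace S] (ω : TranslationStructure S)
    (C : GL (Fin 2) ℝ) (hC : 0 < C 0 0 * C 1 1 - C 0 1 * C 1 0) : TranslationStructure S where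
  sing := ω.sing
  isClosed_sing := ω.isClosed_sing
  isDiscrete_sing := ω.isDiscrete_sing
  atlas := {e | ∃ e₀ ∈ ω.atlas, e = e₀.transHomeomorph (LV31_L C)}
  source_subset := by
    rintro _ ⟨e₀, he₀, rfl⟩
    exact ω.source_subset e₀ he₀
  covers := by
    intro p hp
    obtain ⟨e₀, he₀, hpe⟩ := ω.covers p hp
    exact ⟨_, ⟨e₀, he₀, rfl⟩, hpe⟩
  compatible := by
    rintro _ ⟨e₀, he₀, rfl⟩ _ ⟨e₁, he₁, rfl⟩ p hp
    obtain ⟨c, hc⟩ := ω.compatible e₀ he₀ e₁ he₁ p hp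
    refine ⟨act C c, ?_⟩
    filter_upwards [hc] with q hq
    change act C (e₁ q) = act C (e₀ q) + act C c
    rw [hq, act_add]
  maximal := by
    intro e hes hcomp
    refine ⟨e.transHomeomorph (LV31_L C).symm, ?_, (LV31_trans e C).symm⟩
    refine ω.maximal _ hes ?_
    intro e' he' p hp
    obtain ⟨c, hc⟩ := hcomp (e'.transHomeomorph (LV31_L C)) ⟨e', he', rfl⟩ p hp
    refine ⟨act C⁻¹ c, ?_⟩
    filter_upwards [hc] with q hq
    change act C (e' q) = e q + c at hq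
    change e' q = act C⁻¹ (e q) + act C⁻¹ c
    rw [← act_add, ← hq, act_inv_act]
  cone := by
    intro p hp
    obtain ⟨k, hk, φ, hpφ, hφp, hφ⟩ := ω.cone p hp
    obtain ⟨Λ, hΛ0, hΛ⟩ := exists_power_homeo C hC k (by omega)
    refine ⟨k, hk, φ.transHomeomorph Λ, hpφ, ?_, ?_⟩
    · change Λ (φ p) = 0
      rw [hφp, hΛ0]
    · intro q hq hqp
      obtain ⟨h1, h2⟩ := hφ q hq hqp
      refine ⟨h1, ?_⟩
      rintro _ ⟨e₀, he₀, rfl⟩ hqe
      obtain ⟨c, hc⟩ := h2 e₀ he₀ hqe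
      refine ⟨act C c, ?_⟩
      filter_upwards [hc] with q' hq'
      change act C (e₀ q') = (Λ (φ q')) ^ k + act C c
      rw [hq', act_add, hΛ]

theorem exists_conj {S : Type*} [TopologicalSpace S] (ω : TranslationStructure S)
    (C : GL (Fin 2) ℝ) (hC : 0 < C 0 0 * C 1 1 - C 0 1 * C 1 0) :
    ∃ ω' : TranslationStructure S, ω'.sing = ω.sing ∧
      ∀ (f : S ≃ₜ S) (A : GL (Fin 2) ℝ), IsAffine ω f A ↔ IsAffine ω' f (C * A * C⁻¹) := by
  refine ⟨LV31_str ω C hC, rfl, ?_⟩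
  intro f A
  constructor
  · rintro ⟨h1, h2⟩
    refine ⟨h1, ?_⟩
    rintro p hp _ ⟨e₀, he₀, rfl⟩ hpe _ ⟨e₁, he₁, rfl⟩ hpe'
    obtain ⟨c, hc⟩ := h2 p hp e₀ he₀ hpe e₁ he₁ hpe'
    refine ⟨act C c, ?_⟩
    filter_upwards [hc] with q hq
    change act C (e₁ (f q)) = act (C * A * C⁻¹) (act C (e₀ q)) + act C c
    rw [hq, act_add, act_mul, act_mul, act_inv_act]
  · rintro ⟨h1, h2⟩
    refine ⟨h1, ?_⟩
    intro p hp e₀ he₀ hpe e₁ he₁ hpe'
    obtain ⟨c, hc⟩ := h2 p hp (e₀.transHomeomorph (LV31_L C)) ⟨e₀, he₀, rfl⟩ hpe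
      (e₁.transHomeomorph (LV31_L C)) ⟨e₁, he₁, rfl⟩ hpe'
    refine ⟨act C⁻¹ c, ?_⟩
    filter_upwards [hc] with q hq
    change act C (e₁ (f q)) = act (C * A * C⁻¹) (act C (e₀ q)) + c at hq
    rw [act_mul, act_mul, act_inv_act] at hq
    have h3 := congrArg (act C⁻¹) hq
    rw [act_inv_act, act_add, act_inv_act] at h3
    exact h3

end LadderVeech
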