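import Pool.Agent.LadderVeech.LV17
import Pool.Agent.LadderVeech.LV31
import Pool.Agent.LadderVeech.Tang

/-!
LV32. All elements of the Lie algebra of the zero flux group are singular.

PROOFS.
* `conj_groups`: from exists_conj: `A ∈ veechGroup ω ↔ C A C⁻¹ ∈ veechGroup ω'` (mem_veechGroup; determinant
  unchanged), same for veechPlus, veechZero (`ZeroFlux` does not depend on `ω`: `ZeroFlux ω f` unfolds to a statement in
  which `ω` occurs only through a proof, so `ZeroFlux ω f ↔ ZeroFlux ω' f` is `Iff.rfl`), and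
  `B ∈ tang (veechZero ω) ↔ C B C⁻¹ ∈ tang (veechZero ω')` (expGL_conj).
* `tang_det_zero`: `0 ≤ det B` by no_hyperbolic. Suppose `det B > 0`. `tang_det_tr` (Tang.lean, with veechZero_bound):
  trace `0`, so `B² = - δ² I`, `δ = √det B`. With `B' = δ⁻¹ B` (tang_smul): `B' = !![p, q; r, -p]`, `p² + q r = -1`,
  so `r ≠ 0`; replacing `B'` by `- B'` we may assume `r > 0`. Let `P = !![1, p; 0, r]` (columns `e₁, B' e₁`),
  `det P = r > 0`, `B' P = P jX` (as `B'² = -1`), so with `C = P⁻¹` : `C B' C⁻¹ = jX`, `det C > 0`. `conj_groups`: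
  `jX ∈ tang (veechZero ω')`, contradiction to no_rotation.
-/

open Set Filter Topology

namespace LadderVeech

theorem conj_groups (ω : TranslationStructure Ladder) (C : GL (Fin 2) ℝ)
    (hC : 0 < C 0 0 * C 1 1 - C 0 1 * C 1 0) : ∃ ω' : TranslationStructure Ladder,
      (∀ A, A ∈ veechGroup ω ↔ C * A * C⁻¹ ∈ veechGroup ω') ∧
      (∀ A, A ∈ veechPlus ω ↔ C * A * C⁻¹ ∈ veechPlus ω') ∧
      (∀ A, A ∈ veechZero ω ↔ C * A * C⁻¹ ∈ veechZero ω') ∧
      ∀ B : Matrix (Fin 2) (Fin 2) ℝ, B ∈ tang (veechZero ω) ↔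
        (C : Matrix (Fin 2) (Fin 2) ℝ) * B * ((C⁻¹ : GL (Fin 2) ℝ) : Matrix (Fin 2) (Fin 2) ℝ) ∈
          tang (veechZero ω') := by
  obtain ⟨ω', -, h⟩ := exists_conj ω C hC
  have hdet : ∀ A : GL (Fin 2) ℝ,
      Matrix.det ((C * A * C⁻¹ : GL (Fin 2) ℝ) : Matrix (Fin 2) (Fin 2) ℝ) =
        Matrix.det (A : Matrix (Fin 2) (Fin 2) ℝ) := by
    intro A
    rw [Units.val_mul, Units.val_mul, Matrix.det_units_conj]
  have hzf : ∀ f, ZeroFlux ω f ↔ ZeroFlux ω' f := fun f => Iff.rfl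
  have h0 : ∀ A, A ∈ veechZero ω ↔ C * A * C⁻¹ ∈ veechZero ω' := by
    intro A
    rw [mem_veechZero, mem_veechZero, hdet]
    constructor
    · rintro ⟨h1, f, h2, h3⟩
      exact ⟨h1, f, (h f A).1 h2, (hzf f).1 h3⟩
    · rintro ⟨h1, f, h2, h3⟩
      exact ⟨h1, f, (h f A).2 h2, (hzf f).2 h3⟩
  refine ⟨ω', ?_, ?_, h0, ?_⟩
  · intro A
    rw [mem_veechGroup, mem_veechGroup, hdet]
    exact and_congr Iff.rfl (exists_congr fun f => h f A)
  · intro A
    rw [mem_veechPlus, mem_veechPlus, hdet]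
    exact and_congr Iff.rfl (exists_congr fun f => and_congr (h f A) Iff.rfl)
  · intro B
    constructor
    · intro hB t
      have := (h0 _).1 (hB t)
      rw [expGL_conj, Matrix.mul_smul, Matrix.smul_mul] at this
      exact this
    · intro hB t
      rw [h0, expGL_conj, Matrix.mul_smul, Matrix.smul_mul]
      exact hB t

private lemma LV32_elliptic {ω : TranslationStructure Ladder} {B : Matrix (Fin 2) (Fin 2) ℝ}
    (hB : B ∈ tang (veechZero ω)) (htr : B 0 0 + B 1 1 = 0)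
    (hdet : B 0 0 * B 1 1 - B 0 1 * B 1 0 = 1) (hr : 0 < B 1 0) : False := by
  have hdet0 : Matrix.det (!![1, -(B 0 0) / B 1 0; 0, 1 / B 1 0] : Matrix (Fin 2) (Fin 2) ℝ) ≠
      0 := by
    rw [Matrix.det_fin_two]
    simp [hr.ne']
  set C : GL (Fin 2) ℝ := Matrix.GeneralLinearGroup.mkOfDetNeZero _ hdet0 with hCdef
  have hCval : (C : Matrix (Fin 2) (Fin 2) ℝ) = !![1, -(B 0 0) / B 1 0; 0, 1 / B 1 0] := rfl
  have hC : 0 < C 0 0 * C 1 1 - C 0 1 * C 1 0 := by
    rw [hCval]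
    simp [hr]
  obtain ⟨ω', -, -, -, h⟩ := conj_groups ω C hC
  have h1 := (h B).1 hB
  have h2 : (C : Matrix (Fin 2) (Fin 2) ℝ) * B = jX * (C : Matrix (Fin 2) (Fin 2) ℝ) := by
    rw [hCval, jX]
    have h11 : B 1 1 = -(B 0 0) := by linarith
    have h01 : B 0 1 = -(1 + B 0 0 ^ 2) / B 1 0 := by
      rw [h11] at hdet
      field_simp
      linarith
    ext i j
    fin_cases i <;> fin_cases j
    · simp [Matrix.mul_apply, Fin.sum_univ_two]
      field_simp
      ring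
    · simp [Matrix.mul_apply, Fin.sum_univ_two, h11, h01]
      field_simp
      ring
    · simp [Matrix.mul_apply, Fin.sum_univ_two, hr.ne']
    · simp [Matrix.mul_apply, Fin.sum_univ_two, h11]
      field_simp
  rw [h2, Matrix.mul_assoc, ← Units.val_mul, mul_inv_cancel, Units.val_one, Matrix.mul_one] at h1
  exact no_rotation h1

theorem tang_det_zero {ω : TranslationStructure Ladder} {B : Matrix (Fin 2) (Fin 2) ℝ}
    (hB : B ∈ tang (veechZero ω)) : B 0 0 * B 1 1 - B 0 1 * B 1 0 = 0 := by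
  refine le_antisymm ?_ (no_hyperbolic hB)
  by_contra hpos
  push Not at hpos
  have htr := tang_det_tr (veechZero_bound ω) hB hpos
  set δ := Real.sqrt (B 0 0 * B 1 1 - B 0 1 * B 1 0) with hδ
  have hδpos : 0 < δ := Real.sqrt_pos.2 hpos
  have hδ2 : δ ^ 2 = B 0 0 * B 1 1 - B 0 1 * B 1 0 := Real.sq_sqrt hpos.le
  have key : ∀ s : ℝ, s ^ 2 * δ ^ 2 = 1 → ¬ 0 < s * B 1 0 := by
    intro s hs hr
    refine LV32_elliptic (tang_smul hB s) ?_ ?_ ?_
    · simp only [Matrix.smul_apply, smul_eq_mul]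
      linear_combination s * htr
    · simp only [Matrix.smul_apply, smul_eq_mul]
      rw [← hs, hδ2]
      ring
    · simpa only [Matrix.smul_apply, smul_eq_mul] using hr
  have hinv : (δ⁻¹) ^ 2 * δ ^ 2 = 1 := by
    rw [← mul_pow, inv_mul_cancel₀ hδpos.ne', one_pow]
  have h10 : B 1 0 ≠ 0 := by
    intro h0
    have h11 : B 1 1 = -(B 0 0) := by linarith
    rw [h0, h11] at hpos
    nlinarith [sq_nonneg (B 0 0)]
  rcases lt_or_gt_of_ne h10 with hneg | hp
  · refine key (-δ⁻¹) (by rw [neg_sq]; exact hinv) ?_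
    have := mul_pos_of_neg_of_neg (neg_neg_of_pos (inv_pos.2 hδpos)) hneg
    exact this
  · exact key δ⁻¹ hinv (mul_pos (inv_pos.2 hδpos) hp)

end LadderVeech
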