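import Pool.Agent.LadderVeech.LV32

/-!
LV33. Countability, the Lie algebra of the whole Veech group, and linear algebra.

PROOFS.
* `not_discrete`: if `N = veechZero ω` were discrete in this sense it would be countable (a discrete subset of the
  second countable group `GL (Fin 2) ℝ` — with `U` as in the hypothesis the translates `A * V`, `V⁻¹ V ⊆ U`, isolate the
  points of `N`; e.g. show `IsDiscrete`/`DiscreteTopology N` and use
  `TopologicalSpace.separableSpace/ SecondCountable + Discrete → Countable`). veechPlus_cyclic: veechPlus is the union of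
  the sets `{A | A * T ^ k ∈ N}`, `k ∈ ℤ`: countable. veechPlus_index: if `B ∈ veechGroup ω \ veechPlus ω` then every
  other such `A` has `A * B ∈ veechPlus ω`: countable. So veechGroup would be countable.
* `tang_group`: let `expGL (t • B) ∈ veechGroup ω` for all `t`. `H = {t | expGL (t • B) ∈ veechZero ω}` is a closed
  additive subgroup of `ℝ` (isClosed_veechZero, continuous_expGL). The sets
  `{t | expGL (t • B) * g ∈ veechZero ω}` for `g` in a countable set (`T^k` and `B₀ T^k`.., see above) cover `ℝ`, each is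
  contained in a coset of `H`; so `H` is uncountable. `AddSubgroup.dense_or_cyclic`: a cyclic subgroup of `ℝ` is
  countable, so `H` is dense and closed, `H = ℝ`.
* `tang_cases`: let `𝔫` be closed under addition and multiplication by reals, all determinants zero. If all elements
  have a common kernel vector `u ≠ 0` choose `C` with `C u = e₁`, `det C > 0` (first alternative: the first column of
  `C B C⁻¹` is zero). Otherwise there are `B₁, B₂ ∈ 𝔫`, nonzero, with different kernels; rank one: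
  `B_i = v_i φ_iᵀ`, `φ₁, φ₂` independent; `det (B₁ + B₂) = det [v₁ v₂] * det [φ₁ φ₂] = 0`, so `v₁, v₂` are parallel,
  and `𝔫` contains all `v φᵀ`, `v = v₁`. Choose `C`, `det C > 0`, `C v = e₁`; `C⁻¹ !![p, q; 0, 0] C = v φᵀ ∈ 𝔫`.
-/

open Set Filter Topology

namespace LadderVeech

private theorem LV33_cover (ω : TranslationStructure Ladder) :
    ∃ K : Set (GL (Fin 2) ℝ), K.Countable ∧ ∀ A ∈ veechGroup ω, ∃ g ∈ K, A * g ∈ veechZero ω := by
  obtain ⟨T, -, hT⟩ := veechPlus_cyclic (ω := ω)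
  by_cases hex : ∃ B ∈ veechGroup ω, B ∉ veechPlus ω
  · obtain ⟨B, hB, hB'⟩ := hex
    refine ⟨range (fun k : ℤ => T ^ k) ∪ range (fun k : ℤ => B * T ^ k),
      (countable_range _).union (countable_range _), fun A hA => ?_⟩
    by_cases hA' : A ∈ veechPlus ω
    · obtain ⟨k, hk⟩ := hT A hA'
      exact ⟨T ^ k, Or.inl ⟨k, rfl⟩, hk⟩
    · obtain ⟨k, hk⟩ := hT (A * B) (veechPlus_index hA hB hA' hB')
      exact ⟨B * T ^ k, Or.inr ⟨k, rfl⟩, by rwa [← mul_assoc]⟩
  · refine ⟨range (fun k : ℤ => T ^ k), countable_range _, fun A hA => ?_⟩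
    have hA' : A ∈ veechPlus ω := by
      by_contra h
      exact hex ⟨A, hA, h⟩
    obtain ⟨k, hk⟩ := hT A hA'
    exact ⟨T ^ k, ⟨k, rfl⟩, hk⟩

open scoped Matrix.Norms.Operator in
private theorem LV33_second : SecondCountableTopology (GL (Fin 2) ℝ) := by
  have h1 : SecondCountableTopology (Matrix (Fin 2) (Fin 2) ℝ) :=
    inferInstanceAs (SecondCountableTopology (Fin 2 → Fin 2 → ℝ))
  exact (Units.isOpenEmbedding_val (R := Matrix (Fin 2) (Fin 2) ℝ)).isEmbedding.isInducing.secondCountableTopology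

private theorem LV33_countable {N : Subgroup (GL (Fin 2) ℝ)} {U : Set (GL (Fin 2) ℝ)}
    (hU : U ∈ 𝓝 (1 : GL (Fin 2) ℝ)) (h : ∀ A ∈ N, A ∈ U → A = 1) :
    (N : Set (GL (Fin 2) ℝ)).Countable := by
  have := LV33_second
  obtain ⟨V, hVU, hV, h1V⟩ := mem_nhds_iff.1 hU
  have hopen : IsOpen ({1} : Set N) := by
    have h2 : ({1} : Set N) = Subtype.val ⁻¹' V := by
      ext ⟨A, hA⟩
      constructor
      · intro h3
        rw [mem_singleton_iff] at h3
        have h4 : A = 1 := congrArg Subtype.val h3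
        change A ∈ V
        rw [h4]
        exact h1V
      · intro h3
        rw [mem_singleton_iff]
        exact Subtype.ext (h A hA (hVU h3))
    rw [h2]
    exact hV.preimage continuous_subtype_val
  have : DiscreteTopology N := discreteTopology_of_isOpen_singleton_one hopen
  have : SecondCountableTopology N := inferInstance
  have h3 : Countable N := countable_of_Lindelof_of_discrete
  exact h3.to_set

theorem not_discrete {ω : TranslationStructure Ladder}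
    (hG : ¬ (veechGroup ω : Set (GL (Fin 2) ℝ)).Countable) :
    ¬ ∃ U ∈ 𝓝 (1 : GL (Fin 2) ℝ), ∀ A ∈ veechZero ω, A ∈ U → A = 1 := by
  rintro ⟨U, hU, hUA⟩
  apply hG
  have hN := LV33_countable hU hUA
  obtain ⟨K, hK, hK'⟩ := LV33_cover ω
  refine (hK.biUnion (t := fun g _ => (fun C => C * g⁻¹) '' (veechZero ω : Set (GL (Fin 2) ℝ)))
    (fun g _ => hN.image _)).mono ?_
  intro A hA
  obtain ⟨g, hg, hAg⟩ := hK' A hA
  rw [mem_iUnion₂]
  exact ⟨g, hg, A * g, hAg, by simp⟩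

theorem tang_group {ω : TranslationStructure Ladder} {B : Matrix (Fin 2) (Fin 2) ℝ}
    (hB : B ∈ tang (veechGroup ω)) : B ∈ tang (veechZero ω) := by
  obtain ⟨K, hK, hK'⟩ := LV33_cover ω
  let H : AddSubgroup ℝ :=
    { carrier := {t | expGL (t • B) ∈ veechZero ω}
      add_mem' := by
        intro s t hs ht
        change expGL ((s + t) • B) ∈ veechZero ω
        rw [expGL_smul_add]
        exact (veechZero ω).mul_mem hs ht
      zero_mem' := by
        change expGL ((0 : ℝ) • B) ∈ veechZero ω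
        rw [zero_smul, expGL_zero]
        exact (veechZero ω).one_mem
      neg_mem' := by
        intro t ht
        change expGL ((-t) • B) ∈ veechZero ω
        rw [neg_smul, expGL_neg]
        exact (veechZero ω).inv_mem ht }
  have hHm : ∀ t : ℝ, t ∈ H ↔ expGL (t • B) ∈ veechZero ω := fun t => Iff.rfl
  have hHc : IsClosed (H : Set ℝ) := by
    have h1 : Continuous (fun t : ℝ => expGL (t • B)) :=
      continuous_expGL.comp (continuous_id.smul continuous_const)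
    exact (isClosed_veechZero (ω := ω)).preimage h1
  have hHn : ¬ (H : Set ℝ).Countable := by
    intro hc
    apply (Cardinal.not_countable_real : ¬ (univ : Set ℝ).Countable)
    have h1 : ∀ g ∈ K, {t : ℝ | expGL (t • B) * g ∈ veechZero ω}.Countable := by
      intro g _
      by_cases hne : ({t : ℝ | expGL (t • B) * g ∈ veechZero ω}).Nonempty
      · obtain ⟨s, hs⟩ := hne
        refine (hc.image (fun t => t + s)).mono ?_
        intro t ht
        refine ⟨t - s, ?_, by ring⟩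
        change expGL ((t - s) • B) ∈ veechZero ω
        have h2 := (veechZero ω).mul_mem ht ((veechZero ω).inv_mem hs)
        have h3 : expGL (t • B) * g * (expGL (s • B) * g)⁻¹ = expGL ((t - s) • B) := by
          rw [sub_eq_add_neg, expGL_smul_add, neg_smul, expGL_neg]
          group
        rwa [h3] at h2
      · rw [not_nonempty_iff_eq_empty] at hne
        rw [hne]
        exact countable_empty
    refine (hK.biUnion h1).mono ?_
    intro t _
    obtain ⟨g, hg, hAg⟩ := hK' _ (hB t)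
    rw [mem_iUnion₂]
    exact ⟨g, hg, hAg⟩
  rcases AddSubgroup.dense_or_cyclic H with hd | ⟨a, ha⟩
  · intro t
    have h1 : (H : Set ℝ) = univ := by
      rw [← hHc.closure_eq]
      exact hd.closure_eq
    have h2 : t ∈ (H : Set ℝ) := by rw [h1]; exact mem_univ t
    exact h2
  · exfalso
    apply hHn
    refine (countable_range (fun k : ℤ => k • a)).mono ?_
    intro t ht
    have ht' : t ∈ H := ht
    rw [ha, AddSubgroup.mem_closure_singleton] at ht'
    exact ht'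

private theorem LV33_rank_one (B : Matrix (Fin 2) (Fin 2) ℝ)
    (hdet : B 0 0 * B 1 1 - B 0 1 * B 1 0 = 0) :
    ∃ v0 v1 f0 f1 : ℝ, 0 < v0 ^ 2 + v1 ^ 2 ∧ B 0 0 = v0 * f0 ∧ B 0 1 = v0 * f1 ∧
      B 1 0 = v1 * f0 ∧ B 1 1 = v1 * f1 := by
  by_cases h0 : B 0 0 = 0
  · by_cases h1 : B 0 1 = 0
    · exact ⟨0, 1, B 1 0, B 1 1, by norm_num, by rw [h0]; ring, by rw [h1]; ring, by ring, by ring⟩
    · have h2 : B 1 0 = 0 := by
        rw [h0] at hdet
        have h3 : B 0 1 * B 1 0 = 0 := by linarith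
        rcases mul_eq_zero.1 h3 with h | h
        · exact absurd h h1
        · exact h
      exact ⟨1, B 1 1 / B 0 1, B 0 0, B 0 1, by positivity, by ring, by ring,
        by rw [h0, h2]; ring, by field_simp⟩
  · refine ⟨1, B 1 0 / B 0 0, B 0 0, B 0 1, by positivity, by ring, by ring, by field_simp, ?_⟩
    field_simp
    linarith

theorem tang_cases {n : Set (Matrix (Fin 2) (Fin 2) ℝ)} (hadd : ∀ B ∈ n, ∀ B' ∈ n, B + B' ∈ n)
    (hsmul : ∀ B ∈ n, ∀ s : ℝ, s • B ∈ n) (hdet : ∀ B ∈ n, B 0 0 * B 1 1 - B 0 1 * B 1 0 = 0) :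
    ∃ C : GL (Fin 2) ℝ, 0 < C 0 0 * C 1 1 - C 0 1 * C 1 0 ∧
      ((∀ B ∈ n, ((C : Matrix (Fin 2) (Fin 2) ℝ) * B *
          ((C⁻¹ : GL (Fin 2) ℝ) : Matrix (Fin 2) (Fin 2) ℝ)) 0 0 = 0 ∧
        ((C : Matrix (Fin 2) (Fin 2) ℝ) * B *
          ((C⁻¹ : GL (Fin 2) ℝ) : Matrix (Fin 2) (Fin 2) ℝ)) 1 0 = 0) ∨
      ∀ p q : ℝ, ((C⁻¹ : GL (Fin 2) ℝ) : Matrix (Fin 2) (Fin 2) ℝ) * !![p, q; 0, 0] *
        (C : Matrix (Fin 2) (Fin 2) ℝ) ∈ n) := by
  -- the matrix with `C v = e₁`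
  have hC : ∀ v0 v1 : ℝ, 0 < v0 ^ 2 + v1 ^ 2 → ∃ C : GL (Fin 2) ℝ,
      (C : Matrix (Fin 2) (Fin 2) ℝ) = !![v0 / (v0 ^ 2 + v1 ^ 2), v1 / (v0 ^ 2 + v1 ^ 2);
        -v1 / (v0 ^ 2 + v1 ^ 2), v0 / (v0 ^ 2 + v1 ^ 2)] ∧
      ((C⁻¹ : GL (Fin 2) ℝ) : Matrix (Fin 2) (Fin 2) ℝ) = !![v0, -v1; v1, v0] := by
    intro v0 v1 hD
    have hD' : v0 ^ 2 + v1 ^ 2 ≠ 0 := hD.ne'
    refine ⟨⟨!![v0 / (v0 ^ 2 + v1 ^ 2), v1 / (v0 ^ 2 + v1 ^ 2);
        -v1 / (v0 ^ 2 + v1 ^ 2), v0 / (v0 ^ 2 + v1 ^ 2)], !![v0, -v1; v1, v0], ?_, ?_⟩, rfl, rfl⟩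
    · ext i j
      fin_cases i <;> fin_cases j <;> simp [Matrix.mul_apply, Fin.sum_univ_two] <;> field_simp <;> ring
    · ext i j
      fin_cases i <;> fin_cases j <;> simp [Matrix.mul_apply, Fin.sum_univ_two] <;> field_simp <;> ring
  have hCd : ∀ v0 v1 : ℝ, 0 < v0 ^ 2 + v1 ^ 2 → ∀ C : GL (Fin 2) ℝ,
      (C : Matrix (Fin 2) (Fin 2) ℝ) = !![v0 / (v0 ^ 2 + v1 ^ 2), v1 / (v0 ^ 2 + v1 ^ 2);
        -v1 / (v0 ^ 2 + v1 ^ 2), v0 / (v0 ^ 2 + v1 ^ 2)] →
      0 < C 0 0 * C 1 1 - C 0 1 * C 1 0 := by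
    intro v0 v1 hD C h
    rw [h]
    have h1 : v0 / (v0 ^ 2 + v1 ^ 2) * (v0 / (v0 ^ 2 + v1 ^ 2)) -
        v1 / (v0 ^ 2 + v1 ^ 2) * (-v1 / (v0 ^ 2 + v1 ^ 2)) = 1 / (v0 ^ 2 + v1 ^ 2) := by
      field_simp
      ring
    simp only [Matrix.of_apply, Matrix.cons_val', Matrix.cons_val_zero, Matrix.cons_val_one,
      Matrix.cons_val_fin_one]
    rw [h1]
    positivity
  by_cases hker : ∃ u0 u1 : ℝ, 0 < u0 ^ 2 + u1 ^ 2 ∧ ∀ B ∈ n, B 0 0 * u0 + B 0 1 * u1 = 0 ∧
      B 1 0 * u0 + B 1 1 * u1 = 0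
  · obtain ⟨u0, u1, hu, hB⟩ := hker
    obtain ⟨C, hC1, hC2⟩ := hC u0 u1 hu
    refine ⟨C, hCd u0 u1 hu C hC1, Or.inl ?_⟩
    intro B hBn
    obtain ⟨h1, h2⟩ := hB B hBn
    rw [hC1, hC2]
    have hD' : u0 ^ 2 + u1 ^ 2 ≠ 0 := hu.ne'
    constructor
    · simp only [Matrix.mul_apply, Fin.sum_univ_two, Matrix.of_apply, Matrix.cons_val',
        Matrix.cons_val_zero, Matrix.cons_val_one, Matrix.cons_val_fin_one]
      linear_combination (u0 / (u0 ^ 2 + u1 ^ 2)) * h1 + (u1 / (u0 ^ 2 + u1 ^ 2)) * h2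
    · simp only [Matrix.mul_apply, Fin.sum_univ_two, Matrix.of_apply, Matrix.cons_val',
        Matrix.cons_val_zero, Matrix.cons_val_one, Matrix.cons_val_fin_one]
      linear_combination (-u1 / (u0 ^ 2 + u1 ^ 2)) * h1 + (u0 / (u0 ^ 2 + u1 ^ 2)) * h2
  · -- a nonzero element
    have hex : ∃ B₁ ∈ n, ¬ (B₁ 0 0 = 0 ∧ B₁ 0 1 = 0 ∧ B₁ 1 0 = 0 ∧ B₁ 1 1 = 0) := by
      by_contra hcon
      apply hker
      refine ⟨1, 0, by norm_num, fun B hB => ?_⟩
      have h1 : B 0 0 = 0 ∧ B 0 1 = 0 ∧ B 1 0 = 0 ∧ B 1 1 = 0 := by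
        by_contra h
        exact hcon ⟨B, hB, h⟩
      rw [h1.1, h1.2.1, h1.2.2.1, h1.2.2.2]
      constructor <;> ring
    obtain ⟨B₁, hB₁, hB₁0⟩ := hex
    obtain ⟨v0, v1, f0, f1, hv, a1, a2, a3, a4⟩ := LV33_rank_one B₁ (hdet B₁ hB₁)
    have hf : 0 < f0 ^ 2 + f1 ^ 2 := by
      have h0 : 0 ≤ f0 ^ 2 + f1 ^ 2 := by positivity
      rcases h0.lt_or_eq with h | h
      · exact h
      · exfalso
        have h1 : f0 = 0 := by nlinarith [sq_nonneg f0, sq_nonneg f1]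
        have h2 : f1 = 0 := by nlinarith [sq_nonneg f0, sq_nonneg f1]
        apply hB₁0
        rw [a1, a2, a3, a4, h1, h2]
        refine ⟨by ring, by ring, by ring, by ring⟩
    have hex2 : ∃ B₂ ∈ n, ¬ (B₂ 0 0 * (-f1) + B₂ 0 1 * f0 = 0 ∧ B₂ 1 0 * (-f1) + B₂ 1 1 * f0 = 0) := by
      by_contra hcon
      apply hker
      refine ⟨-f1, f0, by nlinarith, fun B hB => ?_⟩
      by_contra h
      exact hcon ⟨B, hB, h⟩
    obtain ⟨B₂, hB₂, hB₂u⟩ := hex2
    obtain ⟨w0, w1, g0, g1, hw, b1, b2, b3, b4⟩ := LV33_rank_one B₂ (hdet B₂ hB₂)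
    have hΔ : f0 * g1 - f1 * g0 ≠ 0 := by
      intro h
      apply hB₂u
      rw [b1, b2, b3, b4]
      constructor
      · linear_combination w0 * h
      · linear_combination w1 * h
    have hpar : v0 * w1 = v1 * w0 := by
      have h1 := hdet (B₁ + B₂) (hadd B₁ hB₁ B₂ hB₂)
      simp only [Matrix.add_apply, a1, a2, a3, a4, b1, b2, b3, b4] at h1
      have h2 : (v0 * w1 - v1 * w0) * (f0 * g1 - f1 * g0) = 0 := by linear_combination h1
      rcases mul_eq_zero.1 h2 with h | h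
      · linarith
      · exact absurd h hΔ
    have hD' : v0 ^ 2 + v1 ^ 2 ≠ 0 := hv.ne'
    obtain ⟨c, hc⟩ : ∃ c : ℝ, c = (v0 * w0 + v1 * w1) / (v0 ^ 2 + v1 ^ 2) := ⟨_, rfl⟩
    have hcD : c * (v0 ^ 2 + v1 ^ 2) = v0 * w0 + v1 * w1 := by
      rw [hc]
      field_simp
    have hw0 : w0 = c * v0 := by
      have h1 : w0 * (v0 ^ 2 + v1 ^ 2) = c * v0 * (v0 ^ 2 + v1 ^ 2) := by
        linear_combination (-v1) * hpar - v0 * hcD
      exact mul_right_cancel₀ hD' h1
    have hw1 : w1 = c * v1 := by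
      have h1 : w1 * (v0 ^ 2 + v1 ^ 2) = c * v1 * (v0 ^ 2 + v1 ^ 2) := by
        linear_combination v0 * hpar - v1 * hcD
      exact mul_right_cancel₀ hD' h1
    have hc0 : c ≠ 0 := by
      intro h
      rw [hw0, hw1, h] at hw
      simp at hw
    obtain ⟨C, hC1, hC2⟩ := hC v0 v1 hv
    refine ⟨C, hCd v0 v1 hv C hC1, Or.inr ?_⟩
    intro p q
    obtain ⟨x0, hx0⟩ : ∃ x0 : ℝ, x0 = p * (v0 / (v0 ^ 2 + v1 ^ 2)) + q * (-v1 / (v0 ^ 2 + v1 ^ 2)) :=
      ⟨_, rfl⟩
    obtain ⟨x1, hx1⟩ : ∃ x1 : ℝ, x1 = p * (v1 / (v0 ^ 2 + v1 ^ 2)) + q * (v0 / (v0 ^ 2 + v1 ^ 2)) :=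
      ⟨_, rfl⟩
    obtain ⟨D, hD⟩ : ∃ D : ℝ, D = f0 * g1 - f1 * g0 := ⟨_, rfl⟩
    have hD0 : D ≠ 0 := by rw [hD]; exact hΔ
    have hcomb : ((C⁻¹ : GL (Fin 2) ℝ) : Matrix (Fin 2) (Fin 2) ℝ) * !![p, q; 0, 0] *
        (C : Matrix (Fin 2) (Fin 2) ℝ) =
        ((x0 * g1 - x1 * g0) / D) • B₁ + ((f0 * x1 - f1 * x0) / (c * D)) • B₂ := by
      rw [hC1, hC2]
      have e1 : ∀ y : ℝ, (x0 * g1 - x1 * g0) / D * (y * f0) +
          (f0 * x1 - f1 * x0) / (c * D) * (c * y * g0) = y * x0 := by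
        intro y
        field_simp
        rw [hD]
        ring
      have e2 : ∀ y : ℝ, (x0 * g1 - x1 * g0) / D * (y * f1) +
          (f0 * x1 - f1 * x0) / (c * D) * (c * y * g1) = y * x1 := by
        intro y
        field_simp
        rw [hD]
        ring
      ext i j
      fin_cases i <;> fin_cases j
      · simp only [Fin.zero_eta, Matrix.add_apply, Matrix.smul_apply, smul_eq_mul, a1, b1, hw0, e1,
          Matrix.mul_apply, Fin.sum_univ_two, Matrix.of_apply, Matrix.cons_val',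
          Matrix.cons_val_zero, Matrix.cons_val_one, Matrix.cons_val_fin_one]
        rw [hx0]
        ring
      · simp only [Fin.zero_eta, Fin.mk_one, Matrix.add_apply, Matrix.smul_apply, smul_eq_mul, a2, b2, hw0, e2,
          Matrix.mul_apply, Fin.sum_univ_two, Matrix.of_apply, Matrix.cons_val',
          Matrix.cons_val_zero, Matrix.cons_val_one, Matrix.cons_val_fin_one]
        rw [hx1]
        ring
      · simp only [Fin.zero_eta, Fin.mk_one, Matrix.add_apply, Matrix.smul_apply, smul_eq_mul, a3, b3, hw1, e1,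
          Matrix.mul_apply, Fin.sum_univ_two, Matrix.of_apply, Matrix.cons_val',
          Matrix.cons_val_zero, Matrix.cons_val_one, Matrix.cons_val_fin_one]
        rw [hx0]
        ring
      · simp only [Fin.mk_one, Matrix.add_apply, Matrix.smul_apply, smul_eq_mul, a4, b4, hw1, e2,
          Matrix.mul_apply, Fin.sum_univ_two, Matrix.of_apply, Matrix.cons_val',
          Matrix.cons_val_zero, Matrix.cons_val_one, Matrix.cons_val_fin_one]
        rw [hx1]
        ring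
    rw [hcomb]
    exact hadd _ (hsmul B₁ hB₁ _) _ (hsmul B₂ hB₂ _)

end LadderVeech
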