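import Pool.Agent.LadderVeech.LVDefs

/-!
Definitions for the realization part.
-/

open Set Filter Topology

namespace LadderVeech

/-- the polar coordinate `(x, ζ) ↦ e^{u x} ζ` of the annulus -/
noncomputable def PP (u : ℝ ≃o ℝ) (b : Ann) : ℂ := (Real.exp (u b.1) : ℂ) * (b.2 : ℂ)

/-- the developing map of the base: `(f, g)` applied to the coordinates of `PP` -/
noncomputable def WW (u : ℝ ≃o ℝ) (f g : ℝ → ℝ) (b : Ann) : ℂ :=
  ⟨f (PP u b).re, g (PP u b).im⟩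

/-- continuous with simple sign changes at all zeros -/
def SimpleZ (K : ℝ → ℝ) : Prop :=
  Continuous K ∧ ∀ x₀, K x₀ = 0 → ∃ ε > 0,
    (∀ x, |x - x₀| < ε → x ≠ x₀ → 0 < (x - x₀) * K x) ∨
    (∀ x, |x - x₀| < ε → x ≠ x₀ → (x - x₀) * K x < 0)

/-- the pattern on the real axis -/
noncomputable def pat (Kp Km : ℝ → ℝ) (u : ℝ ≃o ℝ) (r : ℝ) : ℝ :=
  if 0 < r then Kp (u.symm (Real.log r)) else Km (u.symm (Real.log (-r)))

/-- strictly increasing, continuous and odd -/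
def OddMono (f : ℝ → ℝ) : Prop := StrictMono f ∧ Continuous f ∧ ∀ x, f (-x) = -f x

/-- a homeomorphism of `ℝ` with `(-1, 1)` -/
noncomputable def sq1 (y : ℝ) : ℝ := y / Real.sqrt (1 + y ^ 2)

/-- the four types of the list -/
def InList (X : Set (GL (Fin 2) ℝ)) : Prop :=
  (∃ A : Subgroup ℝˣ, (∃ U ∈ 𝓝 (1 : ℝ), ∀ a ∈ A, (a : ℝ) ∈ U → a = 1) ∧
    (X = setP A ∨ X = setU A)) ∨ X = setS ∨ X = setSS

end LadderVeech
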