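import Pool.Agent.LadderVeech.LV19
import Pool.Agent.LadderVeech.LV24
import Pool.Agent.LadderVeech.LV29
import Pool.Agent.LadderVeech.LV30
import Pool.Agent.LadderVeech.LV33
import Pool.Agent.LadderVeech.LVDefs2

/-!
LV34. Necessity: the list of the uncountable Veech groups.
-/

open Set Filter Topology

namespace LadderVeech

section Entries

lemma LV34_det_entries (A : GL (Fin 2) ℝ) :
    Matrix.det (A : Matrix (Fin 2) (Fin 2) ℝ) = A 0 0 * A 1 1 - A 0 1 * A 1 0 :=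
  Matrix.det_fin_two _

lemma LV34_inv_mul (g : GL (Fin 2) ℝ) (i j : Fin 2) :
    g⁻¹ i 0 * g 0 j + g⁻¹ i 1 * g 1 j = if i = j then 1 else 0 := by
  rw [← mul_entry, inv_mul_cancel]
  change (1 : Matrix (Fin 2) (Fin 2) ℝ) i j = _
  rw [Matrix.one_apply]

lemma LV34_mul_inv (g : GL (Fin 2) ℝ) (i j : Fin 2) :
    g i 0 * g⁻¹ 0 j + g i 1 * g⁻¹ 1 j = if i = j then 1 else 0 := by
  rw [← mul_entry, mul_inv_cancel]
  change (1 : Matrix (Fin 2) (Fin 2) ℝ) i j = _
  rw [Matrix.one_apply]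

lemma LV34_ext {g g' : GL (Fin 2) ℝ} (h00 : g 0 0 = g' 0 0) (h01 : g 0 1 = g' 0 1)
    (h10 : g 1 0 = g' 1 0) (h11 : g 1 1 = g' 1 1) : g = g' := by
  apply Units.ext
  ext i j
  fin_cases i <;> fin_cases j
  · exact h00
  · exact h01
  · exact h10
  · exact h11

/-- `g E₁₂ g⁻¹` -/
lemma LV34_conj_false (g : GL (Fin 2) ℝ) (i j : Fin 2) :
    ((g : Matrix (Fin 2) (Fin 2) ℝ) * kX false *
      ((g⁻¹ : GL (Fin 2) ℝ) : Matrix (Fin 2) (Fin 2) ℝ)) i j = g i 0 * g⁻¹ 1 j := by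
  rw [Matrix.mul_apply, Fin.sum_univ_two, Matrix.mul_apply, Matrix.mul_apply, Fin.sum_univ_two,
    Fin.sum_univ_two]
  simp [kX]

/-- `g E₂₂ g⁻¹` -/
lemma LV34_conj_true (g : GL (Fin 2) ℝ) (i j : Fin 2) :
    ((g : Matrix (Fin 2) (Fin 2) ℝ) * kX true *
      ((g⁻¹ : GL (Fin 2) ℝ) : Matrix (Fin 2) (Fin 2) ℝ)) i j = g i 1 * g⁻¹ 1 j := by
  rw [Matrix.mul_apply, Fin.sum_univ_two, Matrix.mul_apply, Matrix.mul_apply, Fin.sum_univ_two,
    Fin.sum_univ_two]
  simp [kX]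

lemma LV34_cancel (C : GL (Fin 2) ℝ) (B : Matrix (Fin 2) (Fin 2) ℝ) :
    (C : Matrix (Fin 2) (Fin 2) ℝ) * (((C⁻¹ : GL (Fin 2) ℝ) : Matrix (Fin 2) (Fin 2) ℝ) * B *
      (C : Matrix (Fin 2) (Fin 2) ℝ)) * ((C⁻¹ : GL (Fin 2) ℝ) : Matrix (Fin 2) (Fin 2) ℝ) = B := by
  have h : (C : Matrix (Fin 2) (Fin 2) ℝ) * ((C⁻¹ : GL (Fin 2) ℝ) : Matrix (Fin 2) (Fin 2) ℝ) =
      1 := by rw [← Units.val_mul, mul_inv_cancel, Units.val_one]
  calc _ = ((C : Matrix (Fin 2) (Fin 2) ℝ) *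
        ((C⁻¹ : GL (Fin 2) ℝ) : Matrix (Fin 2) (Fin 2) ℝ)) * B *
        ((C : Matrix (Fin 2) (Fin 2) ℝ) *
          ((C⁻¹ : GL (Fin 2) ℝ) : Matrix (Fin 2) (Fin 2) ℝ)) := by
        simp only [Matrix.mul_assoc]
    _ = B := by rw [h, Matrix.one_mul, Matrix.mul_one]

lemma LV34_cancel' (C : GL (Fin 2) ℝ) (B : Matrix (Fin 2) (Fin 2) ℝ) :
    ((C⁻¹ : GL (Fin 2) ℝ) : Matrix (Fin 2) (Fin 2) ℝ) * ((C : Matrix (Fin 2) (Fin 2) ℝ) * B *
      ((C⁻¹ : GL (Fin 2) ℝ) : Matrix (Fin 2) (Fin 2) ℝ)) * (C : Matrix (Fin 2) (Fin 2) ℝ) = B := by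
  have := LV34_cancel C⁻¹ B
  rwa [inv_inv] at this

end Entries

variable {ω : TranslationStructure Ladder}

/-- the Lie algebra of the zero flux group is normalised by the Veech group -/
lemma LV34_normal {g : GL (Fin 2) ℝ} (hg : g ∈ veechGroup ω) {B : Matrix (Fin 2) (Fin 2) ℝ}
    (hB : B ∈ tang (veechZero ω)) :
    (g : Matrix (Fin 2) (Fin 2) ℝ) * B * ((g⁻¹ : GL (Fin 2) ℝ) : Matrix (Fin 2) (Fin 2) ℝ) ∈
      tang (veechZero ω) := by
  refine tang_group (tang_conj (G₁ := veechGroup ω) (N := veechGroup ω) ?_ ?_ hg)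
  · intro A hA B hB
    exact (veechGroup ω).mul_mem ((veechGroup ω).mul_mem hA hB) ((veechGroup ω).inv_mem hA)
  · intro t
    exact veechPlus_le (veechZero_le (hB t))

lemma LV34_sq {g : GL (Fin 2) ℝ} (hg : g ∈ veechGroup ω) : g * g ∈ veechPlus ω := by
  by_cases h : g ∈ veechPlus ω
  · exact (veechPlus ω).mul_mem h h
  · exact veechPlus_index hg hg h h

lemma LV34_det {g : GL (Fin 2) ℝ} (hg : g ∈ veechGroup ω) :
    0 < g 0 0 * g 1 1 - g 0 1 * g 1 0 := by
  rw [← LV34_det_entries]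
  exact (mem_veechGroup.1 hg).1

lemma LV34_exp_mem {b : Bool} (h : kX b ∈ tang (veechZero ω)) (t : ℝ) :
    expGL (t • kX b) ∈ veechGroup ω := veechPlus_le (veechZero_le (h t))

/-- the cases `P` and `U` -/
lemma LV34_PU (hcol : ∀ B ∈ tang (veechZero ω), B 0 0 = 0 ∧ B 1 0 = 0)
    (h1 : kX false ∈ tang (veechZero ω)) :
    InList (veechGroup ω : Set (GL (Fin 2) ℝ)) := by
  -- upper triangular
  have hup : ∀ g ∈ veechGroup ω, g 1 0 = 0 := by
    have key : ∀ g ∈ veechGroup ω, g⁻¹ 1 0 = 0 := by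
      intro g hg
      obtain ⟨e1, e2⟩ := hcol _ (LV34_normal hg h1)
      rw [LV34_conj_false] at e1 e2
      by_contra hne
      have h00 := (mul_eq_zero.1 e1).resolve_right hne
      have h10 := (mul_eq_zero.1 e2).resolve_right hne
      have := LV34_det hg
      rw [h00, h10] at this
      simp at this
    intro g hg
    have := key g⁻¹ ((veechGroup ω).inv_mem hg)
    rwa [inv_inv] at this
  have hne : ∀ g ∈ veechGroup ω, 0 < g 0 0 * g 1 1 := by
    intro g hg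
    have h2 := LV34_det hg
    rw [hup g hg, mul_zero, sub_zero] at h2
    exact h2
  have hne0 : ∀ g ∈ veechGroup ω, g 0 0 ≠ 0 := by
    intro g hg h0
    have := hne g hg
    rw [h0, zero_mul] at this
    exact lt_irrefl _ this
  -- the group of the entries
  set Agrp : Subgroup ℝˣ :=
    { carrier := {a | ∃ g ∈ veechGroup ω, g 0 0 = (a : ℝ)}
      mul_mem' := by
        rintro a b ⟨g, hg, hga⟩ ⟨g', hg', hgb⟩
        refine ⟨g * g', (veechGroup ω).mul_mem hg hg', ?_⟩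
        rw [mul_entry, hup g' hg', mul_zero, add_zero, hga, hgb, Units.val_mul]
      one_mem' := ⟨1, (veechGroup ω).one_mem, by simp⟩
      inv_mem' := by
        rintro a ⟨g, hg, hga⟩
        refine ⟨g⁻¹, (veechGroup ω).inv_mem hg, ?_⟩
        have h2 := LV34_inv_mul g 0 0
        rw [hup g hg, mul_zero, add_zero, if_pos rfl, hga] at h2
        rw [Units.val_inv_eq_inv_val]
        exact eq_inv_of_mul_eq_one_left h2 } with hAgrp
  have hmemA : ∀ g ∈ veechGroup ω, ∃ a ∈ Agrp, g 0 0 = (a : ℝ) := fun g hg =>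
    ⟨Units.mk0 (g 0 0) (hne0 g hg), ⟨g, hg, rfl⟩, rfl⟩
  have hA' : ∀ a ∈ Agrp, ∃ g ∈ veechGroup ω, g 0 0 = (a : ℝ) := fun a ha => ha
  clear_value Agrp
  -- discreteness
  have hdisc : ∃ U ∈ 𝓝 (1 : ℝ), ∀ a ∈ Agrp, (a : ℝ) ∈ U → a = 1 := by
    obtain ⟨U, hU, hU1⟩ := u_case_disc h1 (fun A hA => hup A (veechPlus_le hA))
    have h3 : {x : ℝ | x ^ 2 ∈ U} ∈ 𝓝 (1 : ℝ) := by
      have h4 : Tendsto (fun x : ℝ => x ^ 2) (𝓝 1) (𝓝 (1 ^ 2)) := (continuous_pow 2).tendsto 1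
      rw [one_pow] at h4
      exact h4 hU
    refine ⟨{x : ℝ | x ^ 2 ∈ U} ∩ Ioi 0, inter_mem h3 (Ioi_mem_nhds one_pos), ?_⟩
    rintro a ha ⟨haU, ha0⟩
    obtain ⟨g, hg, hga⟩ := hA' a ha
    have h4 : (g * g) 0 0 = (a : ℝ) ^ 2 := by
      rw [mul_entry, hup g hg, hga]
      ring
    have h5 := hU1 (g * g) (LV34_sq hg) (by rw [h4]; exact haU)
    rw [h4] at h5
    have ha0' : (0 : ℝ) < a := ha0
    apply Units.ext
    rw [Units.val_one]
    nlinarith
  -- multiplication by shears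
  have hshear : ∀ g g₀ : GL (Fin 2) ℝ, g₀ ∈ veechGroup ω → g 1 0 = 0 → g 0 0 = g₀ 0 0 →
      g 1 1 = g₀ 1 1 → g ∈ veechGroup ω := by
    intro g g₀ hg₀ e10 e00 e11
    obtain ⟨s1, s2, s3, s4⟩ := expGL_kX_entries false ((g 0 1 - g₀ 0 1) / g₀ 0 0)
    have h2 : g = g₀ * expGL (((g 0 1 - g₀ 0 1) / g₀ 0 0) • kX false) := by
      apply LV34_ext
      · rw [mul_entry, s1, s3, e00]; ring
      · rw [mul_entry, s2, s4]
        simp only [kch, Bool.false_eq_true, if_false]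
        have := hne0 g₀ hg₀
        field_simp
        ring
      · rw [mul_entry, s1, s3, e10, hup g₀ hg₀]; ring
      · rw [mul_entry, s2, hup g₀ hg₀, e11]
        simp only [kch, Bool.false_eq_true, if_false]
        ring
    rw [h2]
    exact (veechGroup ω).mul_mem hg₀ (LV34_exp_mem h1 _)
  left
  refine ⟨Agrp, hdisc, ?_⟩
  by_cases h2 : kX true ∈ tang (veechZero ω)
  · left
    apply Set.Subset.antisymm
    · intro g hg
      exact ⟨hup g hg, hmemA g hg, hne g hg⟩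
    · rintro g ⟨e10, ⟨a, ha, hga⟩, hpos⟩
      obtain ⟨g₀, hg₀, hg₀a⟩ := hA' a ha
      have h3 := hne g₀ hg₀
      have ha0 : (a : ℝ) ≠ 0 := a.ne_zero
      have hr : 0 < g 1 1 / g₀ 1 1 := by
        rw [hga] at hpos
        rw [hg₀a] at h3
        have h4 : 0 < ((a : ℝ) * g 1 1) / ((a : ℝ) * g₀ 1 1) := div_pos hpos h3
        rwa [mul_div_mul_left _ _ ha0] at h4
      have h11 : g₀ 1 1 ≠ 0 := by
        intro h0
        rw [h0, mul_zero] at h3
        exact lt_irrefl _ h3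
      obtain ⟨s1, s2, s3, s4⟩ := expGL_kX_entries true (Real.log (g 1 1 / g₀ 1 1))
      refine hshear g (g₀ * expGL (Real.log (g 1 1 / g₀ 1 1) • kX true))
        ((veechGroup ω).mul_mem hg₀ (LV34_exp_mem h2 _)) e10 ?_ ?_
      · rw [mul_entry, s1, s3, hga, hg₀a]; ring
      · rw [mul_entry, s2, hup g₀ hg₀]
        simp only [kch, if_true]
        rw [Real.exp_log hr]
        field_simp
        ring
  · right
    have habs : ∀ g ∈ veechGroup ω, |g 1 1| = 1 := by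
      intro g hg
      have h3 := u_case_det h1 h2 (LV34_sq hg) (by rw [mul_entry, hup g hg]; ring)
      rw [mul_entry, hup g hg, zero_mul, zero_add, abs_mul] at h3
      nlinarith [abs_nonneg (g 1 1)]
    apply Set.Subset.antisymm
    · intro g hg
      exact ⟨hup g hg, hmemA g hg, hne g hg, habs g hg⟩
    · rintro g ⟨e10, ⟨a, ha, hga⟩, hpos, hab⟩
      obtain ⟨g₀, hg₀, hg₀a⟩ := hA' a ha
      have h3 := hne g₀ hg₀
      refine hshear g g₀ hg₀ e10 (by rw [hga, hg₀a]) ?_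
      have h4 := habs g₀ hg₀
      rw [hga] at hpos
      rw [hg₀a] at h3
      rcases lt_or_gt_of_ne a.ne_zero with h | h
      · have h5 : g 1 1 < 0 := by
          by_contra hcon
          push Not at hcon
          nlinarith
        have h6 : g₀ 1 1 < 0 := by
          by_contra hcon
          push Not at hcon
          nlinarith
        rw [abs_of_neg h5] at hab
        rw [abs_of_neg h6] at h4
        linarith
      · have h5 : 0 < g 1 1 := by
          by_contra hcon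
          push Not at hcon
          nlinarith
        have h6 : 0 < g₀ 1 1 := by
          by_contra hcon
          push Not at hcon
          nlinarith
        rw [abs_of_pos h5] at hab
        rw [abs_of_pos h6] at h4
        linarith

/-- the case `S` -/
lemma LV34_S (hcol : ∀ B ∈ tang (veechZero ω), B 0 0 = 0 ∧ B 1 0 = 0)
    (h1 : kX false ∉ tang (veechZero ω)) (h2 : kX true ∈ tang (veechZero ω)) :
    InList (veechGroup ω : Set (GL (Fin 2) ℝ)) := by
  have hcol2 : ∀ B ∈ tang (veechZero ω), B 0 1 = 0 := by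
    intro B hB
    by_contra hne
    obtain ⟨e1, e2⟩ := hcol B hB
    apply h1
    have h3 := tang_smul (tang_add isClosed_veechZero hB (tang_smul h2 (-(B 1 1)))) (B 0 1)⁻¹
    have h4 : (B 0 1)⁻¹ • (B + (-(B 1 1)) • kX true) = kX false := by
      ext i j
      fin_cases i <;> fin_cases j
      · simp [kX, e1]
      · simp [kX, hne]
      · simp [kX, e2]
      · simp [kX]
    rwa [h4] at h3
  have hdiag : ∀ g ∈ veechGroup ω, g 0 1 = 0 ∧ g 1 0 = 0 := by
    have key : ∀ g ∈ veechGroup ω, g 0 1 = 0 ∧ g⁻¹ 1 0 = 0 := by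
      intro g hg
      have hmem := LV34_normal hg h2
      obtain ⟨e1, e2⟩ := hcol _ hmem
      have e3 := hcol2 _ hmem
      rw [LV34_conj_true] at e1 e2 e3
      have h10 : g⁻¹ 1 0 = 0 := by
        by_contra hne
        have h01 := (mul_eq_zero.1 e1).resolve_right hne
        have h11 := (mul_eq_zero.1 e2).resolve_right hne
        have := LV34_det hg
        rw [h01, h11] at this
        simp at this
      refine ⟨?_, h10⟩
      have h11 : g⁻¹ 1 1 ≠ 0 := by
        intro h0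
        have := LV34_det ((veechGroup ω).inv_mem hg)
        rw [h0, h10] at this
        simp at this
      exact (mul_eq_zero.1 e3).resolve_right h11
    intro g hg
    refine ⟨(key g hg).1, ?_⟩
    have := (key g⁻¹ ((veechGroup ω).inv_mem hg)).2
    rwa [inv_inv] at this
  have hpos : ∀ g ∈ veechGroup ω, 0 < g 0 0 * g 1 1 := by
    intro g hg
    have h3 := LV34_det hg
    rw [(hdiag g hg).2, mul_zero, sub_zero] at h3
    exact h3
  have habs : ∀ g ∈ veechGroup ω, |g 0 0| = 1 := by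
    intro g hg
    obtain ⟨e1, e2⟩ := hdiag g hg
    have h3 := s_case h2 h1 (LV34_sq hg)
      ⟨by rw [mul_entry, e1]; ring, by rw [mul_entry, e2]; ring⟩
    rw [mul_entry, e1, zero_mul, add_zero, abs_mul] at h3
    nlinarith [abs_nonneg (g 0 0)]
  have hscale : ∀ g g₀ : GL (Fin 2) ℝ, g₀ ∈ veechGroup ω → g 1 0 = 0 → g 0 1 = 0 →
      g 0 0 = g₀ 0 0 → 0 < g 1 1 / g₀ 1 1 → g ∈ veechGroup ω := by
    intro g g₀ hg₀ e10 e01 e00 hr
    obtain ⟨d1, d2⟩ := hdiag g₀ hg₀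
    have h11 : g₀ 1 1 ≠ 0 := by
      intro h0
      rw [h0, div_zero] at hr
      exact lt_irrefl _ hr
    obtain ⟨s1, s2, s3, s4⟩ := expGL_kX_entries true (Real.log (g 1 1 / g₀ 1 1))
    have h3 : g = g₀ * expGL (Real.log (g 1 1 / g₀ 1 1) • kX true) := by
      apply LV34_ext
      · rw [mul_entry, s1, s3, e00]; ring
      · rw [mul_entry, s2, s4, d1, e01]
        simp
      · rw [mul_entry, s1, s3, e10, d2]; ring
      · rw [mul_entry, s2, d2]
        simp only [kch, if_true]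
        rw [Real.exp_log hr]
        field_simp
        ring
    rw [h3]
    exact (veechGroup ω).mul_mem hg₀ (LV34_exp_mem h2 _)
  have hone : ∀ g : GL (Fin 2) ℝ, g 1 0 = 0 → g 0 1 = 0 → g 0 0 = 1 → 0 < g 1 1 →
      g ∈ veechGroup ω := by
    intro g e10 e01 e00 e11
    refine hscale g 1 (veechGroup ω).one_mem e10 e01 (by rw [e00]; simp) (by simpa using e11)
  right
  by_cases hex : ∃ g₁ ∈ veechGroup ω, g₁ 0 0 = -1
  · right
    obtain ⟨g₁, hg₁, hg₁a⟩ := hex
    apply Set.Subset.antisymm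
    · intro g hg
      exact ⟨(hdiag g hg).2, (hdiag g hg).1, habs g hg, hpos g hg⟩
    · rintro g ⟨e10, e01, hab, hp⟩
      rcases eq_or_eq_neg_of_abs_eq hab with h | h
      · rw [h, one_mul] at hp
        exact hone g e10 e01 h hp
      · have h3 := hpos g₁ hg₁
        rw [hg₁a] at h3
        rw [h] at hp
        refine hscale g g₁ hg₁ e10 e01 (by rw [h, hg₁a]) ?_
        exact div_pos_of_neg_of_neg (by linarith) (by linarith)
  · left
    apply Set.Subset.antisymm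
    · intro g hg
      have h3 : g 0 0 = 1 := by
        rcases eq_or_eq_neg_of_abs_eq (habs g hg) with h | h
        · exact h
        · exact absurd ⟨g, hg, h⟩ hex
      refine ⟨(hdiag g hg).2, (hdiag g hg).1, h3, ?_⟩
      have := hpos g hg
      rwa [h3, one_mul] at this
    · rintro g ⟨e10, e01, e00, e11⟩
      exact hone g e10 e01 e00 e11

lemma LV34_image {X Y : Subgroup (GL (Fin 2) ℝ)} {C : GL (Fin 2) ℝ}
    (h : ∀ A, A ∈ X ↔ C * A * C⁻¹ ∈ Y) :
    (fun g => C * g * C⁻¹) '' (X : Set (GL (Fin 2) ℝ)) = (Y : Set (GL (Fin 2) ℝ)) := by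
  apply Set.Subset.antisymm
  · rintro _ ⟨A, hA, rfl⟩
    exact (h A).1 hA
  · intro A hA
    refine ⟨C⁻¹ * A * C, ?_, ?_⟩
    · have e : C * (C⁻¹ * A * C) * C⁻¹ = A := by group
      have h2 := h (C⁻¹ * A * C)
      rw [e] at h2
      exact h2.2 hA
    · change C * (C⁻¹ * A * C) * C⁻¹ = A
      group

/-- the case of a common kernel -/
lemma LV34_core (hcol : ∀ B ∈ tang (veechZero ω), B 0 0 = 0 ∧ B 1 0 = 0)
    {B₁ : Matrix (Fin 2) (Fin 2) ℝ} (hB₁ : B₁ ∈ tang (veechZero ω)) (hB₁0 : B₁ ≠ 0) :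
    ∃ C : GL (Fin 2) ℝ, 0 < C 0 0 * C 1 1 - C 0 1 * C 1 0 ∧
      InList ((fun g => C * g * C⁻¹) '' (veechGroup ω : Set (GL (Fin 2) ℝ))) := by
  by_cases h1 : kX false ∈ tang (veechZero ω)
  · refine ⟨1, by simp, ?_⟩
    have e : (fun g : GL (Fin 2) ℝ => 1 * g * 1⁻¹) = id := by
      funext g
      simp
    rw [e, image_id]
    exact LV34_PU hcol h1
  · obtain ⟨e00, e10⟩ := hcol B₁ hB₁
    have hd : B₁ 1 1 ≠ 0 := by
      intro hd
      have hb : B₁ 0 1 ≠ 0 := by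
        intro hb
        apply hB₁0
        ext i j
        fin_cases i <;> fin_cases j
        · exact e00
        · exact hb
        · exact e10
        · exact hd
      apply h1
      have h3 := tang_smul hB₁ (B₁ 0 1)⁻¹
      have h4 : (B₁ 0 1)⁻¹ • B₁ = kX false := by
        ext i j
        fin_cases i <;> fin_cases j
        · simp [kX, e00]
        · simp [kX, hb]
        · simp [kX, e10]
        · simp [kX, hd]
      rwa [h4] at h3
    set β : ℝ := -(B₁ 0 1) / B₁ 1 1 with hβ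
    set C : GL (Fin 2) ℝ := Matrix.GeneralLinearGroup.mkOfDetNeZero !![1, β; 0, 1]
      (by rw [Matrix.det_fin_two_of]; norm_num) with hC
    have c00 : C 0 0 = 1 := rfl
    have c01 : C 0 1 = β := rfl
    have c10 : C 1 0 = 0 := rfl
    have c11 : C 1 1 = 1 := rfl
    have i00 : C⁻¹ 0 0 = 1 := by
      have := LV34_inv_mul C 0 0
      rw [c00, c10, if_pos rfl] at this
      linarith
    have i10 : C⁻¹ 1 0 = 0 := by
      have := LV34_inv_mul C 1 0
      rw [c00, c10, if_neg (by decide)] at this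
      linarith
    have i01 : C⁻¹ 0 1 = -β := by
      have := LV34_inv_mul C 0 1
      rw [c01, c11, i00, if_neg (by decide)] at this
      linarith
    have i11 : C⁻¹ 1 1 = 1 := by
      have := LV34_inv_mul C 1 1
      rw [c01, c11, i10, if_pos rfl] at this
      linarith
    clear_value C
    have hCdet : 0 < C 0 0 * C 1 1 - C 0 1 * C 1 0 := by rw [c00, c11, c10]; norm_num
    obtain ⟨ω₂, hG, -, -, hT⟩ := conj_groups ω C hCdet
    refine ⟨C, hCdet, ?_⟩
    rw [LV34_image hG]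
    have hentry : ∀ (B : Matrix (Fin 2) (Fin 2) ℝ) (i j : Fin 2),
        ((C : Matrix (Fin 2) (Fin 2) ℝ) * B *
          ((C⁻¹ : GL (Fin 2) ℝ) : Matrix (Fin 2) (Fin 2) ℝ)) i j =
        (C i 0 * B 0 0 + C i 1 * B 1 0) * C⁻¹ 0 j + (C i 0 * B 0 1 + C i 1 * B 1 1) * C⁻¹ 1 j := by
      intro B i j
      rw [Matrix.mul_apply, Fin.sum_univ_two, Matrix.mul_apply, Matrix.mul_apply,
        Fin.sum_univ_two, Fin.sum_univ_two]
    refine LV34_S ?_ ?_ ?_
    · intro B hB
      have h3 := (hT (((C⁻¹ : GL (Fin 2) ℝ) : Matrix (Fin 2) (Fin 2) ℝ) * B *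
        (C : Matrix (Fin 2) (Fin 2) ℝ))).2 (by rw [LV34_cancel]; exact hB)
      obtain ⟨f1, f2⟩ := hcol _ h3
      have h4 := LV34_cancel C B
      have f3 := congrFun (congrFun h4 0) 0
      have f4 := congrFun (congrFun h4 1) 0
      rw [hentry, f1, f2, i10] at f3 f4
      constructor
      · rw [← f3]; ring
      · rw [← f4]; ring
    · intro hcon
      apply h1
      have h3 : (C : Matrix (Fin 2) (Fin 2) ℝ) * kX false *
          ((C⁻¹ : GL (Fin 2) ℝ) : Matrix (Fin 2) (Fin 2) ℝ) = kX false := by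
        ext i j
        rw [LV34_conj_false]
        fin_cases i <;> fin_cases j
        · change C 0 0 * C⁻¹ 1 0 = _
          rw [c00, i10]; simp [kX]
        · change C 0 0 * C⁻¹ 1 1 = _
          rw [c00, i11]; simp [kX]
        · change C 1 0 * C⁻¹ 1 0 = _
          rw [c10]; simp [kX]
        · change C 1 0 * C⁻¹ 1 1 = _
          rw [c10]; simp [kX]
      exact (hT (kX false)).2 (by rw [h3]; exact hcon)
    · have h3 := (hT B₁).1 hB₁
      have h4 : (B₁ 1 1)⁻¹ • ((C : Matrix (Fin 2) (Fin 2) ℝ) * B₁ *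
          ((C⁻¹ : GL (Fin 2) ℝ) : Matrix (Fin 2) (Fin 2) ℝ)) = kX true := by
        ext i j
        rw [Matrix.smul_apply, hentry, e00, e10]
        fin_cases i <;> fin_cases j
        · change (B₁ 1 1)⁻¹ • ((C 0 0 * 0 + C 0 1 * 0) * C⁻¹ 0 0 +
            (C 0 0 * B₁ 0 1 + C 0 1 * B₁ 1 1) * C⁻¹ 1 0) = _
          rw [i10]; simp [kX]
        · change (B₁ 1 1)⁻¹ • ((C 0 0 * 0 + C 0 1 * 0) * C⁻¹ 0 1 +
            (C 0 0 * B₁ 0 1 + C 0 1 * B₁ 1 1) * C⁻¹ 1 1) = _
          have h5 : C 0 0 * B₁ 0 1 + C 0 1 * B₁ 1 1 = 0 := by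
            rw [c00, c01, hβ]
            field_simp
            ring
          rw [h5]; simp [kX]
        · change (B₁ 1 1)⁻¹ • ((C 1 0 * 0 + C 1 1 * 0) * C⁻¹ 0 0 +
            (C 1 0 * B₁ 0 1 + C 1 1 * B₁ 1 1) * C⁻¹ 1 0) = _
          rw [i10]; simp [kX]
        · change (B₁ 1 1)⁻¹ • ((C 1 0 * 0 + C 1 1 * 0) * C⁻¹ 0 1 +
            (C 1 0 * B₁ 0 1 + C 1 1 * B₁ 1 1) * C⁻¹ 1 1) = _
          rw [c10, c11, i11]; simp [kX, hd]
      have h5 := tang_smul h3 (B₁ 1 1)⁻¹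
      rwa [h4] at h5

theorem necessity (ω : TranslationStructure Ladder)
    (hG : ¬ (veechGroup ω : Set (GL (Fin 2) ℝ)).Countable) :
    ∃ C : GL (Fin 2) ℝ, 0 < C 0 0 * C 1 1 - C 0 1 * C 1 0 ∧
      InList ((fun g => C * g * C⁻¹) '' (veechGroup ω : Set (GL (Fin 2) ℝ))) := by
  obtain ⟨B₀, hB₀, hB₀0⟩ := exists_tang isClosed_veechZero (not_discrete hG)
  obtain ⟨C₁, hC₁, hcase⟩ := tang_cases (n := tang (veechZero ω))
    (fun B hB B' hB' => tang_add isClosed_veechZero hB hB') (fun B hB s => tang_smul hB s)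
    (fun B hB => tang_det_zero hB)
  obtain ⟨ω₁, hG₁, -, -, hT₁⟩ := conj_groups ω C₁ hC₁
  rcases hcase with hcase | hcase
  · have hcol : ∀ B ∈ tang (veechZero ω₁), B 0 0 = 0 ∧ B 1 0 = 0 := by
      intro B hB
      have h3 := (hT₁ (((C₁⁻¹ : GL (Fin 2) ℝ) : Matrix (Fin 2) (Fin 2) ℝ) * B *
        (C₁ : Matrix (Fin 2) (Fin 2) ℝ))).2 (by rw [LV34_cancel]; exact hB)
      have h4 := hcase _ h3
      rwa [LV34_cancel] at h4
    obtain ⟨C₂, hC₂, hlist⟩ := LV34_core hcol ((hT₁ B₀).1 hB₀) (by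
      intro h0
      apply hB₀0
      have h5 := LV34_cancel' C₁ B₀
      rw [h0] at h5
      rw [← h5]
      simp)
    refine ⟨C₂ * C₁, ?_, ?_⟩
    · rw [← LV34_det_entries] at hC₁ hC₂ ⊢
      rw [Units.val_mul, Matrix.det_mul]
      exact mul_pos hC₂ hC₁
    · have e : (fun g : GL (Fin 2) ℝ => C₂ * C₁ * g * (C₂ * C₁)⁻¹) =
          (fun g => C₂ * g * C₂⁻¹) ∘ (fun g => C₁ * g * C₁⁻¹) := by
        funext g
        simp only [Function.comp_apply]
        group
      rw [e, image_comp, LV34_image hG₁]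
      exact hlist
  · exfalso
    have h3 : ∀ p q : ℝ, (!![p, q; 0, 0] : Matrix (Fin 2) (Fin 2) ℝ) ∈ tang (veechZero ω₁) := by
      intro p q
      have h4 := (hT₁ _).1 (hcase p q)
      rwa [LV34_cancel] at h4
    refine no_image_line (ω := ω₁) (h3 1 0) ?_
    have h4 := h3 0 1
    simpa [kX] using h4

end LadderVeech
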