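import Pool.Agent.LadderVeech.LVDefs

/-!
LV41. The double cover `Cv (FF kap (1/2))` of the annulus is homeomorphic to the ladder.

PROOF. Use real coordinates: a point of the cover is `(x, ζ, v)` with `ζ = c + i s ∈ Circle`,
`v = a + i b`, and `v ^ 2 = FF ..` says `a² - b² = X := (1+c)/2 * kap x + (1-c)/2 * (1/2)`, `2ab = s`,
`c² + s² = 1`. Let `k₊ = max (kap x) 0` (`≤ 1/2`), `Sq = (1+c)/2 * k₊ + (1-c)/2 * 4 ∈ [k₊, 4]`.
Forward map to the ladder `(x, y, z)`, `z² = (4 - y²)(y² - kap x)`  (`kap x = 1/2 - sin²(π x)`):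
   `y = if 0 ≤ a then √Sq else -√Sq`,  `z = if 0 ≤ b then √((4-Sq)(Sq - kap x)) else -√(...)`.
Continuity by `Continuous.if_le`: if `a = 0` then `s = 0`, `c = ±1`; `c = -1` is impossible
(`-b² = 1/2`), so `c = 1`, `-b² = kap x ≤ 0`, `k₊ = 0`, `Sq = 0`. If `b = 0` then `s = 0`, `c = ±1`;
`c = -1`: `Sq = 4`; `c = 1`: `a² = kap x ≥ 0`, `Sq = k₊ = kap x`; in both cases the root is `0`.
Inverse: given `(x,y,z)` put `c = 1 - 2 (y² - k₊)/(4 - k₊)` (in `[-1,1]` since `k₊ ≤ y² ≤ 4`,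
`ladder_bounds`), `X` as above, `T = √(X² + 1 - c²)`,
   `a = ± √((T + X)/2)` (sign of `y`: `if 0 ≤ y`), `b = ± √((T - X)/2)` (sign of `z`), `s = 2ab`.
(`4a²b² = T² - X² = 1 - c²`.) Continuity by if_le: `y = 0` forces `k₊ = 0`, `kap x ≤ 0`, `c = 1`,
`X = kap x ≤ 0`, `T + X = 0`; `z = 0` forces `y² = 4` (`c = -1`, `X = 1/2 = T`) or `y² = kap x`
(`= k₊`, `c = 1`, `X = kap x ≥ 0`, `T = X`).
left_inv: `T = √((a²-b²)² + 4a²b²) = a² + b²`, so `(T+X)/2 = a²`; sign: if `a < 0` then `Sq ≠ 0` (else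
`c = 1`, `k₊ = 0`, `s = 0`, so `b = 0`, `a² = kap x ≤ 0`), so `y < 0`. Similarly if `b < 0` then `z < 0`:
`Sq = 4` gives `c = -1`, `a = 0` (as `b ≠ 0`), `-b² = 1/2`; `Sq = kap x` gives `Sq = k₊ = kap x`, `c = 1`,
`a = 0`, `-b² = kap x ≥ 0`. right_inv: `Sq = y²`, `(4-Sq)(Sq-kap x) = z²`, and `a < 0` iff `y < 0`
(if `y < 0` and `a = 0` then `T + X = 0`, so `c = ±1`..., `y = 0`), `b < 0` iff `z < 0`.
It may be convenient to go through the intermediate space
`{q : ℝ × ℝ × ℝ × ℝ // c² + 4a²b² = 1 ∧ a² - b² = X}` (coordinates `(x, c, a, b)`).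
-/

open Set Filter Topology

namespace LadderVeech

/-- the square root of `r` with the sign of `t` -/
private noncomputable def sr (t r : ℝ) : ℝ := if 0 ≤ t then √r else -√r

private lemma sr_sq {t r : ℝ} (hr : 0 ≤ r) : (sr t r) ^ 2 = r := by
  unfold sr
  split_ifs
  · exact Real.sq_sqrt hr
  · rw [neg_sq, Real.sq_sqrt hr]

private lemma sr_sr {t r : ℝ} (hr : 0 ≤ r) (h : r = 0 → t = 0) : sr (sr t r) (t ^ 2) = t := by
  rcases le_or_gt 0 t with ht | ht
  · have h1 : sr t r = √r := by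
      unfold sr
      rw [if_pos ht]
    rw [h1]
    unfold sr
    rw [if_pos (Real.sqrt_nonneg r), Real.sqrt_sq ht]
  · have hr' : 0 < r := lt_of_le_of_ne hr (fun h0 => ht.ne (h h0.symm))
    have h1 : sr t r = -√r := by
      unfold sr
      rw [if_neg (not_le.2 ht)]
    have h2 : ¬ (0 ≤ -√r) := by
      have := Real.sqrt_pos.2 hr'
      linarith
    rw [h1]
    unfold sr
    rw [if_neg h2, Real.sqrt_sq_eq_abs, abs_of_neg ht, neg_neg]

private lemma continuous_sr {X : Type*} [TopologicalSpace X] {t r : X → ℝ} (ht : Continuous t)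
    (hr : Continuous r) (h : ∀ p, t p = 0 → r p = 0) : Continuous fun p => sr (t p) (r p) := by
  unfold sr
  refine Continuous.if_le hr.sqrt hr.sqrt.neg continuous_const ht ?_
  intro p hp
  rw [h p hp.symm, Real.sqrt_zero, neg_zero]

private noncomputable def kp (x : ℝ) : ℝ := max (kap x) 0

private noncomputable def Xf (x c : ℝ) : ℝ := (1 + c) / 2 * kap x + (1 - c) / 2 * (1 / 2)

private noncomputable def Sf (x c : ℝ) : ℝ := (1 + c) / 2 * kp x + (1 - c) / 2 * 4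

private noncomputable def Zf (x c : ℝ) : ℝ := (4 - Sf x c) * (Sf x c - kap x)

private noncomputable def Tf (x c : ℝ) : ℝ := √(Xf x c ^ 2 + (1 - c ^ 2))

private noncomputable def Pf (x c : ℝ) : ℝ := (Tf x c + Xf x c) / 2

private noncomputable def Qf (x c : ℝ) : ℝ := (Tf x c - Xf x c) / 2

private noncomputable def cf (x y : ℝ) : ℝ := 1 - 2 * (y ^ 2 - kp x) / (4 - kp x)

private lemma continuous_kap : Continuous kap := by
  unfold kap
  fun_prop

private lemma continuous_kp : Continuous kp := by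
  unfold kp
  exact continuous_kap.max continuous_const

private lemma kap_le (x : ℝ) : kap x ≤ 1 / 2 := by
  unfold kap
  have := sq_nonneg (Real.sin (Real.pi * x))
  linarith

private lemma kp_nonneg (x : ℝ) : 0 ≤ kp x := le_max_right _ _

private lemma kap_le_kp (x : ℝ) : kap x ≤ kp x := le_max_left _ _

private lemma kp_le (x : ℝ) : kp x ≤ 1 / 2 := max_le (kap_le x) (by norm_num)

private lemma kp_of_nonneg {x : ℝ} (h : 0 ≤ kap x) : kp x = kap x := max_eq_left h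

private lemma kp_of_nonpos {x : ℝ} (h : kap x ≤ 0) : kp x = 0 := max_eq_right h

private lemma Sf_eq (x c : ℝ) : Sf x c = kp x + (1 - c) / 2 * (4 - kp x) := by
  unfold Sf
  ring

private lemma Sf_bounds {x c : ℝ} (h1 : -1 ≤ c) (h2 : c ≤ 1) : kp x ≤ Sf x c ∧ Sf x c ≤ 4 := by
  have h3 := kp_le x
  rw [Sf_eq]
  constructor
  · have : 0 ≤ (1 - c) / 2 * (4 - kp x) := mul_nonneg (by linarith) (by linarith)
    linarith
  · nlinarith

private lemma Zf_nonneg {x c : ℝ} (h1 : -1 ≤ c) (h2 : c ≤ 1) : 0 ≤ Zf x c := by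
  obtain ⟨h3, h4⟩ := Sf_bounds (x := x) h1 h2
  have h5 := kap_le_kp x
  exact mul_nonneg (by linarith) (by linarith)

private lemma c_of {c P Q : ℝ} (hP : 0 ≤ P) (hQ : 0 ≤ Q) (h : c ^ 2 + 4 * (P * Q) = 1) :
    -1 ≤ c ∧ c ≤ 1 := by
  have h1 : 0 ≤ P * Q := mul_nonneg hP hQ
  have h2 : c ^ 2 ≤ 1 := by linarith
  exact abs_le.1 (abs_le_one_iff_mul_self_le_one.2 (by nlinarith))

private lemma one_or {c : ℝ} (h : c ^ 2 = 1) : c = 1 ∨ c = -1 := by
  have h0 : (c - 1) * (c + 1) = 0 := by linear_combination h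
  rcases mul_eq_zero.1 h0 with h1 | h1
  · exact Or.inl (by linarith)
  · exact Or.inr (by linarith)

private lemma P_zero_iff {x c P Q : ℝ} (hP : 0 ≤ P) (hQ : 0 ≤ Q) (h : c ^ 2 + 4 * (P * Q) = 1)
    (hX : P - Q = Xf x c) : P = 0 ↔ Sf x c = 0 := by
  obtain ⟨c1, c2⟩ := c_of hP hQ h
  have k1 := kp_nonneg x
  have k2 := kp_le x
  constructor
  · intro hP0
    rw [hP0] at h hX
    rcases one_or (c := c) (by linarith) with hc | hc
    · rw [hc] at hX ⊢
      have h3 : kap x ≤ 0 := by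
        unfold Xf at hX
        linarith
      unfold Sf
      rw [kp_of_nonpos h3]
      ring
    · rw [hc] at hX
      unfold Xf at hX
      linarith
  · intro hS
    rw [Sf_eq] at hS
    have h3 : 0 ≤ (1 - c) / 2 * (4 - kp x) := mul_nonneg (by linarith) (by linarith)
    have h4 : kp x = 0 := by linarith
    have h5 : (1 - c) / 2 * (4 - kp x) = 0 := by linarith
    have h6 : c = 1 := by
      rcases mul_eq_zero.1 h5 with h7 | h7
      · linarith
      · linarith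
    have h7 : kap x ≤ 0 := by
      have := kap_le_kp x
      linarith
    rw [h6] at h hX
    have h8 : P * Q = 0 := by linarith
    unfold Xf at hX
    rcases mul_eq_zero.1 h8 with h9 | h9
    · exact h9
    · rw [h9] at hX
      linarith

private lemma Q_zero_iff {x c P Q : ℝ} (hP : 0 ≤ P) (hQ : 0 ≤ Q) (h : c ^ 2 + 4 * (P * Q) = 1)
    (hX : P - Q = Xf x c) : Q = 0 ↔ Zf x c = 0 := by
  obtain ⟨c1, c2⟩ := c_of hP hQ h
  have k1 := kp_nonneg x
  have k2 := kp_le x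
  constructor
  · intro hQ0
    rw [hQ0] at h hX
    rcases one_or (c := c) (by linarith) with hc | hc
    · rw [hc] at hX ⊢
      have h3 : 0 ≤ kap x := by
        unfold Xf at hX
        linarith
      unfold Zf
      rw [Sf_eq, kp_of_nonneg h3]
      ring
    · rw [hc]
      unfold Zf
      rw [Sf_eq]
      ring
  · intro hZ
    unfold Zf at hZ
    rcases mul_eq_zero.1 hZ with h3 | h3
    · rw [Sf_eq] at h3
      have h4 : (1 + c) * (4 - kp x) = 0 := by linarith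
      have h5 : c = -1 := by
        rcases mul_eq_zero.1 h4 with h7 | h7
        · linarith
        · linarith
      rw [h5] at h hX
      have h8 : P * Q = 0 := by linarith
      unfold Xf at hX
      rcases mul_eq_zero.1 h8 with h9 | h9
      · rw [h9] at hX
        linarith
      · exact h9
    · rw [Sf_eq] at h3
      have h4 : 0 ≤ (1 - c) / 2 * (4 - kp x) := mul_nonneg (by linarith) (by linarith)
      have h5 := kap_le_kp x
      have h6 : (1 - c) / 2 * (4 - kp x) = 0 := by linarith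
      have h7 : c = 1 := by
        rcases mul_eq_zero.1 h6 with h7 | h7
        · linarith
        · linarith
      have h8 : 0 ≤ kap x := by linarith
      rw [h7] at h hX
      have h9 : P * Q = 0 := by linarith
      unfold Xf at hX
      rcases mul_eq_zero.1 h9 with h10 | h10
      · rw [h10] at hX
        linarith
      · exact h10

private lemma PQ_spec {x c : ℝ} (h1 : -1 ≤ c) (h2 : c ≤ 1) : 0 ≤ Pf x c ∧ 0 ≤ Qf x c ∧
    c ^ 2 + 4 * (Pf x c * Qf x c) = 1 ∧ Pf x c - Qf x c = Xf x c := by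
  have h3 : 0 ≤ 1 - c ^ 2 := by nlinarith
  have h4 : Tf x c ^ 2 = Xf x c ^ 2 + (1 - c ^ 2) := Real.sq_sqrt (by positivity)
  have h5 : |Xf x c| ≤ Tf x c := by
    unfold Tf
    apply Real.abs_le_sqrt
    linarith
  obtain ⟨h6, h7⟩ := abs_le.1 h5
  refine ⟨?_, ?_, ?_, ?_⟩
  · unfold Pf
    linarith
  · unfold Qf
    linarith
  · unfold Pf Qf
    linear_combination h4
  · unfold Pf Qf
    ring

private lemma PQ_unique {x c P Q : ℝ} (hP : 0 ≤ P) (hQ : 0 ≤ Q) (h : c ^ 2 + 4 * (P * Q) = 1)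
    (hX : P - Q = Xf x c) : Pf x c = P ∧ Qf x c = Q := by
  have h1 : Tf x c = P + Q := by
    unfold Tf
    rw [← hX]
    have : (P - Q) ^ 2 + (1 - c ^ 2) = (P + Q) ^ 2 := by linear_combination -h
    rw [this]
    exact Real.sqrt_sq (by linarith)
  unfold Pf Qf
  rw [h1, ← hX]
  constructor <;> ring

private lemma cf_spec {x y : ℝ} (h1 : y ^ 2 ≤ 4) (h2 : kap x ≤ y ^ 2) :
    -1 ≤ cf x y ∧ cf x y ≤ 1 ∧ Sf x (cf x y) = y ^ 2 := by
  have k1 := kp_nonneg x
  have k2 := kp_le x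
  have h3 : kp x ≤ y ^ 2 := max_le h2 (sq_nonneg y)
  have h4 : 0 < 4 - kp x := by linarith
  have h5 : (1 - cf x y) / 2 * (4 - kp x) = y ^ 2 - kp x := by
    unfold cf
    field_simp
    ring
  have h6 : 0 ≤ 1 - cf x y := by
    unfold cf
    have : 0 ≤ 2 * (y ^ 2 - kp x) / (4 - kp x) := div_nonneg (by linarith) h4.le
    linarith
  have h7 : (1 + cf x y) * (4 - kp x) = 2 * (4 - y ^ 2) := by linarith
  have h8 : 0 ≤ 1 + cf x y := by
    by_contra hcon
    push Not at hcon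
    nlinarith
  refine ⟨by linarith, by linarith, ?_⟩
  rw [Sf_eq]
  linarith

private lemma cf_Sf {x c y : ℝ} (h : y ^ 2 = Sf x c) : cf x y = c := by
  have k2 := kp_le x
  have h4 : 4 - kp x ≠ 0 := by linarith
  unfold cf
  rw [h, Sf_eq]
  field_simp
  ring

private lemma cv_rel (q : Cv (FF kap fun _ => 1 / 2)) :
    (q.1.1.2 : ℂ).re ^ 2 + 4 * (q.1.2.re ^ 2 * q.1.2.im ^ 2) = 1 ∧
      q.1.2.re ^ 2 - q.1.2.im ^ 2 = Xf q.1.1.1 (q.1.1.2 : ℂ).re ∧
      2 * (q.1.2.re * q.1.2.im) = (q.1.1.2 : ℂ).im := by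
  obtain ⟨⟨⟨x, ζ⟩, v⟩, hq⟩ := q
  simp only at hq ⊢
  have h1 := congrArg Complex.re hq
  have h2 := congrArg Complex.im hq
  simp only [FF, pow_two, Complex.mul_re, Complex.mul_im] at h1 h2
  have h3 : (ζ : ℂ).re ^ 2 + (ζ : ℂ).im ^ 2 = 1 := by
    have h4 := Circle.normSq_coe ζ
    rw [Complex.normSq_apply] at h4
    linarith
  refine ⟨?_, ?_, ?_⟩
  · rw [← h2] at h3
    linear_combination h3
  · unfold Xf
    linear_combination h1
  · linear_combination h2

private lemma ladder_rel (p : Ladder) : p.1.2.1 ^ 2 ≤ 4 ∧ kap p.1.1 ≤ p.1.2.1 ^ 2 ∧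
    p.1.2.2 ^ 2 = (4 - p.1.2.1 ^ 2) * (p.1.2.1 ^ 2 - kap p.1.1) := by
  obtain ⟨⟨x, y, z⟩, hp⟩ := p
  obtain ⟨h1, h2⟩ := ladder_bounds hp
  simp only at hp ⊢
  refine ⟨h1, ?_, ?_⟩
  · unfold kap
    linarith
  · rw [hp]
    unfold kap
    ring

private noncomputable def fwd (q : Cv (FF kap fun _ => 1 / 2)) : Ladder :=
  ⟨(q.1.1.1, sr q.1.2.re (Sf q.1.1.1 (q.1.1.2 : ℂ).re), sr q.1.2.im (Zf q.1.1.1 (q.1.1.2 : ℂ).re)), by
    obtain ⟨h1, h2, -⟩ := cv_rel q
    obtain ⟨c1, c2⟩ := c_of (sq_nonneg _) (sq_nonneg _) h1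
    have h3 := (Sf_bounds (x := q.1.1.1) c1 c2).1
    have h4 := kp_nonneg q.1.1.1
    simp only
    rw [sr_sq (Zf_nonneg c1 c2), sr_sq (by linarith)]
    unfold Zf kap
    ring⟩

private lemma fwd_y (q : Cv (FF kap fun _ => 1 / 2)) :
    (fwd q).1.2.1 ^ 2 = Sf q.1.1.1 (q.1.1.2 : ℂ).re := by
  obtain ⟨h1, h2, -⟩ := cv_rel q
  obtain ⟨c1, c2⟩ := c_of (sq_nonneg _) (sq_nonneg _) h1
  have h3 := (Sf_bounds (x := q.1.1.1) c1 c2).1
  have h4 := kp_nonneg q.1.1.1
  exact sr_sq (by linarith)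

private lemma inv_rel (p : Ladder) :
    0 ≤ Pf p.1.1 (cf p.1.1 p.1.2.1) ∧ 0 ≤ Qf p.1.1 (cf p.1.1 p.1.2.1) ∧
    (cf p.1.1 p.1.2.1) ^ 2 + 4 * (Pf p.1.1 (cf p.1.1 p.1.2.1) * Qf p.1.1 (cf p.1.1 p.1.2.1)) = 1 ∧
    Pf p.1.1 (cf p.1.1 p.1.2.1) - Qf p.1.1 (cf p.1.1 p.1.2.1) = Xf p.1.1 (cf p.1.1 p.1.2.1) := by
  obtain ⟨h1, h2, h3⟩ := ladder_rel p
  obtain ⟨h4, h5, h6⟩ := cf_spec h1 h2
  exact PQ_spec h4 h5

private noncomputable def ia (p : Ladder) : ℝ := sr p.1.2.1 (Pf p.1.1 (cf p.1.1 p.1.2.1))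

private noncomputable def ib (p : Ladder) : ℝ := sr p.1.2.2 (Qf p.1.1 (cf p.1.1 p.1.2.1))

private lemma ia_sq (p : Ladder) : ia p ^ 2 = Pf p.1.1 (cf p.1.1 p.1.2.1) := sr_sq (inv_rel p).1

private lemma ib_sq (p : Ladder) : ib p ^ 2 = Qf p.1.1 (cf p.1.1 p.1.2.1) := sr_sq (inv_rel p).2.1

private lemma norm_ic (p : Ladder) : ‖(⟨cf p.1.1 p.1.2.1, 2 * (ia p * ib p)⟩ : ℂ)‖ = 1 := by
  have h1 : Complex.normSq (⟨cf p.1.1 p.1.2.1, 2 * (ia p * ib p)⟩ : ℂ) = 1 := by
    rw [Complex.normSq_apply]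
    simp only
    have h2 := (inv_rel p).2.2.1
    rw [← ia_sq, ← ib_sq] at h2
    linear_combination h2
  rw [← Complex.sq_norm] at h1
  nlinarith [norm_nonneg (⟨cf p.1.1 p.1.2.1, 2 * (ia p * ib p)⟩ : ℂ)]

private noncomputable def bwd (p : Ladder) : Cv (FF kap fun _ => 1 / 2) :=
  ⟨((p.1.1, toC _ (norm_ic p)), ⟨ia p, ib p⟩), by
    have h2 := (inv_rel p).2.2.2
    rw [← ia_sq, ← ib_sq] at h2
    unfold Xf at h2
    apply Complex.ext
    · simp only [FF, coe_toC, pow_two, Complex.mul_re]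
      linear_combination h2
    · simp only [FF, coe_toC, pow_two, Complex.mul_im]
      ring⟩

private lemma bwd_fwd (q : Cv (FF kap fun _ => 1 / 2)) : bwd (fwd q) = q := by
  obtain ⟨h1, h2, h3⟩ := cv_rel q
  obtain ⟨c1, c2⟩ := c_of (sq_nonneg _) (sq_nonneg _) h1
  have hc : cf q.1.1.1 (fwd q).1.2.1 = (q.1.1.2 : ℂ).re := cf_Sf (fwd_y q)
  obtain ⟨hP, hQ⟩ := PQ_unique (sq_nonneg _) (sq_nonneg _) h1 h2
  have hS0 : 0 ≤ Sf q.1.1.1 (q.1.1.2 : ℂ).re := by
    have h3 := (Sf_bounds (x := q.1.1.1) c1 c2).1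
    have h4 := kp_nonneg q.1.1.1
    linarith
  have ha : ia (fwd q) = q.1.2.re := by
    have e1 : ia (fwd q) = sr (sr q.1.2.re (Sf q.1.1.1 (q.1.1.2 : ℂ).re))
        (Pf q.1.1.1 (cf q.1.1.1 (fwd q).1.2.1)) := rfl
    rw [e1, hc, hP]
    refine sr_sr hS0 (fun h0 => ?_)
    exact pow_eq_zero_iff (two_ne_zero) |>.1
      ((P_zero_iff (sq_nonneg _) (sq_nonneg _) h1 h2).2 h0)
  have hb : ib (fwd q) = q.1.2.im := by
    have e1 : ib (fwd q) = sr (sr q.1.2.im (Zf q.1.1.1 (q.1.1.2 : ℂ).re))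
        (Qf q.1.1.1 (cf q.1.1.1 (fwd q).1.2.1)) := rfl
    rw [e1, hc, hQ]
    refine sr_sr (Zf_nonneg c1 c2) (fun h0 => ?_)
    exact pow_eq_zero_iff (two_ne_zero) |>.1
      ((Q_zero_iff (sq_nonneg _) (sq_nonneg _) h1 h2).2 h0)
  apply Subtype.ext
  refine Prod.ext (Prod.ext rfl ?_) ?_
  · apply Circle.coe_injective
    change (⟨cf q.1.1.1 (fwd q).1.2.1, 2 * (ia (fwd q) * ib (fwd q))⟩ : ℂ) = (q.1.1.2 : ℂ)
    rw [ha, hb, hc]
    exact Complex.ext rfl h3
  · change (⟨ia (fwd q), ib (fwd q)⟩ : ℂ) = q.1.2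
    rw [ha, hb]

private lemma fwd_bwd (p : Ladder) : fwd (bwd p) = p := by
  obtain ⟨h1, h2, h3⟩ := ladder_rel p
  obtain ⟨c1, c2, hS⟩ := cf_spec h1 h2
  obtain ⟨r1, r2, r3, r4⟩ := inv_rel p
  apply Subtype.ext
  refine Prod.ext rfl (Prod.ext ?_ ?_)
  · change sr (sr p.1.2.1 (Pf p.1.1 (cf p.1.1 p.1.2.1))) (Sf p.1.1 (cf p.1.1 p.1.2.1)) = p.1.2.1
    rw [hS]
    refine sr_sr r1 (fun h0 => ?_)
    have h4 := (P_zero_iff r1 r2 r3 r4).1 h0
    rw [hS] at h4
    exact pow_eq_zero_iff (two_ne_zero) |>.1 h4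
  · change sr (sr p.1.2.2 (Qf p.1.1 (cf p.1.1 p.1.2.1))) (Zf p.1.1 (cf p.1.1 p.1.2.1)) = p.1.2.2
    have hZ : Zf p.1.1 (cf p.1.1 p.1.2.1) = p.1.2.2 ^ 2 := by
      unfold Zf
      rw [hS, h3]
    rw [hZ]
    refine sr_sr r2 (fun h0 => ?_)
    have h4 := (Q_zero_iff r1 r2 r3 r4).1 h0
    rw [hZ] at h4
    exact pow_eq_zero_iff (two_ne_zero) |>.1 h4

private lemma continuous_Sf {X : Type*} [TopologicalSpace X] {x c : X → ℝ} (hx : Continuous x)
    (hc : Continuous c) : Continuous fun p => Sf (x p) (c p) := by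
  unfold Sf
  have := continuous_kp.comp hx
  simp only [Function.comp_def] at this
  fun_prop

private lemma continuous_Zf {X : Type*} [TopologicalSpace X] {x c : X → ℝ} (hx : Continuous x)
    (hc : Continuous c) : Continuous fun p => Zf (x p) (c p) := by
  unfold Zf
  have h1 := continuous_Sf hx hc
  have h2 := continuous_kap.comp hx
  simp only [Function.comp_def] at h2
  fun_prop

private lemma continuous_Xf {X : Type*} [TopologicalSpace X] {x c : X → ℝ} (hx : Continuous x)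
    (hc : Continuous c) : Continuous fun p => Xf (x p) (c p) := by
  unfold Xf
  have h2 := continuous_kap.comp hx
  simp only [Function.comp_def] at h2
  fun_prop

private lemma continuous_Tf {X : Type*} [TopologicalSpace X] {x c : X → ℝ} (hx : Continuous x)
    (hc : Continuous c) : Continuous fun p => Tf (x p) (c p) := by
  unfold Tf
  have h1 := continuous_Xf hx hc
  exact ((h1.pow 2).add (continuous_const.sub (hc.pow 2))).sqrt

private lemma continuous_fwd : Continuous fwd := by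
  have hx : Continuous fun q : Cv (FF kap fun _ => 1 / 2) => q.1.1.1 := by fun_prop
  have hc : Continuous fun q : Cv (FF kap fun _ => 1 / 2) => (q.1.1.2 : ℂ).re := by
    refine Complex.continuous_re.comp (isInducing_circle.continuous.comp ?_)
    fun_prop
  have ha : Continuous fun q : Cv (FF kap fun _ => 1 / 2) => q.1.2.re := by fun_prop
  have hb : Continuous fun q : Cv (FF kap fun _ => 1 / 2) => q.1.2.im := by fun_prop
  unfold fwd
  refine Continuous.subtype_mk ?_ _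
  refine hx.prodMk ((continuous_sr ha (continuous_Sf hx hc) ?_).prodMk
    (continuous_sr hb (continuous_Zf hx hc) ?_))
  · intro q h0
    obtain ⟨h1, h2, -⟩ := cv_rel q
    refine (P_zero_iff (sq_nonneg _) (sq_nonneg _) h1 h2).1 ?_
    rw [h0]
    ring
  · intro q h0
    obtain ⟨h1, h2, -⟩ := cv_rel q
    refine (Q_zero_iff (sq_nonneg _) (sq_nonneg _) h1 h2).1 ?_
    rw [h0]
    ring

private lemma continuous_bwd : Continuous bwd := by
  have hx : Continuous fun p : Ladder => p.1.1 := by fun_prop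
  have hy : Continuous fun p : Ladder => p.1.2.1 := by fun_prop
  have hz : Continuous fun p : Ladder => p.1.2.2 := by fun_prop
  have hk : Continuous fun p : Ladder => kp p.1.1 := continuous_kp.comp hx
  have hc : Continuous fun p : Ladder => cf p.1.1 p.1.2.1 := by
    unfold cf
    refine continuous_const.sub (Continuous.div (by fun_prop) (by fun_prop) ?_)
    intro p
    have := kp_le p.1.1
    linarith
  have hX := continuous_Xf hx hc
  have hT := continuous_Tf hx hc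
  have hP : Continuous fun p : Ladder => Pf p.1.1 (cf p.1.1 p.1.2.1) := by
    unfold Pf
    exact (hT.add hX).div_const 2
  have hQ : Continuous fun p : Ladder => Qf p.1.1 (cf p.1.1 p.1.2.1) := by
    unfold Qf
    exact (hT.sub hX).div_const 2
  have ha : Continuous ia := by
    unfold ia
    refine continuous_sr hy hP (fun p h0 => ?_)
    obtain ⟨h1, h2, h3⟩ := ladder_rel p
    obtain ⟨c1, c2, hS⟩ := cf_spec h1 h2
    obtain ⟨r1, r2, r3, r4⟩ := inv_rel p
    refine (P_zero_iff r1 r2 r3 r4).2 ?_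
    rw [hS, h0]
    ring
  have hb : Continuous ib := by
    unfold ib
    refine continuous_sr hz hQ (fun p h0 => ?_)
    obtain ⟨h1, h2, h3⟩ := ladder_rel p
    obtain ⟨c1, c2, hS⟩ := cf_spec h1 h2
    obtain ⟨r1, r2, r3, r4⟩ := inv_rel p
    refine (Q_zero_iff r1 r2 r3 r4).2 ?_
    unfold Zf
    rw [hS, ← h3, h0]
    ring
  have hmk : ∀ f g : Ladder → ℝ, Continuous f → Continuous g →
      Continuous fun p => (⟨f p, g p⟩ : ℂ) := by
    intro f g hf hg
    have e1 : (fun p => (⟨f p, g p⟩ : ℂ)) = fun p => (f p : ℂ) + (g p : ℂ) * Complex.I := by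
      funext p
      apply Complex.ext <;> simp
    rw [e1]
    fun_prop
  unfold bwd
  refine Continuous.subtype_mk ?_ _
  refine (hx.prodMk ?_).prodMk (hmk _ _ ha hb)
  rw [isInducing_circle.continuous_iff]
  exact hmk _ _ hc (continuous_const.mul (ha.mul hb))

theorem cv_one : Nonempty (Cv (FF kap fun _ => 1 / 2) ≃ₜ Ladder) := by
  exact ⟨{
    toFun := fwd
    invFun := bwd
    left_inv := bwd_fwd
    right_inv := fwd_bwd
    continuous_toFun := continuous_fwd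
    continuous_invFun := continuous_bwd }⟩

end LadderVeech
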