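import Pool.Agent.LadderVeech.LVDefs

/-!
LV42. The two-sided pattern gives the same surface.

PROOF. `F = FF kap (1/2)`, `F' = FF KE KO`. Let `bt x = π * max 0 (min 1 (1/2 - 2 sin (π x)))`,
continuous; `bt x = 0` iff `sin (π x) ≥ 1/4`, `bt x = π` iff `sin (π x) ≤ -1/4`. Three closed sets of `x`:
`E = {sin (π x) ≥ 1/4}` (then `⌊x⌋` is even, `KE x = kap x`, `KO x = 1/2`),
`D = {sin (π x) ≤ -1/4}` (then `⌊x⌋` is odd, `KE x = 1/2`, `KO x = kap x`),
`T = {|sin (π x)| ≤ 1/4}` (then `kap x ≥ 7/16`, so `KE x, KO x > 0`).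
Let `rot x = Circle.exp (bt x)`. Map `Ξ : ((x, ζ), v) ↦ ((x, ζ * rot x), v')`:
 on `E`: `v' = v` (`F' (x, ζ) = F (x, ζ)`);
 on `D`: `v' = conj v` (`rot x = -1`, and `F' (x, -ζ) = conj (F (x, ζ))`);
 on `T`: `v' = sg * sqrt (F' (x, ζ * rot x))`, `sqrt z = z ^ (1/2 : ℂ)`, `sg = 1` if `0 < v.re` and `-1`
 otherwise. On `T` the values of `F` and `F'` have positive real part when the imaginary part is `0`
 (then `ζ = ±1`), so they lie in Complex.slitPlane; hence `v.re ≠ 0` (else `v² ≤ 0`), `sqrt` is continuous,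
 `sqrt z ^ 2 = z`, `0 < (sqrt z).re`.
 The formulas agree on `T ∩ E` (`rot = 1`, `v' = sg * sqrt (v²) = v`) and on `T ∩ D`
 (`v' = sg * sqrt (conj v ^ 2) = conj v`). Continuity: continuous on each of the three closed sets.
 Inverse: the same with `rot x⁻¹` and the roles of `F, F'` exchanged. On `T`: the new `v'` has real part of
 the same sign as `v`, and `sg * sqrt (F (x, ζ)) = v` because `v ^ 2 = F (x, ζ)` and the signs agree.
 (Uniqueness of roots: `v ^ 2 = w ^ 2`, `0 < v.re * w.re` → `v = w`.)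
-/

open Set Filter Topology

namespace LadderVeech

/-! ### square roots with positive real part -/

private noncomputable def LV42r (z : ℂ) : ℂ := z ^ (2⁻¹ : ℂ)

private lemma LV42r_sq (z : ℂ) : LV42r z ^ 2 = z := by
  unfold LV42r
  have h := Complex.cpow_nat_inv_pow z (n := 2) two_ne_zero
  push_cast at h
  exact h

private lemma LV42r_re {z : ℂ} (hz : 0 < z.re) : 0 < (LV42r z).re := by
  unfold LV42r
  rw [Complex.cpow_inv_two_re]
  apply Real.sqrt_pos.2
  have := norm_nonneg z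
  linarith

private lemma LV42r_cont {z : ℂ} (hz : 0 < z.re) : ContinuousAt LV42r z :=
  continuousAt_cpow_const (Or.inl hz)

/-- the sign of the real part -/
private noncomputable def LV42s (v : ℂ) : ℂ := ((v.re / |v.re| : ℝ) : ℂ)

private lemma LV42s_pos {v : ℂ} (h : 0 < v.re) : LV42s v = 1 := by
  unfold LV42s
  rw [abs_of_pos h, div_self h.ne', Complex.ofReal_one]

private lemma LV42s_neg {v : ℂ} (h : v.re < 0) : LV42s v = -1 := by
  unfold LV42s
  rw [abs_of_neg h, div_neg, div_self h.ne, Complex.ofReal_neg, Complex.ofReal_one]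

private lemma LV42_re_ne {v z : ℂ} (hz : 0 < z.re) (h : v ^ 2 = z) : v.re ≠ 0 := by
  intro h0
  have h1 : z.re = v.re * v.re - v.im * v.im := by rw [← h, sq, Complex.mul_re]
  rw [h0] at h1
  nlinarith [mul_self_nonneg v.im]

private lemma LV42_root {v z : ℂ} (hz : 0 < z.re) (h : v ^ 2 = z) : LV42s v * LV42r z = v := by
  have h1 := LV42_re_ne hz h
  have h2 : LV42r z ^ 2 = v ^ 2 := by rw [LV42r_sq, h]
  have h3 := LV42r_re hz
  rcases sq_eq_sq_iff_eq_or_eq_neg.1 h2 with h4 | h4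
  · rw [LV42s_pos (by rwa [← h4]), one_mul, h4]
  · have h5 : v.re < 0 := by
      rw [h4, Complex.neg_re] at h3
      linarith
    rw [LV42s_neg h5, h4]
    ring

private lemma LV42s_mul {v z : ℂ} (hz : 0 < z.re) (hv : v.re ≠ 0) : LV42s (LV42s v * LV42r z) = LV42s v := by
  have h3 := LV42r_re hz
  rcases lt_or_gt_of_ne hv with h | h
  · rw [LV42s_neg h]
    apply LV42s_neg
    rw [neg_one_mul, Complex.neg_re]
    linarith
  · rw [LV42s_pos h, one_mul]
    exact LV42s_pos h3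

private lemma LV42s_sq {v : ℂ} (hv : v.re ≠ 0) : LV42s v ^ 2 = 1 := by
  rcases lt_or_gt_of_ne hv with h | h
  · rw [LV42s_neg h]; ring
  · rw [LV42s_pos h]; ring

private lemma LV42s_cont {v : ℂ} (hv : v.re ≠ 0) : ContinuousAt LV42s v := by
  unfold LV42s
  apply Complex.continuous_ofReal.continuousAt.comp
  exact Complex.continuous_re.continuousAt.div Complex.continuous_re.abs.continuousAt (abs_ne_zero.2 hv)

/-! ### the general comparison of double covers -/

section General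

variable {B : Type*} [TopologicalSpace B]

/-- the hypotheses of the comparison -/
private structure LV42H (F F' : B → ℂ) (ψ : B ≃ₜ B) (σ : B → ℝ) : Prop where
  cF : Continuous F
  cF' : Continuous F'
  cσ : Continuous σ
  E : ∀ b, 1 / 4 ≤ σ b → F' (ψ b) = F b
  D : ∀ b, σ b ≤ -(1 / 4) → F' (ψ b) = (starRingEnd ℂ) (F b)
  T : ∀ b, -(1 / 4) ≤ σ b → σ b ≤ 1 / 4 → 0 < (F b).re ∧ 0 < (F' (ψ b)).re

open Classical in
/-- the new root -/
private noncomputable def LV42N (F' : B → ℂ) (ψ : B ≃ₜ B) (σ : B → ℝ) (q : B × ℂ) : ℂ :=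
  if 1 / 4 ≤ σ q.1 then q.2 else if σ q.1 ≤ -(1 / 4) then (starRingEnd ℂ) q.2 else
    LV42s q.2 * LV42r (F' (ψ q.1))

private lemma LV42N_E {F' : B → ℂ} {ψ : B ≃ₜ B} {σ : B → ℝ} {q : B × ℂ} (h : 1 / 4 ≤ σ q.1) :
    LV42N F' ψ σ q = q.2 := by
  unfold LV42N
  rw [if_pos h]

private lemma LV42N_D {F' : B → ℂ} {ψ : B ≃ₜ B} {σ : B → ℝ} {q : B × ℂ} (h : σ q.1 ≤ -(1 / 4)) :
    LV42N F' ψ σ q = (starRingEnd ℂ) q.2 := by
  unfold LV42N
  rw [if_neg (by intro h'; linarith), if_pos h]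

private lemma LV42N_T {F F' : B → ℂ} {ψ : B ≃ₜ B} {σ : B → ℝ} (H : LV42H F F' ψ σ) {q : B × ℂ}
    (hq : q.2 ^ 2 = F q.1) (h1 : -(1 / 4) ≤ σ q.1) (h2 : σ q.1 ≤ 1 / 4) :
    LV42N F' ψ σ q = LV42s q.2 * LV42r (F' (ψ q.1)) := by
  by_cases h3 : 1 / 4 ≤ σ q.1
  · rw [LV42N_E h3, H.E _ h3, LV42_root (H.T _ h1 h2).1 hq]
  · by_cases h4 : σ q.1 ≤ -(1 / 4)
    · have h5 : ((starRingEnd ℂ) q.2) ^ 2 = F' (ψ q.1) := by
        rw [← map_pow, hq, H.D _ h4]
      have h6 := LV42_root (H.T _ h1 h2).2 h5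
      have h7 : LV42s ((starRingEnd ℂ) q.2) = LV42s q.2 := by
        unfold LV42s
        rw [Complex.conj_re]
      rw [LV42N_D h4, ← h7, h6]
    · unfold LV42N
      rw [if_neg h3, if_neg h4]

private lemma LV42N_sq {F F' : B → ℂ} {ψ : B ≃ₜ B} {σ : B → ℝ} (H : LV42H F F' ψ σ) {q : B × ℂ}
    (hq : q.2 ^ 2 = F q.1) : LV42N F' ψ σ q ^ 2 = F' (ψ q.1) := by
  by_cases h3 : 1 / 4 ≤ σ q.1
  · rw [LV42N_E h3, H.E _ h3, hq]
  · by_cases h4 : σ q.1 ≤ -(1 / 4)
    · rw [LV42N_D h4, H.D _ h4, ← hq, map_pow]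
    · rw [not_le] at h3 h4
      rw [LV42N_T H hq h4.le h3.le, mul_pow, LV42r_sq,
        LV42s_sq (LV42_re_ne (H.T _ h4.le h3.le).1 hq), one_mul]

private noncomputable def LV42M {F F' : B → ℂ} {ψ : B ≃ₜ B} {σ : B → ℝ} (H : LV42H F F' ψ σ) (q : Cv F) :
    Cv F' := ⟨(ψ q.1.1, LV42N F' ψ σ q.1), LV42N_sq H q.2⟩

private lemma LV42M_cont {F F' : B → ℂ} {ψ : B ≃ₜ B} {σ : B → ℝ} (H : LV42H F F' ψ σ) :
    Continuous (LV42M H) := by
  have hb : Continuous fun q : Cv F => q.1.1 := continuous_fst.comp continuous_subtype_val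
  have hv : Continuous fun q : Cv F => q.1.2 := continuous_snd.comp continuous_subtype_val
  have hσ : Continuous fun q : Cv F => σ q.1.1 := H.cσ.comp hb
  have h1 : ContinuousOn (fun q : Cv F => LV42N F' ψ σ q.1) {q | 1 / 4 ≤ σ q.1.1} :=
    hv.continuousOn.congr fun q hq => LV42N_E hq
  have h2 : ContinuousOn (fun q : Cv F => LV42N F' ψ σ q.1) {q | σ q.1.1 ≤ -(1 / 4)} :=
    (Complex.continuous_conj.comp hv).continuousOn.congr fun q hq => LV42N_D hq
  have h3 : ContinuousOn (fun q : Cv F => LV42N F' ψ σ q.1) {q | -(1 / 4) ≤ σ q.1.1 ∧ σ q.1.1 ≤ 1 / 4} := by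
    have h4 : ContinuousOn (fun q : Cv F => LV42s q.1.2 * LV42r (F' (ψ q.1.1)))
        {q | -(1 / 4) ≤ σ q.1.1 ∧ σ q.1.1 ≤ 1 / 4} := by
      intro q hq
      apply ContinuousAt.continuousWithinAt
      have h5 := H.T _ hq.1 hq.2
      have e1 : ContinuousAt (fun q : Cv F => LV42s q.1.2) q :=
        ContinuousAt.comp (f := fun q : Cv F => q.1.2) (LV42s_cont (LV42_re_ne h5.1 q.2)) hv.continuousAt
      have e2 : ContinuousAt (fun q : Cv F => LV42r (F' (ψ q.1.1))) q :=
        ContinuousAt.comp (f := fun q : Cv F => F' (ψ q.1.1)) (LV42r_cont h5.2)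
          (H.cF'.comp (ψ.continuous.comp hb)).continuousAt
      exact e1.mul e2
    exact h4.congr fun q hq => LV42N_T H q.2 hq.1 hq.2
  have c1 : IsClosed {q : Cv F | 1 / 4 ≤ σ q.1.1} := isClosed_le continuous_const hσ
  have c2 : IsClosed {q : Cv F | σ q.1.1 ≤ -(1 / 4)} := isClosed_le hσ continuous_const
  have c3 : IsClosed {q : Cv F | -(1 / 4) ≤ σ q.1.1 ∧ σ q.1.1 ≤ 1 / 4} :=
    (isClosed_le continuous_const hσ).inter (isClosed_le hσ continuous_const)
  have h5 := (h1.union_of_isClosed h2 c1 c2).union_of_isClosed h3 (c1.union c2) c3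
  have h6 : ({q : Cv F | 1 / 4 ≤ σ q.1.1} ∪ {q : Cv F | σ q.1.1 ≤ -(1 / 4)}) ∪
      {q : Cv F | -(1 / 4) ≤ σ q.1.1 ∧ σ q.1.1 ≤ 1 / 4} = univ := by
    apply eq_univ_of_forall
    intro q
    by_cases e1 : 1 / 4 ≤ σ q.1.1
    · exact Or.inl (Or.inl e1)
    · by_cases e2 : σ q.1.1 ≤ -(1 / 4)
      · exact Or.inl (Or.inr e2)
      · exact Or.inr ⟨(not_le.1 e2).le, (not_le.1 e1).le⟩
  rw [h6, continuousOn_univ] at h5
  unfold LV42M
  exact Continuous.subtype_mk ((ψ.continuous.comp hb).prodMk h5) _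

private lemma LV42H.symm {F F' : B → ℂ} {ψ : B ≃ₜ B} {σ : B → ℝ} (H : LV42H F F' ψ σ) :
    LV42H F' F ψ.symm (fun b => σ (ψ.symm b)) where
  cF := H.cF'
  cF' := H.cF
  cσ := H.cσ.comp ψ.symm.continuous
  E := by
    intro b hb
    have h := H.E _ hb
    rw [Homeomorph.apply_symm_apply] at h
    exact h.symm
  D := by
    intro b hb
    have h := H.D _ hb
    rw [Homeomorph.apply_symm_apply] at h
    rw [h, Complex.conj_conj]
  T := by
    intro b h1 h2
    have h := H.T _ h1 h2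
    rw [Homeomorph.apply_symm_apply] at h
    exact ⟨h.2, h.1⟩

private lemma LV42M_comp {F F' : B → ℂ} {ψ : B ≃ₜ B} {σ : B → ℝ} (H : LV42H F F' ψ σ)
    {ψ' : B ≃ₜ B} {σ' : B → ℝ} (H' : LV42H F' F ψ' σ') (h1 : ∀ b, ψ' (ψ b) = b)
    (h2 : ∀ b, σ' (ψ b) = σ b) (q : Cv F) : LV42M H' (LV42M H q) = q := by
  apply Subtype.ext
  apply Prod.ext
  · exact h1 _
  · show LV42N F ψ' σ' (ψ q.1.1, LV42N F' ψ σ q.1) = q.1.2
    have hq' : (LV42N F' ψ σ q.1) ^ 2 = F' (ψ q.1.1) := LV42N_sq H q.2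
    by_cases h3 : 1 / 4 ≤ σ q.1.1
    · rw [LV42N_E (by show 1 / 4 ≤ σ' (ψ q.1.1); rw [h2]; exact h3)]
      exact LV42N_E h3
    · by_cases h4 : σ q.1.1 ≤ -(1 / 4)
      · rw [LV42N_D (by show σ' (ψ q.1.1) ≤ _; rw [h2]; exact h4)]
        show (starRingEnd ℂ) (LV42N F' ψ σ q.1) = q.1.2
        rw [LV42N_D h4, Complex.conj_conj]
      · rw [not_le] at h3 h4
        have hT := H.T _ h4.le h3.le
        rw [LV42N_T H' hq' (by show _ ≤ σ' (ψ q.1.1); rw [h2]; exact h4.le)
          (by show σ' (ψ q.1.1) ≤ _; rw [h2]; exact h3.le)]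
        show LV42s (LV42N F' ψ σ q.1) * LV42r (F (ψ' (ψ q.1.1))) = q.1.2
        rw [h1, LV42N_T H q.2 h4.le h3.le, LV42s_mul hT.2 (LV42_re_ne hT.1 q.2), LV42_root hT.1 q.2]

private theorem LV42_general {F F' : B → ℂ} {ψ : B ≃ₜ B} {σ : B → ℝ} (H : LV42H F F' ψ σ) :
    Nonempty (Cv F ≃ₜ Cv F') :=
  ⟨{ toFun := LV42M H
     invFun := LV42M H.symm
     left_inv := LV42M_comp H H.symm (fun b => ψ.symm_apply_apply b)
      (fun b => congrArg σ (ψ.symm_apply_apply b))
     right_inv := LV42M_comp H.symm H (fun b => ψ.apply_symm_apply b) (fun _ => rfl)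
     continuous_toFun := LV42M_cont H
     continuous_invFun := LV42M_cont H.symm }⟩

end General

/-! ### the functions -/

lemma continuous_kap : Continuous kap := by
  unfold kap
  fun_prop

private lemma LV42_sin_nonneg {x : ℝ} (h : Even ⌊x⌋) : 0 ≤ Real.sin (Real.pi * x) := by
  have h1 : Real.pi * x = Real.pi * Int.fract x + ⌊x⌋ * Real.pi := by
    have := Int.self_sub_floor x
    rw [← this]
    ring
  rw [h1, Real.sin_add_int_mul_pi, h.neg_one_zpow, one_mul]
  have h2 := Int.fract_nonneg x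
  have h3 := (Int.fract_lt_one x).le
  have h4 := Real.pi_pos
  exact Real.sin_nonneg_of_nonneg_of_le_pi (by positivity) (by nlinarith)

private lemma LV42_sin_nonpos {x : ℝ} (h : ¬ Even ⌊x⌋) : Real.sin (Real.pi * x) ≤ 0 := by
  have h1 : Real.pi * x = Real.pi * Int.fract x + ⌊x⌋ * Real.pi := by
    have := Int.self_sub_floor x
    rw [← this]
    ring
  rw [h1, Real.sin_add_int_mul_pi, (Int.not_even_iff_odd.1 h).neg_one_zpow]
  have h2 := Int.fract_nonneg x
  have h3 := (Int.fract_lt_one x).le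
  have h4 := Real.pi_pos
  have h5 := Real.sin_nonneg_of_nonneg_of_le_pi (x := Real.pi * Int.fract x) (by positivity) (by nlinarith)
  linarith

private lemma LV42_KE (x : ℝ) : KE x = 1 / 2 - (max 0 (Real.sin (Real.pi * x))) ^ 2 := by
  classical
  unfold KE kap
  by_cases h : Even ⌊x⌋
  · rw [if_pos h, max_eq_right (LV42_sin_nonneg h)]
  · rw [if_neg h, max_eq_left (LV42_sin_nonpos h)]
    ring

private lemma LV42_KO (x : ℝ) : KO x = 1 / 2 - (max 0 (-Real.sin (Real.pi * x))) ^ 2 := by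
  classical
  unfold KO kap
  by_cases h : Even ⌊x⌋
  · rw [if_pos h, max_eq_left (by have := LV42_sin_nonneg h; linarith)]
    ring
  · rw [if_neg h, max_eq_right (by have := LV42_sin_nonpos h; linarith)]
    ring

lemma continuous_KE : Continuous KE := by
  have h : KE = fun x => 1 / 2 - (max 0 (Real.sin (Real.pi * x))) ^ 2 := funext LV42_KE
  rw [h]
  fun_prop

lemma continuous_KO : Continuous KO := by
  have h : KO = fun x => 1 / 2 - (max 0 (-Real.sin (Real.pi * x))) ^ 2 := funext LV42_KO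
  rw [h]
  fun_prop

lemma continuous_FF {Kp Km : ℝ → ℝ} (hp : Continuous Kp) (hm : Continuous Km) :
    Continuous (FF Kp Km) := by
  have h1 : Continuous fun b : Ann => ((b.2 : ℂ)) := continuous_subtype_val.comp continuous_snd
  have h2 : Continuous fun b : Ann => (b.2 : ℂ).re := Complex.continuous_re.comp h1
  have h3 : Continuous fun b : Ann => (b.2 : ℂ).im := Complex.continuous_im.comp h1
  have h4 : Continuous fun b : Ann =>
      (1 + (b.2 : ℂ).re) / 2 * Kp b.1 + (1 - (b.2 : ℂ).re) / 2 * Km b.1 := by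
    have e1 : Continuous fun b : Ann => Kp b.1 := hp.comp continuous_fst
    have e2 : Continuous fun b : Ann => Km b.1 := hm.comp continuous_fst
    fun_prop
  exact Complex.equivRealProdCLM.symm.continuous.comp (h4.prodMk h3)

/-! ### the rotation -/

private noncomputable def LV42rot (x : ℝ) : Circle :=
  Circle.exp (Real.pi * max 0 (min 1 (1 / 2 - 2 * Real.sin (Real.pi * x))))

private lemma LV42rot_cont : Continuous LV42rot := by
  unfold LV42rot
  apply Circle.exp.continuous.comp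
  fun_prop

private noncomputable def LV42psi : Ann ≃ₜ Ann where
  toFun b := (b.1, b.2 * LV42rot b.1)
  invFun b := (b.1, b.2 * (LV42rot b.1)⁻¹)
  left_inv b := by
    apply Prod.ext
    · rfl
    · show b.2 * LV42rot b.1 * (LV42rot b.1)⁻¹ = b.2
      rw [mul_inv_cancel_right]
  right_inv b := by
    apply Prod.ext
    · rfl
    · show b.2 * (LV42rot b.1)⁻¹ * LV42rot b.1 = b.2
      rw [inv_mul_cancel_right]
  continuous_toFun := continuous_fst.prodMk (continuous_snd.mul (LV42rot_cont.comp continuous_fst))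
  continuous_invFun := continuous_fst.prodMk (continuous_snd.mul (LV42rot_cont.comp continuous_fst).inv)

private lemma LV42rot_one {x : ℝ} (h : 1 / 4 ≤ Real.sin (Real.pi * x)) : LV42rot x = 1 := by
  unfold LV42rot
  rw [max_eq_left (by apply (min_le_right _ _).trans; linarith), mul_zero, Circle.exp_zero]

private lemma LV42rot_neg {x : ℝ} (h : Real.sin (Real.pi * x) ≤ -(1 / 4)) : (LV42rot x : ℂ) = -1 := by
  unfold LV42rot
  rw [min_eq_left (by linarith), max_eq_right (by norm_num), mul_one, Circle.coe_exp, Complex.exp_pi_mul_I]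

private lemma LV42_FF_re {Kp Km : ℝ → ℝ} {b : Ann} (hp : 0 < Kp b.1) (hm : 0 < Km b.1) :
    0 < (FF Kp Km b).re := by
  show 0 < (1 + (b.2 : ℂ).re) / 2 * Kp b.1 + (1 - (b.2 : ℂ).re) / 2 * Km b.1
  have h1 : |(b.2 : ℂ).re| ≤ 1 := (Complex.abs_re_le_norm _).trans_eq (Circle.norm_coe _)
  obtain ⟨h2, h3⟩ := abs_le.1 h1
  rcases le_total 0 (b.2 : ℂ).re with h4 | h4
  · have e1 : 0 < (1 + (b.2 : ℂ).re) / 2 * Kp b.1 := mul_pos (by linarith) hp
    have e2 : 0 ≤ (1 - (b.2 : ℂ).re) / 2 * Km b.1 := mul_nonneg (by linarith) hm.le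
    linarith
  · have e1 : 0 ≤ (1 + (b.2 : ℂ).re) / 2 * Kp b.1 := mul_nonneg (by linarith) hp.le
    have e2 : 0 < (1 - (b.2 : ℂ).re) / 2 * Km b.1 := mul_pos (by linarith) hm
    linarith

theorem cv_two : Nonempty (Cv (FF KE KO) ≃ₜ Cv (FF kap fun _ => 1 / 2)) := by
  have H : LV42H (FF kap fun _ => 1 / 2) (FF KE KO) LV42psi (fun b => Real.sin (Real.pi * b.1)) := {
    cF := continuous_FF continuous_kap continuous_const
    cF' := continuous_FF continuous_KE continuous_KO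
    cσ := by fun_prop
    E := by
      rintro ⟨x, ζ⟩ hb
      have hb' : 1 / 4 ≤ Real.sin (Real.pi * x) := hb
      show FF KE KO (x, ζ * LV42rot x) = _
      rw [LV42rot_one hb', mul_one]
      have h1 : KE x = kap x := by
        rw [LV42_KE, max_eq_right (by linarith)]
        rfl
      have h2 : KO x = 1 / 2 := by
        rw [LV42_KO, max_eq_left (by linarith)]
        ring
      unfold FF
      simp only [h1, h2]
    D := by
      rintro ⟨x, ζ⟩ hb
      have hb' : Real.sin (Real.pi * x) ≤ -(1 / 4) := hb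
      show FF KE KO (x, ζ * LV42rot x) = _
      have h1 : KE x = 1 / 2 := by
        rw [LV42_KE, max_eq_left (by linarith)]
        ring
      have h2 : KO x = kap x := by
        rw [LV42_KO, max_eq_right (by linarith)]
        unfold kap
        ring
      have h3 : ((ζ * LV42rot x : Circle) : ℂ) = -(ζ : ℂ) := by
        rw [Circle.coe_mul, LV42rot_neg hb', mul_neg_one]
      unfold FF
      apply Complex.ext
      · simp only [h1, h2, h3, Complex.neg_re, Complex.conj_re]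
        ring
      · simp only [h3, Complex.neg_im, Complex.conj_im]
    T := by
      rintro ⟨x, ζ⟩ h1 h2
      have h1' : -(1 / 4) ≤ Real.sin (Real.pi * x) := h1
      have h2' : Real.sin (Real.pi * x) ≤ 1 / 4 := h2
      have e1 : 0 < kap x := by
        unfold kap
        nlinarith
      have e2 : 0 < KE x := by
        rw [LV42_KE]
        have : max 0 (Real.sin (Real.pi * x)) ≤ 1 / 4 := max_le (by norm_num) h2'
        have h0 : 0 ≤ max 0 (Real.sin (Real.pi * x)) := le_max_left _ _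
        nlinarith
      have e3 : 0 < KO x := by
        rw [LV42_KO]
        have : max 0 (-Real.sin (Real.pi * x)) ≤ 1 / 4 := max_le (by norm_num) (by linarith)
        have h0 : 0 ≤ max 0 (-Real.sin (Real.pi * x)) := le_max_left _ _
        nlinarith
      exact ⟨LV42_FF_re (Kp := kap) (Km := fun _ => 1 / 2) (b := (x, ζ)) e1 (by norm_num),
        LV42_FF_re (Kp := KE) (Km := KO) (b := (x, ζ * LV42rot x)) e2 e3⟩ }
  obtain ⟨e⟩ := LV42_general H
  exact ⟨e.symm⟩

end LadderVeech
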