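import Pool.Agent.LadderVeech.LV42

/-!
LV43. Lifting homeomorphisms of the base to double covers `Cv F = {(b, v) | v ^ 2 = F b}`.

PROOF of `cv_lift`: `Ψ (b, v) = (ψ b, v * sqrt (F' (ψ b) / F b))`, `sqrt z = z ^ (1/2 : ℂ)` (where
`F b = 0`: `v = 0`, `F' (ψ b) = 0`, fine). `sqrt` is continuous on slitPlane, so `Ψ` is continuous where
`F b ≠ 0`; where `F b = 0`: `‖v'‖² = ‖F' (ψ b)‖ → 0`. The inverse is the same construction for `ψ.symm`
(`z ∈ slitPlane → z⁻¹ ∈ slitPlane`, `sqrt z * sqrt z⁻¹ = 1`).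
`cv_lift_conj`: compose with `Cv F ≃ₜ Cv (conj ∘ F)`, `(b, v) ↦ (b, conj v)`.
`cv_three`: `cv_lift` with `ψ (x, ζ) = (lam x + (1 - ζ.re)/2, ζ)`, `lam x = 2 x - 1/2 + sin (2 π x)/4`
(strictly increasing homeomorphism of `ℝ`, derivative `2 + (π/2) cos (2 π x) > 0`), from `FF kap kap` to
`FF KE KO`: both functions have the same imaginary part `ζ.im` at `b`, `ψ b`; if it is `≠ 0` the quotient is
in slitPlane (`Im z * Im w > 0 → z / w ∈ slitPlane`); if it is `0`, then `ζ = 1` and the values are `kap x`,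
`KE (lam x)`, or `ζ = -1` and the values are `kap x`, `KO (lam x + 1)`; claim: these have the same sign
(both `> 0`, both `= 0` or both `< 0`): `KO (y + 1) = KE y`; `kap x = cos (2 π x)/2` is `< 0` iff
`x ∈ (n + 1/4, n + 3/4)` for an integer `n`, `= 0` iff `x ∈ {n + 1/4, n + 3/4}`; `lam (n + 1/4) = 2n + 1/4`,
`lam (n + 3/4) = 2n + 3/4`, so `lam` maps `(n + 1/4, n + 3/4)` onto `(2n + 1/4, 2n + 3/4)`, where
`KE = kap < 0`, and `(n - 1/4, n + 1/4)` onto `(2n - 5/4, 2n + 1/4)`, where `KE > 0`.
-/

open Set Filter Topology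

namespace LadderVeech

/-- the principal square root -/
noncomputable def LV43_rt (z : ℂ) : ℂ := z ^ (((2 : ℕ) : ℂ)⁻¹)

lemma LV43_rt_sq (z : ℂ) : LV43_rt z ^ 2 = z := Complex.cpow_nat_inv_pow z two_ne_zero

lemma LV43_rt_cont {z : ℂ} (hz : z ∈ Complex.slitPlane) : ContinuousAt LV43_rt z :=
  continuousAt_cpow_const hz

lemma LV43_rt_inv {z : ℂ} (hz : z ∈ Complex.slitPlane) : LV43_rt z * LV43_rt z⁻¹ = 1 := by
  have h1 : LV43_rt z⁻¹ = (LV43_rt z)⁻¹ := Complex.inv_cpow z _ (Complex.mem_slitPlane_iff_arg.1 hz).1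
  have h2 : LV43_rt z ≠ 0 := by
    intro h
    have h3 := LV43_rt_sq z
    rw [h] at h3
    apply Complex.slitPlane_ne_zero hz
    rw [← h3]
    ring
  rw [h1, mul_inv_cancel₀ h2]

lemma LV43_inv_mem {z : ℂ} (hz : z ∈ Complex.slitPlane) : z⁻¹ ∈ Complex.slitPlane := by
  rw [Complex.mem_slitPlane_iff] at hz ⊢
  have h0 : z ≠ 0 := by
    rintro rfl
    simp at hz
  have h1 : 0 < Complex.normSq z := Complex.normSq_pos.2 h0
  rw [Complex.inv_re, Complex.inv_im]
  rcases hz with hz | hz
  · left
    exact div_pos hz h1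
  · right
    exact div_ne_zero (neg_ne_zero.2 hz) h1.ne'

/-- the lifted map -/
noncomputable def LV43_map {B : Type*} [TopologicalSpace B] {F F' : B → ℂ} (ψ : B → B)
    (h0 : ∀ b, F b = 0 → F' (ψ b) = 0) (q : Cv F) : Cv F' :=
  ⟨(ψ q.1.1, q.1.2 * LV43_rt (F' (ψ q.1.1) / F q.1.1)), by
    simp only
    rw [mul_pow, LV43_rt_sq, q.2]
    by_cases hF : F q.1.1 = 0
    · rw [h0 _ hF, hF, zero_mul]
    · field_simp⟩

lemma LV43_map_cont {B : Type*} [TopologicalSpace B] {F F' : B → ℂ} (hF : Continuous F)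
    (hF' : Continuous F') {ψ : B → B} (hψ : Continuous ψ) (h0 : ∀ b, F b = 0 → F' (ψ b) = 0)
    (h : ∀ b, F b ≠ 0 → F' (ψ b) / F b ∈ Complex.slitPlane) :
    Continuous (LV43_map (F := F) (F' := F') ψ h0) := by
  unfold LV43_map
  refine Continuous.subtype_mk ?_ _
  have hfst : Continuous (fun q : Cv F => q.1.1) := continuous_fst.comp continuous_subtype_val
  have hsnd : Continuous (fun q : Cv F => q.1.2) := continuous_snd.comp continuous_subtype_val
  refine (hψ.comp hfst).prodMk ?_
  rw [continuous_iff_continuousAt]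
  intro q
  by_cases hq : F q.1.1 = 0
  · have hq2 : q.1.2 = 0 := by
      have := q.2
      rw [hq] at this
      exact pow_eq_zero_iff two_ne_zero |>.1 this
    have hlim : Tendsto (fun p : Cv F => Real.sqrt ‖F' (ψ p.1.1)‖) (𝓝 q) (𝓝 0) := by
      have h1 : Continuous (fun p : Cv F => Real.sqrt ‖F' (ψ p.1.1)‖) :=
        Real.continuous_sqrt.comp (hF'.comp (hψ.comp hfst)).norm
      have h2 := h1.tendsto q
      rwa [h0 _ hq, norm_zero, Real.sqrt_zero] at h2
    change Tendsto _ _ (𝓝 (q.1.2 * LV43_rt (F' (ψ q.1.1) / F q.1.1)))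
    rw [hq2, zero_mul]
    refine squeeze_zero_norm (fun p => ?_) hlim
    have h3 : (p.1.2 * LV43_rt (F' (ψ p.1.1) / F p.1.1)) ^ 2 = F' (ψ p.1.1) :=
      (LV43_map (F := F) (F' := F') ψ h0 p).2
    have h4 : ‖F' (ψ p.1.1)‖ = ‖p.1.2 * LV43_rt (F' (ψ p.1.1) / F p.1.1)‖ ^ 2 := by
      rw [← norm_pow, h3]
    rw [h4, Real.sqrt_sq (norm_nonneg _)]
  · refine hsnd.continuousAt.mul ?_
    have h1 : ContinuousAt (fun p : Cv F => F' (ψ p.1.1) / F p.1.1) q :=
      (hF'.comp (hψ.comp hfst)).continuousAt.div (hF.comp hfst).continuousAt hq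
    exact ContinuousAt.comp (f := fun p : Cv F => F' (ψ p.1.1) / F p.1.1) (g := LV43_rt)
      (LV43_rt_cont (h _ hq)) h1

theorem cv_lift {B : Type*} [TopologicalSpace B] {F F' : B → ℂ} (hF : Continuous F)
    (hF' : Continuous F') (ψ : B ≃ₜ B) (h0 : ∀ b, F b = 0 ↔ F' (ψ b) = 0)
    (h : ∀ b, F b ≠ 0 → F' (ψ b) / F b ∈ Complex.slitPlane) :
    ∃ Ψ : Cv F ≃ₜ Cv F', ∀ q, (Ψ q).1.1 = ψ q.1.1 := by
  have h0' : ∀ b, F' b = 0 → F (ψ.symm b) = 0 := by
    intro b hb
    rw [h0, ψ.apply_symm_apply]
    exact hb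
  have h' : ∀ b, F' b ≠ 0 → F (ψ.symm b) / F' b ∈ Complex.slitPlane := by
    intro b hb
    have h1 : F (ψ.symm b) ≠ 0 := by
      rw [Ne, h0, ψ.apply_symm_apply]
      exact hb
    have h2 := LV43_inv_mem (h _ h1)
    rwa [ψ.apply_symm_apply, inv_div] at h2
  refine ⟨{ toFun := LV43_map (F := F) (F' := F') ψ (fun b => (h0 b).1)
            invFun := LV43_map (F := F') (F' := F) ψ.symm h0'
            left_inv := ?_
            right_inv := ?_
            continuous_toFun := LV43_map_cont hF hF' ψ.continuous _ h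
            continuous_invFun := LV43_map_cont hF' hF ψ.symm.continuous _ h' }, fun q => rfl⟩
  · intro q
    apply Subtype.ext
    simp only [LV43_map]
    refine Prod.ext (ψ.symm_apply_apply _) ?_
    simp only [ψ.symm_apply_apply]
    by_cases hq : F q.1.1 = 0
    · have hq2 : q.1.2 = 0 := by
        have := q.2
        rw [hq] at this
        exact pow_eq_zero_iff two_ne_zero |>.1 this
      rw [hq2]
      ring
    · have h3 := LV43_rt_inv (h _ hq)
      rw [inv_div] at h3
      rw [mul_assoc, h3, mul_one]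
  · intro q
    apply Subtype.ext
    simp only [LV43_map]
    refine Prod.ext (ψ.apply_symm_apply _) ?_
    simp only [ψ.apply_symm_apply]
    by_cases hq : F' q.1.1 = 0
    · have hq2 : q.1.2 = 0 := by
        have := q.2
        rw [hq] at this
        exact pow_eq_zero_iff two_ne_zero |>.1 this
      rw [hq2]
      ring
    · have h3 := LV43_rt_inv (h' _ hq)
      rw [inv_div] at h3
      rw [mul_assoc, h3, mul_one]

/-- the conjugation homeomorphism -/
noncomputable def LV43_conj {B : Type*} [TopologicalSpace B] (F : B → ℂ) :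
    Cv F ≃ₜ Cv (fun b => (starRingEnd ℂ) (F b)) where
  toFun q := ⟨(q.1.1, (starRingEnd ℂ) q.1.2), by
    simp only
    rw [← map_pow, q.2]⟩
  invFun q := ⟨(q.1.1, (starRingEnd ℂ) q.1.2), by
    simp only
    rw [← map_pow, q.2, Complex.conj_conj]⟩
  left_inv q := by
    apply Subtype.ext
    simp
  right_inv q := by
    apply Subtype.ext
    simp
  continuous_toFun := by
    refine Continuous.subtype_mk ?_ _
    exact (continuous_fst.comp continuous_subtype_val).prodMk
      (Complex.continuous_conj.comp (continuous_snd.comp continuous_subtype_val))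
  continuous_invFun := by
    refine Continuous.subtype_mk ?_ _
    exact (continuous_fst.comp continuous_subtype_val).prodMk
      (Complex.continuous_conj.comp (continuous_snd.comp continuous_subtype_val))

theorem cv_lift_conj {B : Type*} [TopologicalSpace B] {F F' : B → ℂ} (hF : Continuous F)
    (hF' : Continuous F') (ψ : B ≃ₜ B) (h0 : ∀ b, F b = 0 ↔ F' (ψ b) = 0)
    (h : ∀ b, F b ≠ 0 → F' (ψ b) / (starRingEnd ℂ) (F b) ∈ Complex.slitPlane) :
    ∃ Ψ : Cv F ≃ₜ Cv F', ∀ q, (Ψ q).1.1 = ψ q.1.1 := by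
  obtain ⟨Ψ, hΨ⟩ := cv_lift (F := fun b => (starRingEnd ℂ) (F b)) (F' := F')
    (Complex.continuous_conj.comp hF) hF' ψ
    (fun b => by rw [map_eq_zero]; exact h0 b)
    (fun b hb => h b (by rwa [Ne, map_eq_zero] at hb))
  exact ⟨(LV43_conj F).trans Ψ, fun q => hΨ _⟩

lemma LV43_kap_eq (x : ℝ) : kap x = Real.cos (2 * (Real.pi * x)) / 2 := by
  unfold kap
  rw [Real.sin_sq_eq_half_sub]
  ring

lemma LV43_kap_add (x : ℝ) (n : ℤ) : kap (x + n) = kap x := by
  rw [LV43_kap_eq, LV43_kap_eq]
  have : 2 * (Real.pi * (x + n)) = 2 * (Real.pi * x) + n * (2 * Real.pi) := by ring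
  rw [this, Real.cos_add_int_mul_two_pi]

lemma LV43_KE_add (x : ℝ) (n : ℤ) : KE (x + 2 * n) = KE x := by
  unfold KE
  have h1 : x + 2 * (n : ℝ) = x + ((2 * n : ℤ) : ℝ) := by push_cast; ring
  rw [h1, Int.floor_add_intCast, LV43_kap_add]
  have h2 : Even (⌊x⌋ + 2 * n) ↔ Even ⌊x⌋ := by
    rw [Int.even_add]
    simp
  simp only [h2]

lemma LV43_KO_add_one (x : ℝ) : KO (x + 1) = KE x := by
  unfold KO KE
  rw [Int.floor_add_one]
  simp only [Int.even_add_one]
  have h2 : kap (x + 1) = kap x := by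
    have := LV43_kap_add x 1
    simpa using this
  rw [h2]
  by_cases h : Even ⌊x⌋
  · simp [h]
  · simp [h]

lemma LV43_kap_pos {x : ℝ} (h1 : -(1 / 4) < x) (h2 : x < 1 / 4) : 0 < kap x := by
  rw [LV43_kap_eq]
  have hpi := Real.pi_pos
  have : 0 < Real.cos (2 * (Real.pi * x)) := by
    apply Real.cos_pos_of_mem_Ioo
    constructor <;> nlinarith
  linarith

lemma LV43_kap_neg {x : ℝ} (h1 : 1 / 4 < x) (h2 : x < 3 / 4) : kap x < 0 := by
  rw [LV43_kap_eq]
  have hpi := Real.pi_pos
  have : Real.cos (2 * (Real.pi * x)) < 0 := by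
    apply Real.cos_neg_of_pi_div_two_lt_of_lt <;> nlinarith
  linarith

lemma LV43_kap_quarter : kap (1 / 4) = 0 := by
  rw [LV43_kap_eq]
  have : 2 * (Real.pi * (1 / 4)) = Real.pi / 2 := by ring
  rw [this, Real.cos_pi_div_two, zero_div]

lemma LV43_kap_neg_quarter : kap (-(1 / 4)) = 0 := by
  rw [LV43_kap_eq]
  have : 2 * (Real.pi * -(1 / 4)) = -(Real.pi / 2) := by ring
  rw [this, Real.cos_neg, Real.cos_pi_div_two, zero_div]

/-- the map of the base -/
noncomputable def LV43_lam (x : ℝ) : ℝ := 2 * x - 1 / 2 + Real.sin (2 * (Real.pi * x)) / 4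

lemma LV43_lam_add (x : ℝ) (n : ℤ) : LV43_lam (x + n) = LV43_lam x + 2 * n := by
  unfold LV43_lam
  have : 2 * (Real.pi * (x + n)) = 2 * (Real.pi * x) + n * (2 * Real.pi) := by ring
  rw [this, Real.sin_add_int_mul_two_pi]
  ring

lemma LV43_lam_cont : Continuous LV43_lam := by
  unfold LV43_lam
  fun_prop

lemma LV43_lam_deriv (x : ℝ) :
    HasDerivAt LV43_lam (2 + Real.cos (2 * (Real.pi * x)) * (2 * Real.pi) / 4) x := by
  unfold LV43_lam
  have h1 : HasDerivAt (fun x : ℝ => 2 * (Real.pi * x)) (2 * Real.pi) x := by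
    have := (((hasDerivAt_id x).const_mul Real.pi).const_mul 2)
    simpa using this
  have h2 : HasDerivAt (fun x : ℝ => 2 * x - 1 / 2) 2 x := by
    have := ((hasDerivAt_id x).const_mul 2).sub_const (1 / 2)
    simpa using this
  exact h2.add ((h1.sin).div_const 4)

lemma LV43_lam_strictMono : StrictMono LV43_lam := by
  apply strictMono_of_deriv_pos
  intro x
  rw [(LV43_lam_deriv x).deriv]
  have h1 := Real.neg_one_le_cos (2 * (Real.pi * x))
  have h2 := Real.pi_lt_four
  have h3 := Real.pi_pos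
  nlinarith

lemma LV43_lam_surj : Function.Surjective LV43_lam := by
  apply LV43_lam_cont.surjective
  · have h1 : Tendsto (fun x : ℝ => 2 * x - 3 / 4) atTop atTop := by
      have : Tendsto (fun x : ℝ => 2 * x) atTop atTop := tendsto_id.const_mul_atTop (by norm_num)
      have h2 := tendsto_atTop_add_const_right atTop (-(3 / 4)) this
      simp only [← sub_eq_add_neg] at h2
      exact h2
    refine tendsto_atTop_mono (fun x => ?_) h1
    unfold LV43_lam
    have := Real.neg_one_le_sin (2 * (Real.pi * x))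
    linarith
  · have h1 : Tendsto (fun x : ℝ => 2 * x - 1 / 4) atBot atBot := by
      have : Tendsto (fun x : ℝ => 2 * x) atBot atBot := tendsto_id.const_mul_atBot (by norm_num)
      have h2 := tendsto_atBot_add_const_right atBot (-(1 / 4)) this
      simp only [← sub_eq_add_neg] at h2
      exact h2
    refine tendsto_atBot_mono (fun x => ?_) h1
    unfold LV43_lam
    have := Real.sin_le_one (2 * (Real.pi * x))
    linarith

/-- the homeomorphism `lam` -/
noncomputable def LV43_lamH : ℝ ≃ₜ ℝ :=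
  (StrictMono.orderIsoOfSurjective LV43_lam LV43_lam_strictMono LV43_lam_surj).toHomeomorph

lemma LV43_lamH_apply (x : ℝ) : LV43_lamH x = LV43_lam x := rfl

lemma LV43_sign_aux {f : ℝ} (h1 : -(1 / 4) ≤ f) (h2 : f < 3 / 4) :
    (kap f = 0 ∧ KE (LV43_lam f) = 0) ∨ 0 < kap f * KE (LV43_lam f) := by
  have e1 : LV43_lam (-(1 / 4)) = -(5 / 4) := by
    unfold LV43_lam
    have : 2 * (Real.pi * -(1 / 4)) = -(Real.pi / 2) := by ring
    rw [this, Real.sin_neg, Real.sin_pi_div_two]
    norm_num
  have e2 : LV43_lam (1 / 4) = 1 / 4 := by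
    unfold LV43_lam
    have : 2 * (Real.pi * (1 / 4)) = Real.pi / 2 := by ring
    rw [this, Real.sin_pi_div_two]
    norm_num
  have e3 : LV43_lam (3 / 4) = 3 / 4 := by
    unfold LV43_lam
    have : 2 * (Real.pi * (3 / 4)) = Real.pi / 2 + Real.pi := by ring
    rw [this, Real.sin_add_pi, Real.sin_pi_div_two]
    norm_num
  have fl : ∀ (y : ℝ) (n : ℤ), (n : ℝ) ≤ y → y < n + 1 → ⌊y⌋ = n :=
    fun y n ha hb => Int.floor_eq_iff.2 ⟨ha, hb⟩
  rcases eq_or_lt_of_le h1 with h3 | h3
  · left
    rw [← h3, e1]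
    refine ⟨LV43_kap_neg_quarter, ?_⟩
    have h4 : ⌊(-(5 / 4) : ℝ)⌋ = -2 := fl _ _ (by norm_num) (by norm_num)
    unfold KE
    rw [h4, if_pos (by decide)]
    have h5 := LV43_kap_add (-(1 / 4)) (-1)
    have h6 : (-(1 / 4) : ℝ) + ((-1 : ℤ) : ℝ) = -(5 / 4) := by norm_num
    rw [h6, LV43_kap_neg_quarter] at h5
    exact h5
  · rcases lt_trichotomy f (1 / 4) with h4 | h4 | h4
    · right
      apply mul_pos (LV43_kap_pos h3 h4)
      have h5 : -(5 / 4) < LV43_lam f := by rw [← e1]; exact LV43_lam_strictMono h3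
      have h6 : LV43_lam f < 1 / 4 := by
        have := LV43_lam_strictMono h4
        rwa [e2] at this
      unfold KE
      rcases lt_or_ge (LV43_lam f) (-1) with h7 | h7
      · have h8 : ⌊LV43_lam f⌋ = -2 := fl _ _ (by push_cast; linarith) (by push_cast; linarith)
        rw [h8, if_pos (by decide)]
        have h9 := LV43_kap_add (LV43_lam f + 1) (-1)
        have h10 : (LV43_lam f + 1) + ((-1 : ℤ) : ℝ) = LV43_lam f := by push_cast; ring
        rw [h10] at h9
        rw [h9]
        exact LV43_kap_pos (by linarith) (by linarith)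
      · rcases lt_or_ge (LV43_lam f) 0 with h8 | h8
        · have h9 : ⌊LV43_lam f⌋ = -1 := fl _ _ (by push_cast; linarith) (by push_cast; linarith)
          rw [h9, if_neg (by decide)]
          norm_num
        · have h9 : ⌊LV43_lam f⌋ = 0 := fl _ _ (by push_cast; linarith) (by push_cast; linarith)
          rw [h9, if_pos (by decide)]
          exact LV43_kap_pos (by linarith) h6
    · left
      rw [h4, e2]
      refine ⟨LV43_kap_quarter, ?_⟩
      have h5 : ⌊(1 / 4 : ℝ)⌋ = 0 := fl _ _ (by norm_num) (by norm_num)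
      unfold KE
      rw [h5, if_pos (by decide)]
      exact LV43_kap_quarter
    · right
      have h5 : 1 / 4 < LV43_lam f := by
        have := LV43_lam_strictMono h4
        rwa [e2] at this
      have h6 : LV43_lam f < 3 / 4 := by
        have := LV43_lam_strictMono h2
        rwa [e3] at this
      apply mul_pos_of_neg_of_neg (LV43_kap_neg h4 h2)
      have h7 : ⌊LV43_lam f⌋ = 0 := fl _ _ (by push_cast; linarith) (by push_cast; linarith)
      unfold KE
      rw [h7, if_pos (by decide)]
      exact LV43_kap_neg h5 h6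

lemma LV43_sign (x : ℝ) :
    (kap x = 0 ∧ KE (LV43_lam x) = 0) ∨ 0 < kap x * KE (LV43_lam x) := by
  set n : ℤ := ⌊x + 1 / 4⌋ with hn
  have h1 : (n : ℝ) ≤ x + 1 / 4 := Int.floor_le _
  have h2 : x + 1 / 4 < n + 1 := Int.lt_floor_add_one _
  have h3 := LV43_sign_aux (f := x - n) (by linarith) (by linarith)
  have h4 : kap x = kap (x - n) := by
    have := LV43_kap_add (x - n) n
    rwa [sub_add_cancel] at this
  have h5 : LV43_lam x = LV43_lam (x - n) + 2 * n := by
    have := LV43_lam_add (x - n) n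
    rwa [sub_add_cancel] at this
  rw [h4, h5, LV43_KE_add]
  exact h3

/-- the homeomorphism of the annulus -/
noncomputable def LV43_psi : Ann ≃ₜ Ann where
  toFun b := (LV43_lamH b.1 + (1 - (b.2 : ℂ).re) / 2, b.2)
  invFun b := (LV43_lamH.symm (b.1 - (1 - (b.2 : ℂ).re) / 2), b.2)
  left_inv b := by
    simp
  right_inv b := by
    simp
  continuous_toFun := by
    have h1 : Continuous (fun b : Ann => (b.2 : ℂ).re) :=
      Complex.continuous_re.comp (continuous_subtype_val.comp continuous_snd)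
    have h2 : Continuous (fun b : Ann => LV43_lamH b.1) := LV43_lamH.continuous.comp continuous_fst
    exact (h2.add ((continuous_const.sub h1).div_const 2)).prodMk continuous_snd
  continuous_invFun := by
    have h1 : Continuous (fun b : Ann => (b.2 : ℂ).re) :=
      Complex.continuous_re.comp (continuous_subtype_val.comp continuous_snd)
    exact (LV43_lamH.symm.continuous.comp
      (continuous_fst.sub ((continuous_const.sub h1).div_const 2))).prodMk continuous_snd

lemma LV43_psi_fst (b : Ann) : (LV43_psi b).1 = LV43_lam b.1 + (1 - (b.2 : ℂ).re) / 2 := rfl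

lemma LV43_psi_snd (b : Ann) : (LV43_psi b).2 = b.2 := rfl

lemma LV43_circle (ζ : Circle) (h : (ζ : ℂ).im = 0) : (ζ : ℂ).re = 1 ∨ (ζ : ℂ).re = -1 := by
  have h1 : Complex.normSq (ζ : ℂ) = 1 := Circle.normSq_coe ζ
  rw [Complex.normSq_apply, h] at h1
  have h2 : ((ζ : ℂ).re - 1) * ((ζ : ℂ).re + 1) = 0 := by nlinarith
  rcases mul_eq_zero.1 h2 with h3 | h3
  · left; linarith
  · right; linarith

/-- values of the two functions on the real axis -/
lemma LV43_real (b : Ann) (h : (b.2 : ℂ).im = 0) :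
    FF kap kap b = ((kap b.1 : ℝ) : ℂ) ∧
      FF KE KO (LV43_psi b) = ((KE (LV43_lam b.1) : ℝ) : ℂ) := by
  constructor
  · apply Complex.ext
    · simp only [FF, Complex.ofReal_re]
      ring
    · simp only [FF, Complex.ofReal_im]
      exact h
  · apply Complex.ext
    · simp only [FF, Complex.ofReal_re, LV43_psi_fst, LV43_psi_snd]
      rcases LV43_circle b.2 h with h1 | h1
      · rw [h1]
        norm_num
      · rw [h1]
        have h2 : LV43_lam b.1 + (1 - -1) / 2 = LV43_lam b.1 + 1 := by norm_num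
        rw [h2, LV43_KO_add_one]
        norm_num
    · simp only [FF, Complex.ofReal_im, LV43_psi_snd]
      exact h

theorem cv_three : Nonempty (Cv (FF kap kap) ≃ₜ Cv (FF KE KO)) := by
  have him : ∀ b : Ann, (FF kap kap b).im = (b.2 : ℂ).im := fun b => rfl
  have him' : ∀ b : Ann, (FF KE KO (LV43_psi b)).im = (b.2 : ℂ).im := fun b => rfl
  obtain ⟨Ψ, -⟩ := cv_lift (F := FF kap kap) (F' := FF KE KO)
    (continuous_FF continuous_kap continuous_kap) (continuous_FF continuous_KE continuous_KO)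
    LV43_psi (by
      intro b
      by_cases hb : (b.2 : ℂ).im = 0
      · obtain ⟨h1, h2⟩ := LV43_real b hb
        rw [h1, h2, Complex.ofReal_eq_zero, Complex.ofReal_eq_zero]
        rcases LV43_sign b.1 with ⟨h3, h4⟩ | h3
        · exact ⟨fun _ => h4, fun _ => h3⟩
        · constructor
          · intro h4
            rw [h4, zero_mul] at h3
            exact absurd h3 (lt_irrefl _)
          · intro h4
            rw [h4, mul_zero] at h3
            exact absurd h3 (lt_irrefl _)
      · constructor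
        · intro h1
          exfalso
          apply hb
          rw [← him b, h1, Complex.zero_im]
        · intro h1
          exfalso
          apply hb
          rw [← him' b, h1, Complex.zero_im]) (by
      intro b hb0
      by_cases hb : (b.2 : ℂ).im = 0
      · obtain ⟨h1, h2⟩ := LV43_real b hb
        rw [h1, Ne, Complex.ofReal_eq_zero] at hb0
        rcases LV43_sign b.1 with ⟨h3, -⟩ | h3
        · exact absurd h3 hb0
        · rw [h1, h2, ← Complex.ofReal_div, Complex.ofReal_mem_slitPlane]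
          have h4 : KE (LV43_lam b.1) / kap b.1 = (kap b.1 * KE (LV43_lam b.1)) / (kap b.1) ^ 2 := by
            field_simp
          rw [h4]
          positivity
      · rw [Complex.mem_slitPlane_iff]
        by_cases hre : (FF kap kap b).re = (FF KE KO (LV43_psi b)).re
        · left
          have h1 : FF KE KO (LV43_psi b) = FF kap kap b :=
            Complex.ext hre.symm (by rw [him, him'])
          rw [h1, div_self hb0]
          norm_num
        · right
          have hn : Complex.normSq (FF kap kap b) ≠ 0 := by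
            rw [Ne, Complex.normSq_eq_zero]
            exact hb0
          rw [Complex.div_im, him, him']
          intro h1
          apply hre
          have h2 : (b.2 : ℂ).im * ((FF kap kap b).re - (FF KE KO (LV43_psi b)).re) = 0 := by
            field_simp at h1
            linarith
          rcases mul_eq_zero.1 h2 with h3 | h3
          · exact absurd h3 hb
          · linarith)
  exact ⟨Ψ⟩

end LadderVeech
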