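import Pool.Agent.LadderVeech.LVDefs

/-!
LV44. The translation structure of a branched developing map (BrDev in LVDefs).
-/

open Set Filter Topology

namespace LadderVeech

variable {S : Type*} [TopologicalSpace S]

lemma BrDev.continuous {D : S → ℂ} {Z : Set S} (h : BrDev D Z) : Continuous D := by
  rw [continuous_iff_continuousAt]
  intro p
  by_cases hp : p ∈ Z
  · obtain ⟨k, -, φ, hpφ, -, -, hD⟩ := h.br p hp
    have h1 : ContinuousAt (fun q => D p + φ q ^ k) p :=
      continuousAt_const.add ((φ.continuousAt hpφ).pow _)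
    refine h1.congr ?_
    filter_upwards [φ.open_source.mem_nhds hpφ] with q hq using (hD q hq).symm
  · obtain ⟨e, hpe, -, hD⟩ := h.reg p hp
    refine (e.continuousAt hpe).congr ?_
    filter_upwards [e.open_source.mem_nhds hpe] with q hq using hD q hq

private lemma dev_seg {ω : TranslationStructure S} {D : S → ℂ} (hc : Continuous D)
    (hD : ∀ e ∈ ω.atlas, ∀ p ∈ e.source, ∃ c, ∀ᶠ q in 𝓝 p, e q = D q + c) {x y : S} {v : ℂ}
    (h : Seg ω x v y) : D y = D x + v := by
  rcases h with ⟨rfl, rfl⟩ | ⟨γ, hγ, h0, h1, hloc⟩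
  · simp
  set g : ℝ → ℂ := fun s => D (γ s) - (s:ℂ) * v with hg
  have hgc : ContinuousOn g (Icc 0 1) := by
    refine ContinuousOn.sub (hc.comp_continuousOn hγ) ?_
    exact (Complex.continuous_ofReal.mul continuous_const).continuousOn
  have hder : ∀ x ∈ Ioo (0:ℝ) 1, HasDerivAt g 0 x := by
    intro x hx
    obtain ⟨hns, hch⟩ := hloc x hx
    obtain ⟨e, he, hxe⟩ := ω.covers _ hns
    obtain ⟨c, hc1⟩ := hD e he _ hxe
    have hγx : ContinuousAt γ x := hγ.continuousAt (Icc_mem_nhds hx.1 hx.2)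
    have h2 := hγx.eventually hc1
    have h3 := hc1.self_of_nhds
    have h4 : g =ᶠ[𝓝 x] fun _ => g x := by
      filter_upwards [h2, hch e he hxe] with s hs hs'
      rw [hs, h3] at hs'
      have : D (γ s) = D (γ x) + ((s - x : ℝ) : ℂ) * v := by
        linear_combination hs'
      simp only [hg]
      rw [this]
      push_cast
      ring
    exact (hasDerivAt_const x (g x)).congr_of_eventuallyEq h4
  have hconst : ∀ ε ∈ Ioo (0:ℝ) 1, g 1 = g ε := by
    intro ε hε
    have := constant_of_has_deriv_right_zero (f := g) (a := ε) (b := 1)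
      (hgc.mono (Icc_subset_Icc_left hε.1.le))
      (fun x hx => (hder x ⟨hε.1.trans_le hx.1, hx.2⟩).hasDerivWithinAt) 1 ⟨hε.2.le, le_rfl⟩
    exact this
  have hlim : Tendsto g (𝓝[Ioo 0 1] 0) (𝓝 (g 0)) :=
    ((hgc 0 ⟨le_rfl, zero_le_one⟩).mono Ioo_subset_Icc_self).tendsto
  have hne : (𝓝[Ioo (0:ℝ) 1] 0).NeBot := left_nhdsWithin_Ioo_neBot zero_lt_one
  have h4 : Tendsto g (𝓝[Ioo 0 1] 0) (𝓝 (g 1)) := by
    refine tendsto_const_nhds.congr' ?_
    filter_upwards [self_mem_nhdsWithin] with ε hε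
    exact hconst ε hε
  have h5 : g 1 = g 0 := tendsto_nhds_unique h4 hlim
  simp only [hg, h0, h1] at h5
  push_cast at h5
  linear_combination h5

theorem BrDev.exists_structure [T2Space S] {D : S → ℂ} {Z : Set S} (h : BrDev D Z) :
    ∃ ω : TranslationStructure S, ω.sing = Z ∧ IsDev ω D ∧
      ∀ e ∈ ω.atlas, ∀ p ∈ e.source, ∃ c, ∀ᶠ q in 𝓝 p, e q = D q + c := by
  let ω : TranslationStructure S :=
    { sing := Z
      isClosed_sing := h.isClosed
      isDiscrete_sing := h.isDiscrete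
      atlas := {e | e.source ⊆ Zᶜ ∧ ∀ p ∈ e.source, ∃ c, ∀ᶠ q in 𝓝 p, e q = D q + c}
      source_subset := fun e he => he.1
      covers := by
        intro p hp
        obtain ⟨e, hpe, hsub, hD⟩ := h.reg p hp
        refine ⟨e, ⟨hsub, fun q hq => ⟨0, ?_⟩⟩, hpe⟩
        filter_upwards [e.open_source.mem_nhds hq] with q' hq'
        rw [hD q' hq', add_zero]
      compatible := by
        intro e he e' he' p hp
        obtain ⟨c, hc⟩ := he.2 p hp.1
        obtain ⟨c', hc'⟩ := he'.2 p hp.2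
        refine ⟨c' - c, ?_⟩
        filter_upwards [hc, hc'] with q hq hq'
        rw [hq, hq']
        ring
      maximal := by
        intro e hsub hcomp
        refine ⟨hsub, fun p hp => ?_⟩
        obtain ⟨e', hpe', hsub', hD'⟩ := h.reg p (hsub hp)
        have he' : e' ∈ {e : OpenPartialHomeomorph S ℂ | e.source ⊆ Zᶜ ∧
            ∀ p ∈ e.source, ∃ c, ∀ᶠ q in 𝓝 p, e q = D q + c} := by
          refine ⟨hsub', fun q hq => ⟨0, ?_⟩⟩
          filter_upwards [e'.open_source.mem_nhds hq] with q' hq'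
          rw [hD' q' hq', add_zero]
        obtain ⟨c, hc⟩ := hcomp e' he' p ⟨hp, hpe'⟩
        refine ⟨-c, ?_⟩
        filter_upwards [hc, e'.open_source.mem_nhds hpe'] with q hq hq'
        rw [hD' q hq'] at hq
        rw [hq]
        ring
      cone := by
        intro p hp
        obtain ⟨k, hk, φ, hpφ, h0, hne, hD⟩ := h.br p hp
        refine ⟨k, hk, φ, hpφ, h0, fun q hq hqp => ⟨hne q hq hqp, fun e he hqe => ?_⟩⟩
        obtain ⟨c, hc⟩ := he.2 q hqe
        refine ⟨D p + c, ?_⟩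
        filter_upwards [hc, φ.open_source.mem_nhds hq] with q' h1 h2
        rw [h1, hD q' h2]
        ring }
  refine ⟨ω, rfl, ?_, fun e he => he.2⟩
  intro x m y hy
  exact dev_seg (ω := ω) h.continuous (fun e he => he.2) (m.seg_of_mem hy)

theorem affine_of_dev {ω : TranslationStructure S} {D : S → ℂ}
    (hD : ∀ e ∈ ω.atlas, ∀ p ∈ e.source, ∃ c, ∀ᶠ q in 𝓝 p, e q = D q + c) {f : S ≃ₜ S}
    {A : GL (Fin 2) ℝ} (hf : f '' ω.sing = ω.sing) {c : ℂ} (h : ∀ q, D (f q) = act A (D q) + c) :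
    IsAffine ω f A := by
  refine ⟨hf, fun p hp e he hpe e' he' hpe' => ?_⟩
  obtain ⟨c₁, hc₁⟩ := hD e he p hpe
  obtain ⟨c₂, hc₂⟩ := hD e' he' (f p) hpe'
  refine ⟨c + c₂ - act A c₁, ?_⟩
  filter_upwards [hc₁, (f.continuous.tendsto p).eventually hc₂] with q h1 h2
  rw [h2, h, h1, act_add]
  ring

end LadderVeech
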