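import Pool.Agent.LadderVeech.LVDefs

/-!
LV45. The double cover as a branched surface: `D (b, v) = W b` with `W` an open embedding of the base in `ℂ`.

PROOF. `Z = {v = 0}`: closed; discrete: by `h` every point `(b₀, 0)` has a neighbourhood without other zeros
of `F`. Regular points `p = (b₀, v₀)`, `v₀ ≠ 0`: choose an open `V ∋ b₀` with `F b ≠ 0` and
`F b / F b₀ ∈ slitPlane` on `V` (`F b / F b₀ → 1`); chart: source `{(b, v) | b ∈ V, 0 < (v / v₀).re}`,
`(b, v) ↦ W b`, target `W '' V`, inverse `z ↦ (W⁻¹ z, v₀ * sqrt (F b / F b₀))`, `b = W⁻¹ z`,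
`sqrt z = z ^ (1/2 : ℂ)` (`((v/v₀)^2 = F b / F b₀`, `0 < re` determines the root).
Branch points `p = (b₀, 0)`, `k = 2`: let `r > 0` with `ball (W b₀) (r²) ⊆ W '' (interior U)`, source
`{(b, v) | ‖W b - W b₀‖ < r², b ∈ interior U}`, target `ball 0 r`.
 First alternative: `φ (b, v) = v * sqrt ((W b - W b₀) / F b)` for `b ≠ b₀`, `φ p = 0`;
 `φ² = W b - W b₀`; inverse `ζ ↦ (b, ζ * sqrt (F b / (W b - W b₀)))`, `b = W⁻¹ (W b₀ + ζ²)`, `0 ↦ p`
 (`sqrt z * sqrt z⁻¹ = 1`, `v² = F b`). Continuity at the centre: `‖φ‖² = ‖W b - W b₀‖`, `‖v‖² = ‖F b‖`.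
 Second alternative: the same with `v` replaced by `I * conj v`: `(I conj v)² = - conj (F b)`:
 `φ (b, v) = I * conj v * sqrt ((W b - W b₀) / (- conj (F b)))`. (Or reduce it to the first alternative by the
 homeomorphism `(b, v) ↦ (b, I * conj v)` from `Cv F` to `Cv (- conj F)`.)
-/

open Set Filter Topology

namespace LadderVeech

/-- the principal square root -/
noncomputable def LV45_sq (z : ℂ) : ℂ := z ^ ((2 : ℕ) : ℂ)⁻¹

lemma LV45_sq_sq (z : ℂ) : LV45_sq z ^ 2 = z := Complex.cpow_nat_inv_pow z two_ne_zero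

lemma LV45_sq_of_sq {w z : ℂ} (h : w ^ 2 = z) (hw : 0 < w.re) : LV45_sq z = w := by
  rw [← h]
  unfold LV45_sq
  exact_mod_cast Complex.sq_cpow_two_inv hw

lemma LV45_sq_cont {z : ℂ} (hz : z ∈ Complex.slitPlane) : ContinuousAt LV45_sq z :=
  continuousAt_id.cpow continuousAt_const hz

lemma LV45_sq_re {z : ℂ} (hz : z ∈ Complex.slitPlane) : 0 < (LV45_sq z).re := by
  have h1 := Complex.mem_slitPlane_iff_arg.1 hz
  have h4 : LV45_sq z = Complex.exp (Complex.log z * ((2 : ℕ) : ℂ)⁻¹) := by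
    unfold LV45_sq
    rw [Complex.cpow_def_of_ne_zero h1.2]
  rw [h4, Complex.exp_re]
  have h5 : (Complex.log z * ((2 : ℕ) : ℂ)⁻¹).im = z.arg / 2 := by
    have h6 : (((2 : ℕ) : ℂ)⁻¹) = (((1 / 2 : ℝ)) : ℂ) := by
      push_cast
      norm_num
    rw [h6, mul_comm, Complex.im_ofReal_mul, Complex.log_im]
    ring
  rw [h5]
  apply mul_pos (Real.exp_pos _)
  apply Real.cos_pos_of_mem_Ioo
  have h7 := Complex.neg_pi_lt_arg z
  have h8 := lt_of_le_of_ne (Complex.arg_le_pi z) h1.1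
  constructor <;> linarith

lemma LV45_sq_inv {z : ℂ} (hz : z ∈ Complex.slitPlane) : LV45_sq z * LV45_sq z⁻¹ = 1 := by
  have h1 := Complex.mem_slitPlane_iff_arg.1 hz
  unfold LV45_sq
  rw [Complex.inv_cpow _ _ h1.1]
  apply mul_inv_cancel₀
  rw [Complex.cpow_def_of_ne_zero h1.2]
  exact Complex.exp_ne_zero _

lemma LV45_inv_mem {z : ℂ} (hz : z ∈ Complex.slitPlane) : z⁻¹ ∈ Complex.slitPlane := by
  rw [Complex.mem_slitPlane_iff] at hz ⊢
  have hz0 : z ≠ 0 := by
    rintro rfl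
    simp at hz
  have hn : 0 < Complex.normSq z := Complex.normSq_pos.2 hz0
  rw [Complex.inv_re, Complex.inv_im]
  rcases hz with h | h
  · left
    positivity
  · right
    exact div_ne_zero (neg_ne_zero.2 h) hn.ne'

section

variable {B : Type*} [TopologicalSpace B] {F : B → ℂ} {W : B → ℂ}

/-- regular charts -/
lemma LV45_reg (hF : Continuous F) (hW : IsOpenEmbedding W) (p : Cv F) (hp : p.1.2 ≠ 0) :
    ∃ e : OpenPartialHomeomorph (Cv F) ℂ, p ∈ e.source ∧ e.source ⊆ {q : Cv F | q.1.2 = 0}ᶜ ∧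
      ∀ q ∈ e.source, e q = W q.1.1 := by
  obtain ⟨⟨b₀, v₀⟩, hp0⟩ := p
  have hp1 : v₀ ≠ 0 := hp
  have hp2 : v₀ ^ 2 = F b₀ := hp0
  have hF0 : F b₀ ≠ 0 := by
    rw [← hp2]
    exact pow_ne_zero 2 hp1
  have hne : Nonempty B := ⟨b₀⟩
  obtain ⟨V, hV⟩ : ∃ V : Set B, V = {b | F b / F b₀ ∈ Complex.slitPlane} := ⟨_, rfl⟩
  have hVo : IsOpen V := by
    rw [hV]
    exact Complex.isOpen_slitPlane.preimage (hF.div_const _)
  have hVm : ∀ b, b ∈ V ↔ F b / F b₀ ∈ Complex.slitPlane := by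
    intro b
    rw [hV]
    rfl
  -- the inverse of W
  obtain ⟨Wi, hWi⟩ : ∃ Wi : ℂ → B, Wi = Function.invFun W := ⟨_, rfl⟩
  have hWi1 : ∀ b, Wi (W b) = b := by
    intro b
    rw [hWi]
    exact Function.leftInverse_invFun hW.injective b
  have hWic : ∀ b, ContinuousAt Wi (W b) := by
    intro b
    intro s hs
    rw [hWi1] at hs
    have h1 := hW.image_mem_nhds.2 hs
    rw [Filter.mem_map]
    apply Filter.mem_of_superset h1
    rintro _ ⟨b', hb', rfl⟩
    show Wi (W b') ∈ s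
    rw [hWi1]
    exact hb'
  have hsq : ∀ b, (v₀ * LV45_sq (F b / F b₀)) ^ 2 = F b := by
    intro b
    rw [mul_pow, LV45_sq_sq, hp2]
    field_simp
  have hcont1 : Continuous (fun q : Cv F => q.1.1) := continuous_fst.comp continuous_subtype_val
  have hcont2 : Continuous (fun q : Cv F => q.1.2) := continuous_snd.comp continuous_subtype_val
  refine ⟨{
    toFun := fun q => W q.1.1
    invFun := fun z => ⟨(Wi z, v₀ * LV45_sq (F (Wi z) / F b₀)), hsq (Wi z)⟩
    source := {q | q.1.1 ∈ V ∧ 0 < (q.1.2 / v₀).re}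
    target := W '' V
    map_source' := ?_
    map_target' := ?_
    left_inv' := ?_
    right_inv' := ?_
    continuousOn_toFun := ?_
    continuousOn_invFun := ?_
    open_source := ?_
    open_target := ?_ }, ?_, ?_, ?_⟩
  · rintro q ⟨h1, _⟩
    exact ⟨_, h1, rfl⟩
  · rintro _ ⟨b, hb, rfl⟩
    show Wi (W b) ∈ V ∧ 0 < (v₀ * LV45_sq (F (Wi (W b)) / F b₀) / v₀).re
    rw [hWi1, mul_div_cancel_left₀ _ hp1]
    exact ⟨hb, LV45_sq_re ((hVm b).1 hb)⟩
  · rintro ⟨⟨b, v⟩, hq⟩ ⟨_, h2⟩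
    have hq1 : v ^ 2 = F b := hq
    have h2' : 0 < (v / v₀).re := h2
    apply Subtype.ext
    show (Wi (W b), v₀ * LV45_sq (F (Wi (W b)) / F b₀)) = (b, v)
    rw [hWi1]
    have h3 : LV45_sq (F b / F b₀) = v / v₀ := by
      apply LV45_sq_of_sq _ h2'
      rw [div_pow, hq1, hp2]
    rw [h3, mul_div_cancel₀ _ hp1]
  · rintro _ ⟨b, hb, rfl⟩
    show W (Wi (W b)) = W b
    rw [hWi1]
  · exact (hW.continuous.comp hcont1).continuousOn
  · rw [Topology.IsInducing.subtypeVal.continuousOn_iff]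
    rintro _ ⟨b, hb, rfl⟩
    apply ContinuousAt.continuousWithinAt
    have h1 : ContinuousAt Wi (W b) := hWic b
    have h2 : ContinuousAt (fun z => F (Wi z) / F b₀) (W b) :=
      (ContinuousAt.comp hF.continuousAt h1).div_const _
    have h3 : ContinuousAt (fun z => v₀ * LV45_sq (F (Wi z) / F b₀)) (W b) := by
      apply ContinuousAt.mul continuousAt_const
      apply ContinuousAt.comp (f := fun z => F (Wi z) / F b₀) (g := LV45_sq) _ h2
      apply LV45_sq_cont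
      rw [hWi1]
      exact (hVm b).1 hb
    exact h1.prodMk h3
  · apply IsOpen.inter
    · exact hVo.preimage hcont1
    · exact isOpen_lt continuous_const (Complex.continuous_re.comp (hcont2.div_const _))
  · exact hW.isOpenMap V hVo
  · show b₀ ∈ V ∧ 0 < (v₀ / v₀).re
    rw [div_self hp1]
    refine ⟨(hVm b₀).2 ?_, ?_⟩
    · rw [div_self hF0]
      exact Complex.one_mem_slitPlane
    · simp
  · rintro ⟨⟨b, v⟩, hq⟩ ⟨_, h2⟩ h3
    have h2' : 0 < (v / v₀).re := h2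
    have h3' : v = 0 := h3
    rw [h3'] at h2'
    simp at h2'
  · intro q _
    rfl

/-- charts at the branch points, first alternative -/
lemma LV45_br (hF : Continuous F) (hW : IsOpenEmbedding W) (b₀ : B) (hb₀ : F b₀ = 0) (U : Set B)
    (hU : U ∈ 𝓝 b₀) (h : ∀ b ∈ U, b ≠ b₀ → F b ≠ 0 ∧ (W b - W b₀) / F b ∈ Complex.slitPlane)
    (p : Cv F) (hp : p.1 = (b₀, 0)) :
    ∃ φ : OpenPartialHomeomorph (Cv F) ℂ, p ∈ φ.source ∧ φ p = 0 ∧
      (∀ q ∈ φ.source, q ≠ p → q.1.2 ≠ 0) ∧ ∀ q ∈ φ.source, W q.1.1 = W p.1.1 + φ q ^ 2 := by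
  classical
  have hne : Nonempty B := ⟨b₀⟩
  -- the inverse of W
  obtain ⟨Wi, hWi⟩ : ∃ Wi : ℂ → B, Wi = Function.invFun W := ⟨_, rfl⟩
  have hWi1 : ∀ b, Wi (W b) = b := by
    intro b
    rw [hWi]
    exact Function.leftInverse_invFun hW.injective b
  have hWic : ∀ b, ContinuousAt Wi (W b) := by
    intro b
    intro s hs
    rw [hWi1] at hs
    have h1 := hW.image_mem_nhds.2 hs
    rw [Filter.mem_map]
    apply Filter.mem_of_superset h1
    rintro _ ⟨b', hb', rfl⟩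
    show Wi (W b') ∈ s
    rw [hWi1]
    exact hb'
  have hcont1 : Continuous (fun q : Cv F => q.1.1) := continuous_fst.comp continuous_subtype_val
  have hcont2 : Continuous (fun q : Cv F => q.1.2) := continuous_snd.comp continuous_subtype_val
  obtain ⟨ρ, hρ, hball⟩ : ∃ ρ > 0, Metric.ball (W b₀) ρ ⊆ W '' U :=
    Metric.mem_nhds_iff.1 (hW.image_mem_nhds.2 hU)
  have hball' : ∀ z : ℂ, ‖z - W b₀‖ < ρ → ∃ b ∈ U, W b = z := by
    intro z hz
    exact hball (by rw [Metric.mem_ball, dist_eq_norm]; exact hz)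
  have hmemU : ∀ b, ‖W b - W b₀‖ < ρ → b ∈ U := by
    intro b hb
    obtain ⟨b', hb', h1⟩ := hball' _ hb
    rw [← hW.injective h1]
    exact hb'
  have hpv : ∀ q : Cv F, q.1.1 = b₀ → q = p := by
    rintro ⟨⟨b, v⟩, hq⟩ h1
    have h1' : b = b₀ := h1
    have hq1 : v ^ 2 = F b := hq
    rw [h1', hb₀] at hq1
    have h2 : v = 0 := pow_eq_zero_iff two_ne_zero |>.1 hq1
    apply Subtype.ext
    rw [hp]
    exact Prod.ext h1' h2
  have hWne : ∀ b, b ≠ b₀ → W b - W b₀ ≠ 0 := by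
    intro b hb h1
    exact hb (hW.injective (sub_eq_zero.1 h1))
  -- the chart
  obtain ⟨f, hf⟩ : ∃ f : Cv F → ℂ, ∀ q, f q = q.1.2 * LV45_sq ((W q.1.1 - W b₀) / F q.1.1) := ⟨_, fun _ => rfl⟩
  have hf2 : ∀ q : Cv F, ‖W q.1.1 - W b₀‖ < ρ → f q ^ 2 = W q.1.1 - W b₀ := by
    intro q hq
    rw [hf, mul_pow, LV45_sq_sq]
    have hq1 : q.1.2 ^ 2 = F q.1.1 := q.2
    rw [hq1]
    by_cases hb : q.1.1 = b₀
    · rw [hb, hb₀, sub_self]
      simp
    · have h1 := (h q.1.1 (hmemU _ hq) hb).1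
      field_simp
  have hfp : f p = 0 := by
    rw [hf, hp]
    simp
  -- the inverse
  obtain ⟨b, hb⟩ : ∃ b : ℂ → B, ∀ ζ, b ζ = Wi (W b₀ + ζ ^ 2) := ⟨_, fun _ => rfl⟩
  obtain ⟨v, hv⟩ : ∃ v : ℂ → ℂ, ∀ ζ, v ζ = ζ * LV45_sq (F (b ζ) / ζ ^ 2) := ⟨_, fun _ => rfl⟩
  have hbW : ∀ ζ : ℂ, ‖ζ ^ 2‖ < ρ → W (b ζ) = W b₀ + ζ ^ 2 := by
    intro ζ hζ
    obtain ⟨b', _, h1⟩ := hball' (W b₀ + ζ ^ 2) (by rwa [add_sub_cancel_left])
    rw [hb, ← h1, hWi1]
  have hv2 : ∀ ζ : ℂ, ‖ζ ^ 2‖ < ρ → v ζ ^ 2 = F (b ζ) := by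
    intro ζ hζ
    rw [hv, mul_pow, LV45_sq_sq]
    by_cases h0 : ζ = 0
    · rw [h0, hb]
      simp [hWi1, hb₀]
    · field_simp
  obtain ⟨g, hg⟩ : ∃ g : ℂ → Cv F, ∀ ζ, ∀ hζ : v ζ ^ 2 = F (b ζ), g ζ = ⟨(b ζ, v ζ), hζ⟩ := by
    refine ⟨fun ζ => if hζ : v ζ ^ 2 = F (b ζ) then ⟨(b ζ, v ζ), hζ⟩ else p, ?_⟩
    intro ζ hζ
    exact dif_pos hζ
  have hb0 : b 0 = b₀ := by
    rw [hb]
    simp [hWi1]
  have hbne : ∀ ζ : ℂ, ‖ζ ^ 2‖ < ρ → ζ ≠ 0 → b ζ ≠ b₀ := by
    intro ζ hζ h0 h1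
    have h2 := hbW ζ hζ
    rw [h1] at h2
    have h3 : ζ ^ 2 = 0 := by
      have : W b₀ + 0 = W b₀ + ζ ^ 2 := by rw [add_zero]; exact h2
      exact (add_left_cancel this).symm
    exact h0 (pow_eq_zero_iff two_ne_zero |>.1 h3)
  have hbU : ∀ ζ : ℂ, ‖ζ ^ 2‖ < ρ → b ζ ∈ U := by
    intro ζ hζ
    apply hmemU
    rwa [hbW ζ hζ, add_sub_cancel_left]
  refine ⟨{
    toFun := f
    invFun := g
    source := {q | ‖W q.1.1 - W b₀‖ < ρ}
    target := {ζ | ‖ζ ^ 2‖ < ρ}
    map_source' := ?_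
    map_target' := ?_
    left_inv' := ?_
    right_inv' := ?_
    continuousOn_toFun := ?_
    continuousOn_invFun := ?_
    open_source := ?_
    open_target := ?_ }, ?_, ?_, ?_, ?_⟩
  · intro q hq
    show ‖f q ^ 2‖ < ρ
    rw [hf2 q hq]
    exact hq
  · intro ζ hζ
    have hζ' : ‖ζ ^ 2‖ < ρ := hζ
    show ‖W (g ζ).1.1 - W b₀‖ < ρ
    rw [hg ζ (hv2 ζ hζ')]
    show ‖W (b ζ) - W b₀‖ < ρ
    rwa [hbW ζ hζ', add_sub_cancel_left]
  · intro q hq
    have hq' : ‖W q.1.1 - W b₀‖ < ρ := hq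
    show g (f q) = q
    have h1 := hf2 q hq'
    have h2 : ‖f q ^ 2‖ < ρ := by rw [h1]; exact hq'
    rw [hg _ (hv2 _ h2)]
    have h3 : b (f q) = q.1.1 := by
      rw [hb, h1, add_sub_cancel, hWi1]
    apply Subtype.ext
    show (b (f q), v (f q)) = q.1
    have h4 : v (f q) = q.1.2 := by
      rw [hv, h3, h1]
      by_cases h5 : q.1.1 = b₀
      · have h6 := hpv q h5
        rw [h6, hfp, hp]
        simp
      · have h7 := (h q.1.1 (hmemU _ hq') h5).2
        have h8 := LV45_sq_inv h7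
        rw [inv_div] at h8
        rw [hf, mul_assoc, h8, mul_one]
    rw [h3, h4]
  · intro ζ hζ
    have hζ' : ‖ζ ^ 2‖ < ρ := hζ
    show f (g ζ) = ζ
    rw [hg ζ (hv2 ζ hζ'), hf]
    show v ζ * LV45_sq ((W (b ζ) - W b₀) / F (b ζ)) = ζ
    by_cases h0 : ζ = 0
    · rw [hv, h0]
      simp
    · have h1 := (h _ (hbU ζ hζ') (hbne ζ hζ' h0)).2
      have h2 := LV45_sq_inv h1
      rw [inv_div] at h2
      rw [hbW ζ hζ', add_sub_cancel_left] at h2 ⊢
      rw [hv, mul_assoc, mul_comm (LV45_sq (F (b ζ) / ζ ^ 2)), h2, mul_one]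
  · intro q hq
    have hq' : ‖W q.1.1 - W b₀‖ < ρ := hq
    apply ContinuousAt.continuousWithinAt
    by_cases h5 : q.1.1 = b₀
    · have h6 := hpv q h5
      rw [h6]
      show Tendsto f (𝓝 p) (𝓝 (f p))
      rw [hfp, tendsto_zero_iff_norm_tendsto_zero]
      have h7 : ∀ᶠ q' in 𝓝 p, ‖f q'‖ = Real.sqrt ‖W q'.1.1 - W b₀‖ := by
        have h8 : ∀ᶠ q' in 𝓝 p, ‖W q'.1.1 - W b₀‖ < ρ := by
          apply (isOpen_lt ((hW.continuous.comp hcont1).sub continuous_const).norm continuous_const).mem_nhds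
          show ‖W p.1.1 - W b₀‖ < ρ
          rw [hp]
          simpa using hρ
        filter_upwards [h8] with q' hq'
        rw [← hf2 q' hq', norm_pow, Real.sqrt_sq (norm_nonneg _)]
      rw [tendsto_congr' h7]
      have h9 : Continuous (fun q' : Cv F => Real.sqrt ‖W q'.1.1 - W b₀‖) :=
        Real.continuous_sqrt.comp ((hW.continuous.comp hcont1).sub continuous_const).norm
      have h10 := h9.tendsto p
      have h11 : Real.sqrt ‖W p.1.1 - W b₀‖ = 0 := by
        rw [hp]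
        simp
      rwa [h11] at h10
    · have h7 := h q.1.1 (hmemU _ hq') h5
      have h8 : ContinuousAt (fun q' : Cv F => (W q'.1.1 - W b₀) / F q'.1.1) q :=
        (((hW.continuous.comp hcont1).sub continuous_const).continuousAt).div
          ((hF.comp hcont1).continuousAt) h7.1
      have h9 : ContinuousAt (fun q' : Cv F => q'.1.2 * LV45_sq ((W q'.1.1 - W b₀) / F q'.1.1)) q :=
        hcont2.continuousAt.mul (ContinuousAt.comp (g := LV45_sq) (LV45_sq_cont h7.2) h8)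
      have h10 : f = fun q' : Cv F => q'.1.2 * LV45_sq ((W q'.1.1 - W b₀) / F q'.1.1) := funext hf
      rw [h10]
      exact h9
  · rw [Topology.IsInducing.subtypeVal.continuousOn_iff]
    have hcong : EqOn (Subtype.val ∘ g) (fun ζ => (b ζ, v ζ)) {ζ | ‖ζ ^ 2‖ < ρ} := by
      intro ζ hζ
      show (g ζ).1 = (b ζ, v ζ)
      rw [hg ζ (hv2 ζ hζ)]
    apply ContinuousOn.congr _ hcong
    intro ζ hζ
    have hζ' : ‖ζ ^ 2‖ < ρ := hζ
    apply ContinuousAt.continuousWithinAt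
    have hbc : ContinuousAt b ζ := by
      have h1 : b = fun ζ => Wi (W b₀ + ζ ^ 2) := funext hb
      rw [h1]
      apply ContinuousAt.comp (f := fun ζ : ℂ => W b₀ + ζ ^ 2) (g := Wi)
      · rw [← hbW ζ hζ']
        exact hWic _
      · exact (continuous_const.add (continuous_pow 2)).continuousAt
    apply hbc.prodMk
    by_cases h0 : ζ = 0
    · rw [h0]
      show Tendsto v (𝓝 0) (𝓝 (v 0))
      have hv0 : v 0 = 0 := by
        rw [hv]
        simp
      rw [hv0, tendsto_zero_iff_norm_tendsto_zero]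
      have h7 : ∀ᶠ ζ' in 𝓝 (0 : ℂ), ‖v ζ'‖ = Real.sqrt ‖F (b ζ')‖ := by
        have h8 : ∀ᶠ ζ' in 𝓝 (0 : ℂ), ‖ζ' ^ 2‖ < ρ := by
          apply (isOpen_lt (continuous_pow 2).norm continuous_const).mem_nhds
          show ‖(0 : ℂ) ^ 2‖ < ρ
          simpa using hρ
        filter_upwards [h8] with ζ' hζ''
        rw [← hv2 ζ' hζ'', norm_pow, Real.sqrt_sq (norm_nonneg _)]
      rw [tendsto_congr' h7]
      have hbc0 : ContinuousAt b 0 := by
        rw [h0] at hbc
        exact hbc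
      have h9 : ContinuousAt (fun ζ' => Real.sqrt ‖F (b ζ')‖) 0 :=
        Real.continuous_sqrt.continuousAt.comp ((ContinuousAt.comp hF.continuousAt hbc0).norm)
      have h10 : Real.sqrt ‖F (b 0)‖ = 0 := by
        rw [hb0, hb₀]
        simp
      have h11 : Tendsto (fun ζ' => Real.sqrt ‖F (b ζ')‖) (𝓝 0) (𝓝 (Real.sqrt ‖F (b 0)‖)) := h9
      rwa [h10] at h11
    · have h1 := (h _ (hbU ζ hζ') (hbne ζ hζ' h0)).2
      have h2 := LV45_inv_mem h1
      rw [inv_div, hbW ζ hζ', add_sub_cancel_left] at h2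
      have h3 : ContinuousAt (fun ζ' => F (b ζ') / ζ' ^ 2) ζ :=
        (ContinuousAt.comp hF.continuousAt hbc).div (continuous_pow 2).continuousAt (pow_ne_zero 2 h0)
      have h4 : ContinuousAt (fun ζ' => ζ' * LV45_sq (F (b ζ') / ζ' ^ 2)) ζ :=
        continuousAt_id.mul (ContinuousAt.comp (g := LV45_sq) (LV45_sq_cont h2) h3)
      have h5 : v = fun ζ' => ζ' * LV45_sq (F (b ζ') / ζ' ^ 2) := funext hv
      rw [h5]
      exact h4
  · exact isOpen_lt ((hW.continuous.comp hcont1).sub continuous_const).norm continuous_const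
  · exact isOpen_lt (continuous_pow 2).norm continuous_const
  · show ‖W p.1.1 - W b₀‖ < ρ
    rw [hp]
    simpa using hρ
  · exact hfp
  · intro q hq hne h0
    have hq' : ‖W q.1.1 - W b₀‖ < ρ := hq
    apply hne
    apply hpv
    by_contra h5
    have h7 := (h q.1.1 (hmemU _ hq') h5).1
    apply h7
    have hq1 : q.1.2 ^ 2 = F q.1.1 := q.2
    rw [← hq1, h0]
    simp
  · intro q hq
    show W q.1.1 = W p.1.1 + f q ^ 2
    rw [hf2 q hq, hp]
    ring

end

theorem cv_brDev {B : Type*} [TopologicalSpace B] {F : B → ℂ} (hF : Continuous F) {W : B → ℂ}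
    (hW : IsOpenEmbedding W)
    (h : ∀ b₀, F b₀ = 0 → ∃ U ∈ 𝓝 b₀,
      (∀ b ∈ U, b ≠ b₀ → F b ≠ 0 ∧ (W b - W b₀) / F b ∈ Complex.slitPlane) ∨
      (∀ b ∈ U, b ≠ b₀ → F b ≠ 0 ∧
        (W b - W b₀) / (-(starRingEnd ℂ) (F b)) ∈ Complex.slitPlane)) :
    BrDev (fun q : Cv F => W q.1.1) {q | q.1.2 = 0} := by
  have hcont1 : Continuous (fun q : Cv F => q.1.1) := continuous_fst.comp continuous_subtype_val
  have hcont2 : Continuous (fun q : Cv F => q.1.2) := continuous_snd.comp continuous_subtype_val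
  refine ⟨?_, ?_, ?_, ?_⟩
  · exact isClosed_eq hcont2 continuous_const
  · rw [isDiscrete_iff_nhdsNE]
    rintro ⟨⟨b₀, v₀⟩, hp⟩ hv
    have hv' : v₀ = 0 := hv
    have hp' : v₀ ^ 2 = F b₀ := hp
    have hb₀ : F b₀ = 0 := by
      rw [← hp', hv']
      simp
    obtain ⟨U, hU, h1⟩ := h b₀ hb₀
    have h2 : ∀ b ∈ U, b ≠ b₀ → F b ≠ 0 := by
      rcases h1 with h1 | h1
      · exact fun b hb hne => (h1 b hb hne).1
      · exact fun b hb hne => (h1 b hb hne).1
    rw [Filter.inf_principal_eq_bot, mem_nhdsWithin_iff_eventually]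
    have h3 : ∀ᶠ q in 𝓝 (⟨(b₀, v₀), hp⟩ : Cv F), q.1.1 ∈ U := hcont1.continuousAt.eventually_mem hU
    filter_upwards [h3] with q hq hne hq0
    have hq0' : q.1.2 = 0 := hq0
    have hq1 : q.1.2 ^ 2 = F q.1.1 := q.2
    apply hne
    by_cases h5 : q.1.1 = b₀
    · apply Subtype.ext
      exact Prod.ext h5 (hq0'.trans hv'.symm)
    · exfalso
      apply h2 _ hq h5
      rw [← hq1, hq0']
      simp
  · intro p hp
    exact LV45_reg hF hW p hp
  · rintro ⟨⟨b₀, v₀⟩, hp⟩ hv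
    have hv' : v₀ = 0 := hv
    subst hv'
    have hp' : (0 : ℂ) ^ 2 = F b₀ := hp
    have hb₀ : F b₀ = 0 := by
      rw [← hp']
      simp
    obtain ⟨U, hU, h1⟩ := h b₀ hb₀
    refine ⟨2, le_rfl, ?_⟩
    rcases h1 with h1 | h1
    · obtain ⟨φ, h2, h3, h4, h5⟩ := LV45_br hF hW b₀ hb₀ U hU h1 ⟨(b₀, 0), hp⟩ rfl
      exact ⟨φ, h2, h3, fun q hq hne h0 => h4 q hq hne h0, h5⟩
    · -- reduction to the first alternative
      obtain ⟨G, hG⟩ : ∃ G : B → ℂ, ∀ b, G b = -(starRingEnd ℂ) (F b) := ⟨_, fun _ => rfl⟩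
      have hGc : Continuous G := by
        have : G = fun b => -(starRingEnd ℂ) (F b) := funext hG
        rw [this]
        exact (Complex.continuous_conj.comp hF).neg
      have hG0 : G b₀ = 0 := by
        rw [hG, hb₀]
        simp
      have hI : (Complex.I) ^ 2 = -1 := Complex.I_sq
      have e1 : ∀ q : Cv F, (Complex.I * (starRingEnd ℂ) q.1.2) ^ 2 = G q.1.1 := by
        intro q
        have hq : q.1.2 ^ 2 = F q.1.1 := q.2
        rw [mul_pow, hI, hG, ← hq, map_pow]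
        ring
      have e2 : ∀ q : Cv G, (Complex.I * (starRingEnd ℂ) q.1.2) ^ 2 = F q.1.1 := by
        intro q
        have hq : q.1.2 ^ 2 = G q.1.1 := q.2
        rw [mul_pow, hI, ← map_pow, hq, hG]
        simp
      have e3 : ∀ v : ℂ, Complex.I * (starRingEnd ℂ) (Complex.I * (starRingEnd ℂ) v) = v := by
        intro v
        rw [map_mul, Complex.conj_I, Complex.conj_conj, ← mul_assoc]
        have : Complex.I * -Complex.I = 1 := by
          rw [mul_neg, Complex.I_mul_I, neg_neg]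
        rw [this, one_mul]
      let H : Cv F ≃ₜ Cv G :=
        { toFun := fun q => ⟨(q.1.1, Complex.I * (starRingEnd ℂ) q.1.2), e1 q⟩
          invFun := fun q => ⟨(q.1.1, Complex.I * (starRingEnd ℂ) q.1.2), e2 q⟩
          left_inv := by
            rintro ⟨⟨b, v⟩, hq⟩
            apply Subtype.ext
            show (b, Complex.I * (starRingEnd ℂ) (Complex.I * (starRingEnd ℂ) v)) = (b, v)
            rw [e3]
          right_inv := by
            rintro ⟨⟨b, v⟩, hq⟩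
            apply Subtype.ext
            show (b, Complex.I * (starRingEnd ℂ) (Complex.I * (starRingEnd ℂ) v)) = (b, v)
            rw [e3]
          continuous_toFun := by
            apply Continuous.subtype_mk
            exact hcont1.prodMk (continuous_const.mul (Complex.continuous_conj.comp hcont2))
          continuous_invFun := by
            apply Continuous.subtype_mk
            exact (continuous_fst.comp continuous_subtype_val).prodMk
              (continuous_const.mul (Complex.continuous_conj.comp (continuous_snd.comp continuous_subtype_val))) }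
      have hH1 : ∀ q : Cv F, (H q).1.1 = q.1.1 := fun q => rfl
      have hH2 : ∀ q : Cv F, (H q).1.2 = Complex.I * (starRingEnd ℂ) q.1.2 := fun q => rfl
      have h1' : ∀ b ∈ U, b ≠ b₀ → G b ≠ 0 ∧ (W b - W b₀) / G b ∈ Complex.slitPlane := by
        intro b hb hne
        obtain ⟨h6, h7⟩ := h1 b hb hne
        rw [hG]
        exact ⟨neg_ne_zero.2 ((map_ne_zero _).2 h6), h7⟩
      have hHp : (H ⟨(b₀, 0), hp⟩).1 = (b₀, 0) := by
        apply Prod.ext
        · rfl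
        · show Complex.I * (starRingEnd ℂ) (0 : ℂ) = 0
          simp
      obtain ⟨φ, h2, h3, h4, h5⟩ := LV45_br hGc hW b₀ hG0 U hU h1' (H ⟨(b₀, 0), hp⟩) hHp
      refine ⟨H.transOpenPartialHomeomorph φ, h2, h3, ?_, ?_⟩
      · intro q hq hne h0
        have hq' : H q ∈ φ.source := hq
        have h0' : q.1.2 = 0 := h0
        have h8 : H q ≠ H ⟨(b₀, 0), hp⟩ := fun h => hne (H.injective h)
        apply h4 (H q) hq' h8
        rw [hH2, h0']
        simp
      · intro q hq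
        have hq' : H q ∈ φ.source := hq
        have h6 := h5 (H q) hq'
        rw [hH1, hH1] at h6
        exact h6

end LadderVeech
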