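import Pool.Agent.LadderVeech.LVDefs2
import Pool.Agent.LadderVeech.LV45
import Pool.Agent.LadderVeech.LV42

/-!
LV46. The branched developing maps of the double covers.  (`PP, WW, SimpleZ, OddMono, sq1` in LVDefs2.)
-/

open Set Filter Topology

namespace LadderVeech

/-- A nonzero complex number divided by its norm, as a point of the circle. -/
private noncomputable def LV46_dir (z : ({0}ᶜ : Set ℂ)) : Circle :=
  ⟨z.1 / (‖z.1‖ : ℂ), by
    have h0 : z.1 ≠ 0 := z.2
    have h1 : ‖z.1‖ ≠ 0 := norm_ne_zero_iff.2 h0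
    refine mem_sphere_zero_iff_norm.2 ?_
    rw [norm_div, Complex.norm_real, norm_norm, div_self h1]⟩

private lemma LV46_coe : Continuous fun ζ : Circle => (ζ : ℂ) := continuous_subtype_val

private lemma LV46_dir_coe (z : ({0}ᶜ : Set ℂ)) :
    ((LV46_dir z : Circle) : ℂ) = z.1 / (‖z.1‖ : ℂ) := rfl

private lemma LV46_dir_cont : Continuous LV46_dir := by
  refine Continuous.subtype_mk ?_ _
  refine Continuous.div (by fun_prop) (by fun_prop) ?_
  intro z
  have h0 : z.1 ≠ 0 := z.2
  exact_mod_cast norm_ne_zero_iff.2 h0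

lemma PP_isOpenEmbedding (u : ℝ ≃o ℝ) : IsOpenEmbedding (PP u) ∧ range (PP u) = {0}ᶜ := by
  have hne : ∀ b : Ann, PP u b ≠ 0 := fun b => by
    unfold PP
    exact mul_ne_zero (by exact_mod_cast (Real.exp_pos _).ne') (Circle.coe_ne_zero _)
  have hnorm : ∀ b : Ann, ‖PP u b‖ = Real.exp (u b.1) := fun b => by
    unfold PP
    rw [norm_mul, Circle.norm_coe, mul_one, Complex.norm_real, Real.norm_eq_abs,
      abs_of_pos (Real.exp_pos _)]
  have hu : Continuous u := u.continuous
  have hu' : Continuous u.symm := u.symm.continuous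
  have hcont : Continuous (PP u) := by
    unfold PP
    refine Continuous.mul ?_ ?_
    · exact Complex.continuous_ofReal.comp (Real.continuous_exp.comp (hu.comp continuous_fst))
    · exact LV46_coe.comp continuous_snd
  let e : Ann ≃ₜ ({0}ᶜ : Set ℂ) :=
    { toFun := fun b => ⟨PP u b, hne b⟩
      invFun := fun z => (u.symm (Real.log ‖z.1‖), LV46_dir z)
      left_inv := by
        intro b
        refine Prod.ext ?_ ?_
        · change u.symm (Real.log ‖PP u b‖) = b.1
          rw [hnorm, Real.log_exp, OrderIso.symm_apply_apply]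
        · refine Circle.ext ?_
          rw [LV46_dir_coe]
          change PP u b / (‖PP u b‖ : ℂ) = b.2
          rw [hnorm]
          unfold PP
          have h : ((Real.exp (u b.1) : ℝ) : ℂ) ≠ 0 := by exact_mod_cast (Real.exp_pos _).ne'
          rw [mul_div_cancel_left₀ _ h]
      right_inv := by
        intro z
        have h0 : z.1 ≠ 0 := z.2
        have h1 : 0 < ‖z.1‖ := norm_pos_iff.2 h0
        refine Subtype.ext ?_
        change PP u (u.symm (Real.log ‖z.1‖), LV46_dir z) = z.1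
        unfold PP
        rw [OrderIso.apply_symm_apply, Real.exp_log h1, LV46_dir_coe]
        have h : ((‖z.1‖ : ℝ) : ℂ) ≠ 0 := by exact_mod_cast h1.ne'
        rw [mul_div_cancel₀ _ h]
      continuous_toFun := hcont.subtype_mk _
      continuous_invFun := by
        refine Continuous.prodMk ?_ LV46_dir_cont
        refine hu'.comp ?_
        refine Continuous.log (by fun_prop) ?_
        intro z
        have h0 : z.1 ≠ 0 := z.2
        exact norm_ne_zero_iff.2 h0 }
  have he : PP u = Subtype.val ∘ e := rfl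
  constructor
  · rw [he]
    exact (isOpen_compl_singleton.isOpenEmbedding_subtypeVal).comp e.isOpenEmbedding
  · rw [he, range_comp, e.surjective.range_eq, image_univ, Subtype.range_coe]

private lemma LV46_one {f : ℝ → ℝ} (hf : StrictMono f) (hc : Continuous f) :
    IsOpenEmbedding f := by
  have hord : (range f).OrdConnected := (isPreconnected_range hc).ordConnected
  refine ⟨hf.isEmbedding_of_ordConnected hord, ?_⟩
  rw [isOpen_iff_mem_nhds]
  rintro _ ⟨x, rfl⟩
  have h1 : f (x - 1) < f x := hf (by linarith)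
  have h2 : f x < f (x + 1) := hf (by linarith)
  refine mem_of_superset (Icc_mem_nhds h1 h2) ?_
  exact hord.out (mem_range_self _) (mem_range_self _)

lemma oddMono_isOpenEmbedding {f g : ℝ → ℝ} (hf : OddMono f) (hg : OddMono g) :
    IsOpenEmbedding (fun z : ℂ => (⟨f z.re, g z.im⟩ : ℂ)) := by
  have h := (LV46_one hf.1 hf.2.1).prodMap (LV46_one hg.1 hg.2.1)
  exact (Complex.equivRealProdCLM.toHomeomorph.symm.isOpenEmbedding.comp h).comp
    Complex.equivRealProdCLM.toHomeomorph.isOpenEmbedding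

lemma WW_isOpenEmbedding (u : ℝ ≃o ℝ) {f g : ℝ → ℝ} (hf : OddMono f) (hg : OddMono g) :
    IsOpenEmbedding (WW u f g) :=
  (oddMono_isOpenEmbedding hf hg).comp (PP_isOpenEmbedding u).1

lemma oddMono_id : OddMono (fun x => x) :=
  ⟨fun _ _ h => h, continuous_id, fun _ => rfl⟩

private lemma LV46_sq1 (y : ℝ) : sq1 y = Real.sin (Real.arctan y) := by
  rw [Real.sin_arctan, sq1]

lemma oddMono_sq1 : OddMono sq1 := by
  refine ⟨?_, ?_, ?_⟩
  · intro x y h
    rw [LV46_sq1, LV46_sq1]
    refine Real.strictMonoOn_sin ?_ ?_ (Real.arctan_strictMono h)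
    · exact ⟨(Real.neg_pi_div_two_lt_arctan x).le, (Real.arctan_lt_pi_div_two x).le⟩
    · exact ⟨(Real.neg_pi_div_two_lt_arctan y).le, (Real.arctan_lt_pi_div_two y).le⟩
  · have : sq1 = fun y => Real.sin (Real.arctan y) := funext LV46_sq1
    rw [this]
    exact Real.continuous_sin.comp Real.continuous_arctan
  · intro x
    rw [LV46_sq1, LV46_sq1, Real.arctan_neg, Real.sin_neg]

lemma range_sq1 : range sq1 = Ioo (-1) 1 := by
  ext s
  constructor
  · rintro ⟨y, rfl⟩
    rw [LV46_sq1]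
    have h1 := Real.neg_pi_div_two_lt_arctan y
    have h2 := Real.arctan_lt_pi_div_two y
    constructor
    · have := Real.strictMonoOn_sin (a := -(Real.pi / 2)) (b := Real.arctan y)
        ⟨le_refl _, by linarith [Real.pi_pos]⟩ ⟨h1.le, h2.le⟩ (by linarith)
      rwa [Real.sin_neg, Real.sin_pi_div_two] at this
    · have := Real.strictMonoOn_sin (a := Real.arctan y) (b := Real.pi / 2)
        ⟨h1.le, h2.le⟩ ⟨by linarith [Real.pi_pos], le_refl _⟩ h2
      rwa [Real.sin_pi_div_two] at this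
  · rintro ⟨h1, h2⟩
    refine ⟨Real.tan (Real.arcsin s), ?_⟩
    rw [LV46_sq1, Real.arctan_tan, Real.sin_arcsin h1.le h2.le]
    · have := Real.arcsin_lt_arcsin (x := -1) (y := s) (le_refl _) h1 h2.le
      rwa [Real.arcsin_neg_one] at this
    · have := Real.arcsin_lt_arcsin (x := s) (y := 1) h1.le h2 (le_refl _)
      rwa [Real.arcsin_one] at this

private lemma LV46_kap (x : ℝ) : kap x = Real.cos (2 * Real.pi * x) / 2 := by
  rw [kap, mul_assoc, Real.cos_two_mul, Real.cos_sq']
  ring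

private lemma LV46_sin {t : ℝ} (h : |t| < 1 / 2) (h0 : t ≠ 0) :
    0 < t * Real.sin (2 * Real.pi * t) := by
  have hpi := Real.pi_pos
  rw [abs_lt] at h
  rcases lt_or_gt_of_ne h0 with ht | ht
  · have h1 : 0 < Real.sin (2 * Real.pi * (-t)) := by
      apply Real.sin_pos_of_pos_of_lt_pi
      · have : 0 < -t := by linarith
        positivity
      · nlinarith [h.1]
    have h2 : Real.sin (2 * Real.pi * (-t)) = - Real.sin (2 * Real.pi * t) := by
      rw [← Real.sin_neg]
      congr 1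
      ring
    rw [h2] at h1
    nlinarith
  · have h1 : 0 < Real.sin (2 * Real.pi * t) := by
      apply Real.sin_pos_of_pos_of_lt_pi
      · positivity
      · nlinarith [h.2]
    exact mul_pos ht h1

lemma simpleZ_kap : SimpleZ kap := by
  refine ⟨continuous_kap, ?_⟩
  intro x₀ hx₀
  refine ⟨1 / 2, by norm_num, ?_⟩
  have hc : Real.cos (2 * Real.pi * x₀) = 0 := by
    rw [LV46_kap] at hx₀
    linarith
  have hexp : ∀ x, kap x =
      - (Real.sin (2 * Real.pi * x₀) * Real.sin (2 * Real.pi * (x - x₀))) / 2 := by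
    intro x
    have : 2 * Real.pi * x = 2 * Real.pi * x₀ + 2 * Real.pi * (x - x₀) := by ring
    rw [LV46_kap, this, Real.cos_add, hc]
    ring
  have hs : Real.sin (2 * Real.pi * x₀) = 1 ∨ Real.sin (2 * Real.pi * x₀) = -1 := by
    have := Real.sin_sq_add_cos_sq (2 * Real.pi * x₀)
    rw [hc] at this
    have h2 : Real.sin (2 * Real.pi * x₀) ^ 2 = 1 := by linarith
    exact sq_eq_one_iff.1 h2
  rcases hs with hs | hs
  · right
    intro x hx hne
    have := LV46_sin hx (sub_ne_zero.2 hne)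
    rw [hexp x, hs]
    nlinarith
  · left
    intro x hx hne
    have := LV46_sin hx (sub_ne_zero.2 hne)
    rw [hexp x, hs]
    nlinarith

lemma simpleZ_half : SimpleZ (fun _ => 1 / 2) :=
  ⟨continuous_const, fun _ h => absurd h (by norm_num)⟩

private lemma LV46_floor {K : ℝ → ℝ} (hK : Continuous K)
    (h : ∀ x₀, K x₀ = 0 → kap x₀ = 0 ∧ ∀ x, ⌊x⌋ = ⌊x₀⌋ → K x = kap x) : SimpleZ K := by
  refine ⟨hK, ?_⟩
  intro x₀ hx₀
  obtain ⟨h1, h2⟩ := h x₀ hx₀
  obtain ⟨ε, hε, h3⟩ := simpleZ_kap.2 x₀ h1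
  have hlt : (⌊x₀⌋ : ℝ) < x₀ := by
    refine lt_of_le_of_ne (Int.floor_le x₀) ?_
    intro he
    have hk : kap x₀ = 1 / 2 := by
      rw [kap, ← he, mul_comm Real.pi, Real.sin_int_mul_pi]
      norm_num
    rw [hk] at h1
    norm_num at h1
  have hgt : x₀ < ⌊x₀⌋ + 1 := Int.lt_floor_add_one x₀
  refine ⟨min ε (min (x₀ - ⌊x₀⌋) (⌊x₀⌋ + 1 - x₀)), ?_, ?_⟩
  · exact lt_min hε (lt_min (by linarith) (by linarith))
  · have hfl : ∀ x, |x - x₀| < min ε (min (x₀ - ⌊x₀⌋) (⌊x₀⌋ + 1 - x₀)) →
        |x - x₀| < ε ∧ K x = kap x := by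
      intro x hx
      rw [lt_min_iff, lt_min_iff] at hx
      obtain ⟨ha, hb, hc⟩ := hx
      refine ⟨ha, h2 x ?_⟩
      rw [abs_lt] at hb hc
      rw [Int.floor_eq_iff]
      exact ⟨by linarith, by linarith⟩
    rcases h3 with h3 | h3
    · left
      intro x hx hne
      obtain ⟨ha, hb⟩ := hfl x hx
      rw [hb]
      exact h3 x ha hne
    · right
      intro x hx hne
      obtain ⟨ha, hb⟩ := hfl x hx
      rw [hb]
      exact h3 x ha hne

lemma simpleZ_KE : SimpleZ KE := by
  refine LV46_floor continuous_KE ?_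
  intro x₀ hx₀
  by_cases he : Even ⌊x₀⌋
  · refine ⟨?_, ?_⟩
    · rw [KE, if_pos he] at hx₀
      exact hx₀
    · intro x hx
      rw [KE, hx, if_pos he]
  · exfalso
    rw [KE, if_neg he] at hx₀
    norm_num at hx₀

lemma simpleZ_KO : SimpleZ KO := by
  refine LV46_floor continuous_KO ?_
  intro x₀ hx₀
  by_cases he : Even ⌊x₀⌋
  · exfalso
    rw [KO, if_pos he] at hx₀
    norm_num at hx₀
  · refine ⟨?_, ?_⟩
    · rw [KO, if_neg he] at hx₀
      exact hx₀
    · intro x hx
      rw [KO, hx, if_neg he]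

private lemma LV46_slit_im {z w : ℂ} (h : 0 < z.im * w.im) : z / w ∈ Complex.slitPlane := by
  have hw : w ≠ 0 := by
    rintro rfl
    simp at h
  by_contra hc
  rw [Complex.mem_slitPlane_iff] at hc
  rw [not_or, not_lt, not_not] at hc
  obtain ⟨h1, h2⟩ := hc
  have hz : z = ((z / w).re : ℂ) * w := by
    have h3 : z / w = ((z / w).re : ℂ) := by
      apply Complex.ext
      · simp
      · simp [h2]
    rw [← h3, div_mul_cancel₀ _ hw]
  have him : z.im = (z / w).re * w.im := by
    conv_lhs => rw [hz]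
    simp
  rw [him] at h
  nlinarith [mul_nonneg (neg_nonneg.2 h1) (sq_nonneg w.im)]

private lemma LV46_slit_re {z w : ℂ} (hz : z.im = 0) (hw : w.im = 0) (h : 0 < z.re * w.re) :
    z / w ∈ Complex.slitPlane := by
  rw [Complex.mem_slitPlane_iff]
  left
  have hw0 : w ≠ 0 := by
    rintro rfl
    simp at h
  rw [Complex.div_re, hz]
  have := Complex.normSq_pos.2 hw0
  simp only [zero_mul, zero_div, add_zero]
  positivity

private lemma LV46_sgn {t a b : ℝ} (h1 : 0 < t * a) (h2 : 0 < t * b) : 0 < a * b := by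
  have h3 := mul_pos h1 h2
  by_contra h
  rw [not_lt] at h
  nlinarith [mul_nonneg (sq_nonneg t) (neg_nonneg.2 h)]

private lemma LV46_odd_sgn {g : ℝ → ℝ} (hg : OddMono g) {r y : ℝ} (hr : 0 < r) (hy : y ≠ 0) :
    0 < (g (r * y) - g 0) * y := by
  rcases lt_or_gt_of_ne hy with h | h
  · have : g (r * y) < g 0 := hg.1 (mul_neg_of_pos_of_neg hr h)
    nlinarith
  · have : g 0 < g (r * y) := hg.1 (mul_pos hr h)
    nlinarith

private lemma LV46_PP_re (u : ℝ ≃o ℝ) (b : Ann) :
    (PP u b).re = Real.exp (u b.1) * (b.2 : ℂ).re := by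
  rw [PP, Complex.re_ofReal_mul]

private lemma LV46_PP_im (u : ℝ ≃o ℝ) (b : Ann) :
    (PP u b).im = Real.exp (u b.1) * (b.2 : ℂ).im := by
  rw [PP, Complex.im_ofReal_mul]

private lemma LV46_circle (ζ : Circle) : (ζ : ℂ).re ^ 2 + (ζ : ℂ).im ^ 2 = 1 := by
  have := Circle.normSq_coe ζ
  rw [Complex.normSq_apply] at this
  nlinarith

private lemma LV46_local {Kp Km K : ℝ → ℝ} (u : ℝ ≃o ℝ) {f g : ℝ → ℝ} (hf : OddMono f)
    (hg : OddMono g) (σ : ℝ) (hσ : σ = 1 ∨ σ = -1)
    (hK : ∀ b : Ann, (b.2 : ℂ).re = σ → (FF Kp Km b).re = K b.1)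
    (hKs : SimpleZ K) (b₀ : Ann) (h0 : (b₀.2 : ℂ).re = σ) (hi : (b₀.2 : ℂ).im = 0)
    (hz : K b₀.1 = 0) :
    ∃ U ∈ 𝓝 b₀,
      (∀ b ∈ U, b ≠ b₀ → FF Kp Km b ≠ 0 ∧
        (WW u f g b - WW u f g b₀) / FF Kp Km b ∈ Complex.slitPlane) ∨
      (∀ b ∈ U, b ≠ b₀ → FF Kp Km b ≠ 0 ∧
        (WW u f g b - WW u f g b₀) / (-(starRingEnd ℂ) (FF Kp Km b)) ∈ Complex.slitPlane) := by
  obtain ⟨ε, hε, h⟩ := hKs.2 b₀.1 hz
  have hσ2 : σ ^ 2 = 1 := by rcases hσ with rfl | rfl <;> norm_num
  have hpos : (∀ x, |x - b₀.1| < ε → x ≠ b₀.1 → 0 < (σ * (x - b₀.1)) * K x) ∨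
      (∀ x, |x - b₀.1| < ε → x ≠ b₀.1 → 0 < (σ * (x - b₀.1)) * (-K x)) := by
    rcases hσ with rfl | rfl <;> rcases h with h | h
    · left
      intro x h1 h2
      have := h x h1 h2
      nlinarith
    · right
      intro x h1 h2
      have := h x h1 h2
      nlinarith
    · right
      intro x h1 h2
      have := h x h1 h2
      nlinarith
    · left
      intro x h1 h2
      have := h x h1 h2
      nlinarith
  have key : ∀ b : Ann, 0 < σ * (b.2 : ℂ).re → b ≠ b₀ →
      (0 < (WW u f g b - WW u f g b₀).im * (FF Kp Km b).im) ∨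
      ((FF Kp Km b).im = 0 ∧ (WW u f g b - WW u f g b₀).im = 0 ∧ b.1 ≠ b₀.1 ∧
        0 < (σ * (b.1 - b₀.1)) * (WW u f g b - WW u f g b₀).re ∧ (FF Kp Km b).re = K b.1) := by
    intro b hb hne
    have him : (WW u f g b - WW u f g b₀).im =
        g (Real.exp (u b.1) * (b.2 : ℂ).im) - g 0 := by
      rw [Complex.sub_im]
      change g (PP u b).im - g (PP u b₀).im = _
      rw [LV46_PP_im, LV46_PP_im, hi, mul_zero]
    have hre : (WW u f g b - WW u f g b₀).re =
        f (Real.exp (u b.1) * (b.2 : ℂ).re) - f (Real.exp (u b₀.1) * σ) := by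
      rw [Complex.sub_re]
      change f (PP u b).re - f (PP u b₀).re = _
      rw [LV46_PP_re, LV46_PP_re, h0]
    have hF : (FF Kp Km b).im = (b.2 : ℂ).im := rfl
    by_cases hy : (b.2 : ℂ).im = 0
    · right
      have hc := LV46_circle b.2
      rw [hy] at hc
      have hr : (b.2 : ℂ).re = σ := by
        have h1 : (b.2 : ℂ).re ^ 2 = 1 := by linarith
        have h2 : ((b.2 : ℂ).re - σ) * ((b.2 : ℂ).re + σ) = 0 := by nlinarith
        rcases mul_eq_zero.1 h2 with h3 | h3
        · linarith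
        · exfalso
          have h4 : (b.2 : ℂ).re = -σ := by linarith
          rw [h4] at hb
          nlinarith
      have hne1 : b.1 ≠ b₀.1 := by
        intro h1
        apply hne
        refine Prod.ext h1 (Circle.ext (Complex.ext ?_ ?_))
        · rw [hr, h0]
        · rw [hy, hi]
      refine ⟨by rw [hF, hy], ?_, hne1, ?_, hK b hr⟩
      · rw [him, hy, mul_zero, sub_self]
      · rw [hre, hr]
        rcases lt_or_gt_of_ne hne1 with hlt | hlt
        · have h5 : Real.exp (u b.1) < Real.exp (u b₀.1) :=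
            Real.exp_lt_exp.2 (u.strictMono hlt)
          rcases hσ with rfl | rfl
          · have := hf.1 (show Real.exp (u b.1) * 1 < Real.exp (u b₀.1) * 1 by linarith)
            nlinarith
          · have := hf.1 (show Real.exp (u b₀.1) * -1 < Real.exp (u b.1) * -1 by linarith)
            nlinarith
        · have h5 : Real.exp (u b₀.1) < Real.exp (u b.1) :=
            Real.exp_lt_exp.2 (u.strictMono hlt)
          rcases hσ with rfl | rfl
          · have := hf.1 (show Real.exp (u b₀.1) * 1 < Real.exp (u b.1) * 1 by linarith)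
            nlinarith
          · have := hf.1 (show Real.exp (u b.1) * -1 < Real.exp (u b₀.1) * -1 by linarith)
            nlinarith
    · left
      rw [him, hF]
      exact LV46_odd_sgn hg (Real.exp_pos _) hy
  have hne0 : ∀ z w : ℂ, z / w ∈ Complex.slitPlane → w ≠ 0 := by
    rintro z w hzw rfl
    rw [div_zero] at hzw
    exact Complex.slitPlane_ne_zero hzw rfl
  refine ⟨{b : Ann | |b.1 - b₀.1| < ε ∧ 0 < σ * (b.2 : ℂ).re}, ?_, ?_⟩
  · have hcr : Continuous fun b : Ann => (b.2 : ℂ).re :=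
      Complex.continuous_re.comp (LV46_coe.comp continuous_snd)
    refine IsOpen.mem_nhds ?_ ?_
    · refine IsOpen.inter (isOpen_lt ((continuous_fst.sub continuous_const).abs) continuous_const)
        (isOpen_lt continuous_const (continuous_const.mul hcr))
    · refine ⟨by simpa using hε, ?_⟩
      rw [h0]
      nlinarith
  · rcases hpos with hpos | hpos
    · left
      rintro b ⟨hb1, hb2⟩ hne
      have hs : (WW u f g b - WW u f g b₀) / FF Kp Km b ∈ Complex.slitPlane := by
        rcases key b hb2 hne with h1 | ⟨h1, h2, h3, h4, h5⟩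
        · exact LV46_slit_im h1
        · refine LV46_slit_re h2 h1 ?_
          rw [h5]
          exact LV46_sgn h4 (hpos b.1 hb1 h3)
      exact ⟨hne0 _ _ hs, hs⟩
    · right
      rintro b ⟨hb1, hb2⟩ hne
      have hs : (WW u f g b - WW u f g b₀) / (-(starRingEnd ℂ) (FF Kp Km b)) ∈
          Complex.slitPlane := by
        rcases key b hb2 hne with h1 | ⟨h1, h2, h3, h4, h5⟩
        · refine LV46_slit_im ?_
          rw [Complex.neg_im, Complex.conj_im, neg_neg]
          exact h1
        · refine LV46_slit_re h2 ?_ ?_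
          · rw [Complex.neg_im, Complex.conj_im, neg_neg]
            exact h1
          · rw [Complex.neg_re, Complex.conj_re, h5]
            exact LV46_sgn h4 (hpos b.1 hb1 h3)
      refine ⟨?_, hs⟩
      intro h0'
      apply hne0 _ _ hs
      rw [h0', map_zero, neg_zero]

theorem cv_brDev_WW {Kp Km : ℝ → ℝ} (hp : SimpleZ Kp) (hm : SimpleZ Km) (u : ℝ ≃o ℝ)
    {f g : ℝ → ℝ} (hf : OddMono f) (hg : OddMono g) :
    BrDev (fun q : Cv (FF Kp Km) => WW u f g q.1.1) {q | q.1.2 = 0} := by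
  refine cv_brDev (continuous_FF hp.1 hm.1) (WW_isOpenEmbedding u hf hg) ?_
  intro b₀ hb₀
  have hi : (b₀.2 : ℂ).im = 0 := by
    have := congrArg Complex.im hb₀
    exact this
  have hr : (1 + (b₀.2 : ℂ).re) / 2 * Kp b₀.1 + (1 - (b₀.2 : ℂ).re) / 2 * Km b₀.1 = 0 := by
    have := congrArg Complex.re hb₀
    exact this
  have hc := LV46_circle b₀.2
  have h1 : (b₀.2 : ℂ).re = 1 ∨ (b₀.2 : ℂ).re = -1 := by
    rw [hi] at hc
    have h2 : ((b₀.2 : ℂ).re - 1) * ((b₀.2 : ℂ).re + 1) = 0 := by nlinarith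
    rcases mul_eq_zero.1 h2 with h3 | h3
    · left; linarith
    · right; linarith
  rcases h1 with h1 | h1
  · refine LV46_local (K := Kp) u hf hg 1 (Or.inl rfl) ?_ hp b₀ h1 hi ?_
    · intro b hb
      change (1 + (b.2 : ℂ).re) / 2 * Kp b.1 + (1 - (b.2 : ℂ).re) / 2 * Km b.1 = Kp b.1
      rw [hb]
      ring
    · rw [h1] at hr
      linarith
  · refine LV46_local (K := Km) u hf hg (-1) (Or.inr rfl) ?_ hm b₀ h1 hi ?_
    · intro b hb
      change (1 + (b.2 : ℂ).re) / 2 * Kp b.1 + (1 - (b.2 : ℂ).re) / 2 * Km b.1 = Km b.1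
      rw [hb]
      ring
    · rw [h1] at hr
      linarith

end LadderVeech
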