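import Pool.Agent.LadderVeech.LV43
import Pool.Agent.LadderVeech.LV46

/-!
LV47. Lifting linear maps to the double covers.

PROOF. `bt z = ⟨a z.re + b g z.im, d z.im⟩` is a homeomorphism of `ℂ` with `bt 0 = 0` (`g 0 = 0` by oddness; inverse
`⟨(z.re - b g (z.im/d))/a, z.im/d⟩`), and `(f, g) ∘ bt = B ∘ (f, g)` by `h1, h2`:
`(f (a x + b g y), g (d y)) = (a f x + b g y, d g y)`. It restricts to a homeomorphism of `ℂ \ {0}`, so through `PP u`
(PP_isOpenEmbedding, range `{0}ᶜ`) to a homeomorphism `ψ` of `Ann` with `PP u (ψ b) = bt (PP u b)`.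
`F = FF Kp Km`: `Im (F b) = ζ.im` has the sign of `Im (PP u b)`, and on the real axis: if `PP u b = r` is real, `r > 0`,
then `ζ = 1`, `F b = Kp (u.symm (log r)) = pat Kp Km u r`; `r < 0`: `ζ = -1`, `F b = Km (..) = pat r`.
`Im (PP u (ψ b)) = d Im (PP u b)`. If `Im (PP u b) = 0`, `PP u b = r`: `PP u (ψ b) = a r` and `F (ψ b) = pat (a r)` has the
same sign as `F b = pat r` by `hpat`.
If `d > 0` (so `a > 0`): `F (ψ b) / F b ∈ slitPlane` whenever `F b ≠ 0` (imaginary parts of the same sign, or both real of the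
same sign): `cv_lift`. If `d < 0`: `F (ψ b) / conj (F b) ∈ slitPlane`: `cv_lift_conj`.
-/

open Set Filter Topology

namespace LadderVeech

/-- a quotient of two numbers with imaginary parts of the same sign, or real of the same sign -/
private lemma slit_of {z w : ℂ} (hw : w ≠ 0)
    (h : 0 < z.im * w.im ∨ (w.im = 0 ∧ 0 < z.re * w.re)) : z / w ∈ Complex.slitPlane := by
  by_contra hc
  rw [Complex.mem_slitPlane_iff] at hc
  push Not at hc
  obtain ⟨h1, h2⟩ := hc
  obtain ⟨t, ht⟩ : ∃ t, z / w = t := ⟨_, rfl⟩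
  rw [ht] at h1 h2
  have hz : z = t * w := by rw [← ht, div_mul_cancel₀ _ hw]
  have hre : z.re = t.re * w.re := by rw [hz, Complex.mul_re, h2]; ring
  have him : z.im = t.re * w.im := by rw [hz, Complex.mul_im, h2]; ring
  rcases h with h | ⟨-, h⟩
  · rw [him] at h
    nlinarith [mul_nonneg (sub_nonneg.2 h1) (sq_nonneg w.im)]
  · rw [hre] at h
    nlinarith [mul_nonneg (sub_nonneg.2 h1) (sq_nonneg w.re)]

private lemma PP_re (u : ℝ ≃o ℝ) (b : Ann) :
    (PP u b).re = Real.exp (u b.1) * (b.2 : ℂ).re := by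
  unfold PP
  rw [Complex.mul_re, Complex.ofReal_re, Complex.ofReal_im]; ring

private lemma PP_im (u : ℝ ≃o ℝ) (b : Ann) :
    (PP u b).im = Real.exp (u b.1) * (b.2 : ℂ).im := by
  unfold PP
  rw [Complex.mul_im, Complex.ofReal_re, Complex.ofReal_im]; ring

private lemma FF_im (Kp Km : ℝ → ℝ) (b : Ann) : (FF Kp Km b).im = (b.2 : ℂ).im := rfl

private lemma FF_re_of_real (Kp Km : ℝ → ℝ) (u : ℝ ≃o ℝ) (b : Ann) (h : (b.2 : ℂ).im = 0) :
    (PP u b).re ≠ 0 ∧ (FF Kp Km b).re = pat Kp Km u (PP u b).re := by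
  have hn : (b.2 : ℂ).re * (b.2 : ℂ).re + (b.2 : ℂ).im * (b.2 : ℂ).im = 1 := by
    have := b.2.normSq_coe
    rwa [Complex.normSq_apply] at this
  rw [h] at hn
  have hc : ((b.2 : ℂ).re - 1) * ((b.2 : ℂ).re + 1) = 0 := by linear_combination hn
  have he := Real.exp_pos (u b.1)
  have hF : (FF Kp Km b).re =
      (1 + (b.2 : ℂ).re) / 2 * Kp b.1 + (1 - (b.2 : ℂ).re) / 2 * Km b.1 := rfl
  rcases mul_eq_zero.1 hc with h1 | h1
  · have hr : (b.2 : ℂ).re = 1 := by linarith
    have hP : (PP u b).re = Real.exp (u b.1) := by rw [PP_re, hr, mul_one]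
    refine ⟨by rw [hP]; exact he.ne', ?_⟩
    rw [hF, hP, hr, pat, if_pos he, Real.log_exp, OrderIso.symm_apply_apply]
    ring
  · have hr : (b.2 : ℂ).re = -1 := by linarith
    have hP : (PP u b).re = -Real.exp (u b.1) := by rw [PP_re, hr]; ring
    refine ⟨by rw [hP]; exact (neg_neg_of_pos he).ne, ?_⟩
    rw [hF, hP, hr, pat, if_neg (by linarith), neg_neg, Real.log_exp, OrderIso.symm_apply_apply]
    ring

theorem lift_linear {Kp Km : ℝ → ℝ} (hp : Continuous Kp) (hm : Continuous Km) (u : ℝ ≃o ℝ)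
    {f g : ℝ → ℝ} (hf : OddMono f) (hg : OddMono g) {a b d : ℝ} (had : 0 < a * d)
    (h1 : ∀ x y, f (a * x + b * g y) = a * f x + b * g y) (h2 : ∀ y, g (d * y) = d * g y)
    (hpat : ∀ r : ℝ, r ≠ 0 →
      SignType.sign (pat Kp Km u (a * r)) = SignType.sign (pat Kp Km u r)) :
    ∃ Ψ : Cv (FF Kp Km) ≃ₜ Cv (FF Kp Km), ∀ q, WW u f g (Ψ q).1.1 =
      ⟨a * (WW u f g q.1.1).re + b * (WW u f g q.1.1).im, d * (WW u f g q.1.1).im⟩ := by
  have ha : a ≠ 0 := by rintro rfl; simp at had
  have hd : d ≠ 0 := by rintro rfl; simp at had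
  have hg0 : g 0 = 0 := by have := hg.2.2 0; rw [neg_zero] at this; linarith
  have hgc : Continuous g := hg.2.1
  -- the homeomorphism of the plane
  let bt : ℂ ≃ₜ ℂ :=
    { toFun := fun z => ⟨a * z.re + b * g z.im, d * z.im⟩
      invFun := fun z => ⟨(z.re - b * g (z.im / d)) / a, z.im / d⟩
      left_inv := by
        intro z
        apply Complex.ext
        · show (a * z.re + b * g z.im - b * g (d * z.im / d)) / a = z.re
          rw [mul_div_cancel_left₀ _ hd]
          field_simp
          ring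
        · show d * z.im / d = z.im
          rw [mul_div_cancel_left₀ _ hd]
      right_inv := by
        intro z
        apply Complex.ext
        · show a * ((z.re - b * g (z.im / d)) / a) + b * g (z.im / d) = z.re
          rw [mul_div_cancel₀ _ ha]
          ring
        · show d * (z.im / d) = z.im
          rw [mul_div_cancel₀ _ hd]
      continuous_toFun := by
        have : (fun z : ℂ => (⟨a * z.re + b * g z.im, d * z.im⟩ : ℂ)) =
            fun z => Complex.equivRealProdCLM.symm (a * z.re + b * g z.im, d * z.im) := by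
          funext z; rfl
        rw [this]
        exact Complex.equivRealProdCLM.symm.continuous.comp
          (((continuous_const.mul Complex.continuous_re).add
            (continuous_const.mul (hgc.comp Complex.continuous_im))).prodMk
            (continuous_const.mul Complex.continuous_im))
      continuous_invFun := by
        have : (fun z : ℂ => (⟨(z.re - b * g (z.im / d)) / a, z.im / d⟩ : ℂ)) =
            fun z => Complex.equivRealProdCLM.symm ((z.re - b * g (z.im / d)) / a, z.im / d) := by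
          funext z; rfl
        rw [this]
        exact Complex.equivRealProdCLM.symm.continuous.comp
          (((Complex.continuous_re.sub
            (continuous_const.mul (hgc.comp (Complex.continuous_im.div_const d)))).div_const
              a).prodMk (Complex.continuous_im.div_const d)) }
  have bt_re : ∀ z, (bt z).re = a * z.re + b * g z.im := fun z => rfl
  have bt_im : ∀ z, (bt z).im = d * z.im := fun z => rfl
  have bt0 : bt 0 = 0 := by
    apply Complex.ext
    · rw [bt_re]; simp [hg0]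
    · rw [bt_im]; simp
  obtain ⟨hPo, hPr⟩ := PP_isOpenEmbedding u
  have hiff : ∀ z : ℂ, z ∈ range (PP u) ↔ bt z ∈ range (PP u) := by
    intro z
    rw [hPr, mem_compl_iff, mem_compl_iff, mem_singleton_iff, mem_singleton_iff]
    constructor
    · intro h h'
      exact h (bt.injective (h'.trans bt0.symm))
    · intro h h'
      exact h (by rw [h', bt0])
  let E : Ann ≃ₜ range (PP u) := hPo.isEmbedding.toHomeomorph
  have hE : ∀ x, ((E x : range (PP u)) : ℂ) = PP u x := fun x => rfl
  let ψ : Ann ≃ₜ Ann := (E.trans (bt.subtype hiff)).trans E.symm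
  have hψ : ∀ x, PP u (ψ x) = bt (PP u x) := by
    intro x
    rw [← hE (ψ x)]
    show ((E (E.symm (bt.subtype hiff (E x))) : range (PP u)) : ℂ) = _
    rw [Homeomorph.apply_symm_apply]
    rfl
  have hWW : ∀ x, WW u f g (ψ x) =
      ⟨a * (WW u f g x).re + b * (WW u f g x).im, d * (WW u f g x).im⟩ := by
    intro x
    unfold WW
    rw [hψ x, bt_re, bt_im, h1, h2]
  -- signs
  have him : ∀ x, Real.exp (u (ψ x).1) * ((ψ x).2 : ℂ).im =
      d * (Real.exp (u x.1) * (x.2 : ℂ).im) := by
    intro x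
    rw [← PP_im, ← PP_im, hψ x, bt_im]
  have him0 : ∀ x, (x.2 : ℂ).im = 0 ↔ ((ψ x).2 : ℂ).im = 0 := by
    intro x
    have h := him x
    have e1 := (Real.exp_pos (u (ψ x).1)).ne'
    have e2 := (Real.exp_pos (u x.1)).ne'
    constructor
    · intro h0
      rw [h0, mul_zero, mul_zero] at h
      exact (mul_eq_zero.1 h).resolve_left e1
    · intro h0
      rw [h0, mul_zero] at h
      exact (mul_eq_zero.1 ((mul_eq_zero.1 h.symm).resolve_left hd)).resolve_left e2
  have hre : ∀ x, (x.2 : ℂ).im = 0 →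
      SignType.sign (FF Kp Km (ψ x)).re = SignType.sign (FF Kp Km x).re := by
    intro x hx
    obtain ⟨hr, h3⟩ := FF_re_of_real Kp Km u x hx
    obtain ⟨-, h4⟩ := FF_re_of_real Kp Km u (ψ x) ((him0 x).1 hx)
    have h5 : (PP u (ψ x)).re = a * (PP u x).re := by
      rw [hψ x, bt_re, PP_im, hx, mul_zero, hg0, mul_zero, add_zero]
    rw [h4, h3, h5]
    exact hpat _ hr
  have hz : ∀ x, FF Kp Km x = 0 ↔ FF Kp Km (ψ x) = 0 := by
    intro x
    constructor
    · intro h
      have hi : (x.2 : ℂ).im = 0 := by rw [← FF_im Kp Km x, h]; rfl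
      have h3 := hre x hi
      apply Complex.ext
      · have : (FF Kp Km x).re = 0 := by rw [h]; rfl
        rw [this, sign_zero] at h3
        exact sign_eq_zero_iff.1 h3
      · rw [FF_im]; exact (him0 x).1 hi
    · intro h
      have hi : (x.2 : ℂ).im = 0 := by
        rw [him0 x, ← FF_im Kp Km (ψ x), h]; rfl
      have h3 := hre x hi
      apply Complex.ext
      · have : (FF Kp Km (ψ x)).re = 0 := by rw [h]; rfl
        rw [this, sign_zero] at h3
        exact sign_eq_zero_iff.1 h3.symm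
      · rw [FF_im]; exact hi
  have hrr : ∀ x, FF Kp Km x ≠ 0 → (x.2 : ℂ).im = 0 →
      0 < (FF Kp Km (ψ x)).re * (FF Kp Km x).re := by
    intro x hx hi
    have hne : (FF Kp Km x).re ≠ 0 := by
      intro h
      exact hx (Complex.ext h (by rw [FF_im]; exact hi))
    have h3 := hre x hi
    rcases lt_or_gt_of_ne hne with h | h
    · rw [sign_neg h] at h3
      exact mul_pos_of_neg_of_neg (sign_eq_neg_one_iff.1 h3) h
    · rw [sign_pos h] at h3
      exact mul_pos (sign_eq_one_iff.1 h3) h
  have hii : ∀ x, ∃ c, 0 < c ∧ ((ψ x).2 : ℂ).im = c * d * (x.2 : ℂ).im := by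
    intro x
    refine ⟨Real.exp (u x.1) / Real.exp (u (ψ x).1),
      div_pos (Real.exp_pos _) (Real.exp_pos _), ?_⟩
    have h := him x
    have e1 := (Real.exp_pos (u (ψ x).1)).ne'
    field_simp
    linear_combination h
  have hFc : Continuous (FF Kp Km) := continuous_FF hp hm
  rcases lt_or_gt_of_ne hd with hd' | hd'
  · -- `d < 0`
    have key : ∀ x, FF Kp Km x ≠ 0 →
        FF Kp Km (ψ x) / (starRingEnd ℂ) (FF Kp Km x) ∈ Complex.slitPlane := by
      intro x hx
      apply slit_of (fun h => hx ((map_eq_zero _).1 h))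
      rw [Complex.conj_im, Complex.conj_re, FF_im, FF_im]
      by_cases hi : (x.2 : ℂ).im = 0
      · right
        exact ⟨by rw [hi, neg_zero], hrr x hx hi⟩
      · left
        obtain ⟨c, hc, h⟩ := hii x
        rw [h]
        have h3 : 0 < c * (-d) * ((x.2 : ℂ).im ^ 2) :=
          mul_pos (mul_pos hc (by linarith)) (by positivity)
        linarith [h3, show c * d * (x.2 : ℂ).im * -(x.2 : ℂ).im =
          c * (-d) * ((x.2 : ℂ).im ^ 2) by ring]
    obtain ⟨Ψ, hΨ⟩ := cv_lift_conj hFc hFc ψ hz key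
    exact ⟨Ψ, fun q => by rw [hΨ q]; exact hWW q.1.1⟩
  · have key : ∀ x, FF Kp Km x ≠ 0 →
        FF Kp Km (ψ x) / FF Kp Km x ∈ Complex.slitPlane := by
      intro x hx
      apply slit_of hx
      rw [FF_im, FF_im]
      by_cases hi : (x.2 : ℂ).im = 0
      · right
        exact ⟨hi, hrr x hx hi⟩
      · left
        obtain ⟨c, hc, h⟩ := hii x
        rw [h]
        have h3 : 0 < c * d * ((x.2 : ℂ).im ^ 2) :=
          mul_pos (mul_pos hc hd') (by positivity)
        linarith [h3, show c * d * (x.2 : ℂ).im * (x.2 : ℂ).im =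
          c * d * ((x.2 : ℂ).im ^ 2) by ring]
    obtain ⟨Ψ, hΨ⟩ := cv_lift hFc hFc ψ hz key
    exact ⟨Ψ, fun q => by rw [hΨ q]; exact hWW q.1.1⟩

end LadderVeech
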