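import Pool.Agent.LadderVeech.LVDefs2

/-!
LV48. Affine maps preserving the plane minus a point, a strip minus a point.

SETTING. `T z = act A z + c` maps `Ω` onto `Ω` and `Br` onto `Br`, where `Br ⊆ ℝ \ {0}` is a nonempty set of real points.
PROOFS. `T` is injective and a homeomorphism of `ℂ`. (1) `c = 0`: `0 ∉ Ω`, so `T 0 ∉ T '' Ω = Ω`. A punctured ball around
`0` is in `Ω`, so `T 0 ∉ Ω` has a punctured neighbourhood contained in `T '' Ω = Ω`: but a point outside `Ω` with a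
punctured neighbourhood in `Ω` is `0` (for the strips: points outside `Ω` other than `0` have `|im| ≥ 1` (`|re| ≥ 1`)
and every neighbourhood of them contains other points outside `Ω`). So `T 0 = 0`.
(2) strip `|im| < 1`: for all real `r ≠ 0`: `act A r = (A 0 0 r, A 1 0 r) ∈ Ω`, so `|A 1 0 r| < 1` for all `r`: `A 1 0 = 0`.
Then `im (act A z) = A 1 1 * im z`; `T '' Ω = Ω` gives: `|y| < 1 → |A 1 1 y| < 1` and (inverse) `|y| < 1 → |y / A 1 1| < 1`,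
so `|A 1 1| = 1`. Vertical strip: the same with coordinates exchanged: `A 0 1 = 0`, `|A 0 0| = 1`.
(3) `Br`: `r₀ ∈ Br`: `act A r₀` is real: `A 1 0 = 0` in all cases. `r ∈ Br ↔ A 0 0 * r ∈ Br`.
-/

open Set Filter Topology

namespace LadderVeech

variable {A : GL (Fin 2) ℝ} {c : ℂ} {Br : Set ℝ}

lemma LV48_inj {z w : ℂ} (h : act A z = act A w) : z = w := by
  rw [← act_inv_act A z, h, act_inv_act]

/-- if `0 ∉ Ω` and the image of `Ω` is `Ω` then `c ∉ Ω` -/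
lemma LV48_c {Ω : Set ℂ} (hΩ : (fun z => act A z + c) '' Ω = Ω) (h0 : (0 : ℂ) ∉ Ω) : c ∉ Ω := by
  intro hc
  rw [← hΩ] at hc
  obtain ⟨z, hz, hzc⟩ := hc
  have h1 : act A z = act A 0 := by
    rw [act_zero]
    simpa using hzc
  rw [LV48_inj h1] at hz
  exact h0 hz

lemma LV48_mem {Ω : Set ℂ} (hΩ : (fun z => act A z + c) '' Ω = Ω) {z : ℂ} (hz : z ∈ Ω) :
    act A z + c ∈ Ω := by
  have h1 : (fun z => act A z + c) z ∈ (fun z => act A z + c) '' Ω := mem_image_of_mem _ hz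
  rw [hΩ] at h1
  exact h1

lemma LV48_re (r : ℝ) : (act A (r : ℂ)).re = A 0 0 * r := by simp [act]

lemma LV48_im (r : ℝ) : (act A (r : ℂ)).im = A 1 0 * r := by simp [act]

lemma LV48_A10
    (hBr : (fun z => act A z + c) '' ((fun r : ℝ => (r : ℂ)) '' Br) = (fun r : ℝ => (r : ℂ)) '' Br)
    (h0 : ∃ r ∈ Br, r ≠ 0) (hc : c = 0) : A 1 0 = 0 := by
  obtain ⟨r, hr, hr0⟩ := h0
  have h1 := LV48_mem hBr (mem_image_of_mem _ hr)
  obtain ⟨s, -, hs⟩ := h1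
  have h2 := congrArg Complex.im hs
  simp only [Complex.ofReal_im, hc, add_zero] at h2
  rw [LV48_im] at h2
  rcases mul_eq_zero.1 h2.symm with h | h
  · exact h
  · exact absurd h hr0

lemma LV48_Br
    (hBr : (fun z => act A z + c) '' ((fun r : ℝ => (r : ℂ)) '' Br) = (fun r : ℝ => (r : ℂ)) '' Br)
    (hc : c = 0) (h10 : A 1 0 = 0) (r : ℝ) : r ∈ Br ↔ A 0 0 * r ∈ Br := by
  have hact : ∀ s : ℝ, act A (s : ℂ) = ((A 0 0 * s : ℝ) : ℂ) := by
    intro s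
    apply Complex.ext
    · rw [LV48_re, Complex.ofReal_re]
    · rw [LV48_im, Complex.ofReal_im, h10, zero_mul]
  constructor
  · intro hr
    obtain ⟨s, hs, hs'⟩ := LV48_mem hBr (mem_image_of_mem _ hr)
    simp only [hc, add_zero, hact] at hs'
    rw [← Complex.ofReal_injective hs']
    exact hs
  · intro hr
    have h1 : ((A 0 0 * r : ℝ) : ℂ) ∈ (fun r : ℝ => (r : ℂ)) '' Br := mem_image_of_mem _ hr
    rw [← hBr] at h1
    obtain ⟨_, ⟨s, hs, rfl⟩, hs'⟩ := h1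
    simp only [hc, add_zero] at hs'
    rw [← hact r] at hs'
    rw [← Complex.ofReal_injective (LV48_inj hs')]
    exact hs

theorem plane_case (hΩ : (fun z => act A z + c) '' {z : ℂ | z ≠ 0} = {z : ℂ | z ≠ 0})
    (hBr : (fun z => act A z + c) '' ((fun r : ℝ => (r : ℂ)) '' Br) = (fun r : ℝ => (r : ℂ)) '' Br)
    (h0 : ∃ r ∈ Br, r ≠ 0) :
    c = 0 ∧ A 1 0 = 0 ∧ ∀ r : ℝ, r ∈ Br ↔ A 0 0 * r ∈ Br := by
  have hc : c = 0 := by
    have h1 := LV48_c hΩ (by simp)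
    simpa using h1
  have h10 := LV48_A10 hBr h0 hc
  exact ⟨hc, h10, LV48_Br hBr hc h10⟩

theorem strip_case
    (hΩ : (fun z => act A z + c) '' {z : ℂ | z ≠ 0 ∧ |z.im| < 1} = {z : ℂ | z ≠ 0 ∧ |z.im| < 1})
    (hBr : (fun z => act A z + c) '' ((fun r : ℝ => (r : ℂ)) '' Br) = (fun r : ℝ => (r : ℂ)) '' Br)
    (h0 : ∃ r ∈ Br, r ≠ 0) :
    c = 0 ∧ A 1 0 = 0 ∧ |A 1 1| = 1 ∧ ∀ r : ℝ, r ∈ Br ↔ A 0 0 * r ∈ Br := by
  have hc : c = 0 := by
    by_contra hc0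
    apply LV48_c hΩ (by simp)
    refine ⟨hc0, ?_⟩
    have h1 := (LV48_mem hΩ (z := ((1 : ℝ) : ℂ)) ⟨by simp, by simp⟩).2
    have h2 := (LV48_mem hΩ (z := ((-1 : ℝ) : ℂ)) ⟨by simp, by simp⟩).2
    rw [Complex.add_im, LV48_im, abs_lt] at h1 h2
    rw [abs_lt]
    constructor <;> linarith [h1.1, h1.2, h2.1, h2.2]
  have h10 := LV48_A10 hBr h0 hc
  refine ⟨hc, h10, ?_, LV48_Br hBr hc h10⟩
  have him : ∀ z : ℂ, (act A z + c).im = A 1 1 * z.im := by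
    intro z
    simp [act, h10, hc]
  have hmem : ∀ y : ℝ, y ≠ 0 → |y| < 1 → |A 1 1 * y| < 1 := by
    intro y hy hy1
    have h1 := (LV48_mem hΩ (z := (⟨0, y⟩ : ℂ)) ⟨fun h => hy (congrArg Complex.im h), hy1⟩).2
    rwa [him] at h1
  have hmem' : ∀ y : ℝ, y ≠ 0 → |y| < 1 → ∃ w : ℝ, |w| < 1 ∧ A 1 1 * w = y := by
    intro y hy hy1
    have h1 : (⟨0, y⟩ : ℂ) ∈ {z : ℂ | z ≠ 0 ∧ |z.im| < 1} :=
      ⟨fun h => hy (congrArg Complex.im h), hy1⟩
    rw [← hΩ] at h1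
    obtain ⟨z, hz, hz'⟩ := h1
    refine ⟨z.im, hz.2, ?_⟩
    rw [← him]
    exact congrArg Complex.im hz'
  have hne : A 1 1 ≠ 0 := by
    intro h
    obtain ⟨w, -, hw⟩ := hmem' (1 / 2) (by norm_num) (by rw [abs_lt]; norm_num)
    rw [h] at hw
    norm_num at hw
  have hpos : 0 < |A 1 1| := abs_pos.2 hne
  apply le_antisymm
  · by_contra hlt
    push Not at hlt
    have h1 := hmem (A 1 1)⁻¹ (inv_ne_zero hne) (by rw [abs_inv]; exact inv_lt_one_of_one_lt₀ hlt)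
    rw [mul_inv_cancel₀ hne] at h1
    simp at h1
  · by_contra hlt
    push Not at hlt
    obtain ⟨w, hw1, hw⟩ := hmem' |A 1 1| hpos.ne' (by rwa [abs_abs])
    have h2 : |A 1 1| * |w| = |A 1 1| := by
      rw [← abs_mul, hw, abs_abs]
    have h3 : |A 1 1| * |w| < |A 1 1| * 1 := mul_lt_mul_of_pos_left hw1 hpos
    linarith

theorem vstrip_case
    (hΩ : (fun z => act A z + c) '' {z : ℂ | z ≠ 0 ∧ |z.re| < 1} = {z : ℂ | z ≠ 0 ∧ |z.re| < 1})
    (hBr : (fun z => act A z + c) '' ((fun r : ℝ => (r : ℂ)) '' Br) = (fun r : ℝ => (r : ℂ)) '' Br)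
    (h0 : ∃ r ∈ Br, r ≠ 0) :
    c = 0 ∧ A 1 0 = 0 ∧ A 0 1 = 0 ∧ |A 0 0| = 1 ∧ ∀ r : ℝ, r ∈ Br ↔ A 0 0 * r ∈ Br := by
  have hreI : ∀ y : ℝ, (act A (⟨0, y⟩ : ℂ)).re = A 0 1 * y := by
    intro y
    simp [act]
  have hc : c = 0 := by
    by_contra hc0
    apply LV48_c hΩ (by simp)
    refine ⟨hc0, ?_⟩
    have h1 := (LV48_mem hΩ (z := (⟨0, 1⟩ : ℂ))
      ⟨fun h => one_ne_zero (congrArg Complex.im h), by simp⟩).2
    have h2 := (LV48_mem hΩ (z := (⟨0, -1⟩ : ℂ))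
      ⟨fun h => by simpa using congrArg Complex.im h, by simp⟩).2
    rw [Complex.add_re, hreI, abs_lt] at h1 h2
    rw [abs_lt]
    constructor <;> linarith [h1.1, h1.2, h2.1, h2.2]
  have h10 := LV48_A10 hBr h0 hc
  have h01 : A 0 1 = 0 := by
    by_contra hne
    have h1 := (LV48_mem hΩ (z := (⟨0, (A 0 1)⁻¹⟩ : ℂ))
      ⟨fun h => inv_ne_zero hne (congrArg Complex.im h), by simp⟩).2
    rw [Complex.add_re, hreI, hc, mul_inv_cancel₀ hne] at h1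
    simp at h1
  refine ⟨hc, h10, h01, ?_, LV48_Br hBr hc h10⟩
  have hre : ∀ z : ℂ, (act A z + c).re = A 0 0 * z.re := by
    intro z
    simp [act, h01, hc]
  have hmem : ∀ y : ℝ, y ≠ 0 → |y| < 1 → |A 0 0 * y| < 1 := by
    intro y hy hy1
    have h1 := (LV48_mem hΩ (z := (⟨y, 0⟩ : ℂ)) ⟨fun h => hy (congrArg Complex.re h), hy1⟩).2
    rwa [hre] at h1
  have hmem' : ∀ y : ℝ, y ≠ 0 → |y| < 1 → ∃ w : ℝ, |w| < 1 ∧ A 0 0 * w = y := by
    intro y hy hy1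
    have h1 : (⟨y, 0⟩ : ℂ) ∈ {z : ℂ | z ≠ 0 ∧ |z.re| < 1} :=
      ⟨fun h => hy (congrArg Complex.re h), hy1⟩
    rw [← hΩ] at h1
    obtain ⟨z, hz, hz'⟩ := h1
    refine ⟨z.re, hz.2, ?_⟩
    rw [← hre]
    exact congrArg Complex.re hz'
  have hne : A 0 0 ≠ 0 := by
    intro h
    obtain ⟨w, -, hw⟩ := hmem' (1 / 2) (by norm_num) (by rw [abs_lt]; norm_num)
    rw [h] at hw
    norm_num at hw
  have hpos : 0 < |A 0 0| := abs_pos.2 hne
  apply le_antisymm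
  · by_contra hlt
    push Not at hlt
    have h1 := hmem (A 0 0)⁻¹ (inv_ne_zero hne) (by rw [abs_inv]; exact inv_lt_one_of_one_lt₀ hlt)
    rw [mul_inv_cancel₀ hne] at h1
    simp at h1
  · by_contra hlt
    push Not at hlt
    obtain ⟨w, hw1, hw⟩ := hmem' |A 0 0| hpos.ne' (by rwa [abs_abs])
    have h2 : |A 0 0| * |w| = |A 0 0| := by
      rw [← abs_mul, hw, abs_abs]
    have h3 : |A 0 0| * |w| < |A 0 0| * 1 := mul_lt_mul_of_pos_left hw1 hpos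
    linarith

end LadderVeech
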