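import Pool.Agent.LadderVeech.LV41
import Pool.Agent.LadderVeech.LV43
import Pool.Agent.LadderVeech.LV46

/-!
LV49. A pattern for every discrete subgroup of `ℝ*`.

THREE PAIRS: (K1) `Kp = kap, Km = 1/2`; (K2) `Kp = Km = kap`; (K3) `Kp = KE, Km = KO`. All three surfaces
`Cv (FF Kp Km)` are homeomorphic to the ladder (cv_one, cv_two, cv_three), all functions are SimpleZ (LV46).
TWO PARAMETRIZATIONS: `u₁ x = x³ + x`, `u_l x = l (x + sin (2 π x) / 8)`, `l > 0` (strictly increasing bijections of `ℝ`;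
StrictMono.orderIsoOfSurjective). Zeros of `kap`: `1/4 + n/2`, `n ∈ ℤ`. `u_l (x + 1) = u_l x + l`;
`u_l (n + 1/4) = l (n + 3/8)`, `u_l (n + 3/4) = l (n + 5/8)`.
`pat Kp Km u (± e^{u x}) = Kp x` (resp. `Km x`).
THE FIVE GROUPS. `A₊ = {log a | a ∈ A, a > 0}` is a discrete additive subgroup of `ℝ`, so `= ℤ l`, `l ≥ 0`
(AddSubgroup.dense_or_cyclic or Subgroup of ℝ with `Exists`...). If `A` has a negative element, `{log |a| | a ∈ A, a < 0}` is
a coset `s + ℤ l` with `2 s ∈ ℤ l`: it is `ℤ l` or `l/2 + ℤ l`. So `A` is one of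
 (1) `{1}`: (K1), `u₁`. (2) `{± 1}`: (K2), `u₁`. (3) `{e^{n l}}`, `l > 0`: (K1), `u_l`. (4) `{± e^{n l}}`: (K2), `u_l`.
 (5) `{(-e^m)^n}`, `m = l/2 > 0`: (K3), `u_m`.
SYMMETRY (`hsym`). (1)-(4): clear: `pat (± e^{n l} e^{u x}) = K (x + n)`, kap has period 1. (5): `KO (x + 1) = KE x`,
`KE (x + 1) = KO x`, so `pat (- e^m r) = pat r`.
EXACTNESS (`hex`): suppose `pat r = 0 ↔ pat (a r) = 0` for all `r ≠ 0`. For `a > 0` translation by `log a` preserves the set
`{u x | Kp x = 0}` (and `{u x | Km x = 0}`).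
 `u₁`: `t_n = u₁ (1/4 + n/2)`, strictly increasing in `n ∈ ℤ`, the translation must be `t_n ↦ t_{n+k}` for some `k`
 (an increasing bijection of the set onto itself), `t_{n+k} - t_n` is independent of `n` only for `k = 0` (cubic polynomial):
 `log a = 0`. `u_l`: the set is `{l (n + 3/8)} ∪ {l (n + 5/8)}`: if `3/8 + s` and `5/8 + s` are both in
 `(3/8 + ℤ) ∪ (5/8 + ℤ)` then `s ∈ ℤ` (the alternative `s ∈ 1/4 + ℤ` for the first gives `5/8 + s ∈ 7/8 + ℤ`). (K3): the set is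
 `{m (2n + 3/8)} ∪ {m (2n + 5/8)}` : `log a ∈ 2 m ℤ`.
 For `a < 0`: translation by `log |a|` maps `{u x | Kp x = 0}` onto `{u x | Km x = 0}` and conversely. (K1): impossible (`Km`
 has no zeros). (K2): as for `a > 0`: `log |a| = 0` resp. `∈ l ℤ`. (K3): `{u x | KO x = 0} = m + {u x | KE x = 0}`:
 `log |a| ∈ m (2ℤ + 1)`, so `a = (-e^m)^(2k+1)`.
-/

open Set Filter Topology

namespace LadderVeech

private lemma LV49_pat_exp (Kp Km : ℝ → ℝ) (u : ℝ ≃o ℝ) (y : ℝ) :
    pat Kp Km u (Real.exp y) = Kp (u.symm y) := by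
  unfold pat
  rw [if_pos (Real.exp_pos y), Real.log_exp]

private lemma LV49_pat_neg (Kp Km : ℝ → ℝ) (u : ℝ ≃o ℝ) (y : ℝ) :
    pat Kp Km u (-Real.exp y) = Km (u.symm y) := by
  unfold pat
  rw [if_neg (by have := Real.exp_pos y; linarith), neg_neg, Real.log_exp]

private lemma LV49_cases {r : ℝ} (hr : r ≠ 0) : ∃ y, r = Real.exp y ∨ r = -Real.exp y := by
  rcases lt_or_gt_of_ne hr with h | h
  · exact ⟨Real.log (-r), Or.inr (by rw [Real.exp_log (by linarith)]; ring)⟩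
  · exact ⟨Real.log r, Or.inl (Real.exp_log h).symm⟩

private theorem LV49_glue {A : Subgroup ℝˣ} {Kp Km : ℝ → ℝ} {u : ℝ ≃o ℝ}
    (hp : ∀ a ∈ A, ∀ s : ℝ, (a : ℝ) = Real.exp s → ∀ y, Kp (u.symm (y + s)) = Kp (u.symm y) ∧
      Km (u.symm (y + s)) = Km (u.symm y))
    (hm : ∀ a ∈ A, ∀ s : ℝ, (a : ℝ) = -Real.exp s → ∀ y, Km (u.symm (y + s)) = Kp (u.symm y) ∧
      Kp (u.symm (y + s)) = Km (u.symm y))
    (ep : ∀ (a : ℝˣ) (s : ℝ), (a : ℝ) = Real.exp s →
      (∀ y, Kp (u.symm y) = 0 ↔ Kp (u.symm (y + s)) = 0) → a ∈ A)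
    (em : ∀ (a : ℝˣ) (s : ℝ), (a : ℝ) = -Real.exp s →
      (∀ y, Kp (u.symm y) = 0 ↔ Km (u.symm (y + s)) = 0) → a ∈ A)
    (h0 : ∃ x, Kp x = 0) :
    (∃ r : ℝ, r ≠ 0 ∧ pat Kp Km u r = 0) ∧
      (∀ a ∈ A, ∀ r : ℝ, r ≠ 0 →
        SignType.sign (pat Kp Km u ((a : ℝ) * r)) = SignType.sign (pat Kp Km u r)) ∧
      ∀ a : ℝˣ, (∀ r : ℝ, r ≠ 0 → (pat Kp Km u r = 0 ↔ pat Kp Km u ((a : ℝ) * r) = 0)) →
        a ∈ A := by
  have e1 : ∀ y s : ℝ, Real.exp s * Real.exp y = Real.exp (y + s) := fun y s => by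
    rw [← Real.exp_add, add_comm]
  have e2 : ∀ y s : ℝ, Real.exp s * -Real.exp y = -Real.exp (y + s) := fun y s => by
    rw [← e1]; ring
  have e3 : ∀ y s : ℝ, -Real.exp s * Real.exp y = -Real.exp (y + s) := fun y s => by
    rw [← e1]; ring
  have e4 : ∀ y s : ℝ, -Real.exp s * -Real.exp y = Real.exp (y + s) := fun y s => by
    rw [← e1]; ring
  refine ⟨?_, ?_, ?_⟩
  · obtain ⟨x, hx⟩ := h0
    refine ⟨Real.exp (u x), Real.exp_ne_zero _, ?_⟩
    rw [LV49_pat_exp, OrderIso.symm_apply_apply, hx]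
  · intro a ha r hr
    obtain ⟨s, hs | hs⟩ := LV49_cases a.ne_zero
    · obtain ⟨y, hy | hy⟩ := LV49_cases hr
      · rw [hs, hy, e1, LV49_pat_exp, LV49_pat_exp, (hp a ha s hs y).1]
      · rw [hs, hy, e2, LV49_pat_neg, LV49_pat_neg, (hp a ha s hs y).2]
    · obtain ⟨y, hy | hy⟩ := LV49_cases hr
      · rw [hs, hy, e3, LV49_pat_exp, LV49_pat_neg, (hm a ha s hs y).1]
      · rw [hs, hy, e4, LV49_pat_exp, LV49_pat_neg, (hm a ha s hs y).2]
  · intro a ha
    obtain ⟨s, hs | hs⟩ := LV49_cases a.ne_zero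
    · refine ep a s hs fun y => ?_
      have h1 := ha (Real.exp y) (Real.exp_ne_zero _)
      rwa [hs, e1, LV49_pat_exp, LV49_pat_exp] at h1
    · refine em a s hs fun y => ?_
      have h1 := ha (Real.exp y) (Real.exp_ne_zero _)
      rwa [hs, e3, LV49_pat_exp, LV49_pat_neg] at h1

/-! ### the functions -/

private lemma LV49_kap (x : ℝ) : kap x = Real.cos (2 * Real.pi * x) / 2 := by
  unfold kap
  have h : Real.cos (2 * Real.pi * x) = 1 - 2 * Real.sin (Real.pi * x) ^ 2 := by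
    rw [mul_assoc, Real.cos_two_mul, Real.cos_sq']
    ring
  rw [h]
  ring

private lemma LV49_kap_add (x : ℝ) (n : ℤ) : kap (x + n) = kap x := by
  rw [LV49_kap, LV49_kap]
  have h : 2 * Real.pi * (x + n) = 2 * Real.pi * x + n * (2 * Real.pi) := by ring
  rw [h, Real.cos_add_int_mul_two_pi]

private lemma LV49_kap_zero {x : ℝ} : kap x = 0 ↔ ∃ n : ℤ, x = n + 1 / 4 ∨ x = n + 3 / 4 := by
  have hpi := Real.pi_pos
  rw [LV49_kap]
  constructor
  · intro h
    have h1 : Real.cos (2 * Real.pi * x) = 0 := by linarith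
    obtain ⟨k, hk⟩ := Real.cos_eq_zero_iff.1 h1
    have h2 : x = (2 * k + 1) / 4 := by
      have h3 : Real.pi * (x - (2 * k + 1) / 4) = 0 := by linarith
      rcases mul_eq_zero.1 h3 with h4 | h4
      · exact absurd h4 hpi.ne'
      · linarith
    rcases Int.even_or_odd' k with ⟨n, hn | hn⟩
    · refine ⟨n, Or.inl ?_⟩
      rw [h2, hn]
      push_cast
      ring
    · refine ⟨n, Or.inr ?_⟩
      rw [h2, hn]
      push_cast
      ring
  · rintro ⟨n, h | h⟩
    · have h1 : Real.cos (2 * Real.pi * x) = 0 := Real.cos_eq_zero_iff.2 ⟨2 * n, by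
        rw [h]
        push_cast
        ring⟩
      rw [h1]
      ring
    · have h1 : Real.cos (2 * Real.pi * x) = 0 := Real.cos_eq_zero_iff.2 ⟨2 * n + 1, by
        rw [h]
        push_cast
        ring⟩
      rw [h1]
      ring

private lemma LV49_kap_neg {x : ℝ} {n : ℤ} (h1 : n + 1 / 4 < x) (h2 : x < n + 3 / 4) : kap x < 0 := by
  have hpi := Real.pi_pos
  have h3 : kap x = kap (x - n) := by
    have h4 := LV49_kap_add (x - n) n
    rwa [sub_add_cancel] at h4
  rw [h3, LV49_kap]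
  have h4 : Real.cos (2 * Real.pi * (x - n)) < 0 := by
    apply Real.cos_neg_of_pi_div_two_lt_of_lt
    · nlinarith
    · nlinarith
  linarith

private lemma LV49_floor {n : ℤ} {x a : ℝ} (h0 : 0 ≤ a) (h1 : a < 1) (hx : x = n + a) : ⌊x⌋ = n := by
  rw [Int.floor_eq_iff, hx]
  constructor <;> linarith

private lemma LV49_KE_zero {x : ℝ} : KE x = 0 ↔ ∃ n : ℤ, x = 2 * n + 1 / 4 ∨ x = 2 * n + 3 / 4 := by
  classical
  unfold KE
  constructor
  · intro h
    by_cases he : Even ⌊x⌋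
    · rw [if_pos he] at h
      obtain ⟨n, hn | hn⟩ := LV49_kap_zero.1 h
      · rw [LV49_floor (by norm_num) (by norm_num) hn] at he
        obtain ⟨k, hk⟩ := he
        refine ⟨k, Or.inl ?_⟩
        rw [hn, hk]
        push_cast
        ring
      · rw [LV49_floor (by norm_num) (by norm_num) hn] at he
        obtain ⟨k, hk⟩ := he
        refine ⟨k, Or.inr ?_⟩
        rw [hn, hk]
        push_cast
        ring
    · rw [if_neg he] at h
      norm_num at h
  · rintro ⟨n, h | h⟩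
    · have h1 : x = ((2 * n : ℤ) : ℝ) + 1 / 4 := by rw [h]; push_cast; ring
      rw [if_pos (by rw [LV49_floor (by norm_num) (by norm_num) h1]; exact even_two_mul n)]
      exact LV49_kap_zero.2 ⟨2 * n, Or.inl h1⟩
    · have h1 : x = ((2 * n : ℤ) : ℝ) + 3 / 4 := by rw [h]; push_cast; ring
      rw [if_pos (by rw [LV49_floor (by norm_num) (by norm_num) h1]; exact even_two_mul n)]
      exact LV49_kap_zero.2 ⟨2 * n, Or.inr h1⟩

private lemma LV49_KO_succ (x : ℝ) : KO (x + 1) = KE x := by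
  classical
  unfold KO KE
  have h1 : ⌊x + 1⌋ = ⌊x⌋ + 1 := Int.floor_add_one x
  have h2 : kap (x + 1) = kap x := by
    have := LV49_kap_add x 1
    rwa [Int.cast_one] at this
  rw [h1, h2]
  by_cases he : Even ⌊x⌋
  · rw [if_pos he, if_neg (by rw [Int.even_add_one]; exact fun h => h he)]
  · rw [if_neg he, if_pos (by rw [Int.even_add_one]; exact he)]

private lemma LV49_KE_succ (x : ℝ) : KE (x + 1) = KO x := by
  classical
  unfold KO KE
  have h1 : ⌊x + 1⌋ = ⌊x⌋ + 1 := Int.floor_add_one x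
  have h2 : kap (x + 1) = kap x := by
    have := LV49_kap_add x 1
    rwa [Int.cast_one] at this
  rw [h1, h2]
  by_cases he : Even ⌊x⌋
  · rw [if_pos he, if_neg (by rw [Int.even_add_one]; exact fun h => h he)]
  · rw [if_neg he, if_pos (by rw [Int.even_add_one]; exact he)]

private lemma LV49_KE_even (x : ℝ) (n : ℤ) : KE (x + ((2 * n : ℤ) : ℝ)) = KE x := by
  classical
  unfold KE
  rw [Int.floor_add_intCast, LV49_kap_add]
  have h : Even (⌊x⌋ + 2 * n) ↔ Even ⌊x⌋ := by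
    rw [Int.even_add]
    exact iff_true_right (even_two_mul n)
  by_cases he : Even ⌊x⌋
  · rw [if_pos he, if_pos (h.2 he)]
  · rw [if_neg he, if_neg (fun hh => he (h.1 hh))]

private lemma LV49_KO_even (x : ℝ) (n : ℤ) : KO (x + ((2 * n : ℤ) : ℝ)) = KO x := by
  classical
  unfold KO
  rw [Int.floor_add_intCast, LV49_kap_add]
  have h : Even (⌊x⌋ + 2 * n) ↔ Even ⌊x⌋ := by
    rw [Int.even_add]
    exact iff_true_right (even_two_mul n)
  by_cases he : Even ⌊x⌋
  · rw [if_pos he, if_pos (h.2 he)]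
  · rw [if_neg he, if_neg (fun hh => he (h.1 hh))]

/-! ### the parametrization `u_l` -/

private lemma LV49u_strictMono {l : ℝ} (hl : 0 < l) :
    StrictMono (fun x : ℝ => l * (x + Real.sin (2 * Real.pi * x) / 8)) := by
  intro x y hxy
  have h1 : |Real.sin (2 * Real.pi * x) - Real.sin (2 * Real.pi * y)| ≤ |2 * Real.pi * x - 2 * Real.pi * y| :=
    Real.abs_sin_sub_sin_le _ _
  have h2 : |2 * Real.pi * x - 2 * Real.pi * y| = 2 * Real.pi * (y - x) := by
    rw [abs_of_nonpos]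
    · ring
    · nlinarith [Real.pi_pos]
  have h3 := Real.pi_lt_d2
  have h4 := (abs_le.1 (h1.trans_eq h2)).2
  have h5 : (y - x) * Real.pi < (y - x) * 3.15 := mul_lt_mul_of_pos_left h3 (sub_pos.2 hxy)
  show l * _ < l * _
  apply mul_lt_mul_of_pos_left _ hl
  linarith

private lemma LV49u_surjective {l : ℝ} (hl : 0 < l) :
    Function.Surjective (fun x : ℝ => l * (x + Real.sin (2 * Real.pi * x) / 8)) := by
  apply Continuous.surjective
  · fun_prop
  · have h1 : Tendsto (fun x : ℝ => l * (x - 1 / 8)) atTop atTop :=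
      (tendsto_atTop_add_const_right _ (-(1 / 8)) tendsto_id).const_mul_atTop hl
    refine tendsto_atTop_mono (fun x => ?_) h1
    apply mul_le_mul_of_nonneg_left _ hl.le
    have := Real.neg_one_le_sin (2 * Real.pi * x)
    linarith
  · have h1 : Tendsto (fun x : ℝ => l * (x + 1 / 8)) atBot atBot :=
      (tendsto_atBot_add_const_right _ (1 / 8) tendsto_id).const_mul_atBot hl
    refine tendsto_atBot_mono (fun x => ?_) h1
    apply mul_le_mul_of_nonneg_left _ hl.le
    have := Real.sin_le_one (2 * Real.pi * x)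
    linarith

private noncomputable def LV49u (l : ℝ) (hl : 0 < l) : ℝ ≃o ℝ :=
  StrictMono.orderIsoOfSurjective _ (LV49u_strictMono hl) (LV49u_surjective hl)

private lemma LV49u_apply {l : ℝ} (hl : 0 < l) (x : ℝ) :
    LV49u l hl x = l * (x + Real.sin (2 * Real.pi * x) / 8) := rfl

private lemma LV49u_add {l : ℝ} (hl : 0 < l) (n : ℤ) (x : ℝ) : LV49u l hl (x + n) = LV49u l hl x + n * l := by
  rw [LV49u_apply, LV49u_apply]
  have h : 2 * Real.pi * (x + n) = 2 * Real.pi * x + n * (2 * Real.pi) := by ring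
  rw [h, Real.sin_add_int_mul_two_pi]
  ring

private lemma LV49u_symm_add {l : ℝ} (hl : 0 < l) (n : ℤ) (y : ℝ) :
    (LV49u l hl).symm (y + n * l) = (LV49u l hl).symm y + n := by
  rw [OrderIso.symm_apply_eq, LV49u_add, OrderIso.apply_symm_apply]

private lemma LV49u_one {l : ℝ} (hl : 0 < l) (n : ℤ) : LV49u l hl (n + 1 / 4) = l * (n + 3 / 8) := by
  rw [add_comm, LV49u_add, LV49u_apply]
  have h : 2 * Real.pi * (1 / 4) = Real.pi / 2 := by ring
  rw [h, Real.sin_pi_div_two]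
  ring

private lemma LV49u_three {l : ℝ} (hl : 0 < l) (n : ℤ) : LV49u l hl (n + 3 / 4) = l * (n + 5 / 8) := by
  rw [add_comm, LV49u_add, LV49u_apply]
  have h : 2 * Real.pi * (3 / 4) = Real.pi / 2 + Real.pi := by ring
  rw [h, Real.sin_add_pi, Real.sin_pi_div_two]
  ring

/-- the arithmetic of the zero sets -/
private lemma LV49_arith {m s j : ℝ} {q : ℤ} (hm : 0 < m)
    (h1 : ∃ n : ℤ, m * (3 / 8) + s = m * (q * n + j + 3 / 8) ∨ m * (3 / 8) + s = m * (q * n + j + 5 / 8))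
    (h2 : ∃ n : ℤ, m * (5 / 8) + s = m * (q * n + j + 3 / 8) ∨ m * (5 / 8) + s = m * (q * n + j + 5 / 8)) :
    ∃ n : ℤ, s = m * (q * n + j) := by
  obtain ⟨n, hn | hn⟩ := h1
  · exact ⟨n, by linarith⟩
  · obtain ⟨k, hk | hk⟩ := h2
    · exfalso
      have h3 : m * (q * n + j + 5 / 8 - 3 / 8 - (q * k + j + 3 / 8 - 5 / 8)) = 0 := by linarith
      rcases mul_eq_zero.1 h3 with h4 | h4
      · exact hm.ne' h4
      · have h5 : ((2 * (q * n - q * k) + 1 : ℤ) : ℝ) = 0 := by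
          push_cast
          linarith
        have h6 : 2 * (q * n - q * k) + 1 = 0 := by exact_mod_cast h5
        omega
    · exact ⟨k, by linarith⟩

private lemma LV49_kap_exact {l s : ℝ} (hl : 0 < l)
    (h : ∀ y, kap ((LV49u l hl).symm y) = 0 ↔ kap ((LV49u l hl).symm (y + s)) = 0) :
    ∃ n : ℤ, s = n * l := by
  have key : ∀ y, kap ((LV49u l hl).symm y) = 0 → ∃ n : ℤ, y = l * (((1 : ℤ) : ℝ) * n + 0 + 3 / 8) ∨
      y = l * (((1 : ℤ) : ℝ) * n + 0 + 5 / 8) := by
    intro y hy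
    obtain ⟨n, hn | hn⟩ := LV49_kap_zero.1 hy
    · refine ⟨n, Or.inl ?_⟩
      rw [OrderIso.symm_apply_eq, LV49u_one] at hn
      rw [hn]
      push_cast
      ring
    · refine ⟨n, Or.inr ?_⟩
      rw [OrderIso.symm_apply_eq, LV49u_three] at hn
      rw [hn]
      push_cast
      ring
  have h1 : kap ((LV49u l hl).symm (l * (3 / 8))) = 0 := by
    have h2 := LV49u_one hl 0
    rw [Int.cast_zero, zero_add, zero_add] at h2
    rw [← h2, OrderIso.symm_apply_apply]
    exact LV49_kap_zero.2 ⟨0, Or.inl (by norm_num)⟩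
  have h2 : kap ((LV49u l hl).symm (l * (5 / 8))) = 0 := by
    have h2 := LV49u_three hl 0
    rw [Int.cast_zero, zero_add, zero_add] at h2
    rw [← h2, OrderIso.symm_apply_apply]
    exact LV49_kap_zero.2 ⟨0, Or.inr (by norm_num)⟩
  obtain ⟨n, hn⟩ := LV49_arith hl (key _ ((h _).1 h1)) (key _ ((h _).1 h2))
  refine ⟨n, ?_⟩
  rw [hn]
  push_cast
  ring

private lemma LV49_KE_exact {m s : ℝ} (hm : 0 < m)
    (h : ∀ y, KE ((LV49u m hm).symm y) = 0 ↔ KE ((LV49u m hm).symm (y + s)) = 0) :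
    ∃ n : ℤ, s = n * (2 * m) := by
  have key : ∀ y, KE ((LV49u m hm).symm y) = 0 → ∃ n : ℤ, y = m * (((2 : ℤ) : ℝ) * n + 0 + 3 / 8) ∨
      y = m * (((2 : ℤ) : ℝ) * n + 0 + 5 / 8) := by
    intro y hy
    obtain ⟨n, hn | hn⟩ := LV49_KE_zero.1 hy
    · refine ⟨n, Or.inl ?_⟩
      have h1 := LV49u_one hm (2 * n)
      push_cast at h1
      rw [OrderIso.symm_apply_eq, h1] at hn
      rw [hn]
      push_cast
      ring
    · refine ⟨n, Or.inr ?_⟩
      have h1 := LV49u_three hm (2 * n)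
      push_cast at h1
      rw [OrderIso.symm_apply_eq, h1] at hn
      rw [hn]
      push_cast
      ring
  have h1 : KE ((LV49u m hm).symm (m * (3 / 8))) = 0 := by
    have h2 := LV49u_one hm 0
    rw [Int.cast_zero, zero_add, zero_add] at h2
    rw [← h2, OrderIso.symm_apply_apply]
    exact LV49_KE_zero.2 ⟨0, Or.inl (by norm_num)⟩
  have h2 : KE ((LV49u m hm).symm (m * (5 / 8))) = 0 := by
    have h2 := LV49u_three hm 0
    rw [Int.cast_zero, zero_add, zero_add] at h2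
    rw [← h2, OrderIso.symm_apply_apply]
    exact LV49_KE_zero.2 ⟨0, Or.inr (by norm_num)⟩
  obtain ⟨n, hn⟩ := LV49_arith hm (key _ ((h _).1 h1)) (key _ ((h _).1 h2))
  refine ⟨n, ?_⟩
  rw [hn]
  push_cast
  ring

private lemma LV49_KO_exact {m s : ℝ} (hm : 0 < m)
    (h : ∀ y, KE ((LV49u m hm).symm y) = 0 ↔ KO ((LV49u m hm).symm (y + s)) = 0) :
    ∃ n : ℤ, s = n * (2 * m) + m := by
  have key : ∀ y, KO ((LV49u m hm).symm y) = 0 → ∃ n : ℤ, y = m * (((2 : ℤ) : ℝ) * n + 1 + 3 / 8) ∨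
      y = m * (((2 : ℤ) : ℝ) * n + 1 + 5 / 8) := by
    intro y hy
    have hy' : KE ((LV49u m hm).symm y - 1) = 0 := by
      rw [← hy, ← LV49_KO_succ, sub_add_cancel]
    obtain ⟨n, hn | hn⟩ := LV49_KE_zero.1 hy'
    · refine ⟨n, Or.inl ?_⟩
      have h1 := LV49u_one hm (2 * n + 1)
      push_cast at h1
      have h3 : (LV49u m hm).symm y = 2 * n + 1 + 1 / 4 := by linarith
      rw [OrderIso.symm_apply_eq, h1] at h3
      rw [h3]
      push_cast
      ring
    · refine ⟨n, Or.inr ?_⟩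
      have h1 := LV49u_three hm (2 * n + 1)
      push_cast at h1
      have h3 : (LV49u m hm).symm y = 2 * n + 1 + 3 / 4 := by linarith
      rw [OrderIso.symm_apply_eq, h1] at h3
      rw [h3]
      push_cast
      ring
  have h1 : KE ((LV49u m hm).symm (m * (3 / 8))) = 0 := by
    have h2 := LV49u_one hm 0
    rw [Int.cast_zero, zero_add, zero_add] at h2
    rw [← h2, OrderIso.symm_apply_apply]
    exact LV49_KE_zero.2 ⟨0, Or.inl (by norm_num)⟩
  have h2 : KE ((LV49u m hm).symm (m * (5 / 8))) = 0 := by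
    have h2 := LV49u_three hm 0
    rw [Int.cast_zero, zero_add, zero_add] at h2
    rw [← h2, OrderIso.symm_apply_apply]
    exact LV49_KE_zero.2 ⟨0, Or.inr (by norm_num)⟩
  obtain ⟨n, hn⟩ := LV49_arith hm (key _ ((h _).1 h1)) (key _ ((h _).1 h2))
  refine ⟨n, ?_⟩
  rw [hn]
  push_cast
  ring

/-! ### the parametrization `sinh` -/

private lemma LV49_sinh_pos {s : ℝ} (hs : 0 < s)
    (h : ∀ y, kap (Real.sinhOrderIso.symm y) = 0 → kap (Real.sinhOrderIso.symm (y + s)) = 0) : False := by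
  have h0 : kap (Real.sinhOrderIso.symm (Real.sinh (1 / 4))) = 0 := by
    have h1 : Real.sinhOrderIso.symm (Real.sinh (1 / 4)) = 1 / 4 := by
      rw [OrderIso.symm_apply_eq]
      rfl
    rw [h1]
    exact LV49_kap_zero.2 ⟨0, Or.inl (by norm_num)⟩
  have h1 : ∀ k : ℕ, kap (Real.sinhOrderIso.symm (Real.sinh (1 / 4) + k * s)) = 0 := by
    intro k
    induction k with
    | zero => simpa using h0
    | succ k ih =>
      have h2 := h _ ih
      have h3 : Real.sinh (1 / 4) + k * s + s = Real.sinh (1 / 4) + ((k + 1 : ℕ) : ℝ) * s := by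
        push_cast
        ring
      rwa [h3] at h2
  obtain ⟨n, hn⟩ := exists_nat_gt (4 * s)
  -- the gap
  have hgap : Real.sinh (n + 1 / 4) + s < Real.sinh (n + 3 / 4) := by
    have h2 : (n : ℝ) + 3 / 4 = (n + 1 / 4) + 1 / 2 := by ring
    have h3 : (0 : ℝ) ≤ n := Nat.cast_nonneg n
    rw [h2, Real.sinh_add (n + 1 / 4) (1 / 2)]
    have h4 : 1 ≤ Real.cosh (1 / 2) := Real.one_le_cosh _
    have h5 : (1 : ℝ) / 2 ≤ Real.sinh (1 / 2) := Real.self_le_sinh_iff.2 (by norm_num)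
    have h6 : 0 ≤ Real.sinh (n + 1 / 4) := Real.sinh_nonneg_iff.2 (by linarith)
    have h7 : (n : ℝ) / 2 < Real.cosh (n + 1 / 4) := by
      rw [Real.cosh_eq]
      have h8 := Real.add_one_le_exp ((n : ℝ) + 1 / 4)
      have h9 := Real.exp_pos (-((n : ℝ) + 1 / 4))
      linarith
    nlinarith
  set c := Real.sinh (n + 1 / 4) - Real.sinh (1 / 4) with hc
  have hc0 : 0 ≤ c := by
    have h2 : Real.sinh (1 / 4) ≤ Real.sinh (n + 1 / 4) := by
      apply Real.sinh_le_sinh.2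
      have h3 : (0 : ℝ) ≤ n := Nat.cast_nonneg n
      linarith
    linarith
  have h2 := Nat.floor_le (div_nonneg hc0 hs.le)
  have h3 := Nat.lt_floor_add_one (c / s)
  rw [le_div_iff₀ hs] at h2
  rw [div_lt_iff₀ hs] at h3
  have h4 := h1 (⌊c / s⌋₊ + 1)
  set y := Real.sinh (1 / 4) + ((⌊c / s⌋₊ + 1 : ℕ) : ℝ) * s with hy
  have h5 : Real.sinh (n + 1 / 4) < y := by
    rw [hy]
    push_cast
    linarith
  have h6 : y < Real.sinh (n + 3 / 4) := by
    rw [hy]
    push_cast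
    linarith
  have h7 : ((n : ℤ) : ℝ) + 1 / 4 < Real.sinhOrderIso.symm y := by
    rw [OrderIso.lt_symm_apply]
    exact h5
  have h8 : Real.sinhOrderIso.symm y < ((n : ℤ) : ℝ) + 3 / 4 := by
    rw [OrderIso.symm_apply_lt]
    exact h6
  have h9 := LV49_kap_neg h7 h8
  linarith

private lemma LV49_sinh {s : ℝ}
    (h : ∀ y, kap (Real.sinhOrderIso.symm y) = 0 ↔ kap (Real.sinhOrderIso.symm (y + s)) = 0) : s = 0 := by
  rcases lt_trichotomy s 0 with h1 | h1 | h1
  · exact (LV49_sinh_pos (neg_pos.2 h1) fun y hy => (h (y + -s)).2 (by rwa [neg_add_cancel_right])).elim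
  · exact h1
  · exact (LV49_sinh_pos h1 fun y hy => (h y).1 hy).elim

private lemma LV49_param {l : ℝ} (hl : 0 ≤ l) :
    ∃ u : ℝ ≃o ℝ, (∀ (n : ℤ) (y : ℝ), ∃ k : ℤ, u.symm (y + n * l) = u.symm y + k) ∧
      ∀ s, (∀ y, kap (u.symm y) = 0 ↔ kap (u.symm (y + s)) = 0) → ∃ n : ℤ, s = n * l := by
  rcases hl.eq_or_lt with h | h
  · refine ⟨Real.sinhOrderIso, fun n y => ⟨0, ?_⟩, fun s hs => ⟨0, ?_⟩⟩
    · rw [← h, mul_zero, add_zero, Int.cast_zero, add_zero]
    · rw [LV49_sinh hs, Int.cast_zero, zero_mul]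
  · exact ⟨LV49u l h, fun n y => ⟨n, LV49u_symm_add h n y⟩, fun s hs => LV49_kap_exact h hs⟩

/-! ### the group -/

private noncomputable def LV49e (s : ℝ) : ℝˣ := Units.mk0 (Real.exp s) (Real.exp_ne_zero s)

private lemma LV49e_val (s : ℝ) : (LV49e s : ℝ) = Real.exp s := rfl

private noncomputable def LV49L (A : Subgroup ℝˣ) : AddSubgroup ℝ where
  carrier := {s | LV49e s ∈ A}
  zero_mem' := by
    show LV49e 0 ∈ A
    have h : LV49e 0 = 1 := Units.ext (by rw [LV49e_val, Real.exp_zero]; rfl)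
    rw [h]
    exact A.one_mem
  add_mem' := by
    intro a b ha hb
    show LV49e (a + b) ∈ A
    have h : LV49e (a + b) = LV49e a * LV49e b := Units.ext (by
      rw [Units.val_mul, LV49e_val, LV49e_val, LV49e_val, Real.exp_add])
    rw [h]
    exact A.mul_mem ha hb
  neg_mem' := by
    intro a ha
    show LV49e (-a) ∈ A
    have h : LV49e (-a) = (LV49e a)⁻¹ := by
      rw [eq_inv_iff_mul_eq_one]
      exact Units.ext (by
        rw [Units.val_mul, LV49e_val, LV49e_val, ← Real.exp_add, neg_add_cancel, Real.exp_zero]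
        rfl)
    rw [h]
    exact A.inv_mem ha

private lemma LV49_cyclic (A : Subgroup ℝˣ)
    (hA : ∃ U ∈ 𝓝 (1 : ℝ), ∀ a ∈ A, (a : ℝ) ∈ U → a = 1) :
    ∃ l : ℝ, 0 ≤ l ∧ ∀ s, LV49e s ∈ A ↔ ∃ n : ℤ, s = n * l := by
  obtain ⟨U, hU, hAU⟩ := hA
  have hnd : ¬ Dense (LV49L A : Set ℝ) := by
    intro hd
    have h1 : Real.exp ⁻¹' U ∈ 𝓝 (0 : ℝ) := by
      apply Real.continuous_exp.continuousAt.preimage_mem_nhds
      rwa [Real.exp_zero]
    obtain ⟨ε, hε, hball⟩ := Metric.mem_nhds_iff.1 h1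
    obtain ⟨s, hs1, hs2⟩ := hd.exists_mem_open (isOpen_Ioo (a := (0 : ℝ)) (b := ε)) ⟨ε / 2, by constructor <;> linarith⟩
    have h2 : Real.exp s ∈ U := hball (by
      rw [Metric.mem_ball, Real.dist_eq, sub_zero, abs_of_pos hs2.1]
      exact hs2.2)
    have h3 : LV49e s = 1 := hAU _ hs1 h2
    have h4 : Real.exp s = 1 := congrArg Units.val h3
    rw [Real.exp_eq_one_iff] at h4
    exact hs2.1.ne' h4
  rcases AddSubgroup.dense_or_cyclic (LV49L A) with h | ⟨l, h⟩
  · exact absurd h hnd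
  · refine ⟨|l|, abs_nonneg l, fun s => ?_⟩
    have h1 : LV49e s ∈ A ↔ s ∈ LV49L A := Iff.rfl
    rw [h1, h, AddSubgroup.mem_closure_singleton]
    constructor
    · rintro ⟨n, hn⟩
      rw [zsmul_eq_mul] at hn
      rcases abs_choice l with h2 | h2
      · exact ⟨n, by rw [h2, hn]⟩
      · refine ⟨-n, ?_⟩
        rw [h2, ← hn]
        push_cast
        ring
    · rintro ⟨n, hn⟩
      rcases abs_choice l with h2 | h2
      · exact ⟨n, by rw [zsmul_eq_mul, hn, h2]⟩
      · refine ⟨-n, ?_⟩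
        rw [zsmul_eq_mul, hn, h2]
        push_cast
        ring

theorem exists_pattern (A : Subgroup ℝˣ)
    (hA : ∃ U ∈ 𝓝 (1 : ℝ), ∀ a ∈ A, (a : ℝ) ∈ U → a = 1) :
    ∃ (Kp Km : ℝ → ℝ) (u : ℝ ≃o ℝ), SimpleZ Kp ∧ SimpleZ Km ∧
      Nonempty (Cv (FF Kp Km) ≃ₜ Ladder) ∧ (∃ r : ℝ, r ≠ 0 ∧ pat Kp Km u r = 0) ∧
      (∀ a ∈ A, ∀ r : ℝ, r ≠ 0 →
        SignType.sign (pat Kp Km u ((a : ℝ) * r)) = SignType.sign (pat Kp Km u r)) ∧
      ∀ a : ℝˣ, (∀ r : ℝ, r ≠ 0 → (pat Kp Km u r = 0 ↔ pat Kp Km u ((a : ℝ) * r) = 0)) →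
        a ∈ A := by
  classical
  obtain ⟨l, hl0, hL⟩ := LV49_cyclic A hA
  by_cases hneg : ∃ a ∈ A, ∃ s : ℝ, (a : ℝ) = -Real.exp s
  · obtain ⟨a₀, ha₀, s₀, hs₀⟩ := hneg
    have h2 : LV49e (2 * s₀) ∈ A := by
      have h3 : a₀ * a₀ = LV49e (2 * s₀) := by
        apply Units.ext
        rw [Units.val_mul, hs₀, LV49e_val, two_mul, Real.exp_add]
        ring
      rw [← h3]
      exact A.mul_mem ha₀ ha₀
    obtain ⟨n, hn⟩ := (hL _).1 h2
    have hcase : (-1 : ℝˣ) ∈ A ∨ (0 < l ∧ -LV49e (l / 2) ∈ A) := by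
      rcases hl0.eq_or_lt with h | h
      · left
        have h3 : s₀ = 0 := by rw [← h] at hn; linarith
        have h4 : a₀ = -1 := by
          apply Units.ext
          rw [hs₀, h3, Real.exp_zero]
          simp
        rwa [← h4]
      · rcases Int.even_or_odd' n with ⟨k, hk | hk⟩
        · left
          have h3 : s₀ = k * l := by
            rw [hk] at hn
            push_cast at hn
            linarith
          have h4 : LV49e s₀ ∈ A := (hL _).2 ⟨k, h3⟩
          have h5 : (-1 : ℝˣ) = a₀ * (LV49e s₀)⁻¹ := by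
            rw [eq_mul_inv_iff_mul_eq]
            apply Units.ext
            rw [Units.val_mul, hs₀, LV49e_val]
            simp
          rw [h5]
          exact A.mul_mem ha₀ (A.inv_mem h4)
        · right
          refine ⟨h, ?_⟩
          have h3 : s₀ = k * l + l / 2 := by
            rw [hk] at hn
            push_cast at hn
            linarith
          have h4 : LV49e (k * l) ∈ A := (hL _).2 ⟨k, rfl⟩
          have h5 : -LV49e (l / 2) = a₀ * (LV49e (k * l))⁻¹ := by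
            rw [eq_mul_inv_iff_mul_eq]
            apply Units.ext
            rw [Units.val_mul, Units.val_neg, hs₀, LV49e_val, LV49e_val, h3, Real.exp_add]
            ring
          rw [h5]
          exact A.mul_mem ha₀ (A.inv_mem h4)
    rcases hcase with h1 | ⟨hl, h1⟩
    · obtain ⟨u, hu1, hu2⟩ := LV49_param hl0
      have hsym : ∀ s : ℝ, LV49e s ∈ A → ∀ y, kap (u.symm (y + s)) = kap (u.symm y) := by
        intro s hs y
        obtain ⟨n, hn⟩ := (hL s).1 hs
        obtain ⟨k, hk⟩ := hu1 n y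
        rw [hn, hk, LV49_kap_add]
      refine ⟨kap, kap, u, simpleZ_kap, simpleZ_kap, ?_, LV49_glue ?_ ?_ ?_ ?_ ⟨1 / 4, ?_⟩⟩
      · obtain ⟨e1⟩ := cv_one
        obtain ⟨e2⟩ := cv_two
        obtain ⟨e3⟩ := cv_three
        exact ⟨(e3.trans e2).trans e1⟩
      · intro a ha s hs y
        have h3 : a = LV49e s := Units.ext (by rw [hs, LV49e_val])
        exact ⟨hsym s (h3 ▸ ha) y, hsym s (h3 ▸ ha) y⟩
      · intro a ha s hs y
        have h3 : (-1 : ℝˣ) * a = LV49e s := Units.ext (by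
          rw [Units.val_mul, hs, LV49e_val]
          simp)
        have h4 : LV49e s ∈ A := by
          rw [← h3]
          exact A.mul_mem h1 ha
        exact ⟨hsym s h4 y, hsym s h4 y⟩
      · intro a s hs h
        have h3 : a = LV49e s := Units.ext (by rw [hs, LV49e_val])
        obtain ⟨n, hn⟩ := hu2 s h
        rw [h3]
        exact (hL s).2 ⟨n, hn⟩
      · intro a s hs h
        have h3 : a = (-1 : ℝˣ) * LV49e s := Units.ext (by
          rw [hs, Units.val_mul, LV49e_val]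
          simp)
        obtain ⟨n, hn⟩ := hu2 s h
        rw [h3]
        exact A.mul_mem h1 ((hL s).2 ⟨n, hn⟩)
      · exact LV49_kap_zero.2 ⟨0, Or.inl (by norm_num)⟩
    · have hm : 0 < l / 2 := by linarith
      set u := LV49u (l / 2) hm with hu
      have hsh : ∀ (n : ℤ) (y : ℝ), u.symm (y + n * (l / 2)) = u.symm y + n := fun n y => LV49u_symm_add hm n y
      refine ⟨KE, KO, u, simpleZ_KE, simpleZ_KO, ?_, LV49_glue ?_ ?_ ?_ ?_ ⟨1 / 4, ?_⟩⟩
      · obtain ⟨e1⟩ := cv_one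
        obtain ⟨e2⟩ := cv_two
        exact ⟨e2.trans e1⟩
      · intro a ha s hs y
        have h3 : a = LV49e s := Units.ext (by rw [hs, LV49e_val])
        obtain ⟨n, hn⟩ := (hL s).1 (h3 ▸ ha)
        have h4 : u.symm (y + s) = u.symm y + ((2 * n : ℤ) : ℝ) := by
          rw [← hsh, hn]
          push_cast
          ring_nf
        rw [h4, LV49_KE_even, LV49_KO_even]
        exact ⟨rfl, rfl⟩
      · intro a ha s hs y
        have h3 : a * -LV49e (l / 2) = LV49e (s + l / 2) := Units.ext (by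
          rw [Units.val_mul, Units.val_neg, hs, LV49e_val, LV49e_val, Real.exp_add]
          ring)
        obtain ⟨n, hn⟩ := (hL (s + l / 2)).1 (h3 ▸ A.mul_mem ha h1)
        have h4 : u.symm (y + s) = u.symm y + ((2 * (n - 1) : ℤ) : ℝ) + 1 := by
          have h5 : u.symm (y + s) = u.symm y + ((2 * (n - 1) + 1 : ℤ) : ℝ) := by
            rw [← hsh]
            congr 1
            push_cast
            linarith
          rw [h5]
          push_cast
          ring
        rw [h4, LV49_KO_succ, LV49_KE_succ, LV49_KE_even, LV49_KO_even]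
        exact ⟨rfl, rfl⟩
      · intro a s hs h
        have h3 : a = LV49e s := Units.ext (by rw [hs, LV49e_val])
        obtain ⟨n, hn⟩ := LV49_KE_exact hm h
        rw [h3]
        exact (hL s).2 ⟨n, by rw [hn]; ring⟩
      · intro a s hs h
        obtain ⟨n, hn⟩ := LV49_KO_exact hm h
        have h3 : a = -LV49e (l / 2) * LV49e (n * l) := Units.ext (by
          rw [hs, Units.val_mul, Units.val_neg, LV49e_val, LV49e_val, hn, neg_mul, ← Real.exp_add]
          congr 2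
          ring)
        rw [h3]
        exact A.mul_mem h1 ((hL _).2 ⟨n, rfl⟩)
      · exact LV49_KE_zero.2 ⟨0, Or.inl (by norm_num)⟩
  · obtain ⟨u, hu1, hu2⟩ := LV49_param hl0
    refine ⟨kap, fun _ => 1 / 2, u, simpleZ_kap, simpleZ_half, cv_one, LV49_glue ?_ ?_ ?_ ?_ ⟨1 / 4, ?_⟩⟩
    · intro a ha s hs y
      have h3 : a = LV49e s := Units.ext (by rw [hs, LV49e_val])
      obtain ⟨n, hn⟩ := (hL s).1 (h3 ▸ ha)
      obtain ⟨k, hk⟩ := hu1 n y
      rw [hn, hk, LV49_kap_add]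
      exact ⟨rfl, rfl⟩
    · intro a ha s hs y
      exact absurd ⟨a, ha, s, hs⟩ hneg
    · intro a s hs h
      have h3 : a = LV49e s := Units.ext (by rw [hs, LV49e_val])
      obtain ⟨n, hn⟩ := hu2 s h
      rw [h3]
      exact (hL s).2 ⟨n, hn⟩
    · intro a s hs h
      exfalso
      have h3 := (h (u (1 / 4))).1 (by
        rw [OrderIso.symm_apply_apply]
        exact LV49_kap_zero.2 ⟨0, Or.inl (by norm_num)⟩)
      norm_num at h3
    · exact LV49_kap_zero.2 ⟨0, Or.inl (by norm_num)⟩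

end LadderVeech
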