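import Pool.Agent.LadderVeech.LV31
import Pool.Agent.LadderVeech.LV44
import Pool.Agent.LadderVeech.LV47
import Pool.Agent.LadderVeech.LV48
import Pool.Agent.LadderVeech.LV49

/-!
LV50. Realization of all groups of the list.

PROOF. Given `A` (discrete), `Kp, Km, u` from exists_pattern, `F = FF Kp Km`. For odd increasing `f, g`:
`cv_brDev_WW` and `BrDev.exists_structure` give `ω₀` on `Cv F` with developing map `D q = WW u f g q.1.1`,
`sing = {q | q.1.2 = 0}`; transport to the ladder (Transport.lean, veechGroup_transport). `Cv F` is connected (the ladder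
is), T2.
`B ∈ veechGroup ω₀` iff `det B > 0` and some homeomorphism `Φ` is affine with derivative `B`. By IsDev.affine then
`D ∘ Φ = act B ∘ D + c`, `Φ '' sing = sing`; so `T z = act B z + c` maps `Ω = range D` onto itself and `Br' = D '' sing` onto
itself. `range D` = the image of `{z ≠ 0}` under `x + i y ↦ f x + i g y` (every point of the base has a preimage: every
complex number has a square root). `D '' sing = {f r | pat Kp Km u r = 0, r ≠ 0}` (real numbers: `F b = 0` iff `b` is real and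
`pat (PP b) = 0`), nonempty, not containing `0`.
(P) `f = g = id`: `Ω = {z ≠ 0}`, `plane_case` (LV48): `B 1 0 = 0`, `r ∈ Br ↔ B 0 0 * r ∈ Br` with
 `Br = {r | r ≠ 0 ∧ pat r = 0}`, so `B 0 0 ∈ A` (exactness in exists_pattern): `veechGroup ω₀ ⊆ setP A`. Conversely for
 `B = !![a, b; 0, d] ∈ setP A` use `lift_linear` (`h1, h2` trivial) and `affine_of_dev` (`c = 0`; the lift preserves `sing`
 because `v = 0` iff `F = 0`, i.e. iff `D q` is in `Br'`, hmm: `Ψ '' sing = sing`: `q ∈ sing ↔ F q.1.1 = 0 ↔ D q ∈ D '' sing`, and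
 `a r ∈ Br ↔ r ∈ Br`).
(U) `f = id`, `g = sq1`: `Ω = {z ≠ 0, |im z| < 1}`, `strip_case`: `veechGroup ω₀ ⊆ setU A`. Conversely `|d| = 1`:
 `sq1 (± y) = ± sq1 y`.
(S) `f = sq1`, `g = id`, `Ω = {z ≠ 0, |re z| < 1}`, `vstrip_case`: `B` diagonal, `|B 0 0| = 1`, and `r ∈ Br ↔ B 0 0 * r ∈ Br` with
 `Br = {sq1 r | pat r = 0}`, so `pat r = 0 ↔ pat (B 0 0 * r) = 0` (sq1 odd, injective), `B 0 0 ∈ A`. With `A = ⊥`: `veechGroup = setS`;
 with `A = {1, -1}`: `setSS`. Conversely lift_linear with `b = 0`, `a = ± 1`.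
`sufficiency`: `G` a subgroup, `C G C⁻¹ = X` in the list; realize `X = veechGroup ω₁`, and apply `exists_conj ω₁ C⁻¹`.
-/

open Set Filter Topology

namespace LadderVeech

private lemma LV50_det (A : GL (Fin 2) ℝ) :
    Matrix.det (A : Matrix (Fin 2) (Fin 2) ℝ) = A 0 0 * A 1 1 - A 0 1 * A 1 0 :=
  Matrix.det_fin_two _

private lemma LV50_odd_zero {f : ℝ → ℝ} (hf : OddMono f) : f 0 = 0 := by
  have h := hf.2.2 0
  rw [neg_zero] at h
  linarith

private lemma LV50_re {Kp Km : ℝ → ℝ} (u : ℝ ≃o ℝ) (b : Ann) (h : (b.2 : ℂ).im = 0) :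
    (FF Kp Km b).re = pat Kp Km u (PP u b).re := by
  have h1 : (b.2 : ℂ).re * (b.2 : ℂ).re + (b.2 : ℂ).im * (b.2 : ℂ).im = 1 := by
    rw [← Complex.normSq_apply]
    exact Circle.normSq_coe b.2
  rw [h, mul_zero, add_zero] at h1
  have hre : (PP u b).re = Real.exp (u b.1) * (b.2 : ℂ).re := by
    rw [PP, Complex.re_ofReal_mul]
  have hpos := Real.exp_pos (u b.1)
  rcases mul_self_eq_one_iff.1 h1 with h2 | h2
  · rw [hre, h2, mul_one]
    simp only [FF, pat, h2]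
    rw [if_pos hpos, Real.log_exp, OrderIso.symm_apply_apply]
    ring
  · rw [hre, h2]
    simp only [FF, pat, h2]
    rw [if_neg (by linarith), mul_neg, mul_one, neg_neg, Real.log_exp, OrderIso.symm_apply_apply]
    ring

private lemma LV50_zero {Kp Km : ℝ → ℝ} (u : ℝ ≃o ℝ) (b : Ann) :
    FF Kp Km b = 0 ↔ (PP u b).im = 0 ∧ pat Kp Km u (PP u b).re = 0 := by
  have him : (PP u b).im = Real.exp (u b.1) * (b.2 : ℂ).im := by
    rw [PP, Complex.im_ofReal_mul]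
  have hpos := Real.exp_pos (u b.1)
  have h1 : (PP u b).im = 0 ↔ (b.2 : ℂ).im = 0 := by
    rw [him, mul_eq_zero]
    exact ⟨fun h => h.resolve_left hpos.ne', Or.inr⟩
  rw [h1, Complex.ext_iff]
  constructor
  · rintro ⟨h2, h3⟩
    have h4 : (b.2 : ℂ).im = 0 := h3
    refine ⟨h4, ?_⟩
    rw [← LV50_re u b h4, h2]
    rfl
  · rintro ⟨h2, h3⟩
    refine ⟨?_, h2⟩
    rw [LV50_re u b h2, h3]
    rfl

private lemma LV50_ne {u : ℝ ≃o ℝ} (b : Ann) : PP u b ≠ 0 := by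
  have h : PP u b ∈ range (PP u) := ⟨b, rfl⟩
  rw [(PP_isOpenEmbedding u).2] at h
  exact h

private lemma LV50_mem {Kp Km : ℝ → ℝ} (u : ℝ ≃o ℝ) {f g : ℝ → ℝ} (hf : OddMono f)
    (hg : OddMono g) (q : Cv (FF Kp Km)) :
    q.1.2 = 0 ↔ ∃ r : ℝ, r ≠ 0 ∧ pat Kp Km u r = 0 ∧ WW u f g q.1.1 = ((f r : ℝ) : ℂ) := by
  have h1 : q.1.2 = 0 ↔ FF Kp Km q.1.1 = 0 := by
    rw [← q.2]
    exact (pow_eq_zero_iff two_ne_zero).symm
  rw [h1, LV50_zero u]
  constructor
  · rintro ⟨h2, h3⟩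
    refine ⟨(PP u q.1.1).re, ?_, h3, ?_⟩
    · intro h4
      exact LV50_ne (u := u) q.1.1 (Complex.ext h4 h2)
    · apply Complex.ext
      · rfl
      · change g (PP u q.1.1).im = 0
        rw [h2, LV50_odd_zero hg]
  · rintro ⟨r, hr, h2, h3⟩
    have h4 : f (PP u q.1.1).re = f r := congrArg Complex.re h3
    have h5 : g (PP u q.1.1).im = 0 := congrArg Complex.im h3
    rw [← LV50_odd_zero hg] at h5
    rw [hf.1.injective h4]
    exact ⟨hg.1.injective h5, h2⟩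

private lemma LV50_range {Kp Km : ℝ → ℝ} (u : ℝ ≃o ℝ) (f g : ℝ → ℝ) :
    range (fun q : Cv (FF Kp Km) => WW u f g q.1.1) =
      (fun z : ℂ => (⟨f z.re, g z.im⟩ : ℂ)) '' {0}ᶜ := by
  rw [← (PP_isOpenEmbedding u).2]
  ext w
  constructor
  · rintro ⟨q, rfl⟩
    exact ⟨PP u q.1.1, ⟨_, rfl⟩, rfl⟩
  · rintro ⟨_, ⟨b, rfl⟩, rfl⟩
    obtain ⟨v, hv⟩ := IsAlgClosed.exists_pow_nat_eq (FF Kp Km b) (n := 2) (by norm_num)
    exact ⟨⟨(b, v), hv⟩, rfl⟩

private lemma LV50_image {Kp Km : ℝ → ℝ} (u : ℝ ≃o ℝ) {f g : ℝ → ℝ} (hf : OddMono f)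
    (hg : OddMono g) :
    (fun q : Cv (FF Kp Km) => WW u f g q.1.1) '' {q | q.1.2 = 0} =
      (fun r : ℝ => (r : ℂ)) '' {s | ∃ r : ℝ, r ≠ 0 ∧ pat Kp Km u r = 0 ∧ s = f r} := by
  ext w
  constructor
  · rintro ⟨q, hq, rfl⟩
    obtain ⟨r, h1, h2, h3⟩ := (LV50_mem u hf hg q).1 hq
    exact ⟨f r, ⟨r, h1, h2, rfl⟩, h3.symm⟩
  · rintro ⟨_, ⟨r, h1, h2, rfl⟩, rfl⟩
    have h3 : ((f r : ℝ) : ℂ) ∈ range (fun q : Cv (FF Kp Km) => WW u f g q.1.1) := by
      rw [LV50_range]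
      refine ⟨(r : ℂ), ?_, ?_⟩
      · simpa using h1
      · apply Complex.ext
        · simp
        · simp [LV50_odd_zero hg]
    obtain ⟨q, hq⟩ := h3
    exact ⟨q, (LV50_mem u hf hg q).2 ⟨r, h1, h2, hq⟩, hq⟩

private lemma LV50_pack {Kp Km : ℝ → ℝ} (hp : SimpleZ Kp) (hm : SimpleZ Km) (u : ℝ ≃o ℝ)
    {f g : ℝ → ℝ} (hf : OddMono f) (hg : OddMono g) (e : Cv (FF Kp Km) ≃ₜ Ladder) :
    ∃ ω : TranslationStructure Ladder,
      (∀ B ∈ veechGroup ω, 0 < B 0 0 * B 1 1 - B 0 1 * B 1 0 ∧ ∃ c : ℂ,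
        (fun z => act B z + c) '' ((fun z : ℂ => (⟨f z.re, g z.im⟩ : ℂ)) '' {0}ᶜ) =
          (fun z : ℂ => (⟨f z.re, g z.im⟩ : ℂ)) '' {0}ᶜ ∧
        (fun z => act B z + c) '' ((fun r : ℝ => (r : ℂ)) ''
          {s | ∃ r : ℝ, r ≠ 0 ∧ pat Kp Km u r = 0 ∧ s = f r}) =
          (fun r : ℝ => (r : ℂ)) '' {s | ∃ r : ℝ, r ≠ 0 ∧ pat Kp Km u r = 0 ∧ s = f r}) ∧
      ∀ B : GL (Fin 2) ℝ, 0 < B 0 0 * B 1 1 → B 1 0 = 0 →
        (∀ x y, f (B 0 0 * x + B 0 1 * g y) = B 0 0 * f x + B 0 1 * g y) →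
        (∀ y, g (B 1 1 * y) = B 1 1 * g y) →
        (∀ r : ℝ, r ≠ 0 →
          SignType.sign (pat Kp Km u (B 0 0 * r)) = SignType.sign (pat Kp Km u r)) →
        B ∈ veechGroup ω := by
  have hpre : PreconnectedSpace (Cv (FF Kp Km)) := by
    refine ⟨?_⟩
    have h1 : range e.symm = univ := e.symm.surjective.range_eq
    rw [← h1]
    exact isPreconnected_range e.symm.continuous
  obtain ⟨ω₀, hs, hD, hch⟩ := (cv_brDev_WW hp hm u hf hg).exists_structure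
  refine ⟨ω₀.transport e, ?_, ?_⟩
  · intro B hB
    rw [veechGroup_transport, mem_veechGroup, LV50_det] at hB
    obtain ⟨hdet, Φ, hΦ⟩ := hB
    obtain ⟨c, hc⟩ := hD.affine hΦ
    refine ⟨hdet, c, ?_, ?_⟩
    · rw [← LV50_range (Kp := Kp) (Km := Km) u f g]
      ext w
      constructor
      · rintro ⟨_, ⟨q, rfl⟩, rfl⟩
        exact ⟨Φ q, hc q⟩
      · rintro ⟨q, rfl⟩
        refine ⟨_, ⟨Φ.symm q, rfl⟩, ?_⟩
        have h1 := hc (Φ.symm q)
        rw [Φ.apply_symm_apply] at h1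
        exact h1.symm
    · rw [← LV50_image u hf hg]
      have h1 := hΦ.1
      rw [hs] at h1
      ext w
      constructor
      · rintro ⟨_, ⟨q, hq, rfl⟩, rfl⟩
        refine ⟨Φ q, ?_, hc q⟩
        rw [← h1]
        exact ⟨q, hq, rfl⟩
      · rintro ⟨q, hq, rfl⟩
        rw [← h1] at hq
        obtain ⟨q', hq', rfl⟩ := hq
        exact ⟨_, ⟨q', hq', rfl⟩, (hc q').symm⟩
  · intro B had h10 h1 h2 hpat
    rw [veechGroup_transport, mem_veechGroup, LV50_det]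
    refine ⟨by rw [h10, mul_zero, sub_zero]; exact had, ?_⟩
    obtain ⟨Ψ, hΨ⟩ := lift_linear hp.1 hm.1 u hf hg had h1 h2 hpat
    have ha : B 0 0 ≠ 0 := left_ne_zero_of_mul had.ne'
    have hd : B 1 1 ≠ 0 := right_ne_zero_of_mul had.ne'
    have hf0 := LV50_odd_zero hf
    have hg0 := LV50_odd_zero hg
    have hfa : ∀ x, f (B 0 0 * x) = B 0 0 * f x := by
      intro x
      have h3 := h1 x 0
      rw [hg0, mul_zero, add_zero, add_zero] at h3
      exact h3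
    have hmem : ∀ q, (Ψ q).1.2 = 0 ↔ q.1.2 = 0 := by
      intro q
      rw [LV50_mem u hf hg, LV50_mem u hf hg q, hΨ]
      constructor
      · rintro ⟨r, h3, h4, h5⟩
        have h6 : B 0 0 * (WW u f g q.1.1).re + B 0 1 * (WW u f g q.1.1).im = f r :=
          congrArg Complex.re h5
        have h7 : B 1 1 * (WW u f g q.1.1).im = 0 := congrArg Complex.im h5
        have h8 : (WW u f g q.1.1).im = 0 := (mul_eq_zero.1 h7).resolve_left hd
        rw [h8, mul_zero, add_zero] at h6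
        refine ⟨(B 0 0)⁻¹ * r, mul_ne_zero (inv_ne_zero ha) h3, ?_, ?_⟩
        · have h9 := hpat ((B 0 0)⁻¹ * r) (mul_ne_zero (inv_ne_zero ha) h3)
          rw [← mul_assoc, mul_inv_cancel₀ ha, one_mul, h4, sign_zero] at h9
          exact sign_eq_zero_iff.1 h9.symm
        · apply Complex.ext
          · have h9 := hfa ((B 0 0)⁻¹ * r)
            rw [← mul_assoc, mul_inv_cancel₀ ha, one_mul, ← h6] at h9
            exact mul_left_cancel₀ ha h9
          · exact h8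
      · rintro ⟨r, h3, h4, h5⟩
        refine ⟨B 0 0 * r, mul_ne_zero ha h3, ?_, ?_⟩
        · have h9 := hpat r h3
          rw [h4, sign_zero] at h9
          exact sign_eq_zero_iff.1 h9
        · rw [h5, hfa]
          apply Complex.ext <;> simp
    refine ⟨Ψ, affine_of_dev hch (c := 0) ?_ ?_⟩
    · rw [hs]
      ext q
      constructor
      · rintro ⟨q', hq', rfl⟩
        exact (hmem q').2 hq'
      · intro hq
        refine ⟨Ψ.symm q, ?_, Ψ.apply_symm_apply q⟩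
        have h3 := (hmem (Ψ.symm q)).1
        rw [Ψ.apply_symm_apply] at h3
        exact h3 hq
    · intro q
      rw [hΨ, add_zero]
      simp only [act, h10, zero_mul, zero_add]

private lemma LV50_sq1 (y : ℝ) : sq1 (-y) = -sq1 y := oddMono_sq1.2.2 y

/-- multiplication by a number of absolute value one -/
private lemma LV50_abs {f : ℝ → ℝ} (hf : OddMono f) {d : ℝ} (hd : |d| = 1) (y : ℝ) :
    f (d * y) = d * f y := by
  rcases (abs_eq (zero_le_one' ℝ)).1 hd with h | h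
  · rw [h, one_mul, one_mul]
  · rw [h, neg_one_mul, neg_one_mul, hf.2.2]

private lemma LV50_Omega_id : (fun z : ℂ => (⟨z.re, z.im⟩ : ℂ)) '' {0}ᶜ = {z : ℂ | z ≠ 0} := by
  ext w
  constructor
  · rintro ⟨z, hz, rfl⟩
    exact hz
  · intro hw
    exact ⟨w, hw, rfl⟩

private lemma LV50_Omega_U : (fun z : ℂ => (⟨z.re, sq1 z.im⟩ : ℂ)) '' {0}ᶜ =
    {z : ℂ | z ≠ 0 ∧ |z.im| < 1} := by
  have h0 := LV50_odd_zero oddMono_sq1
  ext w
  constructor
  · rintro ⟨z, hz, rfl⟩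
    refine ⟨?_, ?_⟩
    · intro h
      have h1 : z.re = 0 := congrArg Complex.re h
      have h2 : sq1 z.im = 0 := congrArg Complex.im h
      rw [← h0] at h2
      exact hz (Complex.ext h1 (oddMono_sq1.1.injective h2))
    · have h1 : sq1 z.im ∈ Ioo (-1 : ℝ) 1 := by
        rw [← range_sq1]
        exact ⟨_, rfl⟩
      exact abs_lt.2 h1
  · rintro ⟨hw, hw2⟩
    have h1 : w.im ∈ range sq1 := by
      rw [range_sq1]
      exact abs_lt.1 hw2
    obtain ⟨y, hy⟩ := h1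
    refine ⟨⟨w.re, y⟩, ?_, Complex.ext rfl hy⟩
    intro h
    have h2 : w.re = 0 := congrArg Complex.re h
    have h3 : y = 0 := congrArg Complex.im h
    apply hw
    rw [h3, h0] at hy
    exact Complex.ext h2 hy.symm

private lemma LV50_Omega_S : (fun z : ℂ => (⟨sq1 z.re, z.im⟩ : ℂ)) '' {0}ᶜ =
    {z : ℂ | z ≠ 0 ∧ |z.re| < 1} := by
  have h0 := LV50_odd_zero oddMono_sq1
  ext w
  constructor
  · rintro ⟨z, hz, rfl⟩
    refine ⟨?_, ?_⟩
    · intro h
      have h1 : z.im = 0 := congrArg Complex.im h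
      have h2 : sq1 z.re = 0 := congrArg Complex.re h
      rw [← h0] at h2
      exact hz (Complex.ext (oddMono_sq1.1.injective h2) h1)
    · have h1 : sq1 z.re ∈ Ioo (-1 : ℝ) 1 := by
        rw [← range_sq1]
        exact ⟨_, rfl⟩
      exact abs_lt.2 h1
  · rintro ⟨hw, hw2⟩
    have h1 : w.re ∈ range sq1 := by
      rw [range_sq1]
      exact abs_lt.1 hw2
    obtain ⟨y, hy⟩ := h1
    refine ⟨⟨y, w.im⟩, ?_, Complex.ext hy rfl⟩
    intro h
    have h2 : w.im = 0 := congrArg Complex.im h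
    have h3 : y = 0 := congrArg Complex.re h
    apply hw
    rw [h3, h0] at hy
    exact Complex.ext hy.symm h2

/-- the exactness for the pattern `r ↦ f r` -/
private lemma LV50_exact {Kp Km : ℝ → ℝ} {u : ℝ ≃o ℝ} {f : ℝ → ℝ} (hf : OddMono f) {a : ℝ}
    (ha : a ≠ 0) (hfa : ∀ x, f (a * x) = a * f x)
    (h : ∀ s : ℝ, s ∈ {s | ∃ r : ℝ, r ≠ 0 ∧ pat Kp Km u r = 0 ∧ s = f r} ↔
      a * s ∈ {s | ∃ r : ℝ, r ≠ 0 ∧ pat Kp Km u r = 0 ∧ s = f r}) (r : ℝ) (hr : r ≠ 0) :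
    pat Kp Km u r = 0 ↔ pat Kp Km u (a * r) = 0 := by
  have h1 := h (f r)
  constructor
  · intro h2
    obtain ⟨r', h3, h4, h5⟩ := h1.1 ⟨r, hr, h2, rfl⟩
    rw [← hfa] at h5
    rw [hf.1.injective h5]
    exact h4
  · intro h2
    obtain ⟨r', h3, h4, h5⟩ := h1.2 ⟨a * r, mul_ne_zero ha hr, h2, (hfa r).symm⟩
    rw [hf.1.injective h5]
    exact h4

theorem realize {X : Set (GL (Fin 2) ℝ)} (hX : InList X) :
    ∃ ω : TranslationStructure Ladder, (veechGroup ω : Set (GL (Fin 2) ℝ)) = X := by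
  have hid : OddMono (fun x : ℝ => x) := oddMono_id
  rcases hX with ⟨A, hA, hX⟩ | hX
  · obtain ⟨Kp, Km, u, hp, hm, ⟨e⟩, ⟨r₀, hr₀, hr₀'⟩, hsym, hex⟩ := exists_pattern A hA
    rcases hX with rfl | rfl
    · -- the case `P`
      obtain ⟨ω, h1, h2⟩ := LV50_pack hp hm u hid hid e
      refine ⟨ω, Subset.antisymm ?_ ?_⟩
      · intro B hB
        obtain ⟨hdet, c, hΩ, hBr⟩ := h1 B hB
        rw [LV50_Omega_id] at hΩ
        obtain ⟨-, h10, hiff⟩ := plane_case hΩ hBr ⟨r₀, ⟨r₀, hr₀, hr₀', rfl⟩, hr₀⟩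
        rw [h10, mul_zero, sub_zero] at hdet
        have ha : B 0 0 ≠ 0 := left_ne_zero_of_mul hdet.ne'
        refine ⟨h10, ⟨Units.mk0 _ ha, hex _ fun r hr => ?_, rfl⟩, hdet⟩
        exact LV50_exact hid ha (fun x => rfl) hiff r hr
      · rintro B ⟨h10, ⟨a, haA, ha⟩, hdet⟩
        refine h2 B hdet h10 (fun x y => rfl) (fun y => rfl) fun r hr => ?_
        rw [ha]
        exact hsym a haA r hr
    · -- the case `U`
      obtain ⟨ω, h1, h2⟩ := LV50_pack hp hm u hid oddMono_sq1 e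
      refine ⟨ω, Subset.antisymm ?_ ?_⟩
      · intro B hB
        obtain ⟨hdet, c, hΩ, hBr⟩ := h1 B hB
        rw [LV50_Omega_U] at hΩ
        obtain ⟨-, h10, h11, hiff⟩ := strip_case hΩ hBr ⟨r₀, ⟨r₀, hr₀, hr₀', rfl⟩, hr₀⟩
        rw [h10, mul_zero, sub_zero] at hdet
        have ha : B 0 0 ≠ 0 := left_ne_zero_of_mul hdet.ne'
        refine ⟨h10, ⟨Units.mk0 _ ha, hex _ fun r hr => ?_, rfl⟩, hdet, h11⟩
        exact LV50_exact hid ha (fun x => rfl) hiff r hr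
      · rintro B ⟨h10, ⟨a, haA, ha⟩, hdet, h11⟩
        refine h2 B hdet h10 (fun x y => rfl) (fun y => LV50_abs oddMono_sq1 h11 y)
          fun r hr => ?_
        rw [ha]
        exact hsym a haA r hr
  · rcases hX with rfl | rfl
    · -- the case `S`
      have hA : ∃ U ∈ 𝓝 (1 : ℝ), ∀ a ∈ (⊥ : Subgroup ℝˣ), (a : ℝ) ∈ U → a = 1 :=
        ⟨univ, univ_mem, fun a ha _ => Subgroup.mem_bot.1 ha⟩
      obtain ⟨Kp, Km, u, hp, hm, ⟨e⟩, ⟨r₀, hr₀, hr₀'⟩, hsym, hex⟩ := exists_pattern ⊥ hA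
      obtain ⟨ω, h1, h2⟩ := LV50_pack hp hm u oddMono_sq1 hid e
      have hne : sq1 r₀ ≠ 0 := fun h => hr₀ (oddMono_sq1.1.injective
        (h.trans (LV50_odd_zero oddMono_sq1).symm))
      refine ⟨ω, Subset.antisymm ?_ ?_⟩
      · intro B hB
        obtain ⟨hdet, c, hΩ, hBr⟩ := h1 B hB
        rw [LV50_Omega_S] at hΩ
        obtain ⟨-, h10, h01, h00, hiff⟩ := vstrip_case hΩ hBr ⟨_, ⟨r₀, hr₀, hr₀', rfl⟩, hne⟩
        rw [h10, mul_zero, sub_zero] at hdet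
        have ha : B 0 0 ≠ 0 := left_ne_zero_of_mul hdet.ne'
        have h3 : Units.mk0 _ ha ∈ (⊥ : Subgroup ℝˣ) := hex _ fun r hr =>
          LV50_exact oddMono_sq1 ha (fun x => LV50_abs oddMono_sq1 h00 x) hiff r hr
        have h4 : B 0 0 = 1 := congrArg Units.val (Subgroup.mem_bot.1 h3)
        refine ⟨h10, h01, h4, ?_⟩
        rwa [h4, one_mul] at hdet
      · rintro B ⟨h10, h01, h00, h11⟩
        refine h2 B (by rw [h00, one_mul]; exact h11) h10 (fun x y => ?_) (fun y => rfl)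
          fun r hr => ?_
        · rw [h00, h01]
          simp
        · rw [h00, one_mul]
    · -- the case `± S`
      have hA : ∃ U ∈ 𝓝 (1 : ℝ), ∀ a ∈ Subgroup.zpowers (-1 : ℝˣ), (a : ℝ) ∈ U → a = 1 := by
        refine ⟨Ioi 0, Ioi_mem_nhds one_pos, ?_⟩
        rintro _ ⟨n, rfl⟩ h
        have h3 : ∀ n : ℤ, (-1 : ℝˣ) ^ n = 1 ∨ (-1 : ℝˣ) ^ n = -1 := by
          intro n
          rcases Int.even_or_odd n with h4 | h4
          · exact Or.inl h4.neg_one_zpow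
          · exact Or.inr h4.neg_one_zpow
        rcases h3 n with h4 | h4
        · exact h4
        · exfalso
          have h5 : ((-1 : ℝˣ) ^ n : ℝˣ) = -1 := h4
          simp only [h5] at h
          norm_num at h
      obtain ⟨Kp, Km, u, hp, hm, ⟨e⟩, ⟨r₀, hr₀, hr₀'⟩, hsym, hex⟩ :=
        exists_pattern (Subgroup.zpowers (-1 : ℝˣ)) hA
      obtain ⟨ω, h1, h2⟩ := LV50_pack hp hm u oddMono_sq1 hid e
      have hne : sq1 r₀ ≠ 0 := fun h => hr₀ (oddMono_sq1.1.injective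
        (h.trans (LV50_odd_zero oddMono_sq1).symm))
      refine ⟨ω, Subset.antisymm ?_ ?_⟩
      · intro B hB
        obtain ⟨hdet, c, hΩ, hBr⟩ := h1 B hB
        rw [LV50_Omega_S] at hΩ
        obtain ⟨-, h10, h01, h00, hiff⟩ := vstrip_case hΩ hBr ⟨_, ⟨r₀, hr₀, hr₀', rfl⟩, hne⟩
        rw [h10, mul_zero, sub_zero] at hdet
        exact ⟨h10, h01, h00, hdet⟩
      · rintro B ⟨h10, h01, h00, hdet⟩
        refine h2 B hdet h10 (fun x y => ?_) (fun y => rfl) fun r hr => ?_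
        · rw [h01, zero_mul, add_zero, add_zero]
          exact LV50_abs oddMono_sq1 h00 x
        · rcases (abs_eq (zero_le_one' ℝ)).1 h00 with h3 | h3
          · rw [h3, one_mul]
          · rw [h3]
            have h4 := hsym (-1) (Subgroup.mem_zpowers _) r hr
            simpa using h4

theorem sufficiency {G : Subgroup (GL (Fin 2) ℝ)} {C : GL (Fin 2) ℝ}
    (hC : 0 < C 0 0 * C 1 1 - C 0 1 * C 1 0)
    (hG : InList ((fun g => C * g * C⁻¹) '' (G : Set (GL (Fin 2) ℝ)))) :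
    ∃ ω : TranslationStructure Ladder, veechGroup ω = G := by
  obtain ⟨ω₁, h1⟩ := realize hG
  have hdetC : 0 < Matrix.det (C : Matrix (Fin 2) (Fin 2) ℝ) := by rw [LV50_det]; exact hC
  have hdetCi : 0 < Matrix.det ((C⁻¹ : GL (Fin 2) ℝ) : Matrix (Fin 2) (Fin 2) ℝ) := by
    rw [Matrix.coe_units_inv, Matrix.det_nonsing_inv]
    simpa using hdetC
  have hCi := hdetCi
  rw [LV50_det] at hCi
  obtain ⟨ω, -, hω⟩ := exists_conj ω₁ C⁻¹ hCi
  refine ⟨ω, ?_⟩
  have hdet : ∀ B : GL (Fin 2) ℝ,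
      0 < Matrix.det ((C * B * C⁻¹ : GL (Fin 2) ℝ) : Matrix (Fin 2) (Fin 2) ℝ) ↔
        0 < Matrix.det (B : Matrix (Fin 2) (Fin 2) ℝ) := by
    intro B
    rw [Units.val_mul, Units.val_mul, Matrix.det_mul, Matrix.det_mul,
      mul_pos_iff_of_pos_right hdetCi, mul_pos_iff_of_pos_left hdetC]
  have key : ∀ B : GL (Fin 2) ℝ, B ∈ veechGroup ω ↔ C * B * C⁻¹ ∈ veechGroup ω₁ := by
    intro B
    rw [mem_veechGroup, mem_veechGroup, hdet]
    refine and_congr_right fun _ => ?_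
    have h2 : C⁻¹ * (C * B * C⁻¹) * C⁻¹⁻¹ = B := by group
    constructor
    · rintro ⟨f, hf⟩
      refine ⟨f, ?_⟩
      rw [hω, h2]
      exact hf
    · rintro ⟨f, hf⟩
      refine ⟨f, ?_⟩
      rw [hω, h2] at hf
      exact hf
  ext B
  rw [key, ← SetLike.mem_coe, h1]
  constructor
  · rintro ⟨g, hg, hgB⟩
    have h3 : g = B := mul_left_cancel (mul_right_cancel hgB)
    rw [← h3]
    exact hg
  · intro hB
    exact ⟨B, hB, rfl⟩

end LadderVeech
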