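import Pool.Agent.LadderVeech.Expo
import Pool.Agent.LadderVeech.Algebra

open Set Filter Topology NormedSpace
open scoped Matrix.Norms.Operator

namespace LadderVeech

/-- the matrix exponential as an invertible matrix -/
noncomputable def expGL (B : Matrix (Fin 2) (Fin 2) ℝ) : GL (Fin 2) ℝ := (Matrix.isUnit_exp B).unit

lemma coe_expGL (B : Matrix (Fin 2) (Fin 2) ℝ) :
    (expGL B : Matrix (Fin 2) (Fin 2) ℝ) = exp B := rfl

lemma expGL_add {B C : Matrix (Fin 2) (Fin 2) ℝ} (h : Commute B C) :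
    expGL (B + C) = expGL B * expGL C := by
  apply Units.ext
  rw [Units.val_mul, coe_expGL, coe_expGL, coe_expGL, Matrix.exp_add_of_commute _ _ h]

lemma expGL_zero : expGL 0 = 1 := by
  apply Units.ext
  rw [coe_expGL, exp_zero]
  rfl

lemma expGL_smul_add (s t : ℝ) (B : Matrix (Fin 2) (Fin 2) ℝ) :
    expGL ((s + t) • B) = expGL (s • B) * expGL (t • B) := by
  rw [add_smul]
  exact expGL_add (((Commute.refl B).smul_left s).smul_right t)

lemma expGL_neg (B : Matrix (Fin 2) (Fin 2) ℝ) : expGL (-B) = (expGL B)⁻¹ := by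
  rw [eq_inv_iff_mul_eq_one, ← expGL_add (Commute.neg_left (Commute.refl B)), neg_add_cancel,
    expGL_zero]

lemma expGL_conj (g : GL (Fin 2) ℝ) (B : Matrix (Fin 2) (Fin 2) ℝ) :
    g * expGL B * g⁻¹ = expGL ((g : Matrix (Fin 2) (Fin 2) ℝ) * B *
      ((g⁻¹ : GL (Fin 2) ℝ) : Matrix (Fin 2) (Fin 2) ℝ)) := by
  apply Units.ext
  rw [Units.val_mul, Units.val_mul, coe_expGL, coe_expGL, Matrix.exp_units_conj]

lemma tendsto_GL {ι : Type*} {l : Filter ι} {A : ι → GL (Fin 2) ℝ} {B : GL (Fin 2) ℝ} :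
    Tendsto A l (𝓝 B) ↔
      Tendsto (fun i => (A i : Matrix (Fin 2) (Fin 2) ℝ)) l
        (𝓝 (B : Matrix (Fin 2) (Fin 2) ℝ)) :=
  Units.isOpenEmbedding_val.tendsto_nhds_iff

lemma continuous_expGL : Continuous expGL := by
  rw [continuous_iff_continuousAt]
  intro B
  rw [ContinuousAt, tendsto_GL]
  let _ : NormedAlgebra ℚ (Matrix (Fin 2) (Fin 2) ℝ) :=
    NormedAlgebra.restrictScalars ℚ ℝ (Matrix (Fin 2) (Fin 2) ℝ)
  exact (exp_continuous (𝔸 := Matrix (Fin 2) (Fin 2) ℝ)).tendsto B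

/-- powers of elements close to the identity converge to one-parameter groups -/
lemma pow_tendsto_expGL {ι : Type*} {l : Filter ι} {A : ι → GL (Fin 2) ℝ} {ε : ι → ℝ}
    (hε : ∀ᶠ i in l, 0 < ε i) (hε0 : Tendsto ε l (𝓝 0)) {B : Matrix (Fin 2) (Fin 2) ℝ}
    (hB : Tendsto (fun i => (ε i)⁻¹ • ((A i : Matrix (Fin 2) (Fin 2) ℝ) - 1)) l (𝓝 B))
    {t : ℝ} (ht : 0 ≤ t) :
    Tendsto (fun i => A i ^ ⌊t / ε i⌋₊) l (𝓝 (expGL (t • B))) := by
  rw [tendsto_GL]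
  have hX : Tendsto (fun i => (A i : Matrix (Fin 2) (Fin 2) ℝ) - 1) l (𝓝 0) := by
    have h1 := hε0.smul hB
    rw [zero_smul] at h1
    refine h1.congr' ?_
    filter_upwards [hε] with i hi
    rw [smul_smul, mul_inv_cancel₀ hi.ne', one_smul]
  have hfl : Tendsto (fun i => (⌊t / ε i⌋₊ : ℝ) * ε i) l (𝓝 t) := by
    have h2 : Tendsto (fun i => t - ε i) l (𝓝 t) := by
      have := (tendsto_const_nhds (x := t) (f := l)).sub hε0
      rwa [sub_zero] at this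
    refine tendsto_of_tendsto_of_tendsto_of_le_of_le' h2 tendsto_const_nhds ?_ ?_
    · filter_upwards [hε] with i hi
      have h3 := Nat.lt_floor_add_one (t / ε i)
      rw [div_lt_iff₀ hi] at h3
      linarith
    · filter_upwards [hε] with i hi
      have h3 := Nat.floor_le (a := t / ε i) (by positivity)
      rw [le_div_iff₀ hi] at h3
      exact h3
  have hm : Tendsto (fun i => (⌊t / ε i⌋₊ : ℝ) • ((A i : Matrix (Fin 2) (Fin 2) ℝ) - 1)) l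
      (𝓝 (t • B)) := by
    have h1 := hfl.smul hB
    refine h1.congr' ?_
    filter_upwards [hε] with i hi
    rw [smul_smul, mul_assoc, mul_inv_cancel₀ hi.ne', mul_one]
  have h := pow_tendsto_exp hX hm
  rw [coe_expGL]
  refine h.congr (fun i => ?_)
  rw [Units.val_pow_eq_pow_val]
  congr 1
  abel

lemma expGL_mem {N : Subgroup (GL (Fin 2) ℝ)} (hN : IsClosed (N : Set (GL (Fin 2) ℝ)))
    {ι : Type*} {l : Filter ι} [l.NeBot] {A : ι → GL (Fin 2) ℝ} {ε : ι → ℝ}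
    (hA : ∀ᶠ i in l, A i ∈ N)
    (hε : ∀ᶠ i in l, 0 < ε i) (hε0 : Tendsto ε l (𝓝 0)) {B : Matrix (Fin 2) (Fin 2) ℝ}
    (hB : Tendsto (fun i => (ε i)⁻¹ • ((A i : Matrix (Fin 2) (Fin 2) ℝ) - 1)) l (𝓝 B))
    (t : ℝ) : expGL (t • B) ∈ N := by
  have key : ∀ t : ℝ, 0 ≤ t → expGL (t • B) ∈ N := by
    intro t ht
    refine hN.mem_of_tendsto (pow_tendsto_expGL hε hε0 hB ht) ?_
    filter_upwards [hA] with i hi using N.pow_mem hi _
  rcases le_total 0 t with h | h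
  · exact key t h
  · have := N.inv_mem (key (-t) (by linarith))
    rwa [← expGL_neg, neg_smul, neg_neg] at this

/-- the tangent space of `N` -/
def tang (N : Subgroup (GL (Fin 2) ℝ)) : Set (Matrix (Fin 2) (Fin 2) ℝ) :=
  {B | ∀ t : ℝ, expGL (t • B) ∈ N}

lemma tendsto_expGL_sub (B : Matrix (Fin 2) (Fin 2) ℝ) :
    Tendsto (fun s : ℝ => s⁻¹ • ((expGL (s • B) : Matrix (Fin 2) (Fin 2) ℝ) - 1)) (𝓝[>] 0)
      (𝓝 B) := by
  have h0 := (hasDerivAt_exp_smul_const (𝕂 := ℝ) B (0 : ℝ)).tendsto_slope_zero_right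
  simp only [zero_add, zero_smul, exp_zero, one_mul] at h0
  exact h0

lemma tang_smul {N : Subgroup (GL (Fin 2) ℝ)} {B : Matrix (Fin 2) (Fin 2) ℝ} (hB : B ∈ tang N)
    (s : ℝ) : s • B ∈ tang N := by
  intro t
  rw [smul_smul]
  exact hB _

lemma tang_add {N : Subgroup (GL (Fin 2) ℝ)} (hN : IsClosed (N : Set (GL (Fin 2) ℝ)))
    {B C : Matrix (Fin 2) (Fin 2) ℝ} (hB : B ∈ tang N) (hC : C ∈ tang N) : B + C ∈ tang N := by
  refine expGL_mem hN (l := 𝓝[>] (0 : ℝ)) (A := fun s => expGL (s • B) * expGL (s • C))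
    (ε := fun s => s) ?_ ?_ ?_ ?_
  · exact Eventually.of_forall fun s => N.mul_mem (hB s) (hC s)
  · exact self_mem_nhdsWithin
  · exact tendsto_nhdsWithin_of_tendsto_nhds tendsto_id
  · have h1 := tendsto_expGL_sub B
    have h2 := tendsto_expGL_sub C
    have h3 : Tendsto (fun s : ℝ => (expGL (s • C) : Matrix (Fin 2) (Fin 2) ℝ)) (𝓝[>] 0)
        (𝓝 1) := by
      have h4 : Continuous fun s : ℝ => (expGL (s • C) : Matrix (Fin 2) (Fin 2) ℝ) :=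
        Units.continuous_val.comp (continuous_expGL.comp (continuous_id.smul continuous_const))
      have h5 := h4.tendsto 0
      simp only [zero_smul, expGL_zero] at h5
      exact tendsto_nhdsWithin_of_tendsto_nhds h5
    have h4 := (h1.mul h3).add h2
    rw [mul_one] at h4
    refine h4.congr (fun s => ?_)
    rw [Units.val_mul, Matrix.smul_mul, ← smul_add]
    congr 1
    noncomm_ring

lemma tang_conj {G₁ N : Subgroup (GL (Fin 2) ℝ)} (hn : ∀ A ∈ G₁, ∀ B ∈ N, A * B * A⁻¹ ∈ N)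
    {B : Matrix (Fin 2) (Fin 2) ℝ} (hB : B ∈ tang N) {g : GL (Fin 2) ℝ} (hg : g ∈ G₁) :
    (g : Matrix (Fin 2) (Fin 2) ℝ) * B * ((g⁻¹ : GL (Fin 2) ℝ) : Matrix (Fin 2) (Fin 2) ℝ)
      ∈ tang N := by
  intro t
  have := hn g hg _ (hB t)
  rwa [expGL_conj, Matrix.mul_smul, Matrix.smul_mul] at this

/-- a non-discrete closed subgroup has a nonzero tangent vector -/
lemma exists_tang {N : Subgroup (GL (Fin 2) ℝ)} (hN : IsClosed (N : Set (GL (Fin 2) ℝ)))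
    (hnd : ¬ ∃ U ∈ 𝓝 (1 : GL (Fin 2) ℝ), ∀ A ∈ N, A ∈ U → A = 1) :
    ∃ B ∈ tang N, B ≠ 0 := by
  have hne : (𝓝[≠] (1 : GL (Fin 2) ℝ) ⊓ 𝓟 (N : Set (GL (Fin 2) ℝ))).NeBot := by
    rw [Filter.inf_principal_neBot_iff]
    intro V hV
    by_contra hcon
    rw [Set.not_nonempty_iff_eq_empty] at hcon
    rw [mem_nhdsWithin_iff_exists_mem_nhds_inter] at hV
    obtain ⟨U, hU, hUV⟩ := hV
    refine hnd ⟨U, hU, fun A hA hAU => ?_⟩
    by_contra hA1
    have : A ∈ V ∩ (N : Set (GL (Fin 2) ℝ)) := ⟨hUV ⟨hAU, hA1⟩, hA⟩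
    rw [hcon] at this
    exact this
  set 𝒰 := Ultrafilter.of (𝓝[≠] (1 : GL (Fin 2) ℝ) ⊓ 𝓟 (N : Set (GL (Fin 2) ℝ)))
  have hle : (𝒰 : Filter (GL (Fin 2) ℝ)) ≤ 𝓝[≠] (1 : GL (Fin 2) ℝ) ⊓ 𝓟 (N : Set (GL (Fin 2) ℝ)) :=
    Ultrafilter.of_le _
  have hmem : ∀ᶠ A in (𝒰 : Filter (GL (Fin 2) ℝ)), A ∈ N := by
    have h1 : (𝒰 : Filter (GL (Fin 2) ℝ)) ≤ 𝓟 (N : Set (GL (Fin 2) ℝ)) := hle.trans inf_le_right
    exact h1 (mem_principal_self _)
  have hne1 : ∀ᶠ A in (𝒰 : Filter (GL (Fin 2) ℝ)), A ≠ 1 := by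
    have h1 : (𝒰 : Filter (GL (Fin 2) ℝ)) ≤ 𝓝[≠] 1 := hle.trans inf_le_left
    exact h1 self_mem_nhdsWithin
  have hlim : Tendsto (fun A : GL (Fin 2) ℝ => (A : Matrix (Fin 2) (Fin 2) ℝ) - 1) 𝒰 (𝓝 0) := by
    have h1 : (𝒰 : Filter (GL (Fin 2) ℝ)) ≤ 𝓝 1 :=
      hle.trans (inf_le_left.trans nhdsWithin_le_nhds)
    have h2 : Tendsto (fun A : GL (Fin 2) ℝ => (A : Matrix (Fin 2) (Fin 2) ℝ)) 𝒰 (𝓝 1) :=
      tendsto_GL.1 h1
    have := h2.sub_const 1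
    rwa [sub_self] at this
  have hpos : ∀ᶠ A : GL (Fin 2) ℝ in (𝒰 : Filter (GL (Fin 2) ℝ)),
      0 < ‖(A : Matrix (Fin 2) (Fin 2) ℝ) - 1‖ := by
    filter_upwards [hne1] with A hA
    rw [norm_pos_iff, sub_ne_zero]
    intro h
    exact hA (Units.ext h)
  have hsph : ∀ᶠ A : GL (Fin 2) ℝ in (𝒰 : Filter (GL (Fin 2) ℝ)),
      (‖(A : Matrix (Fin 2) (Fin 2) ℝ) - 1‖)⁻¹ • ((A : Matrix (Fin 2) (Fin 2) ℝ) - 1) ∈
        Metric.sphere (0 : Matrix (Fin 2) (Fin 2) ℝ) 1 := by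
    filter_upwards [hpos] with A hA
    rw [mem_sphere_zero_iff_norm, norm_smul, norm_inv, norm_norm, inv_mul_cancel₀ hA.ne']
  have : ProperSpace (Matrix (Fin 2) (Fin 2) ℝ) := FiniteDimensional.proper ℝ _
  obtain ⟨B, hB, hBlim⟩ := exists_lim_of_compact (isCompact_sphere _ _) hsph
  refine ⟨B, ?_, ?_⟩
  · intro t
    refine expGL_mem hN hmem hpos ?_ hBlim t
    have := hlim.norm
    rwa [norm_zero] at this
  · rintro rfl
    rw [mem_sphere_zero_iff_norm, norm_zero] at hB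
    exact zero_ne_one hB

end LadderVeech
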