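import Pool.Agent.LadderVeech.Seg

open Set Filter Topology

namespace LadderVeech

variable {S : Type*} [TopologicalSpace S] {ω : TranslationStructure S}

lemma Model.center_mem {p : S} (m : Model ω p) {ρ : ℝ} (hρ : 0 ≤ ρ) : p ∈ m.disc ρ := by
  refine ⟨m.mem, ?_, ?_⟩
  · rw [m.zero, norm_zero]; exact m.hr.le
  · rw [m.zero, norm_zero, zero_pow m.hk]; exact hρ

lemma Model.seg_of_mem' {p : S} (m : Model ω p) {ρ : ℝ} {q : S} (hq : q ∈ m.disc ρ) :
    ∃ v : ℂ, ‖v‖ ≤ ρ ∧ Seg ω p v q :=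
  ⟨m.φ q ^ m.k, by rw [norm_pow]; exact hq.2.2, m.seg_of_mem hq⟩

section Ultra

variable [T2Space S] {ι : Type*} {𝒰 : Ultrafilter ι} {f : ι → S ≃ₜ S} {A : ι → GL (Fin 2) ℝ}
  {C : ℝ}

/-- uniformly bounded affine maps -/
structure Bdd (ω : TranslationStructure S) (𝒰 : Ultrafilter ι) (f : ι → S ≃ₜ S)
    (A : ι → GL (Fin 2) ℝ) (C : ℝ) : Prop where
  aff : ∀ i, IsAffine ω (f i) (A i)
  bd : ∀ᶠ i in (𝒰 : Filter ι), nrm (A i) ≤ C
  bd' : ∀ᶠ i in (𝒰 : Filter ι), nrm (A i)⁻¹ ≤ C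

lemma Bdd.symm (h : Bdd ω 𝒰 f A C) : Bdd ω 𝒰 (fun i => (f i).symm) (fun i => (A i)⁻¹) C :=
  ⟨fun i => (h.aff i).symm, h.bd', by simpa using h.bd⟩

lemma exists_lim_of_compact {g : ι → S} {K : Set S} (hK : IsCompact K)
    (h : ∀ᶠ i in (𝒰 : Filter ι), g i ∈ K) : ∃ y ∈ K, Tendsto g 𝒰 (𝓝 y) := by
  have h1 : K ∈ 𝒰.map g := h
  obtain ⟨y, hy, hle⟩ := hK.ultrafilter_le_nhds' (𝒰.map g) h1
  exact ⟨y, hy, hle⟩

lemma norm_act_le' {B : GL (Fin 2) ℝ} {v : ℂ} {C ρ : ℝ} (hB : nrm B ≤ C) (hv : ‖v‖ ≤ ρ) :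
    ‖act B v‖ ≤ C * ρ := by
  refine (norm_act_le B v).trans ?_
  have := norm_nonneg v
  have := nrm_nonneg B
  have : 0 ≤ C := this.trans hB
  gcongr

lemma Bdd.lim_inv (h : Bdd ω 𝒰 f A C) (hC : 0 < C) {x y : S}
    (hxy : Tendsto (fun i => f i x) 𝒰 (𝓝 y)) :
    Tendsto (fun i => (f i).symm y) 𝒰 (𝓝 x) := by
  obtain ⟨mx⟩ := exists_model ω x
  obtain ⟨my⟩ := exists_model ω y
  rw [tendsto_def]
  intro O hO
  obtain ⟨ρ, hρ, hρR, hsub⟩ := mx.disc_basis hO
  have hη : 0 < ρ / C := by positivity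
  have h1 : ∀ᶠ i in (𝒰 : Filter ι), f i x ∈ my.disc (ρ / C) := hxy (my.disc_mem_nhds hη)
  filter_upwards [h1, h.bd'] with i hi hbi
  obtain ⟨w, hw, hseg⟩ := my.seg_of_mem' hi
  have h2 := (hseg.map (h.aff i).symm).symm
  simp only [Homeomorph.symm_apply_apply] at h2
  have h3 : ‖-act (A i)⁻¹ w‖ ≤ ρ := by
    rw [norm_neg]
    refine (norm_act_le' hbi hw).trans ?_
    rw [mul_div_cancel₀ _ hC.ne']
  have h4 := (mx.trap (mx.center_mem le_rfl) h2 (by linarith)).1
  exact hsub (mx.disc_mono (by linarith) h4)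

/-- The set of points where the limit exists is open. -/
lemma Bdd.isOpen (h : Bdd ω 𝒰 f A C) (hC : 0 < C) :
    IsOpen {x : S | ∃ y, Tendsto (fun i => f i x) 𝒰 (𝓝 y)} := by
  rw [isOpen_iff_mem_nhds]
  rintro x ⟨y, hxy⟩
  obtain ⟨mx⟩ := exists_model ω x
  obtain ⟨my⟩ := exists_model ω y
  have hR := my.R_pos
  have hρ : 0 < my.R / (4 * C) := by positivity
  filter_upwards [mx.disc_mem_nhds hρ] with x' hx'
  obtain ⟨v, hv, hseg⟩ := mx.seg_of_mem' hx'
  have h1 : ∀ᶠ i in (𝒰 : Filter ι), f i x ∈ my.disc (my.R / 2) :=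
    hxy (my.disc_mem_nhds (by positivity))
  have h2 : ∀ᶠ i in (𝒰 : Filter ι), f i x' ∈ my.disc my.R := by
    filter_upwards [h1, h.bd] with i hi hbi
    have h3 := hseg.map (h.aff i)
    have h4 : ‖act (A i) v‖ ≤ my.R / 4 := by
      refine (norm_act_le' hbi hv).trans (le_of_eq ?_)
      field_simp
    have h5 := (my.trap hi h3 (by linarith)).1
    exact my.disc_mono (by linarith) h5
  obtain ⟨y', -, hy'⟩ := exists_lim_of_compact (my.isCompact_disc _) h2
  exact ⟨y', hy'⟩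

/-- The set of points where the limit exists is closed. -/
lemma Bdd.isClosed (h : Bdd ω 𝒰 f A C) (hC : 0 < C) :
    IsClosed {x : S | ∃ y, Tendsto (fun i => f i x) 𝒰 (𝓝 y)} := by
  rw [← closure_subset_iff_isClosed]
  intro x hx
  obtain ⟨mx⟩ := exists_model ω x
  have hR := mx.R_pos
  set δ : ℝ := mx.R / (2 * (3 + C * C)) with hδ
  have hδpos : 0 < δ := by positivity
  have hδR : (3 + C * C) * δ < mx.R := by
    have : (3 + C * C) * δ = mx.R / 2 := by
      rw [hδ]; field_simp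
    linarith
  have hCδ : 0 < C * C * δ := by positivity
  obtain ⟨x', hx'd, y', hy'⟩ := mem_closure_iff_nhds.1 hx _ (mx.disc_mem_nhds hδpos)
  obtain ⟨my⟩ := exists_model ω y'
  have hη : 0 < δ / C := by positivity
  have h1 : ∀ᶠ i in (𝒰 : Filter ι), f i x' ∈ my.disc (δ / C) := hy' (my.disc_mem_nhds hη)
  have h2 : ∀ᶠ i in (𝒰 : Filter ι), (f i).symm y' ∈ mx.disc (2 * δ) := by
    filter_upwards [h1, h.bd'] with i hi hbi
    obtain ⟨w, hw, hseg⟩ := my.seg_of_mem' hi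
    have h3 := (hseg.map (h.aff i).symm).symm
    simp only [Homeomorph.symm_apply_apply] at h3
    have h4 : ‖-act (A i)⁻¹ w‖ ≤ δ := by
      rw [norm_neg]
      refine (norm_act_le' hbi hw).trans ?_
      rw [mul_div_cancel₀ _ hC.ne']
    have h5 := (mx.trap hx'd h3 (by linarith)).1
    exact mx.disc_mono (by linarith) h5
  obtain ⟨j, hj2, hjb, hjb'⟩ := (h2.and (h.bd.and h.bd')).exists
  obtain ⟨u, hu, hsegu⟩ := mx.seg_of_mem' hx'd
  have h6 : ∀ᶠ i in (𝒰 : Filter ι), f i x ∈ f j '' mx.disc mx.R := by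
    filter_upwards [h1, h.bd] with i hi hbi
    obtain ⟨w, hw, hseg⟩ := my.seg_of_mem' hi
    have h3 := hseg.map (h.aff j).symm
    have h4 : ‖act (A j)⁻¹ w‖ ≤ δ := by
      refine (norm_act_le' hjb' hw).trans ?_
      rw [mul_div_cancel₀ _ hC.ne']
    have h5 := (mx.trap hj2 h3 (by linarith)).1
    have h7 := (hsegu.map (h.aff i)).symm.map (h.aff j).symm
    have h8 : ‖act (A j)⁻¹ (-act (A i) u)‖ ≤ C * (C * δ) := by
      refine norm_act_le' hjb' ?_
      rw [norm_neg]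
      exact norm_act_le' hbi hu
    have h9 := (mx.trap (mx.disc_mono (ρ' := 3 * δ) (by linarith) h5) h7 (by linarith)).1
    refine ⟨(f j).symm (f i x), mx.disc_mono (by linarith) h9, by simp⟩
  obtain ⟨y, -, hy⟩ := exists_lim_of_compact
    ((mx.isCompact_disc _).image (f j).continuous) h6
  exact ⟨y, hy⟩

lemma Bdd.exists_lim [PreconnectedSpace S] (h : Bdd ω 𝒰 f A C) (hC : 0 < C) {x₀ y₀ : S}
    (h0 : Tendsto (fun i => f i x₀) 𝒰 (𝓝 y₀)) (x : S) :
    ∃ y, Tendsto (fun i => f i x) 𝒰 (𝓝 y) := by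
  have := (IsClopen.eq_univ ⟨h.isClosed hC, h.isOpen hC⟩ ⟨x₀, y₀, h0⟩ :
    {x : S | ∃ y, Tendsto (fun i => f i x) 𝒰 (𝓝 y)} = univ)
  have hx : x ∈ {x : S | ∃ y, Tendsto (fun i => f i x) 𝒰 (𝓝 y)} := by
    rw [this]; trivial
  exact hx

lemma Bdd.cont (h : Bdd ω 𝒰 f A C) (hC : 0 < C) {F : S → S}
    (hF : ∀ x, Tendsto (fun i => f i x) 𝒰 (𝓝 (F x))) : Continuous F := by
  rw [continuous_iff_continuousAt]
  intro x
  obtain ⟨mx⟩ := exists_model ω x
  obtain ⟨my⟩ := exists_model ω (F x)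
  rw [ContinuousAt, tendsto_def]
  intro O hO
  obtain ⟨ρ, hρ, hρR, hsub⟩ := my.disc_basis hO
  have hη : 0 < ρ / (4 * C) := by positivity
  filter_upwards [mx.disc_mem_nhds hη] with x' hx'
  obtain ⟨v, hv, hseg⟩ := mx.seg_of_mem' hx'
  refine hsub ((my.isCompact_disc ρ).isClosed.mem_of_tendsto (hF x') ?_)
  have h1 : ∀ᶠ i in (𝒰 : Filter ι), f i x ∈ my.disc (ρ / 2) :=
    hF x (my.disc_mem_nhds (by positivity))
  filter_upwards [h1, h.bd] with i hi hbi
  have h3 := hseg.map (h.aff i)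
  have h4 : ‖act (A i) v‖ ≤ ρ / 4 := by
    refine (norm_act_le' hbi hv).trans (le_of_eq ?_)
    field_simp
  have h5 := (my.trap hi h3 (by linarith)).1
  exact my.disc_mono (by linarith) h5

/-- Limit lemma: uniformly bounded affine maps, one orbit convergent along the ultrafilter,
converge pointwise to a homeomorphism. -/
lemma Bdd.exists_homeo [PreconnectedSpace S] (h : Bdd ω 𝒰 f A C) (hC : 0 < C) {x₀ y₀ : S}
    (h0 : Tendsto (fun i => f i x₀) 𝒰 (𝓝 y₀)) :
    ∃ F : S ≃ₜ S, ∀ x, Tendsto (fun i => f i x) 𝒰 (𝓝 (F x)) := by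
  choose F hF using h.exists_lim hC h0
  choose G hG using h.symm.exists_lim hC (h.lim_inv hC h0)
  have hGF : ∀ x, G (F x) = x := fun x =>
    tendsto_nhds_unique (hG (F x)) (h.lim_inv hC (hF x))
  have hFG : ∀ y, F (G y) = y := by
    intro y
    have h1 := h.symm.lim_inv hC (hG y)
    simp only [Homeomorph.symm_symm] at h1
    exact tendsto_nhds_unique (hF (G y)) h1
  refine ⟨⟨⟨F, G, hGF, hFG⟩, h.cont hC hF, h.symm.cont hC hG⟩, hF⟩

end Ultra

lemma continuous_entry (i j : Fin 2) : Continuous fun A : GL (Fin 2) ℝ => A i j := by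
  have : Continuous fun A : GL (Fin 2) ℝ => (A : Matrix (Fin 2) (Fin 2) ℝ) :=
    Units.continuous_val
  exact this.matrix_elem i j

lemma continuous_nrm : Continuous nrm := by
  unfold nrm
  exact (((continuous_entry 0 0).abs.add (continuous_entry 0 1).abs).add
    (continuous_entry 1 0).abs).add (continuous_entry 1 1).abs

lemma continuous_act (z : ℂ) : Continuous fun A : GL (Fin 2) ℝ => act A z := by
  have h : (fun A : GL (Fin 2) ℝ => act A z) = fun A : GL (Fin 2) ℝ =>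
      ((A 0 0 * z.re + A 0 1 * z.im : ℝ) : ℂ) + ((A 1 0 * z.re + A 1 1 * z.im : ℝ) : ℂ)
        * Complex.I := by
    ext A
    apply Complex.ext <;> simp [act]
  rw [h]
  have h1 := (Complex.continuous_ofReal.comp
    (((continuous_entry 0 0).mul (continuous_const (y := z.re))).add
    ((continuous_entry 0 1).mul (continuous_const (y := z.im)))))
  have h2 := (Complex.continuous_ofReal.comp
    (((continuous_entry 1 0).mul (continuous_const (y := z.re))).add
    ((continuous_entry 1 1).mul (continuous_const (y := z.im)))))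
  exact h1.add (h2.mul continuous_const)

section Ultra2

variable [T2Space S] {ι : Type*} {𝒰 : Ultrafilter ι} {f : ι → S ≃ₜ S} {A : ι → GL (Fin 2) ℝ}
  {B : GL (Fin 2) ℝ}

lemma exists_bdd (haff : ∀ i, IsAffine ω (f i) (A i)) (hA : Tendsto A 𝒰 (𝓝 B)) :
    ∃ C > 0, Bdd ω 𝒰 f A C := by
  have h1 : Tendsto (fun i => nrm (A i)) 𝒰 (𝓝 (nrm B)) := (continuous_nrm.tendsto B).comp hA
  have h2 : Tendsto (fun i => nrm (A i)⁻¹) 𝒰 (𝓝 (nrm B⁻¹)) :=
    ((continuous_nrm.comp continuous_inv).tendsto B).comp hA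
  refine ⟨nrm B + nrm B⁻¹ + 1, ?_, haff, ?_, ?_⟩
  · have := nrm_nonneg B
    have := nrm_nonneg B⁻¹
    linarith
  · have h3 : nrm B < nrm B + nrm B⁻¹ + 1 := by
      have := nrm_nonneg B⁻¹
      linarith
    filter_upwards [h1.eventually_lt_const h3] with i hi using hi.le
  · have h3 : nrm B⁻¹ < nrm B + nrm B⁻¹ + 1 := by
      have := nrm_nonneg B
      linarith
    filter_upwards [h2.eventually_lt_const h3] with i hi using hi.le

lemma isAffine_of_tendsto (haff : ∀ i, IsAffine ω (f i) (A i)) (hA : Tendsto A 𝒰 (𝓝 B))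
    {F : S ≃ₜ S} (hF : ∀ x, Tendsto (fun i => f i x) 𝒰 (𝓝 (F x))) : IsAffine ω F B := by
  obtain ⟨C, hC, h⟩ := exists_bdd haff hA
  have hsing : ∀ x, x ∈ ω.sing → F x ∈ ω.sing := by
    intro x hx
    refine ω.isClosed_sing.mem_of_tendsto (hF x) (Eventually.of_forall fun i => ?_)
    rwa [(haff i).mem_iff]
  have hsing' : ∀ x, F x ∈ ω.sing → x ∈ ω.sing := by
    intro x hx
    refine ω.isClosed_sing.mem_of_tendsto (h.lim_inv hC (hF x)) (Eventually.of_forall fun i => ?_)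
    rwa [((haff i).symm).mem_iff]
  constructor
  · apply Subset.antisymm
    · rintro _ ⟨x, hx, rfl⟩
      exact hsing x hx
    · intro y hy
      refine ⟨F.symm y, hsing' _ (by simpa using hy), by simp⟩
  · intro p hp e he hpe e' he' hpe'
    obtain ⟨m, hk, -, hφ⟩ := exists_model_reg he hpe
    obtain ⟨m', hk', hsrc', hφ'⟩ := exists_model_reg he' hpe'
    have hR' := m'.R_pos
    refine ⟨e' (F p) - act B (e p), ?_⟩
    have hρ : 0 < m'.R / (4 * C) := by positivity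
    filter_upwards [m.disc_mem_nhds hρ] with q hq
    have hseg := m.seg_of_mem hq
    rw [hk, pow_one, hφ] at hseg
    have hv : ‖e q - e p‖ ≤ m'.R / (4 * C) := by
      have := hq.2.2
      rw [hk, pow_one, hφ] at this
      exact this
    have h1 : ∀ᶠ i in (𝒰 : Filter ι), f i p ∈ m'.disc (m'.R / 2) :=
      hF p (m'.disc_mem_nhds (by positivity))
    have h2 : ∀ᶠ i in (𝒰 : Filter ι), f i q ∈ m'.disc m'.R ∧
        e' (f i q) = e' (f i p) + act (A i) (e q - e p) := by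
      filter_upwards [h1, h.bd] with i hi hbi
      have h3 := hseg.map (haff i)
      have h4 : ‖act (A i) (e q - e p)‖ ≤ m'.R / 4 := by
        refine (norm_act_le' hbi hv).trans (le_of_eq ?_)
        field_simp
      have h5 := m'.trap hi h3 (by linarith)
      refine ⟨m'.disc_mono (by linarith) h5.1, ?_⟩
      have h6 := h5.2
      rw [hk', pow_one, pow_one, hφ', hφ'] at h6
      linear_combination h6
    have h3 : F q ∈ m'.disc m'.R :=
      (m'.isCompact_disc _).isClosed.mem_of_tendsto (hF q) (h2.mono fun i hi => hi.1)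
    have h4 : F q ∈ e'.source := by rw [← hsrc']; exact h3.1
    have l1 : Tendsto (fun i => e' (f i q)) 𝒰 (𝓝 (e' (F q))) :=
      (e'.continuousAt h4).tendsto.comp (hF q)
    have l2 : Tendsto (fun i => e' (f i p) + act (A i) (e q - e p)) 𝒰
        (𝓝 (e' (F p) + act B (e q - e p))) :=
      ((e'.continuousAt hpe').tendsto.comp (hF p)).add
        (((continuous_act _).tendsto B).comp hA)
    have l3 : Tendsto (fun i => e' (f i q)) 𝒰 (𝓝 (e' (F p) + act B (e q - e p))) := by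
      refine l2.congr' ?_
      filter_upwards [h2] with i hi
      exact hi.2.symm
    rw [tendsto_nhds_unique l1 l3, act_sub]
    ring

/-- Affine maps with convergent derivatives which do not move a compact set off itself
converge (along an ultrafilter) to an affine map. -/
lemma exists_affine_limit [PreconnectedSpace S] (haff : ∀ i, IsAffine ω (f i) (A i))
    (hA : Tendsto A 𝒰 (𝓝 B)) {K : Set S} (hK : IsCompact K)
    (hKf : ∀ i, (f i '' K ∩ K).Nonempty) : ∃ F : S ≃ₜ S, IsAffine ω F B ∧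
      ∀ x, Tendsto (fun i => f i x) 𝒰 (𝓝 (F x)) := by
  obtain ⟨C, hC, h⟩ := exists_bdd haff hA
  have h1 : ∀ i, ∃ x ∈ K, f i x ∈ K := by
    intro i
    obtain ⟨_, ⟨x, hx, rfl⟩, hy⟩ := hKf i
    exact ⟨x, hx, hy⟩
  choose x hxK hfxK using h1
  obtain ⟨x₀, -, hx₀⟩ := exists_lim_of_compact (𝒰 := 𝒰) hK (Eventually.of_forall hxK)
  obtain ⟨y₀, -, hy₀⟩ := exists_lim_of_compact (𝒰 := 𝒰) hK (Eventually.of_forall hfxK)
  have hlim : Tendsto (fun i => f i x₀) 𝒰 (𝓝 y₀) := by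
    obtain ⟨mx⟩ := exists_model ω x₀
    obtain ⟨my⟩ := exists_model ω y₀
    rw [tendsto_def]
    intro O hO
    obtain ⟨ρ, hρ, hρR, hsub⟩ := my.disc_basis hO
    have hη : 0 < ρ / (4 * C) := by positivity
    have e1 : ∀ᶠ i in (𝒰 : Filter ι), x i ∈ mx.disc (ρ / (4 * C)) :=
      hx₀ (mx.disc_mem_nhds hη)
    have e2 : ∀ᶠ i in (𝒰 : Filter ι), f i (x i) ∈ my.disc (ρ / 2) :=
      hy₀ (my.disc_mem_nhds (by positivity))
    filter_upwards [e1, e2, h.bd] with i hi1 hi2 hbi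
    obtain ⟨v, hv, hseg⟩ := mx.seg_of_mem' hi1
    have h3 := (hseg.map (haff i)).symm
    have h4 : ‖-act (A i) v‖ ≤ ρ / 4 := by
      rw [norm_neg]
      refine (norm_act_le' hbi hv).trans (le_of_eq ?_)
      field_simp
    have h5 := (my.trap hi2 h3 (by linarith)).1
    exact hsub (my.disc_mono (by linarith) h5)
  obtain ⟨F, hF⟩ := h.exists_homeo hC hlim
  exact ⟨F, isAffine_of_tendsto haff hA hF, hF⟩

end Ultra2

end LadderVeech
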