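import Pool.Agent.LadderVeech.NoHyp
import Pool.Agent.LadderVeech.Tang

open Set Filter Topology
open scoped commutatorElement

namespace LadderVeech

variable (ω : TranslationStructure Ladder)

lemma det_pos_entries {A : GL (Fin 2) ℝ} (hA : A ∈ veechPlus ω) :
    0 < A 0 0 * A 1 1 - A 0 1 * A 1 0 := by
  rw [← det_entries]
  exact (mem_veechPlus.1 hA).1

theorem main_structure :
    ∃ G₁ N : Subgroup (GL (Fin 2) ℝ), N ≤ G₁ ∧ G₁ ≤ veechGroup ω ∧
      (∀ A ∈ veechGroup ω, ∀ B ∈ veechGroup ω, A ∉ G₁ → B ∉ G₁ → A * B ∈ G₁) ∧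
      (∀ A ∈ G₁, ∀ B ∈ N, A * B * A⁻¹ ∈ N) ∧
      (∃ T ∈ G₁, ∀ A ∈ G₁, ∃ k : ℤ, A * T ^ k ∈ N) ∧
      IsClosed (N : Set (GL (Fin 2) ℝ)) ∧
      (∃ c > 0, ∀ A ∈ N, c ≤ nrm A) ∧
      ((∃ U ∈ 𝓝 (1 : GL (Fin 2) ℝ), ∀ A ∈ veechGroup ω, A ∈ U → A = 1) ∨
        ∀ A ∈ G₁, ∀ B ∈ G₁, ∀ C ∈ G₁, ∀ D ∈ G₁, ⁅⁅A, B⁆, ⁅C, D⁆⁆ = 1) := by
  refine ⟨veechPlus ω, veechZero ω, veechZero_le, veechPlus_le,
    fun A hA B hB hA' hB' => veechPlus_index hA hB hA' hB',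
    fun A hA B hB => veechZero_normal hA hB, veechPlus_cyclic, isClosed_veechZero,
    veechZero_bound ω, ?_⟩
  have hn : ∀ A ∈ veechPlus ω, ∀ B ∈ veechZero ω, A * B * A⁻¹ ∈ veechZero ω :=
    fun A hA B hB => veechZero_normal hA hB
  by_cases hdisc : ∃ U ∈ 𝓝 (1 : GL (Fin 2) ℝ), ∀ A ∈ veechZero ω, A ∈ U → A = 1
  · rcases discrete_or_metabelian veechZero_le veechPlus_le
      (fun A hA B hB hA' hB' => veechPlus_index hA hB hA' hB') hn veechPlus_cyclic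
      (veechZero_bound ω) hdisc with h | h
    · exact Or.inl h
    · right
      intro A hA B hB C hC D hD
      rw [commutatorElement_eq_one_iff_mul_comm]
      exact h _ (commutator_mem hn veechZero_le veechPlus_cyclic hA hB) _
        (commutator_mem hn veechZero_le veechPlus_cyclic hC hD)
  · rcases metabelian_of_nondiscrete hn isClosed_veechZero (fun A hA => det_pos_entries ω hA)
      (veechZero_bound ω) hdisc with ⟨B, hB, hneg⟩ | h
    · exact absurd (no_hyperbolic hB) (not_le.2 hneg)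
    · exact Or.inr h

end LadderVeech
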