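import Pool.Agent.LadderVeech.Flow

open Set Filter Topology

namespace LadderVeech

variable {ω : TranslationStructure Ladder}

/-- the flow generated by zero flux affine maps close to the identity -/
theorem exists_flow {B : Matrix (Fin 2) (Fin 2) ℝ} (hB : B ∈ tang (veechZero ω))
    {D : Ladder → ℂ} (hD : IsDev ω D)
    (hcomm : ∀ (t : ℝ) (f : Ladder ≃ₜ Ladder), IsAffine ω f (expGL (t • B)) → ZeroFlux ω f →
        ∀ x, D (f x) = act (expGL (t • B)) (D x)) :
    ∃ Φ : ℝ → Ladder → Ladder, Continuous (fun q : ℝ × Ladder => Φ q.1 q.2) ∧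
      (∀ x, Φ 0 x = x) ∧ (∀ s t x, Φ (s + t) x = Φ s (Φ t x)) ∧
      ∀ t x, D (Φ t x) = act (expGL (t • B)) (D x) := by
  set 𝒰 : Ultrafilter ℕ := Filter.hyperfilter ℕ with h𝒰
  have h𝒰le : (𝒰 : Filter ℕ) ≤ atTop := by
    rw [← Nat.cofinite_eq_atTop]
    exact Filter.hyperfilter_le_cofinite
  set ε : ℕ → ℝ := fun n => 1 / ((n : ℝ) + 1) with hε
  have hε0 : Tendsto ε 𝒰 (𝓝 0) := tendsto_one_div_add_atTop_nhds_zero_nat.mono_left h𝒰le
  have hεpos : ∀ i, 0 < ε i := fun i => by simp only [hε]; positivity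
  obtain ⟨h, hn, h0⟩ := exists_nearId hB hε0
  have hDh : ∀ i y, D (h i y) = act (expGL (ε i • B)) (D y) :=
    fun i y => hcomm (ε i) (h i) (hn.aff i) (h0 i) y
  -- the approximating powers
  set n : ℝ → ℕ → ℤ := fun t i => ⌊t / ε i⌋ with hndef
  have hnlim : ∀ t, Tendsto (fun i => (n t i : ℝ) * ε i) 𝒰 (𝓝 t) := by
    intro t
    have h2 : Tendsto (fun i => t - ε i) 𝒰 (𝓝 t) := by
      have := (tendsto_const_nhds (x := t) (f := (𝒰 : Filter ℕ))).sub hε0
      rwa [sub_zero] at this
    refine tendsto_of_tendsto_of_tendsto_of_le_of_le h2 tendsto_const_nhds ?_ ?_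
    · intro i
      have h3 := Int.lt_floor_add_one (t / ε i)
      rw [div_lt_iff₀ (hεpos i)] at h3
      simp only [hndef]
      linarith
    · intro i
      have h3 := Int.floor_le (t / ε i)
      rw [le_div_iff₀ (hεpos i)] at h3
      exact h3
  have hcontE : Continuous fun s : ℝ => expGL (s • B) :=
    continuous_expGL.comp (continuous_id.smul continuous_const)
  have haff : ∀ t i, IsAffine ω (h i ^ n t i) (expGL (ε i • B) ^ n t i) :=
    fun t i => (hn.aff i).zpow _
  have hAlim : ∀ t, Tendsto (fun i => expGL (ε i • B) ^ n t i) 𝒰 (𝓝 (expGL (t • B))) := by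
    intro t
    have h1 := (hcontE.tendsto t).comp (hnlim t)
    refine h1.congr (fun i => ?_)
    rw [expGL_zpow]
    rfl
  have hex : ∀ t, ∃ F : Ladder ≃ₜ Ladder, IsAffine ω F (expGL (t • B)) ∧ ZeroFlux ω F ∧
      ∀ x, Tendsto (fun i => (h i ^ n t i) x) 𝒰 (𝓝 (F x)) :=
    fun t => zeroFlux_limit (haff t) (hAlim t) (fun i => (h0 i).zpow _)
  choose Φ hΦaff hΦ0 hΦ using hex
  have hzero : ∀ x, Φ 0 x = x := by
    intro x
    have h1 := hΦ 0 x
    have h2 : (fun i => (h i ^ n 0 i) x) = fun _ => x := by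
      funext i
      have : n 0 i = 0 := by simp [hndef]
      rw [this, zpow_zero]
      rfl
    rw [h2] at h1
    exact (tendsto_nhds_unique h1 tendsto_const_nhds)
  have hadd : ∀ s t x, Φ (s + t) x = Φ s (Φ t x) := by
    intro s t x
    obtain ⟨C, hC, hbs⟩ := exists_bdd (haff s) (hAlim s)
    obtain ⟨C', hC', hbt⟩ := exists_bdd (haff t) (hAlim t)
    set r : ℕ → ℤ := fun i => n (s + t) i - n s i - n t i with hr
    have hr01 : ∀ i, r i = 0 ∨ r i = 1 := by
      intro i
      have h1 := Int.le_floor_add (s / ε i) (t / ε i)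
      have h2 := Int.le_floor_add_floor (s / ε i) (t / ε i)
      have h3 : (s + t) / ε i = s / ε i + t / ε i := add_div _ _ _
      have h4 : n (s + t) i = ⌊s / ε i + t / ε i⌋ := by simp only [hndef, h3]
      simp only [hr]
      rw [h4]
      simp only [hndef]
      omega
    have hrlim : Tendsto (fun i => (h i ^ r i) x) 𝒰 (𝓝 x) := by
      rw [tendsto_def]
      intro O hO
      filter_upwards [hn.pt x hO] with i hi
      rcases hr01 i with h1 | h1
      · rw [mem_preimage, h1, zpow_zero]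
        exact mem_of_mem_nhds hO
      · rw [mem_preimage, h1, zpow_one]
        exact hi
    have h1 := hbt.joint hC' (hΦ t x) hrlim
    have h2 := hbs.joint hC (hΦ s (Φ t x)) h1
    refine tendsto_nhds_unique (hΦ (s + t) x) (h2.congr (fun i => ?_))
    have h3 : n (s + t) i = n s i + (n t i + r i) := by simp only [hr]; ring
    rw [h3, zpow_add, zpow_add]
    rfl
  -- continuity at time zero
  have hcont0 : ∀ x, ∀ O ∈ 𝓝 x, ∃ δ > 0, ∃ V ∈ 𝓝 x, ∀ t : ℝ, |t| < δ → ∀ y ∈ V, Φ t y ∈ O := by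
    intro x O hO
    obtain ⟨m⟩ := exists_model ω x
    obtain ⟨ρ₀, hρ₀, -, hsub⟩ := m.disc_basis hO
    have hR := m.R_pos
    set ρ : ℝ := min (ρ₀ / 2) (m.R / 28) with hρ
    have hρpos : 0 < ρ := by positivity
    have hρ1 : 2 * ρ ≤ ρ₀ := by
      have := min_le_left (ρ₀ / 2) (m.R / 28)
      linarith
    have hρ2 : 28 * ρ ≤ m.R := by
      have := min_le_right (ρ₀ / 2) (m.R / 28)
      linarith
    obtain ⟨δ, hδ, hctl⟩ := local_control_z hεpos hn hD hDh m hρpos hρ2
    refine ⟨δ, hδ, m.disc ρ, m.disc_mem_nhds hρpos, fun t ht y hy => ?_⟩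
    refine hsub (m.disc_mono hρ1 ?_)
    refine (m.isCompact_disc _).isClosed.mem_of_tendsto (hΦ t y) ?_
    have h1 : ∀ᶠ i in (𝒰 : Filter ℕ), |(n t i : ℝ) * ε i| < δ :=
      (hnlim t).abs.eventually_lt_const ht
    filter_upwards [hctl, h1] with i hi1 hi2
    exact hi1 _ hi2.le y hy
  refine ⟨fun t x => Φ t x, ?_, hzero, hadd, fun t x => hcomm t (Φ t) (hΦaff t) (hΦ0 t) x⟩
  rw [continuous_iff_continuousAt]
  rintro ⟨t₀, x₀⟩
  rw [ContinuousAt, tendsto_def]
  intro O hO
  simp only at hO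
  obtain ⟨δ, hδ, V, hV, hVO⟩ := hcont0 _ O hO
  have h1 : ∀ᶠ t in 𝓝 t₀, |t - t₀| < δ := by
    have h2 : Tendsto (fun t => |t - t₀|) (𝓝 t₀) (𝓝 |t₀ - t₀|) :=
      ((continuous_id.sub continuous_const).abs).tendsto t₀
    rw [sub_self, abs_zero] at h2
    exact h2.eventually_lt_const hδ
  have h2 : ∀ᶠ x in 𝓝 x₀, Φ t₀ x ∈ V := ((Φ t₀).continuous.tendsto x₀) hV
  rw [nhds_prod_eq]
  filter_upwards [h1.prod_mk h2] with q hq
  have h3 := hVO (q.1 - t₀) hq.1 _ hq.2
  rw [← hadd, sub_add_cancel] at h3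
  exact h3

/-- the inverse of the linear coordinate change -/
lemma nhds_le_map_act (P : GL (Fin 2) ℝ) (w : ℂ) :
    𝓝 ((act P w).re, (act P w).im) ≤ map (fun w : ℂ => ((act P w).re, (act P w).im)) (𝓝 w) := by
  set G' : ℝ × ℝ → ℂ := fun q => act P⁻¹ ⟨q.1, q.2⟩ with hG'
  have hc : Continuous G' := by
    have e : G' = fun q => ((P⁻¹ 0 0 * q.1 + P⁻¹ 0 1 * q.2 : ℝ) : ℂ) +
        ((P⁻¹ 1 0 * q.1 + P⁻¹ 1 1 * q.2 : ℝ) : ℂ) * Complex.I := by
      ext q
      apply Complex.ext <;> simp [hG', act]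
    rw [e]
    fun_prop
  have h1 : G' ((act P w).re, (act P w).im) = w := by
    simp only [hG']
    exact act_inv_act P w
  intro V hV
  have h2 := hc.tendsto ((act P w).re, (act P w).im)
  rw [h1] at h2
  have h3 := h2 (mem_map.1 hV)
  filter_upwards [h3] with q hq
  have h4 : ((act P (G' q)).re, (act P (G' q)).im) = q := by
    simp only [hG', act_act_inv]
  have h5 : ((act P (G' q)).re, (act P (G' q)).im) ∈ V := hq
  rwa [h4] at h5

lemma hu_eq_one_of_notMem {p : Ladder} (hp : p ∉ K₀) : hu p = 1 := by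
  have h1 : 1 / 4 ≤ |xc p| := by
    by_contra hcon
    push Not at hcon
    rw [abs_lt] at hcon
    exact hp ⟨by linarith [hcon.1], by linarith [hcon.2]⟩
  simp only [hu, ContinuousMap.coe_mk, exp_clampf_of_abs h1, ite_self]

/-- there are no hyperbolic one-parameter groups of zero flux -/
theorem no_hyperbolic {B : Matrix (Fin 2) (Fin 2) ℝ} (hB : B ∈ tang (veechZero ω)) :
    0 ≤ B 0 0 * B 1 1 - B 0 1 * B 1 0 := by
  by_contra hneg
  push Not at hneg
  obtain ⟨P, lam, mu, hlam, hmu, heig⟩ := exists_diag hneg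
  set E : Eig B := ⟨P, lam, mu, hlam, hmu, fun t z => (heig t z).1, fun t z => (heig t z).2⟩
  obtain ⟨D, hD, hcomm⟩ := exists_hyp_dev E hB
  obtain ⟨Φ, hΦc, hΦ0, hΦadd, hΦD⟩ := exists_flow hB hD hcomm
  -- cone points are zeros of `D`
  have hsing : ∀ x ∈ ω.sing, D x = 0 := by
    intro x hx
    set 𝒰 : Ultrafilter ℕ := Filter.hyperfilter ℕ with h𝒰
    have h𝒰le : (𝒰 : Filter ℕ) ≤ atTop := by
      rw [← Nat.cofinite_eq_atTop]
      exact Filter.hyperfilter_le_cofinite
    have hε0 : Tendsto (fun n : ℕ => 1 / ((n : ℝ) + 1)) 𝒰 (𝓝 0) :=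
      tendsto_one_div_add_atTop_nhds_zero_nat.mono_left h𝒰le
    obtain ⟨h, hn, h0⟩ := exists_nearId hB hε0
    obtain ⟨m⟩ := exists_model ω x
    have h1 : ∀ᶠ i in (𝒰 : Filter ℕ), h i x ∈ m.disc 1 :=
      hn.pt x (m.disc_mem_nhds one_pos)
    obtain ⟨i, hi⟩ := h1.exists
    have h2 : h i x = x := by
      by_contra hne
      exact m.reg _ hi.1 hne (((hn.aff i).mem_iff x).2 hx)
    have h3 := hcomm _ _ (hn.aff i) (h0 i) x
    rw [h2] at h3
    exact E.fixed (t := 1 / ((i : ℝ) + 1)) (by positivity) h3.symm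
  have hPc : Continuous fun w : ℂ => act P w := by
    have e : (fun w : ℂ => act P w) = fun w => ((P 0 0 * w.re + P 0 1 * w.im : ℝ) : ℂ) +
        ((P 1 0 * w.re + P 1 1 * w.im : ℝ) : ℂ) * Complex.I := by
      ext w
      apply Complex.ext <;> simp [act]
    rw [e]
    have h1 := Complex.continuous_re
    have h2 := Complex.continuous_im
    fun_prop
  have hD0 : ∀ x, ((act P (D x)).re ≠ 0 ∨ (act P (D x)).im ≠ 0) → D x ≠ 0 := by
    intro x hx h0
    rw [h0, act_zero] at hx
    simp at hx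
  have hreg : ∀ x, D x ≠ 0 → ∃ m : Model ω x, m.k = 1 := by
    intro x hx
    obtain ⟨e, he, hxe⟩ := ω.covers x (fun hs => hx (hsing x hs))
    obtain ⟨m, hm, -, -⟩ := exists_model_reg he hxe
    exact ⟨m, hm⟩
  set H : Hyp Ladder :=
    { X := fun x => (act P (D x)).re
      Y := fun x => (act P (D x)).im
      lam := lam
      mu := mu
      hlam := hlam
      hmu := hmu
      φ := Φ
      cX := Complex.continuous_re.comp (hPc.comp hD.cont)
      cY := Complex.continuous_im.comp (hPc.comp hD.cont)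
      cφ := hΦc
      φ0 := hΦ0
      φadd := hΦadd
      eX := fun t x => by rw [hΦD, E.re]
      eY := fun t x => by rw [hΦD, E.im]
      inj := by
        intro x hx
        obtain ⟨m, hm⟩ := hreg x (hD0 x hx)
        refine ⟨m.disc (m.R / 4), m.disc_mem_nhds (by have := m.R_pos; positivity), ?_⟩
        intro a ha b hb hab
        simp only [Prod.mk.injEq] at hab
        have h1 : D a = D b := act_injective P (Complex.ext hab.1 hab.2)
        rw [hD x m a ha, hD x m b hb, hm, pow_one, pow_one] at h1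
        exact m.φ.injOn ha.1 hb.1 (add_left_cancel h1)
      opn := by
        intro x hx
        obtain ⟨m, hm⟩ := hreg x (hD0 x hx)
        have h1 : 𝓝 (D x) ≤ map D (𝓝 x) := by
          have h2 : D =ᶠ[𝓝 x] fun y => D x + m.φ y := by
            filter_upwards [m.disc_mem_nhds (ρ := m.R / 4) (by have := m.R_pos; positivity)]
              with y hy
            rw [hD x m y hy, hm, pow_one]
          rw [Filter.map_congr h2]
          have h3 : map (fun y => D x + m.φ y) (𝓝 x) = map (fun w => D x + w) (map m.φ (𝓝 x)) := by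
            rw [map_map]
            rfl
          rw [h3, m.φ.map_nhds_eq m.mem, m.zero]
          have h4 : map (fun w => D x + w) (𝓝 0) = 𝓝 (D x + 0) :=
            (Homeomorph.addLeft (D x)).map_nhds_eq 0
          rw [h4, add_zero]
        have h5 := nhds_le_map_act P (D x)
        refine h5.trans ?_
        have h6 := map_mono (m := fun w : ℂ => ((act P w).re, (act P w).im)) h1
        rw [map_map] at h6
        exact h6 } with hH
  have hlc : LocallyConnectedSpace Ladder := locallyConnected_of ω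
  obtain ⟨δ, hδ, hbox⟩ := H.exists_box hu (isCompact_slab _ _ : IsCompact K₀)
    (fun x hx => hu_eq_one_of_notMem hx) (by
      intro z hz1 hz2
      have hz : D z = 0 := by
        apply act_injective P
        rw [act_zero]
        exact Complex.ext hz1 hz2
      obtain ⟨m⟩ := exists_model ω z
      obtain ⟨N, h1, h2, h3, h4, h5⟩ := exists_good_nhds m.mem
        (m.disc_mem_nhds (ρ := m.R / 4) (by have := m.R_pos; positivity))
      have hcl : closure N ⊆ m.disc (m.R / 4) :=
        closure_minimal h4 (m.isCompact_disc _).isClosed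
      refine ⟨N, h1, h3, h5 hu, ?_, ?_⟩
      · exact (m.isCompact_disc (m.R / 4)).of_isClosed_subset isClosed_frontier
          (frontier_subset_closure.trans hcl)
      · intro y hy
        by_contra hcon
        push Not at hcon
        have hy0 : D y = 0 := by
          apply act_injective P
          rw [act_zero]
          exact Complex.ext hcon.1 hcon.2
        have hyd := hcl (frontier_subset_closure hy)
        rw [hD z m y hyd, hz, zero_add] at hy0
        have hφ0 : m.φ y = 0 := pow_eq_zero_iff m.hk |>.1 hy0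
        have hyz : y = z := m.φ.injOn hyd.1 m.mem (by rw [hφ0, m.zero])
        rw [h1.frontier_eq, hyz] at hy
        exact hy.2 h3)
  exact not_isSq_hu ((H.isSq_univ hu hδ hbox).mono (subset_univ _))

end LadderVeech
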