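import Pool.Agent.LadderVeech.Basic

open Set Filter Topology

namespace LadderVeech

variable {S : Type*} [TopologicalSpace S]

/-- `p` and `q` are joined by a straight segment with holonomy `v`, singular at most at
the end points (or are equal and `v = 0`). -/
def Seg (ω : TranslationStructure S) (p : S) (v : ℂ) (q : S) : Prop :=
  (p = q ∧ v = 0) ∨ ∃ γ : ℝ → S, ContinuousOn γ (Icc 0 1) ∧ γ 0 = p ∧ γ 1 = q ∧
    ∀ t ∈ Ioo (0:ℝ) 1, γ t ∉ ω.sing ∧ ∀ e ∈ ω.atlas, γ t ∈ e.source →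
      ∀ᶠ s in 𝓝 t, e (γ s) = e (γ t) + ((s - t : ℝ) : ℂ) * v

variable {ω : TranslationStructure S}

lemma Seg.symm {p q : S} {v : ℂ} (h : Seg ω p v q) : Seg ω q (-v) p := by
  rcases h with ⟨rfl, rfl⟩ | ⟨γ, hγ, h0, h1, hloc⟩
  · exact Or.inl ⟨rfl, by simp⟩
  · refine Or.inr ⟨fun t => γ (1 - t), ?_, by simpa using h1, by simpa using h0, ?_⟩
    · refine hγ.comp (by fun_prop) ?_
      intro t ht
      simp only [mem_Icc] at ht ⊢
      constructor <;> linarith [ht.1, ht.2]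
    · intro t ht
      have ht' : 1 - t ∈ Ioo (0:ℝ) 1 := by
        simp only [mem_Ioo] at ht ⊢
        constructor <;> linarith [ht.1, ht.2]
      obtain ⟨h2, h3⟩ := hloc _ ht'
      refine ⟨h2, fun e he hte => ?_⟩
      have h4 := h3 e he hte
      have h5 : Tendsto (fun s : ℝ => 1 - s) (𝓝 t) (𝓝 (1 - t)) :=
        (continuous_const.sub continuous_id).tendsto t
      filter_upwards [h5.eventually h4] with s hs
      rw [hs]
      push_cast
      ring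

lemma Seg.map {f : S ≃ₜ S} {A : GL (Fin 2) ℝ} (hf : IsAffine ω f A) {p q : S} {v : ℂ}
    (h : Seg ω p v q) : Seg ω (f p) (act A v) (f q) := by
  rcases h with ⟨rfl, rfl⟩ | ⟨γ, hγ, h0, h1, hloc⟩
  · exact Or.inl ⟨rfl, act_zero A⟩
  · refine Or.inr ⟨fun t => f (γ t), f.continuous.comp_continuousOn hγ, by simp [h0],
      by simp [h1], ?_⟩
    intro t ht
    obtain ⟨h2, h3⟩ := hloc _ ht
    refine ⟨by simpa [hf.mem_iff] using h2, fun e' he' hte' => ?_⟩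
    obtain ⟨e, he, hte⟩ := ω.covers _ h2
    obtain ⟨c, hc⟩ := hf.2 _ h2 e he hte e' he' hte'
    have hγt : ContinuousAt γ t := hγ.continuousAt (Icc_mem_nhds ht.1 ht.2)
    have h6 := hγt.eventually hc
    filter_upwards [h3 e he hte, h6] with s hs hs'
    have h7 : e' (f (γ t)) = act A (e (γ t)) + c := hc.self_of_nhds
    rw [hs', h7, hs, act_add, act_real_mul]
    ring

/-- A local model at `p`: a topological coordinate `φ` centred at `p` such that the flat charts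
away from `Σ` are `φ ^ k + c`. -/
structure Model (ω : TranslationStructure S) (p : S) where
  k : ℕ
  hk : k ≠ 0
  φ : OpenPartialHomeomorph S ℂ
  mem : p ∈ φ.source
  zero : φ p = 0
  reg : ∀ q ∈ φ.source, q ≠ p → q ∉ ω.sing
  chart : ∀ q ∈ φ.source, q ∉ ω.sing → ∀ e ∈ ω.atlas, q ∈ e.source →
    ∃ c : ℂ, ∀ᶠ q' in 𝓝 q, e q' = φ q' ^ k + c
  r : ℝ
  hr : 0 < r
  ball : Metric.closedBall (0:ℂ) r ⊆ φ.target

lemma exists_closedBall (φ : OpenPartialHomeomorph S ℂ) (p : S) (hp : p ∈ φ.source)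
    (h0 : φ p = 0) : ∃ r : ℝ, 0 < r ∧ Metric.closedBall (0:ℂ) r ⊆ φ.target := by
  have h : φ.target ∈ 𝓝 (0:ℂ) := by
    rw [← h0]
    exact φ.open_target.mem_nhds (φ.map_source hp)
  obtain ⟨ε, hε, hsub⟩ := Metric.mem_nhds_iff.1 h
  exact ⟨ε / 2, by linarith, (Metric.closedBall_subset_ball (by linarith)).trans hsub⟩

/-- translate a chart -/
noncomputable def shift (e : OpenPartialHomeomorph S ℂ) (c : ℂ) : OpenPartialHomeomorph S ℂ :=
  e.trans (Homeomorph.addRight c).toOpenPartialHomeomorph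

lemma shift_apply (e : OpenPartialHomeomorph S ℂ) (c : ℂ) (q : S) : shift e c q = e q + c := by
  simp [shift]

lemma shift_source (e : OpenPartialHomeomorph S ℂ) (c : ℂ) : (shift e c).source = e.source := by
  simp [shift]

lemma exists_model_reg {p : S} {e : OpenPartialHomeomorph S ℂ}
    (he : e ∈ ω.atlas) (hpe : p ∈ e.source) :
    ∃ m : Model ω p, m.k = 1 ∧ m.φ.source = e.source ∧ ∀ q, m.φ q = e q - e p := by
  obtain ⟨r, hr, hball⟩ := exists_closedBall (shift e (-e p)) p (by rwa [shift_source])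
    (by rw [shift_apply]; ring)
  refine ⟨⟨1, one_ne_zero, shift e (-e p), by rwa [shift_source], by rw [shift_apply]; ring,
    ?_, ?_, r, hr, hball⟩, rfl, shift_source _ _, fun q => ?_⟩
  · intro q hq _
    rw [shift_source] at hq
    exact ω.source_subset e he hq
  · intro q hq hqs e' he' hqe'
    rw [shift_source] at hq
    obtain ⟨c, hc⟩ := ω.compatible e he e' he' q ⟨hq, hqe'⟩
    refine ⟨c + e p, ?_⟩
    filter_upwards [hc] with q' hq'
    rw [hq', shift_apply]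
    ring
  · simp only [shift_apply]
    ring

lemma exists_model (ω : TranslationStructure S) (p : S) : Nonempty (Model ω p) := by
  by_cases hp : p ∈ ω.sing
  · obtain ⟨k, hk, φ, hpφ, h0, h⟩ := ω.cone p hp
    obtain ⟨r, hr, hball⟩ := exists_closedBall φ p hpφ h0
    refine ⟨⟨k, by omega, φ, hpφ, h0, fun q hq hne => (h q hq hne).1, ?_, r, hr, hball⟩⟩
    intro q hq hqs e he hqe
    have hne : q ≠ p := by
      rintro rfl
      exact hqs hp
    exact (h q hq hne).2 e he hqe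
  · obtain ⟨e, he, hpe⟩ := ω.covers p hp
    obtain ⟨m, _⟩ := exists_model_reg he hpe
    exact ⟨m⟩

namespace Model

variable {p : S} (m : Model ω p)

/-- the flat radius -/
def R : ℝ := m.r ^ m.k

lemma R_pos : 0 < m.R := pow_pos m.hr _

/-- the closed flat disc of radius `ρ` -/
def disc (ρ : ℝ) : Set S := {q | q ∈ m.φ.source ∧ ‖m.φ q‖ ≤ m.r ∧ ‖m.φ q‖ ^ m.k ≤ ρ}

lemma disc_mono {ρ ρ' : ℝ} (h : ρ ≤ ρ') : m.disc ρ ⊆ m.disc ρ' :=
  fun _ hq => ⟨hq.1, hq.2.1, hq.2.2.trans h⟩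

lemma disc_eq_image (ρ : ℝ) :
    m.disc ρ = m.φ.symm '' {z : ℂ | ‖z‖ ≤ m.r ∧ ‖z‖ ^ m.k ≤ ρ} := by
  ext q
  constructor
  · rintro ⟨h1, h2, h3⟩
    exact ⟨m.φ q, ⟨h2, h3⟩, m.φ.left_inv h1⟩
  · rintro ⟨z, ⟨h1, h2⟩, rfl⟩
    have hz : z ∈ m.φ.target := m.ball (by simpa using h1)
    refine ⟨m.φ.map_target hz, ?_, ?_⟩
    · rwa [m.φ.right_inv hz]
    · rwa [m.φ.right_inv hz]

lemma isCompact_disc (ρ : ℝ) : IsCompact (m.disc ρ) := by
  rw [disc_eq_image]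
  have hK : IsCompact {z : ℂ | ‖z‖ ≤ m.r ∧ ‖z‖ ^ m.k ≤ ρ} := by
    have h1 : {z : ℂ | ‖z‖ ≤ m.r ∧ ‖z‖ ^ m.k ≤ ρ} =
        Metric.closedBall (0:ℂ) m.r ∩ {z | ‖z‖ ^ m.k ≤ ρ} := by
      ext z; simp
    rw [h1]
    refine (isCompact_closedBall _ _).inter_right ?_
    exact isClosed_le (by fun_prop) continuous_const
  refine hK.image_of_continuousOn (m.φ.symm.continuousOn.mono ?_)
  rintro z ⟨hz, -⟩
  exact m.ball (by simpa using hz)

lemma disc_mem_nhds {ρ : ℝ} (hρ : 0 < ρ) : m.disc ρ ∈ 𝓝 p := by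
  have h1 : m.φ.source ∈ 𝓝 p := m.φ.open_source.mem_nhds m.mem
  have hc : ContinuousAt m.φ p := m.φ.continuousAt m.mem
  have h2 : ∀ᶠ q in 𝓝 p, ‖m.φ q‖ < m.r := by
    have : Tendsto (fun q => ‖m.φ q‖) (𝓝 p) (𝓝 ‖m.φ p‖) := hc.norm
    rw [m.zero, norm_zero] at this
    exact this.eventually_lt_const m.hr
  have h3 : ∀ᶠ q in 𝓝 p, ‖m.φ q‖ ^ m.k < ρ := by
    have : Tendsto (fun q => ‖m.φ q‖ ^ m.k) (𝓝 p) (𝓝 (‖m.φ p‖ ^ m.k)) := hc.norm.pow _
    rw [m.zero, norm_zero, zero_pow m.hk] at this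
    exact this.eventually_lt_const hρ
  filter_upwards [h1, h2, h3] with q hq1 hq2 hq3
  exact ⟨hq1, hq2.le, hq3.le⟩

lemma disc_basis {O : Set S} (hO : O ∈ 𝓝 p) : ∃ ρ : ℝ, 0 < ρ ∧ ρ < m.R ∧ m.disc ρ ⊆ O := by
  have h1 : m.φ.symm ⁻¹' O ∈ 𝓝 (0:ℂ) := by
    have h0 : (0:ℂ) ∈ m.φ.target := m.ball (by simpa using m.hr.le)
    have h2 : ContinuousAt m.φ.symm 0 := m.φ.symm.continuousAt h0
    refine h2.preimage_mem_nhds ?_
    have h3 : m.φ.symm 0 = p := by rw [← m.zero, m.φ.left_inv m.mem]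
    rwa [h3]
  obtain ⟨ε, hε, hsub⟩ := Metric.mem_nhds_iff.1 h1
  refine ⟨min ((ε / 2) ^ m.k) (m.R / 2), lt_min (by positivity) (by linarith [m.R_pos]), ?_, ?_⟩
  · exact (min_le_right _ _).trans_lt (by linarith [m.R_pos])
  rintro q ⟨hq1, hq2, hq3⟩
  have h4 : ‖m.φ q‖ ^ m.k ≤ (ε / 2) ^ m.k := hq3.trans (min_le_left _ _)
  have h5 : ‖m.φ q‖ ≤ ε / 2 := by
    by_contra hcon
    push Not at hcon
    have := pow_lt_pow_left₀ hcon (by positivity) m.hk
    linarith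
  have h6 : m.φ q ∈ Metric.ball (0:ℂ) ε := by
    simp only [Metric.mem_ball, dist_zero_right]
    linarith
  have h7 := hsub h6
  simpa [m.φ.left_inv hq1] using h7

lemma norm_lt_of_pow_lt {q : S} (h : ‖m.φ q‖ ^ m.k < m.R) : ‖m.φ q‖ < m.r := by
  by_contra hcon
  push Not at hcon
  have := pow_le_pow_left₀ m.hr.le hcon m.k
  unfold R at h
  linarith

/-- star shape -/
lemma seg_of_mem {q : S} {ρ : ℝ} (hq : q ∈ m.disc ρ) : Seg ω p (m.φ q ^ m.k) q := by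
  obtain ⟨h1, h2, h3⟩ := hq
  by_cases h0 : m.φ q = 0
  · left
    refine ⟨?_, by rw [h0, zero_pow m.hk]⟩
    rw [← m.φ.left_inv h1, h0, ← m.zero, m.φ.left_inv m.mem]
  right
  have hkR : (0:ℝ) < 1 / (m.k:ℝ) := by
    have : (0:ℝ) < m.k := by exact_mod_cast Nat.pos_of_ne_zero m.hk
    positivity
  have htar : ∀ t ∈ Icc (0:ℝ) 1, ((t ^ (1 / (m.k:ℝ)) : ℝ) : ℂ) * m.φ q ∈ m.φ.target := by
    intro t ht
    apply m.ball
    simp only [mem_closedBall_zero_iff, norm_mul, Complex.norm_real, Real.norm_eq_abs]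
    have h4 : |t ^ (1 / (m.k:ℝ))| ≤ 1 := by
      rw [abs_of_nonneg (Real.rpow_nonneg ht.1 _)]
      exact Real.rpow_le_one ht.1 ht.2 hkR.le
    calc |t ^ (1 / (m.k:ℝ))| * ‖m.φ q‖ ≤ 1 * ‖m.φ q‖ := by gcongr
      _ ≤ m.r := by linarith
  have hpow : ∀ t, 0 ≤ t → (((t ^ (1 / (m.k:ℝ)) : ℝ) : ℂ) * m.φ q) ^ m.k
      = (t:ℂ) * m.φ q ^ m.k := by
    intro t ht
    rw [mul_pow]
    congr 1
    rw [← Complex.ofReal_pow, ← Real.rpow_natCast, ← Real.rpow_mul ht, one_div,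
      inv_mul_cancel₀ (by exact_mod_cast m.hk), Real.rpow_one]
  refine ⟨fun t => m.φ.symm (((t ^ (1 / (m.k:ℝ)) : ℝ) : ℂ) * m.φ q), ?_, ?_, ?_, ?_⟩
  · refine m.φ.symm.continuousOn.comp ?_ htar
    refine ContinuousOn.mul ?_ continuousOn_const
    refine Complex.continuous_ofReal.comp_continuousOn ?_
    exact (Real.continuous_rpow_const hkR.le).continuousOn
  · simp only [Real.zero_rpow hkR.ne', Complex.ofReal_zero, zero_mul]
    rw [← m.zero, m.φ.left_inv m.mem]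
  · simp [m.φ.left_inv h1]
  · intro t ht
    have htI : t ∈ Icc (0:ℝ) 1 := ⟨ht.1.le, ht.2.le⟩
    set z : ℂ := ((t ^ (1 / (m.k:ℝ)) : ℝ) : ℂ) * m.φ q with hz
    have hz0 : z ≠ 0 := by
      refine mul_ne_zero ?_ h0
      exact_mod_cast (Real.rpow_pos_of_pos ht.1 _).ne'
    have hzt : z ∈ m.φ.target := htar t htI
    have hne : m.φ.symm z ≠ p := by
      intro hcon
      apply hz0
      rw [← m.φ.right_inv hzt, hcon, m.zero]
    have hsrc := m.φ.map_target hzt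
    have hns := m.reg _ hsrc hne
    refine ⟨hns, fun e he hte => ?_⟩
    obtain ⟨c, hc⟩ := m.chart _ hsrc hns e he hte
    have hcont : ContinuousAt (fun t : ℝ => m.φ.symm (((t ^ (1 / (m.k:ℝ)) : ℝ) : ℂ) * m.φ q)) t := by
      refine ContinuousAt.comp (g := m.φ.symm) (m.φ.symm.continuousAt hzt) ?_
      refine ContinuousAt.mul ?_ continuousAt_const
      exact (Complex.continuous_ofReal.comp (Real.continuous_rpow_const hkR.le)).continuousAt
    have h8 := hcont.eventually hc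
    have h9 : ∀ᶠ s in 𝓝 t, s ∈ Ioo (0:ℝ) 1 := Ioo_mem_nhds ht.1 ht.2
    filter_upwards [h8, h9] with s hs hs1
    have h10 := hc.self_of_nhds
    rw [hs, h10, m.φ.right_inv hzt, m.φ.right_inv (htar s ⟨hs1.1.le, hs1.2.le⟩), hz,
      hpow t ht.1.le, hpow s hs1.1.le]
    push_cast
    ring

/-- along a segment inside the domain of the model, `φ ^ k` is affine -/
lemma pow_eq_of_forall_mem {γ : ℝ → S} {v : ℂ} (hγ : ContinuousOn γ (Icc 0 1))
    (hloc : ∀ t ∈ Ioo (0:ℝ) 1, γ t ∉ ω.sing ∧ ∀ e ∈ ω.atlas, γ t ∈ e.source →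
      ∀ᶠ s in 𝓝 t, e (γ s) = e (γ t) + ((s - t : ℝ) : ℂ) * v)
    {t : ℝ} (ht : t ∈ Icc (0:ℝ) 1) (hU : ∀ s ∈ Icc 0 t, γ s ∈ m.φ.source) :
    m.φ (γ t) ^ m.k = m.φ (γ 0) ^ m.k + (t:ℂ) * v := by
  rcases eq_or_lt_of_le ht.1 with h0 | h0
  · rw [← h0]; simp
  set g : ℝ → ℂ := fun s => m.φ (γ s) ^ m.k - (s:ℂ) * v with hg
  have hgc : ContinuousOn g (Icc 0 t) := by
    refine ContinuousOn.sub (ContinuousOn.pow ?_ _) ?_
    · refine m.φ.continuousOn.comp (hγ.mono (Icc_subset_Icc_right ht.2)) ?_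
      exact fun s hs => hU s hs
    · exact (Complex.continuous_ofReal.mul continuous_const).continuousOn
  have hder : ∀ x ∈ Ioo (0:ℝ) t, HasDerivAt g 0 x := by
    intro x hx
    have hx1 : x ∈ Ioo (0:ℝ) 1 := ⟨hx.1, hx.2.trans_le ht.2⟩
    obtain ⟨hns, hch⟩ := hloc x hx1
    obtain ⟨e, he, hxe⟩ := ω.covers _ hns
    obtain ⟨c, hc⟩ := m.chart _ (hU x ⟨hx.1.le, hx.2.le⟩) hns e he hxe
    have hγx : ContinuousAt γ x := hγ.continuousAt (Icc_mem_nhds hx1.1 hx1.2)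
    have h1 := hγx.eventually hc
    have h2 := hc.self_of_nhds
    have h3 : g =ᶠ[𝓝 x] fun _ => g x := by
      filter_upwards [h1, hch e he hxe] with s hs hs'
      rw [hs, h2] at hs'
      have : m.φ (γ s) ^ m.k = m.φ (γ x) ^ m.k + ((s - x : ℝ) : ℂ) * v := by
        linear_combination hs'
      simp only [hg]
      rw [this]
      push_cast
      ring
    exact (hasDerivAt_const x (g x)).congr_of_eventuallyEq h3
  have hconst : ∀ ε ∈ Ioo 0 t, g t = g ε := by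
    intro ε hε
    have := constant_of_has_deriv_right_zero (f := g) (a := ε) (b := t)
      (hgc.mono (Icc_subset_Icc_left hε.1.le))
      (fun x hx => (hder x ⟨hε.1.trans_le hx.1, hx.2⟩).hasDerivWithinAt) t ⟨hε.2.le, le_rfl⟩
    exact this
  have hlim : Tendsto g (𝓝[Ioo 0 t] 0) (𝓝 (g 0)) :=
    ((hgc 0 ⟨le_rfl, h0.le⟩).mono Ioo_subset_Icc_self).tendsto
  have hne : (𝓝[Ioo (0:ℝ) t] 0).NeBot := left_nhdsWithin_Ioo_neBot h0
  have h4 : Tendsto g (𝓝[Ioo 0 t] 0) (𝓝 (g t)) := by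
    refine tendsto_const_nhds.congr' ?_
    filter_upwards [self_mem_nhdsWithin] with ε hε
    exact hconst ε hε
  have h5 : g t = g 0 := tendsto_nhds_unique h4 hlim
  simp only [hg] at h5
  push_cast at h5
  linear_combination h5

/-- trapping lemma -/
lemma trap [T2Space S] {q q' : S} {v : ℂ} {ρ : ℝ} (hq : q ∈ m.disc ρ) (h : Seg ω q v q')
    (hR : ρ + ‖v‖ < m.R) : q' ∈ m.disc (ρ + ‖v‖) ∧ m.φ q' ^ m.k = m.φ q ^ m.k + v := by
  rcases h with ⟨rfl, rfl⟩ | ⟨γ, hγ, h0, h1, hloc⟩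
  · refine ⟨m.disc_mono (by simp) hq, by simp⟩
  set U : Set S := {x | x ∈ m.φ.source ∧ ‖m.φ x‖ < m.r} with hUdef
  have hUopen : IsOpen U := by
    have : U = m.φ.source ∩ m.φ ⁻¹' (Metric.ball 0 m.r) := by
      ext x; simp [hUdef]
    rw [this]
    exact m.φ.isOpen_inter_preimage Metric.isOpen_ball
  have hρq : ‖m.φ q‖ ^ m.k ≤ ρ := hq.2.2
  have hq0 : q ∈ U := by
    refine ⟨hq.1, m.norm_lt_of_pow_lt ?_⟩
    have := norm_nonneg v
    linarith
  have key : ∀ t ∈ Icc (0:ℝ) 1, (∀ s ∈ Icc 0 t, γ s ∈ U) →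
      γ t ∈ m.disc (ρ + ‖v‖) ∧ m.φ (γ t) ^ m.k = m.φ q ^ m.k + (t:ℂ) * v := by
    intro t ht hs
    have h2 := m.pow_eq_of_forall_mem hγ hloc ht (fun s hs' => (hs s hs').1)
    rw [h0] at h2
    refine ⟨⟨(hs t ⟨ht.1, le_rfl⟩).1, (hs t ⟨ht.1, le_rfl⟩).2.le, ?_⟩, h2⟩
    rw [← norm_pow, h2]
    refine (norm_add_le _ _).trans ?_
    rw [norm_pow, norm_mul, Complex.norm_real, Real.norm_eq_abs, abs_of_nonneg ht.1]
    have : t * ‖v‖ ≤ 1 * ‖v‖ := by
      have := norm_nonneg v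
      gcongr
      exact ht.2
    linarith
  have hall : ∀ t ∈ Icc (0:ℝ) 1, γ t ∈ U := by
    by_contra hcon
    push Not at hcon
    set C : Set ℝ := Icc (0:ℝ) 1 ∩ γ ⁻¹' Uᶜ with hC
    have hCne : C.Nonempty := by
      obtain ⟨t, ht, htU⟩ := hcon
      exact ⟨t, ht, htU⟩
    have hCcl : IsClosed C := hγ.preimage_isClosed_of_isClosed isClosed_Icc hUopen.isClosed_compl
    have hCbdd : BddBelow C := ⟨0, fun x hx => hx.1.1⟩
    have ht0 := hCcl.csInf_mem hCne hCbdd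
    set t₀ := sInf C with ht₀
    have ht₀pos : 0 < t₀ := by
      rcases eq_or_lt_of_le ht0.1.1 with h | h
      · exfalso
        have := ht0.2
        rw [← h] at this
        rw [mem_preimage, h0] at this
        exact this hq0
      · exact h
    have hlt : ∀ t ∈ Ico 0 t₀, γ t ∈ U := by
      intro t ht
      by_contra hcon2
      have : t ∈ C := ⟨⟨ht.1, ht.2.le.trans ht0.1.2⟩, hcon2⟩
      have := csInf_le hCbdd this
      linarith [ht.2]
    have hdisc : ∀ t ∈ Ioo 0 t₀, γ t ∈ m.disc (ρ + ‖v‖) := by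
      intro t ht
      exact (key t ⟨ht.1.le, ht.2.le.trans ht0.1.2⟩
        (fun s hs => hlt s ⟨hs.1, hs.2.trans_lt ht.2⟩)).1
    have hcl : γ t₀ ∈ m.disc (ρ + ‖v‖) := by
      have hlim : Tendsto γ (𝓝[Ioo 0 t₀] t₀) (𝓝 (γ t₀)) :=
        ((hγ t₀ ht0.1).mono (fun x hx => ⟨hx.1.le, hx.2.le.trans ht0.1.2⟩)).tendsto
      have hne : (𝓝[Ioo 0 t₀] t₀).NeBot := right_nhdsWithin_Ioo_neBot ht₀pos
      refine (m.isCompact_disc _).isClosed.mem_of_tendsto hlim ?_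
      filter_upwards [self_mem_nhdsWithin] with t ht
      exact hdisc t ht
    have hmem : γ t₀ ∈ U := by
      refine ⟨hcl.1, m.norm_lt_of_pow_lt ?_⟩
      exact hcl.2.2.trans_lt hR
    exact ht0.2 hmem
  have hfin := key 1 ⟨by norm_num, le_rfl⟩ hall
  rw [h1] at hfin
  refine ⟨hfin.1, ?_⟩
  rw [hfin.2]
  simp

end Model

end LadderVeech
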