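import Mathlib

open Set Filter Topology

namespace LadderVeech

variable {X : Type*} [TopologicalSpace X]

/-- the circle valued map `u` has a continuous square root on `A` -/
def IsSq (u : X → Circle) (A : Set X) : Prop :=
  ∃ v : X → Circle, ContinuousOn v A ∧ ∀ p ∈ A, v p ^ 2 = u p

lemma IsSq.mono {u : X → Circle} {A B : Set X} (h : IsSq u B) (hAB : A ⊆ B) : IsSq u A := by
  obtain ⟨v, hv, hvu⟩ := h
  exact ⟨v, hv.mono hAB, fun p hp => hvu p (hAB hp)⟩

lemma IsSq.congr {u u' : X → Circle} {A : Set X} (h : IsSq u A) (huu : ∀ p ∈ A, u p = u' p) :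
    IsSq u' A := by
  obtain ⟨v, hv, hvu⟩ := h
  exact ⟨v, hv, fun p hp => by rw [hvu p hp, huu p hp]⟩

lemma sq_one_iff (c : Circle) : c ^ 2 = 1 ↔ c = 1 ∨ c = -1 := by
  constructor
  · intro h
    have h1 : ((c : ℂ) - 1) * ((c : ℂ) + 1) = 0 := by
      have : (c : ℂ) ^ 2 = 1 := by rw [← Circle.coe_pow, h, Circle.coe_one]
      linear_combination this
    rcases mul_eq_zero.1 h1 with h2 | h2
    · left
      apply Circle.coe_injective
      rw [Circle.coe_one]
      linear_combination h2
    · right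
      apply Circle.coe_injective
      rw [Circle.coe_neg, Circle.coe_one]
      linear_combination h2
  · rintro (rfl | rfl) <;> simp

lemma one_ne_neg_one_circle : (1 : Circle) ≠ -1 := by
  intro h
  have := congrArg (fun c : Circle => (c : ℂ)) h
  simp only [Circle.coe_neg, Circle.coe_one] at this
  norm_num [Complex.ext_iff] at this

lemma isDiscrete_sq_one : IsDiscrete {c : Circle | c ^ 2 = 1} := by
  apply Set.Finite.isDiscrete
  refine (Set.toFinite ({1, -1} : Set Circle)).subset ?_
  intro c hc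
  simpa using (sq_one_iff c).1 hc

/-- two square roots on a preconnected set differ by a constant sign -/
lemma sign_const {A : Set X} (hA : IsPreconnected A) {v w : X → Circle} (hv : ContinuousOn v A)
    (hw : ContinuousOn w A) (h : ∀ p ∈ A, v p ^ 2 = w p ^ 2) :
    ∃ c : Circle, c ^ 2 = 1 ∧ ∀ p ∈ A, v p = c * w p := by
  obtain ⟨c, hc, heq⟩ := hA.eqOn_const_of_mapsTo isDiscrete_sq_one (f := fun p => v p / w p)
    (hv.div' hw) (fun p hp => by
      simp only [mem_ofPred_eq, div_pow, h p hp, div_self']) ⟨1, by simp⟩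
  refine ⟨c, hc, fun p hp => ?_⟩
  have := heq hp
  simp only [Function.const_apply] at this
  rw [← this, div_mul_cancel]

/-- gluing square roots along a preconnected intersection -/
lemma IsSq.union {u : X → Circle} {A B : Set X} (hA : IsClosed A) (hB : IsClosed B)
    (hAB : IsPreconnected (A ∩ B)) (h1 : IsSq u A) (h2 : IsSq u B) : IsSq u (A ∪ B) := by
  classical
  obtain ⟨v, hv, hvu⟩ := h1
  obtain ⟨w, hw, hwu⟩ := h2
  obtain ⟨c, hc, hcv⟩ := sign_const hAB (hv.mono inter_subset_left) (hw.mono inter_subset_right)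
    (fun p hp => by rw [hvu p hp.1, hwu p hp.2])
  set g : X → Circle := fun p => if p ∈ A then v p else c * w p with hg
  have hgA : ∀ p ∈ A, g p = v p := fun p hp => by simp [hg, hp]
  have hgB : ∀ p ∈ B, g p = c * w p := by
    intro p hp
    by_cases hpA : p ∈ A
    · rw [hgA p hpA, hcv p ⟨hpA, hp⟩]
    · simp [hg, hpA]
  refine ⟨g, ?_, ?_⟩
  · refine ContinuousOn.union_of_isClosed ?_ ?_ hA hB
    · exact hv.congr hgA
    · exact (continuousOn_const.mul hw).congr hgB
  · rintro p (hp | hp)
    · rw [hgA p hp, hvu p hp]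
    · rw [hgB p hp, mul_pow, hc, one_mul, hwu p hp]

/-- the subgroup of circle valued maps with a continuous square root on `A` -/
def sqSub (A : Set X) : Subgroup C(X, Circle) where
  carrier := {u | IsSq u A}
  mul_mem' := by
    rintro u u' ⟨v, hv, hvu⟩ ⟨v', hv', hvu'⟩
    refine ⟨fun p => v p * v' p, hv.mul hv', fun p hp => ?_⟩
    simp only [ContinuousMap.mul_apply, mul_pow, hvu p hp, hvu' p hp]
  one_mem' := ⟨fun _ => 1, continuousOn_const, fun p _ => by simp⟩
  inv_mem' := by
    rintro u ⟨v, hv, hvu⟩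
    refine ⟨fun p => (v p)⁻¹, hv.inv, fun p hp => ?_⟩
    simp only [ContinuousMap.inv_apply, inv_pow, hvu p hp]

lemma mem_sqSub {A : Set X} {u : C(X, Circle)} : u ∈ sqSub A ↔ IsSq u A := Iff.rfl

lemma sqSub_anti {A B : Set X} (h : A ⊆ B) : (sqSub B : Subgroup C(X, Circle)) ≤ sqSub A :=
  fun _ hu => IsSq.mono hu h

lemma sq_mem_sqSub (A : Set X) (u : C(X, Circle)) : u ^ 2 ∈ sqSub A :=
  ⟨u, u.continuous.continuousOn, fun p _ => by simp⟩

lemma isInducing_circle : Topology.IsInducing (fun c : Circle => (c : ℂ)) :=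
  Topology.IsInducing.subtypeVal

/-- unit complex numbers as elements of the circle -/
def toC (z : ℂ) (hz : ‖z‖ = 1) : Circle := ⟨z, mem_sphere_zero_iff_norm.2 hz⟩

lemma coe_toC (z : ℂ) (hz : ‖z‖ = 1) : ((toC z hz : Circle) : ℂ) = z := rfl

lemma isSimplyConnected_ball (c : ℂ) {r : ℝ} (hr : 0 < r) :
    IsSimplyConnected (Metric.ball c r) := by
  have : ContractibleSpace (Metric.ball c r) :=
    (convex_ball c r).contractibleSpace (Metric.nonempty_ball.2 hr)
  change SimplyConnectedSpace (Metric.ball c r)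
  infer_instance

/-- small connected open sets on which every circle valued map has a square root -/
lemma exists_good_nhds {e : OpenPartialHomeomorph X ℂ} {p : X} (hp : p ∈ e.source) {O : Set X}
    (hO : O ∈ 𝓝 p) : ∃ N : Set X, IsOpen N ∧ IsPreconnected N ∧ p ∈ N ∧ N ⊆ O ∧
      ∀ u : C(X, Circle), IsSq u N := by
  have h1 : e.target ∩ e.symm ⁻¹' O ∈ 𝓝 (e p) := by
    have h2 : ContinuousAt e.symm (e p) := e.symm.continuousAt (e.map_source hp)
    refine inter_mem (e.open_target.mem_nhds (e.map_source hp)) (h2.preimage_mem_nhds ?_)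
    rwa [e.left_inv hp]
  obtain ⟨r, hr, hsub⟩ := Metric.mem_nhds_iff.1 h1
  have hN : e.symm '' Metric.ball (e p) r = e.source ∩ e ⁻¹' Metric.ball (e p) r := by
    ext q
    constructor
    · rintro ⟨z, hz, rfl⟩
      have hz' := (hsub hz).1
      refine ⟨e.map_target hz', ?_⟩
      rw [mem_preimage, e.right_inv hz']
      exact hz
    · rintro ⟨hq1, hq2⟩
      exact ⟨e q, hq2, e.left_inv hq1⟩
  refine ⟨e.symm '' Metric.ball (e p) r, ?_, ?_, ?_, ?_, ?_⟩
  · rw [hN]
    exact e.isOpen_inter_preimage Metric.isOpen_ball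
  · exact (convex_ball _ _).isPreconnected.image _ (e.symm.continuousOn.mono
      (fun z hz => (hsub hz).1))
  · exact ⟨e p, Metric.mem_ball_self hr, e.left_inv hp⟩
  · rintro _ ⟨z, hz, rfl⟩
    exact (hsub hz).2
  · intro u
    have hgc : ContinuousOn (fun z : ℂ => ((u (e.symm z) : Circle) : ℂ)) (Metric.ball (e p) r) := by
      refine isInducing_circle.continuous.comp_continuousOn ?_
      exact u.continuous.comp_continuousOn (e.symm.continuousOn.mono (fun z hz => (hsub hz).1))
    obtain ⟨f, hfc, hf⟩ := Complex.exists_continuousOn_pow_eq (isSimplyConnected_ball _ hr)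
      Metric.isOpen_ball hgc (by
        rintro ⟨z, -, hz⟩
        exact Circle.coe_ne_zero _ hz) two_ne_zero
    have hnorm : ∀ z, ‖f z‖ = 1 := by
      intro z
      have h3 : ‖f z‖ ^ 2 = 1 := by
        rw [← norm_pow, hf z]
        exact Circle.norm_coe _
      nlinarith [norm_nonneg (f z)]
    refine ⟨fun q => toC (f (e q)) (hnorm (e q)), ?_, ?_⟩
    · have h4 : ContinuousOn (fun q => f (e q)) (e.symm '' Metric.ball (e p) r) := by
        refine hfc.comp (e.continuousOn.mono ?_) ?_
        · rw [hN]; exact inter_subset_left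
        · rw [hN]; exact fun q hq => hq.2
      exact isInducing_circle.continuousOn_iff.2 h4
    · intro q hq
      rw [hN] at hq
      apply Circle.coe_injective
      simp only [Circle.coe_pow, coe_toC]
      rw [hf, e.left_inv hq.1]

end LadderVeech
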