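import Pool.Agent.LadderVeech.Sqrt

open Set Filter Topology

namespace LadderVeech

/-- The **ladder surface** (Jacob's ladder), as the smooth surface in `ℝ³` with equation
`z² = (4 - y²) (y² + sin²(π x) - 1/2)`: the double of the strip `|y| ≤ 2` with the
infinitely many holes `y² + sin²(π x) < 1/2` around the points `(n, 0)`, `n ∈ ℤ`.
It is connected and orientable, has exactly two ends (`x → -∞` and `x → +∞`), and each
hole contributes one handle, so both ends are accumulated by genus. -/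
abbrev Ladder : Type :=
  {p : ℝ × ℝ × ℝ // p.2.2 ^ 2 =
    (4 - p.2.1 ^ 2) * (p.2.1 ^ 2 + Real.sin (Real.pi * p.1) ^ 2 - 1 / 2)}

/-- the coordinate along the ladder -/
def xc (p : Ladder) : ℝ := p.1.1

/-- the transversal coordinate -/
def yc (p : Ladder) : ℝ := p.1.2.1

lemma continuous_xc : Continuous xc := continuous_fst.comp continuous_subtype_val

lemma continuous_yc : Continuous yc :=
  (continuous_fst.comp continuous_snd).comp continuous_subtype_val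

lemma ladder_bounds {x y z : ℝ}
    (h : z ^ 2 = (4 - y ^ 2) * (y ^ 2 + Real.sin (Real.pi * x) ^ 2 - 1 / 2)) :
    y ^ 2 ≤ 4 ∧ 0 ≤ y ^ 2 + Real.sin (Real.pi * x) ^ 2 - 1 / 2 := by
  have hs := sq_nonneg (Real.sin (Real.pi * x))
  have hz := sq_nonneg z
  have hy : y ^ 2 ≤ 4 := by
    by_contra hcon
    push Not at hcon
    nlinarith
  refine ⟨hy, ?_⟩
  rcases eq_or_lt_of_le hy with h4 | h4
  · rw [h4]; linarith
  · by_contra hcon
    push Not at hcon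
    nlinarith

lemma isClosed_ladder : IsClosed {p : ℝ × ℝ × ℝ | p.2.2 ^ 2 =
    (4 - p.2.1 ^ 2) * (p.2.1 ^ 2 + Real.sin (Real.pi * p.1) ^ 2 - 1 / 2)} :=
  isClosed_eq (by fun_prop) (by fun_prop)

/-- the part of the ladder over a compact interval is compact -/
lemma isCompact_slab (a b : ℝ) : IsCompact {p : Ladder | a ≤ xc p ∧ xc p ≤ b} := by
  have hemb : Topology.IsClosedEmbedding (Subtype.val : Ladder → ℝ × ℝ × ℝ) :=
    isClosed_ladder.isClosedEmbedding_subtypeVal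
  have hK : IsCompact (Icc a b ×ˢ (Icc (-2:ℝ) 2 ×ˢ Icc (-5:ℝ) 5)) :=
    isCompact_Icc.prod (isCompact_Icc.prod isCompact_Icc)
  have h := hemb.isCompact_preimage hK
  convert h using 1
  ext p
  obtain ⟨⟨x, y, z⟩, hp⟩ := p
  simp only [xc, mem_ofPred_eq, mem_preimage, mem_prod, mem_Icc]
  constructor
  · intro hx
    simp only at hp
    obtain ⟨h1, h2⟩ := ladder_bounds hp
    have h3 : Real.sin (Real.pi * x) ^ 2 ≤ 1 := Real.sin_sq_le_one _
    refine ⟨hx, ⟨by nlinarith, by nlinarith⟩, ?_⟩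
    have h4 : z ^ 2 ≤ 4 * 5 := by
      rw [hp]
      have := sq_nonneg y
      exact mul_le_mul (by linarith) (by linarith) h2 (by norm_num)
    constructor <;> nlinarith
  · intro hx
    exact hx.1

/-- the part of the ladder over `I`, as a subset of `ℝ³` -/
def slabR (I : Set ℝ) : Set (ℝ × ℝ × ℝ) := {p | p.2.2 ^ 2 =
    (4 - p.2.1 ^ 2) * (p.2.1 ^ 2 + Real.sin (Real.pi * p.1) ^ 2 - 1 / 2) ∧ p.1 ∈ I}

lemma sin_half_sq (n : ℤ) : Real.sin (Real.pi * ((n:ℝ) + 1 / 2)) ^ 2 = 1 := by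
  have h1 : Real.cos (Real.pi * ((n:ℝ) + 1 / 2)) = 0 := by
    rw [Real.cos_eq_zero_iff]
    exact ⟨n, by ring⟩
  have h2 := Real.sin_sq_add_cos_sq (Real.pi * ((n:ℝ) + 1 / 2))
  rw [h1] at h2
  linarith

lemma isPreconnected_slabR {I : Set ℝ} (hI : IsPreconnected I) (n : ℤ)
    (hn : (n:ℝ) + 1 / 2 ∈ I) : IsPreconnected (slabR I) := by
  -- the lines `y = ± 2`, `z = 0`
  have hline : ∀ σ : ℝ, σ ^ 2 = 1 →
      IsPreconnected ((fun x : ℝ => ((x, 2 * σ, 0) : ℝ × ℝ × ℝ)) '' I) ∧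
      ((fun x : ℝ => ((x, 2 * σ, 0) : ℝ × ℝ × ℝ)) '' I) ⊆ slabR I := by
    intro σ hσ
    refine ⟨hI.image _ (by fun_prop), ?_⟩
    rintro _ ⟨x, hx, rfl⟩
    refine ⟨?_, hx⟩
    simp only
    rw [mul_pow, hσ]
    norm_num
  -- the cross section over `n + 1/2`
  set cr : ℝ → ℝ × ℝ × ℝ := fun t => ((n:ℝ) + 1 / 2, t,
    Real.sqrt ((4 - t ^ 2) * (t ^ 2 + Real.sin (Real.pi * ((n:ℝ) + 1 / 2)) ^ 2 - 1 / 2))) with hcr
  have hcross : IsPreconnected (cr '' Icc (-2) 2) := by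
    refine isPreconnected_Icc.image _ ?_
    refine Continuous.continuousOn ?_
    fun_prop
  have hcrosssub : cr '' Icc (-2) 2 ⊆ slabR I := by
    rintro _ ⟨t, ht, rfl⟩
    refine ⟨?_, hn⟩
    simp only [hcr]
    rw [Real.sq_sqrt]
    rw [sin_half_sq]
    have : t ^ 2 ≤ 4 := by nlinarith [ht.1, ht.2]
    apply mul_nonneg
    · linarith
    · have := sq_nonneg t
      linarith
  have hcrossend : ∀ σ : ℝ, σ ^ 2 = 1 → ((n:ℝ) + 1 / 2, 2 * σ, (0:ℝ)) ∈ cr '' Icc (-2) 2 := by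
    intro σ hσ
    refine ⟨2 * σ, ⟨by nlinarith, by nlinarith⟩, ?_⟩
    simp only [hcr]
    have : (4 - (2 * σ) ^ 2) = 0 := by rw [mul_pow, hσ]; norm_num
    rw [this, zero_mul, Real.sqrt_zero]
  refine isPreconnected_of_forall ((n:ℝ) + 1 / 2, 2 * 1, (0:ℝ)) ?_
  rintro ⟨x, y, z⟩ ⟨hp, hxI⟩
  simp only at hp hxI
  obtain ⟨hy4, hg⟩ := ladder_bounds hp
  obtain ⟨σ, hσ, hσy⟩ : ∃ σ : ℝ, σ ^ 2 = 1 ∧ 0 ≤ σ * y := by
    rcases le_total 0 y with h | h
    · exact ⟨1, by norm_num, by linarith⟩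
    · exact ⟨-1, by norm_num, by linarith⟩
  obtain ⟨τ, hτ, hτz⟩ : ∃ τ : ℝ, τ ^ 2 = 1 ∧ τ * |z| = z := by
    rcases le_total 0 z with h | h
    · exact ⟨1, by norm_num, by rw [abs_of_nonneg h, one_mul]⟩
    · exact ⟨-1, by norm_num, by rw [abs_of_nonpos h]; ring⟩
  set Y : ℝ → ℝ := fun t => y + t * (2 * σ - y) with hY
  set pa : ℝ → ℝ × ℝ × ℝ := fun t => (x, Y t,
    τ * Real.sqrt ((4 - (Y t) ^ 2) * ((Y t) ^ 2 + Real.sin (Real.pi * x) ^ 2 - 1 / 2))) with hpa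
  have hYbd : ∀ t ∈ Icc (0:ℝ) 1, (Y t) ^ 2 ≤ 4 ∧ y ^ 2 ≤ (Y t) ^ 2 := by
    intro t ht
    have hσy2 : σ * y ≤ 2 := by nlinarith
    have e1 : Y t = σ * (σ * y * (1 - t) + 2 * t) := by
      have : σ * (σ * y * (1 - t) + 2 * t) = σ ^ 2 * (y * (1 - t)) + 2 * σ * t := by ring
      rw [this, hσ]
      simp only [hY]
      ring
    have e2 : (Y t) ^ 2 = (σ * y * (1 - t) + 2 * t) ^ 2 := by
      rw [e1, mul_pow, hσ, one_mul]
    have e3 : y ^ 2 = (σ * y) ^ 2 := by rw [mul_pow, hσ, one_mul]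
    have e4 : σ * y ≤ σ * y * (1 - t) + 2 * t := by nlinarith [ht.1, ht.2]
    have e5 : σ * y * (1 - t) + 2 * t ≤ 2 := by nlinarith [ht.1, ht.2]
    rw [e2, e3]
    constructor <;> nlinarith
  have hpath : IsPreconnected (pa '' Icc 0 1) := by
    refine isPreconnected_Icc.image _ ?_
    refine Continuous.continuousOn ?_
    fun_prop
  have hpathsub : pa '' Icc 0 1 ⊆ slabR I := by
    rintro _ ⟨t, ht, rfl⟩
    refine ⟨?_, hxI⟩
    obtain ⟨b1, b2⟩ := hYbd t ht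
    simp only [hpa]
    rw [mul_pow, hτ, one_mul, Real.sq_sqrt]
    exact mul_nonneg (by linarith) (by linarith)
  have hpa0 : pa 0 = (x, y, z) := by
    simp only [hpa, hY, zero_mul, add_zero]
    rw [← hp, Real.sqrt_sq_eq_abs, hτz]
  have hpa1 : pa 1 = (x, 2 * σ, 0) := by
    have h1 : Y 1 = 2 * σ := by simp only [hY]; ring
    simp only [hpa, h1]
    have : (4 - (2 * σ) ^ 2) = 0 := by rw [mul_pow, hσ]; norm_num
    rw [this, zero_mul, Real.sqrt_zero, mul_zero]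
  obtain ⟨hl1, hl2⟩ := hline σ hσ
  refine ⟨(pa '' Icc 0 1 ∪ (fun x : ℝ => ((x, 2 * σ, 0) : ℝ × ℝ × ℝ)) '' I) ∪ cr '' Icc (-2) 2,
    union_subset (union_subset hpathsub hl2) hcrosssub, ?_, ?_, ?_⟩
  · right
    exact hcrossend 1 (by norm_num)
  · left; left
    exact ⟨0, by simp, hpa0⟩
  · refine IsPreconnected.union ((n:ℝ) + 1 / 2, 2 * σ, (0:ℝ)) ?_ (hcrossend σ hσ) ?_ hcross
    · right
      exact ⟨_, hn, rfl⟩
    · refine IsPreconnected.union (x, 2 * σ, (0:ℝ)) ?_ ?_ hpath hl1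
      · exact ⟨1, by simp, hpa1⟩
      · exact ⟨x, hxI, rfl⟩

lemma isPreconnected_slab {I : Set ℝ} (hI : IsPreconnected I) (n : ℤ)
    (hn : (n:ℝ) + 1 / 2 ∈ I) : IsPreconnected (xc ⁻¹' I) := by
  have h := isPreconnected_slabR hI n hn
  refine (Topology.IsInducing.isPreconnected_image
    (f := (Subtype.val : Ladder → ℝ × ℝ × ℝ)) Topology.IsInducing.subtypeVal).1 ?_
  convert h using 1
  ext p
  constructor
  · rintro ⟨q, hq, rfl⟩
    exact ⟨q.2, hq⟩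
  · rintro ⟨h1, h2⟩
    exact ⟨⟨p, h1⟩, h2, rfl⟩

instance : PreconnectedSpace Ladder :=
  ⟨by simpa using isPreconnected_slab isPreconnected_univ 0 (mem_univ _)⟩

end LadderVeech
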